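import Mathlib
import Pool.Agent.Lib.MP_daa227_pr.Good

/-!
# Copolymer: the quenched transition is of order larger than two. Definitions.
-/

namespace Pool.Agent.OT

open MeasureTheory ProbabilityTheory Finset Filter
open MP_daa227_pr (Chain Zk Zf K0 shift seqLaw ExpMom)

noncomputable section

/-! ### The copolymer and its kernels -/

/-- the potential of the copolymer -/
def phi (x : ℤ) : ℝ := if x ≤ 0 then 1 else 0

/-- site weights -/
def Wc (β h : ℝ) : ℝ → ℤ → ℝ := fun a z => Real.exp ((β * a - h) * phi z)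

/-- site energies -/
def en (β h : ℝ) (ω : ℕ → ℝ) : ℕ → ℝ := fun i => β * ω i - h

/-- probability that the first return is at time `2k` after a positive excursion -/
def Kp (C : Chain) (k : ℕ) : ℝ := C.p 0 1 * K0 C (2 * k - 1) 1

/-- probability that the first return is at time `2k` after a negative excursion -/
def Km (C : Chain) (k : ℕ) : ℝ := C.p 0 (-1) * K0 C (2 * k - 1) (-1)

/-! ### Renewal partition function in half-time -/

/-- weight of an excursion of length `2k` started at time `0` -/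
def gW (a b : ℕ → ℝ) (k : ℕ) (θ : ℕ → ℝ) : ℝ :=
  a k * Real.exp (θ (2 * k - 1)) + b k * Real.exp (∑ i ∈ range (2 * k), θ i)

/-- constrained partition function of length `2n` -/
def Zr (a b : ℕ → ℝ) : ℕ → (ℕ → ℝ) → ℝ
  | 0, _ => 1
  | n + 1, θ => ∑ k : Fin (n + 1), gW a b (k + 1) θ * Zr a b (n - k) (shift (2 * (k + 1)) θ)
termination_by n => n
decreasing_by omega

/-- weight of the configurations with `S_{2j} ≤ 0` -/
def Zneg (a b : ℕ → ℝ) (n j : ℕ) (θ : ℕ → ℝ) : ℝ :=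
  Zr a b j θ * Zr a b (n - j) (shift (2 * j) θ) +
    ∑ x ∈ range j, ∑ y ∈ Ioc j n, Zr a b x θ *
      (b (y - x) * Real.exp (∑ i ∈ Ico (2 * x) (2 * y), θ i)) *
      Zr a b (n - y) (shift (2 * y) θ)

/-- weight of the configurations with `S_{2j} > 0` -/
def Zpos (a b : ℕ → ℝ) (n j : ℕ) (θ : ℕ → ℝ) : ℝ :=
  ∑ x ∈ range j, ∑ y ∈ Ioc j n, Zr a b x θ *
      (a (y - x) * Real.exp (θ (2 * y - 1))) * Zr a b (n - y) (shift (2 * y) θ)

/-- probability of `S_{2j} ≤ 0` -/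
def pr (a b : ℕ → ℝ) (n j : ℕ) (θ : ℕ → ℝ) : ℝ := Zneg a b n j θ / Zr a b n θ

/-- insertion of a block of length `L` at the position `p` -/
def ins (p L : ℕ) (θ B : ℕ → ℝ) : ℕ → ℝ := fun i =>
  if i < p then θ i else if i < p + L then B (i - p) else θ (i - L)

/-- properties of the excursion kernels -/
structure KerOK (a b : ℕ → ℝ) : Prop where
  a_zero : a 0 = 0
  b_zero : b 0 = 0
  a_pos : ∀ k, 1 ≤ k → 0 < a k
  b_pos : ∀ k, 1 ≤ k → 0 < b k
  a_anti : ∀ k, 1 ≤ k → a (k + 1) ≤ a k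
  b_anti : ∀ k, 1 ≤ k → b (k + 1) ≤ b k
  b_conv : ∀ g L, 1 ≤ g → b g * b (1 + L) ≤ b (g + L) * b 1
  sum_one : HasSum (fun k => a k + b k) 1
  a_low : ∃ c e : ℝ, 0 < c ∧ 0 ≤ e ∧ ∀ k : ℕ, 1 ≤ k → c * (k : ℝ) ^ (-e) ≤ a k
  b_low : ∃ c e : ℝ, 0 < c ∧ 0 ≤ e ∧ ∀ k : ℕ, 1 ≤ k → c * (k : ℝ) ^ (-e) ≤ b k

/-! ### Finite exponential families -/

section Fam

variable {Ω ι : Type*} [Fintype Ω] [Fintype ι]

/-- partition function of a finite exponential family -/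
def ZE (w : Ω → ℝ) (x : Ω → ι → ℝ) (θ : ι → ℝ) : ℝ :=
  ∑ s, w s * Real.exp (∑ i, θ i * x s i)

/-- mean of `f` -/
def AE (w : Ω → ℝ) (x : Ω → ι → ℝ) (θ : ι → ℝ) (f : Ω → ℝ) : ℝ :=
  (∑ s, w s * Real.exp (∑ i, θ i * x s i) * f s) / ZE w x θ

/-- local density -/
def pE (w : Ω → ℝ) (x : Ω → ι → ℝ) (θ : ι → ℝ) (i : ι) : ℝ := AE w x θ (fun s => x s i)

/-- covariance -/
def cE (w : Ω → ℝ) (x : Ω → ι → ℝ) (θ : ι → ℝ) (i j : ι) : ℝ :=
  AE w x θ (fun s => x s i * x s j) - pE w x θ i * pE w x θ j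

/-- finite exponential families with spins in `[0,1]` and nonnegative correlations -/
structure EFam (w : Ω → ℝ) (x : Ω → ι → ℝ) : Prop where
  w_nonneg : ∀ s, 0 ≤ w s
  w_pos : ∃ s, 0 < w s
  x_nonneg : ∀ s i, 0 ≤ x s i
  x_le : ∀ s i, x s i ≤ 1
  corr : ∀ θ i j, 0 ≤ cE w x θ i j

/-- the standard Gaussian measure on `ι → ℝ` -/
def gP (ι : Type*) [Fintype ι] : Measure (ι → ℝ) := Measure.pi (fun _ => gaussianReal 0 1)

/-- quenched average of the logarithm, charges `b ξ` and field `f + δ` -/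
def LE (w : Ω → ℝ) (x : Ω → ι → ℝ) (b : ℝ) (f : ι → ℝ) (δ : ℝ) : ℝ :=
  ∫ ξ, Real.log (ZE w x (fun i => b * ξ i + f i + δ)) ∂gP ι

/-- mean number of sites with spin one -/
def ME (w : Ω → ℝ) (x : Ω → ι → ℝ) (b : ℝ) (f : ι → ℝ) (δ : ℝ) : ℝ :=
  ∫ ξ, ∑ i, pE w x (fun i => b * ξ i + f i + δ) i ∂gP ι

/-- overlap -/
def RE (w : Ω → ℝ) (x : Ω → ι → ℝ) (b : ℝ) (f : ι → ℝ) (δ : ℝ) : ℝ :=
  ∫ ξ, ∑ i, pE w x (fun i => b * ξ i + f i + δ) i ^ 2 ∂gP ι

end Fam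

/-- dyadic scales -/
def dy (k : ℕ) : ℝ := (1 / 2 : ℝ) ^ k

/-! ### Paths -/

/-- nearest-neighbour paths of length `m` from `0` to `0` -/
def PF (m : ℕ) : Finset (Fin (m + 1) → ℤ) :=
  (Fintype.piFinset fun _ => Finset.Icc (-(m : ℤ)) m).filter fun s =>
    s 0 = 0 ∧ s (Fin.last m) = 0 ∧
      ∀ i : Fin m, s i.succ = s i.castSucc + 1 ∨ s i.succ = s i.castSucc - 1

/-- weight of a path -/
def wt (C : Chain) (m : ℕ) (s : {s // s ∈ PF m}) : ℝ :=
  ∏ i : Fin m, C.p (s.1 i.castSucc) (s.1 i.succ)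

/-- spin of a path at time `i + 1` -/
def spin (m : ℕ) (s : {s // s ∈ PF m}) (i : Fin m) : ℝ := phi (s.1 i.succ)

/-- the first `m` energies -/
def tr (m : ℕ) (θ : ℕ → ℝ) : Fin m → ℝ := fun i => θ i

/-! ### Quenched averages for i.i.d. charges -/

/-- quenched average of the logarithm of the constrained partition function -/
def LZ (C : Chain) (μ : Measure ℝ) (β h : ℝ) (n : ℕ) : ℝ :=
  ∫ ω, Real.log (Zr (Kp C) (Km C) n (en β h ω)) ∂seqLaw μ

/-- mean number of sites `x ≤ 0` -/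
def MZ (C : Chain) (μ : Measure ℝ) (β h : ℝ) (n : ℕ) : ℝ :=
  ∫ ω, ∑ i, pE (wt C (2 * n)) (spin (2 * n)) (tr (2 * n) (en β h ω)) i ∂seqLaw μ

/-- overlap -/
def RZ (C : Chain) (μ : Measure ℝ) (β h : ℝ) (n : ℕ) : ℝ :=
  ∫ ω, ∑ i, pE (wt C (2 * n)) (spin (2 * n)) (tr (2 * n) (en β h ω)) i ^ 2 ∂seqLaw μ

/-- logarithmic moment generating function of the charges -/
def lmg (μ : Measure ℝ) (β : ℝ) : ℝ := Real.log (∫ x, Real.exp (β * x) ∂μ)

end

end Pool.Agent.OT
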