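import Mathlib
import Pool.Agent.Lib.MP_daa227_pr_OT.Defs
import Pool.Agent.Lib.MP_daa227_pr.Rev
import Pool.Agent.Lib.MP_daa227_pr.ExcLem

/-!
# The excursion kernels are positive, nonincreasing and log-convex
-/

namespace Pool.Agent.OT

open MeasureTheory ProbabilityTheory Finset Filter Topology
open MP_daa227_pr (Chain Zk Zf K0 shift seqLaw ExpMom)

noncomputable section

namespace K1

/-! ### Log-convex sequences -/

theorem ratio {f : ℕ → ℝ} (hf : ∀ k, 0 < f k) (hc : ∀ k, f (k + 1) ^ 2 ≤ f k * f (k + 2))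
    (L m : ℕ) : f (L + 1) * f (m + L) ≤ f (m + L + 1) * f L := by
  induction m with
  | zero => rw [Nat.zero_add]
  | succ m ih =>
    have h1 := hc (m + L)
    have h2 : m + 1 + L = m + L + 1 := by omega
    rw [h2]
    have h3 := hf (m + L)
    have h4 := hf (m + L + 1)
    have h5 := hf L
    have h6 : f (L + 1) * f (m + L) * f (m + L + 1) ≤ f (m + L + 1) * f L * f (m + L + 1) :=
      mul_le_mul_of_nonneg_right ih h4.le
    have h7 : f (m + L + 1) ^ 2 * f L ≤ f (m + L) * f (m + L + 2) * f L :=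
      mul_le_mul_of_nonneg_right h1 h5.le
    have h8 : f (m + L) * (f (L + 1) * f (m + L + 1)) ≤
        f (m + L) * (f (m + L + 1 + 1) * f L) := by
      have h9 : m + L + 1 + 1 = m + L + 2 := by omega
      rw [h9]
      nlinarith
    exact le_of_mul_le_mul_left h8 h3

theorem conv {f : ℕ → ℝ} (hf : ∀ k, 0 < f k) (hc : ∀ k, f (k + 1) ^ 2 ≤ f k * f (k + 2))
    (m L : ℕ) : f m * f L ≤ f (m + L) * f 0 := by
  induction L with
  | zero => rw [Nat.add_zero]
  | succ L ih =>
    have h1 := ratio hf hc L m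
    have h2 := hf (m + L)
    have h3 := hf m
    have h4 := hf (m + L + 1)
    have h5 : f m * (f (L + 1) * f (m + L)) ≤ f m * (f (m + L + 1) * f L) :=
      mul_le_mul_of_nonneg_left h1 h3.le
    have h6 : f (m + L + 1) * (f m * f L) ≤ f (m + L + 1) * (f (m + L) * f 0) :=
      mul_le_mul_of_nonneg_left ih h4.le
    have h7 : f (m + L) * (f m * f (L + 1)) ≤ f (m + L) * (f (m + (L + 1)) * f 0) := by
      have h8 : m + (L + 1) = m + L + 1 := by omega
      rw [h8]
      nlinarith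
    exact le_of_mul_le_mul_left h7 h2

theorem anti {f : ℕ → ℝ} (hf : ∀ k, 0 < f k) (hc : ∀ k, f (k + 1) ^ 2 ≤ f k * f (k + 2))
    (hb : ∀ k, f k ≤ 1) (k : ℕ) : f (k + 1) ≤ f k := by
  by_contra hcon
  rw [not_le] at hcon
  set r := f (k + 1) / f k with hr
  have hr1 : 1 < r := (one_lt_div (hf k)).mpr hcon
  have h1 : ∀ n : ℕ, r * f (k + n) ≤ f (k + n + 1) := by
    intro n
    have h2 := ratio hf hc k n
    rw [hr, div_mul_eq_mul_div, div_le_iff₀ (hf k)]
    have h3 : n + k = k + n := by omega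
    rw [h3] at h2
    exact h2
  have h2 : ∀ n : ℕ, r ^ n * f k ≤ f (k + n) := by
    intro n
    induction n with
    | zero => simp
    | succ n ih =>
      have h3 := h1 n
      have h4 : r * (r ^ n * f k) ≤ r * f (k + n) :=
        mul_le_mul_of_nonneg_left ih (by linarith)
      calc r ^ (n + 1) * f k = r * (r ^ n * f k) := by ring
        _ ≤ r * f (k + n) := h4
        _ ≤ _ := h3
  obtain ⟨n, hn⟩ := pow_unbounded_of_one_lt (1 / f k) hr1
  have h3 := h2 n
  have h4 := hb (k + n)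
  have h5 : 1 < r ^ n * f k := by
    rwa [div_lt_iff₀ (hf k)] at hn
  linarith

/-! ### The killed chain -/

variable (C : Chain)

theorem K0_zero (n : ℕ) (x : ℤ) (hx : 1 ≤ x) (h : (n : ℤ) < x) : K0 C n x = 0 := by
  induction n generalizing x with
  | zero => rfl
  | succ n ih =>
    rw [K0]
    have h1 : (if n = 0 then C.p x 0 else 0) = 0 := by
      split_ifs with h0
      · apply C.near
        rw [Finset.mem_Icc]
        push_cast at h
        omega
      · rfl
    rw [h1, zero_add]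
    refine Finset.sum_eq_zero fun z hz => ?_
    rw [Finset.mem_sdiff, Finset.mem_Icc, Finset.mem_singleton] at hz
    push_cast at h
    rw [ih z (by omega) (by omega), mul_zero]

theorem K0_one (x : ℤ) : K0 C 1 x = C.p x 0 := by
  rw [K0, if_pos rfl]
  have h : ∀ z ∈ Finset.Icc (x - 1) (x + 1) \ {0}, C.p x z * K0 C 0 z = 0 := by
    intro z _
    rw [K0, mul_zero]
  rw [Finset.sum_eq_zero h, add_zero]

theorem K0_le_one (n : ℕ) (x : ℤ) : K0 C n x ≤ 1 := by
  induction n generalizing x with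
  | zero =>
    rw [K0]
    exact zero_le_one
  | succ n ih =>
    rcases Nat.eq_zero_or_pos n with h0 | h0
    · subst h0
      rw [Nat.zero_add, K0_one]
      by_cases hx : (0 : ℤ) ∈ Finset.Icc (x - 1) (x + 1)
      · rw [← C.sum_one x]
        exact Finset.single_le_sum (f := fun y => C.p x y) (fun y _ => C.nonneg x y) hx
      · rw [C.near x 0 hx]
        exact zero_le_one
    · rw [K0, if_neg (by omega), zero_add, ← C.sum_one x]
      calc ∑ z ∈ Finset.Icc (x - 1) (x + 1) \ {0}, C.p x z * K0 C n z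
          ≤ ∑ z ∈ Finset.Icc (x - 1) (x + 1) \ {0}, C.p x z := by
            refine Finset.sum_le_sum fun z _ => ?_
            exact mul_le_of_le_one_right (C.nonneg x z) (ih z)
        _ ≤ _ := Finset.sum_le_sum_of_subset_of_nonneg Finset.sdiff_subset
            (fun y _ _ => C.nonneg x y)

theorem K0_rec (n N : ℕ) (hn : 1 ≤ n) (hN : n ≤ N) (x : ℤ) (hx : 1 ≤ x) :
    K0 C (n + 1) x = ∑ z ∈ Finset.Icc (1 : ℤ) N, C.p x z * K0 C n z := by
  rw [K0, if_neg (by omega), zero_add]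
  refine Finset.sum_congr_of_eq_on_inter ?_ ?_ (fun _ _ _ => rfl)
  · intro z hz hz2
    rw [Finset.mem_sdiff, Finset.mem_Icc, Finset.mem_singleton] at hz
    rw [Finset.mem_Icc] at hz2
    rw [K0_zero C n z (by omega) (by omega), mul_zero]
  · intro z hz hz2
    rw [Finset.mem_Icc] at hz
    rw [Finset.mem_sdiff, Finset.mem_singleton, not_and_or, not_not] at hz2
    rcases hz2 with h | h
    · rw [C.near x z h, zero_mul]
    · omega

theorem bal (x z : ℤ) : MP_daa227_pr.Rev.rv C x * C.p x z = MP_daa227_pr.Rev.rv C z * C.p z x := by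
  by_cases h : z ∈ Finset.Icc (x - 1) (x + 1)
  · exact MP_daa227_pr.Rev.balance' C h
  · have h2 : x ∉ Finset.Icc (z - 1) (z + 1) := by
      rw [Finset.mem_Icc] at h ⊢
      omega
    rw [C.near x z h, C.near z x h2, mul_zero, mul_zero]

/-- The scalar product of the hitting probabilities. -/
def BB (N i j : ℕ) : ℝ :=
  ∑ x ∈ Finset.Icc (1 : ℤ) N, MP_daa227_pr.Rev.rv C x * (K0 C (i + 1) x * K0 C (j + 1) x)

theorem BB_succ (N i j : ℕ) (hi : i + 1 ≤ N) (hj : j + 1 ≤ N) :
    BB C N (i + 1) j = BB C N i (j + 1) := by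
  unfold BB
  have h1 : ∀ x ∈ Finset.Icc (1 : ℤ) N, MP_daa227_pr.Rev.rv C x *
      (K0 C (i + 1 + 1) x * K0 C (j + 1) x) = ∑ z ∈ Finset.Icc (1 : ℤ) N,
        (MP_daa227_pr.Rev.rv C x * C.p x z) * (K0 C (i + 1) z * K0 C (j + 1) x) := by
    intro x hx
    rw [Finset.mem_Icc] at hx
    rw [K0_rec C (i + 1) N (by omega) hi x hx.1, Finset.sum_mul, Finset.mul_sum]
    refine Finset.sum_congr rfl fun z _ => ?_
    ring
  have h2 : ∀ x ∈ Finset.Icc (1 : ℤ) N, MP_daa227_pr.Rev.rv C x *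
      (K0 C (i + 1) x * K0 C (j + 1 + 1) x) = ∑ z ∈ Finset.Icc (1 : ℤ) N,
        (MP_daa227_pr.Rev.rv C x * C.p x z) * (K0 C (i + 1) x * K0 C (j + 1) z) := by
    intro x hx
    rw [Finset.mem_Icc] at hx
    rw [K0_rec C (j + 1) N (by omega) hj x hx.1, Finset.mul_sum, Finset.mul_sum]
    refine Finset.sum_congr rfl fun z _ => ?_
    ring
  rw [Finset.sum_congr rfl h1, Finset.sum_congr rfl h2, Finset.sum_comm]
  refine Finset.sum_congr rfl fun x _ => Finset.sum_congr rfl fun z _ => ?_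
  rw [bal C z x]

theorem BB_zero (N j : ℕ) (hN : 1 ≤ N) :
    BB C N 0 j = MP_daa227_pr.Rev.rv C 1 * C.p 1 0 * K0 C (j + 1) 1 := by
  unfold BB
  rw [Finset.sum_eq_single (1 : ℤ)]
  · rw [Nat.zero_add, K0_one]
    ring
  · intro x hx hx1
    rw [Finset.mem_Icc] at hx
    rw [K0_zero C (0 + 1) x hx.1 (by push_cast; omega)]
    ring
  · intro h
    exfalso
    apply h
    rw [Finset.mem_Icc]
    omega

theorem BB_eq (N i j : ℕ) (h : i + j + 1 ≤ N) :
    BB C N i j = MP_daa227_pr.Rev.rv C 1 * C.p 1 0 * K0 C (i + j + 1) 1 := by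
  induction i generalizing j with
  | zero =>
    rw [BB_zero C N j (by omega), Nat.zero_add]
  | succ i ih =>
    rw [BB_succ C N i j (by omega) (by omega), ih (j + 1) (by omega)]
    congr 2
    omega

theorem cs (i j : ℕ) :
    K0 C (i + j + 1) 1 ^ 2 ≤ K0 C (i + i + 1) 1 * K0 C (j + j + 1) 1 := by
  set R := MP_daa227_pr.Rev.rv C 1 * C.p 1 0 with hR
  have hR0 : 0 < R := by
    have h1 := C.down 1
    rw [sub_self] at h1
    exact mul_pos (MP_daa227_pr.Rev.rv_pos C 1) h1
  set N := i + i + j + j + 1 with hN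
  have h1 := BB_eq C N i j (by omega)
  have h2 := BB_eq C N i i (by omega)
  have h3 := BB_eq C N j j (by omega)
  have h4 : BB C N i j ^ 2 ≤ BB C N i i * BB C N j j := by
    unfold BB
    refine Finset.sum_sq_le_sum_mul_sum_of_sq_le_mul _ ?_ ?_ ?_
    · intro x _
      exact mul_nonneg (MP_daa227_pr.Rev.rv_pos C x).le (mul_self_nonneg _)
    · intro x _
      exact mul_nonneg (MP_daa227_pr.Rev.rv_pos C x).le (mul_self_nonneg _)
    · intro x _
      refine le_of_eq ?_
      ring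
  rw [h1, h2, h3, ← hR] at h4
  have h5 : R ^ 2 * K0 C (i + j + 1) 1 ^ 2 ≤
      R ^ 2 * (K0 C (i + i + 1) 1 * K0 C (j + j + 1) 1) := by nlinarith
  exact le_of_mul_le_mul_left h5 (by positivity)

theorem Kp_succ (k : ℕ) : Kp C (k + 1) = C.p 0 1 * K0 C (k + k + 1) 1 := by
  unfold Kp
  congr 2
  omega

theorem p01 : 0 < C.p 0 1 := by
  have h := C.up 0
  rwa [zero_add] at h

theorem p01_le : C.p 0 1 ≤ 1 := by
  rw [← C.sum_one 0]
  exact Finset.single_le_sum (f := fun y => C.p 0 y) (fun y _ => C.nonneg 0 y) (by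
    rw [Finset.mem_Icc]
    omega)

theorem f_pos (k : ℕ) : 0 < Kp C (k + 1) := by
  rw [Kp_succ]
  refine mul_pos (p01 C) ?_
  have h := MP_daa227_pr.K0_up C k k le_rfl
  have h1 : k + 1 + k = k + k + 1 := by omega
  have h2 : (k : ℤ) + 1 - k = 1 := by ring
  rwa [h1, h2] at h

theorem f_conv (k : ℕ) : Kp C (k + 1 + 1) ^ 2 ≤ Kp C (k + 1) * Kp C (k + 2 + 1) := by
  rw [Kp_succ, Kp_succ, Kp_succ]
  have h := cs C k (k + 2)
  have h1 : k + (k + 2) + 1 = k + 1 + (k + 1) + 1 := by omega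
  rw [h1] at h
  have h2 := p01 C
  calc (C.p 0 1 * K0 C (k + 1 + (k + 1) + 1) 1) ^ 2
      = C.p 0 1 ^ 2 * K0 C (k + 1 + (k + 1) + 1) 1 ^ 2 := by ring
    _ ≤ C.p 0 1 ^ 2 * (K0 C (k + k + 1) 1 * K0 C (k + 2 + (k + 2) + 1) 1) :=
        mul_le_mul_of_nonneg_left h (by positivity)
    _ = _ := by ring

theorem f_le (k : ℕ) : Kp C (k + 1) ≤ 1 := by
  rw [Kp_succ]
  exact mul_le_one₀ (p01_le C) (MP_daa227_pr.K0_nonneg C _ _) (K0_le_one C _ _)

/-! ### Reflection -/

/-- The reflected chain. -/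
def refl : Chain where
  p x y := C.p (-x) (-y)
  nonneg x y := C.nonneg _ _
  near x y h := by
    apply C.near
    rw [Finset.mem_Icc] at h ⊢
    omega
  sum_one x := by
    rw [← C.sum_one (-x)]
    refine Finset.sum_bij' (fun y _ => -y) (fun y _ => -y) ?_ ?_ ?_ ?_ ?_
    · intro y hy
      rw [Finset.mem_Icc] at hy ⊢
      omega
    · intro y hy
      rw [Finset.mem_Icc] at hy ⊢
      omega
    · intro y _
      exact neg_neg y
    · intro y _
      exact neg_neg y
    · intro y _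
      rfl
  up x := by
    have h := C.down (-x)
    have h1 : -(x + 1) = -x - 1 := by ring
    rw [h1]
    exact h
  down x := by
    have h := C.up (-x)
    have h1 : -(x - 1) = -x + 1 := by ring
    rw [h1]
    exact h

theorem K0_refl (n : ℕ) (x : ℤ) : K0 (refl C) n x = K0 C n (-x) := by
  induction n generalizing x with
  | zero => rfl
  | succ n ih =>
    rw [K0, K0]
    have h : (refl C).p x 0 = C.p (-x) 0 := by
      change C.p (-x) (-0) = C.p (-x) 0
      rw [neg_zero]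
    rw [h]
    congr 1
    · refine Finset.sum_bij' (fun y _ => -y) (fun y _ => -y) ?_ ?_ ?_ ?_ ?_
      · intro y hy
        rw [Finset.mem_sdiff, Finset.mem_Icc, Finset.mem_singleton] at hy ⊢
        omega
      · intro y hy
        rw [Finset.mem_sdiff, Finset.mem_Icc, Finset.mem_singleton] at hy ⊢
        omega
      · intro y _
        exact neg_neg y
      · intro y _
        exact neg_neg y
      · intro y _
        rw [ih]
        rfl

theorem Km_eq (k : ℕ) : Km C k = Kp (refl C) k := by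
  unfold Km Kp
  rw [K0_refl]
  rfl

end K1

open K1

theorem Kp_pos (C : Chain) {k : ℕ} (hk : 1 ≤ k) : 0 < Kp C k := by
  obtain ⟨m, rfl⟩ : ∃ m, k = m + 1 := ⟨k - 1, by omega⟩
  exact f_pos C m

theorem Km_pos (C : Chain) {k : ℕ} (hk : 1 ≤ k) : 0 < Km C k := by
  rw [Km_eq]
  exact Kp_pos _ hk

theorem Kp_anti (C : Chain) (hnl : ∀ x, C.p x x = 0) {k : ℕ} (hk : 1 ≤ k) :
    Kp C (k + 1) ≤ Kp C k := by
  obtain ⟨m, rfl⟩ : ∃ m, k = m + 1 := ⟨k - 1, by omega⟩
  exact anti (f := fun k => Kp C (k + 1)) (f_pos C) (f_conv C) (f_le C) m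

theorem Km_anti (C : Chain) (hnl : ∀ x, C.p x x = 0) {k : ℕ} (hk : 1 ≤ k) :
    Km C (k + 1) ≤ Km C k := by
  rw [Km_eq, Km_eq]
  exact Kp_anti _ (fun x => hnl (-x)) hk

theorem Km_conv (C : Chain) (hnl : ∀ x, C.p x x = 0) {g : ℕ} (hg : 1 ≤ g) (L : ℕ) :
    Km C g * Km C (1 + L) ≤ Km C (g + L) * Km C 1 := by
  obtain ⟨m, rfl⟩ : ∃ m, g = m + 1 := ⟨g - 1, by omega⟩
  rw [Km_eq, Km_eq, Km_eq, Km_eq]
  have h := conv (f := fun k => Kp (refl C) (k + 1)) (f_pos _) (f_conv _) m L
  have h1 : 1 + L = L + 1 := by omega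
  have h2 : m + 1 + L = m + L + 1 := by omega
  rw [h1, h2]
  exact h

end

end Pool.Agent.OT
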