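import Mathlib
import Pool.Agent.Lib.MP_daa227_pr_OT.Defs

/-!
# Decompositions of the constrained partition function
-/

namespace Pool.Agent.OT

open MeasureTheory ProbabilityTheory Finset Filter Topology
open MP_daa227_pr (Chain Zk Zf K0 shift seqLaw ExpMom)

noncomputable section

namespace D

/-! ### Abstract renewal kernels -/

/-- last excursion decomposition -/
theorem last_abs {P G : ℕ → ℕ → ℝ} (h0 : ∀ x, P x x = 1)
    (h1 : ∀ x y, x < y → P x y = ∑ z ∈ Ioc x y, G x z * P z y) :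
    ∀ d x y, y = x + d → x < y → P x y = ∑ z ∈ Ico x y, P x z * G z y := by
  intro d
  induction d using Nat.strong_induction_on with
  | _ d ih =>
    intro x y hd hxy
    rw [h1 x y hxy]
    have hI : Ioc x y = insert y (Ioo x y) := by
      ext z; simp only [mem_Ioc, mem_insert, mem_Ioo]; omega
    have hJ : Ico x y = insert x (Ioo x y) := by
      ext z; simp only [mem_Ico, mem_insert, mem_Ioo]; omega
    rw [hI, hJ, sum_insert (by simp), sum_insert (by simp), h0, h0, mul_one, one_mul]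
    congr 1
    have e1 : ∀ z ∈ Ioo x y, G x z * P z y =
        ∑ w ∈ Ico z y, G x z * (P z w * G w y) := by
      intro z hz
      rw [mem_Ioo] at hz
      rw [ih (y - z) (by omega) z y (by omega) hz.2, mul_sum]
    have e2 : ∀ w ∈ Ioo x y, P x w * G w y = ∑ z ∈ Ioc x w, G x z * (P z w * G w y) := by
      intro w hw
      rw [mem_Ioo] at hw
      rw [h1 x w hw.1, sum_mul]
      exact sum_congr rfl fun z _ => by ring
    rw [sum_congr rfl e1, sum_congr rfl e2]
    refine sum_comm' ?_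
    intro z w
    simp only [mem_Ioo, mem_Ico, mem_Ioc]
    omega

/-- decomposition at an intermediate time -/
theorem split_abs {P G : ℕ → ℕ → ℝ} (h0 : ∀ x, P x x = 1)
    (h1 : ∀ x y, x < y → P x y = ∑ z ∈ Ioc x y, G x z * P z y) (j y : ℕ) (hjy : j ≤ y) :
    ∀ d x, j = x + d → P x y = P x j * P j y +
      ∑ u ∈ Ico x j, ∑ v ∈ Ioc j y, P x u * G u v * P v y := by
  intro d
  induction d using Nat.strong_induction_on with
  | _ d ih =>
    intro x hd
    rcases Nat.eq_zero_or_pos d with rfl | hpos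
    · have : x = j := by omega
      subst this
      rw [h0, one_mul, Ico_self, sum_empty, add_zero]
    · have hxj : x < j := by omega
      rw [h1 x y (by omega)]
      have hI : Ioc x y = Ioc x j ∪ Ioc j y := by
        ext z; simp only [mem_Ioc, mem_union]; omega
      have hdis : Disjoint (Ioc x j) (Ioc j y) := by
        rw [Finset.disjoint_left]; intro z; simp only [mem_Ioc]; omega
      rw [hI, sum_union hdis]
      have e1 : ∀ z ∈ Ioc x j, G x z * P z y = G x z * P z j * P j y +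
          ∑ u ∈ Ico z j, ∑ v ∈ Ioc j y, G x z * (P z u * G u v * P v y) := by
        intro z hz
        rw [mem_Ioc] at hz
        rw [ih (j - z) (by omega) z (by omega), mul_add, mul_sum]
        congr 1
        · ring
        · exact sum_congr rfl fun u _ => by rw [mul_sum]
      rw [sum_congr rfl e1, sum_add_distrib, ← sum_mul, ← h1 x j hxj]
      have hJ : Ico x j = insert x (Ioo x j) := by
        ext z; simp only [mem_Ico, mem_insert, mem_Ioo]; omega
      rw [hJ, sum_insert (by simp), h0]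
      have e2 : ∑ z ∈ Ioc x j, ∑ u ∈ Ico z j, ∑ v ∈ Ioc j y, G x z * (P z u * G u v * P v y) =
          ∑ u ∈ Ioo x j, ∑ v ∈ Ioc j y, P x u * G u v * P v y := by
        rw [sum_comm' (t' := Ioo x j) (s' := fun u => Ioc x u)
          (by intro z w; simp only [mem_Ioo, mem_Ico, mem_Ioc]; omega)]
        refine sum_congr rfl fun u hu => ?_
        rw [mem_Ioo] at hu
        rw [sum_comm]
        refine sum_congr rfl fun v _ => ?_
        rw [h1 x u hu.1, sum_mul, sum_mul]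
        exact sum_congr rfl fun z _ => by ring
      rw [e2]
      simp only [one_mul]
      ring

/-! ### The copolymer -/

theorem Zr_zero (a b : ℕ → ℝ) (θ : ℕ → ℝ) : Zr a b 0 θ = 1 := by
  rw [Zr]

theorem Zr_succ (a b : ℕ → ℝ) (n : ℕ) (θ : ℕ → ℝ) : Zr a b (n + 1) θ =
    ∑ k ∈ range (n + 1), gW a b (k + 1) θ * Zr a b (n - k) (shift (2 * (k + 1)) θ) := by
  rw [Zr, Fin.sum_univ_eq_sum_range
    (fun k => gW a b (k + 1) θ * Zr a b (n - k) (shift (2 * (k + 1)) θ))]

theorem Zr_rec (a b : ℕ → ℝ) (θ : ℕ → ℝ) (x y : ℕ) (hxy : x < y) :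
    Zr a b (y - x) (shift (2 * x) θ) = ∑ z ∈ Ioc x y, gW a b (z - x) (shift (2 * x) θ) *
      Zr a b (y - z) (shift (2 * z) θ) := by
  obtain ⟨m, rfl⟩ : ∃ m, y = x + (m + 1) := ⟨y - x - 1, by omega⟩
  rw [Nat.add_sub_cancel_left, Zr_succ]
  have hI : Ioc x (x + (m + 1)) = Ico (x + 1) (x + 1 + (m + 1)) := by
    ext z; simp only [mem_Ioc, mem_Ico]; omega
  rw [hI, sum_Ico_eq_sum_range, Nat.add_sub_cancel_left]
  refine sum_congr rfl fun k hk => ?_
  rw [mem_range] at hk
  rw [MP_daa227_pr.shift_shift]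
  have e1 : x + 1 + k - x = k + 1 := by omega
  have e2 : x + (m + 1) - (x + 1 + k) = m - k := by omega
  have e3 : 2 * (k + 1) + 2 * x = 2 * (x + 1 + k) := by ring
  rw [e1, e2, e3]

theorem gW_shift (a b : ℕ → ℝ) (θ : ℕ → ℝ) (x y : ℕ) (hxy : x < y) :
    gW a b (y - x) (shift (2 * x) θ) = a (y - x) * Real.exp (θ (2 * y - 1)) +
      b (y - x) * Real.exp (∑ i ∈ Ico (2 * x) (2 * y), θ i) := by
  unfold gW
  have e1 : shift (2 * x) θ (2 * (y - x) - 1) = θ (2 * y - 1) := by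
    rw [MP_daa227_pr.shift_apply]
    congr 1
    omega
  have e2 : ∑ i ∈ range (2 * (y - x)), shift (2 * x) θ i = ∑ i ∈ Ico (2 * x) (2 * y), θ i := by
    rw [sum_Ico_eq_sum_range]
    have : 2 * y - 2 * x = 2 * (y - x) := by omega
    rw [this]
    exact sum_congr rfl fun i _ => by rw [MP_daa227_pr.shift_apply, add_comm]
  rw [e1, e2]

theorem gW_pos {a b : ℕ → ℝ} (hK : KerOK a b) {k : ℕ} (hk : 1 ≤ k) (θ : ℕ → ℝ) :
    0 < gW a b k θ :=
  add_pos (mul_pos (hK.a_pos k hk) (Real.exp_pos _)) (mul_pos (hK.b_pos k hk) (Real.exp_pos _))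

theorem gW_congr (a b : ℕ → ℝ) {k : ℕ} (hk : 1 ≤ k) {θ θ' : ℕ → ℝ}
    (h : ∀ i < 2 * k, θ i = θ' i) : gW a b k θ = gW a b k θ' := by
  unfold gW
  rw [h _ (by omega), sum_congr rfl fun i hi => h i (mem_range.mp hi)]

end D

theorem Zr_pos {a b : ℕ → ℝ} (hK : KerOK a b) (n : ℕ) (θ : ℕ → ℝ) : 0 < Zr a b n θ := by
  induction n using Nat.strong_induction_on generalizing θ with
  | _ n ih =>
    cases n with
    | zero => rw [D.Zr_zero]; exact one_pos
    | succ n =>
      rw [D.Zr_succ]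
      refine sum_pos (fun k hk => ?_) ⟨0, mem_range.mpr (Nat.succ_pos _)⟩
      exact mul_pos (D.gW_pos hK (by omega) _) (ih _ (by omega) _)

theorem Zr_congr (a b : ℕ → ℝ) (n : ℕ) {θ θ' : ℕ → ℝ} (h : ∀ i < 2 * n, θ i = θ' i) :
    Zr a b n θ = Zr a b n θ' := by
  induction n using Nat.strong_induction_on generalizing θ θ' with
  | _ n ih =>
    cases n with
    | zero => rw [D.Zr_zero, D.Zr_zero]
    | succ n =>
      rw [D.Zr_succ, D.Zr_succ]
      refine sum_congr rfl fun k hk => ?_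
      rw [mem_range] at hk
      rw [D.gW_congr a b (by omega) (fun i hi => h i (by omega)),
        ih (n - k) (by omega) (θ := shift (2 * (k + 1)) θ) (θ' := shift (2 * (k + 1)) θ')
          (fun i hi => h _ (by omega))]

/-- decomposition according to the last excursion -/
theorem Zr_last (a b : ℕ → ℝ) (n : ℕ) (θ : ℕ → ℝ) :
    Zr a b (n + 1) θ = ∑ x ∈ range (n + 1),
      Zr a b x θ * gW a b (n + 1 - x) (shift (2 * x) θ) := by
  have h := D.last_abs (P := fun x y => Zr a b (y - x) (shift (2 * x) θ))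
    (G := fun x y => gW a b (y - x) (shift (2 * x) θ))
    (fun x => by simp only [Nat.sub_self]; exact D.Zr_zero a b _)
    (fun x y hxy => D.Zr_rec a b θ x y hxy) (n + 1) 0 (n + 1) (by omega) (Nat.succ_pos _)
  simpa only [Nat.sub_zero, Nat.mul_zero, MP_daa227_pr.shift_zero, Nat.Ico_zero_eq_range] using h

namespace D

/-- decomposition at an intermediate time -/
theorem Zr_mid (a b : ℕ → ℝ) {n j : ℕ} (hj : j ≤ n) (θ : ℕ → ℝ) :
    Zr a b n θ = Zr a b j θ * Zr a b (n - j) (shift (2 * j) θ) +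
      ∑ x ∈ range j, ∑ y ∈ Ioc j n, Zr a b x θ * gW a b (y - x) (shift (2 * x) θ) *
        Zr a b (n - y) (shift (2 * y) θ) := by
  have h := split_abs (P := fun x y => Zr a b (y - x) (shift (2 * x) θ))
    (G := fun x y => gW a b (y - x) (shift (2 * x) θ))
    (fun x => by simp only [Nat.sub_self]; exact Zr_zero a b _)
    (fun x y hxy => Zr_rec a b θ x y hxy) j n hj j 0 (by omega)
  simpa only [Nat.sub_zero, Nat.mul_zero, MP_daa227_pr.shift_zero, Nat.Ico_zero_eq_range] using h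

end D

theorem Zr_split {a b : ℕ → ℝ} {n j : ℕ} (hj1 : 1 ≤ j) (hj : j ≤ n) (θ : ℕ → ℝ) :
    Zr a b n θ = Zpos a b n j θ + Zneg a b n j θ := by
  rw [D.Zr_mid a b hj θ]
  unfold Zpos Zneg
  rw [add_left_comm, ← sum_add_distrib]
  congr 1
  refine sum_congr rfl fun x hx => ?_
  rw [← sum_add_distrib]
  refine sum_congr rfl fun y hy => ?_
  rw [mem_range] at hx
  rw [mem_Ioc] at hy
  rw [D.gW_shift a b θ x y (by omega)]
  ring

theorem Zr_mul_le {a b : ℕ → ℝ} (hK : KerOK a b) (m n : ℕ) (θ : ℕ → ℝ) :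
    Zr a b m θ * Zr a b n (shift (2 * m) θ) ≤ Zr a b (m + n) θ := by
  rw [D.Zr_mid a b (Nat.le_add_right m n) θ, Nat.add_sub_cancel_left]
  refine le_add_of_nonneg_right (sum_nonneg fun x hx => sum_nonneg fun y hy => ?_)
  rw [mem_range] at hx
  rw [mem_Ioc] at hy
  exact (mul_pos (mul_pos (Zr_pos hK _ _) (D.gW_pos hK (by omega) _)) (Zr_pos hK _ _)).le

theorem Zpos_indep {a b : ℕ → ℝ} {n j : ℕ} (hj1 : 1 ≤ j) (hj : j ≤ n) {θ θ' : ℕ → ℝ}
    (h : ∀ i, i ≠ 2 * j - 1 → θ i = θ' i) : Zpos a b n j θ = Zpos a b n j θ' := by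
  unfold Zpos
  refine sum_congr rfl fun x hx => sum_congr rfl fun y hy => ?_
  rw [mem_range] at hx
  rw [mem_Ioc] at hy
  rw [Zr_congr a b x (fun i hi => h i (by omega)), h (2 * y - 1) (by omega),
    Zr_congr a b (n - y) (θ := shift (2 * y) θ) (θ' := shift (2 * y) θ')
      (fun i hi => h _ (by omega))]

namespace D

theorem exp_indep {j x y : ℕ} (hj1 : 1 ≤ j) (hx : x < j) (hy : j ≤ y) {θ θ' : ℕ → ℝ}
    (h : ∀ i, i ≠ 2 * j - 1 → θ i = θ' i) :
    Real.exp (∑ i ∈ Ico (2 * x) (2 * y), θ i) * Real.exp (-θ (2 * j - 1)) =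
      Real.exp (∑ i ∈ Ico (2 * x) (2 * y), θ' i) * Real.exp (-θ' (2 * j - 1)) := by
  have hm : 2 * j - 1 ∈ Ico (2 * x) (2 * y) := by rw [mem_Ico]; omega
  rw [← Real.exp_add, ← Real.exp_add, ← add_sum_erase _ _ hm, ← add_sum_erase _ (fun i => θ' i) hm]
  congr 1
  rw [sum_congr rfl (fun i hi => h i (ne_of_mem_erase hi))]
  ring

end D

theorem Zneg_indep {a b : ℕ → ℝ} {n j : ℕ} (hj1 : 1 ≤ j) (hj : j ≤ n) {θ θ' : ℕ → ℝ}
    (h : ∀ i, i ≠ 2 * j - 1 → θ i = θ' i) :
    Zneg a b n j θ * Real.exp (-θ (2 * j - 1)) = Zneg a b n j θ' * Real.exp (-θ' (2 * j - 1)) := by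
  have key : Zr a b j θ * Real.exp (-θ (2 * j - 1)) = Zr a b j θ' * Real.exp (-θ' (2 * j - 1)) := by
    obtain ⟨m, rfl⟩ : ∃ m, j = m + 1 := ⟨j - 1, by omega⟩
    rw [Zr_last, Zr_last, sum_mul, sum_mul]
    refine sum_congr rfl fun x hx => ?_
    rw [mem_range] at hx
    rw [D.gW_shift a b θ x (m + 1) (by omega), D.gW_shift a b θ' x (m + 1) (by omega),
      Zr_congr a b x (fun i hi => h i (by omega))]
    have e1 := D.exp_indep hj1 hx le_rfl h
    have e2 : Real.exp (θ (2 * (m + 1) - 1)) * Real.exp (-θ (2 * (m + 1) - 1)) = 1 := by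
      rw [← Real.exp_add, add_neg_cancel, Real.exp_zero]
    have e3 : Real.exp (θ' (2 * (m + 1) - 1)) * Real.exp (-θ' (2 * (m + 1) - 1)) = 1 := by
      rw [← Real.exp_add, add_neg_cancel, Real.exp_zero]
    linear_combination (Zr a b x θ' * a (m + 1 - x)) * e2 - (Zr a b x θ' * a (m + 1 - x)) * e3 +
      (Zr a b x θ' * b (m + 1 - x)) * e1
  unfold Zneg
  rw [add_mul, add_mul]
  congr 1
  · rw [Zr_congr a b (n - j) (θ := shift (2 * j) θ) (θ' := shift (2 * j) θ')
      (fun i hi => h _ (by omega))]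
    linear_combination (Zr a b (n - j) (shift (2 * j) θ')) * key
  · rw [sum_mul, sum_mul]
    refine sum_congr rfl fun x hx => ?_
    rw [sum_mul, sum_mul]
    refine sum_congr rfl fun y hy => ?_
    rw [mem_range] at hx
    rw [mem_Ioc] at hy
    rw [Zr_congr a b x (fun i hi => h i (by omega)),
      Zr_congr a b (n - y) (θ := shift (2 * y) θ) (θ' := shift (2 * y) θ')
        (fun i hi => h _ (by omega))]
    have e1 := D.exp_indep (y := y) hj1 hx (by omega) h
    linear_combination (Zr a b x θ' * b (y - x) * Zr a b (n - y) (shift (2 * y) θ')) * e1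

theorem Zneg_pos {a b : ℕ → ℝ} (hK : KerOK a b) {n j : ℕ} (hj : j ≤ n) (θ : ℕ → ℝ) :
    0 < Zneg a b n j θ := by
  unfold Zneg
  refine add_pos_of_pos_of_nonneg (mul_pos (Zr_pos hK _ _) (Zr_pos hK _ _))
    (sum_nonneg fun x hx => sum_nonneg fun y hy => ?_)
  rw [mem_range] at hx
  rw [mem_Ioc] at hy
  exact (mul_pos (mul_pos (Zr_pos hK _ _) (mul_pos (hK.b_pos _ (by omega)) (Real.exp_pos _)))
    (Zr_pos hK _ _)).le

theorem Zpos_pos {a b : ℕ → ℝ} (hK : KerOK a b) {n j : ℕ} (hj1 : 1 ≤ j) (hj : j < n)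
    (θ : ℕ → ℝ) : 0 < Zpos a b n j θ := by
  unfold Zpos
  refine sum_pos (fun x hx => sum_pos (fun y hy => ?_) ⟨n, mem_Ioc.mpr ⟨hj, le_rfl⟩⟩)
    ⟨0, mem_range.mpr hj1⟩
  rw [mem_range] at hx
  rw [mem_Ioc] at hy
  exact mul_pos (mul_pos (Zr_pos hK _ _) (mul_pos (hK.a_pos _ (by omega)) (Real.exp_pos _)))
    (Zr_pos hK _ _)

end

end Pool.Agent.OT
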