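import Mathlib
import Pool.Agent.Lib.MP_daa227_pr_OT.Defs
import Pool.Agent.Lib.MP_daa227_pr.Deco

/-!
# PROJECT OT, module K2: the copolymer in terms of its excursion kernels
-/

namespace Pool.Agent.OT

open MeasureTheory ProbabilityTheory Finset Filter Topology
open MP_daa227_pr (Chain Zk Zf K0 shift seqLaw ExpMom)

noncomputable section

namespace K2

open MP_daa227_pr (Gk Ren Zk_eq_Ren Ren_pos_eq)

variable (C : Chain) (β h : ℝ)

theorem en_shift (k : ℕ) (ω : ℕ → ℝ) : en β h (shift k ω) = shift k (en β h ω) := rfl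

theorem Wc_pos {a : ℝ} {z : ℤ} (hz : 0 < z) : Wc β h a z = 1 := by
  unfold Wc phi
  rw [if_neg (not_le.2 hz), mul_zero, Real.exp_zero]

theorem Wc_nonpos {a : ℝ} {z : ℤ} (hz : z ≤ 0) : Wc β h a z = Real.exp (β * a - h) := by
  unfold Wc phi
  rw [if_pos hz, mul_one]

theorem K0_succ (n : ℕ) (x : ℤ) : K0 C (n + 1) x = (if n = 0 then C.p x 0 else 0) +
    ∑ z ∈ Finset.Icc (x - 1) (x + 1) \ {0}, C.p x z * K0 C n z := rfl

theorem Gk_succ (W : ℝ → ℤ → ℝ) (B : Finset ℤ) (n : ℕ) (ω : ℕ → ℝ) (x y : ℤ) :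
    Gk C W B (n + 1) ω x y = (if n = 0 then C.p x y * W (ω 0) y else 0) +
      ∑ z ∈ Finset.Icc (x - 1) (x + 1) \ B, C.p x z * W (ω 0) z * Gk C W B n (shift 1 ω) z y := rfl

/-- positive side -/
theorem Gk_pos : ∀ (n : ℕ) (ω : ℕ → ℝ) (x : ℤ), 0 < x →
    Gk C (Wc β h) {0} n ω x 0 = K0 C n x * Real.exp (en β h ω (n - 1)) := by
  intro n
  induction n with
  | zero =>
    intro ω x _
    change (0 : ℝ) = 0 * _
    rw [zero_mul]
  | succ n ih =>
    intro ω x hx
    rw [Gk_succ, K0_succ, add_mul, Finset.sum_mul]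
    congr 1
    · split_ifs with hn
      · subst hn
        rw [Wc_nonpos β h le_rfl]
        rfl
      · rw [zero_mul]
    · refine Finset.sum_congr rfl fun z hz => ?_
      rw [Finset.mem_sdiff, Finset.mem_Icc, Finset.mem_singleton] at hz
      have hz0 : 0 < z := by omega
      rw [Wc_pos β h hz0, ih _ z hz0, mul_one, en_shift]
      rcases Nat.eq_zero_or_pos n with hn | hn
      · subst hn
        change C.p x z * (0 * _) = C.p x z * 0 * _
        ring
      · have : shift 1 (en β h ω) (n - 1) = en β h ω (n + 1 - 1) := by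
          change en β h ω (n - 1 + 1) = _
          congr 1
          omega
        rw [this]
        ring

/-- negative side -/
theorem Gk_neg : ∀ (n : ℕ) (ω : ℕ → ℝ) (x : ℤ), x < 0 →
    Gk C (Wc β h) {0} n ω x 0 = K0 C n x * Real.exp (∑ i ∈ range n, en β h ω i) := by
  intro n
  induction n with
  | zero =>
    intro ω x _
    change (0 : ℝ) = 0 * _
    rw [zero_mul]
  | succ n ih =>
    intro ω x hx
    rw [Gk_succ, K0_succ, add_mul, Finset.sum_mul]
    congr 1
    · split_ifs with hn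
      · subst hn
        rw [Wc_nonpos β h le_rfl]
        simp [en]
      · rw [zero_mul]
    · refine Finset.sum_congr rfl fun z hz => ?_
      rw [Finset.mem_sdiff, Finset.mem_Icc, Finset.mem_singleton] at hz
      have hz0 : z < 0 := by omega
      rw [Wc_nonpos β h hz0.le, ih _ z hz0, Finset.sum_range_succ', Real.exp_add]
      change C.p x z * Real.exp (β * ω 0 - h) *
        (K0 C n z * Real.exp (∑ i ∈ range n, en β h ω (i + 1))) =
        C.p x z * K0 C n z * (Real.exp (∑ i ∈ range n, en β h ω (i + 1)) *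
          Real.exp (β * ω 0 - h))
      ring

/-- parity -/
theorem K0_parity (hnl : ∀ x, C.p x x = 0) : ∀ (n : ℕ) (x : ℤ), (n + x) % 2 = 1 →
    K0 C n x = 0 := by
  intro n
  induction n with
  | zero => intro x _; rfl
  | succ n ih =>
    intro x hx
    rw [K0_succ]
    have h1 : (if n = 0 then C.p x 0 else 0) = 0 := by
      split_ifs with hn
      · subst hn
        by_cases hx0 : x = 0
        · rw [hx0]; exact hnl 0
        · apply C.near
          rw [Finset.mem_Icc]
          push_cast at hx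
          omega
      · rfl
    rw [h1, zero_add]
    refine Finset.sum_eq_zero fun z hz => ?_
    rw [Finset.mem_sdiff, Finset.mem_Icc, Finset.mem_singleton] at hz
    by_cases hzx : z = x
    · rw [hzx, hnl, zero_mul]
    · rw [ih z (by push_cast at hx; omega), mul_zero]

/-- kernel from zero to zero -/
theorem Gk_zero (hnl : ∀ x, C.p x x = 0) (n : ℕ) (ω : ℕ → ℝ) :
    Gk C (Wc β h) {0} (n + 1) ω 0 0 =
      C.p 0 1 * K0 C n 1 * Real.exp (en β h ω n) +
        C.p 0 (-1) * K0 C n (-1) * Real.exp (∑ i ∈ range (n + 1), en β h ω i) := by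
  rw [Gk_succ]
  have h1 : (if n = 0 then C.p 0 0 * Wc β h (ω 0) 0 else 0) = 0 := by
    rw [hnl, zero_mul, ite_self]
  have h2 : (Finset.Icc ((0 : ℤ) - 1) (0 + 1) \ {0}) = {1, -1} := by decide
  rw [h1, zero_add, h2, Finset.sum_pair (by decide), Gk_pos C β h n _ 1 (by norm_num),
    Gk_neg C β h n _ (-1) (by norm_num), Wc_pos β h (by norm_num), Wc_nonpos β h (by norm_num),
    Finset.sum_range_succ', Real.exp_add]
  have h3 : K0 C n 1 * Real.exp (en β h (shift 1 ω) (n - 1)) =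
      K0 C n 1 * Real.exp (en β h ω n) := by
    rcases Nat.eq_zero_or_pos n with hn | hn
    · subst hn
      change (0 : ℝ) * _ = 0 * _
      ring
    · have : en β h (shift 1 ω) (n - 1) = en β h ω n := by
        change en β h ω (n - 1 + 1) = _
        congr 1
        omega
      rw [this]
  rw [h3]
  change C.p 0 1 * 1 * (K0 C n 1 * Real.exp (en β h ω n)) + C.p 0 (-1) * Real.exp (β * ω 0 - h) *
      (K0 C n (-1) * Real.exp (∑ i ∈ range n, en β h ω (i + 1))) =
    C.p 0 1 * K0 C n 1 * Real.exp (en β h ω n) + C.p 0 (-1) * K0 C n (-1) *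
      (Real.exp (∑ i ∈ range n, en β h ω (i + 1)) * Real.exp (β * ω 0 - h))
  ring

theorem Gk_odd (hnl : ∀ x, C.p x x = 0) (k : ℕ) (ω : ℕ → ℝ) :
    Gk C (Wc β h) {0} (2 * k + 1) ω 0 0 = 0 := by
  rw [Gk_zero C β h hnl, K0_parity C hnl (2 * k) 1 (by push_cast; omega),
    K0_parity C hnl (2 * k) (-1) (by push_cast; omega)]
  ring

theorem Gk_even (hnl : ∀ x, C.p x x = 0) (k : ℕ) (ω : ℕ → ℝ) :
    Gk C (Wc β h) {0} (2 * k + 1 + 1) ω 0 0 = gW (Kp C) (Km C) (k + 1) (en β h ω) := by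
  rw [Gk_zero C β h hnl]
  unfold gW Kp Km
  rw [show 2 * (k + 1) - 1 = 2 * k + 1 by omega, show 2 * (k + 1) = 2 * k + 1 + 1 by ring]

theorem sum_even (F : ℕ → ℝ) (n : ℕ) : ∑ L ∈ Finset.Ioc 0 (2 * (n + 1)), F L =
    ∑ k ∈ range (n + 1), (F (2 * k + 1) + F (2 * k + 1 + 1)) := by
  induction n with
  | zero =>
    simp [Finset.sum_Ioc_succ_top]
  | succ n ih =>
    rw [Finset.sum_range_succ, ← ih, show 2 * (n + 1 + 1) = 2 * (n + 1) + 1 + 1 by ring,
      Finset.sum_Ioc_succ_top (by omega), Finset.sum_Ioc_succ_top (by omega)]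
    ring

theorem Zr_succ (a b : ℕ → ℝ) (n : ℕ) (θ : ℕ → ℝ) : Zr a b (n + 1) θ =
    ∑ k ∈ range (n + 1), gW a b (k + 1) θ * Zr a b (n - k) (shift (2 * (k + 1)) θ) := by
  rw [Zr, ← Fin.sum_univ_eq_sum_range
    (fun k => gW a b (k + 1) θ * Zr a b (n - k) (shift (2 * (k + 1)) θ))]

end K2

open MP_daa227_pr (Gk Ren Zk_eq_Ren Ren_pos_eq) in
theorem Zk_eq_Zr (C : Chain) (hnl : ∀ x, C.p x x = 0) (β h : ℝ) (n : ℕ) (ω : ℕ → ℝ) :
    Zk C (Wc β h) (2 * n) ω 0 0 = Zr (Kp C) (Km C) n (en β h ω) := by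
  induction n using Nat.strong_induction_on generalizing ω with
  | _ n ih =>
    rcases n with _ | n
    · rw [Zr]
      change (if (0 : ℤ) = 0 then (1 : ℝ) else 0) = 1
      rw [if_pos rfl]
    · have h0 : (0 : ℤ) ∈ ({0} : Finset ℤ) := Finset.mem_singleton_self 0
      rw [Zk_eq_Ren C (Wc β h) {0} h0, Ren_pos_eq {0} _ (by omega)]
      simp only [Finset.sum_singleton]
      rw [K2.sum_even, K2.Zr_succ]
      refine Finset.sum_congr rfl fun k hk => ?_
      rw [Finset.mem_range] at hk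
      rw [K2.Gk_odd C β h hnl, zero_mul, zero_add, K2.Gk_even C β h hnl,
        ← Zk_eq_Ren C (Wc β h) {0} h0, show 2 * (n + 1) - (2 * k + 1 + 1) = 2 * (n - k) by omega,
        ih (n - k) (by omega), K2.en_shift, show 2 * k + 1 + 1 = 2 * (k + 1) by ring]

end

end Pool.Agent.OT
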