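import Mathlib
import Pool.Agent.Lib.MP_daa227_pr_OT.Defs
import Pool.Agent.Lib.MP_daa227_pr.Deco
import Pool.Agent.Lib.MP_daa227_pr.Free
import Pool.Agent.Lib.MP_daa227_pr_OT.KZ
import Pool.Agent.Lib.MP_daa227_pr_OT.Dec

namespace Pool.Agent.OT

open MeasureTheory ProbabilityTheory Finset Filter Topology
open MP_daa227_pr (Chain Zk Zf K0 shift seqLaw ExpMom)

noncomputable section

namespace L1

open MP_daa227_pr (Gf Gk GoodW Good LipOn good_Zf good_Zk Zf_last shift_shift)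

theorem Wc_pos (β h : ℝ) (a : ℝ) (z : ℤ) : 0 < Wc β h a z := Real.exp_pos _

theorem Wc_of_pos (β h : ℝ) (a : ℝ) {z : ℤ} (hz : 0 < z) : Wc β h a z = 1 := by
  unfold Wc phi
  rw [if_neg (by omega)]
  simp

theorem Wc_of_neg (β h : ℝ) (a : ℝ) {z : ℤ} (hz : z ≤ 0) :
    Wc β h a z = Real.exp (β * a - h) := by
  unfold Wc phi
  rw [if_pos hz, mul_one]

theorem goodW (β h : ℝ) : GoodW |β| (Wc β h) := by
  refine ⟨fun z => ?_, fun a z => Wc_pos _ _ _ _, fun a b z => ?_⟩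
  · unfold Wc; fun_prop
  · unfold Wc
    rw [← Real.exp_add]
    apply Real.exp_le_exp.2
    have h0 : 0 ≤ phi z ∧ phi z ≤ 1 := by
      unfold phi; split_ifs <;> norm_num
    have h1 : β * (a - b) * phi z ≤ |β| * |a - b| := by
      calc β * (a - b) * phi z ≤ |β * (a - b)| * phi z :=
            mul_le_mul_of_nonneg_right (le_abs_self _) h0.1
        _ ≤ |β * (a - b)| * 1 := mul_le_mul_of_nonneg_left h0.2 (abs_nonneg _)
        _ = |β| * |a - b| := by rw [abs_mul, mul_one]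
    nlinarith

theorem Zk_nonneg (C : Chain) {W : ℝ → ℤ → ℝ} (hW : ∀ a z, 0 < W a z) (n : ℕ) (ω : ℕ → ℝ)
    (x y : ℤ) : 0 ≤ Zk C W n ω x y := by
  induction n generalizing ω x with
  | zero => simp only [Zk]; split_ifs <;> norm_num
  | succ n ih =>
    simp only [Zk]
    exact Finset.sum_nonneg fun z _ => mul_nonneg (mul_nonneg (C.nonneg _ _) (hW _ _).le) (ih _ _)

theorem Gf_nonneg (C : Chain) {W : ℝ → ℤ → ℝ} (hW : ∀ a z, 0 < W a z) (B : Finset ℤ) (n : ℕ)
    (ω : ℕ → ℝ) (x : ℤ) : 0 ≤ Gf C W B n ω x := by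
  induction n generalizing ω x with
  | zero => simp only [Gf]; norm_num
  | succ n ih =>
    simp only [Gf]
    exact Finset.sum_nonneg fun z _ => mul_nonneg (mul_nonneg (C.nonneg _ _) (hW _ _).le) (ih _ _)

/-- parity -/
theorem Zk_odd (C : Chain) (hnl : ∀ x, C.p x x = 0) (W : ℝ → ℤ → ℝ) (n : ℕ) (ω : ℕ → ℝ)
    (x y : ℤ) (h : (x + y + n) % 2 = 1) : Zk C W n ω x y = 0 := by
  induction n generalizing ω x with
  | zero =>
    simp only [Zk]
    rw [if_neg]
    rintro rfl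
    simp only [Nat.cast_zero, add_zero] at h
    omega
  | succ n ih =>
    simp only [Zk]
    refine Finset.sum_eq_zero fun z hz => ?_
    rw [Finset.mem_Icc] at hz
    by_cases hzx : z = x
    · rw [hzx, hnl, zero_mul, zero_mul]
    · rw [ih, mul_zero]
      push_cast at h
      omega

/-- sums over the neighbours -/
theorem sum_le_of_forall (C : Chain) (x : ℤ) (s : Finset ℤ) (hs : s ⊆ Finset.Icc (x - 1) (x + 1))
    (f : ℤ → ℝ) (c : ℝ) (hc : 0 ≤ c) (hf : ∀ z ∈ s, f z ≤ c) :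
    ∑ z ∈ s, C.p x z * f z ≤ c := by
  calc ∑ z ∈ s, C.p x z * f z ≤ ∑ z ∈ s, C.p x z * c :=
        Finset.sum_le_sum fun z hz => mul_le_mul_of_nonneg_left (hf z hz) (C.nonneg _ _)
    _ ≤ ∑ z ∈ Finset.Icc (x - 1) (x + 1), C.p x z * c :=
        Finset.sum_le_sum_of_subset_of_nonneg hs fun z _ _ => mul_nonneg (C.nonneg _ _) hc
    _ = c := by rw [← Finset.sum_mul, C.sum_one, one_mul]

theorem Gf_pos_le (C : Chain) (β h : ℝ) (n : ℕ) (ω : ℕ → ℝ) (x : ℤ) (hx : 0 < x) :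
    Gf C (Wc β h) {0} n ω x ≤ 1 := by
  induction n generalizing ω x with
  | zero => simp only [Gf]; exact le_rfl
  | succ n ih =>
    simp only [Gf]
    simp_rw [mul_assoc]
    refine sum_le_of_forall C x _ Finset.sdiff_subset _ 1 zero_le_one fun z hz => ?_
    rw [Finset.mem_sdiff, Finset.mem_Icc, Finset.mem_singleton] at hz
    have hz0 : 0 < z := by omega
    rw [Wc_of_pos _ _ _ hz0, one_mul]
    exact ih _ _ hz0

theorem Gf_neg_le (C : Chain) (β h : ℝ) (n : ℕ) (ω : ℕ → ℝ) (x : ℤ) (hx : x < 0) :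
    Gf C (Wc β h) {0} n ω x ≤ Real.exp (∑ i ∈ range n, en β h ω i) := by
  induction n generalizing ω x with
  | zero => simp only [Gf]; simp
  | succ n ih =>
    simp only [Gf]
    simp_rw [mul_assoc]
    refine sum_le_of_forall C x _ Finset.sdiff_subset _ _ (Real.exp_pos _).le fun z hz => ?_
    rw [Finset.mem_sdiff, Finset.mem_Icc, Finset.mem_singleton] at hz
    have hz0 : z < 0 := by omega
    rw [Wc_of_neg _ _ _ hz0.le, Finset.sum_range_succ', Real.exp_add, mul_comm]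
    have h1 : en β h ω 0 = β * ω 0 - h := rfl
    rw [h1]
    refine mul_le_mul_of_nonneg_right ?_ (Real.exp_pos _).le
    exact ih _ _ hz0

theorem Gf_zero_le (C : Chain) (β h : ℝ) (n : ℕ) (ω : ℕ → ℝ) :
    Gf C (Wc β h) {0} n ω 0 ≤ 1 + Real.exp (∑ i ∈ range n, en β h ω i) := by
  rcases n with _ | n
  · simp only [Gf]
    have := Real.exp_pos (∑ i ∈ range 0, en β h ω i)
    linarith
  · simp only [Gf]
    simp_rw [mul_assoc]
    have h0 := Real.exp_pos (∑ i ∈ range (n + 1), en β h ω i)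
    refine sum_le_of_forall C 0 _ Finset.sdiff_subset _ _ (by linarith) fun z hz => ?_
    rw [Finset.mem_sdiff, Finset.mem_Icc, Finset.mem_singleton] at hz
    rcases lt_or_gt_of_ne hz.2 with h1 | h1
    · have h2 := Gf_neg_le C β h n (shift 1 ω) z h1
      rw [Wc_of_neg _ _ _ h1.le]
      rw [Finset.sum_range_succ', Real.exp_add] at h0 ⊢
      have h3 : en β h ω 0 = β * ω 0 - h := rfl
      rw [h3] at h0 ⊢
      have h4 := mul_le_mul_of_nonneg_left h2 (Real.exp_pos (β * ω 0 - h)).le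
      have h5 : ∑ i ∈ range n, en β h (shift 1 ω) i = ∑ i ∈ range n, en β h ω (i + 1) := rfl
      rw [h5] at h4
      linarith
    · have h2 := Gf_pos_le C β h n (shift 1 ω) z h1
      rw [Wc_of_pos _ _ _ h1, one_mul]
      linarith

/-- the free partition function is bounded by sums over the last zero -/
theorem Zf_le (C : Chain) (hnl : ∀ x, C.p x x = 0) (β h : ℝ) (N : ℕ) (ω : ℕ → ℝ) :
    Zf C (Wc β h) N ω 0 ≤ ∑ j ∈ range (N / 2 + 1), Zr (Kp C) (Km C) j (en β h ω) *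
      (1 + Real.exp (∑ i ∈ Ico (2 * j) N, en β h ω i)) := by
  rw [Zf_last C (Wc β h) {0} N ω 0 (Finset.mem_singleton_self 0)]
  simp only [Finset.sum_singleton]
  have h1 : ∑ u ∈ range (N + 1), Zk C (Wc β h) u ω 0 0 *
      Gf C (Wc β h) {0} (N - u) (shift u ω) 0 =
      ∑ u ∈ (range (N / 2 + 1)).image (fun j => 2 * j), Zk C (Wc β h) u ω 0 0 *
      Gf C (Wc β h) {0} (N - u) (shift u ω) 0 := by
    symm
    apply Finset.sum_subset
    · intro u hu
      rw [Finset.mem_image] at hu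
      obtain ⟨j, hj, rfl⟩ := hu
      rw [Finset.mem_range] at hj ⊢
      omega
    · intro u hu hu'
      rw [Zk_odd C hnl, zero_mul]
      by_contra h2
      apply hu'
      rw [Finset.mem_image]
      rw [Finset.mem_range] at hu
      refine ⟨u / 2, Finset.mem_range.mpr (by omega), ?_⟩
      omega
  rw [h1, Finset.sum_image (by intro a _ b _ hab; simpa using hab)]
  apply Finset.sum_le_sum
  intro j hj
  rw [Finset.mem_range] at hj
  rw [Zk_eq_Zr C hnl]
  have h2 := Gf_zero_le C β h (N - 2 * j) (shift (2 * j) ω)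
  have h3 : ∑ i ∈ range (N - 2 * j), en β h (shift (2 * j) ω) i =
      ∑ i ∈ Ico (2 * j) N, en β h ω i := by
    rw [Finset.sum_Ico_eq_sum_range]
    refine Finset.sum_congr rfl fun i _ => ?_
    rw [add_comm]
    rfl
  rw [h3] at h2
  apply mul_le_mul_of_nonneg_left h2
  rw [← Zk_eq_Zr C hnl]
  exact Zk_nonneg C (Wc_pos β h) _ _ _ _

theorem le_Zf (C : Chain) (hnl : ∀ x, C.p x x = 0) (β h : ℝ) (N : ℕ) (ω : ℕ → ℝ) :
    Zr (Kp C) (Km C) (N / 2) (en β h ω) * C.p 0 1 ≤ Zf C (Wc β h) N ω 0 := by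
  rw [Zf_last C (Wc β h) {0} N ω 0 (Finset.mem_singleton_self 0)]
  simp only [Finset.sum_singleton]
  have h1 : Zk C (Wc β h) (2 * (N / 2)) ω 0 0 *
      Gf C (Wc β h) {0} (N - 2 * (N / 2)) (shift (2 * (N / 2)) ω) 0 ≤
      ∑ u ∈ range (N + 1), Zk C (Wc β h) u ω 0 0 *
      Gf C (Wc β h) {0} (N - u) (shift u ω) 0 := by
    refine Finset.single_le_sum (f := fun u => Zk C (Wc β h) u ω 0 0 *
      Gf C (Wc β h) {0} (N - u) (shift u ω) 0) (fun u _ => ?_) ?_
    · exact mul_nonneg (Zk_nonneg C (Wc_pos β h) _ _ _ _) (Gf_nonneg C (Wc_pos β h) _ _ _ _)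
    · rw [Finset.mem_range]; omega
  refine le_trans ?_ h1
  rw [Zk_eq_Zr C hnl]
  have h2 : 0 ≤ Zr (Kp C) (Km C) (N / 2) (en β h ω) := by
    rw [← Zk_eq_Zr C hnl]
    exact Zk_nonneg C (Wc_pos β h) _ _ _ _
  apply mul_le_mul_of_nonneg_left _ h2
  have h3 : N - 2 * (N / 2) = 0 ∨ N - 2 * (N / 2) = 1 := by omega
  rcases h3 with h3 | h3
  · rw [h3]
    simp only [Gf]
    exact MP_daa227_pr.Chain.p_le_one C 0 1
  · rw [h3]
    simp only [Gf]
    have h4 : (1 : ℤ) ∈ Finset.Icc ((0 : ℤ) - 1) (0 + 1) \ {0} := by decide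
    have h5 := Finset.single_le_sum (f := fun z => C.p 0 z *
      Wc β h (shift (2 * (N / 2)) ω 0) z * 1) (fun z _ => by
        have := C.nonneg 0 z
        have := Wc_pos β h (shift (2 * (N / 2)) ω 0) z
        positivity) h4
    refine le_trans (le_of_eq ?_) h5
    rw [Wc_of_pos _ _ _ one_pos, mul_one, mul_one]

/-- polynomial lower bounds for the kernels on `[1, n]` -/
theorem ker_low {a : ℕ → ℝ} (h : ∃ c e : ℝ, 0 < c ∧ 0 ≤ e ∧ ∀ k : ℕ, 1 ≤ k →
    c * (k : ℝ) ^ (-e) ≤ a k) :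
    ∃ D e : ℝ, 0 < D ∧ 0 ≤ e ∧ ∀ n k : ℕ, 1 ≤ k → k ≤ n → 1 ≤ D * (n : ℝ) ^ e * a k := by
  obtain ⟨c, e, hc, he, hk⟩ := h
  refine ⟨c⁻¹, e, inv_pos.mpr hc, he, fun n k h1 h2 => ?_⟩
  have hkR : (1 : ℝ) ≤ k := by exact_mod_cast h1
  have hnR : (k : ℝ) ≤ n := by exact_mod_cast h2
  have h3 : (k : ℝ) ^ e ≤ (n : ℝ) ^ e := Real.rpow_le_rpow (by linarith) hnR he
  have h4 : 0 < (k : ℝ) ^ e := Real.rpow_pos_of_pos (by linarith) _
  have h5 := hk k h1
  rw [Real.rpow_neg (by linarith)] at h5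
  calc (1 : ℝ) = c⁻¹ * (k : ℝ) ^ e * (c * ((k : ℝ) ^ e)⁻¹) := by
        field_simp
    _ ≤ c⁻¹ * (k : ℝ) ^ e * a k := mul_le_mul_of_nonneg_left h5 (by positivity)
    _ ≤ c⁻¹ * (n : ℝ) ^ e * a k := by
        have h6 : 0 ≤ a k := le_trans (by positivity) h5
        apply mul_le_mul_of_nonneg_right _ h6
        exact mul_le_mul_of_nonneg_left h3 (by positivity)

/-- pathwise upper bound -/
theorem Zf_le' (C : Chain) (hnl : ∀ x, C.p x x = 0) (hK : KerOK (Kp C) (Km C)) (β h : ℝ) :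
    ∃ D e : ℝ, 0 < D ∧ 0 ≤ e ∧ ∀ (N : ℕ) (ω : ℕ → ℝ), Zf C (Wc β h) N ω 0 ≤
      D * ((N / 2 + 1 : ℕ) : ℝ) ^ e * Real.exp (|en β h ω (2 * (N / 2))| +
        |en β h ω (2 * (N / 2) + 1)|) * Zr (Kp C) (Km C) (N / 2 + 1) (en β h ω) := by
  obtain ⟨D1, e1, hD1, he1, h1⟩ := ker_low hK.a_low
  obtain ⟨D2, e2, hD2, he2, h2⟩ := ker_low hK.b_low
  refine ⟨D1 + D2, e1 + e2, by positivity, by positivity, fun N ω => ?_⟩
  refine (Zf_le C hnl β h N ω).trans ?_
  set n := N / 2 with hn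
  set θ := en β h ω with hθ
  rw [Zr_last, Finset.mul_sum]
  apply Finset.sum_le_sum
  intro j hj
  rw [Finset.mem_range] at hj
  have hZ := (Zr_pos hK j θ).le
  have hnR : (1 : ℝ) ≤ ((n + 1 : ℕ) : ℝ) := by
    push_cast
    have : (0 : ℝ) ≤ n := Nat.cast_nonneg n
    linarith
  have ha := h1 (n + 1) (n + 1 - j) (by omega) (by omega)
  have hb := h2 (n + 1) (n + 1 - j) (by omega) (by omega)
  have hapos := hK.a_pos (n + 1 - j) (by omega)
  have hbpos := hK.b_pos (n + 1 - j) (by omega)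
  have hp1 : ((n + 1 : ℕ) : ℝ) ^ e1 ≤ ((n + 1 : ℕ) : ℝ) ^ (e1 + e2) :=
    Real.rpow_le_rpow_of_exponent_le hnR (by linarith)
  have hp2 : ((n + 1 : ℕ) : ℝ) ^ e2 ≤ ((n + 1 : ℕ) : ℝ) ^ (e1 + e2) :=
    Real.rpow_le_rpow_of_exponent_le hnR (by linarith)
  have hp1' : 0 < ((n + 1 : ℕ) : ℝ) ^ e1 := Real.rpow_pos_of_pos (by linarith) _
  have hp2' : 0 < ((n + 1 : ℕ) : ℝ) ^ e2 := Real.rpow_pos_of_pos (by linarith) _
  set P := ((n + 1 : ℕ) : ℝ) ^ (e1 + e2) with hP
  have hPpos : 0 < P := Real.rpow_pos_of_pos (by linarith) _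
  set E := Real.exp (|θ (2 * n)| + |θ (2 * n + 1)|) with hE
  have hEpos : 0 < E := Real.exp_pos _
  have hu : shift (2 * j) θ (2 * (n + 1 - j) - 1) = θ (2 * n + 1) := by
    show θ (2 * (n + 1 - j) - 1 + 2 * j) = θ (2 * n + 1)
    congr 1
    omega
  have hs : ∑ i ∈ range (2 * (n + 1 - j)), shift (2 * j) θ i =
      (∑ i ∈ Ico (2 * j) N, θ i) + ∑ i ∈ Ico N (2 * n + 2), θ i := by
    rw [Finset.sum_Ico_consecutive _ (by omega) (by omega), Finset.sum_Ico_eq_sum_range]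
    rw [show 2 * n + 2 - 2 * j = 2 * (n + 1 - j) by omega]
    refine Finset.sum_congr rfl fun i _ => ?_
    rw [add_comm]
    rfl
  have ht : -(|θ (2 * n)| + |θ (2 * n + 1)|) ≤ ∑ i ∈ Ico N (2 * n + 2), θ i := by
    have h3 : N = 2 * n ∨ N = 2 * n + 1 := by omega
    have h4 := neg_abs_le (θ (2 * n))
    have h5 := neg_abs_le (θ (2 * n + 1))
    have h6 := abs_nonneg (θ (2 * n))
    rcases h3 with h3 | h3
    · have h7 : Ico N (2 * n + 2) = {2 * n, 2 * n + 1} := by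
        rw [h3]; ext i; simp only [Finset.mem_Ico, Finset.mem_insert, Finset.mem_singleton]; omega
      rw [h7, Finset.sum_pair (by omega)]
      linarith
    · have h7 : Ico N (2 * n + 2) = {2 * n + 1} := by
        rw [h3]; ext i; simp only [Finset.mem_Ico, Finset.mem_singleton]; omega
      rw [h7, Finset.sum_singleton]
      linarith
  unfold gW
  rw [hu, hs]
  have key1 : (1 : ℝ) ≤ D1 * P * E * (Kp C (n + 1 - j) * Real.exp (θ (2 * n + 1))) := by
    have h3 : (1 : ℝ) ≤ E * Real.exp (θ (2 * n + 1)) := by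
      rw [hE, ← Real.exp_add]
      apply Real.one_le_exp
      have h5 := neg_abs_le (θ (2 * n + 1))
      have h6 := abs_nonneg (θ (2 * n))
      linarith
    have h4 : (1 : ℝ) ≤ D1 * P * Kp C (n + 1 - j) := by
      refine ha.trans ?_
      apply mul_le_mul_of_nonneg_right _ hapos.le
      exact mul_le_mul_of_nonneg_left hp1 hD1.le
    calc (1 : ℝ) = 1 * 1 := by ring
      _ ≤ (D1 * P * Kp C (n + 1 - j)) * (E * Real.exp (θ (2 * n + 1))) :=
          mul_le_mul h4 h3 zero_le_one (by linarith)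
      _ = _ := by ring
  have key2 : Real.exp (∑ i ∈ Ico (2 * j) N, θ i) ≤ D2 * P * E * (Km C (n + 1 - j) *
      Real.exp ((∑ i ∈ Ico (2 * j) N, θ i) + ∑ i ∈ Ico N (2 * n + 2), θ i)) := by
    rw [Real.exp_add]
    have h3 : (1 : ℝ) ≤ E * Real.exp (∑ i ∈ Ico N (2 * n + 2), θ i) := by
      rw [hE, ← Real.exp_add]
      apply Real.one_le_exp
      linarith
    have h4 : (1 : ℝ) ≤ D2 * P * Km C (n + 1 - j) := by
      refine hb.trans ?_
      apply mul_le_mul_of_nonneg_right _ hbpos.le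
      exact mul_le_mul_of_nonneg_left hp2 hD2.le
    have h5 : (1 : ℝ) ≤ (D2 * P * Km C (n + 1 - j)) *
        (E * Real.exp (∑ i ∈ Ico N (2 * n + 2), θ i)) := by
      calc (1 : ℝ) = 1 * 1 := by ring
        _ ≤ _ := mul_le_mul h4 h3 zero_le_one (by linarith)
    have h6 := mul_le_mul_of_nonneg_right h5 (Real.exp_pos (∑ i ∈ Ico (2 * j) N, θ i)).le
    linarith
  have hA : 0 ≤ D2 * P * E * (Kp C (n + 1 - j) * Real.exp (θ (2 * n + 1))) := by positivity
  have hB : 0 ≤ D1 * P * E * (Km C (n + 1 - j) *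
      Real.exp ((∑ i ∈ Ico (2 * j) N, θ i) + ∑ i ∈ Ico N (2 * n + 2), θ i)) := by positivity
  have key : 1 + Real.exp (∑ i ∈ Ico (2 * j) N, θ i) ≤ (D1 + D2) * P * E *
      (Kp C (n + 1 - j) * Real.exp (θ (2 * n + 1)) + Km C (n + 1 - j) *
      Real.exp ((∑ i ∈ Ico (2 * j) N, θ i) + ∑ i ∈ Ico N (2 * n + 2), θ i)) := by
    calc 1 + Real.exp (∑ i ∈ Ico (2 * j) N, θ i)
        ≤ D1 * P * E * (Kp C (n + 1 - j) * Real.exp (θ (2 * n + 1))) +
          D2 * P * E * (Km C (n + 1 - j) *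
      Real.exp ((∑ i ∈ Ico (2 * j) N, θ i) + ∑ i ∈ Ico N (2 * n + 2), θ i)) := add_le_add key1 key2
      _ ≤ D1 * P * E * (Kp C (n + 1 - j) * Real.exp (θ (2 * n + 1))) +
          D2 * P * E * (Km C (n + 1 - j) *
      Real.exp ((∑ i ∈ Ico (2 * j) N, θ i) + ∑ i ∈ Ico N (2 * n + 2), θ i)) +
      (D2 * P * E * (Kp C (n + 1 - j) * Real.exp (θ (2 * n + 1))) +
        D1 * P * E * (Km C (n + 1 - j) *
      Real.exp ((∑ i ∈ Ico (2 * j) N, θ i) + ∑ i ∈ Ico N (2 * n + 2), θ i))) := by linarith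
      _ = _ := by ring
  have h7 := mul_le_mul_of_nonneg_left key hZ
  refine h7.trans (le_of_eq ?_)
  ring

theorem Zf_pos (C : Chain) (hnl : ∀ x, C.p x x = 0) (hK : KerOK (Kp C) (Km C)) (β h : ℝ) (N : ℕ)
    (ω : ℕ → ℝ) : 0 < Zf C (Wc β h) N ω 0 := by
  have hp : 0 < C.p 0 1 := C.up 0
  exact (mul_pos (Zr_pos hK _ _) hp).trans_le (le_Zf C hnl β h N ω)

theorem integrable_logZf (C : Chain) (hnl : ∀ x, C.p x x = 0) (hK : KerOK (Kp C) (Km C))
    (μ : Measure ℝ) [IsProbabilityMeasure μ] (hμ : ExpMom μ) (β h : ℝ) (N : ℕ) :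
    Integrable (fun ω => Real.log (Zf C (Wc β h) N ω 0)) (seqLaw μ) := by
  have h1 := good_Zf C (abs_nonneg β) (goodW β h) N 0
  exact (h1.log_lip (Zf_pos C hnl hK β h N)).integrable h1.meas.log hμ

theorem integrable_logZr' (C : Chain) (hnl : ∀ x, C.p x x = 0) (hK : KerOK (Kp C) (Km C))
    (μ : Measure ℝ) [IsProbabilityMeasure μ] (hμ : ExpMom μ) (β h : ℝ) (n : ℕ) :
    Integrable (fun ω => Real.log (Zr (Kp C) (Km C) n (en β h ω))) (seqLaw μ) := by
  have h1 := (good_Zk C (abs_nonneg β) (goodW β h) (2 * n) 0 0).congr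
    (fun ω => (Zk_eq_Zr C hnl β h n ω).symm)
  exact (h1.log_lip (fun ω => Zr_pos hK n _)).integrable h1.meas.log hμ

theorem integrable_en (μ : Measure ℝ) [IsProbabilityMeasure μ] (hμ : ExpMom μ) (β h : ℝ) (i : ℕ) :
    Integrable (fun ω => |en β h ω i|) (seqLaw μ) := by
  have h1 : Integrable (fun x : ℝ => |β * x - h|) μ :=
    ((hμ.integrable_id.const_mul β).sub (integrable_const h)).abs
  exact MP_daa227_pr.integrable_apply μ i (Y := fun x => |β * x - h|) (by fun_prop) h1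

theorem integral_en (μ : Measure ℝ) [IsProbabilityMeasure μ] (β h : ℝ) (i : ℕ) :
    ∫ ω, |en β h ω i| ∂seqLaw μ = ∫ x, |β * x - h| ∂μ :=
  MP_daa227_pr.integral_apply μ i (Y := fun x => |β * x - h|) (by fun_prop)

/-- the two sided bound -/
theorem two_sided (C : Chain) (hnl : ∀ x, C.p x x = 0) (hK : KerOK (Kp C) (Km C)) (μ : Measure ℝ)
    [IsProbabilityMeasure μ] (hμ : ExpMom μ) (β h : ℝ) :
    ∃ c c' e : ℝ, ∀ N : ℕ,
      LZ C μ β h (N / 2) + c ≤ ∫ ω, Real.log (Zf C (Wc β h) N ω 0) ∂seqLaw μ ∧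
      ∫ ω, Real.log (Zf C (Wc β h) N ω 0) ∂seqLaw μ ≤ LZ C μ β h (N / 2 + 1) + c' +
        e * Real.log ((N / 2 + 1 : ℕ) : ℝ) := by
  obtain ⟨D, e, hD, he, hup⟩ := Zf_le' C hnl hK β h
  have hp : 0 < C.p 0 1 := C.up 0
  refine ⟨Real.log (C.p 0 1), Real.log D + 2 * ∫ x, |β * x - h| ∂μ, e, fun N => ⟨?_, ?_⟩⟩
  · have h1 : LZ C μ β h (N / 2) + Real.log (C.p 0 1) =
        ∫ ω, (Real.log (Zr (Kp C) (Km C) (N / 2) (en β h ω)) + Real.log (C.p 0 1)) ∂seqLaw μ := by
      rw [integral_add (integrable_logZr' C hnl hK μ hμ β h _) (integrable_const _)]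
      simp [LZ]
    rw [h1]
    apply integral_mono ((integrable_logZr' C hnl hK μ hμ β h _).add (integrable_const _))
      (integrable_logZf C hnl hK μ hμ β h N)
    intro ω
    simp only [Pi.add_apply]
    rw [← Real.log_mul (Zr_pos hK _ _).ne' hp.ne']
    exact Real.log_le_log (mul_pos (Zr_pos hK _ _) hp) (le_Zf C hnl β h N ω)
  · have hnR : (0 : ℝ) < ((N / 2 + 1 : ℕ) : ℝ) := by positivity
    have hi1 := integrable_logZr' C hnl hK μ hμ β h (N / 2 + 1)
    have hi2 := integrable_en μ hμ β h (2 * (N / 2))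
    have hi3 := integrable_en μ hμ β h (2 * (N / 2) + 1)
    have hi4 : Integrable (fun _ : ℕ → ℝ => Real.log D + e * Real.log ((N / 2 + 1 : ℕ) : ℝ))
      (seqLaw μ) := integrable_const _
    have h1 : LZ C μ β h (N / 2 + 1) + (Real.log D + 2 * ∫ x, |β * x - h| ∂μ) +
        e * Real.log ((N / 2 + 1 : ℕ) : ℝ) =
        ∫ ω, ((Real.log (Zr (Kp C) (Km C) (N / 2 + 1) (en β h ω)) + |en β h ω (2 * (N / 2))|) +
          (|en β h ω (2 * (N / 2) + 1)| + (Real.log D + e * Real.log ((N / 2 + 1 : ℕ) : ℝ))))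
            ∂seqLaw μ := by
      have hA := integral_add hi1 hi2
      have hB := integral_add hi3 hi4
      have hC := integral_add (hi1.add hi2) (hi3.add hi4)
      simp only [Pi.add_apply] at hC
      rw [hC, hA, hB, integral_en, integral_en]
      simp only [LZ, integral_const, probReal_univ, smul_eq_mul, one_mul]
      ring
    rw [h1]
    apply integral_mono (integrable_logZf C hnl hK μ hμ β h N) ((hi1.add hi2).add (hi3.add hi4))
    intro ω
    simp only [Pi.add_apply]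
    have h2 := Real.log_le_log (Zf_pos C hnl hK β h N ω) (hup N ω)
    have hZ := Zr_pos hK (N / 2 + 1) (en β h ω)
    have hP : 0 < ((N / 2 + 1 : ℕ) : ℝ) ^ e := Real.rpow_pos_of_pos hnR _
    rw [Real.log_mul (by positivity) hZ.ne', Real.log_mul (by positivity) (Real.exp_pos _).ne',
      Real.log_mul hD.ne' hP.ne', Real.log_exp, Real.log_rpow hnR] at h2
    linarith

theorem tendsto_half (F : ℝ) (u : ℕ → ℝ) (hF : Tendsto (fun n : ℕ => u n / (2 * n)) atTop (𝓝 F))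
    (s : ℕ) : Tendsto (fun N : ℕ => u (N / 2 + s) / N) atTop (𝓝 F) := by
  have hdiv : Tendsto (fun N : ℕ => N / 2 + s) atTop atTop := by
    refine tendsto_atTop.2 fun b => ?_
    filter_upwards [eventually_ge_atTop (2 * b)] with N hN
    omega
  have h1 := hF.comp hdiv
  have h2 : Tendsto (fun N : ℕ => (2 * ((N / 2 + s : ℕ) : ℝ)) / N) atTop (𝓝 1) := by
    have h3 : Tendsto (fun N : ℕ => ((2 * s : ℕ) : ℝ) / N) atTop (𝓝 0) :=
      tendsto_const_div_atTop_nhds_zero_nat _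
    have h4 : Tendsto (fun N : ℕ => 1 + ((2 * s : ℕ) : ℝ) / N) atTop (𝓝 1) := by
      simpa using h3.const_add 1
    have h5 : Tendsto (fun N : ℕ => (1 : ℝ) / N) atTop (𝓝 0) :=
      tendsto_const_div_atTop_nhds_zero_nat _
    have h6 : Tendsto (fun N : ℕ => 1 + ((2 * s : ℕ) : ℝ) / N - 1 / N) atTop (𝓝 1) := by
      simpa using h4.sub h5
    refine tendsto_of_tendsto_of_tendsto_of_le_of_le' h6 h4 ?_ ?_
    · filter_upwards [eventually_gt_atTop 0] with N hN
      have hNR : (0 : ℝ) < N := by exact_mod_cast hN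
      have h7 : (N : ℝ) + (2 * s : ℕ) - 1 ≤ 2 * ((N / 2 + s : ℕ) : ℝ) := by
        have h8 : N + 2 * s ≤ 2 * (N / 2 + s) + 1 := by omega
        have h9 : ((N + 2 * s : ℕ) : ℝ) ≤ ((2 * (N / 2 + s) + 1 : ℕ) : ℝ) := by exact_mod_cast h8
        push_cast at h9 ⊢
        linarith
      have h10 : 1 + ((2 * s : ℕ) : ℝ) / N - 1 / N = ((N : ℝ) + (2 * s : ℕ) - 1) / N := by
        field_simp
      rw [h10]
      exact div_le_div_of_nonneg_right h7 hNR.le
    · filter_upwards [eventually_gt_atTop 0] with N hN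
      have hNR : (0 : ℝ) < N := by exact_mod_cast hN
      have h7 : 2 * ((N / 2 + s : ℕ) : ℝ) ≤ (N : ℝ) + (2 * s : ℕ) := by
        have h8 : 2 * (N / 2 + s) ≤ N + 2 * s := by omega
        exact_mod_cast h8
      have h10 : 1 + ((2 * s : ℕ) : ℝ) / N = ((N : ℝ) + (2 * s : ℕ)) / N := by
        field_simp
      rw [h10]
      exact div_le_div_of_nonneg_right h7 hNR.le
  have h3 := h1.mul h2
  rw [mul_one] at h3
  refine h3.congr' ?_
  filter_upwards [eventually_ge_atTop 2] with N hN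
  simp only [Function.comp_apply]
  have h4 : (0 : ℝ) < ((N / 2 + s : ℕ) : ℝ) := by
    have : 0 < N / 2 + s := by omega
    exact_mod_cast this
  have h5 : (0 : ℝ) < N := by
    have : 0 < N := by omega
    exact_mod_cast this
  field_simp

end L1

theorem free_lim (C : Chain) (hnl : ∀ x, C.p x x = 0) (hK : KerOK (Kp C) (Km C)) (μ : Measure ℝ)
    [IsProbabilityMeasure μ] (hμ : ExpMom μ) (β h F : ℝ)
    (hF : Tendsto (fun n : ℕ => LZ C μ β h n / (2 * n)) atTop (𝓝 F)) :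
    Tendsto (fun N : ℕ => (∫ ω, Real.log (Zf C (Wc β h) N ω 0) ∂seqLaw μ) / N) atTop (𝓝 F) := by
  obtain ⟨c, c', e, hb⟩ := L1.two_sided C hnl hK μ hμ β h
  have hlo : Tendsto (fun N : ℕ => (LZ C μ β h (N / 2 + 0)) / N + c / N) atTop (𝓝 F) := by
    have h1 := (L1.tendsto_half F _ hF 0).add (tendsto_const_div_atTop_nhds_zero_nat c)
    rw [add_zero] at h1
    exact h1
  have hlog : Tendsto (fun N : ℕ => Real.log ((N / 2 + 1 : ℕ) : ℝ) / N) atTop (𝓝 0) := by
    have h1 : Tendsto (fun N : ℕ => Real.log (N : ℝ) / (N : ℝ)) atTop (𝓝 0) := by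
      have := Real.isLittleO_log_id_atTop.tendsto_div_nhds_zero
      exact this.comp tendsto_natCast_atTop_atTop
    refine squeeze_zero' ?_ ?_ h1
    · filter_upwards [eventually_gt_atTop 0] with N hN
      have h2 : (1 : ℝ) ≤ ((N / 2 + 1 : ℕ) : ℝ) := by
        have : 1 ≤ N / 2 + 1 := by omega
        exact_mod_cast this
      exact div_nonneg (Real.log_nonneg h2) (Nat.cast_nonneg _)
    · filter_upwards [eventually_ge_atTop 2] with N hN
      have h2 : (0 : ℝ) < ((N / 2 + 1 : ℕ) : ℝ) := by positivity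
      have h3 : ((N / 2 + 1 : ℕ) : ℝ) ≤ N := by
        have : N / 2 + 1 ≤ N := by omega
        exact_mod_cast this
      exact div_le_div_of_nonneg_right (Real.log_le_log h2 h3) (Nat.cast_nonneg _)
  have hhi : Tendsto (fun N : ℕ => (LZ C μ β h (N / 2 + 1)) / N + c' / N +
      e * (Real.log ((N / 2 + 1 : ℕ) : ℝ) / N)) atTop (𝓝 F) := by
    have h1 := ((L1.tendsto_half F _ hF 1).add (tendsto_const_div_atTop_nhds_zero_nat c')).add
      (hlog.const_mul e)
    rw [mul_zero, add_zero, add_zero] at h1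
    exact h1
  refine tendsto_of_tendsto_of_tendsto_of_le_of_le hlo hhi (fun N => ?_) (fun N => ?_)
  · dsimp only
    rw [← add_div]
    exact div_le_div_of_nonneg_right (hb N).1 (Nat.cast_nonneg _)
  · dsimp only
    rw [mul_div_assoc', ← add_div, ← add_div]
    exact div_le_div_of_nonneg_right (hb N).2 (Nat.cast_nonneg _)

end

end Pool.Agent.OT
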