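import Mathlib

/-!
# PROJECT OT: polynomial tails
-/

namespace Pool.Agent.OT

open Finset Filter Topology

theorem ev_log {α : ℝ} {a : ℕ → ℝ}
    (h : Tendsto (fun n : ℕ => Real.log (a n) / Real.log (2 * n)) atTop (𝓝 (-(1 + α))))
    {e : ℝ} (he : 0 < e) : ∀ᶠ n : ℕ in atTop, -(1 + α + e) * Real.log (2 * n) ≤ Real.log (a n) ∧
      Real.log (a n) ≤ -(1 + α - e) * Real.log (2 * n) := by
  have h1 := h.eventually (lt_mem_nhds (show -(1 + α + e) < -(1 + α) by linarith))
  have h2 := h.eventually (gt_mem_nhds (show -(1 + α) < -(1 + α - e) by linarith))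
  filter_upwards [h1, h2, eventually_ge_atTop 1] with n hn1 hn2 hn
  have hn' : (1 : ℝ) ≤ n := by exact_mod_cast hn
  have hlog : 0 < Real.log (2 * n) := Real.log_pos (by linarith)
  rw [lt_div_iff₀ hlog] at hn1
  rw [div_lt_iff₀ hlog] at hn2
  exact ⟨hn1.le, hn2.le⟩

theorem low_of_tail {α : ℝ} {a : ℕ → ℝ} (hpos : ∀ k, 1 ≤ k → 0 < a k)
    (h : Tendsto (fun n : ℕ => Real.log (a n) / Real.log (2 * n)) atTop (𝓝 (-(1 + α))))
    {e : ℝ} (he : α < e) (he1 : 0 ≤ 1 + e) :
    ∃ c : ℝ, 0 < c ∧ ∀ k : ℕ, 1 ≤ k → c * (k : ℝ) ^ (-(1 + e)) ≤ a k := by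
  obtain ⟨N, hN⟩ := eventually_atTop.1 (ev_log h (sub_pos.2 he))
  -- minimum over the first terms
  have hmin : ∃ c : ℝ, 0 < c ∧ ∀ k, 1 ≤ k → k ≤ N → c ≤ a k := by
    clear hN
    induction N with
    | zero => exact ⟨1, one_pos, fun k h1 h2 => by omega⟩
    | succ N ih =>
      obtain ⟨c, hc, hc'⟩ := ih
      refine ⟨min c (a (N + 1)), lt_min hc (hpos _ (by omega)), fun k h1 h2 => ?_⟩
      rcases Nat.lt_or_ge N k with h3 | h3
      · have : k = N + 1 := by omega
        rw [this]; exact min_le_right _ _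
      · exact (min_le_left _ _).trans (hc' k h1 h3)
  obtain ⟨c, hc, hc'⟩ := hmin
  refine ⟨min c ((2 : ℝ) ^ (-(1 + e))), lt_min hc (by positivity), fun k hk => ?_⟩
  have hk' : (1 : ℝ) ≤ k := by exact_mod_cast hk
  rcases Nat.lt_or_ge N k with h3 | h3
  · have h4 := (hN k h3.le).1
    have h5 : -(1 + α + (e - α)) * Real.log (2 * k) = Real.log ((2 * k : ℝ) ^ (-(1 + e))) := by
      rw [Real.log_rpow (by positivity)]; ring
    rw [h5, Real.log_le_log_iff (by positivity) (hpos k hk),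
      Real.mul_rpow (by norm_num) (by positivity)] at h4
    refine le_trans ?_ h4
    exact mul_le_mul_of_nonneg_right (min_le_right _ _) (by positivity)
  · refine le_trans ?_ (hc' k hk h3)
    have h6 : (k : ℝ) ^ (-(1 + e)) ≤ 1 := Real.rpow_le_one_of_one_le_of_nonpos hk' (by linarith)
    calc min c ((2 : ℝ) ^ (-(1 + e))) * (k : ℝ) ^ (-(1 + e)) ≤ c * 1 :=
          mul_le_mul (min_le_left _ _) h6 (by positivity) hc.le
      _ = c := mul_one c

theorem sum_of_tail {α : ℝ} (hα : 0 < α) {a : ℕ → ℝ} (hpos : ∀ k, 1 ≤ k → 0 < a k)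
    (h : Tendsto (fun n : ℕ => Real.log (a n) / Real.log (2 * n)) atTop (𝓝 (-(1 + α)))) :
    ∃ γ₁ : ℝ, 0 < γ₁ ∧ γ₁ < 1 ∧ ∀ γ, γ₁ ≤ γ → Summable fun k => a k ^ γ := by
  refine ⟨(1 + α / 4) / (1 + α / 2), by positivity, ?_, fun γ hγ => ?_⟩
  · rw [div_lt_one (by positivity)]; linarith
  obtain ⟨N, hN⟩ := eventually_atTop.1 (ev_log h (show 0 < α / 2 by positivity))
  rw [div_le_iff₀ (by positivity)] at hγ
  have hγ0 : 0 < γ := by
    by_contra hcon
    push Not at hcon
    nlinarith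
  have hs : Summable fun k : ℕ => (k : ℝ) ^ (-(1 + α / 4)) :=
    Real.summable_nat_rpow.2 (by linarith)
  rw [← summable_nat_add_iff (N + 1)]
  rw [← summable_nat_add_iff (N + 1)] at hs
  refine Summable.of_nonneg_of_le (fun k => ?_) (fun k => ?_) hs
  · exact (Real.rpow_pos_of_pos (hpos _ (by omega)) _).le
  · have h1 := (hN (k + (N + 1)) (by omega)).2
    have hp := hpos (k + (N + 1)) (by omega)
    have hk : (1 : ℝ) ≤ ((k + (N + 1) : ℕ) : ℝ) := by
      have : 1 ≤ k + (N + 1) := by omega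
      exact_mod_cast this
    set x : ℝ := ((k + (N + 1) : ℕ) : ℝ) with hx
    have h2 : Real.log (a (k + (N + 1)) ^ γ) ≤ Real.log (x ^ (-(1 + α / 4))) := by
      rw [Real.log_rpow hp, Real.log_rpow (by linarith)]
      have h3 : Real.log (a (k + (N + 1))) ≤ -(1 + α / 2) * Real.log x := by
        refine h1.trans ?_
        have h4 : Real.log x ≤ Real.log (2 * x) :=
          Real.log_le_log (by linarith) (by linarith)
        have h5 : -(1 + α - α / 2) * Real.log (2 * x) = -((1 + α / 2) * Real.log (2 * x)) := by ring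
        rw [h5]
        have h6 : (1 + α / 2) * Real.log x ≤ (1 + α / 2) * Real.log (2 * x) :=
          mul_le_mul_of_nonneg_left h4 (by positivity)
        linarith
      have h7 : 0 ≤ Real.log x := Real.log_nonneg hk
      calc γ * Real.log (a (k + (N + 1))) ≤ γ * (-(1 + α / 2) * Real.log x) :=
            mul_le_mul_of_nonneg_left h3 hγ0.le
        _ = -((γ * (1 + α / 2)) * Real.log x) := by ring
        _ ≤ -((1 + α / 4) * Real.log x) := by
            have := mul_le_mul_of_nonneg_right hγ h7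
            linarith
        _ = _ := by ring
    exact (Real.log_le_log_iff (Real.rpow_pos_of_pos hp _) (by positivity)).1 h2

end Pool.Agent.OT
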