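import Mathlib
import Pool.Agent.Lib.MP_daa227_pr_OT.Defs
import Pool.Agent.Lib.MP_daa227_pr_OT.Dec
import Pool.Agent.Lib.MP_daa227_pr.Mom

/-!
# Module X1: the quenched critical point is smaller than the annealed one
-/

set_option autoImplicit false

namespace Pool.Agent.OT

open MeasureTheory ProbabilityTheory Finset Filter Topology
open MP_daa227_pr (Chain Zk Zf K0 shift seqLaw ExpMom)

noncomputable section

namespace X1

/-! ### The logarithmic moment generating function -/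

theorem exp_lmg {μ : Measure ℝ} [IsProbabilityMeasure μ] (hμ : ExpMom μ) (t : ℝ) :
    Real.exp (lmg μ t) = ∫ x, Real.exp (t * x) ∂μ := by
  unfold lmg
  exact Real.exp_log (integral_exp_pos (hμ t))

theorem lmg_convex {μ : Measure ℝ} [IsProbabilityMeasure μ] (hμ : ExpMom μ) {θ s t : ℝ}
    (h0 : 0 ≤ θ) (h1 : θ ≤ 1) :
    lmg μ (θ * s + (1 - θ) * t) ≤ θ * lmg μ s + (1 - θ) * lmg μ t := by
  have hpt : ∀ x : ℝ, Real.exp ((θ * s + (1 - θ) * t) * x) *
      Real.exp (-(θ * lmg μ s + (1 - θ) * lmg μ t)) ≤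
      θ * (Real.exp (s * x) * Real.exp (-lmg μ s)) +
        (1 - θ) * (Real.exp (t * x) * Real.exp (-lmg μ t)) := by
    intro x
    have h := convexOn_exp.2 (Set.mem_univ (s * x + -lmg μ s)) (Set.mem_univ (t * x + -lmg μ t))
      h0 (sub_nonneg.2 h1) (by ring)
    simp only [smul_eq_mul] at h
    rw [← Real.exp_add, ← Real.exp_add, ← Real.exp_add]
    refine le_trans (le_of_eq ?_) h
    congr 1
    ring
  have hI : ∫ x, Real.exp ((θ * s + (1 - θ) * t) * x) *
      Real.exp (-(θ * lmg μ s + (1 - θ) * lmg μ t)) ∂μ ≤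
      ∫ x, (θ * (Real.exp (s * x) * Real.exp (-lmg μ s)) +
        (1 - θ) * (Real.exp (t * x) * Real.exp (-lmg μ t))) ∂μ :=
    integral_mono (μ := μ) ((hμ _).mul_const _)
      ((((hμ s).mul_const _).const_mul θ).add (((hμ t).mul_const _).const_mul (1 - θ))) hpt
  rw [integral_mul_const, integral_add (((hμ s).mul_const _).const_mul θ)
    (((hμ t).mul_const _).const_mul (1 - θ)), integral_const_mul, integral_const_mul,
    integral_mul_const, integral_mul_const, ← exp_lmg hμ, ← exp_lmg hμ, ← exp_lmg hμ,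
    ← Real.exp_add, ← Real.exp_add, ← Real.exp_add, add_neg_cancel, add_neg_cancel,
    Real.exp_zero] at hI
  have h2 : Real.exp (lmg μ (θ * s + (1 - θ) * t) + -(θ * lmg μ s + (1 - θ) * lmg μ t)) ≤ 1 := by
    linarith
  rw [Real.exp_le_one_iff] at h2
  linarith

theorem lmg_zero (μ : Measure ℝ) [IsProbabilityMeasure μ] : lmg μ 0 = 0 := by
  unfold lmg
  simp

/-- strict convexity at the midpoint -/
theorem lmg_strict {μ : Measure ℝ} [IsProbabilityMeasure μ] (hμ : ExpMom μ)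
    (hvar : ∫ x, x ^ 2 ∂μ ≠ 0) (hmean : ∫ x, x ∂μ = 0) {β : ℝ} (hβ : 0 < β) :
    2 * lmg μ (β / 2) < lmg μ β := by
  set m := ∫ x, Real.exp (β / 2 * x) ∂μ with hm
  have hm0 : 0 < m := integral_exp_pos (hμ _)
  have hint : Integrable (fun x => (Real.exp (β / 2 * x) - m) ^ 2) μ := by
    have h1 : (fun x => (Real.exp (β / 2 * x) - m) ^ 2) =
        fun x => Real.exp (β * x) - 2 * m * Real.exp (β / 2 * x) + m ^ 2 := by
      funext x
      have : Real.exp (β * x) = Real.exp (β / 2 * x) ^ 2 := by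
        rw [← Real.exp_nat_mul]
        congr 1
        push_cast
        ring
      rw [this]
      ring
    rw [h1]
    exact ((hμ β).sub ((hμ _).const_mul _)).add (integrable_const _)
  have hval : ∫ x, (Real.exp (β / 2 * x) - m) ^ 2 ∂μ = (∫ x, Real.exp (β * x) ∂μ) - m ^ 2 := by
    have h1 : (fun x => (Real.exp (β / 2 * x) - m) ^ 2) =
        fun x => Real.exp (β * x) - 2 * m * Real.exp (β / 2 * x) + m ^ 2 := by
      funext x
      have : Real.exp (β * x) = Real.exp (β / 2 * x) ^ 2 := by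
        rw [← Real.exp_nat_mul]
        congr 1
        push_cast
        ring
      rw [this]
      ring
    have h2 : ∫ x, (Real.exp (β * x) - 2 * m * Real.exp (β / 2 * x) + m ^ 2) ∂μ =
        (∫ x, (Real.exp (β * x) - 2 * m * Real.exp (β / 2 * x)) ∂μ) + ∫ _x, m ^ 2 ∂μ :=
      integral_add ((hμ β).sub ((hμ _).const_mul _)) (integrable_const _)
    have h3 : ∫ x, (Real.exp (β * x) - 2 * m * Real.exp (β / 2 * x)) ∂μ =
        (∫ x, Real.exp (β * x) ∂μ) - ∫ x, 2 * m * Real.exp (β / 2 * x) ∂μ :=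
      integral_sub (hμ β) ((hμ _).const_mul _)
    rw [h1, h2, h3, integral_const_mul, ← hm, integral_const]
    simp
    ring
  have hpos : 0 < ∫ x, (Real.exp (β / 2 * x) - m) ^ 2 ∂μ := by
    refine lt_of_le_of_ne (integral_nonneg fun x => sq_nonneg _) fun h0 => hvar ?_
    have h2 := (integral_eq_zero_iff_of_nonneg (fun x => sq_nonneg _) hint).1 h0.symm
    have h3 : ∀ᵐ x ∂μ, x = Real.log m / (β / 2) := by
      filter_upwards [h2] with x hx
      have h4 : Real.exp (β / 2 * x) = m := by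
        have h5 : (Real.exp (β / 2 * x) - m) ^ 2 = 0 := hx
        have := pow_eq_zero_iff (two_ne_zero) |>.1 h5
        linarith
      rw [← h4, Real.log_exp]
      field_simp
    have h5 : Real.log m / (β / 2) = 0 := by
      rw [← hmean, integral_congr_ae h3]
      simp
    rw [h5] at h3
    have h6 : ∫ x, x ^ 2 ∂μ = ∫ _x, (0 : ℝ) ∂μ := by
      refine integral_congr_ae ?_
      filter_upwards [h3] with x hx
      rw [hx]
      norm_num
    rw [h6, integral_zero]
  rw [hval, sub_pos] at hpos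
  unfold lmg
  rw [← hm]
  have h7 := Real.log_lt_log (by positivity) hpos
  rw [Real.log_pow] at h7
  exact_mod_cast h7

/-! ### Fractional moments -/

theorem shift_en (β h : ℝ) (ω : ℕ → ℝ) (m : ℕ) : shift m (en β h ω) = en β h (shift m ω) := by
  funext i
  simp only [MP_daa227_pr.shift_apply, en]

theorem meas_en (β h : ℝ) (i : ℕ) : Measurable fun ω : ℕ → ℝ => en β h ω i := by
  unfold en
  fun_prop

theorem meas_gW (a b : ℕ → ℝ) (k : ℕ) (β h : ℝ) :
    Measurable fun ω : ℕ → ℝ => gW a b k (en β h ω) := by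
  unfold gW en
  fun_prop

theorem meas_Zr (a b : ℕ → ℝ) (β h : ℝ) (n : ℕ) :
    Measurable fun ω : ℕ → ℝ => Zr a b n (en β h ω) := by
  induction n using Nat.strong_induction_on with
  | _ n ih =>
    cases n with
    | zero => simp only [D.Zr_zero]; exact measurable_const
    | succ n =>
      have h1 : (fun ω : ℕ → ℝ => Zr a b (n + 1) (en β h ω)) = fun ω =>
          ∑ k ∈ range (n + 1), gW a b (k + 1) (en β h ω) *
            Zr a b (n - k) (en β h (shift (2 * (k + 1)) ω)) := by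
        funext ω
        rw [D.Zr_succ]
        simp only [shift_en]
      rw [h1]
      refine Finset.measurable_sum _ fun k _ => (meas_gW a b _ β h).mul ?_
      exact (ih (n - k) (by omega)).comp (MP_daa227_pr.measurable_shift _)

/-- the fractional moment of the weight of one site -/
def qq (μ : Measure ℝ) (β h γ : ℝ) : ℝ := ∫ x, Real.exp (γ * (β * x - h)) ∂μ

theorem int_q {μ : Measure ℝ} (hμ : ExpMom μ) (β h γ : ℝ) :
    Integrable (fun x => Real.exp (γ * (β * x - h))) μ := by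
  have h1 : (fun x => Real.exp (γ * (β * x - h))) =
      fun x => Real.exp (-(γ * h)) * Real.exp (γ * β * x) := by
    funext x
    rw [← Real.exp_add]
    congr 1
    ring
  rw [h1]
  exact (hμ _).const_mul _

theorem qq_eq {μ : Measure ℝ} [IsProbabilityMeasure μ] (hμ : ExpMom μ) (β h γ : ℝ) :
    qq μ β h γ = Real.exp (lmg μ (γ * β) - γ * h) := by
  unfold qq
  have h1 : (fun x => Real.exp (γ * (β * x - h))) =
      fun x => Real.exp (γ * β * x) * Real.exp (-(γ * h)) := by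
    funext x
    rw [← Real.exp_add]
    congr 1
    ring
  rw [h1, integral_mul_const, ← exp_lmg hμ, ← Real.exp_add]
  rfl

theorem mom_site {μ : Measure ℝ} [IsProbabilityMeasure μ] (hμ : ExpMom μ) (β h γ : ℝ) (i : ℕ) :
    MP_daa227_pr.mom μ γ (fun ω => Real.exp (en β h ω i)) = ENNReal.ofReal (qq μ β h γ) := by
  unfold MP_daa227_pr.mom qq
  rw [ofReal_integral_eq_lintegral_ofReal (int_q hμ β h γ) (ae_of_all _ fun _ =>
    (Real.exp_pos _).le)]
  have h1 : ∀ ω : ℕ → ℝ, ENNReal.ofReal (Real.exp (en β h ω i)) ^ γ =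
      ENNReal.ofReal (Real.exp (γ * (β * ω i - h))) := by
    intro ω
    rw [ENNReal.ofReal_rpow_of_pos (Real.exp_pos _), ← Real.exp_mul, mul_comm]
    rfl
  simp_rw [h1]
  exact MP_daa227_pr.lintegral_apply μ i
    (Y := fun x => ENNReal.ofReal (Real.exp (γ * (β * x - h)))) (by fun_prop)

theorem mom_block {μ : Measure ℝ} [IsProbabilityMeasure μ] (hμ : ExpMom μ) (β h : ℝ) {γ : ℝ}
    (h0 : 0 ≤ γ) (m : ℕ) :
    MP_daa227_pr.mom μ γ (fun ω => Real.exp (∑ i ∈ range m, en β h ω i)) =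
      ENNReal.ofReal (qq μ β h γ) ^ m := by
  induction m with
  | zero =>
    simp only [Finset.range_zero, Finset.sum_empty, Real.exp_zero, pow_zero,
      MP_daa227_pr.mom_const, ENNReal.ofReal_one, ENNReal.one_rpow]
  | succ m ih =>
    have h1 : ∀ ω : ℕ → ℝ, Real.exp (∑ i ∈ range (m + 1), en β h ω i) =
        Real.exp (en β h ω 0) *
          (fun ω => Real.exp (∑ i ∈ range m, en β h ω i)) (shift 1 ω) := by
      intro ω
      dsimp only
      rw [Finset.sum_range_succ', add_comm, Real.exp_add]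
      rfl
    rw [MP_daa227_pr.mom_congr h1, MP_daa227_pr.mom_mul_shift h0
      (F := fun ω => Real.exp (en β h ω 0))
      (G := fun ω => Real.exp (∑ i ∈ range m, en β h ω i)) (meas_en β h 0).exp
      (Finset.measurable_sum _ fun i _ => meas_en β h i).exp ?_ (fun ω => (Real.exp_pos _).le),
      ih, mom_site hμ, pow_succ, mul_comm]
    intro ω ω' hω
    simp only [en, hω 0 Nat.zero_lt_one]

theorem mom_gW {μ : Measure ℝ} [IsProbabilityMeasure μ] (hμ : ExpMom μ) (β h : ℝ) {γ : ℝ}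
    (h0 : 0 < γ) (h1 : γ ≤ 1) {a b : ℕ → ℝ} {k : ℕ} (ha : 0 ≤ a k) (hb : 0 ≤ b k) :
    MP_daa227_pr.mom μ γ (fun ω => gW a b k (en β h ω)) ≤
      ENNReal.ofReal (a k ^ γ * qq μ β h γ + b k ^ γ * qq μ β h γ ^ (2 * k)) := by
  have hq : 0 ≤ qq μ β h γ := integral_nonneg fun _ => (Real.exp_pos _).le
  unfold gW
  refine (MP_daa227_pr.mom_add_le h0.le h1 ?_ ?_ ?_).trans ?_
  · exact ((meas_en β h _).exp).const_mul _
  · exact fun ω => mul_nonneg ha (Real.exp_pos _).le
  · exact fun ω => mul_nonneg hb (Real.exp_pos _).le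
  rw [MP_daa227_pr.mom_const_mul h0.le ha (meas_en β h _).exp,
    MP_daa227_pr.mom_const_mul h0.le hb (Finset.measurable_sum _ fun i _ => meas_en β h i).exp,
    mom_site hμ, mom_block hμ β h h0.le, ENNReal.ofReal_rpow_of_nonneg ha h0.le,
    ENNReal.ofReal_rpow_of_nonneg hb h0.le, ← ENNReal.ofReal_pow hq,
    ← ENNReal.ofReal_mul (Real.rpow_nonneg ha _), ← ENNReal.ofReal_mul (Real.rpow_nonneg hb _),
    ENNReal.ofReal_add (mul_nonneg (Real.rpow_nonneg ha _) hq)
      (mul_nonneg (Real.rpow_nonneg hb _) (pow_nonneg hq _))]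

theorem mom_Zr {a b : ℕ → ℝ} (hK : KerOK a b) {μ : Measure ℝ} [IsProbabilityMeasure μ]
    (hμ : ExpMom μ) (β h : ℝ) {γ : ℝ} (h0 : 0 < γ) (h1 : γ ≤ 1)
    (hs : ∀ n, ∑ k ∈ range n, (a (k + 1) ^ γ * qq μ β h γ +
      b (k + 1) ^ γ * qq μ β h γ ^ (2 * (k + 1))) ≤ 1) (n : ℕ) :
    MP_daa227_pr.mom μ γ (fun ω => Zr a b n (en β h ω)) ≤ 1 := by
  have hq : 0 ≤ qq μ β h γ := integral_nonneg fun _ => (Real.exp_pos _).le
  induction n using Nat.strong_induction_on with
  | _ n ih =>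
    cases n with
    | zero =>
      simp only [D.Zr_zero, MP_daa227_pr.mom_const, ENNReal.ofReal_one, ENNReal.one_rpow, le_refl]
    | succ n =>
      have e1 : ∀ ω : ℕ → ℝ, Zr a b (n + 1) (en β h ω) = ∑ k ∈ range (n + 1),
          gW a b (k + 1) (en β h ω) *
            (fun ω => Zr a b (n - k) (en β h ω)) (shift (2 * (k + 1)) ω) := by
        intro ω
        rw [D.Zr_succ]
        simp only [shift_en]
      rw [MP_daa227_pr.mom_congr e1]
      refine (MP_daa227_pr.mom_sum_le h0 h1 _ ?_ ?_).trans ?_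
      · intro k _
        exact (meas_gW a b _ β h).mul ((meas_Zr a b β h _).comp
          (MP_daa227_pr.measurable_shift _))
      · intro k _ ω
        exact mul_nonneg (D.gW_pos hK (Nat.succ_pos k) _).le (Zr_pos hK _ _).le
      have e2 : ∀ k ∈ range (n + 1), MP_daa227_pr.mom μ γ (fun ω => gW a b (k + 1) (en β h ω) *
            (fun ω => Zr a b (n - k) (en β h ω)) (shift (2 * (k + 1)) ω)) ≤
          ENNReal.ofReal (a (k + 1) ^ γ * qq μ β h γ +
            b (k + 1) ^ γ * qq μ β h γ ^ (2 * (k + 1))) := by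
        intro k _
        rw [MP_daa227_pr.mom_mul_shift h0.le (F := fun ω => gW a b (k + 1) (en β h ω))
          (G := fun ω => Zr a b (n - k) (en β h ω)) (meas_gW a b _ β h) (meas_Zr a b β h _) ?_
          (fun ω => (D.gW_pos hK (Nat.succ_pos k) _).le)]
        · refine (mul_le_mul' (mom_gW hμ β h h0 h1 (hK.a_pos _ (Nat.succ_pos k)).le
            (hK.b_pos _ (Nat.succ_pos k)).le) (ih (n - k) (by omega))).trans ?_
          rw [mul_one]
        · intro ω ω' hω
          refine D.gW_congr a b (Nat.succ_pos k) ?_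
          intro i hi
          simp only [en, hω i hi]
      refine (Finset.sum_le_sum e2).trans ?_
      rw [← ENNReal.ofReal_sum_of_nonneg]
      · rw [← ENNReal.ofReal_one]
        exact ENNReal.ofReal_le_ofReal (hs (n + 1))
      · intro k _
        exact add_nonneg (mul_nonneg (Real.rpow_nonneg (hK.a_pos _ (Nat.succ_pos k)).le _) hq)
          (mul_nonneg (Real.rpow_nonneg (hK.b_pos _ (Nat.succ_pos k)).le _) (pow_nonneg hq _))

theorem log_Zr {a b : ℕ → ℝ} (hK : KerOK a b) {μ : Measure ℝ} [IsProbabilityMeasure μ]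
    (hμ : ExpMom μ) (β h : ℝ) {γ : ℝ} (h0 : 0 < γ) (h1 : γ ≤ 1)
    (hs : ∀ n, ∑ k ∈ range n, (a (k + 1) ^ γ * qq μ β h γ +
      b (k + 1) ^ γ * qq μ β h γ ^ (2 * (k + 1))) ≤ 1) (n : ℕ) :
    ∫ ω, Real.log (Zr a b n (en β h ω)) ∂seqLaw μ ≤ 0 := by
  by_cases hi : Integrable (fun ω => Real.log (Zr a b n (en β h ω))) (seqLaw μ)
  · have h2 := (MP_daa227_pr.exp_le_mom h0.le (meas_Zr a b β h n) (fun ω => Zr_pos hK _ _) hi).trans
      (mom_Zr hK hμ β h h0 h1 hs n)
    rw [← ENNReal.ofReal_one, ENNReal.ofReal_le_ofReal_iff zero_le_one, Real.exp_le_one_iff] at h2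
    by_contra h3
    push Not at h3
    have := mul_pos h0 h3
    linarith
  · rw [integral_undef hi]

/-! ### The sum over the excursions -/

theorem pow_bound {x : ℝ} (hx : 0 < x) (hx1 : x ≤ 1) {γ₀ ε η : ℝ} (hη : 0 < η)
    (hη2 : 2 * η = 1 - γ₀) (hε : 0 ≤ ε) (hεη : ε ≤ η) :
    x ^ (1 - ε) ≤ x + ε / η * x ^ γ₀ := by
  set L := -Real.log x with hL
  have hL0 : 0 ≤ L := by
    have := Real.log_nonpos hx.le hx1
    rw [hL]
    linarith
  have h2 : x = Real.exp (-L) := by rw [hL, neg_neg, Real.exp_log hx]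
  have h1 : x ^ (1 - ε) = Real.exp (-L) * Real.exp (ε * L) := by
    rw [Real.rpow_def_of_pos hx, ← Real.exp_add, hL]
    congr 1
    ring
  have h3 : x ^ γ₀ = Real.exp (-L) * (Real.exp (η * L) * Real.exp (η * L)) := by
    rw [Real.rpow_def_of_pos hx, ← Real.exp_add, ← Real.exp_add, hL]
    congr 1
    have : γ₀ = 1 - 2 * η := by linarith
    rw [this]
    ring
  have h4 : Real.exp (ε * L) - 1 ≤ ε * L * Real.exp (ε * L) := by
    have h5 := Real.add_one_le_exp (-(ε * L))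
    have h6 := mul_le_mul_of_nonneg_right h5 (Real.exp_pos (ε * L)).le
    rw [← Real.exp_add, neg_add_cancel, Real.exp_zero] at h6
    linarith
  have h7 : Real.exp (ε * L) ≤ Real.exp (η * L) :=
    Real.exp_le_exp.2 (mul_le_mul_of_nonneg_right hεη hL0)
  have h8 : η * L ≤ Real.exp (η * L) := by
    have := Real.add_one_le_exp (η * L)
    linarith
  have h9 : ε * L * Real.exp (ε * L) ≤ ε / η * (Real.exp (η * L) * Real.exp (η * L)) := by
    have e1 : ε * L = ε / η * (η * L) := by field_simp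
    rw [e1, mul_assoc]
    refine mul_le_mul_of_nonneg_left ?_ (div_nonneg hε hη.le)
    rw [← e1]
    exact mul_le_mul h8 h7 (Real.exp_pos _).le (Real.exp_pos _).le
  have h10 : 0 < Real.exp (-L) := Real.exp_pos _
  rw [h1, h3]
  calc Real.exp (-L) * Real.exp (ε * L)
      ≤ Real.exp (-L) * (1 + ε / η * (Real.exp (η * L) * Real.exp (η * L))) :=
        mul_le_mul_of_nonneg_left (by linarith) h10.le
    _ = x + ε / η * (Real.exp (-L) * (Real.exp (η * L) * Real.exp (η * L))) := by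
        conv_rhs => rw [h2]
        ring

theorem heavy_num {a b : ℕ → ℝ} (hK : KerOK a b) {γ₀ : ℝ} (hγ0 : 0 < γ₀) (hγ1 : γ₀ < 1)
    (hsa : Summable fun k => a k ^ γ₀) (hsb : Summable fun k => b k ^ γ₀) {c e : ℝ}
    (hc : 0 < c) (he : e < 1) (hb : ∀ k : ℕ, 1 ≤ k → c * (k : ℝ) ^ (-(1 + e)) ≤ b k) {c₁ : ℝ}
    (hc1 : 0 < c₁) : ∃ ε : ℝ, 0 < ε ∧ ε ≤ 1 / 2 ∧ ∀ q : ℝ, 0 ≤ q → q ≤ Real.exp (-(c₁ * ε / 2)) →
      ∀ n, ∑ k ∈ range n, (a (k + 1) ^ (1 - ε) * q + b (k + 1) ^ (1 - ε) * q ^ (2 * (k + 1))) ≤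
        1 := by
  set η : ℝ := (1 - γ₀) / 2 with hη
  have hη0 : 0 < η := by rw [hη]; linarith
  have hη2 : 2 * η = 1 - γ₀ := by rw [hη]; ring
  set e' : ℝ := max e (1 / 2) with he'
  have he'1 : e' < 1 := max_lt he (by norm_num)
  have he'0 : e ≤ e' := le_max_left _ _
  have he'2 : (1 : ℝ) / 2 ≤ e' := le_max_right _ _
  set S : ℝ := ∑' k, (a k ^ γ₀ + b k ^ γ₀) with hS
  set κ : ℝ := 1 - Real.exp (-c₁) with hκ
  have hκ0 : 0 < κ := by
    rw [hκ, sub_pos, Real.exp_lt_one_iff]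
    linarith
  -- choice of the length
  obtain ⟨K, hK1, hK2, hK3⟩ : ∃ K : ℕ, 2 ≤ K ∧ 1 / η ≤ K ∧
      S / (η * κ * (c * (2 : ℝ) ^ (-(1 + e')))) ≤ (K : ℝ) ^ (1 - e') := by
    have t1 : Tendsto (fun K : ℕ => (K : ℝ) ^ (1 - e')) atTop atTop :=
      (tendsto_rpow_atTop (by linarith)).comp tendsto_natCast_atTop_atTop
    obtain ⟨K, h1, h2, h3⟩ := ((eventually_ge_atTop 2).and
      ((tendsto_natCast_atTop_atTop.eventually_ge_atTop (1 / η)).and
        (t1.eventually_ge_atTop (S / (η * κ * (c * (2 : ℝ) ^ (-(1 + e')))))))).exists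
    exact ⟨K, h1, h2, h3⟩
  have hKr : (2 : ℝ) ≤ K := by exact_mod_cast hK1
  have hKpos : (0 : ℝ) < K := by linarith
  set ε : ℝ := 1 / K with hε
  have hε0 : 0 < ε := by rw [hε]; positivity
  have hε1 : ε ≤ 1 / 2 := by
    rw [hε]
    exact one_div_le_one_div_of_le (by norm_num) hKr
  have hεη : ε ≤ η := by
    rw [hε, div_le_iff₀ hKpos]
    rw [div_le_iff₀ hη0] at hK2
    linarith
  refine ⟨ε, hε0, hε1, fun q hq0 hq n => ?_⟩
  have hq1 : q ≤ 1 := hq.trans (Real.exp_le_one_iff.2 (by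
    have : 0 ≤ c₁ * ε / 2 := by positivity
    linarith))
  have ha0 : ∀ k, 0 ≤ a k := fun k => by
    rcases Nat.eq_zero_or_pos k with rfl | hk
    · rw [hK.a_zero]
    · exact (hK.a_pos k hk).le
  have hb0 : ∀ k, 0 ≤ b k := fun k => by
    rcases Nat.eq_zero_or_pos k with rfl | hk
    · rw [hK.b_zero]
    · exact (hK.b_pos k hk).le
  have hab1 : ∀ k, a k + b k ≤ 1 := fun k =>
    le_hasSum hK.sum_one k fun j _ => add_nonneg (ha0 j) (hb0 j)
  set f : ℕ → ℝ := fun k => a k ^ (1 - ε) * q + b k ^ (1 - ε) * q ^ (2 * k) with hf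
  have hf0 : ∀ k, 0 ≤ f k := fun k =>
    add_nonneg (mul_nonneg (Real.rpow_nonneg (ha0 k) _) hq0)
      (mul_nonneg (Real.rpow_nonneg (hb0 k) _) (pow_nonneg hq0 _))
  set w : ℕ → ℝ := fun k => if k ∈ Ico K (2 * K) then κ * b k else 0 with hw
  set g : ℕ → ℝ := fun k => (a k + b k) + ε / η * (a k ^ γ₀ + b k ^ γ₀) - w k with hg
  have hfg : ∀ k, f k ≤ g k := by
    intro k
    rcases Nat.eq_zero_or_pos k with rfl | hk
    · have h1 : (0 : ℝ) ^ (1 - ε) = 0 := Real.zero_rpow (by linarith)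
      have h2 : (0 : ℝ) ^ γ₀ = 0 := Real.zero_rpow hγ0.ne'
      have h3 : w 0 = 0 := by
        rw [hw]
        dsimp only
        rw [if_neg]
        rw [mem_Ico]
        omega
      rw [hf, hg]
      dsimp only
      rw [hK.a_zero, hK.b_zero, h1, h2, h3]
      simp
    · have hak := hK.a_pos k hk
      have hbk := hK.b_pos k hk
      have hak1 : a k ≤ 1 := by linarith [hab1 k]
      have hbk1 : b k ≤ 1 := by linarith [hab1 k]
      have h1 := pow_bound hak hak1 hη0 hη2 hε0.le hεη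
      have h2 := pow_bound hbk hbk1 hη0 hη2 hε0.le hεη
      have h3 : a k ^ (1 - ε) * q ≤ a k ^ (1 - ε) :=
        mul_le_of_le_one_right (Real.rpow_nonneg hak.le _) hq1
      have h4 : b k ^ (1 - ε) * q ^ (2 * k) ≤ b k + ε / η * b k ^ γ₀ - w k := by
        by_cases hkK : k ∈ Ico K (2 * K)
        · have hw1 : w k = κ * b k := if_pos hkK
          have hkK' : (K : ℝ) ≤ k := by exact_mod_cast (mem_Ico.1 hkK).1
          have h5 : q ^ (2 * k) ≤ Real.exp (-c₁) := by
            calc q ^ (2 * k) ≤ Real.exp (-(c₁ * ε / 2)) ^ (2 * k) := pow_le_pow_left₀ hq0 hq _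
              _ = Real.exp (-(c₁ * (ε * k))) := by
                  rw [← Real.exp_nat_mul]
                  congr 1
                  push_cast
                  ring
              _ ≤ Real.exp (-c₁) := by
                  rw [Real.exp_le_exp, neg_le_neg_iff]
                  have h6 : 1 ≤ ε * k := by
                    rw [hε, one_div, ← div_eq_inv_mul, one_le_div hKpos]
                    exact hkK'
                  nlinarith
          have h6 : 0 ≤ ε / η * b k ^ γ₀ :=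
            mul_nonneg (div_nonneg hε0.le hη0.le) (Real.rpow_nonneg hbk.le _)
          have h7 : Real.exp (-c₁) ≤ 1 := Real.exp_le_one_iff.2 (by linarith)
          calc b k ^ (1 - ε) * q ^ (2 * k)
              ≤ (b k + ε / η * b k ^ γ₀) * Real.exp (-c₁) :=
                mul_le_mul h2 h5 (pow_nonneg hq0 _) (by positivity)
            _ ≤ b k + ε / η * b k ^ γ₀ - w k := by
                rw [hw1, hκ]
                nlinarith
        · have hw1 : w k = 0 := if_neg hkK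
          rw [hw1, sub_zero]
          exact (mul_le_of_le_one_right (Real.rpow_nonneg hbk.le _)
            (pow_le_one₀ hq0 hq1)).trans h2
      rw [hf, hg]
      dsimp only
      linarith
  have hsw : HasSum w (∑ k ∈ Ico K (2 * K), κ * b k) := by
    have h1 : ∑ k ∈ Ico K (2 * K), κ * b k = ∑ k ∈ Ico K (2 * K), w k :=
      Finset.sum_congr rfl fun k hk => (if_pos hk).symm
    rw [h1]
    exact hasSum_sum_of_ne_finset_zero fun k hk => if_neg hk
  have hsg : HasSum g (1 + ε / η * S - ∑ k ∈ Ico K (2 * K), κ * b k) :=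
    (hK.sum_one.add (((hsa.add hsb).hasSum).mul_left (ε / η))).sub hsw
  have hg0 : ∀ k, 0 ≤ g k := fun k => (hf0 k).trans (hfg k)
  have htail : c * (2 : ℝ) ^ (-(1 + e')) * (K : ℝ) ^ (-e') ≤ ∑ k ∈ Ico K (2 * K), b k := by
    have h1 : ∀ k ∈ Ico K (2 * K), c * ((2 * K : ℝ) ^ (-(1 + e'))) ≤ b k := by
      intro k hk
      rw [mem_Ico] at hk
      have hk1 : 1 ≤ k := by omega
      have hkr : (1 : ℝ) ≤ k := by exact_mod_cast hk1
      refine le_trans ?_ (hb k hk1)
      refine mul_le_mul_of_nonneg_left ?_ hc.le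
      calc (2 * K : ℝ) ^ (-(1 + e')) ≤ (k : ℝ) ^ (-(1 + e')) :=
            Real.rpow_le_rpow_of_nonpos (by linarith) (by exact_mod_cast hk.2.le) (by linarith)
        _ ≤ (k : ℝ) ^ (-(1 + e)) := Real.rpow_le_rpow_of_exponent_le hkr (by linarith)
    have h2 := Finset.card_nsmul_le_sum _ _ _ h1
    rw [Nat.card_Ico, nsmul_eq_mul] at h2
    refine le_trans (le_of_eq ?_) h2
    have h3 : ((2 * K - K : ℕ) : ℝ) = K := by
      have : 2 * K - K = K := by omega
      rw [this]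
    rw [h3, Real.mul_rpow (by norm_num) hKpos.le]
    have h4 : (K : ℝ) ^ (-e') = K * (K : ℝ) ^ (-(1 + e')) := by
      have : -e' = 1 + -(1 + e') := by ring
      rw [this, Real.rpow_add hKpos, Real.rpow_one]
    rw [h4]
    ring
  have hfin : 1 + ε / η * S - ∑ k ∈ Ico K (2 * K), κ * b k ≤ 1 := by
    rw [← Finset.mul_sum]
    have h1 : κ * (c * (2 : ℝ) ^ (-(1 + e')) * (K : ℝ) ^ (-e')) ≤
        κ * ∑ k ∈ Ico K (2 * K), b k := mul_le_mul_of_nonneg_left htail hκ0.le
    have h2 : ε / η * S ≤ κ * (c * (2 : ℝ) ^ (-(1 + e')) * (K : ℝ) ^ (-e')) := by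
      have hD : 0 < η * κ * (c * (2 : ℝ) ^ (-(1 + e'))) := by positivity
      rw [div_le_iff₀ hD] at hK3
      have h4 : (K : ℝ) ^ (1 - e') = K * (K : ℝ) ^ (-e') := by
        rw [sub_eq_add_neg, Real.rpow_add hKpos, Real.rpow_one]
      rw [h4] at hK3
      rw [hε]
      rw [div_div, div_mul_eq_mul_div, div_le_iff₀ (by positivity), one_mul]
      calc S ≤ K * (K : ℝ) ^ (-e') * (η * κ * (c * (2 : ℝ) ^ (-(1 + e')))) := hK3
        _ = κ * (c * (2 : ℝ) ^ (-(1 + e')) * (K : ℝ) ^ (-e')) * (K * η) := by ring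
    linarith
  calc ∑ k ∈ range n, (a (k + 1) ^ (1 - ε) * q + b (k + 1) ^ (1 - ε) * q ^ (2 * (k + 1)))
      = ∑ k ∈ range n, f (k + 1) := rfl
    _ ≤ ∑ k ∈ range (n + 1), f k := by
        rw [Finset.sum_range_succ']
        linarith [hf0 0]
    _ ≤ ∑ k ∈ range (n + 1), g k := Finset.sum_le_sum fun k _ => hfg k
    _ ≤ 1 + ε / η * S - ∑ k ∈ Ico K (2 * K), κ * b k :=
        sum_le_hasSum _ (fun k _ => hg0 k) hsg
    _ ≤ 1 := hfin

/-! ### Charges with a Gaussian component -/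

theorem lmg_conv {ν : Measure ℝ} [IsProbabilityMeasure ν] (hν : ExpMom ν) (s : NNReal)
    {μ : Measure ℝ} (hμ : μ = (gaussianReal 0 (s ^ 2)).conv ν) (t : ℝ) :
    lmg μ t = s ^ 2 * t ^ 2 / 2 + lmg ν t := by
  have h1 : ∫ x, Real.exp (t * x) ∂μ =
      Real.exp (s ^ 2 * t ^ 2 / 2) * ∫ x, Real.exp (t * x) ∂ν := by
    have hg : ∫ x, Real.exp (t * x) ∂gaussianReal 0 (s ^ 2) = Real.exp (s ^ 2 * t ^ 2 / 2) := by
      have h := mgf_gaussianReal (p := gaussianReal 0 (s ^ 2)) (X := fun x => x) (μ := 0)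
        (v := s ^ 2) (by simp) t
      unfold mgf at h
      rw [h]
      congr 1
      push_cast
      ring
    rw [hμ, Measure.conv, integral_map (by fun_prop) (by fun_prop)]
    have h2 : (fun x : ℝ × ℝ => Real.exp (t * (x.1 + x.2))) =
        fun x => Real.exp (t * x.1) * Real.exp (t * x.2) := by
      funext x
      rw [← Real.exp_add]
      congr 1
      ring
    rw [h2, integral_prod_mul (fun x => Real.exp (t * x)) (fun x => Real.exp (t * x)), hg]
  unfold lmg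
  rw [h1, Real.log_mul (Real.exp_pos _).ne' (integral_exp_pos (hν t)).ne', Real.log_exp]

end X1

/-- heavy negative excursions -/
theorem strict_heavy {a b : ℕ → ℝ} (hK : KerOK a b) (μ : Measure ℝ) [IsProbabilityMeasure μ]
    (hμ : ExpMom μ) (hvar : ∫ x, x ^ 2 ∂μ ≠ 0) (hmean : ∫ x, x ∂μ = 0) {β : ℝ} (hβ : 0 < β)
    {γ₀ : ℝ} (hγ0 : 0 < γ₀) (hγ1 : γ₀ < 1) (hsa : Summable fun k => a k ^ γ₀)
    (hsb : Summable fun k => b k ^ γ₀) {c e : ℝ} (hc : 0 < c) (he : e < 1)
    (hb : ∀ k : ℕ, 1 ≤ k → c * (k : ℝ) ^ (-(1 + e)) ≤ b k) :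
    ∃ h₁ : ℝ, h₁ < lmg μ β ∧ ∀ n, ∫ ω, Real.log (Zr a b n (en β h₁ ω)) ∂seqLaw μ ≤ 0 := by
  have hc1 : 0 < lmg μ β - 2 * lmg μ (β / 2) := by
    have := X1.lmg_strict hμ hvar hmean hβ
    linarith
  set c₁ := lmg μ β - 2 * lmg μ (β / 2) with hc₁
  obtain ⟨ε, hε0, hε1, hε2⟩ := X1.heavy_num hK hγ0 hγ1 hsa hsb hc he hb hc1
  have hcε : 0 < c₁ * ε := mul_pos hc1 hε0
  refine ⟨lmg μ β - c₁ * ε / 2, by linarith, ?_⟩
  refine X1.log_Zr hK hμ β _ (γ := 1 - ε) (by linarith) (by linarith) ?_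
  refine hε2 _ (integral_nonneg fun _ => (Real.exp_pos _).le) ?_
  rw [X1.qq_eq hμ, Real.exp_le_exp]
  have h1 := X1.lmg_convex hμ (θ := 1 - 2 * ε) (s := β) (t := β / 2) (by linarith) (by linarith)
  have h2 : (1 - 2 * ε) * β + (1 - (1 - 2 * ε)) * (β / 2) = (1 - ε) * β := by ring
  rw [h2] at h1
  have h3 : lmg μ ((1 - ε) * β) - (1 - ε) * (lmg μ β - c₁ * ε / 2) ≤
      -(c₁ * ε) + (1 - ε) * (c₁ * ε / 2) := by
    rw [hc₁]
    linarith
  nlinarith

/-- low temperature, charges with a Gaussian component -/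
theorem strict_large {a b : ℕ → ℝ} (hK : KerOK a b) (ν : Measure ℝ) [IsProbabilityMeasure ν]
    (hν : ExpMom ν) (s : NNReal) (hs : 0 < s) {μ : Measure ℝ} [IsProbabilityMeasure μ]
    (hμ : μ = (gaussianReal 0 (s ^ 2)).conv ν) (hμe : ExpMom μ)
    {γ₀ : ℝ} (hγ0 : 0 < γ₀) (hγ1 : γ₀ < 1) (hsa : Summable fun k => a k ^ γ₀)
    (hsb : Summable fun k => b k ^ γ₀) :
    ∃ β₀ : ℝ, ∀ β, β₀ ≤ β → 0 < β →
      ∃ h₁ : ℝ, h₁ < lmg μ β ∧ ∀ n, ∫ ω, Real.log (Zr a b n (en β h₁ ω)) ∂seqLaw μ ≤ 0 := by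
  have ha0 : ∀ k, 0 ≤ a k := fun k => by
    rcases Nat.eq_zero_or_pos k with rfl | hk
    · rw [hK.a_zero]
    · exact (hK.a_pos k hk).le
  have hb0 : ∀ k, 0 ≤ b k := fun k => by
    rcases Nat.eq_zero_or_pos k with rfl | hk
    · rw [hK.b_zero]
    · exact (hK.b_pos k hk).le
  have hsR : (0 : ℝ) < s := hs
  set S : ℝ := ∑' k, (a k ^ γ₀ + b k ^ γ₀) with hS
  have hS0 : 0 ≤ S := tsum_nonneg fun k =>
    add_nonneg (Real.rpow_nonneg (ha0 k) _) (Real.rpow_nonneg (hb0 k) _)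
  set A : ℝ := γ₀ * (1 - γ₀) * (s : ℝ) ^ 2 / 2 with hA
  have hA0 : 0 < A := by
    rw [hA]
    have : 0 < 1 - γ₀ := by linarith
    positivity
  -- large values of `β`
  have hev : ∀ᶠ β : ℝ in atTop, Real.exp (γ₀ - A * β) ≤ 1 / (S + 1) := by
    have t1 : Tendsto (fun β : ℝ => A * β) atTop atTop := tendsto_id.const_mul_atTop hA0
    have t2 : Tendsto (fun β : ℝ => γ₀ - A * β) atTop atBot := by
      have := tendsto_atBot_add_const_left atTop γ₀ (tendsto_neg_atTop_atBot.comp t1)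
      simpa [sub_eq_add_neg] using this
    have t3 := Real.tendsto_exp_atBot.comp t2
    exact (t3.eventually_lt_const (by positivity : (0 : ℝ) < 1 / (S + 1))).mono fun x hx => hx.le
  obtain ⟨β₁, hβ₁⟩ := eventually_atTop.1 hev
  refine ⟨max β₁ 1, fun β hβ hβ0 => ⟨lmg μ β - 1, by linarith, ?_⟩⟩
  have hβ1 : 1 ≤ β := (le_max_right _ _).trans hβ
  have hq0 : 0 ≤ X1.qq μ β (lmg μ β - 1) γ₀ := integral_nonneg fun _ => (Real.exp_pos _).le
  have hq : X1.qq μ β (lmg μ β - 1) γ₀ ≤ 1 / (S + 1) := by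
    refine le_trans ?_ (hβ₁ β ((le_max_left _ _).trans hβ))
    rw [X1.qq_eq hμe, Real.exp_le_exp, X1.lmg_conv hν s hμ, X1.lmg_conv hν s hμ]
    have h1 := X1.lmg_convex hν (θ := γ₀) (s := β) (t := 0) hγ0.le hγ1.le
    rw [mul_zero, add_zero, X1.lmg_zero, mul_zero, add_zero] at h1
    have h2 : A * β ≤ A * β ^ 2 := by
      refine mul_le_mul_of_nonneg_left ?_ hA0.le
      nlinarith
    have h3 : (s : ℝ) ^ 2 * (γ₀ * β) ^ 2 / 2 - γ₀ * ((s : ℝ) ^ 2 * β ^ 2 / 2) = -(A * β ^ 2) := by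
      rw [hA]
      ring
    nlinarith
  refine X1.log_Zr hK hμe β _ hγ0 hγ1.le fun n => ?_
  set q := X1.qq μ β (lmg μ β - 1) γ₀ with hqdef
  have hq1 : q ≤ 1 := hq.trans (by
    rw [div_le_one (by positivity)]
    linarith)
  have hsum := sum_le_hasSum (range (n + 1)) (fun k _ =>
    add_nonneg (Real.rpow_nonneg (ha0 k) γ₀) (Real.rpow_nonneg (hb0 k) γ₀)) (hsa.add hsb).hasSum
  rw [Finset.sum_range_succ'] at hsum
  have h0 : 0 ≤ a 0 ^ γ₀ + b 0 ^ γ₀ :=
    add_nonneg (Real.rpow_nonneg (ha0 0) γ₀) (Real.rpow_nonneg (hb0 0) γ₀)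
  calc ∑ k ∈ range n, (a (k + 1) ^ γ₀ * q + b (k + 1) ^ γ₀ * q ^ (2 * (k + 1)))
      ≤ ∑ k ∈ range n, (a (k + 1) ^ γ₀ + b (k + 1) ^ γ₀) * q := by
        refine Finset.sum_le_sum fun k _ => ?_
        rw [add_mul]
        refine add_le_add le_rfl (mul_le_mul_of_nonneg_left ?_ (Real.rpow_nonneg (hb0 _) _))
        calc q ^ (2 * (k + 1)) ≤ q ^ 1 := pow_le_pow_of_le_one hq0 hq1 (by omega)
          _ = q := pow_one q
    _ = (∑ k ∈ range n, (a (k + 1) ^ γ₀ + b (k + 1) ^ γ₀)) * q := by rw [Finset.sum_mul]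
    _ ≤ S * (1 / (S + 1)) := mul_le_mul (by linarith) hq hq0 hS0
    _ ≤ 1 := by
        rw [mul_one_div, div_le_one (by positivity)]
        linarith

end

end Pool.Agent.OT
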