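import Mathlib
import Pool.Agent.Lib.MP_daa227_pr_OT.Defs
import Pool.Agent.Lib.MP_daa227_pr.HcPos

/-!
# Copolymer: the kernels as probabilities of excursions
-/

namespace Pool.Agent.OT

open MeasureTheory ProbabilityTheory Finset Filter Topology
open MP_daa227_pr (Chain Zk Zf K0 shift seqLaw ExpMom)

noncomputable section

namespace K3

open scoped ENNReal

/-- The weights that single out an excursion of sign `s` and length `n`. -/
def wS (s : ℤ) (n : ℕ) : ℕ → ℤ → ℝ≥0∞ := fun i z =>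
  if i + 1 < n then (if 0 < s * z then 1 else 0) else (if z = 0 then 1 else 0)

lemma wS_succ (s : ℤ) (n : ℕ) : (fun i => wS s (n + 1) (i + 1)) = wS s n := by
  funext i z
  simp only [wS]
  have : i + 1 + 1 < n + 1 ↔ i + 1 < n := by omega
  simp only [this]

lemma Tw_pos {C : Chain} {s : ℤ} (hs : s = 1 ∨ s = -1) : ∀ (n : ℕ), 1 ≤ n → ∀ x : ℤ, 0 < s * x →
    MP_daa227_pr.Mark.Tw C n (wS s n) x = ENNReal.ofReal (K0 C n x)
  | 0, h, _, _ => absurd h (by norm_num)
  | 1, _, x, _ => by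
      rw [MP_daa227_pr.Mark.Tw, K0]
      have h1 : ∀ z ∈ Finset.Icc (x - 1) (x + 1), ENNReal.ofReal (C.p x z) * wS s 1 0 z *
          MP_daa227_pr.Mark.Tw C 0 (fun i => wS s 1 (i + 1)) z =
            if z = 0 then ENNReal.ofReal (C.p x 0) else 0 := by
        intro z _
        simp only [wS, MP_daa227_pr.Mark.Tw, mul_one]
        by_cases hz : z = 0
        · subst hz; simp
        · simp [hz]
      rw [Finset.sum_congr rfl h1]
      simp only [K0, mul_zero, Finset.sum_const_zero, add_zero, if_true]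
      rw [Finset.sum_ite_eq' ]
      split_ifs with h
      · rfl
      · rw [C.near x 0 h]; simp
  | n + 2, _, x, hx => by
      rw [MP_daa227_pr.Mark.Tw, wS_succ, K0]
      rw [if_neg (Nat.succ_ne_zero n), zero_add, ENNReal.ofReal_sum_of_nonneg]
      · rw [← Finset.sum_subset (Finset.sdiff_subset (s := Finset.Icc (x - 1) (x + 1)) (t := {0}))]
        · apply Finset.sum_congr rfl
          intro z hz
          rw [Finset.mem_sdiff, Finset.mem_singleton, Finset.mem_Icc] at hz
          have hz' : 0 < s * z := by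
            rcases hs with rfl | rfl <;> omega
          rw [ENNReal.ofReal_mul (C.nonneg _ _), Tw_pos hs (n + 1) (by omega) z hz']
          have : wS s (n + 1 + 1) 0 z = 1 := by
            simp [wS, hz']
          rw [this, mul_one]
        · intro z hz hz'
          have h0 : z = 0 := by
            by_contra h
            exact hz' (Finset.mem_sdiff.2 ⟨hz, by simpa using h⟩)
          have : wS s (n + 1 + 1) 0 z = 0 := by
            simp [wS, h0]
          rw [this]
          simp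
      · intro z _
        exact mul_nonneg (C.nonneg _ _) (MP_daa227_pr.Mark.K0_nonneg' _ _)

lemma Tw_zero {C : Chain} {s : ℤ} (hs : s = 1 ∨ s = -1) (n : ℕ) (hn : 1 ≤ n) :
    MP_daa227_pr.Mark.Tw C (n + 1) (wS s (n + 1)) 0 = ENNReal.ofReal (C.p 0 s * K0 C n s) := by
  rw [MP_daa227_pr.Mark.Tw, wS_succ]
  have hmem : s ∈ Finset.Icc ((0 : ℤ) - 1) (0 + 1) := by
    rw [Finset.mem_Icc]
    rcases hs with rfl | rfl <;> constructor <;> norm_num
  have hss : 0 < s * s := by
    rcases hs with rfl | rfl <;> norm_num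
  rw [Finset.sum_eq_single_of_mem s hmem]
  · have h1 : wS s (n + 1) 0 s = 1 := by
      simp only [wS]
      rw [if_pos (by omega), if_pos hss]
    rw [h1, mul_one, Tw_pos hs n hn s hss, ENNReal.ofReal_mul (C.nonneg _ _)]
  · intro z hz hzs
    have h0 : ¬ 0 < s * z := by
      rw [Finset.mem_Icc] at hz
      rcases hs with rfl | rfl <;> omega
    have h1 : wS s (n + 1) 0 z = 0 := by
      simp only [wS]
      rw [if_pos (by omega), if_neg h0]
    rw [h1, mul_zero, zero_mul]

lemma prob_eq {Ω : Type*} [MeasurableSpace Ω] (P : Measure Ω) [IsProbabilityMeasure P]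
    (C : Chain) (S : ℕ → Ω → ℤ) (hS : MP_daa227_pr.IsChain P C.p S) {s : ℤ}
    (hs : s = 1 ∨ s = -1) (n : ℕ) (hn : 1 ≤ n) :
    (P {w | S (n + 1) w = 0 ∧ ∀ i, 0 < i → i < n + 1 → 0 < s * S i w}).toReal =
      C.p 0 s * K0 C n s := by
  set E : Set Ω := {w | S (n + 1) w = 0 ∧ ∀ i, 0 < i → i < n + 1 → 0 < s * S i w} with hE
  have hmE : MeasurableSet E := by
    have h : E = S (n + 1) ⁻¹' {0} ∩ ⋂ i : ℕ, ⋂ _ : 0 < i, ⋂ _ : i < n + 1,
        S i ⁻¹' {z | 0 < s * z} := by
      ext w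
      simp [hE]
    rw [h]
    refine (hS.1 _ (measurableSet_singleton _)).inter ?_
    exact MeasurableSet.iInter fun i => MeasurableSet.iInter fun _ => MeasurableSet.iInter fun _ =>
      hS.1 i (Set.to_countable _).measurableSet
  have h1 : ∀ w, ∏ i ∈ Finset.range (n + 1), wS s (n + 1) i (S (i + 1) w) =
      E.indicator 1 w := by
    intro w
    by_cases hw : w ∈ E
    · rw [Set.indicator_of_mem hw, Pi.one_apply]
      apply Finset.prod_eq_one
      intro i hi
      rw [Finset.mem_range] at hi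
      simp only [wS]
      split_ifs with h2 h3 h3
      · rfl
      · exact absurd (hw.2 (i + 1) (Nat.succ_pos i) h2) h3
      · rfl
      · exfalso
        apply h3
        have : i + 1 = n + 1 := by omega
        rw [this]
        exact hw.1
    · rw [Set.indicator_of_notMem hw]
      have h2 : S (n + 1) w ≠ 0 ∨ ∃ i, 0 < i ∧ i < n + 1 ∧ ¬ 0 < s * S i w := by
        by_contra hcon
        push Not at hcon
        exact hw ⟨hcon.1, hcon.2⟩
      rcases h2 with h2 | ⟨i, hi0, hin, hi⟩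
      · apply Finset.prod_eq_zero (i := n) (Finset.mem_range.2 (by omega))
        simp only [wS]
        rw [if_neg (lt_irrefl (n + 1)), if_neg h2]
      · apply Finset.prod_eq_zero (i := i - 1) (Finset.mem_range.2 (by omega))
        simp only [wS]
        have h3 : i - 1 + 1 = i := by omega
        rw [h3, if_pos hin, if_neg hi]
  have h2 := MP_daa227_pr.Mark.lintegral_prod_eq hS (n + 1) (wS s (n + 1))
  simp_rw [h1] at h2
  rw [lintegral_indicator_one hmE, Tw_zero hs n hn] at h2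
  rw [h2, ENNReal.toReal_ofReal
    (mul_nonneg (C.nonneg _ _) (MP_daa227_pr.Mark.K0_nonneg' n s))]

lemma K0_zero_eq {C : Chain} (k : ℕ) :
    K0 C (2 * (k + 1)) 0 = Kp C (k + 1) + Km C (k + 1) := by
  have h1 : 2 * (k + 1) = (2 * k + 1) + 1 := by ring
  have h2 : 2 * (k + 1) - 1 = 2 * k + 1 := by omega
  unfold Kp Km
  rw [h2, h1, K0, if_neg (Nat.succ_ne_zero _), zero_add]
  have h3 : Finset.Icc ((0 : ℤ) - 1) (0 + 1) \ {0} = {1, -1} := by decide
  rw [h3, Finset.sum_pair (by norm_num)]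

end K3

open K3 in
theorem Kp_eq_prob {Ω : Type*} [MeasurableSpace Ω] (P : Measure Ω) [IsProbabilityMeasure P]
    (C : Chain) (hnl : ∀ x, C.p x x = 0) (S : ℕ → Ω → ℤ)
    (hS : (∀ n, Measurable (S n)) ∧ ∀ (n : ℕ) (x : ℕ → ℤ), x 0 = 0 →
      P {w | ∀ i ≤ n, S i w = x i} = ENNReal.ofReal (∏ i ∈ range n, C.p (x i) (x (i + 1))))
    {k : ℕ} (hk : 1 ≤ k) :
    (P {w | S (2 * k) w = 0 ∧ ∀ i, 0 < i → i < 2 * k → 0 < S i w}).toReal = Kp C k := by
  have h1 := prob_eq P C S hS (s := 1) (Or.inl rfl) (2 * k - 1) (by omega)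
  have h2 : 2 * k - 1 + 1 = 2 * k := by omega
  rw [h2] at h1
  simp only [one_mul] at h1
  rw [h1, Kp]

open K3 in
theorem Km_eq_prob {Ω : Type*} [MeasurableSpace Ω] (P : Measure Ω) [IsProbabilityMeasure P]
    (C : Chain) (hnl : ∀ x, C.p x x = 0) (S : ℕ → Ω → ℤ)
    (hS : (∀ n, Measurable (S n)) ∧ ∀ (n : ℕ) (x : ℕ → ℤ), x 0 = 0 →
      P {w | ∀ i ≤ n, S i w = x i} = ENNReal.ofReal (∏ i ∈ range n, C.p (x i) (x (i + 1))))
    {k : ℕ} (hk : 1 ≤ k) :
    (P {w | S (2 * k) w = 0 ∧ ∀ i, 0 < i → i < 2 * k → S i w < 0}).toReal = Km C k := by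
  have h1 := prob_eq P C S hS (s := -1) (Or.inr rfl) (2 * k - 1) (by omega)
  have h2 : 2 * k - 1 + 1 = 2 * k := by omega
  rw [h2] at h1
  simp only [neg_mul, one_mul, Left.neg_pos_iff] at h1
  rw [h1, Km]

open K3 in
theorem K_sum_one {Ω : Type*} [MeasurableSpace Ω] (P : Measure Ω) [IsProbabilityMeasure P]
    (C : Chain) (hnl : ∀ x, C.p x x = 0) (S : ℕ → Ω → ℤ)
    (hS : (∀ n, Measurable (S n)) ∧ ∀ (n : ℕ) (x : ℕ → ℤ), x 0 = 0 →
      P {w | ∀ i ≤ n, S i w = x i} = ENNReal.ofReal (∏ i ∈ range n, C.p (x i) (x (i + 1))))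
    (hrec : ∀ᵐ w ∂P, ∃ n, 0 < n ∧ S n w = 0) :
    HasSum (fun k => Kp C k + Km C k) 1 := by
  have h0 := MP_daa227_pr.hasSum_K0 hS hrec
  have hinj : Function.Injective (fun k : ℕ => 2 * k + 1) := by
    intro a b hab
    simp only at hab
    omega
  have h1 : HasSum ((fun n : ℕ => K0 C (n + 1) 0) ∘ fun k : ℕ => 2 * k + 1) 1 := by
    rw [hinj.hasSum_iff]
    · exact h0
    · intro n hn
      apply MP_daa227_pr.K0_parity hnl
      rintro ⟨m, hm⟩
      apply hn
      rw [Set.mem_range]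
      refine ⟨m.toNat - 1, ?_⟩
      push_cast at hm
      omega
  have h2 : ((fun n : ℕ => K0 C (n + 1) 0) ∘ fun k : ℕ => 2 * k + 1) =
      fun k : ℕ => Kp C (k + 1) + Km C (k + 1) := by
    funext k
    rw [← K0_zero_eq k]
    rfl
  rw [h2] at h1
  have h3 := (hasSum_nat_add_iff (f := fun k => Kp C k + Km C k) 1).1 h1
  have h4 : Kp C 0 + Km C 0 = 0 := by
    simp [Kp, Km, K0]
  simpa [h4] using h3

end

end Pool.Agent.OT
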