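import Mathlib
import Pool.Agent.Lib.MP_daa227_pr_OT.Defs
import Pool.Agent.Lib.MP_daa227_pr_OT.Dec
import Pool.Agent.Lib.MP_daa227_pr.Mom

/-!
# Copolymer: superadditivity and the free energy
-/

namespace Pool.Agent.OT

open MeasureTheory ProbabilityTheory Finset Filter Topology
open MP_daa227_pr (Chain Zk Zf K0 shift seqLaw ExpMom Good DepOn)

noncomputable section

namespace SupAux

lemma a_nonneg {a b : ℕ → ℝ} (hK : KerOK a b) (k : ℕ) : 0 ≤ a k := by
  rcases Nat.eq_zero_or_pos k with h | h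
  · rw [h, hK.a_zero]
  · exact (hK.a_pos k h).le

lemma b_nonneg {a b : ℕ → ℝ} (hK : KerOK a b) (k : ℕ) : 0 ≤ b k := by
  rcases Nat.eq_zero_or_pos k with h | h
  · rw [h, hK.b_zero]
  · exact (hK.b_pos k h).le

lemma good_exp {k : ℕ} (s : Finset ℕ) (hs : s ⊆ range k) :
    Good k 1 (fun θ : ℕ → ℝ => Real.exp (∑ i ∈ s, θ i)) := by
  refine ⟨by fun_prop, fun θ => (Real.exp_pos _).le, fun θ θ' => ?_⟩
  rw [← Real.exp_add]
  apply Real.exp_le_exp.2
  rw [one_mul]
  have h1 : ∑ i ∈ s, (θ i - θ' i) ≤ ∑ i ∈ range k, |θ i - θ' i| :=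
    (Finset.sum_le_sum fun i _ => le_abs_self _).trans
      (Finset.sum_le_sum_of_subset_of_nonneg hs fun _ _ _ => abs_nonneg _)
  rw [Finset.sum_sub_distrib] at h1
  linarith

lemma good_gW {a b : ℕ → ℝ} (hK : KerOK a b) (k : ℕ) :
    Good (2 * (k + 1)) 1 (fun θ => gW a b (k + 1) θ) := by
  have h1 : Good (2 * (k + 1)) 1 (fun θ : ℕ → ℝ => Real.exp (∑ i ∈ {2 * (k + 1) - 1}, θ i)) := by
    apply good_exp
    intro i hi
    rw [Finset.mem_singleton] at hi
    rw [Finset.mem_range]
    omega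
  have h2 : Good (2 * (k + 1)) 1 (fun θ : ℕ → ℝ => Real.exp (∑ i ∈ range (2 * (k + 1)), θ i)) :=
    good_exp _ (Finset.Subset.refl _)
  refine ((h1.const_mul (a_nonneg hK (k + 1))).add
    (h2.const_mul (b_nonneg hK (k + 1)))).congr fun θ => ?_
  simp only [gW, Finset.sum_singleton]

/-- the renewal partition function is a good function of the energies -/
lemma good_Zr {a b : ℕ → ℝ} (hK : KerOK a b) (n : ℕ) : Good (2 * n) 1 (fun θ => Zr a b n θ) := by
  induction n using Nat.strong_induction_on with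
  | _ n ih =>
    rcases n with _ | n
    · refine (Good.const (k := 2 * 0) (κ := 1) zero_le_one (c := 1) zero_le_one).congr fun θ => ?_
      simp only [Zr]
    · have h1 : ∀ k : Fin (n + 1), Good (2 * (n + 1)) 1
          (fun θ => gW a b (k + 1) θ * Zr a b (n - k) (shift (2 * (k + 1)) θ)) := by
        intro k
        have hk := k.2
        have h2 := (good_gW hK k).mul_shift (ih (n - k) (by omega))
        rwa [show 2 * ((k : ℕ) + 1) + 2 * (n - k) = 2 * (n + 1) by omega] at h2
      refine (Good.sum zero_le_one Finset.univ fun k _ => h1 k).congr fun θ => ?_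
      simp only [Zr]

lemma good_en {F : (ℕ → ℝ) → ℝ} {k : ℕ} (hF : Good k 1 F) (β h : ℝ) :
    Good k |β| (fun ω => F (en β h ω)) := by
  have hm : Measurable (fun ω : ℕ → ℝ => en β h ω) := by
    unfold en
    fun_prop
  refine ⟨hF.meas.comp hm, fun ω => hF.nonneg _, fun ω ω' => ?_⟩
  have h1 := hF.ratio (en β h ω) (en β h ω')
  refine h1.trans (le_of_eq ?_)
  congr 2
  rw [one_mul, Finset.mul_sum]
  apply Finset.sum_congr rfl
  intro i _
  unfold en
  rw [← abs_mul]
  congr 1
  ring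

/-- the partition function is a good function of the charges -/
lemma good_Zen {a b : ℕ → ℝ} (hK : KerOK a b) (β h : ℝ) (n : ℕ) :
    Good (2 * n) |β| (fun ω => Zr a b n (en β h ω)) := good_en (good_Zr hK n) β h

lemma sum_le_one {a b : ℕ → ℝ} (hK : KerOK a b) (n : ℕ) :
    ∑ k ∈ range n, (a (k + 1) + b (k + 1)) ≤ 1 := by
  have h1 : ∑ k ∈ range (n + 1), (a k + b k) ≤ 1 :=
    sum_le_hasSum _ (fun i _ => add_nonneg (a_nonneg hK i) (b_nonneg hK i)) hK.sum_one
  rw [Finset.sum_range_succ', hK.a_zero, hK.b_zero] at h1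
  linarith

lemma Zr_zero_le {a b : ℕ → ℝ} (hK : KerOK a b) (n : ℕ) : Zr a b n (fun _ => 0) ≤ 1 := by
  induction n using Nat.strong_induction_on with
  | _ n ih =>
    rcases n with _ | n
    · simp only [Zr, le_refl]
    · simp only [Zr]
      have h1 : ∀ k : Fin (n + 1), gW a b (k + 1) (fun _ => 0) *
          Zr a b (n - k) (shift (2 * ((k : ℕ) + 1)) (fun _ => 0)) ≤ a (k + 1) + b (k + 1) := by
        intro k
        have h2 : gW a b (k + 1) (fun _ => 0) = a (k + 1) + b (k + 1) := by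
          simp [gW]
        have h3 : shift (2 * ((k : ℕ) + 1)) (fun _ => (0 : ℝ)) = fun _ => 0 := rfl
        rw [h2, h3]
        have h4 := ih (n - k) (by omega)
        have h5 := add_nonneg (a_nonneg hK (k + 1)) (b_nonneg hK (k + 1))
        nlinarith
      refine (Finset.sum_le_sum fun k _ => h1 k).trans ?_
      rw [Fin.sum_univ_eq_sum_range (fun k => a (k + 1) + b (k + 1))]
      exact sum_le_one hK (n + 1)

lemma Zr_le {a b : ℕ → ℝ} (hK : KerOK a b) (n : ℕ) (θ : ℕ → ℝ) :
    Zr a b n θ ≤ Real.exp (∑ i ∈ range (2 * n), |θ i|) := by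
  have h1 := (good_Zr hK n).ratio θ (fun _ => 0)
  simp only [sub_zero, one_mul] at h1
  refine h1.trans ?_
  have h2 := Zr_zero_le hK n
  have h3 := Real.exp_pos (∑ i ∈ range (2 * n), |θ i|)
  nlinarith

lemma gW_le_Zr {a b : ℕ → ℝ} (hK : KerOK a b) {n : ℕ} (hn : 1 ≤ n) (θ : ℕ → ℝ) :
    gW a b n θ ≤ Zr a b n θ := by
  obtain ⟨m, rfl⟩ : ∃ m, n = m + 1 := ⟨n - 1, by omega⟩
  conv_rhs => rw [Zr]
  have h1 : gW a b (m + 1) θ = gW a b ((⟨m, by omega⟩ : Fin (m + 1)) + 1) θ *
      Zr a b (m - (⟨m, by omega⟩ : Fin (m + 1)))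
        (shift (2 * (((⟨m, by omega⟩ : Fin (m + 1)) : ℕ) + 1)) θ) := by
    simp [Zr]
  rw [h1]
  apply Finset.single_le_sum (f := fun k : Fin (m + 1) => gW a b (k + 1) θ *
      Zr a b (m - k) (shift (2 * ((k : ℕ) + 1)) θ)) _ (Finset.mem_univ _)
  intro k _
  exact mul_nonneg ((good_gW hK k).nonneg θ) ((good_Zr hK _).nonneg _)

lemma a_le_Zr {a b : ℕ → ℝ} (hK : KerOK a b) {n : ℕ} (hn : 1 ≤ n) (θ : ℕ → ℝ) :
    a n * Real.exp (θ (2 * n - 1)) ≤ Zr a b n θ := by
  refine le_trans ?_ (gW_le_Zr hK hn θ)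
  unfold gW
  have := mul_nonneg (b_nonneg hK n) (Real.exp_pos (∑ i ∈ range (2 * n), θ i)).le
  linarith

lemma b_le_Zr {a b : ℕ → ℝ} (hK : KerOK a b) {n : ℕ} (hn : 1 ≤ n) (θ : ℕ → ℝ) :
    b n * Real.exp (∑ i ∈ range (2 * n), θ i) ≤ Zr a b n θ := by
  refine le_trans ?_ (gW_le_Zr hK hn θ)
  unfold gW
  have := mul_nonneg (a_nonneg hK n) (Real.exp_pos (θ (2 * n - 1))).le
  linarith

lemma Zr_mono {a b : ℕ → ℝ} (hK : KerOK a b) (n : ℕ) {θ θ' : ℕ → ℝ} (h : ∀ i, θ i ≤ θ' i) :
    Zr a b n θ ≤ Zr a b n θ' := by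
  induction n using Nat.strong_induction_on generalizing θ θ' with
  | _ n ih =>
    rcases n with _ | n
    · simp only [Zr, le_refl]
    · simp only [Zr]
      apply Finset.sum_le_sum
      intro k _
      apply mul_le_mul
      · unfold gW
        apply add_le_add
        · exact mul_le_mul_of_nonneg_left (Real.exp_le_exp.2 (h _)) (a_nonneg hK _)
        · exact mul_le_mul_of_nonneg_left
            (Real.exp_le_exp.2 (Finset.sum_le_sum fun i _ => h i)) (b_nonneg hK _)
      · exact ih (n - k) (by omega) (fun i => h _)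
      · exact (good_Zr hK _).nonneg _
      · exact (good_gW hK k).nonneg _

lemma shift_en (β h : ℝ) (k : ℕ) (ω : ℕ → ℝ) : shift k (en β h ω) = en β h (shift k ω) := rfl

end SupAux

open SupAux

theorem integrable_logZr {a b : ℕ → ℝ} (hK : KerOK a b) (μ : Measure ℝ) [IsProbabilityMeasure μ]
    (hμ : ExpMom μ) (β h : ℝ) (n : ℕ) :
    Integrable (fun ω => Real.log (Zr a b n (en β h ω))) (seqLaw μ) :=
  (good_Zen hK β h n).integrable_log hμ fun _ => Zr_pos hK n _

namespace SupAux

variable {a b : ℕ → ℝ} (μ : Measure ℝ) [IsProbabilityMeasure μ]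

/-- the mean absolute value of an energy -/
def mab (μ : Measure ℝ) (β : ℝ) : ℝ := |β| * ∫ x, |x| ∂μ

omit [IsProbabilityMeasure μ] in
lemma mab_nonneg (β : ℝ) : 0 ≤ mab μ β :=
  mul_nonneg (abs_nonneg _) (integral_nonneg fun _ => abs_nonneg _)

lemma integral_coord {Y : ℝ → ℝ} (hY : Measurable Y) (i : ℕ) :
    ∫ ω, Y (ω i) ∂seqLaw μ = ∫ x, Y x ∂μ := by
  conv_rhs => rw [← MP_daa227_pr.map_apply_seq μ i]
  rw [integral_map (measurable_pi_apply i).aemeasurable hY.aestronglyMeasurable]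

lemma integrable_abs_coord (hμ : ExpMom μ) (i : ℕ) :
    Integrable (fun ω : ℕ → ℝ => |ω i|) (seqLaw μ) :=
  MP_daa227_pr.integrable_apply μ i (Y := fun x => |x|) (by fun_prop) hμ.integrable_abs

lemma integrable_coord (hμ : ExpMom μ) (i : ℕ) :
    Integrable (fun ω : ℕ → ℝ => ω i) (seqLaw μ) :=
  MP_daa227_pr.integrable_apply μ i (Y := fun x => x) (by fun_prop) hμ.integrable_id

/-- lower bound from one positive excursion -/
lemma LZ_lower_a (hK : KerOK a b) (hμ : ExpMom μ) (β h : ℝ) {n : ℕ} (hn : 1 ≤ n) :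
    Real.log (a n) - |h| - mab μ β ≤ ∫ ω, Real.log (Zr a b n (en β h ω)) ∂seqLaw μ := by
  have h1 : ∀ ω : ℕ → ℝ, Real.log (a n) - |h| - |β| * |ω (2 * n - 1)| ≤
      Real.log (Zr a b n (en β h ω)) := by
    intro ω
    have h2 := Real.log_le_log (mul_pos (hK.a_pos n hn) (Real.exp_pos _))
      (a_le_Zr hK hn (en β h ω))
    rw [Real.log_mul (hK.a_pos n hn).ne' (Real.exp_pos _).ne', Real.log_exp] at h2
    refine le_trans ?_ h2
    unfold en
    have h3 : -(|β| * |ω (2 * n - 1)|) ≤ β * ω (2 * n - 1) := by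
      rw [← abs_mul]
      exact neg_abs_le _
    have h4 := le_abs_self h
    linarith
  have h5 : Integrable (fun ω : ℕ → ℝ => Real.log (a n) - |h| - |β| * |ω (2 * n - 1)|)
      (seqLaw μ) :=
    (integrable_const _).sub ((integrable_abs_coord μ hμ _).const_mul _)
  have h6 := integral_mono h5 (integrable_logZr hK μ hμ β h n) h1
  rw [integral_sub (integrable_const _) ((integrable_abs_coord μ hμ _).const_mul _),
    integral_const_mul, integral_coord μ (Y := fun x => |x|) (by fun_prop)] at h6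
  simpa [mab] using h6

/-- lower bound from one negative excursion -/
lemma LZ_lower_b (hK : KerOK a b) (hμ : ExpMom μ) (hmean : ∫ x, x ∂μ = 0) (β h : ℝ) {n : ℕ}
    (hn : 1 ≤ n) :
    Real.log (b n) - 2 * n * h ≤ ∫ ω, Real.log (Zr a b n (en β h ω)) ∂seqLaw μ := by
  have h1 : ∀ ω : ℕ → ℝ, Real.log (b n) + ∑ i ∈ range (2 * n), (β * ω i - h) ≤
      Real.log (Zr a b n (en β h ω)) := by
    intro ω
    have h2 := Real.log_le_log (mul_pos (hK.b_pos n hn) (Real.exp_pos _))
      (b_le_Zr hK hn (en β h ω))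
    rw [Real.log_mul (hK.b_pos n hn).ne' (Real.exp_pos _).ne', Real.log_exp] at h2
    exact h2
  have h3 : ∀ i ∈ range (2 * n), Integrable (fun ω : ℕ → ℝ => β * ω i - h) (seqLaw μ) :=
    fun i _ => ((integrable_coord μ hμ i).const_mul β).sub (integrable_const _)
  have h5 : Integrable (fun ω : ℕ → ℝ => Real.log (b n) + ∑ i ∈ range (2 * n), (β * ω i - h))
      (seqLaw μ) := (integrable_const _).add (integrable_finsetSum _ h3)
  have h6 := integral_mono h5 (integrable_logZr hK μ hμ β h n) h1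
  rw [integral_add (integrable_const _) (integrable_finsetSum _ h3),
    integral_finsetSum _ h3] at h6
  have h7 : ∀ i ∈ range (2 * n), ∫ ω : ℕ → ℝ, (β * ω i - h) ∂seqLaw μ = -h := by
    intro i _
    rw [integral_sub ((integrable_coord μ hμ i).const_mul β) (integrable_const _),
      integral_const_mul, integral_coord μ (Y := fun x => x) (by fun_prop), hmean]
    simp
  rw [Finset.sum_congr rfl h7] at h6
  simp at h6
  linarith

/-- upper bound -/
lemma LZ_upper (hK : KerOK a b) (hμ : ExpMom μ) (β h : ℝ) (n : ℕ) :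
    ∫ ω, Real.log (Zr a b n (en β h ω)) ∂seqLaw μ ≤ 2 * n * (mab μ β + |h|) := by
  have h1 : ∀ ω : ℕ → ℝ, Real.log (Zr a b n (en β h ω)) ≤
      ∑ i ∈ range (2 * n), (|β| * |ω i| + |h|) := by
    intro ω
    have h2 := Real.log_le_log (Zr_pos hK n _) (Zr_le hK n (en β h ω))
    rw [Real.log_exp] at h2
    refine h2.trans (Finset.sum_le_sum fun i _ => ?_)
    unfold en
    rw [← abs_mul]
    exact abs_sub _ _
  have h3 : ∀ i ∈ range (2 * n), Integrable (fun ω : ℕ → ℝ => |β| * |ω i| + |h|) (seqLaw μ) :=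
    fun i _ => ((integrable_abs_coord μ hμ i).const_mul _).add (integrable_const _)
  have h6 := integral_mono (integrable_logZr hK μ hμ β h n) (integrable_finsetSum _ h3) h1
  rw [integral_finsetSum _ h3] at h6
  have h7 : ∀ i ∈ range (2 * n), ∫ ω : ℕ → ℝ, (|β| * |ω i| + |h|) ∂seqLaw μ =
      mab μ β + |h| := by
    intro i _
    rw [integral_add ((integrable_abs_coord μ hμ i).const_mul _) (integrable_const _),
      integral_const_mul, integral_coord μ (Y := fun x => |x|) (by fun_prop)]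
    simp [mab]
  rw [Finset.sum_congr rfl h7] at h6
  simp at h6
  linarith

/-- superadditivity -/
lemma LZ_superadd (hK : KerOK a b) (hμ : ExpMom μ) (β h : ℝ) (m n : ℕ) :
    ∫ ω, Real.log (Zr a b m (en β h ω)) ∂seqLaw μ + ∫ ω, Real.log (Zr a b n (en β h ω)) ∂seqLaw μ
      ≤ ∫ ω, Real.log (Zr a b (m + n) (en β h ω)) ∂seqLaw μ := by
  have hm : Measurable fun ω => Real.log (Zr a b n (en β h ω)) := (good_Zen hK β h n).meas.log
  have hi := integrable_logZr hK μ hμ β h n
  have h1 := MP_daa227_pr.integral_shift μ (2 * m) hm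
  have h2 := MP_daa227_pr.integrable_shift μ (2 * m) hm hi
  rw [← h1, ← integral_add (integrable_logZr hK μ hμ β h m) h2]
  apply integral_mono ((integrable_logZr hK μ hμ β h m).add h2)
    (integrable_logZr hK μ hμ β h (m + n))
  intro ω
  have h3 := Zr_mul_le hK m n (en β h ω)
  rw [shift_en] at h3
  have h4 := Real.log_le_log (mul_pos (Zr_pos hK m _) (Zr_pos hK n _)) h3
  rw [Real.log_mul (Zr_pos hK m _).ne' (Zr_pos hK n _).ne'] at h4
  exact h4

lemma log_low {f : ℕ → ℝ} (h : ∃ c e : ℝ, 0 < c ∧ 0 ≤ e ∧ ∀ k : ℕ, 1 ≤ k →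
    c * (k : ℝ) ^ (-e) ≤ f k) : ∃ c' e : ℝ, 0 ≤ c' ∧ 0 ≤ e ∧ ∀ k : ℕ, 1 ≤ k →
      -(c' + e * Real.log k) ≤ Real.log (f k) := by
  obtain ⟨c, e, hc, he, hf⟩ := h
  refine ⟨|Real.log c|, e, abs_nonneg _, he, fun k hk => ?_⟩
  have hk0 : (0 : ℝ) < k := by exact_mod_cast hk
  have h1 := Real.log_le_log (mul_pos hc (Real.rpow_pos_of_pos hk0 _)) (hf k hk)
  rw [Real.log_mul hc.ne' (Real.rpow_pos_of_pos hk0 _).ne', Real.log_rpow hk0] at h1
  have := neg_abs_le (Real.log c)
  linarith

lemma tendsto_log_div (A B : ℝ) :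
    Tendsto (fun n : ℕ => -(A + B * Real.log n) / (2 * n)) atTop (𝓝 0) := by
  have h1 : Tendsto (fun n : ℕ => Real.log n / n) atTop (𝓝 0) := by
    have := Real.isLittleO_log_id_atTop.tendsto_div_nhds_zero
    exact this.comp tendsto_natCast_atTop_atTop
  have h2 : Tendsto (fun n : ℕ => ((n : ℝ))⁻¹) atTop (𝓝 0) :=
    tendsto_inv_atTop_nhds_zero_nat
  have h3 : Tendsto (fun n : ℕ => -(A / 2) * ((n : ℝ))⁻¹ - (B / 2) * (Real.log n / n)) atTop
      (𝓝 (-(A / 2) * 0 - (B / 2) * 0)) := (h2.const_mul _).sub (h1.const_mul _)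
  simp only [mul_zero, sub_zero] at h3
  refine h3.congr fun n => ?_
  rcases Nat.eq_zero_or_pos n with h | h
  · simp [h]
  · have : (n : ℝ) ≠ 0 := by positivity
    field_simp
    ring

end SupAux

open SupAux in
theorem exists_F {a b : ℕ → ℝ} (hK : KerOK a b) (μ : Measure ℝ) [IsProbabilityMeasure μ]
    (hμ : ExpMom μ) (hmean : ∫ x, x ∂μ = 0) {β : ℝ} (hβ : 0 < β) :
    ∃ F : ℝ → ℝ, (∀ h, Tendsto (fun n : ℕ =>
        (∫ ω, Real.log (Zr a b n (en β h ω)) ∂seqLaw μ) / (2 * n)) atTop (𝓝 (F h))) ∧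
      (∀ h (n : ℕ), ∫ ω, Real.log (Zr a b n (en β h ω)) ∂seqLaw μ ≤ 2 * n * F h) ∧
      (∀ h, 0 ≤ F h) ∧ (∀ h h', h ≤ h' → F h' ≤ F h) ∧
      (∀ h h', h ≤ h' → F h ≤ F h' + (h' - h)) ∧ (∀ h, h < 0 → 0 < F h) := by
  set u : ℝ → ℕ → ℝ := fun h n => ∫ ω, Real.log (Zr a b n (en β h ω)) ∂seqLaw μ with hu
  have hsub : ∀ h, Subadditive (fun n => -u h n) := by
    intro h m n
    have := LZ_superadd μ hK hμ β h m n
    simp only [hu]
    linarith
  have hbdd : ∀ h, BddBelow (Set.range fun n : ℕ => -u h n / n) := by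
    intro h
    refine ⟨-(2 * (mab μ β + |h|)), ?_⟩
    rintro _ ⟨n, rfl⟩
    have h1 := LZ_upper μ hK hμ β h n
    have h0 := mab_nonneg μ β
    have h2 := abs_nonneg h
    rcases Nat.eq_zero_or_pos n with hn | hn
    · simp only [hn, Nat.cast_zero, div_zero]
      linarith
    · have hn0 : (0 : ℝ) < n := by exact_mod_cast hn
      simp only
      rw [le_div_iff₀ hn0]
      simp only [hu]
      linarith
  set F : ℝ → ℝ := fun h => -(hsub h).lim / 2 with hF
  have hlim : ∀ h, Tendsto (fun n : ℕ => u h n / (2 * n)) atTop (𝓝 (F h)) := by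
    intro h
    have h1 := ((hsub h).tendsto_lim (hbdd h)).const_mul (-(1 / 2) : ℝ)
    have h2 : -(1 / 2) * (hsub h).lim = F h := by
      simp only [hF]
      ring
    rw [h2] at h1
    refine h1.congr fun n => ?_
    rcases Nat.eq_zero_or_pos n with hn | hn
    · simp [hn]
    · have : (n : ℝ) ≠ 0 := by positivity
      field_simp
  have hle : ∀ h (n : ℕ), u h n ≤ 2 * n * F h := by
    intro h n
    rcases Nat.eq_zero_or_pos n with hn | hn
    · simp [hn, hu, Zr]
    · have h1 := (hsub h).lim_le_div (hbdd h) hn.ne'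
      have hn0 : (0 : ℝ) < n := by exact_mod_cast hn
      rw [le_div_iff₀ hn0] at h1
      simp only [hF]
      linarith
  refine ⟨F, hlim, hle, ?_, ?_, ?_, ?_⟩
  · intro h
    obtain ⟨c', e, hc', he, hlow⟩ := log_low hK.a_low
    refine le_of_tendsto_of_tendsto (tendsto_log_div (c' + |h| + mab μ β) e) (hlim h) ?_
    filter_upwards [eventually_ge_atTop 1] with n hn
    have hn0 : (0 : ℝ) < n := by exact_mod_cast hn
    rw [div_le_div_iff_of_pos_right (by positivity)]
    have h1 := LZ_lower_a μ hK hμ β h hn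
    have h2 := hlow n hn
    simp only [hu]
    linarith
  · intro h h' hh
    refine le_of_tendsto_of_tendsto (hlim h') (hlim h) ?_
    filter_upwards [eventually_ge_atTop 1] with n hn
    have hn0 : (0 : ℝ) < n := by exact_mod_cast hn
    rw [div_le_div_iff_of_pos_right (by positivity)]
    simp only [hu]
    apply integral_mono (integrable_logZr hK μ hμ β h' n) (integrable_logZr hK μ hμ β h n)
    intro ω
    apply Real.log_le_log (Zr_pos hK n _)
    apply Zr_mono hK
    intro i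
    unfold en
    linarith
  · intro h h' hh
    have h1 : Tendsto (fun n : ℕ => u h' n / (2 * n) + (h' - h)) atTop (𝓝 (F h' + (h' - h))) :=
      (hlim h').add_const _
    refine le_of_tendsto_of_tendsto (hlim h) h1 ?_
    filter_upwards [eventually_ge_atTop 1] with n hn
    have hn0 : (0 : ℝ) < n := by exact_mod_cast hn
    have h2 : u h n ≤ u h' n + 2 * n * (h' - h) := by
      have h3 : ∀ ω, Real.log (Zr a b n (en β h ω)) ≤
          Real.log (Zr a b n (en β h' ω)) + 2 * n * (h' - h) := by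
        intro ω
        have h4 := (good_Zr hK n).ratio (en β h ω) (en β h' ω)
        have h5 : ∑ i ∈ range (2 * n), |en β h ω i - en β h' ω i| = 2 * n * (h' - h) := by
          have : ∀ i ∈ range (2 * n), |en β h ω i - en β h' ω i| = h' - h := by
            intro i _
            unfold en
            rw [show β * ω i - h - (β * ω i - h') = h' - h by ring,
              abs_of_nonneg (by linarith)]
          rw [Finset.sum_congr rfl this]
          simp
          ring
        rw [h5, one_mul] at h4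
        have h6 := Real.log_le_log (Zr_pos hK n _) h4
        rw [Real.log_mul (Real.exp_pos _).ne' (Zr_pos hK n _).ne', Real.log_exp] at h6
        linarith
      have h7 := integral_mono (integrable_logZr hK μ hμ β h n)
        ((integrable_logZr hK μ hμ β h' n).add (integrable_const (2 * n * (h' - h)))) h3
      have h8 : ∫ ω, (Real.log (Zr a b n (en β h' ω)) + 2 * n * (h' - h)) ∂seqLaw μ =
          u h' n + 2 * n * (h' - h) := by
        rw [integral_add (integrable_logZr hK μ hμ β h' n) (integrable_const _)]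
        simp [hu]
      rw [← h8]
      exact h7
    rw [div_add' _ _ _ (by positivity), div_le_div_iff_of_pos_right (by positivity)]
    linarith
  · intro h hh
    obtain ⟨c', e, hc', he, hlow⟩ := log_low hK.b_low
    have h1 : Tendsto (fun n : ℕ => -(c' + e * Real.log n) / (2 * n) + (-h)) atTop (𝓝 (0 + (-h))) :=
      (tendsto_log_div c' e).add_const _
    have h2 : 0 + (-h) ≤ F h := by
      refine le_of_tendsto_of_tendsto h1 (hlim h) ?_
      filter_upwards [eventually_ge_atTop 1] with n hn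
      have hn0 : (0 : ℝ) < n := by exact_mod_cast hn
      rw [div_add' _ _ _ (by positivity), div_le_div_iff_of_pos_right (by positivity)]
      have h3 := LZ_lower_b μ hK hμ hmean β h hn
      have h4 := hlow n hn
      simp only [hu]
      linarith
    linarith

open SupAux in
/-- lower bound for the quenched averages -/
theorem LZ_ge {a b : ℕ → ℝ} (hK : KerOK a b) (μ : Measure ℝ) [IsProbabilityMeasure μ]
    (hμ : ExpMom μ) (β H : ℝ) : ∃ A : ℝ, 0 ≤ A ∧ ∀ h, |h| ≤ H → ∀ n : ℕ, 1 ≤ n →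
      -(A * (1 + Real.log n)) ≤ ∫ ω, Real.log (Zr a b n (en β h ω)) ∂seqLaw μ := by
  obtain ⟨c', e, hc', he, hlow⟩ := log_low hK.a_low
  have hm := mab_nonneg μ β
  refine ⟨c' + |H| + mab μ β + e, by positivity, fun h hh n hn => ?_⟩
  have h1 := LZ_lower_a μ hK hμ β h hn
  have h2 := hlow n hn
  have h3 : 0 ≤ Real.log n := Real.log_nonneg (by exact_mod_cast hn)
  have h4 : H ≤ |H| := le_abs_self H
  have h5 : 0 ≤ (c' + |H| + mab μ β) * Real.log n := by positivity
  nlinarith

end

end Pool.Agent.OT
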