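import Mathlib
import Pool.Agent.Lib.MP_daa227_pr_OT.Defs
import Pool.Agent.Lib.MP_daa227_pr_OT.Dec
import Pool.Agent.Lib.MP_daa227_pr_OT.Sup

/-!
# Copolymer: fractional moments when all quenched averages are nonpositive
-/

namespace Pool.Agent.OT

open MeasureTheory ProbabilityTheory Finset Filter Topology
open MP_daa227_pr (Chain Zk Zf K0 shift seqLaw ExpMom DepOn)

noncomputable section

namespace H2

/-! ### The largest energy -/

/-- smooth maximum of the first `K` energies -/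
def SM (β h : ℝ) (K : ℕ) (ω : ℕ → ℝ) : ℝ := Real.log (∑ i ∈ range K, Real.exp |en β h ω i|)

lemma abs_le_SM (β h : ℝ) {K i : ℕ} (hi : i < K) (ω : ℕ → ℝ) : |en β h ω i| ≤ SM β h K ω := by
  unfold SM
  have h1 : Real.exp |en β h ω i| ≤ ∑ i ∈ range K, Real.exp |en β h ω i| :=
    single_le_sum (f := fun i => Real.exp |en β h ω i|) (fun j _ => (Real.exp_pos _).le)
      (mem_range.2 hi)
  have h2 := Real.log_le_log (Real.exp_pos _) h1
  rwa [Real.log_exp] at h2

lemma SM_nonneg (β h : ℝ) {K : ℕ} (hK : 1 ≤ K) (ω : ℕ → ℝ) : 0 ≤ SM β h K ω :=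
  (abs_nonneg _).trans (abs_le_SM β h (i := 0) (by omega) ω)

/-- exponential moment of one energy -/
def c0 (μ : Measure ℝ) (β h : ℝ) : ℝ := ∫ x, Real.exp |β * x - h| ∂μ

variable {μ : Measure ℝ} [IsProbabilityMeasure μ]

lemma integrable_c0 (hμ : ExpMom μ) (β h : ℝ) :
    Integrable (fun x => Real.exp |β * x - h|) μ := by
  refine ((hμ.abs |β|).const_mul (Real.exp |h|)).mono' (by fun_prop) (ae_of_all _ fun x => ?_)
  rw [Real.norm_eq_abs, abs_of_pos (Real.exp_pos _), ← Real.exp_add]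
  apply Real.exp_le_exp.2
  have h1 := abs_sub (β * x) h
  rw [abs_mul] at h1
  linarith

lemma one_le_c0 (hμ : ExpMom μ) (β h : ℝ) : 1 ≤ c0 μ β h := by
  have h1 : ∫ _x, (1 : ℝ) ∂μ ≤ c0 μ β h :=
    integral_mono (integrable_const _) (integrable_c0 hμ β h)
      (fun x => Real.one_le_exp (abs_nonneg _))
  simpa using h1

lemma meas_sum (β h : ℝ) (K : ℕ) :
    Measurable fun ω : ℕ → ℝ => ∑ i ∈ range K, Real.exp |en β h ω i| := by
  unfold en
  fun_prop

lemma meas_SM (β h : ℝ) (K : ℕ) : Measurable (SM β h K) := (meas_sum β h K).log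

lemma integrable_sum (hμ : ExpMom μ) (β h : ℝ) (K : ℕ) :
    Integrable (fun ω : ℕ → ℝ => ∑ i ∈ range K, Real.exp |en β h ω i|) (seqLaw μ) :=
  integrable_finsetSum _ fun i _ =>
    MP_daa227_pr.integrable_apply μ i (Y := fun x => Real.exp |β * x - h|) (by fun_prop)
      (integrable_c0 hμ β h)

lemma integral_sum (hμ : ExpMom μ) (β h : ℝ) (K : ℕ) :
    ∫ ω : ℕ → ℝ, ∑ i ∈ range K, Real.exp |en β h ω i| ∂seqLaw μ = K * c0 μ β h := by
  have h0 := integral_finsetSum (μ := seqLaw μ) (range K)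
    (f := fun i (ω : ℕ → ℝ) => Real.exp |en β h ω i|) fun i _ =>
    MP_daa227_pr.integrable_apply μ i (Y := fun x => Real.exp |β * x - h|) (by fun_prop)
      (integrable_c0 hμ β h)
  rw [h0]
  have h1 : ∀ i ∈ range K, ∫ ω : ℕ → ℝ, Real.exp |en β h ω i| ∂seqLaw μ = c0 μ β h :=
    fun i _ => MP_daa227_pr.integral_apply μ i (Y := fun x => Real.exp |β * x - h|) (by fun_prop)
  rw [sum_congr rfl h1, sum_const, card_range, nsmul_eq_mul]

lemma one_le_sum (β h : ℝ) {K : ℕ} (hK : 1 ≤ K) (ω : ℕ → ℝ) :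
    1 ≤ ∑ i ∈ range K, Real.exp |en β h ω i| := by
  have h1 : Real.exp |en β h ω 0| ≤ ∑ i ∈ range K, Real.exp |en β h ω i| :=
    single_le_sum (f := fun i => Real.exp |en β h ω i|) (fun j _ => (Real.exp_pos _).le)
      (mem_range.2 (by omega))
  exact (Real.one_le_exp (abs_nonneg _)).trans h1

lemma integrable_SM (hμ : ExpMom μ) (β h : ℝ) {K : ℕ} (hK : 1 ≤ K) :
    Integrable (SM β h K) (seqLaw μ) := by
  refine (integrable_sum hμ β h K).mono' (meas_SM β h K).aestronglyMeasurable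
    (ae_of_all _ fun ω => ?_)
  rw [Real.norm_eq_abs, abs_of_nonneg (SM_nonneg β h hK ω)]
  unfold SM
  have h1 := one_le_sum β h hK ω
  have h2 := Real.log_le_sub_one_of_pos (zero_lt_one.trans_le h1)
  linarith

lemma integral_SM_le (hμ : ExpMom μ) (β h : ℝ) {K : ℕ} (hK : 1 ≤ K) :
    ∫ ω, SM β h K ω ∂seqLaw μ ≤ Real.log (K * c0 μ β h) := by
  set m := (K : ℝ) * c0 μ β h with hm
  have hK0 : (1 : ℝ) ≤ K := by exact_mod_cast hK
  have hm0 : 0 < m := by
    have := one_le_c0 hμ β h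
    positivity
  have h1 : ∀ ω, SM β h K ω ≤ (Real.log m - 1) + (∑ i ∈ range K, Real.exp |en β h ω i|) / m := by
    intro ω
    have h2 := zero_lt_one.trans_le (one_le_sum β h hK ω)
    have h3 := Real.log_le_sub_one_of_pos (div_pos h2 hm0)
    rw [Real.log_div h2.ne' hm0.ne'] at h3
    unfold SM
    linarith
  have hi : Integrable (fun ω : ℕ → ℝ => (∑ i ∈ range K, Real.exp |en β h ω i|) / m)
      (seqLaw μ) := (integrable_sum hμ β h K).div_const m
  have h4 : ∫ ω, SM β h K ω ∂seqLaw μ ≤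
      ∫ ω : ℕ → ℝ, ((Real.log m - 1) + (∑ i ∈ range K, Real.exp |en β h ω i|) / m) ∂seqLaw μ :=
    integral_mono (integrable_SM hμ β h hK) ((integrable_const (Real.log m - 1)).add hi) h1
  refine h4.trans (le_of_eq ?_)
  rw [integral_add (integrable_const _) hi, integral_div, integral_sum hμ β h K, ← hm,
    div_self hm0.ne']
  simp

/-! ### Pathwise lower bound -/

variable {a b : ℕ → ℝ}

lemma low_Zr (hK : KerOK a b) {N k : ℕ} (hk : k ≤ N) {D S : ℝ} (hD0 : 0 ≤ D) (hS : 0 ≤ S)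
    (hD : ∀ k, 1 ≤ k → k ≤ N → -D ≤ Real.log (a k)) {ψ : ℕ → ℝ} (hψ : ∀ i < 2 * k, |ψ i| ≤ S) :
    -(D + S) ≤ Real.log (Zr a b k ψ) := by
  rcases Nat.eq_zero_or_pos k with h | h
  · rw [h, Pool.Agent.OT.D.Zr_zero, Real.log_one]
    linarith
  · have h1 := Real.log_le_log (mul_pos (hK.a_pos k h) (Real.exp_pos _)) (SupAux.a_le_Zr hK h ψ)
    rw [Real.log_mul (hK.a_pos k h).ne' (Real.exp_pos _).ne', Real.log_exp] at h1
    have h2 := hD k h hk
    have h3 := hψ (2 * k - 1) (by omega)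
    have h4 := neg_abs_le (ψ (2 * k - 1))
    linarith

lemma log_mul_le (hK : KerOK a b) (m n : ℕ) (θ : ℕ → ℝ) :
    Real.log (Zr a b m θ) + Real.log (Zr a b n (shift (2 * m) θ)) ≤
      Real.log (Zr a b (m + n) θ) := by
  rw [← Real.log_mul (Zr_pos hK _ _).ne' (Zr_pos hK _ _).ne']
  exact Real.log_le_log (mul_pos (Zr_pos hK _ _) (Zr_pos hK _ _)) (Zr_mul_le hK m n θ)

/-- going through the block `i` -/
lemma block_low (hK : KerOK a b) {n m i : ℕ} (hi : i < m) {D S : ℝ} (hD0 : 0 ≤ D) (hS : 0 ≤ S)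
    (hD : ∀ k, 1 ≤ k → k ≤ m * n → -D ≤ Real.log (a k)) {θ : ℕ → ℝ}
    (hθ : ∀ j < 2 * (m * n), |θ j| ≤ S) :
    Real.log (Zr a b n (shift (2 * (i * n)) θ)) - 2 * (D + S) ≤
      Real.log (Zr a b (m * n) θ) := by
  obtain ⟨r, hr⟩ : ∃ r, m = i + 1 + r := ⟨m - (i + 1), by omega⟩
  have e : m * n = i * n + (n + r * n) := by rw [hr]; ring
  have h1 := log_mul_le hK (i * n) (n + r * n) θ
  rw [← e] at h1
  have h2 := log_mul_le hK n (r * n) (shift (2 * (i * n)) θ)
  have h3 : -(D + S) ≤ Real.log (Zr a b (i * n) θ) :=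
    low_Zr hK (N := m * n) (by omega) hD0 hS hD fun j hj => hθ j (by omega)
  have h4 : -(D + S) ≤ Real.log (Zr a b (r * n) (shift (2 * n) (shift (2 * (i * n)) θ))) := by
    refine low_Zr hK (N := m * n) (by omega) hD0 hS hD fun j hj => ?_
    rw [MP_daa227_pr.shift_shift, MP_daa227_pr.shift_apply]
    exact hθ _ (by omega)
  linarith

/-! ### Independence of the blocks -/

lemma prod_blocks (k : ℕ) {B : Set (ℕ → ℝ)} (hB : MeasurableSet B)
    (hd : ∀ ω ω' : ℕ → ℝ, (∀ i < k, ω i = ω' i) → (ω ∈ B ↔ ω' ∈ B)) (m : ℕ) :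
    ∫⁻ ω, ∏ i ∈ range m, B.indicator (fun _ => (1 : ENNReal)) (shift (k * i) ω) ∂seqLaw μ =
      (seqLaw μ B) ^ m := by
  have hmeas : ∀ m : ℕ, Measurable fun ω : ℕ → ℝ =>
      ∏ i ∈ range m, B.indicator (fun _ => (1 : ENNReal)) (shift (k * i) ω) := by
    intro m
    apply Finset.measurable_prod
    intro i _
    exact (measurable_const.indicator hB).comp (MP_daa227_pr.measurable_shift _)
  induction m with
  | zero => simp
  | succ m ih =>
    have h1 : ∀ ω : ℕ → ℝ, ∏ i ∈ range (m + 1),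
        B.indicator (fun _ => (1 : ENNReal)) (shift (k * i) ω) =
        B.indicator (fun _ => (1 : ENNReal)) ω *
          (fun ω => ∏ i ∈ range m, B.indicator (fun _ => (1 : ENNReal)) (shift (k * i) ω))
            (shift k ω) := by
      intro ω
      rw [prod_range_succ', mul_comm]
      simp only [Nat.mul_zero, MP_daa227_pr.shift_zero]
      congr 1
      refine prod_congr rfl fun i _ => ?_
      rw [MP_daa227_pr.shift_shift, show k * (i + 1) = k * i + k by ring]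
    simp_rw [h1]
    rw [MP_daa227_pr.lintegral_mul_shift μ (hmeas m) k (measurable_const.indicator hB) ?_, ih,
      pow_succ', lintegral_indicator_const hB, one_mul]
    intro ω ω' hω
    by_cases h : ω ∈ B
    · rw [Set.indicator_of_mem h, Set.indicator_of_mem ((hd ω ω' hω).1 h)]
    · rw [Set.indicator_of_notMem h, Set.indicator_of_notMem (fun h' => h ((hd ω ω' hω).2 h'))]

lemma prob_blocks (k : ℕ) {A : Set (ℕ → ℝ)} (hA : MeasurableSet A)
    (hd : ∀ ω ω' : ℕ → ℝ, (∀ i < k, ω i = ω' i) → (ω ∈ A ↔ ω' ∈ A)) (m : ℕ) :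
    seqLaw μ {ω | ∃ i < m, shift (k * i) ω ∈ A} = 1 - (1 - seqLaw μ A) ^ m := by
  have hm : MeasurableSet {ω : ℕ → ℝ | ∃ i < m, shift (k * i) ω ∈ A} := by
    have : {ω : ℕ → ℝ | ∃ i < m, shift (k * i) ω ∈ A} = ⋃ i ∈ range m, shift (k * i) ⁻¹' A := by
      ext ω
      simp
    rw [this]
    exact Finset.measurableSet_biUnion _ fun i _ => MP_daa227_pr.measurable_shift _ hA
  have h1 := prod_blocks (μ := μ) k hA.compl (fun ω ω' hω => not_congr (hd ω ω' hω)) m
  have h2 : ∀ ω : ℕ → ℝ, ∏ i ∈ range m, Aᶜ.indicator (fun _ => (1 : ENNReal)) (shift (k * i) ω) =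
      ({ω : ℕ → ℝ | ∃ i < m, shift (k * i) ω ∈ A}ᶜ).indicator (fun _ => (1 : ENNReal)) ω := by
    intro ω
    by_cases h : ∃ i < m, shift (k * i) ω ∈ A
    · rw [Set.indicator_of_notMem (Set.notMem_compl_iff.2
        (show ω ∈ {ω : ℕ → ℝ | ∃ i < m, shift (k * i) ω ∈ A} from h))]
      obtain ⟨i, hi, hiA⟩ := h
      exact prod_eq_zero (mem_range.2 hi) (Set.indicator_of_notMem (Set.notMem_compl_iff.2 hiA) _)
    · rw [Set.indicator_of_mem (show ω ∈ {ω : ℕ → ℝ | ∃ i < m, shift (k * i) ω ∈ A}ᶜ from h)]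
      push Not at h
      exact prod_eq_one fun i hi => Set.indicator_of_mem (h i (mem_range.1 hi)) _
  simp_rw [h2] at h1
  rw [lintegral_indicator_const hm.compl, one_mul, prob_compl_eq_one_sub hm,
    prob_compl_eq_one_sub hA] at h1
  rw [← h1, ENNReal.sub_sub_cancel ENNReal.one_ne_top prob_le_one]

/-! ### The tail estimate -/

lemma good_set_dep (a b : ℕ → ℝ) (β h : ℝ) (n : ℕ) (x : ℝ) (ω ω' : ℕ → ℝ)
    (hω : ∀ i < 2 * n, ω i = ω' i) :
    (ω ∈ {ω : ℕ → ℝ | x ≤ Real.log (Zr a b n (en β h ω))} ↔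
      ω' ∈ {ω : ℕ → ℝ | x ≤ Real.log (Zr a b n (en β h ω))}) := by
  have h1 : Zr a b n (en β h ω) = Zr a b n (en β h ω') :=
    Zr_congr a b n fun i hi => by unfold en; rw [hω i hi]
  simp only [Set.mem_ofPred_eq, h1]

lemma meas_logZr (hK : KerOK a b) (β h : ℝ) (n : ℕ) :
    Measurable fun ω : ℕ → ℝ => Real.log (Zr a b n (en β h ω)) :=
  (SupAux.good_Zen hK β h n).meas.log

/-- the main inequality -/
lemma block_ineq (hK : KerOK a b) (hμ : ExpMom μ) (β h : ℝ)
    (h0 : ∀ n, ∫ ω, Real.log (Zr a b n (en β h ω)) ∂seqLaw μ ≤ 0)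
    {c e : ℝ} (hc : 0 ≤ c) (he : 0 ≤ e)
    (hlow : ∀ k : ℕ, 1 ≤ k → -(c + e * Real.log k) ≤ Real.log (a k))
    {n m : ℕ} (hn : 1 ≤ n) (hm : 1 ≤ m) {x : ℝ} (hx : 0 ≤ x) :
    x * (1 - (1 - seqLaw μ {ω | x ≤ Real.log (Zr a b n (en β h ω))}) ^ m).toReal ≤
      2 * (c + e * Real.log (m * n)) + 2 * Real.log (2 * (m * n) * c0 μ β h) := by
  set A := {ω : ℕ → ℝ | x ≤ Real.log (Zr a b n (en β h ω))} with hA
  have hAm : MeasurableSet A := measurableSet_le measurable_const (meas_logZr hK β h n)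
  set G := {ω : ℕ → ℝ | ∃ i < m, shift (2 * n * i) ω ∈ A} with hG
  have hGm : MeasurableSet G := by
    have : G = ⋃ i ∈ range m, shift (2 * n * i) ⁻¹' A := by
      ext ω
      simp [hG]
    rw [this]
    exact Finset.measurableSet_biUnion _ fun i _ => MP_daa227_pr.measurable_shift _ hAm
  rw [← prob_blocks (μ := μ) (2 * n) hAm (good_set_dep a b β h n x) m]
  set D := c + e * Real.log (m * n) with hDdef
  have hmn : 1 ≤ m * n := Nat.mul_pos hm hn
  have hmn' : (1 : ℝ) ≤ (m : ℝ) * n := by exact_mod_cast hmn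
  have hD0 : 0 ≤ D := by
    have := Real.log_nonneg hmn'
    positivity
  have hD : ∀ k, 1 ≤ k → k ≤ m * n → -D ≤ Real.log (a k) := by
    intro k hk1 hk
    refine le_trans ?_ (hlow k hk1)
    have h1 : Real.log k ≤ Real.log (m * n) :=
      Real.log_le_log (by exact_mod_cast hk1) (by exact_mod_cast hk)
    have := mul_le_mul_of_nonneg_left h1 he
    rw [hDdef]
    linarith
  have key : ∀ ω : ℕ → ℝ, G.indicator (fun _ => x) ω - 2 * D - 2 * SM β h (2 * (m * n)) ω ≤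
      Real.log (Zr a b (m * n) (en β h ω)) := by
    intro ω
    have hS := SM_nonneg β h (K := 2 * (m * n)) (by omega) ω
    have hθ : ∀ j < 2 * (m * n), |en β h ω j| ≤ SM β h (2 * (m * n)) ω :=
      fun j hj => abs_le_SM β h hj ω
    by_cases hω : ω ∈ G
    · rw [Set.indicator_of_mem hω]
      obtain ⟨i, hi, hiA⟩ := hω
      have h1 := block_low hK hi hD0 hS hD hθ
      have h2 : x ≤ Real.log (Zr a b n (shift (2 * (i * n)) (en β h ω))) := by
        rw [SupAux.shift_en, show 2 * (i * n) = 2 * n * i by ring]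
        exact hiA
      linarith
    · rw [Set.indicator_of_notMem hω]
      have h1 := low_Zr hK le_rfl hD0 hS hD hθ
      linarith
  have hi1 : Integrable (G.indicator (fun _ => x)) (seqLaw μ) :=
    (integrable_const x).indicator hGm
  have hi2 := (integrable_SM hμ β h (K := 2 * (m * n)) (by omega)).const_mul 2
  have hi0 : Integrable (fun ω => G.indicator (fun _ => x) ω - 2 * D) (seqLaw μ) :=
    hi1.sub (integrable_const (2 * D))
  have h3 : ∫ ω, (G.indicator (fun _ => x) ω - 2 * D - 2 * SM β h (2 * (m * n)) ω) ∂seqLaw μ ≤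
      ∫ ω, Real.log (Zr a b (m * n) (en β h ω)) ∂seqLaw μ :=
    integral_mono (hi0.sub hi2) (integrable_logZr hK μ hμ β h (m * n)) key
  have h4 := integral_SM_le hμ β h (K := 2 * (m * n)) (by omega)
  have h5 := h0 (m * n)
  have e1 : ∫ ω, 2 * SM β h (2 * (m * n)) ω ∂seqLaw μ =
      2 * ∫ ω, SM β h (2 * (m * n)) ω ∂seqLaw μ := integral_const_mul _ _
  rw [integral_sub hi0 hi2, e1,
    integral_sub hi1 (integrable_const _), integral_indicator_const _ hGm] at h3
  simp only [integral_const, probReal_univ, smul_eq_mul, one_mul] at h3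
  push_cast at h4
  have h6 : (seqLaw μ).real G = (seqLaw μ G).toReal := rfl
  rw [h6] at h3
  change x * (seqLaw μ G).toReal ≤ _
  linarith

/-- the tail of the logarithm -/
lemma tail (hK : KerOK a b) (hμ : ExpMom μ) (β h : ℝ)
    (h0 : ∀ n, ∫ ω, Real.log (Zr a b n (en β h ω)) ∂seqLaw μ ≤ 0) :
    ∃ g : ℝ, 0 < g ∧ ∀ n : ℕ, 1 ≤ n → ∀ x : ℝ, 0 ≤ x →
      seqLaw μ {ω | x ≤ Real.log (Zr a b n (en β h ω))} ≤
        ENNReal.ofReal (2 * Real.exp 1 * n * Real.exp (-(g * x))) := by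
  obtain ⟨c, e, hc, he, hlow⟩ := SupAux.log_low hK.a_low
  have hc1 := one_le_c0 hμ β h
  have hlc : 0 ≤ Real.log (c0 μ β h) := Real.log_nonneg hc1
  set C1 : ℝ := 2 * (2 * c + 2 * e + 2 * Real.log 2 + 2 + 2 * Real.log (c0 μ β h)) with hC1
  have hl2 : 0 < Real.log 2 := Real.log_pos (by norm_num)
  have hC1pos : 0 < C1 := by positivity
  refine ⟨C1⁻¹, inv_pos.2 hC1pos, fun n hn x hx => ?_⟩
  set q := seqLaw μ {ω | x ≤ Real.log (Zr a b n (en β h ω))} with hq
  have hq1 : q ≤ 1 := prob_le_one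
  have hqt : q ≠ ⊤ := ne_top_of_le_ne_top ENNReal.one_ne_top hq1
  rcases eq_or_ne q 0 with hq0 | hq0
  · rw [hq0]; exact zero_le
  set r := q.toReal with hr
  have hr0 : 0 < r := ENNReal.toReal_pos hq0 hqt
  have hr1 : r ≤ 1 := by
    have := ENNReal.toReal_mono ENNReal.one_ne_top hq1
    simpa using this
  set m := ⌈1 / r⌉₊ with hm
  have hm1 : 1 / r ≤ m := Nat.le_ceil _
  have hm2 : (m : ℝ) < 1 / r + 1 := Nat.ceil_lt_add_one (by positivity)
  have hone : 1 ≤ 1 / r := by rw [le_div_iff₀ hr0]; linarith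
  have hm3 : 1 ≤ m := by
    have : (1 : ℝ) ≤ m := hone.trans hm1
    exact_mod_cast this
  have h1 := block_ineq hK hμ β h h0 hc he hlow hn hm3 hx
  rw [← hq] at h1
  have h2 : (1 - (1 - q) ^ m).toReal = 1 - (1 - r) ^ m := by
    rw [ENNReal.toReal_sub_of_le (pow_le_one' tsub_le_self m) ENNReal.one_ne_top,
      ENNReal.toReal_pow, ENNReal.toReal_sub_of_le hq1 ENNReal.one_ne_top, ENNReal.toReal_one]
  rw [h2] at h1
  have h3 : (1 - r) ^ m ≤ 1 / 2 := by
    have h4 : 1 - r ≤ Real.exp (-r) := by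
      have := Real.add_one_le_exp (-r)
      linarith
    have h5 : (1 - r) ^ m ≤ Real.exp (-r) ^ m := pow_le_pow_left₀ (by linarith) h4 m
    rw [← Real.exp_nat_mul] at h5
    have h6 : Real.exp (m * -r) ≤ Real.exp (-1) := by
      apply Real.exp_le_exp.2
      have : 1 ≤ m * r := by
        rw [div_le_iff₀ hr0] at hm1
        linarith
      linarith
    have h7 : Real.exp (-1) ≤ 1 / 2 := by
      rw [Real.exp_neg, one_div]
      apply inv_anti₀ (by norm_num)
      have := Real.add_one_le_exp (1 : ℝ)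
      linarith
    linarith
  have hn1 : (1 : ℝ) ≤ n := by exact_mod_cast hn
  have hmr : (1 : ℝ) ≤ m := by exact_mod_cast hm3
  have hmn : (1 : ℝ) ≤ m * n := by nlinarith
  set ℓ := Real.log (m * n) with hℓ
  have hℓ0 : 0 ≤ ℓ := Real.log_nonneg hmn
  have h4 : Real.log (2 * (m * n) * c0 μ β h) = Real.log 2 + ℓ + Real.log (c0 μ β h) := by
    rw [Real.log_mul (by positivity) (by positivity), Real.log_mul (by norm_num) (by positivity)]
  rw [h4] at h1
  have h5 : x / 2 ≤ 2 * (c + e * ℓ) + 2 * (Real.log 2 + ℓ + Real.log (c0 μ β h)) := by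
    have : x * (1 / 2) ≤ x * (1 - (1 - r) ^ m) := mul_le_mul_of_nonneg_left (by linarith) hx
    linarith
  have h6 : x ≤ C1 * (1 + ℓ) := by
    have i1 : 0 ≤ c * ℓ := by positivity
    have i2 : 0 ≤ Real.log 2 * ℓ := by positivity
    have i3 : 0 ≤ Real.log (c0 μ β h) * ℓ := by positivity
    rw [hC1]
    nlinarith
  have h7 : C1⁻¹ * x ≤ 1 + ℓ := by
    rw [inv_mul_le_iff₀ hC1pos]
    exact h6
  have h8 : (m : ℝ) * n ≤ 2 * n / r := by
    have : (m : ℝ) ≤ 2 / r := by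
      have e2 : 2 / r = 1 / r + 1 / r := by ring
      rw [e2]
      linarith
    calc (m : ℝ) * n ≤ 2 / r * n := mul_le_mul_of_nonneg_right this (by positivity)
      _ = 2 * n / r := by ring
  have h9 : Real.exp ℓ ≤ 2 * n / r := by
    rw [hℓ, Real.exp_log (by positivity)]
    exact h8
  have h10 : r ≤ 2 * Real.exp 1 * n * Real.exp (-(C1⁻¹ * x)) := by
    rw [le_div_iff₀ hr0] at h9
    have i1 : Real.exp (C1⁻¹ * x) ≤ Real.exp 1 * Real.exp ℓ := by
      rw [← Real.exp_add]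
      exact Real.exp_le_exp.2 h7
    have i2 : Real.exp (C1⁻¹ * x) * r ≤ Real.exp 1 * (2 * n) := by
      calc Real.exp (C1⁻¹ * x) * r ≤ Real.exp 1 * Real.exp ℓ * r :=
            mul_le_mul_of_nonneg_right i1 hr0.le
        _ = Real.exp 1 * (Real.exp ℓ * r) := by ring
        _ ≤ _ := mul_le_mul_of_nonneg_left h9 (Real.exp_pos _).le
    rw [Real.exp_neg, ← div_eq_mul_inv, le_div_iff₀ (Real.exp_pos _)]
    linarith
  rw [← ENNReal.ofReal_toReal hqt]
  exact ENNReal.ofReal_le_ofReal h10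

/-! ### From the tail to the moment -/

lemma moment {P : Measure (ℕ → ℝ)} [IsProbabilityMeasure P] {Y : (ℕ → ℝ) → ℝ} (hY : Measurable Y)
    {γ C : ℝ} (hγ : 0 < γ) (hC : 0 ≤ C)
    (ht : ∀ x : ℝ, 0 ≤ x → P {ω | x ≤ Y ω} ≤ ENNReal.ofReal (C * Real.exp (-(2 * γ * x)))) :
    ∫⁻ ω, ENNReal.ofReal (Real.exp (γ * Y ω)) ∂P ≤
      ENNReal.ofReal (1 + C * Real.exp γ * (1 - Real.exp (-γ))⁻¹) := by
  have hmeas : ∀ k : ℕ, MeasurableSet {ω : ℕ → ℝ | (k : ℝ) ≤ Y ω} := fun k =>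
    measurableSet_le measurable_const hY
  have h1 : ∀ ω, ENNReal.ofReal (Real.exp (γ * Y ω)) ≤ 1 + ∑' k : ℕ,
      {ω : ℕ → ℝ | (k : ℝ) ≤ Y ω}.indicator
        (fun _ => ENNReal.ofReal (Real.exp (γ * (k + 1)))) ω := by
    intro ω
    by_cases hω : Y ω < 0
    · refine le_trans ?_ le_self_add
      rw [← ENNReal.ofReal_one]
      apply ENNReal.ofReal_le_ofReal
      rw [Real.exp_le_one_iff]
      nlinarith
    · push Not at hω
      refine le_trans ?_ le_add_self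
      obtain ⟨k, hk⟩ : ∃ k, k = ⌊Y ω⌋₊ := ⟨_, rfl⟩
      have hk1 : (k : ℝ) ≤ Y ω := by rw [hk]; exact Nat.floor_le hω
      have hk2 : Y ω ≤ k + 1 := by rw [hk]; exact (Nat.lt_floor_add_one _).le
      refine le_trans ?_ (ENNReal.le_tsum k)
      rw [Set.indicator_of_mem (show ω ∈ {ω : ℕ → ℝ | (k : ℝ) ≤ Y ω} from hk1)]
      apply ENNReal.ofReal_le_ofReal
      apply Real.exp_le_exp.2
      exact mul_le_mul_of_nonneg_left hk2 hγ.le
  have hs : Summable fun k : ℕ => C * Real.exp γ * Real.exp (-γ) ^ k :=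
    (summable_geometric_of_lt_one (Real.exp_pos _).le
      (Real.exp_lt_one_iff.2 (by linarith))).mul_left _
  have h2 : ∀ k : ℕ, ENNReal.ofReal (Real.exp (γ * (k + 1))) * P {ω : ℕ → ℝ | (k : ℝ) ≤ Y ω} ≤
      ENNReal.ofReal (C * Real.exp γ * Real.exp (-γ) ^ k) := by
    intro k
    refine (mul_le_mul_right (ht k (Nat.cast_nonneg k)) _).trans (le_of_eq ?_)
    rw [← ENNReal.ofReal_mul (Real.exp_pos _).le, ← Real.exp_nat_mul]
    congr 1
    have : Real.exp (γ * (k + 1)) * (C * Real.exp (-(2 * γ * k))) =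
        C * (Real.exp (γ * (k + 1)) * Real.exp (-(2 * γ * k))) := by ring
    rw [this, ← Real.exp_add, mul_assoc C, ← Real.exp_add]
    congr 2
    ring
  calc ∫⁻ ω, ENNReal.ofReal (Real.exp (γ * Y ω)) ∂P
      ≤ ∫⁻ ω, (1 + ∑' k : ℕ, {ω : ℕ → ℝ | (k : ℝ) ≤ Y ω}.indicator
        (fun _ => ENNReal.ofReal (Real.exp (γ * (k + 1)))) ω) ∂P := lintegral_mono h1
    _ = 1 + ∑' k : ℕ, ENNReal.ofReal (Real.exp (γ * (k + 1))) *
          P {ω : ℕ → ℝ | (k : ℝ) ≤ Y ω} := by
        rw [lintegral_add_left measurable_const, lintegral_tsum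
          (fun k => (measurable_const.indicator (hmeas k)).aemeasurable)]
        congr 1
        · simp
        · exact tsum_congr fun k => lintegral_indicator_const (hmeas k) _
    _ ≤ 1 + ∑' k : ℕ, ENNReal.ofReal (C * Real.exp γ * Real.exp (-γ) ^ k) := by
        gcongr with k
        exact h2 k
    _ = ENNReal.ofReal (1 + C * Real.exp γ * (1 - Real.exp (-γ))⁻¹) := by
        rw [← ENNReal.ofReal_tsum_of_nonneg (fun k => by positivity) hs, tsum_mul_left,
          tsum_geometric_of_lt_one (Real.exp_pos _).le (Real.exp_lt_one_iff.2 (by linarith)),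
          ENNReal.ofReal_add zero_le_one, ENNReal.ofReal_one]
        have : 0 < 1 - Real.exp (-γ) := by
          have := Real.exp_lt_one_iff.2 (show -γ < 0 by linarith)
          linarith
        positivity

end H2

theorem hop {a b : ℕ → ℝ} (hK : KerOK a b) (μ : Measure ℝ) [IsProbabilityMeasure μ]
    (hμ : ExpMom μ) {β : ℝ} (hβ : 0 < β) (h : ℝ)
    (h0 : ∀ n, ∫ ω, Real.log (Zr a b n (en β h ω)) ∂seqLaw μ ≤ 0) :
    ∃ γ A : ℝ, 0 < γ ∧ 0 ≤ A ∧ ∀ n : ℕ, 1 ≤ n →
      Integrable (fun ω => Zr a b n (en β h ω) ^ γ) (seqLaw μ) ∧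
      Real.log (∫ ω, Zr a b n (en β h ω) ^ γ ∂seqLaw μ) ≤ A * (1 + Real.log n) := by
  obtain ⟨g, hg, ht⟩ := H2.tail hK hμ β h h0
  set γ := g / 2 with hγ
  have hγ0 : 0 < γ := by positivity
  have h1e : 0 < 1 - Real.exp (-γ) := by
    have := Real.exp_lt_one_iff.2 (show -γ < 0 by linarith)
    linarith
  set C2 : ℝ := 1 + 2 * Real.exp 1 * Real.exp γ * (1 - Real.exp (-γ))⁻¹ with hC2
  have hC21 : 1 ≤ C2 := by
    have : 0 ≤ 2 * Real.exp 1 * Real.exp γ * (1 - Real.exp (-γ))⁻¹ := by positivity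
    linarith
  refine ⟨γ, 1 + Real.log C2, hγ0, by have := Real.log_nonneg hC21; linarith, fun n hn => ?_⟩
  have hn1 : (1 : ℝ) ≤ n := by exact_mod_cast hn
  have hmeas := H2.meas_logZr hK β h n
  have h1 := H2.moment (P := seqLaw μ) hmeas hγ0 (C := 2 * Real.exp 1 * n) (by positivity)
    (fun x hx => by
      refine (ht n hn x hx).trans (le_of_eq ?_)
      congr 3
      rw [hγ]
      ring)
  have e1 : ∀ ω : ℕ → ℝ, Zr a b n (en β h ω) ^ γ =
      Real.exp (γ * Real.log (Zr a b n (en β h ω))) := fun ω => by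
    rw [Real.rpow_def_of_pos (Zr_pos hK n _), mul_comm]
  simp_rw [e1]
  have hint : Integrable (fun ω => Real.exp (γ * Real.log (Zr a b n (en β h ω)))) (seqLaw μ) := by
    refine ⟨((hmeas.const_mul γ).exp).aestronglyMeasurable, ?_⟩
    rw [hasFiniteIntegral_iff_ofReal (ae_of_all _ fun _ => (Real.exp_pos _).le)]
    exact h1.trans_lt ENNReal.ofReal_lt_top
  refine ⟨hint, ?_⟩
  have h2 : ∫ ω, Real.exp (γ * Real.log (Zr a b n (en β h ω))) ∂seqLaw μ ≤ C2 * n := by
    rw [integral_eq_lintegral_of_nonneg_ae (ae_of_all _ fun _ => (Real.exp_pos _).le)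
      hint.aestronglyMeasurable]
    refine ENNReal.toReal_le_of_le_ofReal (by positivity) (h1.trans ?_)
    apply ENNReal.ofReal_le_ofReal
    rw [hC2]
    have i1 : 2 * Real.exp 1 * n * Real.exp γ * (1 - Real.exp (-γ))⁻¹ =
        2 * Real.exp 1 * Real.exp γ * (1 - Real.exp (-γ))⁻¹ * n := by ring
    rw [i1]
    linarith
  have h3 : 0 < ∫ ω, Real.exp (γ * Real.log (Zr a b n (en β h ω))) ∂seqLaw μ :=
    integral_exp_pos hint
  have h4 := Real.log_le_log h3 h2
  rw [Real.log_mul (by positivity) (by positivity)] at h4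
  have h5 : 0 ≤ Real.log n := Real.log_nonneg hn1
  have h6 : 0 ≤ Real.log C2 := Real.log_nonneg hC21
  nlinarith

end

end Pool.Agent.OT
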