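import Mathlib
import Pool.Agent.Lib.MP_daa227_pr_OT.Defs
import Pool.Agent.Lib.MP_daa227_pr_OT.Dec
import Pool.Agent.Lib.MP_daa227_pr_OT.Strict

/-!
# Decomposition of the renewal partition function according to the first marked excursion
-/

namespace Pool.Agent.OT

open MeasureTheory ProbabilityTheory Finset Filter Topology
open MP_daa227_pr (Chain Zk Zf K0 shift seqLaw ExpMom)

noncomputable section

namespace W1

/-- resolvent identity for renewal kernels: `P` for the kernel `G + H`, `Q` for the kernel `G` -/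
theorem res_abs {P Q G H : ℕ → ℕ → ℝ} (h0 : ∀ x, P x x = 1) (q0 : ∀ x, Q x x = 1)
    (h1 : ∀ x y, x < y → P x y = ∑ z ∈ Ioc x y, (G x z + H x z) * P z y)
    (q1 : ∀ x y, x < y → Q x y = ∑ z ∈ Ioc x y, G x z * Q z y) (y : ℕ) :
    ∀ d x, y = x + d → P x y = Q x y +
      ∑ u ∈ Ico x y, ∑ v ∈ Ioc u y, Q x u * H u v * P v y := by
  intro d
  induction d using Nat.strong_induction_on with
  | _ d ih =>
    intro x hd
    rcases Nat.eq_zero_or_pos d with rfl | hpos
    · have : x = y := by omega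
      subst this
      rw [h0, q0, Ico_self, sum_empty, add_zero]
    · have hxy : x < y := by omega
      rw [h1 x y hxy]
      have e0 : ∑ z ∈ Ioc x y, (G x z + H x z) * P z y =
          ∑ z ∈ Ioc x y, G x z * P z y + ∑ z ∈ Ioc x y, H x z * P z y := by
        rw [← sum_add_distrib]
        exact sum_congr rfl fun z _ => by ring
      have e1 : ∀ z ∈ Ioc x y, G x z * P z y = G x z * Q z y +
          ∑ u ∈ Ico z y, ∑ v ∈ Ioc u y, G x z * (Q z u * H u v * P v y) := by
        intro z hz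
        rw [mem_Ioc] at hz
        rw [ih (y - z) (by omega) z (by omega), mul_add, mul_sum]
        congr 1
        exact sum_congr rfl fun u _ => by rw [mul_sum]
      rw [e0, sum_congr rfl e1, sum_add_distrib, ← q1 x y hxy]
      have hJ : Ico x y = insert x (Ioo x y) := by
        ext z; simp only [mem_Ico, mem_insert, mem_Ioo]; omega
      rw [hJ, sum_insert (by simp), q0]
      have e2 : ∑ z ∈ Ioc x y, ∑ u ∈ Ico z y, ∑ v ∈ Ioc u y, G x z * (Q z u * H u v * P v y) =
          ∑ u ∈ Ioo x y, ∑ v ∈ Ioc u y, Q x u * H u v * P v y := by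
        rw [sum_comm' (t' := Ioo x y) (s' := fun u => Ioc x u)
          (by intro z w; simp only [mem_Ioo, mem_Ico, mem_Ioc]; omega)]
        refine sum_congr rfl fun u hu => ?_
        rw [mem_Ioo] at hu
        rw [sum_comm]
        refine sum_congr rfl fun v _ => ?_
        rw [q1 x u hu.1, sum_mul, sum_mul]
        exact sum_congr rfl fun z _ => by ring
      rw [e2]
      simp only [one_mul]
      ring

theorem gW_add (a₁ b₁ a₂ b₂ : ℕ → ℝ) (k : ℕ) (θ : ℕ → ℝ) :
    gW (fun k => a₁ k + a₂ k) (fun k => b₁ k + b₂ k) k θ = gW a₁ b₁ k θ + gW a₂ b₂ k θ := by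
  unfold gW
  ring

end W1

theorem Zr_decomp (a₁ b₁ a₂ b₂ : ℕ → ℝ) (n : ℕ) (θ : ℕ → ℝ) :
    Zr (fun k => a₁ k + a₂ k) (fun k => b₁ k + b₂ k) n θ = Zr a₁ b₁ n θ +
      ∑ i ∈ range n, ∑ j ∈ Ioc i n, Zr a₁ b₁ i θ * gW a₂ b₂ (j - i) (shift (2 * i) θ) *
        Zr (fun k => a₁ k + a₂ k) (fun k => b₁ k + b₂ k) (n - j) (shift (2 * j) θ) := by
  have h := W1.res_abs
    (P := fun x y => Zr (fun k => a₁ k + a₂ k) (fun k => b₁ k + b₂ k) (y - x) (shift (2 * x) θ))
    (Q := fun x y => Zr a₁ b₁ (y - x) (shift (2 * x) θ))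
    (G := fun x y => gW a₁ b₁ (y - x) (shift (2 * x) θ))
    (H := fun x y => gW a₂ b₂ (y - x) (shift (2 * x) θ))
    (fun x => by simp only [Nat.sub_self]; exact D.Zr_zero _ _ _)
    (fun x => by simp only [Nat.sub_self]; exact D.Zr_zero _ _ _)
    (fun x y hxy => by
      have h1 := D.Zr_rec (fun k => a₁ k + a₂ k) (fun k => b₁ k + b₂ k) θ x y hxy
      rw [h1]
      exact sum_congr rfl fun z _ => by rw [W1.gW_add])
    (fun x y hxy => D.Zr_rec a₁ b₁ θ x y hxy) n n 0 (by omega)
  simpa only [Nat.sub_zero, Nat.mul_zero, MP_daa227_pr.shift_zero, Nat.Ico_zero_eq_range] using h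

end

end Pool.Agent.OT
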