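import Mathlib
import Pool.Agent.Lib.MP_daa227_pr_OT.Defs
import Pool.Agent.Lib.MP_daa227_pr_OT.Strict

/-!
# Defective renewal sequences
-/

namespace Pool.Agent.OT

open MeasureTheory ProbabilityTheory Finset Filter Topology
open MP_daa227_pr (Chain Zk Zf K0 shift seqLaw ExpMom)

noncomputable section

namespace W4

theorem gW_nonneg {a b : ℕ → ℝ} (h1 : ∀ k, 0 ≤ a k) (h2 : ∀ k, 0 ≤ b k) (k : ℕ) (θ : ℕ → ℝ) :
    0 ≤ gW a b k θ := by
  unfold gW
  exact add_nonneg (mul_nonneg (h1 k) (Real.exp_pos _).le) (mul_nonneg (h2 k) (Real.exp_pos _).le)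

theorem gW_zero (a b : ℕ → ℝ) (k : ℕ) : gW a b k (fun _ => 0) = a k + b k := by
  unfold gW
  simp

theorem shift_zero_seq (m : ℕ) : shift m (fun _ => (0 : ℝ)) = fun _ => 0 := by
  funext i
  simp only [MP_daa227_pr.shift_apply]

theorem Zr_zero_succ (a b : ℕ → ℝ) (n : ℕ) : Zr a b (n + 1) (fun _ => 0) =
    ∑ k ∈ range (n + 1), (a (k + 1) + b (k + 1)) * Zr a b (n - k) (fun _ => 0) := by
  rw [D.Zr_succ]
  refine Finset.sum_congr rfl fun k _ => ?_
  rw [gW_zero, shift_zero_seq]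

/-- exchange of the sums in a convolution -/
theorem sum_conv (c v : ℕ → ℝ) (n : ℕ) :
    ∑ i ∈ range n, ∑ k ∈ range (i + 1), c k * v (i - k) =
      ∑ k ∈ range n, c k * ∑ j ∈ range (n - k), v j := by
  rw [Finset.sum_comm' (t' := range n) (s' := fun k => Ico k n)
    (by intro i k; simp only [mem_range, mem_Ico]; omega)]
  refine Finset.sum_congr rfl fun k _ => ?_
  rw [Finset.sum_Ico_eq_sum_range, Finset.mul_sum]
  refine Finset.sum_congr rfl fun j _ => ?_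
  rw [Nat.add_sub_cancel_left]

end W4

theorem defect_nonneg {a₁ b₁ : ℕ → ℝ} (h1 : ∀ k, 0 ≤ a₁ k) (h2 : ∀ k, 0 ≤ b₁ k) (n : ℕ)
    (θ : ℕ → ℝ) : 0 ≤ Zr a₁ b₁ n θ := by
  induction n using Nat.strong_induction_on generalizing θ with
  | _ n ih =>
    cases n with
    | zero => rw [D.Zr_zero]; exact zero_le_one
    | succ n =>
      rw [D.Zr_succ]
      exact Finset.sum_nonneg fun k _ => mul_nonneg (W4.gW_nonneg h1 h2 _ _) (ih _ (by omega) _)

theorem defect_sum {a₁ b₁ : ℕ → ℝ} (h1 : ∀ k, 0 ≤ a₁ k) (h2 : ∀ k, 0 ≤ b₁ k) {p : ℝ}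
    (hp0 : 0 < p) (hs : ∀ n, ∑ k ∈ range n, (a₁ (k + 1) + b₁ (k + 1)) ≤ 1 - p) (n : ℕ) :
    ∑ i ∈ range n, Zr a₁ b₁ i (fun _ => 0) ≤ 1 / p := by
  induction n using Nat.strong_induction_on with
  | _ n ih =>
    cases n with
    | zero =>
      rw [Finset.range_zero, Finset.sum_empty]
      positivity
    | succ n =>
      rw [Finset.sum_range_succ', D.Zr_zero]
      have e1 : ∑ i ∈ range n, Zr a₁ b₁ (i + 1) (fun _ => 0) =
          ∑ k ∈ range n, (a₁ (k + 1) + b₁ (k + 1)) *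
            ∑ j ∈ range (n - k), Zr a₁ b₁ j (fun _ => 0) := by
        rw [← W4.sum_conv (fun k => a₁ (k + 1) + b₁ (k + 1)) (fun j => Zr a₁ b₁ j (fun _ => 0)) n]
        exact Finset.sum_congr rfl fun i _ => W4.Zr_zero_succ a₁ b₁ i
      have e2 : ∑ k ∈ range n, (a₁ (k + 1) + b₁ (k + 1)) *
            ∑ j ∈ range (n - k), Zr a₁ b₁ j (fun _ => 0) ≤
          ∑ k ∈ range n, (a₁ (k + 1) + b₁ (k + 1)) * (1 / p) :=
        Finset.sum_le_sum fun k _ => mul_le_mul_of_nonneg_left (ih (n - k) (by omega))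
          (add_nonneg (h1 _) (h2 _))
      rw [← Finset.sum_mul] at e2
      have e3 : (∑ k ∈ range n, (a₁ (k + 1) + b₁ (k + 1))) * (1 / p) ≤ (1 - p) * (1 / p) :=
        mul_le_mul_of_nonneg_right (hs n) (by positivity)
      have e4 : (1 - p) * (1 / p) + 1 = 1 / p := by
        field_simp
        ring
      rw [e1]
      linarith

theorem defect_decay {a₁ b₁ : ℕ → ℝ} (h1 : ∀ k, 0 ≤ a₁ k) (h2 : ∀ k, 0 ≤ b₁ k) {p : ℝ}
    (hp0 : 0 < p) (hp1 : p < 1) (hs : ∀ n, ∑ k ∈ range n, (a₁ (k + 1) + b₁ (k + 1)) ≤ 1 - p)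
    {G : ℕ} (hG : 1 ≤ G) (hsupp : ∀ k, G ≤ k → a₁ k = 0 ∧ b₁ k = 0) (n : ℕ) :
    Zr a₁ b₁ n (fun _ => 0) ≤ (1 - p) ^ ((n : ℝ) / G) := by
  have hG0 : (0 : ℝ) < G := by exact_mod_cast hG
  have hq0 : 0 < 1 - p := by linarith
  have hq1 : 1 - p ≤ 1 := by linarith
  induction n using Nat.strong_induction_on with
  | _ n ih =>
    cases n with
    | zero =>
      rw [D.Zr_zero, Nat.cast_zero, zero_div, Real.rpow_zero]
    | succ n =>
      rw [W4.Zr_zero_succ]
      have e1 : ∑ k ∈ range (n + 1), (a₁ (k + 1) + b₁ (k + 1)) * Zr a₁ b₁ (n - k) (fun _ => 0) ≤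
          ∑ k ∈ range (n + 1), (a₁ (k + 1) + b₁ (k + 1)) *
            (1 - p) ^ (((n + 1 : ℕ) : ℝ) / G - 1) := by
        refine Finset.sum_le_sum fun k hk => ?_
        rw [Finset.mem_range] at hk
        by_cases hkG : G ≤ k + 1
        · obtain ⟨h3, h4⟩ := hsupp _ hkG
          rw [h3, h4, add_zero, zero_mul, zero_mul]
        · refine mul_le_mul_of_nonneg_left ((ih (n - k) (by omega)).trans ?_)
            (add_nonneg (h1 _) (h2 _))
          refine Real.rpow_le_rpow_of_exponent_ge hq0 hq1 ?_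
          have h5 : ((n - k : ℕ) : ℝ) = n - k := Nat.cast_sub (by omega)
          have h6 : ((k + 1 : ℕ) : ℝ) ≤ G := by exact_mod_cast (by omega : k + 1 ≤ G)
          rw [h5, div_sub_one hG0.ne', div_le_div_iff_of_pos_right hG0]
          push_cast at h6 ⊢
          linarith
      refine e1.trans ?_
      rw [← Finset.sum_mul]
      refine (mul_le_mul_of_nonneg_right (hs (n + 1)) (Real.rpow_nonneg hq0.le _)).trans ?_
      rw [Real.rpow_sub_one hq0.ne', mul_div_cancel₀ _ hq0.ne']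

end

end Pool.Agent.OT
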