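import Mathlib
import Pool.Agent.Lib.MP_daa227_pr_OT.Defs
import Pool.Agent.Lib.MP_daa227_pr_OT.Strict
import Pool.Agent.Lib.MP_daa227_pr_OT.Defect
import Pool.Agent.Lib.MP_daa227_pr_OT.BigDec

/-!
# Fractional moments with big excursions
-/

namespace Pool.Agent.OT

open MeasureTheory ProbabilityTheory Finset Filter Topology
open MP_daa227_pr (Chain Zk Zf K0 shift seqLaw ExpMom)

noncomputable section

namespace W2

/-- the triple product of the decomposition at the first big excursion -/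
theorem mom_term {a₁ b₁ a₂ b₂ a b : ℕ → ℝ} (h1 : ∀ k, 0 ≤ a₁ k) (h2 : ∀ k, 0 ≤ b₁ k)
    (h3 : ∀ k, 0 ≤ a₂ k) (h4 : ∀ k, 0 ≤ b₂ k) (μ : Measure ℝ) [IsProbabilityMeasure μ]
    (β h : ℝ) {γ : ℝ} (hγ0 : 0 < γ) {i j : ℕ} (hij : i < j) (m : ℕ) :
    MP_daa227_pr.mom μ γ (fun ω => Zr a₁ b₁ i (en β h ω) *
        gW a₂ b₂ (j - i) (shift (2 * i) (en β h ω)) * Zr a b m (shift (2 * j) (en β h ω))) =
      MP_daa227_pr.mom μ γ (fun ω => Zr a₁ b₁ i (en β h ω)) *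
        MP_daa227_pr.mom μ γ (fun ω => gW a₂ b₂ (j - i) (en β h ω)) *
        MP_daa227_pr.mom μ γ (fun ω => Zr a b m (en β h ω)) := by
  simp only [X1.shift_en]
  rw [MP_daa227_pr.mom_mul_shift (k := 2 * j) (F := fun ω => Zr a₁ b₁ i (en β h ω) *
      gW a₂ b₂ (j - i) (en β h (shift (2 * i) ω))) (G := fun ω => Zr a b m (en β h ω)) hγ0.le
    ((X1.meas_Zr a₁ b₁ β h i).mul ((X1.meas_gW a₂ b₂ _ β h).comp
      (MP_daa227_pr.measurable_shift _))) (X1.meas_Zr a b β h m) ?_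
    (fun ω => mul_nonneg (defect_nonneg h1 h2 _ _) (W4.gW_nonneg h3 h4 _ _)),
    MP_daa227_pr.mom_mul_shift (k := 2 * i) (F := fun ω => Zr a₁ b₁ i (en β h ω))
      (G := fun ω => gW a₂ b₂ (j - i) (en β h ω)) hγ0.le (X1.meas_Zr a₁ b₁ β h i)
      (X1.meas_gW a₂ b₂ _ β h) ?_ (fun ω => defect_nonneg h1 h2 _ _)]
  · intro ω ω' hω
    refine Zr_congr a₁ b₁ i ?_
    intro l hl
    simp only [en, hω l hl]
  · intro ω ω' hω
    have e1 : Zr a₁ b₁ i (en β h ω) = Zr a₁ b₁ i (en β h ω') := by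
      refine Zr_congr a₁ b₁ i ?_
      intro l hl
      simp only [en, hω l (by omega)]
    have e2 : gW a₂ b₂ (j - i) (en β h (shift (2 * i) ω)) =
        gW a₂ b₂ (j - i) (en β h (shift (2 * i) ω')) := by
      refine D.gW_congr a₂ b₂ (by omega) ?_
      intro l hl
      simp only [en, MP_daa227_pr.shift_apply]
      rw [hω _ (by omega)]
    dsimp only
    rw [e1, e2]

/-- the sum over the big excursions -/
theorem sum_bound {s B : ℕ → ℝ} {S₁ S₂ C : ℝ} (hs0 : ∀ n, 0 ≤ s n) (hS2n : 0 ≤ S₂)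
    (hC : 0 ≤ C) (hS1 : ∀ n, ∑ i ∈ range n, s i ≤ S₁)
    (hS2 : ∀ n, ∑ k ∈ range n, B (k + 1) ≤ S₂) (n : ℕ) :
    ∑ i ∈ range n, ∑ j ∈ Ioc i n, s i * B (j - i) * C ≤ S₁ * S₂ * C := by
  have e1 : ∀ i ∈ range n, ∑ j ∈ Ioc i n, s i * B (j - i) * C ≤ s i * (S₂ * C) := by
    intro i hi
    rw [mem_range] at hi
    have e2 : ∑ j ∈ Ioc i n, s i * B (j - i) * C =
        s i * ((∑ k ∈ range (n - i), B (k + 1)) * C) := by
      have e3 : Ioc i n = Ico (i + 1) (n + 1) := by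
        ext j
        simp only [mem_Ioc, mem_Ico]
        omega
      rw [e3, Finset.sum_Ico_eq_sum_range, Finset.sum_mul, Finset.mul_sum]
      have e4 : n + 1 - (i + 1) = n - i := by omega
      rw [e4]
      refine Finset.sum_congr rfl fun k _ => ?_
      have e5 : i + 1 + k - i = k + 1 := by omega
      rw [e5, mul_assoc]
    rw [e2]
    exact mul_le_mul_of_nonneg_left (mul_le_mul_of_nonneg_right (hS2 _) hC) (hs0 i)
  refine (Finset.sum_le_sum e1).trans ?_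
  rw [← Finset.sum_mul, mul_assoc]
  exact mul_le_mul_of_nonneg_right (hS1 n) (mul_nonneg hS2n hC)

end W2

theorem frac_bound {a₁ b₁ a₂ b₂ : ℕ → ℝ} (h1 : ∀ k, 0 ≤ a₁ k) (h2 : ∀ k, 0 ≤ b₁ k)
    (h3 : ∀ k, 0 ≤ a₂ k) (h4 : ∀ k, 0 ≤ b₂ k) (μ : Measure ℝ) [IsProbabilityMeasure μ]
    (hμ : ExpMom μ) (β h : ℝ) {γ : ℝ} (hγ0 : 0 < γ) (hγ1 : γ ≤ 1) (V : ℕ → ℝ)
    (hV0 : ∀ n, 0 ≤ V n)
    (hV : ∀ n, MP_daa227_pr.mom μ 1 (fun ω => Zr a₁ b₁ n (en β h ω)) ≤ ENNReal.ofReal (V n))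
    {S₁ S₂ : ℝ} (hS1 : ∀ n, ∑ i ∈ range n, V i ^ γ ≤ S₁)
    (hS2 : ∀ n, ∑ k ∈ range n, (a₂ (k + 1) ^ γ * X1.qq μ β h γ +
      b₂ (k + 1) ^ γ * X1.qq μ β h γ ^ (2 * (k + 1))) ≤ S₂) (hS : S₁ * S₂ < 1) (n : ℕ) :
    MP_daa227_pr.mom μ γ
        (fun ω => Zr (fun k => a₁ k + a₂ k) (fun k => b₁ k + b₂ k) n (en β h ω)) ≤
      ENNReal.ofReal (S₁ / (1 - S₁ * S₂)) := by
  have hq : 0 ≤ X1.qq μ β h γ := integral_nonneg fun _ => (Real.exp_pos _).le
  have hS1n : 0 ≤ S₁ := by simpa using hS1 0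
  have hS2n : 0 ≤ S₂ := by simpa using hS2 0
  have hD : 0 < 1 - S₁ * S₂ := by linarith
  set C : ℝ := S₁ / (1 - S₁ * S₂) with hC
  have hC0 : 0 ≤ C := div_nonneg hS1n hD.le
  have hCeq : S₁ + S₁ * S₂ * C = C := by
    rw [hC]
    field_simp
    ring
  set s : ℕ → ℝ := fun i => V i ^ γ with hs
  have hs0 : ∀ i, 0 ≤ s i := fun i => Real.rpow_nonneg (hV0 i) _
  set B : ℕ → ℝ := fun k => a₂ k ^ γ * X1.qq μ β h γ + b₂ k ^ γ * X1.qq μ β h γ ^ (2 * k) with hB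
  have hB0 : ∀ k, 0 ≤ B k := fun k =>
    add_nonneg (mul_nonneg (Real.rpow_nonneg (h3 k) _) hq)
      (mul_nonneg (Real.rpow_nonneg (h4 k) _) (pow_nonneg hq _))
  -- the pieces without big excursions
  have hsmall : ∀ i, MP_daa227_pr.mom μ γ (fun ω => Zr a₁ b₁ i (en β h ω)) ≤
      ENNReal.ofReal (s i) := by
    intro i
    refine (MP_daa227_pr.mom_le_rpow hγ0 hγ1 (X1.meas_Zr a₁ b₁ β h i)
      (fun ω => defect_nonneg h1 h2 _ _)).trans ?_
    rw [hs]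
    dsimp only
    rw [← ENNReal.ofReal_rpow_of_nonneg (hV0 i) hγ0.le]
    exact ENNReal.rpow_le_rpow (hV i) hγ0.le
  have hbig : ∀ k, MP_daa227_pr.mom μ γ (fun ω => gW a₂ b₂ k (en β h ω)) ≤
      ENNReal.ofReal (B k) := fun k => X1.mom_gW hμ β h hγ0 hγ1 (h3 k) (h4 k)
  have hA0 : ∀ k, 0 ≤ a₁ k + a₂ k := fun k => add_nonneg (h1 k) (h3 k)
  have hB0' : ∀ k, 0 ≤ b₁ k + b₂ k := fun k => add_nonneg (h2 k) (h4 k)
  induction n using Nat.strong_induction_on with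
  | _ n ih =>
    have hmeasT : ∀ i j : ℕ, Measurable fun ω : ℕ → ℝ => Zr a₁ b₁ i (en β h ω) *
        gW a₂ b₂ (j - i) (shift (2 * i) (en β h ω)) *
        Zr (fun k => a₁ k + a₂ k) (fun k => b₁ k + b₂ k) (n - j)
          (shift (2 * j) (en β h ω)) := by
      intro i j
      simp only [X1.shift_en]
      exact ((X1.meas_Zr a₁ b₁ β h i).mul ((X1.meas_gW a₂ b₂ _ β h).comp
        (MP_daa227_pr.measurable_shift _))).mul ((X1.meas_Zr _ _ β h _).comp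
        (MP_daa227_pr.measurable_shift _))
    have hnnT : ∀ (i j : ℕ) (ω : ℕ → ℝ), 0 ≤ Zr a₁ b₁ i (en β h ω) *
        gW a₂ b₂ (j - i) (shift (2 * i) (en β h ω)) *
        Zr (fun k => a₁ k + a₂ k) (fun k => b₁ k + b₂ k) (n - j)
          (shift (2 * j) (en β h ω)) := fun i j ω =>
      mul_nonneg (mul_nonneg (defect_nonneg h1 h2 _ _) (W4.gW_nonneg h3 h4 _ _))
        (defect_nonneg hA0 hB0' _ _)
    rw [MP_daa227_pr.mom_congr fun ω => Zr_decomp a₁ b₁ a₂ b₂ n (en β h ω)]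
    refine (MP_daa227_pr.mom_add_le hγ0.le hγ1 (X1.meas_Zr a₁ b₁ β h n)
      (fun ω => defect_nonneg h1 h2 _ _) (fun ω => Finset.sum_nonneg fun i _ =>
        Finset.sum_nonneg fun j _ => hnnT i j ω)).trans ?_
    have e1 : MP_daa227_pr.mom μ γ (fun ω => ∑ i ∈ range n, ∑ j ∈ Ioc i n,
        Zr a₁ b₁ i (en β h ω) * gW a₂ b₂ (j - i) (shift (2 * i) (en β h ω)) *
        Zr (fun k => a₁ k + a₂ k) (fun k => b₁ k + b₂ k) (n - j) (shift (2 * j) (en β h ω))) ≤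
        ∑ i ∈ range n, ∑ j ∈ Ioc i n, ENNReal.ofReal (s i * B (j - i) * C) := by
      refine (MP_daa227_pr.mom_sum_le hγ0 hγ1 _ (fun i _ => Finset.measurable_sum _ fun j _ =>
        hmeasT i j) (fun i _ ω => Finset.sum_nonneg fun j _ => hnnT i j ω)).trans ?_
      refine Finset.sum_le_sum fun i _ => ?_
      refine (MP_daa227_pr.mom_sum_le hγ0 hγ1 _ (fun j _ => hmeasT i j)
        (fun j _ ω => hnnT i j ω)).trans ?_
      refine Finset.sum_le_sum fun j hj => ?_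
      rw [mem_Ioc] at hj
      rw [W2.mom_term h1 h2 h3 h4 μ β h hγ0 hj.1,
        ENNReal.ofReal_mul (mul_nonneg (hs0 _) (hB0 _)), ENNReal.ofReal_mul (hs0 _)]
      exact mul_le_mul' (mul_le_mul' (hsmall i) (hbig _)) (ih (n - j) (by omega))
    have e2 : ∑ i ∈ range n, ∑ j ∈ Ioc i n, ENNReal.ofReal (s i * B (j - i) * C) =
        ENNReal.ofReal (∑ i ∈ range n, ∑ j ∈ Ioc i n, s i * B (j - i) * C) := by
      have hnn : ∀ i j, 0 ≤ s i * B (j - i) * C := fun i j =>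
        mul_nonneg (mul_nonneg (hs0 _) (hB0 _)) hC0
      rw [ENNReal.ofReal_sum_of_nonneg fun i _ => Finset.sum_nonneg fun j _ => hnn i j]
      exact Finset.sum_congr rfl fun i _ =>
        (ENNReal.ofReal_sum_of_nonneg fun j _ => hnn i j).symm
    have e3 := W2.sum_bound (B := B) hs0 hS2n hC0 hS1 hS2 n
    have e4 : s n ≤ S₁ := (Finset.single_le_sum (f := s) (fun i _ => hs0 i)
      (Finset.self_mem_range_succ n)).trans (hS1 (n + 1))
    refine (add_le_add (hsmall n) (e1.trans e2.le)).trans ?_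
    rw [← ENNReal.ofReal_add (hs0 n) (Finset.sum_nonneg fun i _ => Finset.sum_nonneg fun j _ =>
      mul_nonneg (mul_nonneg (hs0 _) (hB0 _)) hC0)]
    refine ENNReal.ofReal_le_ofReal ?_
    linarith

end

end Pool.Agent.OT
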