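import Mathlib
import Pool.Agent.Lib.MP_daa227_pr_OT.Defs
import Pool.Agent.Lib.MP_daa227_pr_OT.Dec
import Pool.Agent.Lib.MP_daa227_pr_OT.Sup

/-!
# Copolymer: insertion of a block, pathwise estimates
-/

namespace Pool.Agent.OT

open MeasureTheory ProbabilityTheory Finset Filter Topology
open MP_daa227_pr (Chain Zk Zf K0 shift seqLaw ExpMom)

noncomputable section

namespace I1

lemma a_le_one {a b : ℕ → ℝ} (hK : KerOK a b) (k : ℕ) : a k ≤ 1 := by
  have h1 := SupAux.sum_le_one hK (k + 1)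
  rcases Nat.eq_zero_or_pos k with h | h
  · rw [h, hK.a_zero]; exact zero_le_one
  obtain ⟨m, rfl⟩ : ∃ m, k = m + 1 := ⟨k - 1, by omega⟩
  have h2 : a (m + 1) + b (m + 1) ≤ ∑ k ∈ range (m + 1 + 1), (a (k + 1) + b (k + 1)) :=
    single_le_sum (f := fun k => a (k + 1) + b (k + 1))
      (fun i _ => add_nonneg (SupAux.a_nonneg hK _) (SupAux.b_nonneg hK _))
      (mem_range.2 (by omega))
  have h3 := SupAux.b_nonneg hK (m + 1)
  linarith

lemma b_le_one {a b : ℕ → ℝ} (hK : KerOK a b) (k : ℕ) : b k ≤ 1 := by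
  have h1 := SupAux.sum_le_one hK (k + 1)
  rcases Nat.eq_zero_or_pos k with h | h
  · rw [h, hK.b_zero]; exact zero_le_one
  obtain ⟨m, rfl⟩ : ∃ m, k = m + 1 := ⟨k - 1, by omega⟩
  have h2 : a (m + 1) + b (m + 1) ≤ ∑ k ∈ range (m + 1 + 1), (a (k + 1) + b (k + 1)) :=
    single_le_sum (f := fun k => a (k + 1) + b (k + 1))
      (fun i _ => add_nonneg (SupAux.a_nonneg hK _) (SupAux.b_nonneg hK _))
      (mem_range.2 (by omega))
  have h3 := SupAux.a_nonneg hK (m + 1)
  linarith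

/-- the part of the crossing excursions of type `c` -/
lemma Zr_nonneg {a b : ℕ → ℝ} (hK : KerOK a b) (n : ℕ) (θ : ℕ → ℝ) : 0 ≤ Zr a b n θ :=
  (Zr_pos hK n θ).le

/-- sums of positive excursions from a point -/
lemma sum_a_le {a b : ℕ → ℝ} (hK : KerOK a b) (θ : ℕ → ℝ) {j n : ℕ} (hj : j < n) :
    ∑ y ∈ Ioc j n, (a (y - j) * Real.exp (θ (2 * y - 1))) * Zr a b (n - y) (shift (2 * y) θ) ≤
      Zr a b (n - j) (shift (2 * j) θ) := by
  rw [D.Zr_rec a b θ j n hj]
  refine sum_le_sum fun y hy => ?_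
  rw [mem_Ioc] at hy
  rw [D.gW_shift a b θ j y hy.1]
  apply mul_le_mul_of_nonneg_right _ (Zr_nonneg hK _ _)
  have := mul_nonneg (SupAux.b_nonneg hK (y - j))
    (Real.exp_pos (∑ i ∈ Ico (2 * j) (2 * y), θ i)).le
  linarith

/-- sums of negative excursions from a point -/
lemma sum_b_le {a b : ℕ → ℝ} (hK : KerOK a b) (θ : ℕ → ℝ) {j n : ℕ} (hj : j < n) :
    ∑ y ∈ Ioc j n, (b (y - j) * Real.exp (∑ i ∈ Ico (2 * j) (2 * y), θ i)) *
      Zr a b (n - y) (shift (2 * y) θ) ≤
      Zr a b (n - j) (shift (2 * j) θ) := by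
  rw [D.Zr_rec a b θ j n hj]
  refine sum_le_sum fun y hy => ?_
  rw [mem_Ioc] at hy
  rw [D.gW_shift a b θ j y hy.1]
  apply mul_le_mul_of_nonneg_right _ (Zr_nonneg hK _ _)
  have := mul_nonneg (SupAux.a_nonneg hK (y - j))
    (Real.exp_pos (θ (2 * y - 1))).le
  linarith

lemma sum_Ioc_shift {n j : ℕ} (f : ℕ → ℝ) :
    ∑ y ∈ Ioc (j + 1) (n + 1), f y = ∑ y ∈ Ioc j n, f (y + 1) := by
  rw [← Finset.sum_image (f := f) (g := fun y => y + 1) (s := Ioc j n)
    (fun x _ y _ h => Nat.succ_injective h)]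
  congr 1
  ext z
  simp only [mem_Ioc, mem_image]
  constructor
  · intro h
    exact ⟨z - 1, by omega, by omega⟩
  · rintro ⟨y, hy, rfl⟩
    omega

/-- one inserted pair -/
structure Pair (θ θ' : ℕ → ℝ) (j : ℕ) : Prop where
  low : ∀ i < 2 * j, θ' i = θ i
  high : ∀ i, 2 * j ≤ i → θ' (i + 2) = θ i

section Step

variable {a b : ℕ → ℝ} (hK : KerOK a b) {n j : ℕ} (hj1 : 1 ≤ j) (hj : j < n) {θ θ' : ℕ → ℝ}
  (hp : Pair θ θ' j)
include hK hj hp

omit hK hj in
lemma tail_eq {y : ℕ} (hy : j ≤ y) (m : ℕ) :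
    Zr a b m (shift (2 * (y + 1)) θ') = Zr a b m (shift (2 * y) θ) := by
  apply Zr_congr
  intro i _
  show θ' (i + 2 * (y + 1)) = θ (i + 2 * y)
  rw [show i + 2 * (y + 1) = i + 2 * y + 2 by ring]
  exact hp.high _ (by omega)

omit hK hj in
lemma head_eq {x : ℕ} (hx : x ≤ j) : Zr a b x θ' = Zr a b x θ := by
  apply Zr_congr
  intro i hi
  exact hp.low i (by omega)

omit hK hj in
lemma sum_eq {x y : ℕ} (hx : x ≤ j) (hy : j ≤ y) :
    ∑ i ∈ Ico (2 * x) (2 * (y + 1)), θ' i =
      ∑ i ∈ Ico (2 * x) (2 * y), θ i + (θ' (2 * j) + θ' (2 * j + 1)) := by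
  rw [← sum_Ico_consecutive (fun i => θ' i) (show 2 * x ≤ 2 * j by omega)
    (show 2 * j ≤ 2 * (y + 1) by omega),
    ← sum_Ico_consecutive (fun i => θ i) (show 2 * x ≤ 2 * j by omega)
    (show 2 * j ≤ 2 * y by omega),
    ← sum_Ico_consecutive (fun i => θ' i) (show 2 * j ≤ 2 * j + 2 by omega)
    (show 2 * j + 2 ≤ 2 * (y + 1) by omega)]
  have h1 : ∑ i ∈ Ico (2 * x) (2 * j), θ' i = ∑ i ∈ Ico (2 * x) (2 * j), θ i :=
    sum_congr rfl fun i hi => hp.low i (mem_Ico.1 hi).2
  have h2 : ∑ i ∈ Ico (2 * j) (2 * j + 2), θ' i = θ' (2 * j) + θ' (2 * j + 1) := by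
    rw [sum_Ico_eq_sum_range, Nat.add_sub_cancel_left, sum_range_succ, sum_range_one, add_zero]
  have h3 : ∑ i ∈ Ico (2 * j + 2) (2 * (y + 1)), θ' i = ∑ i ∈ Ico (2 * j) (2 * y), θ i := by
    rw [sum_Ico_eq_sum_range, sum_Ico_eq_sum_range,
      show 2 * (y + 1) - (2 * j + 2) = 2 * y - 2 * j by omega]
    refine sum_congr rfl fun i _ => ?_
    rw [show 2 * j + 2 + i = 2 * j + i + 2 by ring]
    exact hp.high _ (by omega)
  rw [h1, h2, h3]
  ring

include hj1

lemma pos_step : Zpos a b (n + 1) (j + 1) θ' ≤ Zpos a b n j θ + Zneg a b n j θ := by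
  have e1 : Zpos a b (n + 1) (j + 1) θ' = ∑ x ∈ range (j + 1), ∑ y ∈ Ioc j n, Zr a b x θ *
      (a (y + 1 - x) * Real.exp (θ (2 * y - 1))) * Zr a b (n - y) (shift (2 * y) θ) := by
    unfold Zpos
    refine sum_congr rfl fun x hx => ?_
    rw [sum_Ioc_shift]
    refine sum_congr rfl fun y hy => ?_
    rw [mem_range] at hx
    rw [mem_Ioc] at hy
    rw [head_eq hp (by omega), tail_eq hp (by omega)]
    have e : θ' (2 * (y + 1) - 1) = θ (2 * y - 1) := by
      rw [show 2 * (y + 1) - 1 = 2 * y - 1 + 2 by omega]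
      exact hp.high _ (by omega)
    rw [e, show n + 1 - (y + 1) = n - y by omega]
  rw [e1, sum_range_succ]
  apply add_le_add
  · unfold Zpos
    refine sum_le_sum fun x hx => sum_le_sum fun y hy => ?_
    rw [mem_range] at hx
    rw [mem_Ioc] at hy
    apply mul_le_mul_of_nonneg_right _ (Zr_nonneg hK _ _)
    apply mul_le_mul_of_nonneg_left _ (Zr_nonneg hK _ _)
    apply mul_le_mul_of_nonneg_right _ (Real.exp_pos _).le
    rw [show y + 1 - x = (y - x) + 1 by omega]
    exact hK.a_anti _ (by omega)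
  · have h1 : ∑ y ∈ Ioc j n, Zr a b j θ *
        (a (y + 1 - j) * Real.exp (θ (2 * y - 1))) * Zr a b (n - y) (shift (2 * y) θ) ≤
        Zr a b j θ * Zr a b (n - j) (shift (2 * j) θ) := by
      refine le_trans ?_ (mul_le_mul_of_nonneg_left (sum_a_le hK θ hj) (Zr_nonneg hK j θ))
      rw [mul_sum]
      refine sum_le_sum fun y hy => ?_
      rw [mem_Ioc] at hy
      rw [mul_assoc]
      apply mul_le_mul_of_nonneg_left _ (Zr_nonneg hK _ _)
      apply mul_le_mul_of_nonneg_right _ (Zr_nonneg hK _ _)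
      apply mul_le_mul_of_nonneg_right _ (Real.exp_pos _).le
      rw [show y + 1 - j = (y - j) + 1 by omega]
      exact hK.a_anti _ (by omega)
    refine h1.trans ?_
    unfold Zneg
    refine le_add_of_nonneg_right (sum_nonneg fun x hx => sum_nonneg fun y hy => ?_)
    exact mul_nonneg (mul_nonneg (Zr_nonneg hK _ _) (mul_nonneg (SupAux.b_nonneg hK _)
      (Real.exp_pos _).le)) (Zr_nonneg hK _ _)

/-- the zero after the inserted pair -/
lemma zero_step : Zr a b (j + 1) θ' ≤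
    (Real.exp (θ' (2 * j + 1)) + 2 * Real.exp (θ' (2 * j) + θ' (2 * j + 1)) +
      Real.exp (θ' (2 * j + 1) - θ (2 * j - 1))) * Zr a b j θ := by
  rw [Zr_last, sum_range_succ]
  have h1 : Zr a b j θ' * gW a b (j + 1 - j) (shift (2 * j) θ') ≤
      (Real.exp (θ' (2 * j + 1)) + Real.exp (θ' (2 * j) + θ' (2 * j + 1))) * Zr a b j θ := by
    rw [head_eq hp le_rfl, D.gW_shift a b θ' j (j + 1) (by omega), mul_comm]
    apply mul_le_mul_of_nonneg_right _ (Zr_nonneg hK _ _)
    rw [show 2 * (j + 1) - 1 = 2 * j + 1 by omega,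
      show ∑ i ∈ Ico (2 * j) (2 * (j + 1)), θ' i = θ' (2 * j) + θ' (2 * j + 1) by
        rw [show 2 * (j + 1) = 2 * j + 2 by ring, sum_Ico_eq_sum_range, Nat.add_sub_cancel_left,
          sum_range_succ, sum_range_one, add_zero]]
    apply add_le_add
    · exact mul_le_of_le_one_left (Real.exp_pos _).le (a_le_one hK _)
    · exact mul_le_of_le_one_left (Real.exp_pos _).le (b_le_one hK _)
  have h2 : ∑ x ∈ range j, Zr a b x θ' * gW a b (j + 1 - x) (shift (2 * x) θ') ≤
      (Real.exp (θ' (2 * j + 1) - θ (2 * j - 1)) + Real.exp (θ' (2 * j) + θ' (2 * j + 1))) *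
        Zr a b j θ := by
    obtain ⟨m, hm⟩ : ∃ m, j = m + 1 := ⟨j - 1, by omega⟩
    have h3 : Zr a b j θ = ∑ x ∈ range j, Zr a b x θ * gW a b (j - x) (shift (2 * x) θ) := by
      rw [hm]
      exact Zr_last a b m θ
    rw [h3, mul_sum]
    refine sum_le_sum fun x hx => ?_
    rw [mem_range] at hx
    rw [head_eq hp hx.le, D.gW_shift a b θ' x (j + 1) (by omega), D.gW_shift a b θ x j hx,
      sum_eq hp hx.le le_rfl, show 2 * (j + 1) - 1 = 2 * j + 1 by omega]
    set s := ∑ i ∈ Ico (2 * x) (2 * j), θ i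
    set s' := θ' (2 * j) + θ' (2 * j + 1)
    set u' := θ' (2 * j + 1)
    set u := θ (2 * j - 1)
    have ha : a (j + 1 - x) ≤ a (j - x) := by
      rw [show j + 1 - x = (j - x) + 1 by omega]; exact hK.a_anti _ (by omega)
    have hb : b (j + 1 - x) ≤ b (j - x) := by
      rw [show j + 1 - x = (j - x) + 1 by omega]; exact hK.b_anti _ (by omega)
    have ha0 := SupAux.a_nonneg hK (j - x)
    have hb0 := SupAux.b_nonneg hK (j - x)
    have e1 : Real.exp u' = Real.exp (u' - u) * Real.exp u := by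
      rw [← Real.exp_add]; congr 1; ring
    have e2 : Real.exp (s + s') = Real.exp s' * Real.exp s := by
      rw [← Real.exp_add]; congr 1; ring
    have i1 : a (j + 1 - x) * Real.exp u' ≤ Real.exp (u' - u) * (a (j - x) * Real.exp u) := by
      rw [e1]
      have := mul_le_mul_of_nonneg_right ha
        (mul_pos (Real.exp_pos (u' - u)) (Real.exp_pos u)).le
      linarith
    have i2 : b (j + 1 - x) * Real.exp (s + s') ≤ Real.exp s' * (b (j - x) * Real.exp s) := by
      rw [e2]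
      have := mul_le_mul_of_nonneg_right hb
        (mul_pos (Real.exp_pos s') (Real.exp_pos s)).le
      linarith
    have i3 : 0 ≤ Real.exp (u' - u) * (b (j - x) * Real.exp s) := by positivity
    have i4 : 0 ≤ Real.exp s' * (a (j - x) * Real.exp u) := by positivity
    have i5 : a (j + 1 - x) * Real.exp u' + b (j + 1 - x) * Real.exp (s + s') ≤
        (Real.exp (u' - u) + Real.exp s') * (a (j - x) * Real.exp u + b (j - x) * Real.exp s) := by
      nlinarith
    have := mul_le_mul_of_nonneg_left i5 (Zr_nonneg hK x θ)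
    linarith
  linarith

lemma neg_step : Zneg a b (n + 1) (j + 1) θ' ≤
    (Real.exp (θ' (2 * j + 1)) + 4 * Real.exp (θ' (2 * j) + θ' (2 * j + 1)) +
      Real.exp (θ' (2 * j + 1) - θ (2 * j - 1))) * Zneg a b n j θ := by
  set u' := θ' (2 * j + 1) with hu'
  set s' := θ' (2 * j) + u' with hs'
  set u := θ (2 * j - 1) with hu
  set T := Zr a b j θ * Zr a b (n - j) (shift (2 * j) θ) with hT
  set X := ∑ x ∈ range j, ∑ y ∈ Ioc j n, Zr a b x θ *
      (b (y - x) * Real.exp (∑ i ∈ Ico (2 * x) (2 * y), θ i)) *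
      Zr a b (n - y) (shift (2 * y) θ) with hX
  have hT0 : 0 ≤ T := mul_nonneg (Zr_nonneg hK _ _) (Zr_nonneg hK _ _)
  have hX0 : 0 ≤ X := sum_nonneg fun x _ => sum_nonneg fun y _ =>
    mul_nonneg (mul_nonneg (Zr_nonneg hK _ _) (mul_nonneg (SupAux.b_nonneg hK _)
      (Real.exp_pos _).le)) (Zr_nonneg hK _ _)
  have hN : Zneg a b n j θ = T + X := rfl
  have h0 : Zr a b (j + 1) θ' * Zr a b (n + 1 - (j + 1)) (shift (2 * (j + 1)) θ') ≤
      (Real.exp u' + 2 * Real.exp s' + Real.exp (u' - u)) * T := by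
    rw [tail_eq hp le_rfl, show n + 1 - (j + 1) = n - j by omega]
    have := mul_le_mul_of_nonneg_right (zero_step hK hj1 hj hp)
      (Zr_nonneg hK (n - j) (shift (2 * j) θ))
    rw [hT]
    linarith
  have h1 : ∀ x, x ≤ j → ∑ y ∈ Ioc (j + 1) (n + 1), Zr a b x θ' *
      (b (y - x) * Real.exp (∑ i ∈ Ico (2 * x) (2 * y), θ' i)) *
      Zr a b (n + 1 - y) (shift (2 * y) θ') ≤ Real.exp s' * (Zr a b x θ * ∑ y ∈ Ioc j n,
        (b (y - x) * Real.exp (∑ i ∈ Ico (2 * x) (2 * y), θ i)) *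
        Zr a b (n - y) (shift (2 * y) θ)) := by
    intro x hx
    rw [sum_Ioc_shift, mul_sum, mul_sum]
    refine sum_le_sum fun y hy => ?_
    rw [mem_Ioc] at hy
    rw [head_eq hp hx, tail_eq hp (by omega), sum_eq hp hx (by omega),
      show n + 1 - (y + 1) = n - y by omega]
    have hb : b (y + 1 - x) ≤ b (y - x) := by
      rw [show y + 1 - x = (y - x) + 1 by omega]; exact hK.b_anti _ (by omega)
    rw [Real.exp_add]
    have hc : 0 ≤ Zr a b x θ * (Real.exp (∑ i ∈ Ico (2 * x) (2 * y), θ i) * Real.exp s') *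
        Zr a b (n - y) (shift (2 * y) θ) :=
      mul_nonneg (mul_nonneg (Zr_nonneg hK _ _) (by positivity)) (Zr_nonneg hK _ _)
    have := mul_le_mul_of_nonneg_left hb hc
    nlinarith
  unfold Zneg at *
  rw [sum_range_succ]
  have h2 : ∑ x ∈ range j, ∑ y ∈ Ioc (j + 1) (n + 1), Zr a b x θ' *
      (b (y - x) * Real.exp (∑ i ∈ Ico (2 * x) (2 * y), θ' i)) *
      Zr a b (n + 1 - y) (shift (2 * y) θ') ≤ Real.exp s' * X := by
    rw [hX, mul_sum]
    refine sum_le_sum fun x hx => ?_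
    refine (h1 x (mem_range.1 hx).le).trans (le_of_eq ?_)
    congr 1
    rw [mul_sum]
    exact sum_congr rfl fun y _ => by ring
  have h3 : ∑ y ∈ Ioc (j + 1) (n + 1), Zr a b j θ' *
      (b (y - j) * Real.exp (∑ i ∈ Ico (2 * j) (2 * y), θ' i)) *
      Zr a b (n + 1 - y) (shift (2 * y) θ') ≤ Real.exp s' * T := by
    refine (h1 j le_rfl).trans ?_
    apply mul_le_mul_of_nonneg_left _ (Real.exp_pos _).le
    exact mul_le_mul_of_nonneg_left (sum_b_le hK θ hj) (Zr_nonneg hK j θ)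
  have e1 := Real.exp_pos u'
  have e2 := Real.exp_pos s'
  have e3 := Real.exp_pos (u' - u)
  have f1 := mul_nonneg e1.le hX0
  have f2 := mul_nonneg e2.le hX0
  have f3 := mul_nonneg e3.le hX0
  have f4 := mul_nonneg e2.le hT0
  rw [hN]
  nlinarith

end Step

/-- the energies after the insertion of `l` pairs -/
lemma pair_ins (θ B : ℕ → ℝ) (j l : ℕ) :
    Pair (ins (2 * j) (2 * l) θ B) (ins (2 * j) (2 * (l + 1)) θ B) (j + l) := by
  constructor
  · intro i hi
    unfold ins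
    by_cases h1 : i < 2 * j
    · rw [if_pos h1, if_pos h1]
    · rw [if_neg h1, if_neg h1, if_pos (by omega), if_pos (by omega)]
  · intro i hi
    unfold ins
    rw [if_neg (by omega), if_neg (by omega), if_neg (by omega), if_neg (by omega)]
    congr 1
    omega

lemma ins_zero (θ B : ℕ → ℝ) (p : ℕ) : ins p 0 θ B = θ := by
  funext i
  unfold ins
  by_cases h1 : i < p
  · rw [if_pos h1]
  · rw [if_neg h1, if_neg (by omega), Nat.sub_zero]

lemma ins_mid (θ B : ℕ → ℝ) {p L i : ℕ} (hi : i < L) : ins p L θ B (p + i) = B i := by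
  unfold ins
  rw [if_neg (by omega), if_pos (by omega), Nat.add_sub_cancel_left]

lemma ins_low (θ B : ℕ → ℝ) {p L i : ℕ} (hi : i < p) : ins p L θ B i = θ i := by
  unfold ins
  rw [if_pos hi]

lemma ins_high (θ B : ℕ → ℝ) {p L i : ℕ} (hi : p ≤ i) : ins p L θ B (i + L) = θ i := by
  unfold ins
  rw [if_neg (by omega), if_neg (by omega), Nat.add_sub_cancel]

/-- growth of the weight of the non-positive configurations -/
lemma neg_growth {a b : ℕ → ℝ} (hK : KerOK a b) {n j : ℕ} (hj1 : 1 ≤ j) (hj : j < n)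
    (θ B : ℕ → ℝ) (l : ℕ) :
    Zneg a b (n + l) (j + l) (ins (2 * j) (2 * l) θ B) ≤
      6 ^ l * Real.exp (|θ (2 * j - 1)| + 2 * ∑ i ∈ range (2 * l), |B i| -
        |ins (2 * j) (2 * l) θ B (2 * (j + l) - 1)|) * Zneg a b n j θ := by
  induction l with
  | zero =>
    simp only [Nat.mul_zero, add_zero, ins_zero, pow_zero, one_mul, range_zero, sum_empty,
      mul_zero, sub_self, Real.exp_zero, le_refl]
  | succ l ih =>
    have h1 := neg_step hK (n := n + l) (j := j + l) (by omega) (by omega) (pair_ins θ B j l)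
    set θl := ins (2 * j) (2 * l) θ B with hθl
    set θ' := ins (2 * j) (2 * (l + 1)) θ B with hθ'
    have e1 : θ' (2 * (j + l)) = B (2 * l) := by
      rw [hθ', show 2 * (j + l) = 2 * j + 2 * l by ring]
      exact ins_mid θ B (by omega)
    have e2 : θ' (2 * (j + l) + 1) = B (2 * l + 1) := by
      rw [hθ', show 2 * (j + l) + 1 = 2 * j + (2 * l + 1) by ring]
      exact ins_mid θ B (by omega)
    have e3 : θ' (2 * (j + (l + 1)) - 1) = B (2 * l + 1) := by
      rw [show 2 * (j + (l + 1)) - 1 = 2 * (j + l) + 1 by omega, e2]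
    rw [e1, e2] at h1
    rw [e3]
    set u := θl (2 * (j + l) - 1) with hu
    set v := B (2 * l) with hv
    set u' := B (2 * l + 1) with hu'
    set M := |θ (2 * j - 1)| + 2 * ∑ i ∈ range (2 * l), |B i| with hM
    have hsum : ∑ i ∈ range (2 * (l + 1)), |B i| = ∑ i ∈ range (2 * l), |B i| + |v| + |u'| := by
      rw [show 2 * (l + 1) = 2 * l + 1 + 1 by ring, sum_range_succ, sum_range_succ]
    rw [hsum]
    have hN0 : 0 < Zneg a b n j θ := Zneg_pos hK hj.le θ
    have hNl : 0 ≤ Zneg a b (n + l) (j + l) θl := (Zneg_pos hK (by omega) θl).le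
    set w := |u| + |v| + |u'| with hw
    have i1 : Real.exp u' ≤ Real.exp w := by
      apply Real.exp_le_exp.2
      have := le_abs_self u'
      have := abs_nonneg u
      have := abs_nonneg v
      linarith
    have i2 : Real.exp (v + u') ≤ Real.exp w := by
      apply Real.exp_le_exp.2
      have := le_abs_self u'
      have := abs_nonneg u
      have := le_abs_self v
      linarith
    have i3 : Real.exp (u' - u) ≤ Real.exp w := by
      apply Real.exp_le_exp.2
      have := le_abs_self u'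
      have := neg_abs_le u
      have := abs_nonneg v
      linarith
    have h2 : Zneg a b (n + l + 1) (j + l + 1) θ' ≤ 6 * Real.exp w *
        Zneg a b (n + l) (j + l) θl := by
      refine h1.trans (mul_le_mul_of_nonneg_right ?_ hNl)
      linarith
    have h3 : 6 * Real.exp w * Zneg a b (n + l) (j + l) θl ≤
        6 * Real.exp w * (6 ^ l * Real.exp (M - |u|) * Zneg a b n j θ) :=
      mul_le_mul_of_nonneg_left ih (by positivity)
    have h4 : 6 * Real.exp w * (6 ^ l * Real.exp (M - |u|) * Zneg a b n j θ) =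
        6 ^ (l + 1) * Real.exp (w + (M - |u|)) * Zneg a b n j θ := by
      rw [Real.exp_add w (M - |u|), pow_succ]
      ring
    have h5 : Real.exp (w + (M - |u|)) ≤ Real.exp (|θ (2 * j - 1)| +
        2 * (∑ i ∈ range (2 * l), |B i| + |v| + |u'|) - |u'|) := by
      apply Real.exp_le_exp.2
      have := abs_nonneg v
      have := abs_nonneg u'
      rw [hw, hM]
      linarith
    calc Zneg a b (n + (l + 1)) (j + (l + 1)) θ' ≤ _ := h2
      _ ≤ _ := h3
      _ = _ := h4
      _ ≤ _ := mul_le_mul_of_nonneg_right (mul_le_mul_of_nonneg_left h5 (by positivity)) hN0.le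

lemma neg_growth' {a b : ℕ → ℝ} (hK : KerOK a b) {n j : ℕ} (hj1 : 1 ≤ j) (hj : j < n)
    (θ B : ℕ → ℝ) {l L : ℕ} (hl : l ≤ L) :
    Zneg a b (n + l) (j + l) (ins (2 * j) (2 * l) θ B) ≤
      6 ^ L * Real.exp (|θ (2 * j - 1)| + 2 * ∑ i ∈ range (2 * L), |B i|) * Zneg a b n j θ := by
  refine (neg_growth hK hj1 hj θ B l).trans ?_
  apply mul_le_mul_of_nonneg_right _ (Zneg_pos hK hj.le θ).le
  apply mul_le_mul
  · exact pow_le_pow_right₀ (by norm_num) hl
  · apply Real.exp_le_exp.2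
    have h1 : ∑ i ∈ range (2 * l), |B i| ≤ ∑ i ∈ range (2 * L), |B i| :=
      sum_le_sum_of_subset_of_nonneg (range_subset_range.2 (by omega)) fun _ _ _ => abs_nonneg _
    have := abs_nonneg (ins (2 * j) (2 * l) θ B (2 * (j + l) - 1))
    linarith
  · exact (Real.exp_pos _).le
  · positivity

lemma pos_growth {a b : ℕ → ℝ} (hK : KerOK a b) {n j : ℕ} (hj1 : 1 ≤ j) (hj : j < n)
    (θ B : ℕ → ℝ) (l : ℕ) :
    Zpos a b (n + l) (j + l) (ins (2 * j) (2 * l) θ B) ≤ Zpos a b n j θ +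
      ∑ i ∈ range l, Zneg a b (n + i) (j + i) (ins (2 * j) (2 * i) θ B) := by
  induction l with
  | zero => simp only [Nat.mul_zero, add_zero, ins_zero, range_zero, sum_empty, le_refl]
  | succ l ih =>
    have h1 := pos_step hK (n := n + l) (j := j + l) (by omega) (by omega) (pair_ins θ B j l)
    rw [sum_range_succ]
    calc Zpos a b (n + (l + 1)) (j + (l + 1)) (ins (2 * j) (2 * (l + 1)) θ B) ≤ _ := h1
      _ ≤ _ := by linarith

end I1

theorem ins_upper {a b : ℕ → ℝ} (hK : KerOK a b) {n j : ℕ} (hj1 : 1 ≤ j) (hj : j < n) (L : ℕ)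
    (θ B : ℕ → ℝ) :
    Zr a b (n + L) (ins (2 * j) (2 * L) θ B) ≤ Zpos a b n j θ +
      ((L : ℝ) + 1) * 6 ^ L * Real.exp (|θ (2 * j - 1)| + 2 * ∑ i ∈ range (2 * L), |B i|) *
        Zneg a b n j θ := by
  rw [Zr_split (j := j + L) (by omega) (by omega)]
  have h1 := I1.pos_growth hK hj1 hj θ B L
  have h2 : ∑ i ∈ range L, Zneg a b (n + i) (j + i) (ins (2 * j) (2 * i) θ B) ≤
      L * (6 ^ L * Real.exp (|θ (2 * j - 1)| + 2 * ∑ i ∈ range (2 * L), |B i|) *
        Zneg a b n j θ) := by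
    have h3 := sum_le_card_nsmul (range L)
      (fun i => Zneg a b (n + i) (j + i) (ins (2 * j) (2 * i) θ B)) _
      (fun i hi => I1.neg_growth' hK hj1 hj θ B (mem_range.1 hi).le)
    rw [card_range, nsmul_eq_mul] at h3
    exact h3
  have h4 := I1.neg_growth' hK hj1 hj θ B (le_refl L)
  linarith

theorem ins_lower {a b : ℕ → ℝ} (hK : KerOK a b) {n j : ℕ} (hj1 : 1 ≤ j) (hj : j < n) (L : ℕ)
    (θ B : ℕ → ℝ) :
    b (L + 1) * Real.exp (∑ i ∈ range (2 * L), B i) * Zneg a b n j θ ≤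
      Zneg a b (n + L) j (ins (2 * j) (2 * L) θ B) := by
  set θ' := ins (2 * j) (2 * L) θ B with hθ'
  set S := ∑ i ∈ range (2 * L), B i with hS
  have hb1 := I1.b_le_one hK 1
  have hbL := SupAux.b_nonneg hK (L + 1)
  have head : ∀ x, x ≤ j → Zr a b x θ' = Zr a b x θ := fun x hx =>
    Zr_congr a b x fun i hi => I1.ins_low θ B (by omega)
  have tail : ∀ y, j ≤ y → ∀ m, Zr a b m (shift (2 * (y + L)) θ') =
      Zr a b m (shift (2 * y) θ) := by
    intro y hy m
    apply Zr_congr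
    intro i _
    show θ' (i + 2 * (y + L)) = θ (i + 2 * y)
    rw [show i + 2 * (y + L) = i + 2 * y + 2 * L by ring]
    exact I1.ins_high θ B (by omega)
  have hmid : ∑ i ∈ range (2 * L), shift (2 * j) θ' i = S := by
    refine sum_congr rfl fun i hi => ?_
    show θ' (i + 2 * j) = B i
    rw [add_comm]
    exact I1.ins_mid θ B (mem_range.1 hi)
  have hsum : ∀ x y, x ≤ j → j ≤ y → ∑ i ∈ Ico (2 * x) (2 * (y + L)), θ' i =
      ∑ i ∈ Ico (2 * x) (2 * y), θ i + S := by
    intro x y hx hy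
    rw [← sum_Ico_consecutive (fun i => θ' i) (show 2 * x ≤ 2 * j by omega)
      (show 2 * j ≤ 2 * (y + L) by omega),
      ← sum_Ico_consecutive (fun i => θ i) (show 2 * x ≤ 2 * j by omega)
      (show 2 * j ≤ 2 * y by omega),
      ← sum_Ico_consecutive (fun i => θ' i) (show 2 * j ≤ 2 * j + 2 * L by omega)
      (show 2 * j + 2 * L ≤ 2 * (y + L) by omega)]
    have h1 : ∑ i ∈ Ico (2 * x) (2 * j), θ' i = ∑ i ∈ Ico (2 * x) (2 * j), θ i :=
      sum_congr rfl fun i hi => I1.ins_low θ B (mem_Ico.1 hi).2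
    have h2 : ∑ i ∈ Ico (2 * j) (2 * j + 2 * L), θ' i = S := by
      rw [sum_Ico_eq_sum_range, Nat.add_sub_cancel_left]
      exact sum_congr rfl fun i hi => I1.ins_mid θ B (mem_range.1 hi)
    have h3 : ∑ i ∈ Ico (2 * j + 2 * L) (2 * (y + L)), θ' i = ∑ i ∈ Ico (2 * j) (2 * y), θ i := by
      rw [sum_Ico_eq_sum_range, sum_Ico_eq_sum_range,
        show 2 * (y + L) - (2 * j + 2 * L) = 2 * y - 2 * j by omega]
      refine sum_congr rfl fun i _ => ?_
      rw [show 2 * j + 2 * L + i = 2 * j + i + 2 * L by ring]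
      exact I1.ins_high θ B (by omega)
    rw [h1, h2, h3]
    ring
  unfold Zneg
  rw [mul_add]
  apply add_le_add
  · rw [head j le_rfl]
    have h1 := Zr_mul_le hK L (n - j) (shift (2 * j) θ')
    rw [MP_daa227_pr.shift_shift, show 2 * L + 2 * j = 2 * (j + L) by ring, tail j le_rfl,
      show L + (n - j) = n + L - j by omega] at h1
    have h2 : b (L + 1) * Real.exp S ≤ Zr a b L (shift (2 * j) θ') := by
      rcases Nat.eq_zero_or_pos L with h | h
      · subst h
        rw [D.Zr_zero, hS]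
        simp only [Nat.mul_zero, range_zero, sum_empty, Real.exp_zero, mul_one, zero_add]
        exact hb1
      · have h3 := SupAux.b_le_Zr hK h (shift (2 * j) θ')
        rw [hmid] at h3
        exact (mul_le_mul_of_nonneg_right (hK.b_anti L h) (Real.exp_pos _).le).trans h3
    have h4 := mul_le_mul_of_nonneg_right h2 (I1.Zr_nonneg hK (n - j) (shift (2 * j) θ))
    have h5 := mul_le_mul_of_nonneg_left (h4.trans h1) (I1.Zr_nonneg hK j θ)
    linarith
  · rw [mul_sum]
    refine sum_le_sum fun x hx => ?_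
    rw [mem_range] at hx
    have h1 : ∑ y ∈ Ioc j n, Zr a b x θ' *
        (b (y + L - x) * Real.exp (∑ i ∈ Ico (2 * x) (2 * (y + L)), θ' i)) *
        Zr a b (n + L - (y + L)) (shift (2 * (y + L)) θ') ≤ ∑ y ∈ Ioc j (n + L), Zr a b x θ' *
        (b (y - x) * Real.exp (∑ i ∈ Ico (2 * x) (2 * y), θ' i)) *
        Zr a b (n + L - y) (shift (2 * y) θ') := by
      rw [← Finset.sum_image (f := fun y => Zr a b x θ' *
        (b (y - x) * Real.exp (∑ i ∈ Ico (2 * x) (2 * y), θ' i)) *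
        Zr a b (n + L - y) (shift (2 * y) θ')) (g := fun y => y + L) (s := Ioc j n)
        (fun p _ q _ h => Nat.add_right_cancel h)]
      apply sum_le_sum_of_subset_of_nonneg
      · intro z hz
        rw [mem_image] at hz
        obtain ⟨y, hy, rfl⟩ := hz
        rw [mem_Ioc] at hy ⊢
        omega
      · intro y _ _
        exact mul_nonneg (mul_nonneg (I1.Zr_nonneg hK _ _) (mul_nonneg (SupAux.b_nonneg hK _)
          (Real.exp_pos _).le)) (I1.Zr_nonneg hK _ _)
    refine le_trans ?_ h1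
    rw [mul_sum]
    refine sum_le_sum fun y hy => ?_
    rw [mem_Ioc] at hy
    rw [head x hx.le, tail y (by omega), hsum x y hx.le (by omega),
      show n + L - (y + L) = n - y by omega, Real.exp_add]
    have hc := hK.b_conv (y - x) L (by omega)
    rw [show y - x + L = y + L - x by omega, show 1 + L = L + 1 by ring] at hc
    have hd : b (y + L - x) * b 1 ≤ b (y + L - x) :=
      mul_le_of_le_one_right (SupAux.b_nonneg hK _) hb1
    have he := hc.trans hd
    have hf : 0 ≤ Zr a b x θ * (Real.exp (∑ i ∈ Ico (2 * x) (2 * y), θ i) * Real.exp S) *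
        Zr a b (n - y) (shift (2 * y) θ) :=
      mul_nonneg (mul_nonneg (I1.Zr_nonneg hK _ _) (by positivity)) (I1.Zr_nonneg hK _ _)
    have := mul_le_mul_of_nonneg_left he hf
    nlinarith

end

end Pool.Agent.OT
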