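import Mathlib
import Pool.Agent.Lib.MP_daa227_pr_OT.Defs

/-!
# Adapted tilts and noise stability. Definitions.
-/

namespace Pool.Agent.OT

open MeasureTheory ProbabilityTheory Finset Filter
open MP_daa227_pr (Chain Zk Zf K0 shift seqLaw ExpMom)

noncomputable section

/-- the uniform law on `[0,1]` -/
def U01 : Measure ℝ := volume.restrict (Set.Icc 0 1)

instance : IsProbabilityMeasure U01 := ⟨by simp [U01]⟩

/-- a negative charge `x` is replaced by the fresh positive charge `y` with probability `l` -/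
def mv (l x y u : ℝ) : ℝ := if x < 0 ∧ 0 < y ∧ u < l then y else x

/-- one site: charge, fresh charge, uniform variable -/
def site (μ : Measure ℝ) : Measure (ℝ × ℝ × ℝ) := μ.prod (μ.prod U01)

/-- one site: charge, fresh charge, label -/
def siteL (μ : Measure ℝ) (π : Measure ℕ) : Measure (ℝ × ℝ × ℕ) := μ.prod (μ.prod π)

section Fam

variable {Ω ι : Type*} [Fintype Ω] [Fintype ι]

/-- the charges with label `< j` are kept, the others are replaced by fresh ones -/
def mix (j : ℕ) (z : ι → ℝ × ℝ × ℕ) : ι → ℝ :=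
  fun l => if (z l).2.2 < j then (z l).1 else (z l).2.1

/-- local density at `i` with the charge at `i` set to `0` -/
def pZ [DecidableEq ι] (w : Ω → ℝ) (x : Ω → ι → ℝ) (β : ℝ) (f : ι → ℝ) (i : ι) (ω : ι → ℝ)
    (δ : ℝ) : ℝ := pE w x (fun l => β * Function.update ω i 0 l + f l + δ) i

/-- quenched average of the logarithm, i.i.d. charges -/
def LP (μ : Measure ℝ) (w : Ω → ℝ) (x : Ω → ι → ℝ) (β : ℝ) (f : ι → ℝ) (δ : ℝ) : ℝ :=
  ∫ ω, Real.log (ZE w x (fun i => β * ω i + f i + δ)) ∂Measure.pi (fun _ : ι => μ)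

/-- mean number of sites with spin one -/
def MP (μ : Measure ℝ) (w : Ω → ℝ) (x : Ω → ι → ℝ) (β : ℝ) (f : ι → ℝ) (δ : ℝ) : ℝ :=
  ∫ ω, ∑ i, pE w x (fun i => β * ω i + f i + δ) i ∂Measure.pi (fun _ : ι => μ)

/-- overlap -/
def RP (μ : Measure ℝ) (w : Ω → ℝ) (x : Ω → ι → ℝ) (β : ℝ) (f : ι → ℝ) (δ : ℝ) : ℝ :=
  ∫ ω, ∑ i, pE w x (fun i => β * ω i + f i + δ) i ^ 2 ∂Measure.pi (fun _ : ι => μ)

end Fam

end

end Pool.Agent.OT
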