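import Mathlib
import Pool.Agent.Lib.MP_daa227_pr_OT.Defs2

/-!
# The Gibbs inequality at one site for adapted displacements of the charge
-/

namespace Pool.Agent.OT

open MeasureTheory ProbabilityTheory Finset Filter Topology
open MP_daa227_pr (Chain Zk Zf K0 shift seqLaw ExpMom)

noncomputable section

namespace V1

/-- indicator of the negative numbers -/
def neg (x : ℝ) : ℝ := (Set.Iio (0 : ℝ)).indicator (fun _ => 1) x

/-- indicator of the positive numbers -/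
def pos (x : ℝ) : ℝ := (Set.Ioi (0 : ℝ)).indicator (fun _ => 1) x

/-- indicator of the numbers below `l` -/
def low (l u : ℝ) : ℝ := (Set.Iio l).indicator (fun _ => 1) u

lemma neg_meas : Measurable neg := measurable_const.indicator measurableSet_Iio

lemma pos_meas : Measurable pos := measurable_const.indicator measurableSet_Ioi

lemma low_meas (l : ℝ) : Measurable (low l) := measurable_const.indicator measurableSet_Iio

lemma neg_eq (x : ℝ) : neg x = if x < 0 then 1 else 0 := by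
  simp [neg, Set.indicator]

lemma pos_eq (x : ℝ) : pos x = if 0 < x then 1 else 0 := by
  simp [pos, Set.indicator]

lemma low_eq (l u : ℝ) : low l u = if u < l then 1 else 0 := by
  simp [low, Set.indicator]

lemma neg_nonneg (x : ℝ) : 0 ≤ neg x := by rw [neg_eq]; split_ifs <;> norm_num

lemma neg_le (x : ℝ) : neg x ≤ 1 := by rw [neg_eq]; split_ifs <;> norm_num

lemma pos_nonneg (x : ℝ) : 0 ≤ pos x := by rw [pos_eq]; split_ifs <;> norm_num

lemma pos_le (x : ℝ) : pos x ≤ 1 := by rw [pos_eq]; split_ifs <;> norm_num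

lemma low_nonneg (l x : ℝ) : 0 ≤ low l x := by rw [low_eq]; split_ifs <;> norm_num

lemma low_le (l x : ℝ) : low l x ≤ 1 := by rw [low_eq]; split_ifs <;> norm_num

lemma low_int {l : ℝ} (hl0 : 0 ≤ l) (hl1 : l ≤ 1) : ∫ u, low l u ∂U01 = l := by
  have h1 : ∫ u, low l u ∂U01 = U01.real (Set.Iio l) := by
    unfold low
    rw [integral_indicator_const _ measurableSet_Iio]
    simp
  rw [h1, U01, measureReal_restrict_apply measurableSet_Iio]
  have h2 : Set.Iio l ∩ Set.Icc 0 1 = Set.Ico 0 l := by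
    ext u
    simp only [Set.mem_inter_iff, Set.mem_Iio, Set.mem_Icc, Set.mem_Ico]
    constructor
    · rintro ⟨h, h0, _⟩
      exact ⟨h0, h⟩
    · rintro ⟨h0, h⟩
      exact ⟨h, h0, by linarith⟩
  rw [h2]
  simp [Measure.real, hl0]

lemma mv_eq (Ψ : ℝ → ℝ) (l x y u : ℝ) : Ψ (mv l x y u) =
    Ψ x + neg x * (pos y * Ψ y * low l u) - neg x * Ψ x * (pos y * low l u) := by
  rw [mv, neg_eq, pos_eq, low_eq]
  by_cases h1 : x < 0 <;> by_cases h2 : 0 < y <;> by_cases h3 : u < l <;> simp [h1, h2, h3]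

variable {μ : Measure ℝ} [IsProbabilityMeasure μ]

lemma bdd_int {f : ℝ → ℝ} (hf : Measurable f) (h0 : ∀ x, 0 ≤ f x) (h1 : ∀ x, f x ≤ 1)
    {ν : Measure ℝ} [IsFiniteMeasure ν] : Integrable f ν := by
  refine (integrable_const (1 : ℝ)).mono' hf.aestronglyMeasurable (ae_of_all _ fun x => ?_)
  rw [Real.norm_eq_abs, abs_of_nonneg (h0 x)]
  exact h1 x

omit [IsProbabilityMeasure μ] in
lemma bdd_mul {f g : ℝ → ℝ} (hf : Measurable f) (h0 : ∀ x, 0 ≤ f x) (h1 : ∀ x, f x ≤ 1)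
    (hg : Integrable g μ) : Integrable (fun x => f x * g x) μ := by
  refine hg.norm.mono' (hf.aestronglyMeasurable.mul hg.1) (ae_of_all _ fun x => ?_)
  rw [norm_mul, Real.norm_eq_abs (f x), abs_of_nonneg (h0 x)]
  have := norm_nonneg (g x)
  nlinarith [h1 x, h0 x]

/-- the law of the displaced charge -/
lemma mv_int {l : ℝ} (hl0 : 0 ≤ l) (hl1 : l ≤ 1) {Ψ : ℝ → ℝ} (hΨ : Integrable Ψ μ) :
    ∫ z, Ψ (mv l z.1 z.2.1 z.2.2) ∂site μ = ∫ x, (1 + l * ((∫ y, neg y ∂μ) * pos x -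
      (∫ y, pos y ∂μ) * neg x)) * Ψ x ∂μ := by
  have hU : Integrable (low l) U01 := bdd_int (low_meas l) (low_nonneg l) (low_le l)
  have hn : Integrable neg μ := bdd_int neg_meas neg_nonneg neg_le
  have hp : Integrable pos μ := bdd_int pos_meas pos_nonneg pos_le
  have hnΨ : Integrable (fun x => neg x * Ψ x) μ := bdd_mul neg_meas neg_nonneg neg_le hΨ
  have hpΨ : Integrable (fun x => pos x * Ψ x) μ := bdd_mul pos_meas pos_nonneg pos_le hΨ
  have i1 : Integrable (fun z : ℝ × ℝ × ℝ => Ψ z.1) (site μ) := by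
    have := hΨ.comp_fst (μ.prod U01)
    exact this
  have i2' : Integrable (fun z : ℝ × ℝ => (pos z.1 * Ψ z.1) * low l z.2) (μ.prod U01) :=
    hpΨ.mul_prod hU
  have i2 : Integrable (fun z : ℝ × ℝ × ℝ => neg z.1 * (pos z.2.1 * Ψ z.2.1 * low l z.2.2))
      (site μ) := hn.mul_prod i2'
  have i3' : Integrable (fun z : ℝ × ℝ => pos z.1 * low l z.2) (μ.prod U01) := hp.mul_prod hU
  have i3 : Integrable (fun z : ℝ × ℝ × ℝ => neg z.1 * Ψ z.1 * (pos z.2.1 * low l z.2.2))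
      (site μ) := hnΨ.mul_prod i3'
  have e : (fun z : ℝ × ℝ × ℝ => Ψ (mv l z.1 z.2.1 z.2.2)) = fun z =>
      Ψ z.1 + neg z.1 * (pos z.2.1 * Ψ z.2.1 * low l z.2.2) -
        neg z.1 * Ψ z.1 * (pos z.2.1 * low l z.2.2) := by
    funext z
    exact mv_eq Ψ l z.1 z.2.1 z.2.2
  have i12 : Integrable (fun z : ℝ × ℝ × ℝ => Ψ z.1 +
      neg z.1 * (pos z.2.1 * Ψ z.2.1 * low l z.2.2)) (site μ) := i1.add i2
  rw [e, integral_sub i12 i3, integral_add i1 i2]
  have e1 : ∫ z : ℝ × ℝ × ℝ, Ψ z.1 ∂site μ = ∫ x, Ψ x ∂μ := by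
    rw [site, integral_fun_fst]
    simp
  have e2 : ∫ z : ℝ × ℝ × ℝ, neg z.1 * (pos z.2.1 * Ψ z.2.1 * low l z.2.2) ∂site μ =
      (∫ x, neg x ∂μ) * ((∫ y, pos y * Ψ y ∂μ) * l) := by
    rw [site, integral_prod_mul (μ := μ) (ν := μ.prod U01) neg
      (fun w : ℝ × ℝ => pos w.1 * Ψ w.1 * low l w.2),
      integral_prod_mul (μ := μ) (ν := U01) (fun y => pos y * Ψ y) (low l), low_int hl0 hl1]
  have e3 : ∫ z : ℝ × ℝ × ℝ, neg z.1 * Ψ z.1 * (pos z.2.1 * low l z.2.2) ∂site μ =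
      (∫ x, neg x * Ψ x ∂μ) * ((∫ y, pos y ∂μ) * l) := by
    rw [site, integral_prod_mul (μ := μ) (ν := μ.prod U01) (fun x => neg x * Ψ x)
      (fun w : ℝ × ℝ => pos w.1 * low l w.2),
      integral_prod_mul (μ := μ) (ν := U01) pos (low l), low_int hl0 hl1]
  rw [e1, e2, e3]
  have e4 : (fun x => (1 + l * ((∫ y, neg y ∂μ) * pos x - (∫ y, pos y ∂μ) * neg x)) * Ψ x) =
      fun x => Ψ x + l * (∫ y, neg y ∂μ) * (pos x * Ψ x) -
        l * (∫ y, pos y ∂μ) * (neg x * Ψ x) := by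
    funext x
    ring
  have j12 : Integrable (fun x => Ψ x + l * (∫ y, neg y ∂μ) * (pos x * Ψ x)) μ :=
    hΨ.add (hpΨ.const_mul _)
  rw [e4, integral_sub j12 (hnΨ.const_mul _),
    integral_add hΨ (hpΨ.const_mul _), integral_const_mul, integral_const_mul]
  ring

lemma young {a b : ℝ} (ha : 0 ≤ a) : a * b ≤ a * (a - 1) - a + Real.exp b := by
  rcases ha.eq_or_lt with h | h
  · rw [← h]
    have := (Real.exp_pos b).le
    linarith
  · have h1 := Real.add_one_le_exp (b - Real.log a)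
    rw [Real.exp_sub, Real.exp_log h, le_div_iff₀ h] at h1
    have h2 := Real.log_le_sub_one_of_pos h
    nlinarith

lemma exp_int (hμ : ExpMom μ) {Ψ : ℝ → ℝ} (hΨ : Measurable Ψ) {B : ℝ}
    (hB : ∀ x, |Ψ x| ≤ B * (1 + |x|)) : Integrable (fun x => Real.exp (Ψ x)) μ := by
  refine ((hμ.abs B).const_mul (Real.exp B)).mono' (by fun_prop) (ae_of_all _ fun x => ?_)
  rw [Real.norm_eq_abs, abs_of_pos (Real.exp_pos _), ← Real.exp_add]
  apply Real.exp_le_exp.2
  have := (le_abs_self _).trans (hB x)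
  linarith

lemma lin_int (hμ : ExpMom μ) {Ψ : ℝ → ℝ} (hΨ : Measurable Ψ) {B : ℝ}
    (hB : ∀ x, |Ψ x| ≤ B * (1 + |x|)) : Integrable Ψ μ := by
  refine (((integrable_const (1 : ℝ)).add hμ.integrable_abs).const_mul B).mono'
    hΨ.aestronglyMeasurable (ae_of_all _ fun x => ?_)
  rw [Real.norm_eq_abs]
  exact hB x

end V1

open V1

theorem one_gibbs (μ : Measure ℝ) [IsProbabilityMeasure μ] (hμ : ExpMom μ) {l : ℝ} (hl0 : 0 ≤ l)
    (hl1 : l ≤ 1) (Ψ : ℝ → ℝ) (hΨ : Measurable Ψ) {B : ℝ} (hB : ∀ x, |Ψ x| ≤ B * (1 + |x|)) :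
    ∫ z, Ψ (mv l z.1 z.2.1 z.2.2) ∂site μ - l ^ 2 ≤ Real.log (∫ x, Real.exp (Ψ x) ∂μ) := by
  have hi := lin_int hμ hΨ hB
  have he := exp_int hμ hΨ hB
  rw [mv_int hl0 hl1 hi]
  set b : ℝ := ∫ y, neg y ∂μ with hb
  set a : ℝ := ∫ y, pos y ∂μ with ha
  have hn : Integrable neg μ := bdd_int neg_meas neg_nonneg neg_le
  have hp : Integrable pos μ := bdd_int pos_meas pos_nonneg pos_le
  have hb0 : 0 ≤ b := integral_nonneg neg_nonneg
  have ha0 : 0 ≤ a := integral_nonneg pos_nonneg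
  have hb1 : b ≤ 1 := by
    calc b ≤ ∫ _, (1 : ℝ) ∂μ := integral_mono hn (integrable_const _) neg_le
      _ = 1 := by simp
  have ha1 : a ≤ 1 := by
    calc a ≤ ∫ _, (1 : ℝ) ∂μ := integral_mono hp (integrable_const _) pos_le
      _ = 1 := by simp
  set ψ : ℝ → ℝ := fun x => b * pos x - a * neg x with hψ
  have hψi : Integrable ψ μ := (hp.const_mul b).sub (hn.const_mul a)
  have hψ0 : ∫ x, ψ x ∂μ = 0 := by
    rw [hψ, integral_sub (hp.const_mul b) (hn.const_mul a), integral_const_mul,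
      integral_const_mul, ← ha, ← hb]
    ring
  have hψb : ∀ x, |ψ x| ≤ 1 := by
    intro x
    simp only [hψ]
    rw [abs_le, pos_eq, neg_eq]
    constructor <;> split_ifs <;> linarith
  have hψm : Measurable ψ := (pos_meas.const_mul b).sub (neg_meas.const_mul a)
  have hψ2 : Integrable (fun x => ψ x ^ 2) μ := by
    refine (integrable_const (1 : ℝ)).mono' (by fun_prop) (ae_of_all _ fun x => ?_)
    rw [Real.norm_eq_abs, abs_of_nonneg (sq_nonneg _)]
    have := hψb x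
    rw [abs_le] at this
    nlinarith [this.1, this.2]
  have hψ2' : ∫ x, ψ x ^ 2 ∂μ ≤ 1 := by
    calc ∫ x, ψ x ^ 2 ∂μ ≤ ∫ _, (1 : ℝ) ∂μ := by
          refine integral_mono hψ2 (integrable_const _) fun x => ?_
          have := hψb x
          rw [abs_le] at this
          show ψ x ^ 2 ≤ 1
          nlinarith [this.1, this.2]
      _ = 1 := by simp
  set E : ℝ := ∫ x, Real.exp (Ψ x) ∂μ with hE
  have hE0 : 0 < E := integral_exp_pos he
  set c : ℝ := Real.log E with hc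
  have hec : Real.exp (-c) = E⁻¹ := by rw [Real.exp_neg, hc, Real.exp_log hE0]
  -- pointwise inequality
  have hpt : ∀ x, (1 + l * ψ x) * Ψ x ≤
      l ^ 2 * ψ x ^ 2 + l * ψ x - (1 + l * ψ x) + E⁻¹ * Real.exp (Ψ x) + c * (1 + l * ψ x) := by
    intro x
    have hx := hψb x
    rw [abs_le] at hx
    have hg : 0 ≤ 1 + l * ψ x := by nlinarith [hx.1, hx.2]
    have h1 := young (b := Ψ x - c) hg
    rw [sub_eq_add_neg (Ψ x) c, Real.exp_add, hec] at h1
    linarith
  have hR : Integrable (fun x => l ^ 2 * ψ x ^ 2 + l * ψ x - (1 + l * ψ x) +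
      E⁻¹ * Real.exp (Ψ x) + c * (1 + l * ψ x)) μ := by
    have h1 : Integrable (fun x => 1 + l * ψ x) μ := (integrable_const _).add (hψi.const_mul l)
    exact ((((hψ2.const_mul _).add (hψi.const_mul l)).sub h1).add (he.const_mul _)).add
      (h1.const_mul c)
  have hL : Integrable (fun x => (1 + l * ψ x) * Ψ x) μ := by
    have e : (fun x => (1 + l * ψ x) * Ψ x) = fun x => Ψ x + l * (ψ x * Ψ x) := by
      funext x; ring
    rw [e]
    refine hi.add (Integrable.const_mul ?_ l)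
    refine hi.norm.mono' (hψm.aestronglyMeasurable.mul hi.1) (ae_of_all _ fun x => ?_)
    rw [norm_mul, Real.norm_eq_abs (ψ x)]
    have := norm_nonneg (Ψ x)
    nlinarith [hψb x, abs_nonneg (ψ x)]
  have hmain := integral_mono hL hR hpt
  have hval : ∫ x, (l ^ 2 * ψ x ^ 2 + l * ψ x - (1 + l * ψ x) +
      E⁻¹ * Real.exp (Ψ x) + c * (1 + l * ψ x)) ∂μ = l ^ 2 * ∫ x, ψ x ^ 2 ∂μ + c := by
    have e : (fun x => l ^ 2 * ψ x ^ 2 + l * ψ x - (1 + l * ψ x) +
      E⁻¹ * Real.exp (Ψ x) + c * (1 + l * ψ x)) = fun x => (c - 1) + l ^ 2 * ψ x ^ 2 +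
        c * l * ψ x + E⁻¹ * Real.exp (Ψ x) := by
      funext x; ring
    have k1 : Integrable (fun x => (c - 1) + l ^ 2 * ψ x ^ 2) μ :=
      (integrable_const _).add (hψ2.const_mul _)
    have k2 : Integrable (fun x => (c - 1) + l ^ 2 * ψ x ^ 2 + c * l * ψ x) μ :=
      k1.add (hψi.const_mul _)
    rw [e, integral_add k2 (he.const_mul _), integral_add k1 (hψi.const_mul _),
      integral_add (integrable_const _) (hψ2.const_mul _),
      integral_const_mul, integral_const_mul, integral_const_mul, hψ0, ← hE,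
      inv_mul_cancel₀ hE0.ne']
    simp
    ring
  rw [hval] at hmain
  have : l ^ 2 * ∫ x, ψ x ^ 2 ∂μ ≤ l ^ 2 := by
    nlinarith [sq_nonneg l]
  linarith

end

end Pool.Agent.OT
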