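import Mathlib
import Pool.Agent.Lib.MP_daa227_pr_OT.Defs2
import Pool.Agent.Lib.MP_daa227_pr_OT.One

/-!
# Adapted displacements of finitely many charges (induction over the sites)
-/

namespace Pool.Agent.OT

open MeasureTheory ProbabilityTheory Finset Filter Topology
open MP_daa227_pr (Chain Zk Zf K0 shift seqLaw ExpMom)

noncomputable section

namespace V2

lemma mp_cons {E : Type*} [MeasurableSpace E] (ν : Measure E) [IsProbabilityMeasure ν] (m : ℕ) :
    MeasurePreserving (fun p : E × (Fin m → E) => (Fin.cons p.1 p.2 : Fin (m + 1) → E))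
      (ν.prod (Measure.pi fun _ : Fin m => ν)) (Measure.pi fun _ : Fin (m + 1) => ν) := by
  have h := (measurePreserving_piFinSuccAbove (fun _ : Fin (m + 1) => ν) 0).symm
  convert h using 1
  funext p
  exact (Fin.insertNth_zero' p.1 p.2).symm

/-- Fubini for the first coordinate -/
lemma int_cons {E : Type*} [MeasurableSpace E] (ν : Measure E) [IsProbabilityMeasure ν] (m : ℕ)
    (F : (Fin (m + 1) → E) → ℝ) (hF : Integrable F (Measure.pi fun _ : Fin (m + 1) => ν)) :
    ∫ ω, F ω ∂(Measure.pi fun _ : Fin (m + 1) => ν) =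
      ∫ x, ∫ r, F (Fin.cons x r) ∂(Measure.pi fun _ : Fin m => ν) ∂ν ∧
    Integrable (fun x => ∫ r, F (Fin.cons x r) ∂(Measure.pi fun _ : Fin m => ν)) ν ∧
    ∀ᵐ x ∂ν, Integrable (fun r => F (Fin.cons x r)) (Measure.pi fun _ : Fin m => ν) := by
  have h := mp_cons ν m
  have h1 := (h.integrable_comp hF.aestronglyMeasurable).2 hF
  refine ⟨?_, h1.integral_prod_left, h1.prod_right_ae⟩
  have h2 : ∫ ω, F ω ∂(Measure.pi fun _ : Fin (m + 1) => ν) =
      ∫ p : E × (Fin m → E), F (Fin.cons p.1 p.2) ∂(ν.prod (Measure.pi fun _ : Fin m => ν)) := by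
    have hm : AEStronglyMeasurable F (Measure.map (fun p : E × (Fin m → E) =>
        (Fin.cons p.1 p.2 : Fin (m + 1) → E)) (ν.prod (Measure.pi fun _ : Fin m => ν))) := by
      rw [h.map_eq]
      exact hF.aestronglyMeasurable
    rw [← integral_map h.measurable.aemeasurable hm, h.map_eq]
  rw [h2]
  exact integral_prod _ h1

instance (μ : Measure ℝ) [IsProbabilityMeasure μ] : IsProbabilityMeasure (site μ) := by
  unfold site
  infer_instance

lemma site_fst (μ : Measure ℝ) [IsProbabilityMeasure μ] :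
    MeasurePreserving (fun z : ℝ × ℝ × ℝ => z.1) (site μ) μ := measurePreserving_fst

lemma site_snd (μ : Measure ℝ) [IsProbabilityMeasure μ] :
    MeasurePreserving (fun z : ℝ × ℝ × ℝ => z.2.1) (site μ) μ :=
  measurePreserving_fst.comp measurePreserving_snd

lemma mv_abs (l x y u : ℝ) : |mv l x y u| ≤ |x| + |y| := by
  unfold mv
  split_ifs
  · linarith [abs_nonneg x]
  · linarith [abs_nonneg y]

lemma mv_meas {E : Type*} [MeasurableSpace E] {f g h k : E → ℝ} (hf : Measurable f)
    (hg : Measurable g) (hh : Measurable h) (hk : Measurable k) :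
    Measurable fun e => mv (f e) (g e) (h e) (k e) := by
  unfold mv
  refine Measurable.ite ?_ hh hg
  have h1 : MeasurableSet {e | g e < 0} := measurableSet_lt hg measurable_const
  have h2 : MeasurableSet {e | 0 < h e} := measurableSet_lt measurable_const hh
  have h3 : MeasurableSet {e | k e < f e} := measurableSet_lt hk hf
  have : {e | g e < 0 ∧ 0 < h e ∧ k e < f e} = {e | g e < 0} ∩ ({e | 0 < h e} ∩ {e | k e < f e}) := by
    ext e
    simp
  rw [this]
  exact h1.inter (h2.inter h3)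

lemma int_site (μ : Measure ℝ) [IsProbabilityMeasure μ] (hμ : ExpMom μ) :
    Integrable (fun z : ℝ × ℝ × ℝ => |z.1| + |z.2.1|) (site μ) := by
  have h1 : Integrable (fun z : ℝ × ℝ × ℝ => |z.1|) (site μ) :=
    ((site_fst μ).integrable_comp hμ.integrable_abs.aestronglyMeasurable).2 hμ.integrable_abs
  have h2 : Integrable (fun z : ℝ × ℝ × ℝ => |z.2.1|) (site μ) :=
    ((site_snd μ).integrable_comp hμ.integrable_abs.aestronglyMeasurable).2 hμ.integrable_abs
  exact h1.add h2

/-- the displaced field -/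
def T {m : ℕ} (lam : (Fin m → ℝ) → Fin m → ℝ) (z : Fin m → ℝ × ℝ × ℝ) : Fin m → ℝ :=
  fun i => mv (lam (fun l => (z l).1) i) (z i).1 (z i).2.1 (z i).2.2

lemma T_meas {m : ℕ} (lam : (Fin m → ℝ) → Fin m → ℝ) (hlm : ∀ i, Measurable fun ω => lam ω i) :
    Measurable (T lam) := by
  rw [measurable_pi_iff]
  intro i
  refine mv_meas ?_ (by fun_prop) (by fun_prop) (by fun_prop)
  exact (hlm i).comp (by rw [measurable_pi_iff]; intro l; fun_prop)

lemma int_XT {m : ℕ} (μ : Measure ℝ) [IsProbabilityMeasure μ] (hμ : ExpMom μ)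
    (X : (Fin m → ℝ) → ℝ) (hX : Measurable X) {B : ℝ} (hB0 : 0 ≤ B)
    (hB : ∀ ω, |X ω| ≤ B * (1 + ∑ i, |ω i|))
    (lam : (Fin m → ℝ) → Fin m → ℝ) (hlm : ∀ i, Measurable fun ω => lam ω i) :
    Integrable (fun z => X (T lam z)) (Measure.pi (fun _ : Fin m => site μ)) := by
  have h1 : Integrable (fun z : Fin m → ℝ × ℝ × ℝ => B * (1 + ∑ i, (|(z i).1| + |(z i).2.1|)))
      (Measure.pi (fun _ : Fin m => site μ)) := by
    refine Integrable.const_mul ?_ _
    refine (integrable_const _).add (integrable_finsetSum _ fun i _ => ?_)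
    exact ((measurePreserving_eval (fun _ : Fin m => site μ) i).integrable_comp
      (int_site μ hμ).aestronglyMeasurable).2 (int_site μ hμ)
  refine h1.mono' (hX.comp (T_meas lam hlm)).aestronglyMeasurable (ae_of_all _ fun z => ?_)
  rw [Real.norm_eq_abs]
  refine (hB _).trans (mul_le_mul_of_nonneg_left ?_ hB0)
  have := Finset.sum_le_sum (s := univ) fun i (_ : i ∈ univ) =>
    mv_abs (lam (fun l => (z l).1) i) (z i).1 (z i).2.1 (z i).2.2
  unfold T
  linarith

lemma int_expX {m : ℕ} (μ : Measure ℝ) [IsProbabilityMeasure μ] (hμ : ExpMom μ)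
    (X : (Fin m → ℝ) → ℝ) (hX : Measurable X) {B C : ℝ}
    (hB : ∀ ω, |X ω| ≤ C + B * ∑ i, |ω i|) :
    Integrable (fun ω => Real.exp (X ω)) (Measure.pi (fun _ : Fin m => μ)) := by
  have h1 : Integrable (fun v : Fin m → ℝ => Real.exp C * ∏ i, Real.exp (B * |v i|))
      (Measure.pi fun _ => μ) := by
    refine Integrable.const_mul ?_ _
    exact Integrable.fintype_prod (fun i => hμ.abs B)
  refine h1.mono' (Real.measurable_exp.comp hX).aestronglyMeasurable (ae_of_all _ fun v => ?_)
  rw [Real.norm_eq_abs, abs_of_pos (Real.exp_pos _), ← Real.exp_sum, ← Real.exp_add]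
  apply Real.exp_le_exp.2
  rw [← Finset.mul_sum]
  exact (le_abs_self _).trans (hB v)

lemma cons_meas {m : ℕ} (t : ℝ) : Measurable fun r : Fin m → ℝ => (Fin.cons t r : Fin (m + 1) → ℝ) := by
  rw [measurable_pi_iff]
  intro i
  refine Fin.cases ?_ (fun j => ?_) i
  · simp only [Fin.cons_zero]
    exact measurable_const
  · simp only [Fin.cons_succ]
    exact measurable_pi_apply j

lemma cons_meas' {m : ℕ} :
    Measurable fun p : ℝ × (Fin m → ℝ) => (Fin.cons p.1 p.2 : Fin (m + 1) → ℝ) := by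
  rw [measurable_pi_iff]
  intro i
  refine Fin.cases ?_ (fun j => ?_) i
  · simp only [Fin.cons_zero]
    exact measurable_fst
  · simp only [Fin.cons_succ]
    exact (measurable_pi_apply j).comp measurable_snd

/-- the free energy of the remaining sites -/
def Psi {m : ℕ} (μ : Measure ℝ) (X : (Fin (m + 1) → ℝ) → ℝ) (t : ℝ) : ℝ :=
  Real.log (∫ r, Real.exp (X (Fin.cons t r)) ∂Measure.pi (fun _ : Fin m => μ))

lemma Psi_meas {m : ℕ} (μ : Measure ℝ) [IsProbabilityMeasure μ] (X : (Fin (m + 1) → ℝ) → ℝ)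
    (hX : Measurable X) : Measurable (Psi μ X) := by
  unfold Psi
  refine Real.measurable_log.comp ?_
  have h : StronglyMeasurable fun p : ℝ × (Fin m → ℝ) => Real.exp (X (Fin.cons p.1 p.2)) :=
    (Real.measurable_exp.comp (hX.comp cons_meas')).stronglyMeasurable
  exact (h.integral_prod_right (ν := Measure.pi (fun _ : Fin m => μ))).measurable

lemma sum_cons {m : ℕ} (t : ℝ) (r : Fin m → ℝ) :
    ∑ i, |(Fin.cons t r : Fin (m + 1) → ℝ) i| = |t| + ∑ i, |r i| := by
  rw [Fin.sum_univ_succ]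
  simp

lemma Psi_bound {m : ℕ} (μ : Measure ℝ) [IsProbabilityMeasure μ] (hμ : ExpMom μ)
    (X : (Fin (m + 1) → ℝ) → ℝ) (hX : Measurable X) {B : ℝ} (hB0 : 0 ≤ B)
    (hB : ∀ ω, |X ω| ≤ B * (1 + ∑ i, |ω i|)) :
    ∃ B' : ℝ, 0 ≤ B' ∧ ∀ t, |Psi μ X t| ≤ B' * (1 + |t|) := by
  have iP : Integrable (fun r : Fin m → ℝ => Real.exp (B * ∑ i, |r i|))
      (Measure.pi fun _ : Fin m => μ) := by
    refine int_expX (B := |B|) (C := 0) μ hμ _ (by fun_prop) fun ω => ?_
    rw [abs_mul, abs_of_nonneg (Finset.sum_nonneg fun i _ => abs_nonneg (ω i)), zero_add]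
  have iM : Integrable (fun r : Fin m → ℝ => Real.exp (-(B * ∑ i, |r i|)))
      (Measure.pi fun _ : Fin m => μ) := by
    refine int_expX (B := |B|) (C := 0) μ hμ _ (by fun_prop) fun ω => ?_
    rw [abs_neg, abs_mul, abs_of_nonneg (Finset.sum_nonneg fun i _ => abs_nonneg (ω i)), zero_add]
  set A1 := Real.log (∫ r : Fin m → ℝ, Real.exp (B * ∑ i, |r i|) ∂(Measure.pi fun _ : Fin m => μ))
    with hA1
  set A2 := Real.log (∫ r : Fin m → ℝ, Real.exp (-(B * ∑ i, |r i|))
    ∂(Measure.pi fun _ : Fin m => μ)) with hA2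
  refine ⟨B + |A1| + |A2|, by positivity, fun t => ?_⟩
  have hX' : ∀ r : Fin m → ℝ, |X (Fin.cons t r)| ≤ B * (1 + |t|) + B * ∑ i, |r i| := by
    intro r
    have := hB (Fin.cons t r)
    rw [sum_cons] at this
    linarith
  have iX : Integrable (fun r : Fin m → ℝ => Real.exp (X (Fin.cons t r)))
      (Measure.pi fun _ : Fin m => μ) :=
    int_expX μ hμ (fun r => X (Fin.cons t r)) (hX.comp (cons_meas t)) hX'
  have h1 : Psi μ X t ≤ B * (1 + |t|) + A1 := by
    have h2 : ∫ r, Real.exp (X (Fin.cons t r)) ∂(Measure.pi fun _ : Fin m => μ) ≤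
        Real.exp (B * (1 + |t|)) * ∫ r : Fin m → ℝ, Real.exp (B * ∑ i, |r i|)
          ∂(Measure.pi fun _ : Fin m => μ) := by
      rw [← integral_const_mul]
      refine integral_mono iX (iP.const_mul _) fun r => ?_
      simp only
      rw [← Real.exp_add]
      exact Real.exp_le_exp.2 ((le_abs_self _).trans (hX' r))
    have h3 := Real.log_le_log (integral_exp_pos iX) h2
    rw [Real.log_mul (Real.exp_pos _).ne' (integral_exp_pos iP).ne', Real.log_exp] at h3
    exact h3
  have h4 : -(B * (1 + |t|)) + A2 ≤ Psi μ X t := by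
    have h2 : Real.exp (-(B * (1 + |t|))) * ∫ r : Fin m → ℝ, Real.exp (-(B * ∑ i, |r i|))
          ∂(Measure.pi fun _ : Fin m => μ) ≤
        ∫ r, Real.exp (X (Fin.cons t r)) ∂(Measure.pi fun _ : Fin m => μ) := by
      rw [← integral_const_mul]
      refine integral_mono (iM.const_mul _) iX fun r => ?_
      simp only
      rw [← Real.exp_add]
      refine Real.exp_le_exp.2 ?_
      have := (abs_le.1 (hX' r)).1
      linarith
    have h3 := Real.log_le_log (mul_pos (Real.exp_pos _) (integral_exp_pos iM)) h2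
    rw [Real.log_mul (Real.exp_pos _).ne' (integral_exp_pos iM).ne', Real.log_exp] at h3
    exact h3
  have ht := abs_nonneg t
  have h5 := le_abs_self A1
  have h6 := neg_abs_le A2
  have h7 : |A1| + |A2| ≤ (|A1| + |A2|) * (1 + |t|) := by
    nlinarith [abs_nonneg A1, abs_nonneg A2, mul_nonneg (abs_nonneg A1) ht,
      mul_nonneg (abs_nonneg A2) ht]
  have h8 := abs_nonneg A1
  have h9 := abs_nonneg A2
  rw [abs_le]
  constructor
  · nlinarith
  · nlinarith

end V2

theorem adapt_fin (μ : Measure ℝ) [IsProbabilityMeasure μ] (hμ : ExpMom μ) (m : ℕ)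
    (X : (Fin m → ℝ) → ℝ) (hX : Measurable X) {B : ℝ} (hB : ∀ ω, |X ω| ≤ B * (1 + ∑ i, |ω i|))
    (lam : (Fin m → ℝ) → Fin m → ℝ) (hlm : ∀ i, Measurable fun ω => lam ω i)
    (hl0 : ∀ ω i, 0 ≤ lam ω i) (hl1 : ∀ ω i, lam ω i ≤ 1)
    (hdep : ∀ (i : Fin m) (ω ω' : Fin m → ℝ), (∀ l, l < i → ω l = ω' l) → lam ω i = lam ω' i) :
    ∫ z, X (fun i => mv (lam (fun l => (z l).1) i) (z i).1 (z i).2.1 (z i).2.2)
        ∂Measure.pi (fun _ : Fin m => site μ) -
      ∑ i, ∫ ω, lam ω i ^ 2 ∂Measure.pi (fun _ : Fin m => μ) ≤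
    Real.log (∫ ω, Real.exp (X ω) ∂Measure.pi (fun _ : Fin m => μ)) := by
  induction m generalizing B with
  | zero =>
    have h1 : ∀ f : Fin 0 → ℝ, X f = X default := fun f => congrArg X (Subsingleton.elim _ _)
    simp only [h1]
    simp
  | succ m ih =>
    have hB0 : 0 ≤ B := by
      have := (abs_nonneg _).trans (hB 0)
      simpa using this
    obtain ⟨B', hB'0, hB'⟩ := V2.Psi_bound μ hμ X hX hB0 hB
    -- the first displacement
    set l0 : ℝ := lam (fun _ => 0) 0 with hl
    have hlam0 : ∀ ω, lam ω 0 = l0 := fun ω => hdep 0 _ _ fun l hl => absurd hl (Fin.not_lt_zero l)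
    have hg := one_gibbs μ hμ (hl0 _ 0) (hl1 (fun _ => 0) 0) (V2.Psi μ X) (V2.Psi_meas μ X hX) hB'
    rw [← hl] at hg
    -- the right side
    have iE : Integrable (fun ω => Real.exp (X ω)) (Measure.pi (fun _ : Fin (m + 1) => μ)) :=
      V2.int_expX (B := B) (C := B) μ hμ X hX fun ω => by linarith [hB ω]
    obtain ⟨e1, _, _⟩ := V2.int_cons μ m _ iE
    have iEt : ∀ t : ℝ, Integrable (fun r : Fin m → ℝ => Real.exp (X (Fin.cons t r)))
        (Measure.pi (fun _ : Fin m => μ)) := fun t =>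
      V2.int_expX (B := B) (C := B * (1 + |t|)) μ hμ _ (hX.comp (V2.cons_meas t)) fun r => by
        have := hB (Fin.cons t r)
        rw [V2.sum_cons] at this
        linarith
    have e2 : ∫ x, Real.exp (V2.Psi μ X x) ∂μ =
        ∫ ω, Real.exp (X ω) ∂Measure.pi (fun _ : Fin (m + 1) => μ) := by
      rw [e1]
      refine integral_congr_ae (ae_of_all _ fun x => ?_)
      simp only [V2.Psi]
      exact Real.exp_log (integral_exp_pos (iEt x))
    rw [e2] at hg
    refine le_trans ?_ hg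
    -- the left side
    have iXT := V2.int_XT μ hμ X hX hB0 hB lam hlm
    obtain ⟨e3, e4, _⟩ := V2.int_cons (site μ) m _ iXT
    have e5 : ∫ z, X (fun i => mv (lam (fun l => (z l).1) i) (z i).1 (z i).2.1 (z i).2.2)
        ∂Measure.pi (fun _ : Fin (m + 1) => site μ) =
        ∫ z0, ∫ r, X (V2.T lam (Fin.cons z0 r)) ∂Measure.pi (fun _ : Fin m => site μ) ∂site μ := e3
    rw [e5]
    have iL : ∀ i : Fin m, Integrable (fun ω : Fin (m + 1) → ℝ => lam ω i.succ ^ 2)
        (Measure.pi (fun _ : Fin (m + 1) => μ)) := by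
      intro i
      refine Integrable.of_bound (C := 1) ((hlm i.succ).pow_const 2).aestronglyMeasurable
        (ae_of_all _ fun v => ?_)
      rw [Real.norm_eq_abs, abs_of_nonneg (sq_nonneg _)]
      exact pow_le_one₀ (hl0 _ _) (hl1 _ _)
    have e6 : ∑ i, ∫ ω, lam ω i ^ 2 ∂Measure.pi (fun _ : Fin (m + 1) => μ) = l0 ^ 2 +
        ∫ z0 : ℝ × ℝ × ℝ, ∑ i : Fin m, ∫ r : Fin m → ℝ, lam (Fin.cons z0.1 r) i.succ ^ 2
          ∂Measure.pi (fun _ : Fin m => μ) ∂site μ := by
      rw [Fin.sum_univ_succ]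
      congr 1
      · simp only [hlam0]
        simp
      · have hi : ∀ i : Fin m, Integrable (fun x0 : ℝ => ∫ r : Fin m → ℝ,
            lam (Fin.cons x0 r) i.succ ^ 2 ∂Measure.pi (fun _ : Fin m => μ)) μ :=
          fun i => (V2.int_cons μ m _ (iL i)).2.1
        have hs : Integrable (fun x0 : ℝ => ∑ i : Fin m, ∫ r : Fin m → ℝ,
            lam (Fin.cons x0 r) i.succ ^ 2 ∂Measure.pi (fun _ : Fin m => μ)) μ :=
          integrable_finsetSum _ fun i _ => hi i
        have e7 : ∫ z0 : ℝ × ℝ × ℝ, ∑ i : Fin m, ∫ r : Fin m → ℝ, lam (Fin.cons z0.1 r) i.succ ^ 2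
            ∂Measure.pi (fun _ : Fin m => μ) ∂site μ = ∫ x0 : ℝ, ∑ i : Fin m, ∫ r : Fin m → ℝ,
            lam (Fin.cons x0 r) i.succ ^ 2 ∂Measure.pi (fun _ : Fin m => μ) ∂μ := by
          have hm := V2.site_fst μ
          have hmm : AEStronglyMeasurable (fun x0 : ℝ => ∑ i : Fin m, ∫ r : Fin m → ℝ,
              lam (Fin.cons x0 r) i.succ ^ 2 ∂Measure.pi (fun _ : Fin m => μ))
              (Measure.map (fun z : ℝ × ℝ × ℝ => z.1) (site μ)) := by
            rw [hm.map_eq]
            exact hs.aestronglyMeasurable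
          rw [← integral_map hm.measurable.aemeasurable hmm, hm.map_eq]
        rw [e7, integral_finsetSum _ fun i _ => hi i]
        exact Finset.sum_congr rfl fun i _ => (V2.int_cons μ m _ (iL i)).1
    rw [e6]
    have iS : Integrable (fun z0 : ℝ × ℝ × ℝ => ∑ i : Fin m, ∫ r : Fin m → ℝ,
        lam (Fin.cons z0.1 r) i.succ ^ 2 ∂Measure.pi (fun _ : Fin m => μ)) (site μ) := by
      have hs : Integrable (fun x0 : ℝ => ∑ i : Fin m, ∫ r : Fin m → ℝ,
            lam (Fin.cons x0 r) i.succ ^ 2 ∂Measure.pi (fun _ : Fin m => μ)) μ :=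
          integrable_finsetSum _ fun i _ => (V2.int_cons μ m _ (iL i)).2.1
      exact ((V2.site_fst μ).integrable_comp hs.aestronglyMeasurable).2 hs
    have iPsi : Integrable (fun z : ℝ × ℝ × ℝ => V2.Psi μ X (mv l0 z.1 z.2.1 z.2.2)) (site μ) := by
      have h1 : Integrable (fun z : ℝ × ℝ × ℝ => B' * (1 + (|z.1| + |z.2.1|))) (site μ) :=
        ((integrable_const _).add (V2.int_site μ hμ)).const_mul _
      refine h1.mono' ((V2.Psi_meas μ X hX).comp (V2.mv_meas measurable_const (by fun_prop)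
        (by fun_prop) (by fun_prop))).aestronglyMeasurable (ae_of_all _ fun z => ?_)
      rw [Real.norm_eq_abs]
      refine (hB' _).trans (mul_le_mul_of_nonneg_left ?_ hB'0)
      linarith [V2.mv_abs l0 z.1 z.2.1 z.2.2]
    have hmain : ∀ z0 : ℝ × ℝ × ℝ,
        ∫ r, X (V2.T lam (Fin.cons z0 r)) ∂Measure.pi (fun _ : Fin m => site μ) -
          ∑ i : Fin m, ∫ r : Fin m → ℝ, lam (Fin.cons z0.1 r) i.succ ^ 2
            ∂Measure.pi (fun _ : Fin m => μ) ≤ V2.Psi μ X (mv l0 z0.1 z0.2.1 z0.2.2) := by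
      intro z0
      set t : ℝ := mv l0 z0.1 z0.2.1 z0.2.2 with ht
      have h1 := ih (fun r => X (Fin.cons t r)) (hX.comp (V2.cons_meas t))
        (B := B * (1 + |t|)) (fun r => by
          have h2 := hB (Fin.cons t r)
          rw [V2.sum_cons] at h2
          refine h2.trans ?_
          rw [mul_assoc]
          refine mul_le_mul_of_nonneg_left ?_ hB0
          nlinarith [mul_nonneg (abs_nonneg t)
            (Finset.sum_nonneg fun i (_ : i ∈ (univ : Finset (Fin m))) => abs_nonneg (r i))])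
        (fun r i => lam (Fin.cons z0.1 r) i.succ)
        (fun i => (hlm i.succ).comp (V2.cons_meas z0.1))
        (fun r i => hl0 _ _) (fun r i => hl1 _ _)
        (fun i ω ω' h => hdep _ _ _ fun l hl => by
          refine Fin.cases (fun _ => ?_) (fun j hj => ?_) l hl
          · simp
          · simp only [Fin.cons_succ]
            exact h j (Fin.succ_lt_succ_iff.1 hj))
      refine le_trans (le_of_eq ?_) h1
      congr 1
      refine integral_congr_ae (ae_of_all _ fun r => ?_)
      simp only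
      congr 1
      funext i
      have hfst : (fun l => ((Fin.cons z0 r : Fin (m + 1) → ℝ × ℝ × ℝ) l).1) =
          (Fin.cons z0.1 (fun l => (r l).1) : Fin (m + 1) → ℝ) := by
        funext l
        refine Fin.cases ?_ (fun j => ?_) l
        · simp
        · simp
      unfold V2.T
      rw [hfst]
      refine Fin.cases ?_ (fun j => ?_) i
      · simp only [Fin.cons_zero, hlam0]
        exact ht.symm
      · simp only [Fin.cons_succ]
    have hfin := integral_mono (e4.sub iS) iPsi hmain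
    have hsub := integral_sub e4 iS
    simp only [Pi.sub_apply] at hfin hsub
    rw [hsub] at hfin
    linarith

end

end Pool.Agent.OT
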