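import Mathlib
import Pool.Agent.Lib.MP_daa227_pr_OT.Defs
import Pool.Agent.Lib.MP_daa227_pr_OT.Sup
import Pool.Agent.Lib.MP_daa227_pr_OT.Strict

/-!
# PROJECT OT: the annealed bound
-/

namespace Pool.Agent.OT

open MeasureTheory ProbabilityTheory Finset Filter Topology
open MP_daa227_pr (Chain Zk Zf K0 shift seqLaw ExpMom)

noncomputable section

theorem ann_le {a b : ℕ → ℝ} (hK : KerOK a b) (μ : Measure ℝ) [IsProbabilityMeasure μ]
    (hμ : ExpMom μ) (β : ℝ) (n : ℕ) :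
    ∫ ω, Real.log (Zr a b n (en β (lmg μ β) ω)) ∂seqLaw μ ≤ 0 := by
  refine X1.log_Zr hK hμ β _ one_pos le_rfl (fun n => ?_) n
  have hq : X1.qq μ β (lmg μ β) 1 = 1 := by rw [X1.qq_eq hμ]; simp
  rw [hq]
  simp only [Real.rpow_one, one_pow, mul_one]
  exact SupAux.sum_le_one hK n

end

end Pool.Agent.OT
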