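import Mathlib
import Pool.Agent.Lib.MP_daa227_pr_OT.Defs
import Pool.Agent.Lib.MP_daa227_pr_OT.Strict

/-!
# Module W3: the annealed partition function below the annealed critical point
-/

set_option autoImplicit false

namespace Pool.Agent.OT

open MeasureTheory ProbabilityTheory Finset Filter Topology
open MP_daa227_pr (Chain Zk Zf K0 shift seqLaw ExpMom)

noncomputable section

namespace W3

theorem gW_nonneg {a b : ℕ → ℝ} (h1 : ∀ k, 0 ≤ a k) (h2 : ∀ k, 0 ≤ b k) (k : ℕ)
    (θ : ℕ → ℝ) : 0 ≤ gW a b k θ := by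
  unfold gW
  exact add_nonneg (mul_nonneg (h1 k) (Real.exp_pos _).le) (mul_nonneg (h2 k) (Real.exp_pos _).le)

theorem Zr_nonneg {a b : ℕ → ℝ} (h1 : ∀ k, 0 ≤ a k) (h2 : ∀ k, 0 ≤ b k) (n : ℕ) :
    ∀ θ : ℕ → ℝ, 0 ≤ Zr a b n θ := by
  induction n using Nat.strong_induction_on with
  | _ n ih =>
    intro θ
    cases n with
    | zero => rw [D.Zr_zero]; exact zero_le_one
    | succ n =>
      rw [D.Zr_succ]
      exact Finset.sum_nonneg fun k _ =>
        mul_nonneg (gW_nonneg h1 h2 _ _) (ih (n - k) (by omega) _)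

theorem gW_zero (a b : ℕ → ℝ) (k : ℕ) : gW a b k (fun _ => 0) = a k + b k := by
  unfold gW
  simp

theorem Zr_succ_zero (a b : ℕ → ℝ) (n : ℕ) : Zr a b (n + 1) (fun _ => 0) =
    ∑ k ∈ range (n + 1), (a (k + 1) + b (k + 1)) * Zr a b (n - k) (fun _ => 0) := by
  rw [D.Zr_succ]
  refine Finset.sum_congr rfl fun k _ => ?_
  rw [gW_zero]
  rfl

end W3

theorem mom_ann {a₁ b₁ : ℕ → ℝ} (h1 : ∀ k, 0 ≤ a₁ k) (h2 : ∀ k, 0 ≤ b₁ k) (μ : Measure ℝ)
    [IsProbabilityMeasure μ] (hμ : ExpMom μ) (β : ℝ) {δ : ℝ} (hδ : 0 ≤ δ) (n : ℕ) :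
    MP_daa227_pr.mom μ 1 (fun ω => Zr a₁ b₁ n (en β (lmg μ β - δ) ω)) ≤
      ENNReal.ofReal (Real.exp (2 * n * δ) * Zr a₁ b₁ n (fun _ => 0)) := by
  have hq : X1.qq μ β (lmg μ β - δ) 1 = Real.exp δ := by
    rw [X1.qq_eq hμ, one_mul, one_mul]
    congr 1
    ring
  induction n using Nat.strong_induction_on with
  | _ n ih =>
    cases n with
    | zero =>
      simp only [D.Zr_zero, MP_daa227_pr.mom_const, ENNReal.ofReal_one, ENNReal.one_rpow,
        Nat.cast_zero, mul_zero, zero_mul, Real.exp_zero, mul_one, le_refl]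
    | succ n =>
      have e1 : ∀ ω : ℕ → ℝ, Zr a₁ b₁ (n + 1) (en β (lmg μ β - δ) ω) =
          ∑ k ∈ range (n + 1), gW a₁ b₁ (k + 1) (en β (lmg μ β - δ) ω) *
            (fun ω => Zr a₁ b₁ (n - k) (en β (lmg μ β - δ) ω)) (shift (2 * (k + 1)) ω) := by
        intro ω
        rw [D.Zr_succ]
        simp only [X1.shift_en]
      rw [MP_daa227_pr.mom_congr e1]
      refine (MP_daa227_pr.mom_sum_le one_pos le_rfl _ ?_ ?_).trans ?_
      · intro k _
        exact (X1.meas_gW a₁ b₁ _ β _).mul ((X1.meas_Zr a₁ b₁ β _ _).comp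
          (MP_daa227_pr.measurable_shift _))
      · intro k _ ω
        exact mul_nonneg (W3.gW_nonneg h1 h2 _ _) (W3.Zr_nonneg h1 h2 _ _)
      have e2 : ∀ k ∈ range (n + 1),
          MP_daa227_pr.mom μ 1 (fun ω => gW a₁ b₁ (k + 1) (en β (lmg μ β - δ) ω) *
            (fun ω => Zr a₁ b₁ (n - k) (en β (lmg μ β - δ) ω)) (shift (2 * (k + 1)) ω)) ≤
          ENNReal.ofReal (Real.exp (2 * (n + 1 : ℕ) * δ) *
            ((a₁ (k + 1) + b₁ (k + 1)) * Zr a₁ b₁ (n - k) (fun _ => 0))) := by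
        intro k hk
        have hkn : k ≤ n := Nat.lt_succ_iff.1 (mem_range.1 hk)
        rw [MP_daa227_pr.mom_mul_shift zero_le_one
          (F := fun ω => gW a₁ b₁ (k + 1) (en β (lmg μ β - δ) ω))
          (G := fun ω => Zr a₁ b₁ (n - k) (en β (lmg μ β - δ) ω)) (X1.meas_gW a₁ b₁ _ β _)
          (X1.meas_Zr a₁ b₁ β _ _) ?_ (fun ω => W3.gW_nonneg h1 h2 _ _)]
        · refine (mul_le_mul' (X1.mom_gW hμ β _ one_pos le_rfl (h1 _) (h2 _))
            (ih (n - k) (by omega))).trans ?_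
          rw [hq, Real.rpow_one, Real.rpow_one]
          have hZ := W3.Zr_nonneg h1 h2 (n - k) (fun _ => 0)
          have ha := h1 (k + 1)
          have hb := h2 (k + 1)
          rw [← ENNReal.ofReal_mul (add_nonneg (mul_nonneg ha (Real.exp_pos _).le)
            (mul_nonneg hb (pow_nonneg (Real.exp_pos _).le _)))]
          refine ENNReal.ofReal_le_ofReal ?_
          have hE : Real.exp δ ^ (2 * (k + 1)) = Real.exp (2 * ((k : ℝ) + 1) * δ) := by
            rw [← Real.exp_nat_mul]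
            congr 1
            push_cast
            ring
          have h3 : a₁ (k + 1) * Real.exp δ + b₁ (k + 1) * Real.exp δ ^ (2 * (k + 1)) ≤
              Real.exp (2 * ((k : ℝ) + 1) * δ) * (a₁ (k + 1) + b₁ (k + 1)) := by
            rw [hE]
            have h4 : Real.exp δ ≤ Real.exp (2 * ((k : ℝ) + 1) * δ) := by
              apply Real.exp_le_exp.2
              have : (0 : ℝ) ≤ k := Nat.cast_nonneg k
              nlinarith [mul_nonneg this hδ]
            nlinarith [mul_le_mul_of_nonneg_left h4 ha]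
          have hcast : ((n - k : ℕ) : ℝ) = (n : ℝ) - k := by
            push_cast [Nat.cast_sub hkn]
            ring
          calc (a₁ (k + 1) * Real.exp δ + b₁ (k + 1) * Real.exp δ ^ (2 * (k + 1))) *
                (Real.exp (2 * ((n - k : ℕ) : ℝ) * δ) * Zr a₁ b₁ (n - k) fun _ => 0)
              ≤ (Real.exp (2 * ((k : ℝ) + 1) * δ) * (a₁ (k + 1) + b₁ (k + 1))) *
                (Real.exp (2 * ((n - k : ℕ) : ℝ) * δ) * Zr a₁ b₁ (n - k) fun _ => 0) :=
                mul_le_mul_of_nonneg_right h3 (mul_nonneg (Real.exp_pos _).le hZ)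
            _ = Real.exp (2 * (n + 1 : ℕ) * δ) *
                ((a₁ (k + 1) + b₁ (k + 1)) * Zr a₁ b₁ (n - k) (fun _ => 0)) := by
                have : Real.exp (2 * (n + 1 : ℕ) * δ) = Real.exp (2 * ((k : ℝ) + 1) * δ) *
                    Real.exp (2 * ((n - k : ℕ) : ℝ) * δ) := by
                  rw [← Real.exp_add, hcast]
                  congr 1
                  push_cast
                  ring
                rw [this]
                ring
        · intro ω ω' hω
          refine D.gW_congr a₁ b₁ (Nat.succ_pos k) ?_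
          intro i hi
          simp only [en, hω i hi]
      refine (Finset.sum_le_sum e2).trans ?_
      rw [← ENNReal.ofReal_sum_of_nonneg, W3.Zr_succ_zero, Finset.mul_sum]
      intro k _
      exact mul_nonneg (Real.exp_pos _).le (mul_nonneg (add_nonneg (h1 _) (h2 _))
        (W3.Zr_nonneg h1 h2 _ _))

end

end Pool.Agent.OT
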