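import Mathlib
import Pool.Agent.Lib.MP_daa227_pr_OT.Defs

/-!
# Calculus of finite exponential families
-/

namespace Pool.Agent.OT

open MeasureTheory ProbabilityTheory Finset Filter Topology
open MP_daa227_pr (Chain Zk Zf K0 shift seqLaw ExpMom)

noncomputable section

namespace E1

variable {Ω ι : Type*} [Fintype Ω] [Fintype ι]
variable {w : Ω → ℝ} {x : Ω → ι → ℝ}

/-- numerator -/
def num (w : Ω → ℝ) (x : Ω → ι → ℝ) (f : Ω → ℝ) (θ : ι → ℝ) : ℝ :=
  ∑ s, w s * Real.exp (∑ i, θ i * x s i) * f s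

theorem ZE_eq (w : Ω → ℝ) (x : Ω → ι → ℝ) (θ : ι → ℝ) : ZE w x θ = num w x (fun _ => 1) θ := by
  unfold ZE num
  simp

theorem AE_eq (w : Ω → ℝ) (x : Ω → ι → ℝ) (θ : ι → ℝ) (f : Ω → ℝ) :
    AE w x θ f = num w x f θ / ZE w x θ := rfl

theorem num_fderiv (w : Ω → ℝ) (x : Ω → ι → ℝ) (f : Ω → ℝ) (θ : ι → ℝ) :
    HasFDerivAt (num w x f)
      (∑ j, num w x (fun s => f s * x s j) θ •
        ContinuousLinearMap.proj (R := ℝ) (φ := fun _ : ι => ℝ) j) θ := by
  have h1 : ∀ s : Ω, HasFDerivAt (fun θ : ι → ℝ => ∑ i, θ i * x s i)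
      (∑ i, x s i • ContinuousLinearMap.proj (R := ℝ) (φ := fun _ : ι => ℝ) i) θ := by
    intro s
    refine HasFDerivAt.fun_sum fun i _ => ?_
    exact (ContinuousLinearMap.proj (R := ℝ) (φ := fun _ : ι => ℝ) i).hasFDerivAt.mul_const (x s i)
  have h2 : HasFDerivAt (fun θ : ι → ℝ => ∑ s, w s * Real.exp (∑ i, θ i * x s i) * f s)
      (∑ s, f s • (w s • (Real.exp (∑ i, θ i * x s i) •
        (∑ i, x s i • ContinuousLinearMap.proj (R := ℝ) (φ := fun _ : ι => ℝ) i)))) θ := by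
    refine HasFDerivAt.fun_sum fun s _ => ?_
    exact ((h1 s).exp.const_mul (w s)).mul_const (f s)
  have h3 : (∑ s, f s • (w s • (Real.exp (∑ i, θ i * x s i) •
        (∑ i, x s i • ContinuousLinearMap.proj (R := ℝ) (φ := fun _ : ι => ℝ) i))))
      = (∑ j, num w x (fun s => f s * x s j) θ •
        ContinuousLinearMap.proj (R := ℝ) (φ := fun _ : ι => ℝ) j) := by
    ext v
    simp only [num, ContinuousLinearMap.coe_sum', ContinuousLinearMap.coe_smul', Finset.sum_apply,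
      Pi.smul_apply, ContinuousLinearMap.proj_apply, smul_eq_mul, Finset.mul_sum, Finset.sum_mul]
    rw [Finset.sum_comm]
    refine Finset.sum_congr rfl fun j _ => Finset.sum_congr rfl fun s _ => ?_
    ring
  rw [← h3]
  exact h2

theorem ZE_fderiv (w : Ω → ℝ) (x : Ω → ι → ℝ) (θ : ι → ℝ) :
    HasFDerivAt (ZE w x)
      (∑ j, num w x (fun s => x s j) θ •
        ContinuousLinearMap.proj (R := ℝ) (φ := fun _ : ι => ℝ) j) θ := by
  have h := num_fderiv w x (fun _ => 1) θ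
  have e : num w x (fun _ => 1) = ZE w x := funext fun θ => (ZE_eq w x θ).symm
  rw [e] at h
  simpa only [one_mul] using h

theorem num_cont (w : Ω → ℝ) (x : Ω → ι → ℝ) (f : Ω → ℝ) : Continuous (num w x f) :=
  continuous_iff_continuousAt.2 fun θ => (num_fderiv w x f θ).continuousAt

theorem ZE_cont (w : Ω → ℝ) (x : Ω → ι → ℝ) : Continuous (ZE w x) :=
  continuous_iff_continuousAt.2 fun θ => (ZE_fderiv w x θ).continuousAt

theorem ZE_pos' (hw : ∀ s, 0 ≤ w s) (hw' : ∃ s, 0 < w s) (θ : ι → ℝ) : 0 < ZE w x θ := by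
  obtain ⟨s, hs⟩ := hw'
  unfold ZE
  refine Finset.sum_pos' (fun s _ => mul_nonneg (hw s) (Real.exp_pos _).le) ⟨s, mem_univ _, ?_⟩
  exact mul_pos hs (Real.exp_pos _)

theorem ZE_pos'' (hE : EFam w x) (θ : ι → ℝ) : 0 < ZE w x θ := ZE_pos' hE.w_nonneg hE.w_pos θ

theorem num_mono (hw : ∀ s, 0 ≤ w s) {f g : Ω → ℝ} (h : ∀ s, f s ≤ g s) (θ : ι → ℝ) :
    num w x f θ ≤ num w x g θ :=
  Finset.sum_le_sum fun s _ => mul_le_mul_of_nonneg_left (h s)
    (mul_nonneg (hw s) (Real.exp_pos _).le)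

theorem num_nonneg (hw : ∀ s, 0 ≤ w s) {f : Ω → ℝ} (h : ∀ s, 0 ≤ f s) (θ : ι → ℝ) :
    0 ≤ num w x f θ :=
  Finset.sum_nonneg fun s _ => mul_nonneg (mul_nonneg (hw s) (Real.exp_pos _).le) (h s)

theorem pE_eq (w : Ω → ℝ) (x : Ω → ι → ℝ) (θ : ι → ℝ) (i : ι) :
    pE w x θ i = num w x (fun s => x s i) θ / ZE w x θ := rfl

theorem cE_eq (w : Ω → ℝ) (x : Ω → ι → ℝ) (θ : ι → ℝ) (i j : ι) :
    cE w x θ i j = num w x (fun s => x s i * x s j) θ / ZE w x θ
      - num w x (fun s => x s i) θ / ZE w x θ * (num w x (fun s => x s j) θ / ZE w x θ) := rfl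

end E1

section E1

variable {Ω ι : Type*} [Fintype Ω] [Fintype ι]
variable {w : Ω → ℝ} {x : Ω → ι → ℝ}

theorem ZE_pos (hw : ∀ s, 0 ≤ w s) (hw' : ∃ s, 0 < w s) (θ : ι → ℝ) : 0 < ZE w x θ :=
  E1.ZE_pos' hw hw' θ

theorem pE_nonneg (hE : EFam w x) (θ : ι → ℝ) (i : ι) : 0 ≤ pE w x θ i := by
  rw [E1.pE_eq]
  exact div_nonneg (E1.num_nonneg hE.w_nonneg (fun s => hE.x_nonneg s i) θ) (E1.ZE_pos'' hE θ).le

theorem pE_le_one (hE : EFam w x) (θ : ι → ℝ) (i : ι) : pE w x θ i ≤ 1 := by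
  rw [E1.pE_eq, div_le_one (E1.ZE_pos'' hE θ), E1.ZE_eq]
  exact E1.num_mono hE.w_nonneg (fun s => hE.x_le s i) θ

theorem cE_le (hE : EFam w x) (θ : ι → ℝ) (i j : ι) : cE w x θ i j ≤ pE w x θ i := by
  have h1 := pE_nonneg hE θ i
  have h2 := pE_nonneg hE θ j
  have h3 : E1.num w x (fun s => x s i * x s j) θ / ZE w x θ ≤ pE w x θ i := by
    rw [E1.pE_eq]
    refine div_le_div_of_nonneg_right ?_ (E1.ZE_pos'' hE θ).le
    refine E1.num_mono hE.w_nonneg (fun s => ?_) θ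
    exact mul_le_of_le_one_right (hE.x_nonneg s i) (hE.x_le s j)
  have h4 : cE w x θ i j = E1.num w x (fun s => x s i * x s j) θ / ZE w x θ
    - pE w x θ i * pE w x θ j := rfl
  rw [h4]
  have h5 : 0 ≤ pE w x θ i * pE w x θ j := mul_nonneg h1 h2
  linarith

theorem cE_symm (w : Ω → ℝ) (x : Ω → ι → ℝ) (θ : ι → ℝ) (i j : ι) :
    cE w x θ i j = cE w x θ j i := by
  unfold cE
  rw [mul_comm (pE w x θ i)]
  congr 2
  funext s
  ring

theorem cE_psd (hE : EFam w x) (θ v : ι → ℝ) : 0 ≤ ∑ i, ∑ j, v i * v j * cE w x θ i j := by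
  have hZ := E1.ZE_pos'' hE θ
  obtain ⟨P, hP⟩ : ∃ P : Ω → ℝ, P = fun s => w s * Real.exp (∑ i, θ i * x s i) / ZE w x θ :=
    ⟨_, rfl⟩
  have hP0 : ∀ s, 0 ≤ P s := by
    intro s
    rw [hP]
    exact div_nonneg (mul_nonneg (hE.w_nonneg s) (Real.exp_pos _).le) hZ.le
  have hP1 : ∑ s, P s = 1 := by
    rw [hP, ← Finset.sum_div]
    exact div_self hZ.ne'
  have hA : ∀ f : Ω → ℝ, E1.num w x f θ / ZE w x θ = ∑ s, P s * f s := by
    intro f
    unfold E1.num
    rw [hP, Finset.sum_div]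
    refine Finset.sum_congr rfl fun s _ => ?_
    ring
  obtain ⟨X, hX⟩ : ∃ X : Ω → ℝ, X = fun s => ∑ i, v i * x s i := ⟨_, rfl⟩
  obtain ⟨m, hm⟩ : ∃ m : ℝ, m = ∑ s, P s * X s := ⟨_, rfl⟩
  have e1 : ∑ i, ∑ j, v i * v j * (∑ s, P s * (x s i * x s j)) = ∑ s, P s * X s ^ 2 := by
    have e : ∀ s, P s * X s ^ 2 = ∑ i, ∑ j, v i * v j * (P s * (x s i * x s j)) := by
      intro s
      rw [hX, sq, Finset.sum_mul_sum, Finset.mul_sum]
      refine Finset.sum_congr rfl fun i _ => ?_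
      rw [Finset.mul_sum]
      refine Finset.sum_congr rfl fun j _ => ?_
      ring
    simp only [e, Finset.mul_sum]
    rw [Finset.sum_comm (s := (univ : Finset Ω))]
    refine Finset.sum_congr rfl fun i _ => ?_
    rw [Finset.sum_comm]
  have e2 : ∑ i, ∑ j, v i * v j * ((∑ s, P s * x s i) * (∑ s, P s * x s j)) = m ^ 2 := by
    have e : m = ∑ i, v i * ∑ s, P s * x s i := by
      rw [hm, hX]
      simp only [Finset.mul_sum]
      rw [Finset.sum_comm]
      refine Finset.sum_congr rfl fun i _ => Finset.sum_congr rfl fun s _ => ?_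
      ring
    rw [sq, e, Finset.sum_mul_sum]
    refine Finset.sum_congr rfl fun i _ => Finset.sum_congr rfl fun j _ => ?_
    ring
  have e3 : ∑ i, ∑ j, v i * v j * cE w x θ i j = ∑ s, P s * X s ^ 2 - m ^ 2 := by
    rw [← e1, ← e2, ← Finset.sum_sub_distrib]
    refine Finset.sum_congr rfl fun i _ => ?_
    rw [← Finset.sum_sub_distrib]
    refine Finset.sum_congr rfl fun j _ => ?_
    rw [E1.cE_eq, hA, hA, hA]
    ring
  have e4 : ∑ s, P s * X s ^ 2 - m ^ 2 = ∑ s, P s * (X s - m) ^ 2 := by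
    have e : ∀ s, P s * (X s - m) ^ 2 = P s * X s ^ 2 - 2 * m * (P s * X s) + m ^ 2 * P s := by
      intro s
      ring
    rw [Finset.sum_congr rfl fun s _ => e s, Finset.sum_add_distrib, Finset.sum_sub_distrib,
      ← Finset.mul_sum, ← Finset.mul_sum, hP1, ← hm]
    ring
  rw [e3, e4]
  exact Finset.sum_nonneg fun s _ => mul_nonneg (hP0 s) (sq_nonneg _)

theorem hasFDerivAt_logZE (hE : EFam w x) (θ : ι → ℝ) :
    HasFDerivAt (fun θ => Real.log (ZE w x θ))
      (∑ i, pE w x θ i • ContinuousLinearMap.proj (R := ℝ) (φ := fun _ : ι => ℝ) i) θ := by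
  have h := (E1.ZE_fderiv w x θ).log (E1.ZE_pos'' hE θ).ne'
  have e : (ZE w x θ)⁻¹ • (∑ j, E1.num w x (fun s => x s j) θ •
        ContinuousLinearMap.proj (R := ℝ) (φ := fun _ : ι => ℝ) j) =
      ∑ i, pE w x θ i • ContinuousLinearMap.proj (R := ℝ) (φ := fun _ : ι => ℝ) i := by
    rw [Finset.smul_sum]
    refine Finset.sum_congr rfl fun i _ => ?_
    rw [smul_smul, E1.pE_eq, div_eq_inv_mul]
  rw [← e]
  exact h

theorem hasFDerivAt_pE (hE : EFam w x) (θ : ι → ℝ) (i : ι) :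
    HasFDerivAt (fun θ => pE w x θ i)
      (∑ j, cE w x θ i j • ContinuousLinearMap.proj (R := ℝ) (φ := fun _ : ι => ℝ) j) θ := by
  have hZ := E1.ZE_pos'' hE θ
  have h1 := E1.num_fderiv w x (fun s => x s i) θ
  have h2 := (hasDerivAt_inv hZ.ne').comp_hasFDerivAt θ (E1.ZE_fderiv w x θ)
  have h3 := h1.mul h2
  have e : (fun θ => pE w x θ i) =
      (fun θ => E1.num w x (fun s => x s i) θ * ((fun y : ℝ => y⁻¹) ∘ ZE w x) θ) := by
    funext θ
    rw [E1.pE_eq, div_eq_mul_inv]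
    rfl
  rw [e]
  refine h3.congr_fderiv ?_
  ext v
  simp only [Function.comp_apply, ContinuousLinearMap.add_apply, ContinuousLinearMap.coe_smul',
    ContinuousLinearMap.coe_sum', Finset.sum_apply, Pi.smul_apply,
    ContinuousLinearMap.proj_apply, smul_eq_mul, Finset.mul_sum]
  rw [← Finset.sum_add_distrib]
  refine Finset.sum_congr rfl fun j _ => ?_
  rw [E1.cE_eq]
  field_simp
  ring

theorem continuous_pE (hE : EFam w x) (i : ι) : Continuous fun θ => pE w x θ i := by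
  simp only [E1.pE_eq]
  exact (E1.num_cont _ _ _).div (E1.ZE_cont _ _) fun θ => (E1.ZE_pos'' hE θ).ne'

theorem continuous_cE (hE : EFam w x) (i j : ι) : Continuous fun θ => cE w x θ i j := by
  simp only [E1.cE_eq]
  have h : ∀ f : Ω → ℝ, Continuous fun θ => E1.num w x f θ / ZE w x θ := fun f =>
    (E1.num_cont _ _ _).div (E1.ZE_cont _ _) fun θ => (E1.ZE_pos'' hE θ).ne'
  exact (h _).sub ((h _).mul (h _))

/-- convexity of the logarithm of the partition function -/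
theorem log_tangent (hE : EFam w x) (θ θ' : ι → ℝ) :
    Real.log (ZE w x θ) + ∑ i, (θ' i - θ i) * pE w x θ i ≤ Real.log (ZE w x θ') := by
  have hZ := E1.ZE_pos'' hE θ
  have hZ' := E1.ZE_pos'' hE θ'
  obtain ⟨m, hm⟩ : ∃ m : ℝ, m = ∑ i, (θ' i - θ i) * pE w x θ i := ⟨_, rfl⟩
  rw [← hm]
  have hmean : ∑ s, w s * Real.exp (∑ i, θ i * x s i) * (∑ i, (θ' i - θ i) * x s i) =
      ZE w x θ * m := by
    have e : ∀ i, ZE w x θ * ((θ' i - θ i) * pE w x θ i) =
        ∑ s, w s * Real.exp (∑ i, θ i * x s i) * ((θ' i - θ i) * x s i) := by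
      intro i
      rw [E1.pE_eq]
      unfold E1.num
      rw [mul_div_assoc', mul_div_cancel₀ _ hZ.ne', Finset.mul_sum]
      refine Finset.sum_congr rfl fun s _ => ?_
      ring
    rw [hm, Finset.mul_sum, Finset.sum_congr rfl fun i _ => e i, Finset.sum_comm]
    refine Finset.sum_congr rfl fun s _ => ?_
    rw [Finset.mul_sum]
  have hle : Real.exp m * ZE w x θ ≤ ZE w x θ' := by
    have h1 : ∀ s ∈ (univ : Finset Ω),
        Real.exp m * ((1 - m) * (w s * Real.exp (∑ i, θ i * x s i)) +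
          w s * Real.exp (∑ i, θ i * x s i) * (∑ i, (θ' i - θ i) * x s i)) ≤
        w s * Real.exp (∑ i, θ' i * x s i) := by
      intro s _
      obtain ⟨y, hy⟩ : ∃ y : ℝ, y = ∑ i, (θ' i - θ i) * x s i := ⟨_, rfl⟩
      have e1 : ∑ i, θ' i * x s i = ∑ i, θ i * x s i + y := by
        rw [hy, ← Finset.sum_add_distrib]
        refine Finset.sum_congr rfl fun i _ => ?_
        ring
      rw [← hy, e1, Real.exp_add]
      have h2 : Real.exp m * (1 + y - m) ≤ Real.exp y := by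
        have h3 := Real.add_one_le_exp (y - m)
        have h4 : Real.exp y = Real.exp m * Real.exp (y - m) := by
          rw [← Real.exp_add]
          congr 1
          ring
        rw [h4]
        refine mul_le_mul_of_nonneg_left ?_ (Real.exp_pos m).le
        linarith
      have h5 : 0 ≤ w s * Real.exp (∑ i, θ i * x s i) :=
        mul_nonneg (hE.w_nonneg s) (Real.exp_pos _).le
      have h6 := mul_le_mul_of_nonneg_left h2 h5
      linarith
    have h7 := Finset.sum_le_sum h1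
    rw [← Finset.mul_sum, Finset.sum_add_distrib, hmean, ← Finset.mul_sum] at h7
    have e2 : ∑ s, w s * Real.exp (∑ i, θ i * x s i) = ZE w x θ := rfl
    have e3 : ∑ s, w s * Real.exp (∑ i, θ' i * x s i) = ZE w x θ' := rfl
    rw [e2, e3] at h7
    have e4 : Real.exp m * ((1 - m) * ZE w x θ + ZE w x θ * m) = Real.exp m * ZE w x θ := by ring
    rwa [e4] at h7
  have h8 := Real.log_le_log (by positivity) hle
  rw [Real.log_mul (Real.exp_pos m).ne' hZ.ne', Real.log_exp] at h8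
  linarith

/-- `log Z` is Lipschitz for the `l¹` norm -/
theorem log_lip (hE : EFam w x) (θ θ' : ι → ℝ) :
    |Real.log (ZE w x θ) - Real.log (ZE w x θ')| ≤ ∑ i, |θ i - θ' i| := by
  have key : ∀ θ θ' : ι → ℝ, Real.log (ZE w x θ) - Real.log (ZE w x θ') ≤ ∑ i, |θ i - θ' i| := by
    intro θ θ'
    have h1 := log_tangent hE θ θ'
    have h2 : -∑ i, (θ' i - θ i) * pE w x θ i ≤ ∑ i, |θ i - θ' i| := by
      rw [← Finset.sum_neg_distrib]
      refine Finset.sum_le_sum fun i _ => ?_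
      have h3 := pE_nonneg hE θ i
      have h4 := pE_le_one hE θ i
      have h5 : -((θ' i - θ i) * pE w x θ i) = (θ i - θ' i) * pE w x θ i := by ring
      rw [h5]
      calc (θ i - θ' i) * pE w x θ i ≤ |θ i - θ' i| * pE w x θ i :=
            mul_le_mul_of_nonneg_right (le_abs_self _) h3
        _ ≤ |θ i - θ' i| * 1 := mul_le_mul_of_nonneg_left h4 (abs_nonneg _)
        _ = _ := mul_one _
    linarith
  rw [abs_le]
  constructor
  · have h := key θ' θ
    have e : ∑ i, |θ' i - θ i| = ∑ i, |θ i - θ' i| :=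
      Finset.sum_congr rfl fun i _ => abs_sub_comm _ _
    rw [e] at h
    linarith
  · exact key θ θ'

theorem hasDerivAt_pE (hE : EFam w x) (θ : ι → ℝ) (i : ι) (s : ℝ) :
    HasDerivAt (fun s : ℝ => pE w x (fun i => θ i + s) i)
      (∑ j, cE w x (fun i => θ i + s) i j) s := by
  have h1 := hasFDerivAt_pE hE (fun i => θ i + s) i
  have h2 : HasDerivAt (fun s : ℝ => fun i : ι => θ i + s) (fun _ => 1) s := by
    rw [hasDerivAt_pi]
    intro j
    exact (hasDerivAt_id s).const_add (θ j)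
  have h3 := h1.comp_hasDerivAt s h2
  have e : (∑ j, cE w x (fun i => θ i + s) i j •
      ContinuousLinearMap.proj (R := ℝ) (φ := fun _ : ι => ℝ) j) (fun _ => 1) =
      ∑ j, cE w x (fun i => θ i + s) i j := by
    simp
  rw [e] at h3
  exact h3

/-- local densities increase with the field (positive correlations) -/
theorem pE_mono (hE : EFam w x) (θ : ι → ℝ) (i : ι) {s s' : ℝ} (h : s ≤ s') :
    pE w x (fun i => θ i + s) i ≤ pE w x (fun i => θ i + s') i := by
  have h1 : Monotone (fun s : ℝ => pE w x (fun i => θ i + s) i) := by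
    refine monotone_of_deriv_nonneg (fun s => (hasDerivAt_pE hE θ i s).differentiableAt) fun s => ?_
    rw [(hasDerivAt_pE hE θ i s).deriv]
    exact Finset.sum_nonneg fun j _ => hE.corr _ _ _
  exact h1 h

end E1

end

end Pool.Agent.OT
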