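import Mathlib
import Pool.Agent.Lib.MP_daa227_pr_OT.Defs2
import Pool.Agent.Lib.MP_daa227_pr_OT.EFc

/-!
# OT2, module V4: zero-one exponential families, change of one coordinate.
-/

namespace Pool.Agent.OT

open MeasureTheory ProbabilityTheory Finset Filter Topology
open MP_daa227_pr (Chain Zk Zf K0 shift seqLaw ExpMom)

noncomputable section

namespace V4

variable {Ω ι : Type*} [Fintype Ω] [Fintype ι] [DecidableEq ι] {w : Ω → ℝ} {x : Ω → ι → ℝ}

theorem expo_update (x : Ω → ι → ℝ) (θ : ι → ℝ) (l : ι) (y y' : ℝ) (s : Ω) :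
    ∑ i, Function.update θ l y i * x s i =
      ∑ i, Function.update θ l y' i * x s i + (y - y') * x s l := by
  have h : ∑ i, (Function.update θ l y i * x s i - Function.update θ l y' i * x s i) =
      (y - y') * x s l := by
    rw [Finset.sum_eq_single l]
    · simp only [Function.update_self]
      ring
    · intro i _ hi
      simp [Function.update_of_ne hi]
    · intro h
      exact absurd (mem_univ l) h
  rw [Finset.sum_sub_distrib] at h
  linarith

theorem num_update (w : Ω → ℝ) (x : Ω → ι → ℝ) (f : Ω → ℝ) (θ : ι → ℝ) (l : ι) (y y' : ℝ) :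
    E1.num w x f (Function.update θ l y) =
      E1.num w x (fun s => Real.exp ((y - y') * x s l) * f s) (Function.update θ l y') := by
  unfold E1.num
  refine Finset.sum_congr rfl fun s _ => ?_
  rw [expo_update x θ l y y' s, Real.exp_add]
  ring

theorem num_cmul (w : Ω → ℝ) (x : Ω → ι → ℝ) (f : Ω → ℝ) (c : ℝ) (θ : ι → ℝ) :
    E1.num w x (fun s => c * f s) θ = c * E1.num w x f θ := by
  unfold E1.num
  rw [Finset.mul_sum]
  refine Finset.sum_congr rfl fun s _ => ?_
  ring

theorem num_add (w : Ω → ℝ) (x : Ω → ι → ℝ) (f g : Ω → ℝ) (θ : ι → ℝ) :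
    E1.num w x (fun s => f s + g s) θ = E1.num w x f θ + E1.num w x g θ := by
  unfold E1.num
  rw [← Finset.sum_add_distrib]
  refine Finset.sum_congr rfl fun s _ => ?_
  ring

theorem num_up (hE : EFam w x) {f : Ω → ℝ} (hf : ∀ s, 0 ≤ f s) (θ : ι → ℝ) (l : ι) {y y' : ℝ}
    (h : y' ≤ y) :
    E1.num w x f (Function.update θ l y') ≤ E1.num w x f (Function.update θ l y) ∧
    E1.num w x f (Function.update θ l y) ≤
      Real.exp (y - y') * E1.num w x f (Function.update θ l y') := by
  rw [num_update w x f θ l y y', ← num_cmul]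
  constructor
  · refine E1.num_mono hE.w_nonneg (fun s => ?_) _
    have h1 : 1 ≤ Real.exp ((y - y') * x s l) :=
      Real.one_le_exp (mul_nonneg (by linarith) (hE.x_nonneg s l))
    nlinarith [hf s]
  · refine E1.num_mono hE.w_nonneg (fun s => ?_) _
    refine mul_le_mul_of_nonneg_right (Real.exp_le_exp.2 ?_) (hf s)
    have := hE.x_le s l
    have h3 : 0 ≤ y - y' := by linarith
    nlinarith

/-- numerators and the partition function under a change of one coordinate -/
theorem num_abs (hE : EFam w x) {f : Ω → ℝ} (hf : ∀ s, 0 ≤ f s) (θ : ι → ℝ) (l : ι) (y y' : ℝ) :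
    E1.num w x f (Function.update θ l y) * ZE w x (Function.update θ l y') ≤
      Real.exp |y - y'| * E1.num w x f (Function.update θ l y') *
        ZE w x (Function.update θ l y) := by
  have hN : 0 ≤ E1.num w x f (Function.update θ l y') := E1.num_nonneg hE.w_nonneg hf _
  have hN2 : 0 ≤ E1.num w x f (Function.update θ l y) := E1.num_nonneg hE.w_nonneg hf _
  have hZ := E1.ZE_pos'' hE (Function.update θ l y')
  have hZ2 := E1.ZE_pos'' hE (Function.update θ l y)
  rcases le_total y' y with h | h
  · obtain ⟨_, h2⟩ := num_up hE hf θ l h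
    obtain ⟨h3, _⟩ := num_up (f := fun _ => 1) hE (fun _ => zero_le_one) θ l h
    rw [← E1.ZE_eq, ← E1.ZE_eq] at h3
    rw [abs_of_nonneg (by linarith)]
    exact mul_le_mul h2 h3 hZ.le (mul_nonneg (Real.exp_pos _).le hN)
  · obtain ⟨h1, _⟩ := num_up hE hf θ l h
    obtain ⟨_, h4⟩ := num_up (f := fun _ => 1) hE (fun _ => zero_le_one) θ l h
    rw [← E1.ZE_eq, ← E1.ZE_eq] at h4
    rw [abs_of_nonpos (by linarith), neg_sub]
    calc E1.num w x f (Function.update θ l y) * ZE w x (Function.update θ l y') ≤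
        E1.num w x f (Function.update θ l y') *
          (Real.exp (y' - y) * ZE w x (Function.update θ l y)) :=
          mul_le_mul h1 h4 hZ.le hN
      _ = _ := by ring

end V4

section V4

variable {Ω ι : Type*} [Fintype Ω] [Fintype ι] [DecidableEq ι] {w : Ω → ℝ} {x : Ω → ι → ℝ}

theorem pE_update_le (hE : EFam w x) (h01 : ∀ s i, x s i = 0 ∨ x s i = 1) (θ : ι → ℝ) (i l : ι)
    (y y' : ℝ) : pE w x (Function.update θ l y) i ≤
      Real.exp |y - y'| * pE w x (Function.update θ l y') i := by
  have _ := h01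
  have hZ := E1.ZE_pos'' hE (Function.update θ l y')
  have hZ2 := E1.ZE_pos'' hE (Function.update θ l y)
  rw [E1.pE_eq, E1.pE_eq, ← mul_div_assoc, div_le_div_iff₀ hZ2 hZ]
  exact V4.num_abs hE (fun s => hE.x_nonneg s i) θ l y y'

theorem cE_update_le (hE : EFam w x) (h01 : ∀ s i, x s i = 0 ∨ x s i = 1) (θ : ι → ℝ) (i l : ι)
    (y y' : ℝ) : cE w x (Function.update θ l y) i l ≤
      Real.exp |y - y'| * cE w x (Function.update θ l y') i l := by
  obtain ⟨t, ht⟩ : ∃ t, t = Function.update θ l y := ⟨_, rfl⟩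
  obtain ⟨t', ht'⟩ : ∃ t, t = Function.update θ l y' := ⟨_, rfl⟩
  have hZ := E1.ZE_pos'' hE t
  have hZ' := E1.ZE_pos'' hE t'
  have key : ∀ t : ι → ℝ, cE w x t i l = (E1.num w x (fun s => x s i * x s l) t *
      E1.num w x (fun s => 1 - x s l) t - E1.num w x (fun s => x s i * (1 - x s l)) t *
      E1.num w x (fun s => x s l) t) / ZE w x t ^ 2 := by
    intro t
    have hZt := E1.ZE_pos'' hE t
    have e1 : ZE w x t = E1.num w x (fun s => 1 - x s l) t + E1.num w x (fun s => x s l) t := by
      rw [E1.ZE_eq, ← V4.num_add]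
      congr 1
      funext s
      ring
    have e2 : E1.num w x (fun s => x s i) t = E1.num w x (fun s => x s i * (1 - x s l)) t +
        E1.num w x (fun s => x s i * x s l) t := by
      rw [← V4.num_add]
      congr 1
      funext s
      ring
    rw [E1.cE_eq, e2]
    rw [e1] at hZt ⊢
    field_simp
    ring
  have h1 : ∀ f : Ω → ℝ, E1.num w x (fun s => f s * x s l) t =
      Real.exp (y - y') * E1.num w x (fun s => f s * x s l) t' := by
    intro f
    rw [ht, ht', V4.num_update w x _ θ l y y', ← V4.num_cmul]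
    congr 1
    funext s
    rcases h01 s l with h | h
    · simp [h]
    · simp [h]
  have h0 : ∀ f : Ω → ℝ, E1.num w x (fun s => f s * (1 - x s l)) t =
      E1.num w x (fun s => f s * (1 - x s l)) t' := by
    intro f
    rw [ht, ht', V4.num_update w x _ θ l y y']
    congr 1
    funext s
    rcases h01 s l with h | h
    · simp [h]
    · simp [h]
  have h1' := h1 (fun _ => 1)
  have h0' := h0 (fun _ => 1)
  simp only [one_mul] at h1' h0'
  have hD := key t'
  have hD2 := key t
  rw [h1 (fun s => x s i), h1', h0 (fun s => x s i), h0'] at hD2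
  obtain ⟨D, hDD⟩ : ∃ D, D = E1.num w x (fun s => x s i * x s l) t' *
      E1.num w x (fun s => 1 - x s l) t' - E1.num w x (fun s => x s i * (1 - x s l)) t' *
      E1.num w x (fun s => x s l) t' := ⟨_, rfl⟩
  have hD3 : cE w x t i l = Real.exp (y - y') * D / ZE w x t ^ 2 := by
    rw [hD2, hDD]
    congr 1
    ring
  rw [← hDD] at hD
  have hDn : 0 ≤ D := by
    have := hE.corr t' i l
    rw [hD] at this
    by_contra hneg
    push Not at hneg
    have := div_neg_of_neg_of_pos hneg (pow_pos hZ' 2)
    linarith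
  rw [← ht, ← ht', hD, hD3]
  have hZZ : Real.exp (y - y') * ZE w x t' ^ 2 ≤ Real.exp |y - y'| * ZE w x t ^ 2 := by
    rcases le_total y' y with h | h
    · obtain ⟨h3, _⟩ := V4.num_up (f := fun _ => 1) hE (fun _ => zero_le_one) θ l h
      rw [← E1.ZE_eq, ← E1.ZE_eq, ← ht, ← ht'] at h3
      rw [abs_of_nonneg (by linarith)]
      exact mul_le_mul_of_nonneg_left (pow_le_pow_left₀ hZ'.le h3 2) (Real.exp_pos _).le
    · obtain ⟨_, h4⟩ := V4.num_up (f := fun _ => 1) hE (fun _ => zero_le_one) θ l h
      rw [← E1.ZE_eq, ← E1.ZE_eq, ← ht, ← ht'] at h4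
      rw [abs_of_nonpos (by linarith), neg_sub]
      have h5 := pow_le_pow_left₀ hZ'.le h4 2
      calc Real.exp (y - y') * ZE w x t' ^ 2 ≤
          Real.exp (y - y') * (Real.exp (y' - y) * ZE w x t) ^ 2 :=
            mul_le_mul_of_nonneg_left h5 (Real.exp_pos _).le
        _ = (Real.exp (y - y') * Real.exp (y' - y)) * Real.exp (y' - y) * ZE w x t ^ 2 := by ring
        _ = Real.exp (y' - y) * ZE w x t ^ 2 := by
            rw [← Real.exp_add]
            simp
  rw [← mul_div_assoc, div_le_div_iff₀ (pow_pos hZ 2) (pow_pos hZ' 2)]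
  nlinarith [mul_le_mul_of_nonneg_left hZZ hDn]

/-- a local density is positive for all fields or zero for all fields -/
theorem pE_pos_or (hE : EFam w x) (i : ι) :
    (∀ θ, 0 < pE w x θ i) ∨ (∀ θ, pE w x θ i = 0) := by
  by_cases h : ∃ s, 0 < w s ∧ 0 < x s i
  · left
    intro θ
    obtain ⟨s, hs, hx⟩ := h
    rw [E1.pE_eq]
    refine div_pos ?_ (E1.ZE_pos'' hE θ)
    unfold E1.num
    refine Finset.sum_pos' (fun s _ => mul_nonneg (mul_nonneg (hE.w_nonneg s)
      (Real.exp_pos _).le) (hE.x_nonneg s i)) ⟨s, mem_univ _, ?_⟩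
    exact mul_pos (mul_pos hs (Real.exp_pos _)) hx
  · right
    intro θ
    push Not at h
    rw [E1.pE_eq]
    have : E1.num w x (fun s => x s i) θ = 0 := by
      unfold E1.num
      refine Finset.sum_eq_zero fun s _ => ?_
      rcases (hE.w_nonneg s).lt_or_eq with hs | hs
      · have := h s hs
        have h3 : x s i = 0 := le_antisymm this (hE.x_nonneg s i)
        show w s * Real.exp (∑ i, θ i * x s i) * x s i = 0
        rw [h3, mul_zero]
      · rw [← hs]
        simp
    rw [this, zero_div]

theorem hasDerivAt_logpE (hE : EFam w x) (θ : ι → ℝ) (i l : ι) (h : ∀ θ, 0 < pE w x θ i)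
    (y : ℝ) : HasDerivAt (fun y => Real.log (pE w x (Function.update θ l y) i))
      (cE w x (Function.update θ l y) i l / pE w x (Function.update θ l y) i) y := by
  have h1 := hasFDerivAt_pE hE (Function.update θ l y) i
  have h2 : HasDerivAt (fun y : ℝ => Function.update θ l y) (Pi.single l 1) y := by
    exact hasDerivAt_update θ l y
  have h3 := h1.comp_hasDerivAt y h2
  have h4 : (∑ j, cE w x (Function.update θ l y) i j •
      ContinuousLinearMap.proj (R := ℝ) (φ := fun _ : ι => ℝ) j) (Pi.single l 1) =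
      cE w x (Function.update θ l y) i l := by
    rw [_root_.sum_apply, Finset.sum_eq_single l]
    · simp
    · intro b _ hb
      simp [Pi.single_eq_of_ne hb]
    · intro hl
      exact absurd (mem_univ l) hl
  rw [h4] at h3
  exact h3.log (h _).ne'

/-- coordinatewise monotonicity -/
theorem pE_mono_all (hE : EFam w x) {θ θ' : ι → ℝ} (h : ∀ l, θ l ≤ θ' l) (i : ι) :
    pE w x θ i ≤ pE w x θ' i := by
  have hd : ∀ t : ℝ, HasDerivAt (fun t : ℝ => pE w x (fun l => θ l + t * (θ' l - θ l)) i)
      (∑ j, cE w x (fun l => θ l + t * (θ' l - θ l)) i j * (θ' j - θ j)) t := by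
    intro t
    have h1 := hasFDerivAt_pE hE (fun l => θ l + t * (θ' l - θ l)) i
    have h2 : HasDerivAt (fun t : ℝ => fun l : ι => θ l + t * (θ' l - θ l))
        (fun l => θ' l - θ l) t := by
      rw [hasDerivAt_pi]
      intro j
      have := ((hasDerivAt_id t).mul_const (θ' j - θ j)).const_add (θ j)
      simpa using this
    have h3 := h1.comp_hasDerivAt t h2
    have h4 : (∑ j, cE w x (fun l => θ l + t * (θ' l - θ l)) i j •
        ContinuousLinearMap.proj (R := ℝ) (φ := fun _ : ι => ℝ) j) (fun l => θ' l - θ l) =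
        ∑ j, cE w x (fun l => θ l + t * (θ' l - θ l)) i j * (θ' j - θ j) := by
      rw [_root_.sum_apply]
      rfl
    rw [h4] at h3
    exact h3
  have hm : Monotone (fun t : ℝ => pE w x (fun l => θ l + t * (θ' l - θ l)) i) := by
    refine monotone_of_deriv_nonneg (fun t => (hd t).differentiableAt) fun t => ?_
    rw [(hd t).deriv]
    exact Finset.sum_nonneg fun j _ => mul_nonneg (hE.corr _ _ _) (sub_nonneg.2 (h j))
  have h01 := hm (zero_le_one (α := ℝ))
  simp only [zero_mul, add_zero, one_mul] at h01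
  have e : (fun l => θ l + (θ' l - θ l)) = θ' := by
    funext l
    ring
  rw [e] at h01
  exact h01

/-- comparison of the local density with the one for charge zero -/
theorem pZ_cmp (hE : EFam w x) (h01 : ∀ s i, x s i = 0 ∨ x s i = 1) {β : ℝ} (hβ : 0 < β)
    (f : ι → ℝ) (i : ι) (ω : ι → ℝ) (δ : ℝ) :
    pE w x (fun l => β * ω l + f l + δ) i ≤ Real.exp (β * |ω i|) * pZ w x β f i ω δ ∧
    pZ w x β f i ω δ ≤ Real.exp (β * |ω i|) * pE w x (fun l => β * ω l + f l + δ) i := by
  obtain ⟨θ, hθ⟩ : ∃ θ : ι → ℝ, θ = fun l => β * ω l + f l + δ := ⟨_, rfl⟩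
  have e1 : (fun l => β * ω l + f l + δ) = Function.update θ i (β * ω i + f i + δ) := by
    rw [hθ]
    exact (Function.update_eq_self i (fun l => β * ω l + f l + δ)).symm
  have e2 : (fun l => β * Function.update ω i 0 l + f l + δ) =
      Function.update θ i (f i + δ) := by
    funext l
    by_cases hl : l = i
    · subst hl
      simp
    · rw [Function.update_of_ne hl, Function.update_of_ne hl, hθ]
  have e3 : |β * ω i + f i + δ - (f i + δ)| = β * |ω i| := by
    rw [show β * ω i + f i + δ - (f i + δ) = β * ω i by ring, abs_mul, abs_of_pos hβ]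
  have e4 : |f i + δ - (β * ω i + f i + δ)| = β * |ω i| := by
    rw [abs_sub_comm, e3]
  unfold pZ
  rw [e1, e2]
  constructor
  · have := pE_update_le hE h01 θ i i (β * ω i + f i + δ) (f i + δ)
    rwa [e3] at this
  · have := pE_update_le hE h01 θ i i (f i + δ) (β * ω i + f i + δ)
    rwa [e4] at this

end V4

end

end Pool.Agent.OT
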