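import Mathlib
import Pool.Agent.Lib.MP_daa227_pr_OT.Defs

/-!
# Insertion of a block of charges preserves the law
-/

namespace Pool.Agent.OT

open MeasureTheory ProbabilityTheory Finset Filter Topology
open MP_daa227_pr (Chain Zk Zf K0 shift seqLaw ExpMom)

noncomputable section

namespace I2

/-- the coordinates of two sequences, read along `f` -/
def mix (f : ℕ → ℕ ⊕ ℕ) (q : (ℕ → ℝ) × (ℕ → ℝ)) : ℕ → ℝ := fun i => Sum.elim q.1 q.2 (f i)

theorem measurable_mix (f : ℕ → ℕ ⊕ ℕ) : Measurable (mix f) := by
  rw [measurable_pi_iff]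
  intro i
  unfold mix
  rcases h : f i with n | n
  · simp only [Sum.elim_inl]
    exact (measurable_pi_apply n).comp measurable_fst
  · simp only [Sum.elim_inr]
    exact (measurable_pi_apply n).comp measurable_snd

theorem map_mix (μ : Measure ℝ) [IsProbabilityMeasure μ] (f : ℕ → ℕ ⊕ ℕ)
    (hf : Function.Injective f) :
    Measure.map (mix f) ((seqLaw μ).prod (seqLaw μ)) = seqLaw μ := by
  apply Measure.eq_infinitePi
  intro s t ht
  rw [Measure.map_apply (measurable_mix f) (MeasurableSet.pi s.countable_toSet (fun i _ => ht i))]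
  obtain ⟨t', ht', htm⟩ : ∃ t' : ℕ ⊕ ℕ → Set ℝ, (∀ i, t' (f i) = t i) ∧
      ∀ z, MeasurableSet (t' z) :=
    ⟨fun z => t (Function.invFun f z),
      fun i => congrArg t (Function.leftInverse_invFun hf i), fun z => ht _⟩
  set s' : Finset (ℕ ⊕ ℕ) := s.image f with hs'
  have hpre : mix f ⁻¹' (Set.pi s t) =
      (Set.pi (s'.toLeft : Finset ℕ) (fun n => t' (Sum.inl n))) ×ˢ
        (Set.pi (s'.toRight : Finset ℕ) (fun n => t' (Sum.inr n))) := by
    ext ⟨θ, B⟩
    simp only [Set.mem_preimage, Set.mem_pi, Finset.mem_coe, Set.mem_prod, Finset.mem_toLeft,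
      Finset.mem_toRight, mix]
    constructor
    · intro h
      refine ⟨fun n hn => ?_, fun n hn => ?_⟩
      · obtain ⟨i, hi, hi'⟩ := Finset.mem_image.1 hn
        have := h i hi
        rw [hi', Sum.elim_inl] at this
        rwa [← hi', ht']
      · obtain ⟨i, hi, hi'⟩ := Finset.mem_image.1 hn
        have := h i hi
        rw [hi', Sum.elim_inr] at this
        rwa [← hi', ht']
    · rintro ⟨h1, h2⟩ i hi
      rcases hz : f i with n | n
      · have := h1 n (by rw [← hz]; exact Finset.mem_image_of_mem f hi)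
        rwa [← hz, ht'] at this
      · have := h2 n (by rw [← hz]; exact Finset.mem_image_of_mem f hi)
        rwa [← hz, ht'] at this
  rw [hpre, Measure.prod_prod]
  unfold seqLaw
  rw [Measure.infinitePi_pi _ (fun i _ => htm _), Measure.infinitePi_pi _ (fun i _ => htm _),
    ← Finset.prod_disjSum s'.toLeft s'.toRight (fun z => μ (t' z)),
    Finset.toLeft_disjSum_toRight, hs', Finset.prod_image (fun x _ y _ h => hf h)]
  exact Finset.prod_congr rfl fun i _ => by rw [ht']

end I2

theorem ins_law (μ : Measure ℝ) [IsProbabilityMeasure μ] (p L : ℕ) :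
    Measure.map (fun q : (ℕ → ℝ) × (ℕ → ℝ) => ins p L q.1 q.2) ((seqLaw μ).prod (seqLaw μ)) =
      seqLaw μ := by
  have hfun : (fun q : (ℕ → ℝ) × (ℕ → ℝ) => ins p L q.1 q.2) =
      I2.mix (fun i => if i < p then Sum.inl i else if i < p + L then Sum.inr (i - p)
        else Sum.inl (i - L)) := by
    funext q i
    unfold ins I2.mix
    dsimp only
    split_ifs <;> rfl
  rw [hfun]
  refine I2.map_mix μ _ fun i j h => ?_
  split_ifs at h <;> simp only [Sum.inl.injEq, Sum.inr.injEq, reduceCtorEq] at h <;> omega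

theorem update_law (μ : Measure ℝ) [IsProbabilityMeasure μ] (i : ℕ) :
    Measure.map (fun q : (ℕ → ℝ) × ℝ => Function.update q.1 i q.2) ((seqLaw μ).prod μ) =
      seqLaw μ := by
  have h1 : (seqLaw μ).prod μ =
      Measure.map (Prod.map id fun B : ℕ → ℝ => B 0) ((seqLaw μ).prod (seqLaw μ)) := by
    rw [← Measure.map_prod_map _ _ measurable_id (measurable_pi_apply 0), Measure.map_id,
      MP_daa227_pr.map_apply_seq]
  have hup : Measurable (fun q : (ℕ → ℝ) × ℝ => Function.update q.1 i q.2) := by
    rw [measurable_pi_iff]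
    intro j
    by_cases hj : j = i
    · subst hj
      simpa using measurable_snd
    · simp only [Function.update_of_ne hj]
      exact (measurable_pi_apply j).comp measurable_fst
  rw [h1, Measure.map_map hup (measurable_id.prodMap (measurable_pi_apply 0))]
  have hfun : ((fun q : (ℕ → ℝ) × ℝ => Function.update q.1 i q.2) ∘
      (Prod.map id fun B : ℕ → ℝ => B 0)) =
      I2.mix (fun j => if j = i then Sum.inr 0 else Sum.inl j) := by
    funext q j
    unfold I2.mix
    by_cases hj : j = i
    · subst hj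
      simp
    · simp [hj]
  rw [hfun]
  refine I2.map_mix μ _ fun j k h => ?_
  split_ifs at h <;> simp only [Sum.inl.injEq, Sum.inr.injEq, reduceCtorEq] at h <;> omega

end

end Pool.Agent.OT
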