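import Mathlib
import Pool.Agent.Lib.MP_daa227_pr_OT.Defs
import Pool.Agent.Lib.MP_daa227_pr_OT.Dec
import Pool.Agent.Lib.MP_daa227_pr_OT.Ins1
import Pool.Agent.Lib.MP_daa227_pr_OT.InsLaw

/-!
# Copolymer: the overlap is bounded below by insertion (module I3)
-/

namespace Pool.Agent.OT

open MeasureTheory ProbabilityTheory Finset Filter Topology
open MP_daa227_pr (Chain Zk Zf K0 shift seqLaw ExpMom)

noncomputable section

namespace I3

/-! ### Measurability -/

theorem measurable_gW (a b : ℕ → ℝ) (k : ℕ) : Measurable (gW a b k) := by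
  unfold gW
  exact ((Real.measurable_exp.comp (measurable_pi_apply _)).const_mul _).add
    ((Real.measurable_exp.comp
      (Finset.measurable_fun_sum _ fun i _ => measurable_pi_apply i)).const_mul _)

theorem measurable_shift (k : ℕ) : Measurable (shift k) := MP_daa227_pr.measurable_shift k

theorem measurable_Zr (a b : ℕ → ℝ) (n : ℕ) : Measurable (Zr a b n) := by
  induction n using Nat.strong_induction_on with
  | _ n ih =>
    rcases n with - | n
    · have : Zr a b 0 = fun _ => 1 := by funext θ; rw [Zr]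
      rw [this]
      exact measurable_const
    · have : Zr a b (n + 1) = fun θ => ∑ k : Fin (n + 1),
          gW a b (k + 1) θ * Zr a b (n - k) (shift (2 * (k + 1)) θ) := by funext θ; rw [Zr]
      rw [this]
      exact Finset.measurable_fun_sum _ fun k _ =>
        (measurable_gW a b _).mul ((ih _ (by omega)).comp (measurable_shift _))

theorem measurable_Zneg (a b : ℕ → ℝ) (n j : ℕ) : Measurable (Zneg a b n j) := by
  unfold Zneg
  refine ((measurable_Zr a b j).mul ((measurable_Zr a b _).comp (measurable_shift _))).add ?_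
  refine Finset.measurable_fun_sum _ fun x _ => Finset.measurable_fun_sum _ fun y _ => ?_
  refine ((measurable_Zr a b x).mul (Measurable.const_mul ?_ _)).mul
    ((measurable_Zr a b _).comp (measurable_shift _))
  exact Real.measurable_exp.comp (Finset.measurable_fun_sum _ fun i _ => measurable_pi_apply i)

theorem measurable_pr (a b : ℕ → ℝ) (n j : ℕ) : Measurable (pr a b n j) := by
  unfold pr
  exact (measurable_Zneg a b n j).div (measurable_Zr a b n)

theorem measurable_en (β h : ℝ) : Measurable (en β h) := by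
  rw [measurable_pi_iff]
  intro i
  unfold en
  have h1 : Measurable (fun ω : ℕ → ℝ => ω i) := measurable_pi_apply i
  exact (h1.const_mul β).sub_const h

theorem measurable_pre (a b : ℕ → ℝ) (n j : ℕ) (β h : ℝ) :
    Measurable fun ω => pr a b n j (en β h ω) := (measurable_pr a b n j).comp (measurable_en β h)

theorem measurable_ins (p L : ℕ) :
    Measurable (fun q : (ℕ → ℝ) × (ℕ → ℝ) => ins p L q.1 q.2) := by
  rw [measurable_pi_iff]
  intro i
  unfold ins
  split_ifs
  · exact (measurable_pi_apply i).comp measurable_fst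
  · exact (measurable_pi_apply _).comp measurable_snd
  · exact (measurable_pi_apply _).comp measurable_fst

theorem measurable_upd (J : ℕ) :
    Measurable (fun q : (ℕ → ℝ) × ℝ => Function.update q.1 J q.2) := by
  rw [measurable_pi_iff]
  intro j
  by_cases hj : j = J
  · subst hj
    simpa using measurable_snd
  · simp only [Function.update_of_ne hj]
    exact (measurable_pi_apply j).comp measurable_fst

theorem pr_nonneg {a b : ℕ → ℝ} (hK : KerOK a b) {n j : ℕ} (hj : j < n) (θ : ℕ → ℝ) :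
    0 ≤ pr a b n j θ := by
  unfold pr
  exact div_nonneg (Zneg_pos hK hj.le θ).le (Zr_pos hK n θ).le

theorem pr_le_one {a b : ℕ → ℝ} (hK : KerOK a b) {n j : ℕ} (hj1 : 1 ≤ j) (hj : j < n)
    (θ : ℕ → ℝ) : pr a b n j θ ≤ 1 := by
  unfold pr
  rw [div_le_one (Zr_pos hK n θ), Zr_split hj1 hj.le θ]
  linarith [Zpos_pos hK hj1 hj θ]

/-! ### Fubini -/

theorem law3 (μ : Measure ℝ) [IsProbabilityMeasure μ] (p L J : ℕ) :
    Measure.map (fun q : (ℕ → ℝ) × ((ℕ → ℝ) × ℝ) =>
      ins p L (Function.update q.1 J q.2.2) q.2.1) ((seqLaw μ).prod ((seqLaw μ).prod μ)) =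
      seqLaw μ := by
  have hm1 : Measurable (fun q : (ℕ → ℝ) × ((ℕ → ℝ) × ℝ) =>
      (Function.update q.1 J q.2.2, q.2.1)) :=
    ((measurable_upd J).comp (measurable_fst.prodMk (measurable_snd.comp measurable_snd))).prodMk
      (measurable_fst.comp measurable_snd)
  have hm : Measurable (fun q : (ℕ → ℝ) × ((ℕ → ℝ) × ℝ) =>
      ins p L (Function.update q.1 J q.2.2) q.2.1) := (measurable_ins p L).comp hm1
  refine Measure.ext_of_lintegral _ fun f hf => ?_
  have hfi : Measurable (fun q : (ℕ → ℝ) × (ℕ → ℝ) => f (ins p L q.1 q.2)) :=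
    hf.comp (measurable_ins p L)
  have hfm : Measurable (fun q : (ℕ → ℝ) × ((ℕ → ℝ) × ℝ) =>
      f (ins p L (Function.update q.1 J q.2.2) q.2.1)) := hf.comp hm
  have e1 : ∫⁻ ω, f ω ∂seqLaw μ = ∫⁻ B, ∫⁻ ω, f (ins p L ω B) ∂seqLaw μ ∂seqLaw μ := by
    conv_lhs => rw [← ins_law μ p L]
    rw [lintegral_map hf (measurable_ins p L), lintegral_prod_symm _ hfi.aemeasurable]
  have e2 : ∀ B : ℕ → ℝ, ∫⁻ ω, f (ins p L ω B) ∂seqLaw μ =
      ∫⁻ ω, ∫⁻ x, f (ins p L (Function.update ω J x) B) ∂μ ∂seqLaw μ := by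
    intro B
    have hB : Measurable (fun ω : ℕ → ℝ => f (ins p L ω B)) := hfi.comp measurable_prodMk_right
    have hB' : Measurable (fun q : (ℕ → ℝ) × ℝ => f (ins p L (Function.update q.1 J q.2) B)) :=
      hB.comp (measurable_upd J)
    conv_lhs => rw [← update_law μ J]
    rw [lintegral_map hB (measurable_upd J), lintegral_prod _ hB'.aemeasurable]
  have e3 : ∀ ω : ℕ → ℝ, ∫⁻ q : (ℕ → ℝ) × ℝ, f (ins p L (Function.update ω J q.2) q.1)
      ∂(seqLaw μ).prod μ =
      ∫⁻ B, ∫⁻ x, f (ins p L (Function.update ω J x) B) ∂μ ∂seqLaw μ := by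
    intro ω
    have hω : Measurable (fun q : (ℕ → ℝ) × ℝ => f (ins p L (Function.update ω J q.2) q.1)) :=
      hfm.comp measurable_prodMk_left
    rw [lintegral_prod _ hω.aemeasurable]
  rw [lintegral_map hf hm, lintegral_prod _ hfm.aemeasurable, lintegral_congr e3, e1,
    lintegral_congr e2]
  refine lintegral_lintegral_swap ?_
  have hm2 : Measurable (fun q : ((ℕ → ℝ) × (ℕ → ℝ)) × ℝ =>
      f (ins p L (Function.update q.1.1 J q.2) q.1.2)) :=
    hfm.comp ((measurable_fst.comp measurable_fst).prodMk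
      ((measurable_snd.comp measurable_fst).prodMk measurable_snd))
  exact hm2.lintegral_prod_right'.aemeasurable

/-! ### Exponential moments -/

theorem integrable_exp_seq {μ : Measure ℝ} [IsProbabilityMeasure μ] {f : ℝ → ℝ}
    (hf : Measurable f) (hi : Integrable (fun x => Real.exp (f x)) μ) (m : ℕ) :
    Integrable (fun B : ℕ → ℝ => Real.exp (∑ i ∈ range m, f (B i))) (seqLaw μ) ∧
    ∫ B : ℕ → ℝ, Real.exp (∑ i ∈ range m, f (B i)) ∂seqLaw μ =
      (∫ x, Real.exp (f x) ∂μ) ^ m := by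
  induction m with
  | zero => simp
  | succ m ih =>
    have hm : Measurable (fun B : ℕ → ℝ => Real.exp (∑ i ∈ range (m + 1), f (B i))) :=
      Real.measurable_exp.comp (Finset.measurable_fun_sum _ fun i _ =>
        hf.comp (measurable_pi_apply i))
    have hc : ∀ q : ℝ × (ℕ → ℝ), Real.exp (∑ i ∈ range (m + 1), f (MP_daa227_pr.cons q.1 q.2 i)) =
        Real.exp (f q.1) * Real.exp (∑ i ∈ range m, f (q.2 i)) := by
      intro q
      rw [Finset.sum_range_succ', ← Real.exp_add]
      simp only [MP_daa227_pr.cons_zero, MP_daa227_pr.cons_succ]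
      rw [add_comm]
    constructor
    · rw [← MP_daa227_pr.map_cons μ,
        integrable_map_measure hm.aestronglyMeasurable
          MP_daa227_pr.measurable_cons.aemeasurable]
      refine (Integrable.mul_prod hi ih.1).congr (Eventually.of_forall fun q => ?_)
      exact (hc q).symm
    · rw [← MP_daa227_pr.map_cons μ,
        integral_map MP_daa227_pr.measurable_cons.aemeasurable hm.aestronglyMeasurable]
      simp_rw [hc]
      rw [integral_prod_mul (fun x => Real.exp (f x))
        (fun B : ℕ → ℝ => Real.exp (∑ i ∈ range m, f (B i))), ih.2, pow_succ']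

/-! ### The constants -/

/-- exponent of the envelope -/
def ev (β H : ℝ) (m : ℕ) (q : (ℕ → ℝ) × ℝ) : ℝ :=
  (∑ i ∈ range m, (β * |q.1 i| + H)) + (β * |q.2| + H)

theorem integrable_one {μ : Measure ℝ} [IsProbabilityMeasure μ] (hμ : ExpMom μ) (β H c : ℝ) :
    Integrable (fun x => Real.exp (c * (β * |x| + H))) μ := by
  refine ((hμ.abs (c * β)).mul_const (Real.exp (c * H))).congr (Eventually.of_forall fun x => ?_)
  simp only
  rw [← Real.exp_add]
  congr 1
  ring

theorem integrable_ev {μ : Measure ℝ} [IsProbabilityMeasure μ] (hμ : ExpMom μ) (β H c : ℝ)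
    (m : ℕ) : Integrable (fun q => Real.exp (c * ev β H m q)) ((seqLaw μ).prod μ) := by
  have h1 := (integrable_exp_seq (f := fun x => c * (β * |x| + H)) (by fun_prop)
    (integrable_one hμ β H c) m).1
  refine (h1.mul_prod (integrable_one hμ β H c)).congr (Eventually.of_forall fun q => ?_)
  simp only [ev]
  rw [← Real.exp_add, ← Finset.mul_sum]
  congr 1
  ring

theorem abs_u_le {β h H : ℝ} (hβ : 0 < β) (hh : |h| ≤ H) (x : ℝ) : |β * x - h| ≤ β * |x| + H := by
  have := abs_sub (β * x) h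
  rw [abs_mul, abs_of_pos hβ] at this
  linarith

/-- the exponent of the inserted block and of the site before it -/
def SS (β h : ℝ) (m : ℕ) (B : ℕ → ℝ) : ℝ := ∑ i ∈ range m, (β * B i - h)

/-- the size of the inserted energies -/
def TT (β h : ℝ) (m : ℕ) (B : ℕ → ℝ) : ℝ := ∑ i ∈ range m, |β * B i - h|

theorem TT_le {β h H : ℝ} (hβ : 0 < β) (hh : |h| ≤ H) (m : ℕ) (q : (ℕ → ℝ) × ℝ) :
    TT β h m q.1 + |β * q.2 - h| ≤ ev β H m q := by
  unfold TT ev
  exact add_le_add (Finset.sum_le_sum fun i _ => abs_u_le hβ hh _) (abs_u_le hβ hh _)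

theorem SS_abs (β h : ℝ) (m : ℕ) (B : ℕ → ℝ) : |SS β h m B| ≤ TT β h m B :=
  Finset.abs_sum_le_sum_abs _ _

theorem measurable_SS (β h : ℝ) (m : ℕ) : Measurable (SS β h m) := by
  unfold SS
  refine Finset.measurable_fun_sum _ fun i _ => ?_
  have h1 : Measurable (fun ω : ℕ → ℝ => ω i) := measurable_pi_apply i
  exact (h1.const_mul β).sub_const h

theorem measurable_TT (β h : ℝ) (m : ℕ) : Measurable (TT β h m) := by
  unfold TT
  refine Finset.measurable_fun_sum _ fun i _ => ?_
  have h1 : Measurable (fun ω : ℕ → ℝ => ω i) := measurable_pi_apply i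
  exact measurable_norm.comp ((h1.const_mul β).sub_const h)

theorem exp_lmg {μ : Measure ℝ} [IsProbabilityMeasure μ] (hμ : ExpMom μ) (β h : ℝ) :
    Integrable (fun x => Real.exp (β * x - h)) μ ∧
    ∫ x, Real.exp (β * x - h) ∂μ = Real.exp (lmg μ β - h) := by
  have hpos : 0 < ∫ x, Real.exp (β * x) ∂μ := integral_exp_pos (hμ β)
  have e : ∀ x : ℝ, Real.exp (β * x - h) = Real.exp (β * x) * Real.exp (-h) := fun x => by
    rw [← Real.exp_add, sub_eq_add_neg]
  constructor
  · simp_rw [e]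
    exact (hμ β).mul_const _
  · simp_rw [e]
    rw [integral_mul_const, lmg, sub_eq_add_neg, Real.exp_add, Real.exp_log hpos]

theorem exp_SS {μ : Measure ℝ} [IsProbabilityMeasure μ] (hμ : ExpMom μ) (β h : ℝ) (m : ℕ) :
    Integrable (fun q : (ℕ → ℝ) × ℝ => Real.exp (SS β h m q.1) * Real.exp (β * q.2 - h))
      ((seqLaw μ).prod μ) ∧
    ∫ q : (ℕ → ℝ) × ℝ, Real.exp (SS β h m q.1) * Real.exp (β * q.2 - h) ∂(seqLaw μ).prod μ =
      Real.exp (m * (lmg μ β - h)) * Real.exp (lmg μ β - h) := by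
  obtain ⟨h1, h2⟩ := exp_lmg hμ β h
  obtain ⟨h3, h4⟩ := integrable_exp_seq (f := fun x => β * x - h) (by fun_prop) h1 m
  refine ⟨h3.mul_prod h1, ?_⟩
  unfold SS
  rw [integral_prod_mul (fun B : ℕ → ℝ => Real.exp (∑ i ∈ range m, (β * B i - h)))
    (fun x => Real.exp (β * x - h)), h4, h2, Real.exp_nat_mul]

/-- the fraction `t/(1+t)` -/
theorem frac_mono {s t : ℝ} (hs : 0 ≤ s) (h : s ≤ t) : s / (1 + s) ≤ t / (1 + t) := by
  rw [div_le_div_iff₀ (by linarith) (by linarith)]
  nlinarith

theorem key {μ : Measure ℝ} [IsProbabilityMeasure μ] (hμ : ExpMom μ) {β : ℝ} (hβ : 0 < β) (H : ℝ)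
    (m : ℕ) {D b : ℝ} (hD : 0 < D) (hb : 0 < b) :
    ∃ r : ℝ, 0 < r ∧ ∀ h : ℝ, |h| ≤ H → ∀ o : ℝ, 0 < o → ∀ ψ : ℝ, 0 ≤ ψ →
      (∫ q : (ℕ → ℝ) × ℝ, b * Real.exp (SS β h m q.1) * (Real.exp (β * q.2 - h) * o) *
        (1 - D * Real.exp (|β * q.2 - h| + 2 * TT β h m q.1) * (Real.exp (β * q.2 - h) * o))
          ∂(seqLaw μ).prod μ ≤ ψ) →
      r * (∫ x, Real.exp (β * x - h) * o / (1 + Real.exp (β * x - h) * o) ∂μ -
          2 / (b * Real.exp (m * (lmg μ β - h))) * ψ) ≤
        ∫ x, (Real.exp (β * x - h) * o / (1 + Real.exp (β * x - h) * o)) ^ 2 ∂μ := by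
  set P : Measure ((ℕ → ℝ) × ℝ) := (seqLaw μ).prod μ with hP
  have hi1 : Integrable (fun q => Real.exp (-1 * ev β H m q)) P := integrable_ev hμ β H (-1) m
  have hi3 : Integrable (fun q => Real.exp (3 * ev β H m q)) P := integrable_ev hμ β H 3 m
  have hm1 : 0 < ∫ q, Real.exp (-1 * ev β H m q) ∂P := integral_exp_pos hi1
  have hm3 : 0 < ∫ q, Real.exp (3 * ev β H m q) ∂P := integral_exp_pos hi3
  set m1 := ∫ q, Real.exp (-1 * ev β H m q) ∂P with hm1'
  set m3 := ∫ q, Real.exp (3 * ev β H m q) ∂P with hm3'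
  set θ₀ : ℝ := m1 / (2 * D * m3) with hθ0
  have hθpos : 0 < θ₀ := by positivity
  have hix : Integrable (fun x => Real.exp (-1 * (β * |x| + H))) μ := integrable_one hμ β H (-1)
  have hmx : 0 < ∫ x, Real.exp (-1 * (β * |x| + H)) ∂μ := integral_exp_pos hix
  set θ₁ : ℝ := (∫ x, Real.exp (-1 * (β * |x| + H)) ∂μ) * (θ₀ / (1 + θ₀)) with hθ1
  have hθ1pos : 0 < θ₁ := by positivity
  refine ⟨θ₁, hθ1pos, fun h hh o ho ψ hψ hψ' => ?_⟩
  have hH : 0 ≤ H := (abs_nonneg h).trans hh
  have hu : Measurable (fun x : ℝ => Real.exp (β * x - h)) := by fun_prop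
  have hg : Measurable (fun x : ℝ => Real.exp (β * x - h) * o / (1 + Real.exp (β * x - h) * o)) :=
    by fun_prop
  have hg0 : ∀ x : ℝ, 0 ≤ Real.exp (β * x - h) * o / (1 + Real.exp (β * x - h) * o) := fun x => by
    positivity
  have hg1 : ∀ x : ℝ, Real.exp (β * x - h) * o / (1 + Real.exp (β * x - h) * o) ≤ 1 := fun x => by
    rw [div_le_one (by positivity)]
    linarith
  have hgi : Integrable (fun x : ℝ => Real.exp (β * x - h) * o /
      (1 + Real.exp (β * x - h) * o)) μ := by
    refine Integrable.of_bound hg.aestronglyMeasurable 1 (Eventually.of_forall fun x => ?_)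
    rw [Real.norm_eq_abs, abs_of_nonneg (hg0 x)]
    exact hg1 x
  have hgi2 : Integrable (fun x : ℝ => (Real.exp (β * x - h) * o /
      (1 + Real.exp (β * x - h) * o)) ^ 2) μ := by
    refine Integrable.of_bound (hg.pow_const 2).aestronglyMeasurable 1
      (Eventually.of_forall fun x => ?_)
    rw [Real.norm_eq_abs, abs_of_nonneg (by positivity)]
    exact pow_le_one₀ (hg0 x) (hg1 x)
  obtain ⟨hu1, hu2⟩ := exp_lmg hμ β h
  rcases le_or_gt o θ₀ with hc | hc
  · -- small `o`
    have hF1 : ∫ x, Real.exp (β * x - h) * o / (1 + Real.exp (β * x - h) * o) ∂μ ≤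
        Real.exp (lmg μ β - h) * o := by
      rw [← hu2, ← integral_mul_const]
      refine integral_mono hgi (hu1.mul_const o) fun x => ?_
      have : 0 < Real.exp (β * x - h) * o := by positivity
      rw [div_le_iff₀ (by positivity)]
      nlinarith
    obtain ⟨hS1, hS2⟩ := exp_SS hμ β h m
    have hmajm : Measurable (fun q : (ℕ → ℝ) × ℝ => Real.exp (SS β h m q.1) *
        Real.exp (β * q.2 - h) * (Real.exp (|β * q.2 - h| + 2 * TT β h m q.1) *
          Real.exp (β * q.2 - h))) := by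
      have h1 : Measurable (fun q : (ℕ → ℝ) × ℝ => SS β h m q.1) :=
        (measurable_SS β h m).comp measurable_fst
      have h2 : Measurable (fun q : (ℕ → ℝ) × ℝ => TT β h m q.1) :=
        (measurable_TT β h m).comp measurable_fst
      have h3 : Measurable (fun q : (ℕ → ℝ) × ℝ => β * q.2 - h) := by fun_prop
      exact ((Real.measurable_exp.comp h1).mul (Real.measurable_exp.comp h3)).mul
        ((Real.measurable_exp.comp ((measurable_norm.comp h3).add (h2.const_mul 2))).mul
          (Real.measurable_exp.comp h3))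
    have hmaj : ∀ q : (ℕ → ℝ) × ℝ, Real.exp (SS β h m q.1) *
        Real.exp (β * q.2 - h) * (Real.exp (|β * q.2 - h| + 2 * TT β h m q.1) *
          Real.exp (β * q.2 - h)) ≤ Real.exp (3 * ev β H m q) := by
      intro q
      rw [← Real.exp_add, ← Real.exp_add, ← Real.exp_add]
      refine Real.exp_le_exp.2 ?_
      have h1 := TT_le hβ hh m q
      have h2 := (abs_le.1 (SS_abs β h m q.1)).2
      have h3 := le_abs_self (β * q.2 - h)
      linarith
    have hmaji : Integrable (fun q : (ℕ → ℝ) × ℝ => Real.exp (SS β h m q.1) *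
        Real.exp (β * q.2 - h) * (Real.exp (|β * q.2 - h| + 2 * TT β h m q.1) *
          Real.exp (β * q.2 - h))) P := by
      refine hi3.mono' hmajm.aestronglyMeasurable (Eventually.of_forall fun q => ?_)
      rw [Real.norm_eq_abs, abs_of_pos (by positivity)]
      exact hmaj q
    have hM3 : ∫ q : (ℕ → ℝ) × ℝ, Real.exp (SS β h m q.1) *
        Real.exp (β * q.2 - h) * (Real.exp (|β * q.2 - h| + 2 * TT β h m q.1) *
          Real.exp (β * q.2 - h)) ∂P ≤ m3 := integral_mono hmaji hi3 hmaj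
    have hM1 : m1 ≤ ∫ q : (ℕ → ℝ) × ℝ, Real.exp (SS β h m q.1) * Real.exp (β * q.2 - h) ∂P := by
      refine integral_mono hi1 hS1 fun q => ?_
      simp only
      rw [← Real.exp_add]
      refine Real.exp_le_exp.2 ?_
      have h1 := TT_le hβ hh m q
      have h2 := (abs_le.1 (SS_abs β h m q.1)).1
      have h3 := neg_abs_le (β * q.2 - h)
      linarith
    have hint : ∫ q : (ℕ → ℝ) × ℝ, b * Real.exp (SS β h m q.1) * (Real.exp (β * q.2 - h) * o) *
        (1 - D * Real.exp (|β * q.2 - h| + 2 * TT β h m q.1) * (Real.exp (β * q.2 - h) * o)) ∂P =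
        b * o * ∫ q : (ℕ → ℝ) × ℝ, Real.exp (SS β h m q.1) * Real.exp (β * q.2 - h) ∂P -
        b * o * (D * o) * ∫ q : (ℕ → ℝ) × ℝ, Real.exp (SS β h m q.1) *
        Real.exp (β * q.2 - h) * (Real.exp (|β * q.2 - h| + 2 * TT β h m q.1) *
          Real.exp (β * q.2 - h)) ∂P := by
      rw [← integral_const_mul, ← integral_const_mul, ← integral_sub (hS1.const_mul _)
        (hmaji.const_mul _)]
      refine integral_congr_ae (Eventually.of_forall fun q => ?_)
      simp only
      ring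
    rw [hint] at hψ'
    rw [hS2] at hM1 hψ'
    set E1 := Real.exp (m * (lmg μ β - h)) with hE1
    have hE1pos : 0 < E1 := Real.exp_pos _
    have hDo : D * o * ∫ q : (ℕ → ℝ) × ℝ, Real.exp (SS β h m q.1) *
        Real.exp (β * q.2 - h) * (Real.exp (|β * q.2 - h| + 2 * TT β h m q.1) *
          Real.exp (β * q.2 - h)) ∂P ≤ m1 / 2 := by
      calc D * o * ∫ q : (ℕ → ℝ) × ℝ, Real.exp (SS β h m q.1) *
        Real.exp (β * q.2 - h) * (Real.exp (|β * q.2 - h| + 2 * TT β h m q.1) *
          Real.exp (β * q.2 - h)) ∂P ≤ D * θ₀ * m3 := by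
            refine mul_le_mul (by gcongr) hM3 (integral_nonneg fun q => by positivity)
              (by positivity)
        _ = m1 / 2 := by
            rw [hθ0]
            field_simp
    have hψ2 : b * o * (E1 * Real.exp (lmg μ β - h)) / 2 ≤ ψ := by
      refine le_trans ?_ hψ'
      have h1 : b * o * (D * o) * ∫ q : (ℕ → ℝ) × ℝ, Real.exp (SS β h m q.1) *
        Real.exp (β * q.2 - h) * (Real.exp (|β * q.2 - h| + 2 * TT β h m q.1) *
          Real.exp (β * q.2 - h)) ∂P ≤ b * o * (m1 / 2) := by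
        rw [mul_assoc (b * o)]
        exact mul_le_mul_of_nonneg_left hDo (by positivity)
      have h2 : b * o * (m1 / 2) ≤ b * o * (E1 * Real.exp (lmg μ β - h) / 2) :=
        mul_le_mul_of_nonneg_left (by linarith) (by positivity)
      linarith
    have hfin : Real.exp (lmg μ β - h) * o ≤ 2 / (b * E1) * ψ := by
      calc Real.exp (lmg μ β - h) * o = 2 / (b * E1) *
            (b * o * (E1 * Real.exp (lmg μ β - h)) / 2) := by
            field_simp
        _ ≤ _ := mul_le_mul_of_nonneg_left hψ2 (by positivity)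
    have h1 : θ₁ * (∫ x, Real.exp (β * x - h) * o / (1 + Real.exp (β * x - h) * o) ∂μ -
          2 / (b * E1) * ψ) ≤ 0 :=
      mul_nonpos_of_nonneg_of_nonpos hθ1pos.le (by linarith)
    exact h1.trans (integral_nonneg fun x => by positivity)
  · -- large `o`
    set F1 := ∫ x, Real.exp (β * x - h) * o / (1 + Real.exp (β * x - h) * o) ∂μ with hF1
    have hF1' : θ₁ ≤ F1 := by
      rw [hθ1, hF1, ← integral_mul_const]
      refine integral_mono (hix.mul_const _) hgi fun x => ?_
      simp only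
      set w := Real.exp (-1 * (β * |x| + H)) with hw
      have hw0 : 0 < w := Real.exp_pos _
      have hw1 : w ≤ 1 := by
        have : 0 ≤ β * |x| := by positivity
        exact Real.exp_le_one_iff.2 (by linarith)
      have hw2 : w ≤ Real.exp (β * x - h) := by
        refine Real.exp_le_exp.2 ?_
        have h1 := abs_u_le hβ hh x
        have h2 := neg_abs_le (β * x - h)
        linarith
      calc w * (θ₀ / (1 + θ₀)) ≤ (w * θ₀) / (1 + w * θ₀) := by
            rw [mul_div_assoc']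
            refine div_le_div_of_nonneg_left (by positivity) (by positivity) ?_
            nlinarith
        _ ≤ _ := frac_mono (by positivity) (mul_le_mul hw2 hc.le hθpos.le (Real.exp_pos _).le)
    have hF2 : F1 ^ 2 ≤ ∫ x, (Real.exp (β * x - h) * o / (1 + Real.exp (β * x - h) * o)) ^ 2 ∂μ := by
      have h0 : 0 ≤ ∫ x, (Real.exp (β * x - h) * o / (1 + Real.exp (β * x - h) * o) - F1) ^ 2 ∂μ :=
        integral_nonneg fun x => by positivity
      have e : ∀ x : ℝ, (Real.exp (β * x - h) * o / (1 + Real.exp (β * x - h) * o) - F1) ^ 2 =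
          (Real.exp (β * x - h) * o / (1 + Real.exp (β * x - h) * o)) ^ 2 -
            2 * F1 * (Real.exp (β * x - h) * o / (1 + Real.exp (β * x - h) * o)) + F1 ^ 2 :=
        fun x => by ring
      have hs : Integrable (fun x : ℝ =>
          (Real.exp (β * x - h) * o / (1 + Real.exp (β * x - h) * o)) ^ 2 -
            2 * F1 * (Real.exp (β * x - h) * o / (1 + Real.exp (β * x - h) * o))) μ :=
        hgi2.sub (hgi.const_mul _)
      simp_rw [e] at h0
      rw [integral_add hs (integrable_const _),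
        integral_sub hgi2 (hgi.const_mul _), integral_const_mul, ← hF1] at h0
      simp only [integral_const, probReal_univ, one_smul] at h0
      nlinarith
    have hc0 : 0 ≤ 2 / (b * Real.exp (m * (lmg μ β - h))) * ψ := by positivity
    nlinarith

/-! ### The odds -/

/-- `P(S_{2j} ≤ 0) / P(S_{2j} > 0)` without the charge of the site `2j - 1` -/
def odds (a b : ℕ → ℝ) (n j : ℕ) (θ : ℕ → ℝ) : ℝ :=
  Zneg a b n j θ * Real.exp (-θ (2 * j - 1)) / Zpos a b n j θ

theorem odds_pos {a b : ℕ → ℝ} (hK : KerOK a b) {n j : ℕ} (hj1 : 1 ≤ j) (hj : j < n)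
    (θ : ℕ → ℝ) : 0 < odds a b n j θ :=
  div_pos (mul_pos (Zneg_pos hK hj.le θ) (Real.exp_pos _)) (Zpos_pos hK hj1 hj θ)

theorem en_update (β h : ℝ) (ω : ℕ → ℝ) (J : ℕ) (x : ℝ) (i : ℕ) (hi : i ≠ J) :
    en β h (Function.update ω J x) i = en β h ω i := by
  unfold en
  rw [Function.update_of_ne hi]

theorem en_update_self (β h : ℝ) (ω : ℕ → ℝ) (J : ℕ) (x : ℝ) :
    en β h (Function.update ω J x) J = β * x - h := by
  unfold en
  rw [Function.update_self]

theorem odds_update (a b : ℕ → ℝ) {n j : ℕ} (hj1 : 1 ≤ j) (hj : j ≤ n)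
    (β h : ℝ) (ω : ℕ → ℝ) (x : ℝ) :
    odds a b n j (en β h (Function.update ω (2 * j - 1) x)) = odds a b n j (en β h ω) := by
  unfold odds
  rw [Zneg_indep hj1 hj (fun i hi => en_update β h ω (2 * j - 1) x i hi),
    Zpos_indep hj1 hj (fun i hi => en_update β h ω (2 * j - 1) x i hi)]

theorem Zneg_eq {a b : ℕ → ℝ} (hK : KerOK a b) {n j : ℕ} (hj1 : 1 ≤ j) (hj : j < n)
    (θ : ℕ → ℝ) :
    Zneg a b n j θ = Real.exp (θ (2 * j - 1)) * odds a b n j θ * Zpos a b n j θ := by
  have h1 := (Zpos_pos hK hj1 hj θ).ne'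
  unfold odds
  rw [mul_assoc, div_mul_cancel₀ _ h1, mul_comm, mul_assoc, ← Real.exp_add]
  simp

theorem pr_eq {a b : ℕ → ℝ} (hK : KerOK a b) {n j : ℕ} (hj1 : 1 ≤ j) (hj : j < n)
    (θ : ℕ → ℝ) :
    pr a b n j θ = Real.exp (θ (2 * j - 1)) * odds a b n j θ /
      (1 + Real.exp (θ (2 * j - 1)) * odds a b n j θ) := by
  have h1 := Zpos_pos hK hj1 hj θ
  have h2 := odds_pos hK hj1 hj θ
  unfold pr
  rw [Zr_split hj1 hj.le θ, Zneg_eq hK hj1 hj θ, div_eq_div_iff (by positivity) (by positivity)]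
  ring

theorem en_ins (β h : ℝ) (p L : ℕ) (ω B : ℕ → ℝ) :
    en β h (ins p L ω B) = ins p L (en β h ω) (en β h B) := by
  funext i
  unfold en ins
  split_ifs <;> rfl

theorem pr_ins {a b : ℕ → ℝ} (hK : KerOK a b) {n j : ℕ} (hj1 : 1 ≤ j) (hj : j < n) (L : ℕ)
    (θ B : ℕ → ℝ) :
    b (L + 1) * Real.exp (∑ i ∈ range (2 * L), B i) *
      (Real.exp (θ (2 * j - 1)) * odds a b n j θ) *
      (1 - ((L : ℝ) + 1) * 6 ^ L * Real.exp (|θ (2 * j - 1)| + 2 * ∑ i ∈ range (2 * L), |B i|) *
        (Real.exp (θ (2 * j - 1)) * odds a b n j θ)) ≤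
      pr a b (n + L) j (ins (2 * j) (2 * L) θ B) := by
  have hP := Zpos_pos hK hj1 hj θ
  have ho := odds_pos hK hj1 hj θ
  have hup := ins_upper hK hj1 hj L θ B
  have hlo := ins_lower hK hj1 hj L θ B
  have hb := hK.b_pos (L + 1) (by omega)
  have hZ := Zr_pos hK (n + L) (ins (2 * j) (2 * L) θ B)
  rw [Zneg_eq hK hj1 hj θ] at hup hlo
  set t := Real.exp (θ (2 * j - 1)) * odds a b n j θ with ht
  have ht0 : 0 < t := by positivity
  set D := ((L : ℝ) + 1) * 6 ^ L * Real.exp (|θ (2 * j - 1)| + 2 * ∑ i ∈ range (2 * L), |B i|)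
    with hD
  have hD0 : 0 < D := by positivity
  set s := Real.exp (∑ i ∈ range (2 * L), B i) with hs
  have hs0 : 0 < s := Real.exp_pos _
  have hden : 0 < Zpos a b n j θ + D * (t * Zpos a b n j θ) := by positivity
  unfold pr
  calc b (L + 1) * s * t * (1 - D * t) ≤ b (L + 1) * s * t * (1 / (1 + D * t)) := by
        refine mul_le_mul_of_nonneg_left ?_ (by positivity)
        rw [le_div_iff₀ (by positivity)]
        nlinarith [mul_pos hD0 ht0]
    _ = b (L + 1) * s * (t * Zpos a b n j θ) / (Zpos a b n j θ + D * (t * Zpos a b n j θ)) := by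
        field_simp
    _ ≤ Zneg a b (n + L) j (ins (2 * j) (2 * L) θ B) /
          (Zpos a b n j θ + D * (t * Zpos a b n j θ)) := by
        gcongr
    _ ≤ _ := by
        refine div_le_div_of_nonneg_left ?_ hZ hup
        exact (by positivity : (0 : ℝ) ≤ b (L + 1) * s * (t * Zpos a b n j θ)).trans hlo

end I3

open I3 in
theorem ins_main {a b : ℕ → ℝ} (hK : KerOK a b) (μ : Measure ℝ) [IsProbabilityMeasure μ]
    (hμ : ExpMom μ) {β : ℝ} (hβ : 0 < β) (H : ℝ) (L : ℕ) (hL : 1 ≤ L) :
    ∃ r : ℝ, 0 < r ∧ ∀ h : ℝ, |h| ≤ H → ∀ n j : ℕ, 1 ≤ j → j < n →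
      r * (∫ ω, pr a b n j (en β h ω) ∂seqLaw μ -
          2 / (b (L + 1) * Real.exp (2 * L * (lmg μ β - h))) *
            ∫ ω, pr a b (n + L) j (en β h ω) ∂seqLaw μ) ≤
        ∫ ω, pr a b n j (en β h ω) ^ 2 ∂seqLaw μ := by
  have hb := hK.b_pos (L + 1) (by omega)
  obtain ⟨r, hr, hkey⟩ := key hμ hβ H (2 * L) (D := ((L : ℝ) + 1) * 6 ^ L) (b := b (L + 1))
    (by positivity) hb
  refine ⟨r, hr, fun h hh n j hj1 hj => ?_⟩
  set J := 2 * j - 1 with hJ
  set P : Measure ((ℕ → ℝ) × ℝ) := (seqLaw μ).prod μ with hP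
  -- bounded measurable functions are integrable
  have hbi : ∀ {α : Type} [MeasurableSpace α] (ρ : Measure α) [IsProbabilityMeasure ρ]
      (f : α → ℝ), Measurable f → (∀ x, 0 ≤ f x) → (∀ x, f x ≤ 1) → Integrable f ρ := by
    intro α _ ρ _ f hf h0 h1
    refine Integrable.of_bound hf.aestronglyMeasurable 1 (Eventually.of_forall fun x => ?_)
    rw [Real.norm_eq_abs, abs_of_nonneg (h0 x)]
    exact h1 x
  -- the three functions
  have hm1 : Measurable fun ω => pr a b n j (en β h ω) := measurable_pre a b n j β h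
  have hm2 : Measurable fun ω => pr a b n j (en β h ω) ^ 2 := hm1.pow_const 2
  have hm3 : Measurable fun ω => pr a b (n + L) j (en β h ω) := measurable_pre a b (n + L) j β h
  have hu1 : Measurable fun q : (ℕ → ℝ) × ℝ => pr a b n j (en β h (Function.update q.1 J q.2)) :=
    hm1.comp (measurable_upd J)
  have hu2 : Measurable fun q : (ℕ → ℝ) × ℝ =>
      pr a b n j (en β h (Function.update q.1 J q.2)) ^ 2 := hu1.pow_const 2
  have hi1 := hbi ((seqLaw μ).prod μ) _ hu1 (fun q => pr_nonneg hK hj _)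
    (fun q => pr_le_one hK hj1 hj _)
  have hi2 := hbi ((seqLaw μ).prod μ) _ hu2 (fun q => sq_nonneg _)
    (fun q => pow_le_one₀ (pr_nonneg hK hj _) (pr_le_one hK hj1 hj _))
  have hinsm : Measurable (fun q : (ℕ → ℝ) × ((ℕ → ℝ) × ℝ) =>
      ins (2 * j) (2 * L) (Function.update q.1 J q.2.2) q.2.1) :=
    (measurable_ins (2 * j) (2 * L)).comp
      (((measurable_upd J).comp (measurable_fst.prodMk (measurable_snd.comp measurable_snd))).prodMk
      (measurable_fst.comp measurable_snd))
  have hu3 : Measurable (fun q : (ℕ → ℝ) × ((ℕ → ℝ) × ℝ) =>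
      pr a b (n + L) j (en β h (ins (2 * j) (2 * L) (Function.update q.1 J q.2.2) q.2.1))) :=
    hm3.comp hinsm
  have hi3 := hbi ((seqLaw μ).prod ((seqLaw μ).prod μ)) _ hu3
    (fun q => pr_nonneg hK (by omega) _) (fun q => pr_le_one hK hj1 (by omega) _)
  have e1 : ∫ ω, pr a b n j (en β h ω) ∂seqLaw μ =
      ∫ ω, ∫ x, pr a b n j (en β h (Function.update ω J x)) ∂μ ∂seqLaw μ := by
    conv_lhs => rw [← update_law μ J]
    rw [integral_map (measurable_upd J).aemeasurable hm1.aestronglyMeasurable, integral_prod _ hi1]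
  have e2 : ∫ ω, pr a b n j (en β h ω) ^ 2 ∂seqLaw μ =
      ∫ ω, ∫ x, pr a b n j (en β h (Function.update ω J x)) ^ 2 ∂μ ∂seqLaw μ := by
    conv_lhs => rw [← update_law μ J]
    rw [integral_map (measurable_upd J).aemeasurable hm2.aestronglyMeasurable, integral_prod _ hi2]
  have e3 : ∫ ω, pr a b (n + L) j (en β h ω) ∂seqLaw μ =
      ∫ ω, ∫ q : (ℕ → ℝ) × ℝ, pr a b (n + L) j
        (en β h (ins (2 * j) (2 * L) (Function.update ω J q.2) q.1)) ∂P ∂seqLaw μ := by
    conv_lhs => rw [← law3 μ (2 * j) (2 * L) J]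
    rw [integral_map hinsm.aemeasurable hm3.aestronglyMeasurable, integral_prod _ hi3]
  rw [e1, e2, e3, ← integral_const_mul, ← integral_sub hi1.integral_prod_left
    (hi3.integral_prod_left.const_mul _), ← integral_const_mul]
  refine integral_mono ((hi1.integral_prod_left.sub
    (hi3.integral_prod_left.const_mul _)).const_mul _) hi2.integral_prod_left fun ω => ?_
  simp only
  set o := odds a b n j (en β h ω) with ho
  have ho0 : 0 < o := odds_pos hK hj1 hj _
  have hpr : ∀ x, pr a b n j (en β h (Function.update ω J x)) =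
      Real.exp (β * x - h) * o / (1 + Real.exp (β * x - h) * o) := by
    intro x
    rw [pr_eq hK hj1 hj, odds_update a b hj1 hj.le, ← hJ, en_update_self, ← ho]
  simp_rw [hpr]
  have hk := hkey h hh o ho0
    (∫ q : (ℕ → ℝ) × ℝ, pr a b (n + L) j
      (en β h (ins (2 * j) (2 * L) (Function.update ω J q.2) q.1)) ∂P)
    (integral_nonneg fun q => pr_nonneg hK (by omega) _) ?_
  · push_cast at hk
    exact hk
  · have hωm : Measurable (fun q : (ℕ → ℝ) × ℝ => pr a b (n + L) j
        (en β h (ins (2 * j) (2 * L) (Function.update ω J q.2) q.1))) :=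
      hu3.comp (g := fun z : (ℕ → ℝ) × ((ℕ → ℝ) × ℝ) => pr a b (n + L) j
        (en β h (ins (2 * j) (2 * L) (Function.update z.1 J z.2.2) z.2.1)))
        (f := fun q : (ℕ → ℝ) × ℝ => (ω, q)) (measurable_const.prodMk measurable_id)
    have hω : Integrable (fun q : (ℕ → ℝ) × ℝ => pr a b (n + L) j
        (en β h (ins (2 * j) (2 * L) (Function.update ω J q.2) q.1))) P :=
      hbi P _ hωm (fun q => pr_nonneg hK (by omega) _)
        (fun q => pr_le_one hK hj1 (by omega) _)
    by_cases hint : Integrable (fun q : (ℕ → ℝ) × ℝ => b (L + 1) * Real.exp (SS β h (2 * L) q.1) *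
        (Real.exp (β * q.2 - h) * o) * (1 - ((L : ℝ) + 1) * 6 ^ L *
          Real.exp (|β * q.2 - h| + 2 * TT β h (2 * L) q.1) * (Real.exp (β * q.2 - h) * o))) P
    · refine integral_mono hint hω fun q => ?_
      have h1 := pr_ins hK hj1 hj L (en β h (Function.update ω J q.2)) (en β h q.1)
      rw [odds_update a b hj1 hj.le, ← hJ, en_update_self, ← ho, ← en_ins] at h1
      exact h1
    · rw [integral_undef hint]
      exact integral_nonneg fun q => pr_nonneg hK (by omega) _

end

end Pool.Agent.OT
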