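import Mathlib
import Pool.Agent.Lib.MP_daa227_pr_OT.Defs

/-!
# Path sums: the partition function as a sum over nearest-neighbour paths
-/

namespace Pool.Agent.OT

open MeasureTheory ProbabilityTheory Finset Filter Topology
open MP_daa227_pr (Chain Zk Zf K0 shift seqLaw ExpMom)

noncomputable section

namespace P2

/-- nearest-neighbour paths of length `m` from `x` to `y`, recursively -/
def PP : (m : ℕ) → ℤ → ℤ → Finset (Fin (m + 1) → ℤ)
  | 0, x, y => if x = y then {fun _ => x} else ∅
  | m + 1, x, y =>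
    ((PP m (x + 1) y).image fun t => (Fin.cons x t : Fin (m + 1 + 1) → ℤ)) ∪
      ((PP m (x - 1) y).image fun t => (Fin.cons x t : Fin (m + 1 + 1) → ℤ))

theorem mem_PP : ∀ (m : ℕ) (x y : ℤ) (s : Fin (m + 1) → ℤ), s ∈ PP m x y ↔
    s 0 = x ∧ s (Fin.last m) = y ∧
      ∀ i : Fin m, s i.succ = s i.castSucc + 1 ∨ s i.succ = s i.castSucc - 1
  | 0, x, y, s => by
    unfold PP
    split_ifs with h
    · rw [Finset.mem_singleton]
      constructor
      · rintro rfl
        exact ⟨rfl, h, fun i => i.elim0⟩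
      · rintro ⟨h1, _, _⟩
        funext i
        rw [Fin.fin_one_eq_zero i, h1]
    · constructor
      · intro h1
        exact absurd h1 (Finset.notMem_empty _)
      · rintro ⟨h1, h2, _⟩
        exact absurd (h1.symm.trans h2) h
  | m + 1, x, y, s => by
    have key : ∀ z : ℤ, (s ∈ (PP m z y).image fun t => (Fin.cons x t : Fin (m + 1 + 1) → ℤ)) ↔
        s 0 = x ∧ s 1 = z ∧ s (Fin.last (m + 1)) = y ∧
          ∀ i : Fin m, s i.succ.succ = s i.succ.castSucc + 1 ∨
            s i.succ.succ = s i.succ.castSucc - 1 := by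
      intro z
      rw [Finset.mem_image]
      constructor
      · rintro ⟨t, ht, rfl⟩
        rw [mem_PP m z y t] at ht
        refine ⟨Fin.cons_zero _ _, ?_, ?_, fun i => ?_⟩
        · rw [← Fin.succ_zero_eq_one, Fin.cons_succ]; exact ht.1
        · rw [← Fin.succ_last, Fin.cons_succ]; exact ht.2.1
        · rw [Fin.castSucc_succ, Fin.cons_succ, Fin.cons_succ]; exact ht.2.2 i
      · rintro ⟨h0, h1, h2, h3⟩
        refine ⟨Fin.tail s, ?_, ?_⟩
        · rw [mem_PP m z y]
          refine ⟨?_, ?_, fun i => ?_⟩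
          · unfold Fin.tail; rw [Fin.succ_zero_eq_one]; exact h1
          · unfold Fin.tail; rw [Fin.succ_last]; exact h2
          · unfold Fin.tail
            have := h3 i
            rwa [Fin.castSucc_succ] at this
        · rw [← h0]; exact Fin.cons_self_tail s
    rw [PP, Finset.mem_union, key, key]
    constructor
    · rintro (⟨h0, h1, h2, h3⟩ | ⟨h0, h1, h2, h3⟩)
      · refine ⟨h0, h2, fun i => ?_⟩
        refine Fin.cases ?_ (fun j => h3 j) i
        left
        rw [Fin.succ_zero_eq_one, Fin.castSucc_zero, h1, h0]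
      · refine ⟨h0, h2, fun i => ?_⟩
        refine Fin.cases ?_ (fun j => h3 j) i
        right
        rw [Fin.succ_zero_eq_one, Fin.castSucc_zero, h1, h0]
    · rintro ⟨h0, h2, h3⟩
      have h4 := h3 0
      rw [Fin.succ_zero_eq_one, Fin.castSucc_zero, h0] at h4
      rcases h4 with h4 | h4
      · exact Or.inl ⟨h0, h4, h2, fun i => h3 i.succ⟩
      · exact Or.inr ⟨h0, h4, h2, fun i => h3 i.succ⟩

theorem PF_eq (m : ℕ) : PF m = PP m 0 0 := by
  ext s
  rw [mem_PP, PF, Finset.mem_filter, Fintype.mem_piFinset]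
  constructor
  · exact fun h => h.2
  · intro h
    refine ⟨?_, h⟩
    have hb : ∀ i : Fin (m + 1), |s i| ≤ (i : ℕ) := by
      intro i
      refine Fin.induction ?_ ?_ i
      · rw [h.1]; simp
      · intro j hj
        have h1 := h.2.2 j
        rw [Fin.val_castSucc] at hj
        rw [Fin.val_succ]
        push_cast
        rw [abs_le] at hj ⊢
        rcases h1 with h1 | h1 <;> constructor <;> omega
    intro i
    have h1 := hb i
    have h2 : (i : ℕ) ≤ m := Nat.lt_succ_iff.1 i.2
    rw [abs_le] at h1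
    rw [Finset.mem_Icc]
    constructor <;> omega

/-- the weight of a path, with its Boltzmann factor -/
def V (C : Chain) (β h : ℝ) (m : ℕ) (ω : ℕ → ℝ) (s : Fin (m + 1) → ℤ) : ℝ :=
  (∏ i : Fin m, C.p (s i.castSucc) (s i.succ)) *
    Real.exp (∑ i : Fin m, (β * ω i - h) * phi (s i.succ))

theorem V_cons (C : Chain) (β h : ℝ) (m : ℕ) (ω : ℕ → ℝ) (x : ℤ) (t : Fin (m + 1) → ℤ) :
    V C β h (m + 1) ω (Fin.cons x t : Fin (m + 1 + 1) → ℤ) =
      C.p x (t 0) * Wc β h (ω 0) (t 0) * V C β h m (shift 1 ω) t := by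
  unfold V
  rw [Fin.prod_univ_succ, Fin.sum_univ_succ, Real.exp_add]
  have h1 : ∀ i : Fin m, C.p ((Fin.cons x t : Fin (m + 1 + 1) → ℤ) i.succ.castSucc)
      ((Fin.cons x t : Fin (m + 1 + 1) → ℤ) i.succ.succ) = C.p (t i.castSucc) (t i.succ) := by
    intro i
    rw [Fin.castSucc_succ, Fin.cons_succ, Fin.cons_succ]
  have h2 : ∀ i : Fin m, (β * ω ((i.succ : Fin (m + 1)) : ℕ) - h) *
      phi ((Fin.cons x t : Fin (m + 1 + 1) → ℤ) i.succ.succ) =
      (β * shift 1 ω i - h) * phi (t i.succ) := by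
    intro i
    rw [Fin.cons_succ, Fin.val_succ, MP_daa227_pr.shift_apply]
  rw [Finset.prod_congr rfl fun i _ => h1 i, Finset.sum_congr rfl fun i _ => h2 i,
    Fin.castSucc_zero, Fin.cons_zero, Fin.cons_succ, Fin.val_zero]
  unfold Wc
  ring

theorem sum_V (C : Chain) (hnl : ∀ x, C.p x x = 0) (β h : ℝ) : ∀ (m : ℕ) (ω : ℕ → ℝ) (x y : ℤ),
    ∑ s ∈ PP m x y, V C β h m ω s = Zk C (Wc β h) m ω x y
  | 0, ω, x, y => by
    unfold PP Zk
    split_ifs with h1
    · rw [Finset.sum_singleton]
      simp [V]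
    · rw [Finset.sum_empty]
  | m + 1, ω, x, y => by
    have hstep : ∀ z : ℤ,
        ∑ s ∈ (PP m z y).image fun t => (Fin.cons x t : Fin (m + 1 + 1) → ℤ),
          V C β h (m + 1) ω s =
        C.p x z * Wc β h (ω 0) z * Zk C (Wc β h) m (shift 1 ω) z y := by
      intro z
      have hinj : Set.InjOn (fun t : Fin (m + 1) → ℤ => (Fin.cons x t : Fin (m + 1 + 1) → ℤ))
          (PP m z y : Set (Fin (m + 1) → ℤ)) :=
        fun a _ b _ hab => Fin.cons_right_injective (α := fun _ => ℤ) x hab
      rw [Finset.sum_image hinj, ← sum_V C hnl β h m (shift 1 ω) z y, Finset.mul_sum]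
      refine Finset.sum_congr rfl fun t ht => ?_
      rw [V_cons, ((mem_PP m z y t).1 ht).1]
    have hdis : Disjoint
        ((PP m (x + 1) y).image fun t => (Fin.cons x t : Fin (m + 1 + 1) → ℤ))
        ((PP m (x - 1) y).image fun t => (Fin.cons x t : Fin (m + 1 + 1) → ℤ)) := by
      rw [Finset.disjoint_left]
      intro s h1 h2
      obtain ⟨t, ht, rfl⟩ := Finset.mem_image.1 h1
      obtain ⟨t', ht', htt⟩ := Finset.mem_image.1 h2
      have h3 : t' = t := Fin.cons_right_injective (α := fun _ => ℤ) x htt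
      rw [h3] at ht'
      have h4 := ((mem_PP m _ y t).1 ht).1
      have h5 := ((mem_PP m _ y t).1 ht').1
      omega
    rw [PP, Finset.sum_union hdis, hstep, hstep, Zk]
    have hI : Finset.Icc (x - 1) (x + 1) = {x - 1, x, x + 1} := by
      ext z
      simp only [Finset.mem_Icc, Finset.mem_insert, Finset.mem_singleton]
      omega
    rw [hI, Finset.sum_insert (by
      simp only [Finset.mem_insert, Finset.mem_singleton]; omega),
      Finset.sum_insert (by simp only [Finset.mem_singleton]; omega), Finset.sum_singleton, hnl x]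
    ring

end P2

theorem path_sum (C : Chain) (hnl : ∀ x, C.p x x = 0) (β h : ℝ) (m : ℕ) (ω : ℕ → ℝ) :
    ZE (wt C m) (spin m) (tr m (en β h ω)) = Zk C (Wc β h) m ω 0 0 := by
  rw [← P2.sum_V C hnl β h m ω 0 0, ← P2.PF_eq]
  exact Finset.sum_coe_sort (PF m) (fun s => P2.V C β h m ω s)

end

end Pool.Agent.OT
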