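import Mathlib
import Pool.Agent.Lib.MP_daa227_pr_OT.Defs
import Pool.Agent.Lib.MP_daa227_pr_OT.PathSum
import Pool.Agent.Lib.MP_daa227_pr_OT.Dec
import Pool.Agent.Lib.MP_daa227_pr_OT.KZ
import Pool.Agent.Lib.MP_daa227_pr_OT.Ins2

namespace Pool.Agent.OT

open MeasureTheory ProbabilityTheory Finset Filter Topology
open MP_daa227_pr (Chain Zk Zf K0 shift seqLaw ExpMom)

noncomputable section

namespace I4

theorem phi_zero_one (x : ℤ) : phi x = 0 ∨ phi x = 1 := by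
  unfold phi
  split_ifs
  · exact Or.inr rfl
  · exact Or.inl rfl

theorem phi_nonneg (x : ℤ) : 0 ≤ phi x := by
  rcases phi_zero_one x with h | h <;> rw [h] <;> norm_num

theorem phi_le (x : ℤ) : phi x ≤ 1 := by
  rcases phi_zero_one x with h | h <;> rw [h]; norm_num

theorem wt_nonneg (C : Chain) (m : ℕ) (s : {s // s ∈ PF m}) : 0 ≤ wt C m s :=
  prod_nonneg fun _ _ => C.nonneg _ _

section gen

variable {Ω ι : Type*} [Fintype Ω] [Fintype ι] {w : Ω → ℝ} {x : Ω → ι → ℝ}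

theorem ZE_nonneg (hw : ∀ s, 0 ≤ w s) (θ : ι → ℝ) : 0 ≤ ZE w x θ :=
  sum_nonneg fun s _ => mul_nonneg (hw s) (Real.exp_pos _).le

theorem AE_mono (hw : ∀ s, 0 ≤ w s) (θ : ι → ℝ) {f g : Ω → ℝ} (h : ∀ s, f s ≤ g s) :
    AE w x θ f ≤ AE w x θ g := by
  unfold AE
  refine div_le_div_of_nonneg_right ?_ (ZE_nonneg hw θ)
  exact sum_le_sum fun s _ => mul_le_mul_of_nonneg_left (h s)
    (mul_nonneg (hw s) (Real.exp_pos _).le)

theorem AE_zero (θ : ι → ℝ) : AE w x θ (fun _ => 0) = 0 := by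
  simp [AE]

theorem AE_one_le (θ : ι → ℝ) : AE w x θ (fun _ => 1) ≤ 1 := by
  unfold AE
  simp only [mul_one]
  exact div_self_le_one _

theorem pE_nn (hw : ∀ s, 0 ≤ w s) (hx : ∀ s i, 0 ≤ x s i) (θ : ι → ℝ) (i : ι) :
    0 ≤ pE w x θ i := by
  rw [← AE_zero (w := w) (x := x) θ]
  exact AE_mono hw θ fun s => hx s i

theorem pE_le1 (hw : ∀ s, 0 ≤ w s) (hx : ∀ s i, x s i ≤ 1) (θ : ι → ℝ) (i : ι) :
    pE w x θ i ≤ 1 :=
  (AE_mono hw θ fun s => hx s i).trans (AE_one_le θ)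

/-- change of one energy -/
theorem ZE_update [DecidableEq ι] (hx : ∀ s i, x s i = 0 ∨ x s i = 1) (θ : ι → ℝ) (i : ι)
    (u : ℝ) : ZE w x (Function.update θ i (θ i + u)) = ZE w x θ +
      (Real.exp u - 1) * ∑ s, w s * Real.exp (∑ i, θ i * x s i) * x s i := by
  unfold ZE
  rw [mul_sum, ← sum_add_distrib]
  refine sum_congr rfl fun s _ => ?_
  have h1 : ∑ l, Function.update θ i (θ i + u) l * x s l = ∑ l, θ l * x s l + u * x s i := by
    have h2 : ∀ l, Function.update θ i (θ i + u) l * x s l =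
        θ l * x s l + if l = i then u * x s l else 0 := by
      intro l
      by_cases h : l = i
      · subst h; simp; ring
      · simp [h]
    simp only [h2, sum_add_distrib]
    simp
  rw [h1, Real.exp_add]
  rcases hx s i with h | h
  · rw [h]; simp
  · rw [h]; simp; ring

end gen

theorem spin_zero_one (m : ℕ) (s : {s // s ∈ PF m}) (i : Fin m) :
    spin m s i = 0 ∨ spin m s i = 1 := phi_zero_one _

theorem en_one (ω : ℕ → ℝ) : en 1 0 ω = ω := by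
  funext i; simp [en]

theorem ZE_eq (C : Chain) (hnl : ∀ x, C.p x x = 0) (n : ℕ) (θ : ℕ → ℝ) :
    ZE (wt C (2 * n)) (spin (2 * n)) (tr (2 * n) θ) = Zr (Kp C) (Km C) n θ := by
  have h1 := path_sum C hnl 1 0 (2 * n) θ
  have h2 := Zk_eq_Zr C hnl 1 0 n θ
  rw [en_one] at h1 h2
  rw [h1, h2]

end I4

open I4

theorem pE_even (C : Chain) (hnl : ∀ x, C.p x x = 0) {n j : ℕ} (hj1 : 1 ≤ j) (hj : j < n)
    (θ : ℕ → ℝ) :
    pE (wt C (2 * n)) (spin (2 * n)) (tr (2 * n) θ) ⟨2 * j - 1, by omega⟩ =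
      pr (Kp C) (Km C) n j θ := by
  set i₀ : Fin (2 * n) := ⟨2 * j - 1, by omega⟩ with hi₀
  have h1 := ZE_update (w := wt C (2 * n)) (x := spin (2 * n)) (spin_zero_one (2 * n))
    (tr (2 * n) θ) i₀ 1
  set θ' : ℕ → ℝ := Function.update θ (2 * j - 1) (θ (2 * j - 1) + 1) with hθ'
  have h2 : Function.update (tr (2 * n) θ) i₀ (tr (2 * n) θ i₀ + 1) = tr (2 * n) θ' := by
    funext i
    by_cases h : i = i₀
    · subst h
      simp [tr, hθ', hi₀]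
    · have h3 : (i : ℕ) ≠ 2 * j - 1 := fun h4 => h (Fin.ext h4)
      simp [tr, hθ', h, h3]
  rw [h2, ZE_eq C hnl, ZE_eq C hnl, Zr_split hj1 hj.le θ, Zr_split hj1 hj.le θ'] at h1
  have hag : ∀ i, i ≠ 2 * j - 1 → θ' i = θ i := fun i hi => by simp [hθ', hi]
  have h3 := Zpos_indep (a := Kp C) (b := Km C) hj1 hj.le hag
  have h4 := Zneg_indep (a := Kp C) (b := Km C) hj1 hj.le hag
  have h5 : θ' (2 * j - 1) = θ (2 * j - 1) + 1 := by simp [hθ']
  have h6 : Zneg (Kp C) (Km C) n j θ' = Zneg (Kp C) (Km C) n j θ * Real.exp 1 := by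
    have h7 : Real.exp (-θ' (2 * j - 1)) ≠ 0 := (Real.exp_pos _).ne'
    apply mul_right_cancel₀ h7
    rw [h4, mul_assoc, ← Real.exp_add, h5]
    congr 2
    ring
  rw [h3, h6] at h1
  have h8 : Real.exp 1 - 1 ≠ 0 := by
    have := Real.add_one_lt_exp (one_ne_zero : (1 : ℝ) ≠ 0)
    linarith
  have h9 : ∑ s, wt C (2 * n) s * Real.exp (∑ i, tr (2 * n) θ i * spin (2 * n) s i) *
      spin (2 * n) s i₀ = Zneg (Kp C) (Km C) n j θ := by
    apply mul_left_cancel₀ h8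
    linarith
  rw [pE, AE, h9, ZE_eq C hnl]
  rfl

namespace I4

theorem PF_step {m : ℕ} {s : Fin (m + 1) → ℤ} (hs : s ∈ PF m) (i : Fin m) :
    s i.succ = s i.castSucc + 1 ∨ s i.succ = s i.castSucc - 1 := (mem_filter.mp hs).2.2.2 i

/-- parity of the path -/
theorem parity {m : ℕ} {s : Fin (m + 1) → ℤ} (hs : s ∈ PF m) (i : Fin (m + 1)) :
    (s i - (i : ℕ)) % 2 = 0 := by
  obtain ⟨h0, -, hst⟩ := (mem_filter.mp hs).2
  induction i using Fin.induction with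
  | zero => simp [h0]
  | succ i ih =>
    rcases hst i with h | h
    · rw [h]
      simp only [Fin.val_castSucc, Fin.val_succ] at ih ⊢
      push_cast
      omega
    · rw [h]
      simp only [Fin.val_castSucc, Fin.val_succ] at ih ⊢
      push_cast
      omega

theorem spin_odd_le {n j : ℕ} (hj : j < n) (s : {s // s ∈ PF (2 * n)}) :
    spin (2 * n) s ⟨2 * j, by omega⟩ ≤ spin (2 * n) s ⟨2 * j + 1, by omega⟩ := by
  unfold spin
  have hp := parity s.2 (⟨2 * j + 1, by omega⟩ : Fin (2 * n + 1))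
  have h1 := PF_step s.2 ⟨2 * j + 1, by omega⟩
  have e1 : (⟨2 * j, by omega⟩ : Fin (2 * n)).succ = ⟨2 * j + 1, by omega⟩ := rfl
  have e2 : (⟨2 * j + 1, by omega⟩ : Fin (2 * n)).castSucc = ⟨2 * j + 1, by omega⟩ := rfl
  rw [e2] at h1
  rw [e1]
  set a := s.1 (⟨2 * j + 1, by omega⟩ : Fin (2 * n + 1))
  set b := s.1 (⟨2 * j + 1, by omega⟩ : Fin (2 * n)).succ
  simp only at hp
  unfold phi
  by_cases ha : a ≤ 0
  · have hb : b ≤ 0 := by
      push_cast at hp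
      rcases h1 with h | h <;> omega
    rw [if_pos ha, if_pos hb]
  · rw [if_neg ha]
    split_ifs <;> norm_num

/-- pairs of consecutive sites -/
theorem sum_pairs (n : ℕ) (f : ℕ → ℝ) :
    ∑ i : Fin (2 * n), f i = ∑ j ∈ range n, (f (2 * j) + f (2 * j + 1)) := by
  rw [Fin.sum_univ_eq_sum_range (fun i => f i)]
  induction n with
  | zero => simp
  | succ n ih =>
    rw [show 2 * (n + 1) = 2 * n + 1 + 1 by ring, sum_range_succ, sum_range_succ, ih,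
      sum_range_succ]
    ring

/-- local density as a function on `ℕ` -/
def pN (C : Chain) (n : ℕ) (θ : ℕ → ℝ) (i : ℕ) : ℝ :=
  if h : i < 2 * n then pE (wt C (2 * n)) (spin (2 * n)) (tr (2 * n) θ) ⟨i, h⟩ else 0

theorem pN_fin (C : Chain) (n : ℕ) (θ : ℕ → ℝ) (i : Fin (2 * n)) :
    pE (wt C (2 * n)) (spin (2 * n)) (tr (2 * n) θ) i = pN C n θ i := by
  rw [pN, dif_pos i.2]

theorem pN_nonneg (C : Chain) (n : ℕ) (θ : ℕ → ℝ) (i : ℕ) : 0 ≤ pN C n θ i := by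
  unfold pN
  split_ifs
  · exact pE_nn (wt_nonneg C _) (fun s i => phi_nonneg _) _ _
  · exact le_rfl

theorem pN_le (C : Chain) (n : ℕ) (θ : ℕ → ℝ) (i : ℕ) : pN C n θ i ≤ 1 := by
  unfold pN
  split_ifs
  · exact pE_le1 (wt_nonneg C _) (fun s i => phi_le _) _ _
  · exact zero_le_one

theorem pN_pair (C : Chain) {n j : ℕ} (hj : j < n) (θ : ℕ → ℝ) :
    pN C n θ (2 * j) ≤ pN C n θ (2 * j + 1) := by
  rw [pN, pN, dif_pos (by omega), dif_pos (by omega)]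
  exact AE_mono (wt_nonneg C _) _ fun s => spin_odd_le hj s

theorem pN_even (C : Chain) (hnl : ∀ x, C.p x x = 0) {n j : ℕ} (hj : j + 1 < n)
    (θ : ℕ → ℝ) : pN C n θ (2 * j + 1) = pr (Kp C) (Km C) n (j + 1) θ := by
  rw [pN, dif_pos (by omega), ← pE_even C hnl (by omega) hj]
  rfl

theorem pN_meas (C : Chain) (β h : ℝ) (n i : ℕ) :
    Measurable fun ω : ℕ → ℝ => pN C n (en β h ω) i := by
  unfold pN
  split_ifs
  · unfold pE AE ZE tr en
    fun_prop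
  · exact measurable_const

theorem integ (μ : Measure ℝ) [IsProbabilityMeasure μ] {f : (ℕ → ℝ) → ℝ} (hf : Measurable f)
    (h0 : ∀ ω, 0 ≤ f ω) (h1 : ∀ ω, f ω ≤ 1) : Integrable f (seqLaw μ) := by
  refine Integrable.of_bound hf.aestronglyMeasurable 1 (ae_of_all _ fun ω => ?_)
  rw [Real.norm_of_nonneg (h0 ω)]
  exact h1 ω

theorem pN_int (C : Chain) (μ : Measure ℝ) [IsProbabilityMeasure μ] (β h : ℝ) (n i : ℕ) :
    Integrable (fun ω : ℕ → ℝ => pN C n (en β h ω) i) (seqLaw μ) :=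
  integ μ (pN_meas C β h n i) (fun _ => pN_nonneg _ _ _ _) fun _ => pN_le _ _ _ _

theorem pN_sq_int (C : Chain) (μ : Measure ℝ) [IsProbabilityMeasure μ] (β h : ℝ) (n i : ℕ) :
    Integrable (fun ω : ℕ → ℝ => pN C n (en β h ω) i ^ 2) (seqLaw μ) :=
  integ μ ((pN_meas C β h n i).pow_const 2) (fun _ => sq_nonneg _) fun _ =>
    pow_le_one₀ (pN_nonneg _ _ _ _) (pN_le _ _ _ _)

theorem int_sum (μ : Measure ℝ) [IsProbabilityMeasure μ] (n : ℕ) (f : (ℕ → ℝ) → ℕ → ℝ)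
    (hf : ∀ i, Integrable (fun ω => f ω i) (seqLaw μ)) :
    ∫ ω, ∑ i : Fin (2 * n), f ω i ∂seqLaw μ = ∑ j ∈ range n, (∫ ω, f ω (2 * j) ∂seqLaw μ +
      ∫ ω, f ω (2 * j + 1) ∂seqLaw μ) := by
  have h1 : ∀ ω, ∑ i : Fin (2 * n), f ω i = ∑ j ∈ range n, (f ω (2 * j) + f ω (2 * j + 1)) :=
    fun ω => sum_pairs n (f ω)
  simp only [h1]
  rw [integral_finsetSum (range n) (f := fun j ω => f ω (2 * j) + f ω (2 * j + 1))
    fun j _ => (hf (2 * j)).add (hf (2 * j + 1))]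
  refine sum_congr rfl fun j _ => ?_
  exact integral_add (hf (2 * j)) (hf (2 * j + 1))

theorem MZ_eq (C : Chain) (μ : Measure ℝ) [IsProbabilityMeasure μ] (β h : ℝ) (n : ℕ) :
    MZ C μ β h n = ∑ j ∈ range n, (∫ ω, pN C n (en β h ω) (2 * j) ∂seqLaw μ +
      ∫ ω, pN C n (en β h ω) (2 * j + 1) ∂seqLaw μ) := by
  unfold MZ
  simp only [pN_fin]
  exact int_sum μ n (fun ω => pN C n (en β h ω)) (pN_int C μ β h n)

theorem RZ_eq (C : Chain) (μ : Measure ℝ) [IsProbabilityMeasure μ] (β h : ℝ) (n : ℕ) :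
    RZ C μ β h n = ∑ j ∈ range n, (∫ ω, pN C n (en β h ω) (2 * j) ^ 2 ∂seqLaw μ +
      ∫ ω, pN C n (en β h ω) (2 * j + 1) ^ 2 ∂seqLaw μ) := by
  unfold RZ
  simp only [pN_fin]
  exact int_sum μ n (fun ω i => pN C n (en β h ω) i ^ 2) (pN_sq_int C μ β h n)

theorem sum_shift (m : ℕ) (f : ℕ → ℝ) : ∑ j ∈ Ico 1 m, f j = ∑ j ∈ range (m - 1), f (j + 1) := by
  rw [sum_Ico_eq_sum_range]
  exact sum_congr rfl fun j _ => by rw [add_comm]

end I4

theorem MZ_le (C : Chain) (hnl : ∀ x, C.p x x = 0) (μ : Measure ℝ) [IsProbabilityMeasure μ]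
    (β h : ℝ) (n : ℕ) :
    MZ C μ β h n ≤ 2 * (∑ j ∈ Ico 1 n, ∫ ω, pr (Kp C) (Km C) n j (en β h ω) ∂seqLaw μ) + 2 := by
  rcases Nat.eq_zero_or_pos n with rfl | hn
  · simp [MZ]
  obtain ⟨m, rfl⟩ : ∃ m, n = m + 1 := ⟨n - 1, by omega⟩
  rw [MZ_eq, sum_shift, Nat.add_sub_cancel]
  have h1 : ∀ j ∈ range (m + 1), ∫ ω, pN C (m + 1) (en β h ω) (2 * j) ∂seqLaw μ +
      ∫ ω, pN C (m + 1) (en β h ω) (2 * j + 1) ∂seqLaw μ ≤
      2 * ∫ ω, pN C (m + 1) (en β h ω) (2 * j + 1) ∂seqLaw μ := by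
    intro j hj
    have := integral_mono (pN_int C μ β h (m + 1) (2 * j)) (pN_int C μ β h (m + 1) (2 * j + 1))
      fun ω => pN_pair C (mem_range.mp hj) (en β h ω)
    linarith
  refine (sum_le_sum h1).trans ?_
  rw [← mul_sum, sum_range_succ, mul_add]
  have h2 : ∫ ω, pN C (m + 1) (en β h ω) (2 * m + 1) ∂seqLaw μ ≤ 1 := by
    have := integral_mono (pN_int C μ β h (m + 1) (2 * m + 1)) (integrable_const (1 : ℝ))
      fun ω => pN_le C (m + 1) (en β h ω) (2 * m + 1)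
    simpa using this
  have h3 : ∀ j ∈ range m, ∫ ω, pN C (m + 1) (en β h ω) (2 * j + 1) ∂seqLaw μ =
      ∫ ω, pr (Kp C) (Km C) (m + 1) (j + 1) (en β h ω) ∂seqLaw μ := by
    intro j hj
    rw [mem_range] at hj
    simp only [pN_even C hnl (show j + 1 < m + 1 by omega)]
  rw [sum_congr rfl h3]
  linarith

theorem MZ_ge (C : Chain) (hnl : ∀ x, C.p x x = 0) (μ : Measure ℝ) [IsProbabilityMeasure μ]
    (β h : ℝ) (n m : ℕ) (hm : m ≤ n) :
    ∑ j ∈ Ico 1 m, ∫ ω, pr (Kp C) (Km C) n j (en β h ω) ∂seqLaw μ ≤ MZ C μ β h n := by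
  rw [MZ_eq, sum_shift]
  have h0 : ∀ i, 0 ≤ ∫ ω, pN C n (en β h ω) i ∂seqLaw μ := fun i =>
    integral_nonneg fun ω => pN_nonneg _ _ _ _
  calc ∑ j ∈ range (m - 1), ∫ ω, pr (Kp C) (Km C) n (j + 1) (en β h ω) ∂seqLaw μ
      = ∑ j ∈ range (m - 1), ∫ ω, pN C n (en β h ω) (2 * j + 1) ∂seqLaw μ := by
        refine sum_congr rfl fun j hj => ?_
        rw [mem_range] at hj
        simp only [pN_even C hnl (show j + 1 < n by omega)]
    _ ≤ ∑ j ∈ range (m - 1), (∫ ω, pN C n (en β h ω) (2 * j) ∂seqLaw μ +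
        ∫ ω, pN C n (en β h ω) (2 * j + 1) ∂seqLaw μ) :=
        sum_le_sum fun j _ => by have := h0 (2 * j); linarith
    _ ≤ _ := sum_le_sum_of_subset_of_nonneg (range_subset_range.mpr (by omega)) fun j _ _ =>
        add_nonneg (h0 _) (h0 _)

theorem RZ_ge (C : Chain) (hnl : ∀ x, C.p x x = 0) (μ : Measure ℝ) [IsProbabilityMeasure μ]
    (β h : ℝ) (n : ℕ) :
    ∑ j ∈ Ico 1 n, ∫ ω, pr (Kp C) (Km C) n j (en β h ω) ^ 2 ∂seqLaw μ ≤ RZ C μ β h n := by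
  rw [RZ_eq, sum_shift]
  have h0 : ∀ i, 0 ≤ ∫ ω, pN C n (en β h ω) i ^ 2 ∂seqLaw μ := fun i =>
    integral_nonneg fun ω => sq_nonneg _
  calc ∑ j ∈ range (n - 1), ∫ ω, pr (Kp C) (Km C) n (j + 1) (en β h ω) ^ 2 ∂seqLaw μ
      = ∑ j ∈ range (n - 1), ∫ ω, pN C n (en β h ω) (2 * j + 1) ^ 2 ∂seqLaw μ := by
        refine sum_congr rfl fun j hj => ?_
        rw [mem_range] at hj
        simp only [pN_even C hnl (show j + 1 < n by omega)]
    _ ≤ ∑ j ∈ range (n - 1), (∫ ω, pN C n (en β h ω) (2 * j) ^ 2 ∂seqLaw μ +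
        ∫ ω, pN C n (en β h ω) (2 * j + 1) ^ 2 ∂seqLaw μ) :=
        sum_le_sum fun j _ => by have := h0 (2 * j); linarith
    _ ≤ _ := sum_le_sum_of_subset_of_nonneg (range_subset_range.mpr (by omega)) fun j _ _ =>
        add_nonneg (h0 _) (h0 _)

namespace I4

theorem exists_L {a b : ℕ → ℝ} (hK : KerOK a b) {c : ℝ} (hc : 0 < c) :
    ∃ L : ℕ, 1 ≤ L ∧ 16 ≤ b (L + 1) * Real.exp (2 * L * c) := by
  obtain ⟨d, e, hd, -, hb⟩ := hK.b_low
  have h1 := tendsto_exp_mul_div_rpow_atTop e (2 * c) (by positivity)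
  have h2 : Tendsto (fun L : ℕ => ((L + 1 : ℕ) : ℝ)) atTop atTop :=
    tendsto_natCast_atTop_atTop.comp (tendsto_add_atTop_nat 1)
  have h3 := (h1.comp h2).eventually_ge_atTop (16 * Real.exp (2 * c) / d)
  obtain ⟨L, hL, hL1⟩ := (h3.and (eventually_ge_atTop 1)).exists
  refine ⟨L, hL1, ?_⟩
  simp only [Function.comp_apply] at hL
  have h4 := hb (L + 1) (by omega)
  have hpos : (0 : ℝ) < ((L + 1 : ℕ) : ℝ) := by positivity
  have h5 : Real.exp (2 * c * ((L + 1 : ℕ) : ℝ)) = Real.exp (2 * L * c) * Real.exp (2 * c) := by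
    rw [← Real.exp_add]; congr 1; push_cast; ring
  rw [h5, div_le_div_iff₀ hd (Real.rpow_pos_of_pos hpos _)] at hL
  have h6 : 16 * ((L + 1 : ℕ) : ℝ) ^ e ≤ Real.exp (2 * L * c) * d := by
    have h7 := Real.exp_pos (2 * c)
    have h8 : 16 * ((L + 1 : ℕ) : ℝ) ^ e * Real.exp (2 * c) ≤
        Real.exp (2 * L * c) * d * Real.exp (2 * c) := by linarith
    exact le_of_mul_le_mul_right h8 h7
  calc (16 : ℝ) = 16 * ((L + 1 : ℕ) : ℝ) ^ e * ((L + 1 : ℕ) : ℝ) ^ (-e) := by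
        rw [mul_assoc, ← Real.rpow_add hpos]; simp
    _ ≤ Real.exp (2 * L * c) * d * ((L + 1 : ℕ) : ℝ) ^ (-e) := by gcongr
    _ = d * ((L + 1 : ℕ) : ℝ) ^ (-e) * Real.exp (2 * L * c) := by ring
    _ ≤ b (L + 1) * Real.exp (2 * L * c) := by gcongr

end I4

/-- the overlap is bounded below -/
theorem overlap (C : Chain) (hnl : ∀ x, C.p x x = 0) (hK : KerOK (Kp C) (Km C)) (μ : Measure ℝ)
    [IsProbabilityMeasure μ] (hμ : ExpMom μ) {β : ℝ} (hβ : 0 < β) {h₀ : ℝ} (hh : h₀ < lmg μ β) :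
    ∃ r : ℝ, 0 < r ∧ ∃ L : ℕ, ∀ δ : ℝ, 0 ≤ δ → δ ≤ 1 → ∀ n : ℕ, 1 ≤ n →
      r * (MZ C μ β (h₀ - δ) n - (1 / 4) * MZ C μ β (h₀ - δ) (n + L) - 2) ≤
        RZ C μ β (h₀ - δ) n := by
  obtain ⟨L, hL1, hL⟩ := exists_L hK (sub_pos.mpr hh)
  obtain ⟨r, hr, hmain⟩ := ins_main hK μ hμ hβ (|h₀| + 1) L hL1
  refine ⟨r / 2, by positivity, L, fun δ hδ0 hδ1 n hn => ?_⟩
  set h := h₀ - δ with hh'
  have hH : |h| ≤ |h₀| + 1 := by
    rw [hh']
    refine (abs_sub _ _).trans ?_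
    rw [abs_of_nonneg hδ0]
    linarith
  have hbpos := hK.b_pos (L + 1) (by omega)
  have hexp : Real.exp (2 * L * (lmg μ β - h₀)) ≤ Real.exp (2 * L * (lmg μ β - h)) := by
    apply Real.exp_le_exp.mpr
    have : (0 : ℝ) ≤ L := Nat.cast_nonneg _
    apply mul_le_mul_of_nonneg_left _ (by positivity)
    rw [hh']; linarith
  have h16 : 16 ≤ Km C (L + 1) * Real.exp (2 * L * (lmg μ β - h)) :=
    hL.trans (mul_le_mul_of_nonneg_left hexp hbpos.le)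
  have h8 : 2 / (Km C (L + 1) * Real.exp (2 * L * (lmg μ β - h))) ≤ 1 / 8 := by
    rw [div_le_div_iff₀ (by linarith) (by norm_num)]
    linarith
  have hprnn : ∀ N j, j < N → 1 ≤ j → 0 ≤ ∫ ω, pr (Kp C) (Km C) N j (en β h ω) ∂seqLaw μ := by
    intro N j hj hj1
    refine integral_nonneg fun ω => ?_
    obtain ⟨i, rfl⟩ : ∃ i, j = i + 1 := ⟨j - 1, by omega⟩
    change 0 ≤ pr (Kp C) (Km C) N (i + 1) (en β h ω)
    rw [← pN_even C hnl hj]
    exact pN_nonneg _ _ _ _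
  have hj : ∀ j ∈ Ico 1 n, r * (∫ ω, pr (Kp C) (Km C) n j (en β h ω) ∂seqLaw μ -
      1 / 8 * ∫ ω, pr (Kp C) (Km C) (n + L) j (en β h ω) ∂seqLaw μ) ≤
        ∫ ω, pr (Kp C) (Km C) n j (en β h ω) ^ 2 ∂seqLaw μ := by
    intro j hj
    rw [mem_Ico] at hj
    refine le_trans ?_ (hmain h hH n j hj.1 hj.2)
    apply mul_le_mul_of_nonneg_left _ hr.le
    have := mul_le_mul_of_nonneg_right h8 (hprnn (n + L) j (by omega) hj.1)
    linarith
  have hsum := sum_le_sum hj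
  rw [← mul_sum, sum_sub_distrib, ← mul_sum] at hsum
  have hR := RZ_ge C hnl μ β h n
  have hM := MZ_le C hnl μ β h n
  have hM2 := MZ_ge C hnl μ β h (n + L) n (by omega)
  set A := ∑ j ∈ Ico 1 n, ∫ ω, pr (Kp C) (Km C) n j (en β h ω) ∂seqLaw μ
  set B := ∑ j ∈ Ico 1 n, ∫ ω, pr (Kp C) (Km C) (n + L) j (en β h ω) ∂seqLaw μ
  calc r / 2 * (MZ C μ β h n - 1 / 4 * MZ C μ β h (n + L) - 2)
      ≤ r / 2 * (2 * A + 2 - 1 / 4 * B - 2) := by
        apply mul_le_mul_of_nonneg_left _ (by positivity)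
        linarith
    _ = r * (A - 1 / 8 * B) := by ring
    _ ≤ _ := hsum.trans hR

end

end Pool.Agent.OT
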