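import Mathlib
import Pool.Agent.Lib.MP_daa227_pr_OT.Defs

/-!
# The path measure of the copolymer has nonnegative correlations (module P1)
-/

namespace Pool.Agent.OT

open MeasureTheory ProbabilityTheory Finset Filter Topology
open MP_daa227_pr (Chain Zk Zf K0 shift seqLaw ExpMom)
open scoped FinsetFamily

noncomputable section

namespace P1

theorem mem_PF {m : ℕ} {s : Fin (m + 1) → ℤ} : s ∈ PF m ↔
    (∀ i, -(m : ℤ) ≤ s i ∧ s i ≤ m) ∧ s 0 = 0 ∧ s (Fin.last m) = 0 ∧
      ∀ i : Fin m, s i.succ = s i.castSucc + 1 ∨ s i.succ = s i.castSucc - 1 := by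
  unfold PF
  rw [Finset.mem_filter, Fintype.mem_piFinset]
  simp only [Finset.mem_Icc]

theorem parity {m : ℕ} {s : Fin (m + 1) → ℤ} (hs : s ∈ PF m) (i : Fin (m + 1)) :
    (s i - (i : ℕ)) % 2 = 0 := by
  rw [mem_PF] at hs
  obtain ⟨_, h0, _, hst⟩ := hs
  induction i using Fin.induction with
  | zero => rw [h0]; simp
  | succ i ih =>
    have h1 := hst i
    rw [Fin.val_castSucc] at ih
    rw [Fin.val_succ]
    push_cast
    rcases h1 with h1 | h1 <;> rw [h1] <;> omega

theorem diff {m : ℕ} {a b : Fin (m + 1) → ℤ} (ha : a ∈ PF m) (hb : b ∈ PF m) (i : Fin (m + 1)) :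
    (a i - b i) % 2 = 0 := by
  have h1 := parity ha i
  have h2 := parity hb i
  omega

theorem inf_mem {m : ℕ} {a b : Fin (m + 1) → ℤ} (ha : a ∈ PF m) (hb : b ∈ PF m) :
    a ⊓ b ∈ PF m := by
  have hd := diff ha hb
  rw [mem_PF] at ha hb ⊢
  obtain ⟨a1, a2, a3, a4⟩ := ha
  obtain ⟨b1, b2, b3, b4⟩ := hb
  refine ⟨?_, ?_, ?_, ?_⟩
  · intro i
    have h1 := a1 i
    have h2 := b1 i
    rw [Pi.inf_apply]
    omega
  · rw [Pi.inf_apply, a2, b2, inf_idem]
  · rw [Pi.inf_apply, a3, b3, inf_idem]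
  · intro i
    have h1 := a4 i
    have h2 := b4 i
    have h3 := hd i.castSucc
    rw [Pi.inf_apply, Pi.inf_apply]
    omega

theorem sup_mem {m : ℕ} {a b : Fin (m + 1) → ℤ} (ha : a ∈ PF m) (hb : b ∈ PF m) :
    a ⊔ b ∈ PF m := by
  have hd := diff ha hb
  rw [mem_PF] at ha hb ⊢
  obtain ⟨a1, a2, a3, a4⟩ := ha
  obtain ⟨b1, b2, b3, b4⟩ := hb
  refine ⟨?_, ?_, ?_, ?_⟩
  · intro i
    have h1 := a1 i
    have h2 := b1 i
    rw [Pi.sup_apply]
    omega
  · rw [Pi.sup_apply, a2, b2, sup_idem]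
  · rw [Pi.sup_apply, a3, b3, sup_idem]
  · intro i
    have h1 := a4 i
    have h2 := b4 i
    have h3 := hd i.castSucc
    rw [Pi.sup_apply, Pi.sup_apply]
    omega

theorem phi_nonneg (x : ℤ) : 0 ≤ phi x := by
  unfold phi; split_ifs <;> norm_num

theorem phi_le (x : ℤ) : phi x ≤ 1 := by
  unfold phi; split_ifs <;> norm_num

theorem phi_anti {x y : ℤ} (h : x ≤ y) : phi y ≤ phi x := by
  unfold phi
  split_ifs with h1 h2 <;> first | (exfalso; omega) | norm_num

theorem phi_mod (x y : ℤ) : phi x + phi y = phi (min x y) + phi (max x y) := by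
  rcases le_total x y with h | h
  · rw [min_eq_left h, max_eq_right h]
  · rw [min_eq_right h, max_eq_left h, add_comm]

/-- the weight of a path with energies `θ` -/
def vv (C : Chain) (m : ℕ) (θ : Fin m → ℝ) (s : Fin (m + 1) → ℤ) : ℝ :=
  if s ∈ PF m then (∏ i : Fin m, C.p (s i.castSucc) (s i.succ)) *
    Real.exp (∑ i : Fin m, θ i * phi (s i.succ)) else 0

theorem vv_nonneg (C : Chain) (m : ℕ) (θ : Fin m → ℝ) (s : Fin (m + 1) → ℤ) :
    0 ≤ vv C m θ s := by
  unfold vv
  split_ifs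
  · exact mul_nonneg (Finset.prod_nonneg fun i _ => C.nonneg _ _) (Real.exp_pos _).le
  · exact le_rfl

theorem vv_mul (C : Chain) (m : ℕ) (θ : Fin m → ℝ) {a b : Fin (m + 1) → ℤ} (ha : a ∈ PF m)
    (hb : b ∈ PF m) : vv C m θ a * vv C m θ b = vv C m θ (a ⊓ b) * vv C m θ (a ⊔ b) := by
  unfold vv
  rw [if_pos ha, if_pos hb, if_pos (inf_mem ha hb), if_pos (sup_mem ha hb)]
  have h1 : (∏ i : Fin m, C.p (a i.castSucc) (a i.succ)) *
      (∏ i : Fin m, C.p (b i.castSucc) (b i.succ)) =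
      (∏ i : Fin m, C.p ((a ⊓ b) i.castSucc) ((a ⊓ b) i.succ)) *
      (∏ i : Fin m, C.p ((a ⊔ b) i.castSucc) ((a ⊔ b) i.succ)) := by
    rw [← Finset.prod_mul_distrib, ← Finset.prod_mul_distrib]
    refine Finset.prod_congr rfl fun i _ => ?_
    have hd := diff ha hb i.castSucc
    have ha4 := (mem_PF.mp ha).2.2.2 i
    have hb4 := (mem_PF.mp hb).2.2.2 i
    simp only [Pi.inf_apply, Pi.sup_apply]
    rcases lt_trichotomy (a i.castSucc) (b i.castSucc) with h | h | h
    · have h' : a i.succ ≤ b i.succ := by omega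
      rw [min_eq_left h.le, max_eq_right h.le, min_eq_left h', max_eq_right h']
    · rw [h, min_self, max_self]
      rcases le_total (a i.succ) (b i.succ) with h' | h'
      · rw [min_eq_left h', max_eq_right h']
      · rw [min_eq_right h', max_eq_left h', mul_comm]
    · have h' : b i.succ ≤ a i.succ := by omega
      rw [min_eq_right h.le, max_eq_left h.le, min_eq_right h', max_eq_left h', mul_comm]
  have h2 : (∑ i : Fin m, θ i * phi (a i.succ)) + (∑ i : Fin m, θ i * phi (b i.succ)) =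
      (∑ i : Fin m, θ i * phi ((a ⊓ b) i.succ)) + (∑ i : Fin m, θ i * phi ((a ⊔ b) i.succ)) := by
    rw [← Finset.sum_add_distrib, ← Finset.sum_add_distrib]
    refine Finset.sum_congr rfl fun i _ => ?_
    rw [← mul_add, ← mul_add, Pi.inf_apply, Pi.sup_apply, phi_mod]
  calc (∏ i : Fin m, C.p (a i.castSucc) (a i.succ)) *
        Real.exp (∑ i : Fin m, θ i * phi (a i.succ)) *
        ((∏ i : Fin m, C.p (b i.castSucc) (b i.succ)) *
        Real.exp (∑ i : Fin m, θ i * phi (b i.succ))) =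
        ((∏ i : Fin m, C.p (a i.castSucc) (a i.succ)) *
        (∏ i : Fin m, C.p (b i.castSucc) (b i.succ))) *
        Real.exp ((∑ i : Fin m, θ i * phi (a i.succ)) + (∑ i : Fin m, θ i * phi (b i.succ))) := by
          rw [Real.exp_add]; ring
    _ = _ := by rw [h1, h2, Real.exp_add]; ring

theorem fkg (C : Chain) (m : ℕ) (θ : Fin m → ℝ) (i j : Fin m) :
    (∑ s ∈ PF m, vv C m θ s * phi (s i.succ)) * (∑ s ∈ PF m, vv C m θ s * phi (s j.succ)) ≤
      (∑ s ∈ PF m, vv C m θ s * phi (s i.succ) * phi (s j.succ)) * (∑ s ∈ PF m, vv C m θ s) := by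
  classical
  have hv := vv_nonneg C m θ
  have h3 : ∀ s : Fin (m + 1) → ℤ, 0 ≤ vv C m θ s * phi (s i.succ) * phi (s j.succ) :=
    fun s => mul_nonneg (mul_nonneg (hv s) (phi_nonneg _)) (phi_nonneg _)
  have key := four_functions_theorem (fun s => vv C m θ s * phi (s i.succ))
    (fun s => vv C m θ s * phi (s j.succ))
    (fun s => vv C m θ s * phi (s i.succ) * phi (s j.succ)) (fun s => vv C m θ s)
    (fun s => mul_nonneg (hv s) (phi_nonneg _)) (fun s => mul_nonneg (hv s) (phi_nonneg _))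
    h3 hv ?_ (PF m) (PF m)
  · refine key.trans ?_
    have hinf : PF m ⊼ PF m ⊆ PF m := by
      intro s hs
      obtain ⟨a, ha, b, hb, rfl⟩ := Finset.mem_infs.mp hs
      exact inf_mem ha hb
    have hsup : PF m ⊻ PF m ⊆ PF m := by
      intro s hs
      obtain ⟨a, ha, b, hb, rfl⟩ := Finset.mem_sups.mp hs
      exact sup_mem ha hb
    refine mul_le_mul (Finset.sum_le_sum_of_subset_of_nonneg hinf fun s _ _ => h3 s)
      (Finset.sum_le_sum_of_subset_of_nonneg hsup fun s _ _ => hv s)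
      (Finset.sum_nonneg fun s _ => hv s) (Finset.sum_nonneg fun s _ => h3 s)
  · intro a b
    by_cases ha : a ∈ PF m
    · by_cases hb : b ∈ PF m
      · have h4 := vv_mul C m θ ha hb
        have h5 : phi (a i.succ) ≤ phi ((a ⊓ b) i.succ) := phi_anti inf_le_left
        have h6 : phi (b j.succ) ≤ phi ((a ⊓ b) j.succ) := phi_anti inf_le_right
        have h7 : phi (a i.succ) * phi (b j.succ) ≤ phi ((a ⊓ b) i.succ) * phi ((a ⊓ b) j.succ) :=
          mul_le_mul h5 h6 (phi_nonneg _) (phi_nonneg _)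
        calc vv C m θ a * phi (a i.succ) * (vv C m θ b * phi (b j.succ)) =
            (vv C m θ a * vv C m θ b) * (phi (a i.succ) * phi (b j.succ)) := by ring
          _ ≤ (vv C m θ a * vv C m θ b) * (phi ((a ⊓ b) i.succ) * phi ((a ⊓ b) j.succ)) :=
            mul_le_mul_of_nonneg_left h7 (mul_nonneg (hv a) (hv b))
          _ = _ := by rw [h4]; ring
      · have h4 : vv C m θ b = 0 := by unfold vv; rw [if_neg hb]
        rw [h4, zero_mul, mul_zero]
        exact mul_nonneg (h3 _) (hv _)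
    · have h4 : vv C m θ a = 0 := by unfold vv; rw [if_neg ha]
      rw [h4, zero_mul, zero_mul]
      exact mul_nonneg (h3 _) (hv _)

theorem vv_coe (C : Chain) (m : ℕ) (θ : Fin m → ℝ) (s : {s // s ∈ PF m}) :
    wt C m s * Real.exp (∑ i, θ i * spin m s i) = vv C m θ s.1 := by
  unfold vv wt spin
  rw [if_pos s.2]

/-- the zigzag path -/
def zz (n : ℕ) : Fin (2 * n + 1) → ℤ := fun i => ((i : ℕ) : ℤ) % 2

theorem zz_mem (n : ℕ) : zz n ∈ PF (2 * n) := by
  rw [mem_PF]
  refine ⟨?_, ?_, ?_, ?_⟩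
  · intro i
    have hi := i.isLt
    unfold zz
    push_cast
    omega
  · simp [zz]
  · simp [zz]
  · intro i
    simp only [zz, Fin.val_succ, Fin.val_castSucc]
    push_cast
    omega

end P1

open P1 in
theorem path_EFam (C : Chain) (n : ℕ) : EFam (wt C (2 * n)) (spin (2 * n)) := by
  refine ⟨?_, ?_, ?_, ?_, ?_⟩
  · intro s
    exact Finset.prod_nonneg fun i _ => C.nonneg _ _
  · refine ⟨⟨zz n, zz_mem n⟩, ?_⟩
    refine Finset.prod_pos fun i _ => ?_
    simp only [zz, Fin.val_succ, Fin.val_castSucc]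
    rcases Int.emod_two_eq_zero_or_one ((i : ℕ) : ℤ) with h | h
    · have h1 : ((((i : ℕ) + 1 : ℕ) : ℤ)) % 2 = 0 + 1 := by push_cast; omega
      rw [h, h1]
      exact C.up 0
    · have h1 : ((((i : ℕ) + 1 : ℕ) : ℤ)) % 2 = 1 - 1 := by push_cast; omega
      rw [h, h1]
      exact C.down 1
  · intro s i
    exact phi_nonneg _
  · intro s i
    exact phi_le _
  · intro θ i j
    have hZ : ZE (wt C (2 * n)) (spin (2 * n)) θ = ∑ s ∈ PF (2 * n), vv C (2 * n) θ s := by
      unfold ZE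
      exact (Finset.sum_congr rfl fun s _ => vv_coe C (2 * n) θ s).trans
        (Finset.sum_coe_sort (PF (2 * n)) (vv C (2 * n) θ))
    have h1 : ∀ i : Fin (2 * n), (∑ s, wt C (2 * n) s *
        Real.exp (∑ i, θ i * spin (2 * n) s i) * spin (2 * n) s i) =
        ∑ s ∈ PF (2 * n), vv C (2 * n) θ s * phi (s i.succ) := by
      intro i
      refine (Finset.sum_congr rfl fun s _ => ?_).trans
        (Finset.sum_coe_sort (PF (2 * n)) (fun s => vv C (2 * n) θ s * phi (s i.succ)))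
      rw [vv_coe]
      rfl
    have h2 : (∑ s, wt C (2 * n) s *
        Real.exp (∑ i, θ i * spin (2 * n) s i) * (spin (2 * n) s i * spin (2 * n) s j)) =
        ∑ s ∈ PF (2 * n), vv C (2 * n) θ s * phi (s i.succ) * phi (s j.succ) := by
      refine (Finset.sum_congr rfl fun s _ => ?_).trans
        (Finset.sum_coe_sort (PF (2 * n))
          (fun s => vv C (2 * n) θ s * phi (s i.succ) * phi (s j.succ)))
      rw [vv_coe, ← mul_assoc]
      rfl
    have hfkg := fkg C (2 * n) θ i j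
    have hnn : 0 ≤ ∑ s ∈ PF (2 * n), vv C (2 * n) θ s :=
      Finset.sum_nonneg fun s _ => vv_nonneg _ _ _ _
    unfold cE pE AE
    rw [hZ, h1 i, h1 j, h2]
    rcases hnn.eq_or_lt with h0 | h0
    · rw [← h0]; simp
    · rw [div_mul_div_comm, sub_nonneg, div_le_div_iff₀ (mul_pos h0 h0) h0]
      calc _ ≤ ((∑ s ∈ PF (2 * n), vv C (2 * n) θ s * phi (s i.succ) * phi (s j.succ)) *
            (∑ s ∈ PF (2 * n), vv C (2 * n) θ s)) * (∑ s ∈ PF (2 * n), vv C (2 * n) θ s) :=
            mul_le_mul_of_nonneg_right hfkg hnn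
        _ = _ := by ring

end

end Pool.Agent.OT
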