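import Mathlib
import Pool.Agent.Lib.MP_daa227_pr_OT.Defs
import Pool.Agent.Lib.MP_daa227_pr_OT.EFc
import Pool.Agent.Lib.MP_daa227_pr_OT.Paths
import Pool.Agent.Lib.MP_daa227_pr_OT.PE
import Pool.Agent.Lib.MP_daa227_pr_OT.Sup

/-!
# PROJECT OT, module L2: convexity in the field
-/

namespace Pool.Agent.OT

open MeasureTheory ProbabilityTheory Finset Filter Topology
open MP_daa227_pr (Chain Zk Zf K0 shift seqLaw ExpMom)

noncomputable section

open I4 in
theorem LZ_conv (C : Chain) (hnl : ∀ x, C.p x x = 0) (hK : KerOK (Kp C) (Km C)) (μ : Measure ℝ)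
    [IsProbabilityMeasure μ] (hμ : ExpMom μ) (β h δ : ℝ) (_hδ : 0 ≤ δ) (n : ℕ) :
    LZ C μ β (h - δ) n ≤ LZ C μ β h n + δ * MZ C μ β (h - δ) n := by
  have hE := path_EFam C n
  have hi : Integrable (fun ω : ℕ → ℝ => ∑ i, pE (wt C (2 * n)) (spin (2 * n))
      (tr (2 * n) (en β (h - δ) ω)) i) (seqLaw μ) := by
    refine integrable_finsetSum _ fun i _ => ?_
    simp only [pN_fin]
    exact pN_int C μ β (h - δ) n i
  have hpt : ∀ ω : ℕ → ℝ, Real.log (Zr (Kp C) (Km C) n (en β (h - δ) ω)) ≤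
      Real.log (Zr (Kp C) (Km C) n (en β h ω)) + δ * ∑ i, pE (wt C (2 * n)) (spin (2 * n))
        (tr (2 * n) (en β (h - δ) ω)) i := by
    intro ω
    have h1 := log_tangent hE (tr (2 * n) (en β (h - δ) ω)) (tr (2 * n) (en β h ω))
    rw [ZE_eq C hnl, ZE_eq C hnl] at h1
    have h2 : ∑ i, (tr (2 * n) (en β h ω) i - tr (2 * n) (en β (h - δ) ω) i) *
        pE (wt C (2 * n)) (spin (2 * n)) (tr (2 * n) (en β (h - δ) ω)) i =
        -(δ * ∑ i, pE (wt C (2 * n)) (spin (2 * n)) (tr (2 * n) (en β (h - δ) ω)) i) := by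
      rw [mul_sum, ← sum_neg_distrib]
      refine sum_congr rfl fun i _ => ?_
      unfold tr en
      ring
    rw [h2] at h1
    linarith
  unfold LZ MZ
  rw [← integral_const_mul, ← integral_add (integrable_logZr hK μ hμ β h n) (hi.const_mul δ)]
  exact integral_mono (integrable_logZr hK μ hμ β (h - δ) n)
    ((integrable_logZr hK μ hμ β h n).add (hi.const_mul δ)) hpt

open I4 in
theorem MZ_bounds (C : Chain) (μ : Measure ℝ) [IsProbabilityMeasure μ] (β h : ℝ) (n : ℕ) :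
    0 ≤ MZ C μ β h n ∧ MZ C μ β h n ≤ 2 * n ∧ 0 ≤ RZ C μ β h n := by
  have hi : ∀ i : Fin (2 * n), Integrable (fun ω : ℕ → ℝ => pE (wt C (2 * n)) (spin (2 * n))
      (tr (2 * n) (en β h ω)) i) (seqLaw μ) := by
    intro i
    simp only [pN_fin]
    exact pN_int C μ β h n i
  have h0 : ∀ (ω : ℕ → ℝ) (i : Fin (2 * n)),
      0 ≤ pE (wt C (2 * n)) (spin (2 * n)) (tr (2 * n) (en β h ω)) i := fun ω i => by
    rw [pN_fin]; exact pN_nonneg _ _ _ _
  have h1 : ∀ (ω : ℕ → ℝ) (i : Fin (2 * n)),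
      pE (wt C (2 * n)) (spin (2 * n)) (tr (2 * n) (en β h ω)) i ≤ 1 := fun ω i => by
    rw [pN_fin]; exact pN_le _ _ _ _
  refine ⟨integral_nonneg fun ω => sum_nonneg fun i _ => h0 ω i, ?_,
    integral_nonneg fun ω => sum_nonneg fun i _ => sq_nonneg _⟩
  unfold MZ
  have h2 : ∫ ω, ∑ i, pE (wt C (2 * n)) (spin (2 * n)) (tr (2 * n) (en β h ω)) i ∂seqLaw μ ≤
      ∫ _ω : ℕ → ℝ, (2 * n : ℝ) ∂seqLaw μ := by
    refine integral_mono (integrable_finsetSum _ fun i _ => hi i) (integrable_const _) fun ω => ?_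
    refine (sum_le_sum fun i _ => h1 ω i).trans ?_
    simp
  simpa using h2

end

end Pool.Agent.OT
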