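import Mathlib
import Pool.Agent.Lib.MP_daa227_pr_OT.Defs

/-!
# PROJECT OT, module Z1: the induction over the scales
-/

namespace Pool.Agent.OT

open MeasureTheory ProbabilityTheory Finset Filter Topology
open MP_daa227_pr (Chain Zk Zf K0 shift seqLaw ExpMom)

noncomputable section

namespace Z1

lemma dyp (k : ℕ) : 0 < dy k := by unfold dy; positivity

lemma dys (k : ℕ) : dy (k + 1) = dy k / 2 := by unfold dy; rw [pow_succ]; ring

lemma dy_mul (k : ℕ) : dy k * 2 ^ k = 1 := by
  unfold dy; rw [← mul_pow]; norm_num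

lemma dy_le1 (k : ℕ) : dy k ≤ 1 := pow_le_one₀ (by norm_num) (by norm_num)

lemma sum_dy (j m : ℕ) (h : j ≤ m) : ∑ i ∈ Ico j m, dy (i + 1) = dy j - dy m := by
  induction m, h using Nat.le_induction with
  | base => simp
  | succ m hm ih =>
    rw [sum_Ico_succ_top hm, ih, dys m]; ring

/-- the sequence of constants -/
def Af (D : ℝ) : ℕ → ℝ
  | 0 => 4
  | k + 1 => 8 * D * dy (k + 1) / (1 + 1 / (2 * D)) ^ k

lemma Af_pos {D : ℝ} (hD : 0 < D) : ∀ k, 0 < Af D k
  | 0 => by norm_num [Af]
  | k + 1 => by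
      have := dyp (k + 1)
      unfold Af
      positivity

lemma J_eq {D : ℝ} (hD : 0 < D) (k : ℕ) :
    ∑ j ∈ range (k + 1), dy (j + 1) / Af D j = (1 + 1 / (2 * D)) ^ k / 8 := by
  induction k with
  | zero =>
    simp [Af, dy]
    norm_num
  | succ k ih =>
    rw [sum_range_succ, ih]
    have h1 : Af D (k + 1) = 8 * D * dy (k + 1) / (1 + 1 / (2 * D)) ^ k := rfl
    have h2 := dyp (k + 1)
    have h3 : 0 < (1 + 1 / (2 * D)) ^ k := by positivity
    rw [h1, dys (k + 1), pow_succ]
    field_simp

/-- the elementary growth fact -/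
lemma ev_small (a : ℝ) {c : ℝ} (hc : 0 < c) :
    ∀ᶠ N : ℕ in atTop, a * ((N : ℝ) * (1 + Real.log (2 * N))) ≤ c * (N : ℝ) ^ 2 := by
  have h1 : Tendsto (fun x : ℝ => Real.log x / x) atTop (𝓝 0) := by
    have := Real.tendsto_pow_log_div_mul_add_atTop 1 0 1 one_ne_zero
    simpa using this
  have h2 : Tendsto (fun N : ℕ => (2 * (N : ℝ))) atTop atTop :=
    Tendsto.const_mul_atTop (by norm_num) tendsto_natCast_atTop_atTop
  have h3 := h1.comp h2
  have h4 : Tendsto (fun N : ℕ => (1 : ℝ) / N) atTop (𝓝 0) := tendsto_one_div_atTop_nhds_zero_nat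
  have h5 : Tendsto (fun N : ℕ => a * (1 / N + 2 * (Real.log (2 * N) / (2 * N)))) atTop (𝓝 0) := by
    have := (h4.add (h3.const_mul 2)).const_mul a
    simpa using this
  have h6 := h5.eventually (gt_mem_nhds hc)
  filter_upwards [h6, eventually_ge_atTop 1] with N hN hN1
  have hNR : (0 : ℝ) < N := by exact_mod_cast hN1
  have h7 : a * ((N : ℝ) * (1 + Real.log (2 * N))) =
      (a * (1 / N + 2 * (Real.log (2 * N) / (2 * N)))) * (N : ℝ) ^ 2 := by
    field_simp
  rw [h7]
  exact mul_le_mul_of_nonneg_right hN.le (by positivity)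

end Z1

open Z1 in
theorem num_main (M R : ℕ → ℕ → ℝ) (r γ b A : ℝ) (L : ℕ) (hr : 0 < r) (hγ : 0 < γ) (hb : 0 < b)
    (hA : 0 ≤ A) (hM0 : ∀ k n : ℕ, 0 ≤ M k n) (hM1 : ∀ k n : ℕ, M k n ≤ 2 * n)
    (hO : ∀ k n : ℕ, 1 ≤ n → r * (M k n - (1 / 4) * M k (n + L) - 2) ≤ R k n)
    (hT : ∀ k n : ℕ, 1 ≤ n → ∀ t : ℕ → ℝ, (∀ j, 0 ≤ t j) →
      γ * (-(A * (1 + Real.log n)) - dy (k + 1) * M (k + 1) n +
          b ^ 2 * (∑ j ∈ range (k + 1), t j) * R (k + 1) n) -
        ∑ j ∈ range (k + 1), t j * (b ^ 2 + b ^ 4 * 2 ^ (j + 1)) *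
          ∑ i ∈ Ico j (k + 1), t i * M i n ≤ A * (1 + Real.log n)) :
    ∃ D q : ℝ, 0 < D ∧ 0 < q ∧ q < 1 / 2 ∧ ∀ k : ℕ, ∀ᶠ N : ℕ in atTop,
      ∑ n ∈ Ico N (2 * N), M k n ≤ D * q ^ k * (N : ℝ) ^ 2 := by
  set D := 32 * (b ^ 2 + 2 * b ^ 4) / (γ * b ^ 4 * r ^ 2) with hD
  have hD0 : 0 < D := by rw [hD]; positivity
  set S : ℕ → ℕ → ℝ := fun k N => ∑ n ∈ Ico N (2 * N), M k n with hS
  -- the main claim
  have main : ∀ k, ∀ᶠ N : ℕ in atTop, S k N ≤ Af D k * (N : ℝ) ^ 2 := by
    intro k
    induction k using Nat.strong_induction_on with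
    | _ k ih =>
    rcases k with _ | k
    · refine Eventually.of_forall fun N => ?_
      have h1 : ∀ n ∈ Ico N (2 * N), M 0 n ≤ 4 * N := by
        intro n hn
        rw [mem_Ico] at hn
        have h2 := hM1 0 n
        have h3 : (n : ℝ) ≤ 2 * N := by exact_mod_cast hn.2.le
        linarith
      have h2 := sum_le_card_nsmul _ _ _ h1
      rw [Nat.card_Ico, nsmul_eq_mul, show 2 * N - N = N by omega] at h2
      refine h2.trans (le_of_eq ?_)
      show (N : ℝ) * (4 * N) = 4 * (N : ℝ) ^ 2
      ring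
    · set J := ∑ j ∈ range (k + 1), dy (j + 1) / Af D j with hJ
      have hJe : J = (1 + 1 / (2 * D)) ^ k / 8 := J_eq hD0 k
      have hJ0 : 0 < J := by rw [hJe]; positivity
      set d := dy (k + 1) with hd
      have hd0 : 0 < d := dyp _
      set lam := 4 * d / (b ^ 2 * r * J) with hlam
      have hlam0 : 0 < lam := by rw [hlam]; positivity
      set t : ℕ → ℝ := fun i => lam * (dy (i + 1) / Af D i) with ht
      have ht0 : ∀ j, 0 ≤ t j := fun j =>
        mul_nonneg hlam0.le (div_nonneg (dyp _).le (Af_pos hD0 _).le)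
      have hTs : ∑ j ∈ range (k + 1), t j = lam * J := by rw [hJ, mul_sum]
      have hbT : b ^ 2 * (lam * J) * r = 4 * d := by
        rw [hlam]; field_simp
      -- previous scales
      have hprev : ∀ᶠ N : ℕ in atTop, ∀ i ∈ range (k + 1), S i N ≤ Af D i * (N : ℝ) ^ 2 :=
        (eventually_all_finset _).2 fun i hi => ih i (by rw [mem_range] at hi; exact hi)
      -- error terms
      set C₁ : ℝ := (L : ℝ) * (L + 2) / 2 + 2 with hC₁
      have hC₁0 : 0 < C₁ := by rw [hC₁]; positivity
      set a : ℝ := 4 * γ * d * C₁ + (1 + γ) * A with ha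
      have ha0 : 0 ≤ a := by
        rw [ha]; positivity
      have hAk : Af D (k + 1) = D * (d / J) := by
        rw [hJe]
        show 8 * D * d / (1 + 1 / (2 * D)) ^ k = _
        field_simp
      have hpos : 0 < γ * d * (D * (d / J)) := by positivity
      filter_upwards [hprev, ev_small a hpos, eventually_ge_atTop 1] with N hN hN2 hN1
      have hNR : (1 : ℝ) ≤ N := by exact_mod_cast hN1
      have hlogN : 0 ≤ Real.log (2 * N) := Real.log_nonneg (by linarith)
      -- cost
      have hcost : ∑ j ∈ range (k + 1), t j * (b ^ 2 + b ^ 4 * 2 ^ (j + 1)) *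
          ∑ i ∈ Ico j (k + 1), t i * S i N ≤ (b ^ 2 + 2 * b ^ 4) * lam * (lam * J) * (N : ℝ) ^ 2 := by
        have h1 : ∀ j ∈ range (k + 1), t j * (b ^ 2 + b ^ 4 * 2 ^ (j + 1)) *
            ∑ i ∈ Ico j (k + 1), t i * S i N ≤
            t j * ((b ^ 2 + 2 * b ^ 4) * lam * (N : ℝ) ^ 2) := by
          intro j hj
          rw [mem_range] at hj
          have h2 : ∑ i ∈ Ico j (k + 1), t i * S i N ≤ lam * dy j * (N : ℝ) ^ 2 := by
            calc ∑ i ∈ Ico j (k + 1), t i * S i N
                ≤ ∑ i ∈ Ico j (k + 1), lam * (N : ℝ) ^ 2 * dy (i + 1) := by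
                  apply sum_le_sum
                  intro i hi
                  rw [mem_Ico] at hi
                  have h3 := hN i (mem_range.2 hi.2)
                  have h4 := Af_pos hD0 i
                  calc t i * S i N ≤ t i * (Af D i * (N : ℝ) ^ 2) :=
                        mul_le_mul_of_nonneg_left h3 (ht0 i)
                    _ = _ := by rw [ht]; field_simp
              _ = lam * (N : ℝ) ^ 2 * (dy j - dy (k + 1)) := by
                  rw [← mul_sum, sum_dy j (k + 1) (by omega)]
              _ ≤ lam * (N : ℝ) ^ 2 * dy j := by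
                  apply mul_le_mul_of_nonneg_left _ (by positivity)
                  have := dyp (k + 1)
                  linarith
              _ = _ := by ring
          have h5 : (b ^ 2 + b ^ 4 * 2 ^ (j + 1)) * dy j ≤ b ^ 2 + 2 * b ^ 4 := by
            have h6 := dy_mul j
            have h7 := dy_le1 j
            have h8 : (b ^ 2 + b ^ 4 * 2 ^ (j + 1)) * dy j =
                b ^ 2 * dy j + 2 * b ^ 4 * (dy j * 2 ^ j) := by rw [pow_succ]; ring
            rw [h8, h6]
            have h9 : b ^ 2 * dy j ≤ b ^ 2 * 1 := mul_le_mul_of_nonneg_left h7 (by positivity)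
            linarith
          calc t j * (b ^ 2 + b ^ 4 * 2 ^ (j + 1)) * ∑ i ∈ Ico j (k + 1), t i * S i N
              ≤ t j * (b ^ 2 + b ^ 4 * 2 ^ (j + 1)) * (lam * dy j * (N : ℝ) ^ 2) :=
                mul_le_mul_of_nonneg_left h2 (mul_nonneg (ht0 j) (by positivity))
            _ = t j * (((b ^ 2 + b ^ 4 * 2 ^ (j + 1)) * dy j) * (lam * (N : ℝ) ^ 2)) := by ring
            _ ≤ t j * ((b ^ 2 + 2 * b ^ 4) * (lam * (N : ℝ) ^ 2)) := by
                apply mul_le_mul_of_nonneg_left _ (ht0 j)
                exact mul_le_mul_of_nonneg_right h5 (by positivity)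
            _ = _ := by ring
        calc _ ≤ ∑ j ∈ range (k + 1), t j * ((b ^ 2 + 2 * b ^ 4) * lam * (N : ℝ) ^ 2) :=
              sum_le_sum h1
          _ = (∑ j ∈ range (k + 1), t j) * ((b ^ 2 + 2 * b ^ 4) * lam * (N : ℝ) ^ 2) := by
              rw [sum_mul]
          _ = _ := by rw [hTs]; ring
      -- overlap
      have hover : r * (3 / 4 * S (k + 1) N - C₁ * N) ≤ ∑ n ∈ Ico N (2 * N), R (k + 1) n := by
        have h1 : ∑ n ∈ Ico N (2 * N), r * (M (k + 1) n - (1 / 4) * M (k + 1) (n + L) - 2) ≤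
            ∑ n ∈ Ico N (2 * N), R (k + 1) n := by
          apply sum_le_sum
          intro n hn
          rw [mem_Ico] at hn
          exact hO (k + 1) n (by omega)
        refine le_trans ?_ h1
        rw [← mul_sum]
        apply mul_le_mul_of_nonneg_left _ hr.le
        rw [sum_sub_distrib, sum_sub_distrib, ← mul_sum]
        have h2 : ∑ n ∈ Ico N (2 * N), M (k + 1) (n + L) ≤
            S (k + 1) N + (L : ℝ) * (2 * (2 * N + L)) := by
          have h3 : ∑ n ∈ Ico N (2 * N), M (k + 1) (n + L) =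
              ∑ n ∈ Ico (N + L) (2 * N + L), M (k + 1) n := by
            rw [← sum_Ico_add' (fun n => M (k + 1) n) N (2 * N) L]
          rw [h3]
          calc ∑ n ∈ Ico (N + L) (2 * N + L), M (k + 1) n
              ≤ ∑ n ∈ Ico N (2 * N + L), M (k + 1) n := by
                apply sum_le_sum_of_subset_of_nonneg
                · intro n hn
                  rw [mem_Ico] at hn ⊢
                  omega
                · intro n _ _
                  exact hM0 _ _
            _ = S (k + 1) N + ∑ n ∈ Ico (2 * N) (2 * N + L), M (k + 1) n :=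
                (sum_Ico_consecutive _ (by omega) (by omega)).symm
            _ ≤ _ := by
                have h4 : ∀ n ∈ Ico (2 * N) (2 * N + L), M (k + 1) n ≤ 2 * (2 * N + L) := by
                  intro n hn
                  rw [mem_Ico] at hn
                  have h5 := hM1 (k + 1) n
                  have h6 : (n : ℝ) ≤ 2 * N + L := by exact_mod_cast hn.2.le
                  linarith
                have h5 := sum_le_card_nsmul _ _ _ h4
                rw [Nat.card_Ico, nsmul_eq_mul, show 2 * N + L - 2 * N = L by omega] at h5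
                linarith
        have h6 : ∑ n ∈ Ico N (2 * N), (2 : ℝ) = 2 * N := by
          rw [sum_const, Nat.card_Ico, nsmul_eq_mul, show 2 * N - N = N by omega]; ring
        rw [h6]
        have h7 : (L : ℝ) * (2 * (2 * N + L)) ≤ 4 * ((L : ℝ) * (L + 2) / 2) * N := by
          have hL0 : (0 : ℝ) ≤ L := Nat.cast_nonneg L
          nlinarith [mul_nonneg hL0 hL0, mul_nonneg (mul_nonneg hL0 hL0) (sub_nonneg.2 hNR)]
        have h8 : S (k + 1) N = ∑ n ∈ Ico N (2 * N), M (k + 1) n := rfl
        rw [hC₁]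
        rw [h8] at h2 ⊢
        nlinarith
      -- summation of the tilting inequality
      have hsum : γ * (-(A * (N * (1 + Real.log (2 * N)))) - d * S (k + 1) N +
          b ^ 2 * (lam * J) * ∑ n ∈ Ico N (2 * N), R (k + 1) n) -
          ∑ j ∈ range (k + 1), t j * (b ^ 2 + b ^ 4 * 2 ^ (j + 1)) *
            ∑ i ∈ Ico j (k + 1), t i * S i N ≤ A * (N * (1 + Real.log (2 * N))) := by
        have h1 : ∀ n ∈ Ico N (2 * N), γ * (-(A * (1 + Real.log (2 * N))) - d * M (k + 1) n +
            b ^ 2 * (lam * J) * R (k + 1) n) -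
            ∑ j ∈ range (k + 1), t j * (b ^ 2 + b ^ 4 * 2 ^ (j + 1)) *
              ∑ i ∈ Ico j (k + 1), t i * M i n ≤ A * (1 + Real.log (2 * N)) := by
          intro n hn
          rw [mem_Ico] at hn
          have hn1 : 1 ≤ n := by omega
          have hnR : (1 : ℝ) ≤ n := by exact_mod_cast hn1
          have h2 := hT k n hn1 t ht0
          rw [hTs] at h2
          have h3 : Real.log n ≤ Real.log (2 * N) := by
            apply Real.log_le_log (by linarith)
            exact_mod_cast hn.2.le
          have h4 : A * (1 + Real.log n) ≤ A * (1 + Real.log (2 * N)) :=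
            mul_le_mul_of_nonneg_left (by linarith) hA
          have h5 : γ * (-(A * (1 + Real.log (2 * N))) - d * M (k + 1) n +
              b ^ 2 * (lam * J) * R (k + 1) n) ≤ γ * (-(A * (1 + Real.log n)) - d * M (k + 1) n +
              b ^ 2 * (lam * J) * R (k + 1) n) :=
            mul_le_mul_of_nonneg_left (by linarith) hγ.le
          linarith
        have h2 := sum_le_sum h1
        rw [sum_sub_distrib, ← mul_sum, sum_add_distrib, sum_sub_distrib, ← mul_sum,
          ← mul_sum (s := Ico N (2 * N)) (f := fun n => R (k + 1) n)] at h2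
        have h3 : ∀ c : ℝ, ∑ n ∈ Ico N (2 * N), c = N * c := by
          intro c
          rw [sum_const, Nat.card_Ico, nsmul_eq_mul, show 2 * N - N = N by omega]
        rw [h3, h3] at h2
        have h4 : ∑ n ∈ Ico N (2 * N), ∑ j ∈ range (k + 1), t j * (b ^ 2 + b ^ 4 * 2 ^ (j + 1)) *
              ∑ i ∈ Ico j (k + 1), t i * M i n =
            ∑ j ∈ range (k + 1), t j * (b ^ 2 + b ^ 4 * 2 ^ (j + 1)) *
            ∑ i ∈ Ico j (k + 1), t i * S i N := by
          rw [sum_comm]
          apply sum_congr rfl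
          intro j _
          rw [← mul_sum, sum_comm]
          congr 1
          apply sum_congr rfl
          intro i _
          rw [← mul_sum]
        rw [h4] at h2
        have h5 : (N : ℝ) * -(A * (1 + Real.log (2 * N))) = -(A * (N * (1 + Real.log (2 * N)))) := by
          ring
        have h6 : (N : ℝ) * (A * (1 + Real.log (2 * N))) = A * (N * (1 + Real.log (2 * N))) := by
          ring
        rw [h5, h6] at h2
        exact h2
      -- conclusion
      have hG : b ^ 2 * (lam * J) * (r * (3 / 4 * S (k + 1) N - C₁ * N)) ≤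
          b ^ 2 * (lam * J) * ∑ n ∈ Ico N (2 * N), R (k + 1) n :=
        mul_le_mul_of_nonneg_left hover (by positivity)
      have hG2 : b ^ 2 * (lam * J) * (r * (3 / 4 * S (k + 1) N - C₁ * N)) =
          4 * d * (3 / 4 * S (k + 1) N - C₁ * N) := by
        rw [← hbT]; ring
      rw [hG2] at hG
      have hG3 := mul_le_mul_of_nonneg_left hG hγ.le
      have hlin : 2 * γ * d * S (k + 1) N ≤ (b ^ 2 + 2 * b ^ 4) * lam * (lam * J) * (N : ℝ) ^ 2 +
          4 * γ * d * C₁ * N + (1 + γ) * A * (N * (1 + Real.log (2 * N))) := by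
        nlinarith
      have hN3 : 4 * γ * d * C₁ * N ≤ 4 * γ * d * C₁ * (N * (1 + Real.log (2 * N))) := by
        apply mul_le_mul_of_nonneg_left _ (by positivity)
        nlinarith
      have hN4 : 4 * γ * d * C₁ * (N * (1 + Real.log (2 * N))) +
          (1 + γ) * A * (N * (1 + Real.log (2 * N))) = a * (N * (1 + Real.log (2 * N))) := by
        rw [ha]; ring
      have hval : (b ^ 2 + 2 * b ^ 4) * lam * (lam * J) = γ * d * (D * (d / J)) / 2 := by
        rw [hlam, hD]
        field_simp
        ring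
      rw [hAk]
      have hfin : 2 * γ * d * S (k + 1) N ≤ 2 * γ * d * (D * (d / J) * (N : ℝ) ^ 2) := by
        rw [hval] at hlin
        nlinarith [mul_nonneg hpos.le (sq_nonneg (N : ℝ))]
      exact le_of_mul_le_mul_left hfin (by positivity)
  -- the final form
  set ρ := 1 + 1 / (2 * D) with hρ
  have hρ1 : 1 < ρ := by rw [hρ]; have : 0 < 1 / (2 * D) := by positivity
                         linarith
  refine ⟨4 + 8 * D * ρ, 1 / (2 * ρ), by positivity, by positivity, ?_, fun k => ?_⟩
  · rw [div_lt_div_iff₀ (by positivity) (by norm_num)]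
    linarith
  · filter_upwards [main k] with N hN
    refine hN.trans ?_
    apply mul_le_mul_of_nonneg_right _ (by positivity)
    rcases k with _ | k
    · simp only [Af, pow_zero, mul_one]
      have : 0 < 8 * D * ρ := by positivity
      linarith
    · have h1 : Af D (k + 1) = 8 * D * ρ * (1 / (2 * ρ)) ^ (k + 1) := by
        unfold Af dy
        rw [← hρ]
        have h2 : (1 / (2 * ρ)) ^ (k + 1) = (1 / 2 : ℝ) ^ (k + 1) / (ρ ^ k * ρ) := by
          rw [one_div, one_div, mul_inv, mul_pow, ← pow_succ, inv_pow ρ, div_eq_mul_inv]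
        rw [h2]
        field_simp
      rw [h1]
      apply mul_le_mul_of_nonneg_right _ (by positivity)
      linarith

end

end Pool.Agent.OT
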