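import Mathlib
import Pool.Agent.Lib.MP_daa227_pr_OT.Defs

namespace Pool.Agent.OT

open MeasureTheory ProbabilityTheory Finset Filter Topology
open MP_daa227_pr (Chain Zk Zf K0 shift seqLaw ExpMom)

noncomputable section

namespace E2a

/-- density of the standard Gaussian measure on `ι → ℝ` -/
def rho {ι : Type*} [Fintype ι] (ω : ι → ℝ) : ℝ := ∏ i, gaussianPDFReal 0 1 (ω i)

theorem rho_nonneg {ι : Type*} [Fintype ι] (ω : ι → ℝ) : 0 ≤ rho ω :=
  prod_nonneg fun _ _ => gaussianPDFReal_nonneg _ _ _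

theorem rho_meas {ι : Type*} [Fintype ι] : Measurable (rho (ι := ι)) :=
  Finset.measurable_fun_prod _ fun i _ =>
    (measurable_gaussianPDFReal 0 1).comp (measurable_pi_apply i)

theorem gP_eq (ι : Type*) [Fintype ι] :
    gP ι = (volume : Measure (ι → ℝ)).withDensity fun ω => ENNReal.ofReal (rho ω) := by
  unfold gP
  refine Measure.pi_eq fun s hs => ?_
  have hms : MeasurableSet (Set.pi Set.univ s) := MeasurableSet.univ_pi hs
  rw [withDensity_apply _ hms, ← lintegral_indicator hms]
  have e1 : (Set.pi Set.univ s).indicator (fun ω : ι → ℝ => ENNReal.ofReal (rho ω)) =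
      fun ω => ENNReal.ofReal (∏ i, (s i).indicator (gaussianPDFReal 0 1) (ω i)) := by
    funext ω
    by_cases h : ω ∈ Set.pi Set.univ s
    · rw [Set.indicator_of_mem h]
      congr 1
      refine prod_congr rfl fun i _ => ?_
      rw [Set.indicator_of_mem (h i (Set.mem_univ i))]
    · rw [Set.indicator_of_notMem h]
      rw [Set.mem_univ_pi] at h
      push Not at h
      obtain ⟨i, hi⟩ := h
      rw [prod_eq_zero (mem_univ i) (Set.indicator_of_notMem hi _), ENNReal.ofReal_zero]
  have hint : ∀ i, Integrable ((s i).indicator (gaussianPDFReal 0 1)) volume := fun i =>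
    (integrable_gaussianPDFReal 0 1).indicator (hs i)
  rw [e1, ← ofReal_integral_eq_lintegral_ofReal]
  · have e2 := integral_fintype_prod_volume_eq_prod (𝕜 := ℝ)
      (fun i => (s i).indicator (gaussianPDFReal 0 1))
    rw [e2, ENNReal.ofReal_prod_of_nonneg]
    · refine prod_congr rfl fun i _ => ?_
      rw [gaussianReal_apply_eq_integral 0 one_ne_zero, integral_indicator (hs i)]
    · intro i _
      exact integral_nonneg fun x => Set.indicator_nonneg (fun _ _ => gaussianPDFReal_nonneg _ _ _) x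
  · exact Integrable.fintype_prod (f := fun i => (s i).indicator (gaussianPDFReal 0 1)) hint
  · exact Filter.Eventually.of_forall fun ω =>
      prod_nonneg fun i _ => Set.indicator_nonneg (fun _ _ => gaussianPDFReal_nonneg _ _ _) _

theorem lint_gP {ι : Type*} [Fintype ι] (G : (ι → ℝ) → ENNReal) :
    ∫⁻ ω, G ω ∂gP ι = ∫⁻ ω : ι → ℝ, ENNReal.ofReal (rho ω) * G ω := by
  have hm : Measurable (fun ω : ι → ℝ => ENNReal.ofReal (rho ω)) := rho_meas.ennreal_ofReal
  rw [gP_eq, lintegral_withDensity_eq_lintegral_mul_non_measurable _ hm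
    (Filter.Eventually.of_forall fun _ => ENNReal.ofReal_lt_top)]
  rfl

theorem rho_add {ι : Type*} [Fintype ι] (ω g : ι → ℝ) :
    rho (ω + g) = rho ω * Real.exp (-(∑ i, ω i * g i) - (1 / 2) * ∑ i, g i ^ 2) := by
  unfold rho
  rw [mul_sum, ← sum_neg_distrib, ← sum_sub_distrib, Real.exp_sum, ← prod_mul_distrib]
  refine prod_congr rfl fun i _ => ?_
  rw [gaussianPDFReal_def]
  simp only [Pi.add_apply, sub_zero, NNReal.coe_one, mul_one]
  rw [mul_assoc, ← Real.exp_add]
  congr 2
  ring

end E2a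

open E2a in
theorem gauss_cov {ι : Type*} [Fintype ι] [DecidableEq ι] (g : (ι → ℝ) → ι → ℝ)
    (A : (ι → ℝ) → Matrix ι ι ℝ)
    (hg : ∀ ω i, HasFDerivAt (fun ω => g ω i)
      (∑ j, A ω i j • ContinuousLinearMap.proj (R := ℝ) (φ := fun _ : ι => ℝ) j) ω)
    (hpsd : ∀ ω (v : ι → ℝ), 0 ≤ ∑ i, ∑ j, v i * v j * A ω i j)
    (G : (ι → ℝ) → ENNReal) (hG : Measurable G) :
    ∫⁻ ω, G (ω + g ω) * ENNReal.ofReal (Real.exp (-(∑ i, ω i * g ω i) -
      (1 / 2) * ∑ i, g ω i ^ 2) * |(1 + A ω).det|) ∂gP ι ≤ ∫⁻ ω, G ω ∂gP ι := by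
  set T : (ι → ℝ) → (ι → ℝ) := fun ω => ω + g ω with hT
  set T' : (ι → ℝ) → ((ι → ℝ) →L[ℝ] (ι → ℝ)) := fun ω =>
    ContinuousLinearMap.id ℝ (ι → ℝ) + ContinuousLinearMap.pi (fun i =>
      ∑ j, A ω i j • ContinuousLinearMap.proj (R := ℝ) (φ := fun _ : ι => ℝ) j) with hT'
  have hder : ∀ ω, HasFDerivAt T (T' ω) ω := by
    intro ω
    exact (hasFDerivAt_id ω).add (hasFDerivAt_pi.mpr fun i => hg ω i)
  have hdet : ∀ ω, (T' ω).det = (1 + A ω).det := by
    intro ω
    have e : ((T' ω : (ι → ℝ) →L[ℝ] (ι → ℝ)) : (ι → ℝ) →ₗ[ℝ] (ι → ℝ)) =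
        Matrix.toLin' (1 + A ω) := by
      refine LinearMap.ext fun v => ?_
      funext i
      rw [map_add, Matrix.toLin'_one]
      simp [hT', Matrix.mulVec, dotProduct]
    unfold ContinuousLinearMap.det
    rw [e, LinearMap.det_toLin']
  have hinj : Set.InjOn T Set.univ := by
    intro ω _ ω' _ h
    set v : ι → ℝ := ω - ω' with hv
    have hgv : ∀ i, g ω i - g ω' i = -v i := by
      intro i
      have := congrFun h i
      simp only [hT, Pi.add_apply] at this
      simp only [hv, Pi.sub_apply]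
      linarith
    have hd : ∀ s : ℝ, HasDerivAt (fun s : ℝ => ∑ i, v i * g (ω' + s • v) i)
        (∑ i, v i * ∑ j, A (ω' + s • v) i j * v j) s := by
      intro s
      refine HasDerivAt.fun_sum fun i _ => ?_
      refine HasDerivAt.const_mul (v i) ?_
      have h1 : HasDerivAt (fun s : ℝ => ω' + s • v) v s := by
        have := ((hasDerivAt_id s).smul_const v).const_add ω'
        simpa using this
      have h2 := (hg (ω' + s • v) i).comp_hasDerivAt s h1
      have e3 : (∑ j, A (ω' + s • v) i j • ContinuousLinearMap.proj (R := ℝ)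
          (φ := fun _ : ι => ℝ) j) v = ∑ j, A (ω' + s • v) i j * v j := by simp
      rw [e3] at h2
      exact h2
    have hmono : Monotone (fun s : ℝ => ∑ i, v i * g (ω' + s • v) i) := by
      refine monotone_of_deriv_nonneg (fun s => (hd s).differentiableAt) fun s => ?_
      rw [(hd s).deriv]
      have := hpsd (ω' + s • v) v
      refine this.trans_eq (sum_congr rfl fun i _ => ?_)
      rw [mul_sum]
      exact sum_congr rfl fun j _ => by ring
    have h01 := hmono (zero_le_one : (0 : ℝ) ≤ 1)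
    simp only [zero_smul, add_zero, one_smul] at h01
    have e1 : ω' + v = ω := by rw [hv]; abel
    rw [e1] at h01
    have h2 : 0 ≤ ∑ i, v i * (g ω i - g ω' i) := by
      have e2 : ∑ i, v i * (g ω i - g ω' i) = ∑ i, v i * g ω i - ∑ i, v i * g ω' i := by
        rw [← sum_sub_distrib]
        exact sum_congr rfl fun i _ => by ring
      rw [e2]
      linarith
    have h3 : ∑ i, v i ^ 2 ≤ 0 := by
      have : ∑ i, v i * (g ω i - g ω' i) = -∑ i, v i ^ 2 := by
        rw [← sum_neg_distrib]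
        refine sum_congr rfl fun i _ => ?_
        rw [hgv i]; ring
      linarith
    have h4 : ∀ i ∈ univ, v i ^ 2 = 0 := by
      refine (sum_eq_zero_iff_of_nonneg fun i _ => sq_nonneg (v i)).mp ?_
      exact le_antisymm h3 (sum_nonneg fun i _ => sq_nonneg (v i))
    funext i
    have h5 := h4 i (mem_univ i)
    have h6 : v i = 0 := pow_eq_zero_iff (two_ne_zero) |>.mp h5
    simp only [hv, Pi.sub_apply] at h6
    linarith
  have hcov := lintegral_image_eq_lintegral_abs_det_fderiv_mul
    (volume : Measure (ι → ℝ)) MeasurableSet.univ (f := T) (f' := T')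
    (fun x _ => (hder x).hasFDerivWithinAt) hinj (fun ω => ENNReal.ofReal (rho ω) * G ω)
  rw [Measure.restrict_univ] at hcov
  rw [lint_gP, lint_gP]
  refine le_trans (le_of_eq ?_) (setLIntegral_le_lintegral (T '' Set.univ) _)
  rw [hcov]
  refine lintegral_congr fun ω => ?_
  rw [hdet ω]
  have e1 : rho (T ω) = rho ω * Real.exp (-(∑ i, ω i * g ω i) - (1 / 2) * ∑ i, g ω i ^ 2) :=
    rho_add ω (g ω)
  rw [e1, ENNReal.ofReal_mul (rho_nonneg ω), ENNReal.ofReal_mul (Real.exp_pos _).le]
  ring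

end

end Pool.Agent.OT
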