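import Mathlib
import Pool.Agent.Lib.MP_daa227_pr_OT.Defs

namespace Pool.Agent.OT

open MeasureTheory ProbabilityTheory Finset Filter Topology
open MP_daa227_pr (Chain Zk Zf K0 shift seqLaw ExpMom)

noncomputable section

namespace E2b

theorem log_ge {x : ℝ} (hx : 0 ≤ x) : x - (1 / 2) * x ^ 2 ≤ Real.log (1 + x) := by
  have hd : ∀ y ∈ interior (Set.Ici (0 : ℝ)),
      HasDerivAt (fun y => Real.log (1 + y) - (y - (1 / 2) * y ^ 2)) (1 / (1 + y) - (1 - y)) y := by
    intro y hy
    rw [interior_Ici] at hy
    have hy' : (0 : ℝ) < y := hy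
    have h1 : HasDerivAt (fun y : ℝ => 1 + y) 1 y := by
      simpa using (hasDerivAt_id y).const_add 1
    have h2 := h1.log (by linarith)
    have h3 : HasDerivAt (fun y : ℝ => y - (1 / 2) * y ^ 2) (1 - (1 / 2) * (2 * y)) y := by
      have := (hasDerivAt_id' y).fun_sub ((hasDerivAt_pow 2 y).const_mul (1 / 2 : ℝ))
      refine this.congr_deriv ?_
      norm_num
    have h4 := h2.sub h3
    refine h4.congr_deriv ?_
    ring
  have hmono : MonotoneOn (fun y => Real.log (1 + y) - (y - (1 / 2) * y ^ 2)) (Set.Ici 0) := by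
    refine monotoneOn_of_deriv_nonneg (convex_Ici 0) ?_
      (fun y hy => (hd y hy).differentiableAt.differentiableWithinAt) fun y hy => ?_
    · refine ContinuousOn.sub (ContinuousOn.log (by fun_prop) ?_) (by fun_prop)
      intro y hy
      have hy' : (0 : ℝ) ≤ y := hy
      linarith
    · rw [(hd y hy).deriv]
      rw [interior_Ici] at hy
      have hy' : (0 : ℝ) < y := hy
      have : 1 / (1 + y) - (1 - y) = y ^ 2 / (1 + y) := by
        have : (1 + y) ≠ 0 := by linarith
        field_simp
        ring
      rw [this]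
      positivity
  have h := hmono (Set.self_mem_Ici) (Set.mem_Ici.2 hx) hx
  simp only [add_zero, Real.log_one] at h
  linarith

end E2b

theorem log_det_ge {ι : Type*} [Fintype ι] [DecidableEq ι] (A : Matrix ι ι ℝ)
    (hA : ∀ i j, A i j = A j i) (hpsd : ∀ v : ι → ℝ, 0 ≤ ∑ i, ∑ j, v i * v j * A i j) :
    1 ≤ (1 + A).det ∧
    (∑ i, A i i) - (1 / 2) * ∑ i, ∑ j, A i j ^ 2 ≤ Real.log (1 + A).det := by
  have hH : A.IsHermitian := by
    ext i j
    rw [Matrix.conjTranspose_apply, star_trivial, hA]
  have hP : A.PosSemidef := by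
    rw [Matrix.posSemidef_iff_dotProduct_mulVec]
    refine ⟨hH, fun v => ?_⟩
    have h := hpsd v
    have e : star v ⬝ᵥ A.mulVec v = ∑ i, ∑ j, v i * v j * A i j := by
      simp only [dotProduct, Matrix.mulVec, star_trivial, Finset.mul_sum]
      refine Finset.sum_congr rfl fun i _ => Finset.sum_congr rfl fun j _ => by ring
    rw [e]
    exact h
  set l := hH.eigenvalues with hl
  have hl0 : ∀ i, 0 ≤ l i := fun i => hP.eigenvalues_nonneg i
  obtain ⟨U, hU⟩ : ∃ U : Matrix ι ι ℝ, U = (hH.eigenvectorUnitary : Matrix ι ι ℝ) := ⟨_, rfl⟩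
  have hU1 : star U * U = 1 := by rw [hU]; exact Unitary.coe_star_mul_self _
  have hU2 : U * star U = 1 := by rw [hU]; exact Unitary.coe_mul_star_self _
  have hspec : A = U * Matrix.diagonal l * star U := by
    have h := hH.spectral_theorem
    rw [Unitary.conjStarAlgAut_apply] at h
    rw [hU]
    exact h
  have hdet : (1 + A).det = ∏ i, (1 + l i) := by
    have h1 : 1 + A = U * Matrix.diagonal (fun i => 1 + l i) * star U := by
      have h2 : Matrix.diagonal (fun i => 1 + l i) = 1 + Matrix.diagonal l := by
        rw [← Matrix.diagonal_one, Matrix.diagonal_add]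
      rw [h2, mul_add, add_mul, mul_one, hU2, ← hspec]
    rw [h1, Matrix.det_mul, Matrix.det_mul, mul_right_comm, ← Matrix.det_mul, hU2,
      Matrix.det_one, one_mul, Matrix.det_diagonal]
  have htr : ∑ i, A i i = ∑ i, l i := by
    have h1 : A.trace = (Matrix.diagonal l).trace := by
      rw [hspec, Matrix.trace_mul_cycle, hU1, one_mul]
    rw [Matrix.trace_diagonal] at h1
    exact h1
  have htr2 : ∑ i, ∑ j, A i j ^ 2 = ∑ i, l i ^ 2 := by
    have h1 : (A * A).trace = (Matrix.diagonal (fun i => l i ^ 2)).trace := by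
      have h2 : A * A = U * Matrix.diagonal (fun i => l i ^ 2) * star U := by
        calc A * A = (U * Matrix.diagonal l * star U) * (U * Matrix.diagonal l * star U) := by
              rw [← hspec]
          _ = U * Matrix.diagonal l * (star U * U) * Matrix.diagonal l * star U := by
              simp only [mul_assoc]
          _ = U * (Matrix.diagonal l * Matrix.diagonal l) * star U := by
              rw [hU1, mul_one]
              simp only [mul_assoc]
          _ = _ := by
              rw [Matrix.diagonal_mul_diagonal]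
              simp only [sq]
      rw [h2, Matrix.trace_mul_cycle, hU1, one_mul]
    rw [Matrix.trace_diagonal] at h1
    rw [← h1]
    simp only [Matrix.trace, Matrix.diag_apply, Matrix.mul_apply]
    refine Finset.sum_congr rfl fun i _ => Finset.sum_congr rfl fun j _ => ?_
    rw [hA j i, sq]
  refine ⟨?_, ?_⟩
  · rw [hdet]
    calc (1 : ℝ) = ∏ _i : ι, (1 : ℝ) := by rw [Finset.prod_const_one]
      _ ≤ ∏ i, (1 + l i) := Finset.prod_le_prod (fun _ _ => zero_le_one) fun i _ => by
          have := hl0 i
          linarith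
  · rw [hdet, htr, htr2, Real.log_prod]
    · rw [Finset.mul_sum, ← Finset.sum_sub_distrib]
      exact Finset.sum_le_sum fun i _ => E2b.log_ge (hl0 i)
    · intro i _
      have := hl0 i
      linarith

end

end Pool.Agent.OT
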