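import Mathlib
import Pool.Agent.Lib.MP_daa227_pr_OT.Defs

/-!
# Copolymer, module E2c: Gaussian integration by parts
-/

namespace Pool.Agent.OT

open MeasureTheory ProbabilityTheory Finset Filter Topology
open MP_daa227_pr (Chain Zk Zf K0 shift seqLaw ExpMom)

noncomputable section

namespace E2c

theorem pdf_eq (x : ℝ) : gaussianPDFReal 0 1 x = (√(2 * Real.pi))⁻¹ * Real.exp (-(1 / 2) * x ^ 2) := by
  rw [gaussianPDFReal_def]
  simp only [NNReal.coe_one, mul_one, sub_zero]
  congr 2
  ring

theorem hasDerivAt_pdf (x : ℝ) :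
    HasDerivAt (gaussianPDFReal 0 1) (-(x * gaussianPDFReal 0 1 x)) x := by
  have h : gaussianPDFReal 0 1 = fun x => (√(2 * Real.pi))⁻¹ * Real.exp (-(1 / 2) * x ^ 2) := by
    funext x; exact pdf_eq x
  rw [h]
  have h1 : HasDerivAt (fun x : ℝ => -(1 / 2) * x ^ 2) (-(1 / 2) * (2 * x)) x := by
    have := (hasDerivAt_pow 2 x).const_mul (-(1 / 2) : ℝ)
    simpa using this
  have h2 := (h1.exp).const_mul ((√(2 * Real.pi))⁻¹)
  refine h2.congr_deriv ?_
  ring

theorem integrable_pdf : Integrable (gaussianPDFReal 0 1) := integrable_gaussianPDFReal 0 1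

theorem integrable_mul_pdf : Integrable (fun x : ℝ => x * gaussianPDFReal 0 1 x) := by
  have h := (integrable_mul_exp_neg_mul_sq (b := 1 / 2) (by norm_num)).const_mul ((√(2 * Real.pi))⁻¹)
  refine h.congr (ae_of_all _ fun x => ?_)
  simp only
  rw [pdf_eq]
  ring

/-- The formula in one variable. -/
theorem one_dim (f f' : ℝ → ℝ) (B : ℝ) (hf' : Continuous f') (hB : ∀ t, |f t| ≤ B)
    (hB' : ∀ t, |f' t| ≤ B) (hd : ∀ t, HasDerivAt f (f' t) t) :
    ∫ t, t * f t ∂gaussianReal 0 1 = ∫ t, f' t ∂gaussianReal 0 1 := by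
  have hf : Continuous f := continuous_iff_continuousAt.mpr fun t => (hd t).continuousAt
  rw [integral_gaussianReal_eq_integral_smul one_ne_zero,
    integral_gaussianReal_eq_integral_smul one_ne_zero]
  simp only [smul_eq_mul]
  have hb : ∀ (u : ℝ → ℝ), Continuous u → (∀ t, |u t| ≤ B) → ∀ w : ℝ → ℝ, Integrable w →
      Integrable (fun t => u t * w t) := by
    intro u hu hub w hw
    refine Integrable.bdd_mul hw hu.aestronglyMeasurable (ae_of_all _ fun t => ?_) (c := B)
    rw [Real.norm_eq_abs]; exact hub t
  have h1 := hb f hf hB _ integrable_mul_pdf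
  have h2 := hb f' hf' hB' _ integrable_pdf
  have h3 := hb f hf hB _ integrable_pdf
  have h := integral_mul_deriv_eq_deriv_mul_of_integrable (u := f) (u' := f')
    (v := gaussianPDFReal 0 1) (v' := fun x => -(x * gaussianPDFReal 0 1 x))
    (fun x _ => hd x) (fun x _ => hasDerivAt_pdf x)
    (by
      refine h1.neg.congr (ae_of_all _ fun x => ?_)
      simp only [Pi.neg_apply, Pi.mul_apply]
      ring) h2 h3
  have h4 : ∫ t, gaussianPDFReal 0 1 t * (t * f t) = -∫ t, f t * -(t * gaussianPDFReal 0 1 t) := by
    rw [← integral_neg]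
    congr 1
    funext t
    ring
  rw [h4, h, neg_neg]
  congr 1
  funext t
  ring

variable {ι : Type*} [Fintype ι] [DecidableEq ι]

omit [Fintype ι] in
theorem measurable_upd (i : ι) :
    Measurable (fun q : (ι → ℝ) × ℝ => Function.update q.1 i q.2) := by
  rw [measurable_pi_iff]
  intro j
  by_cases h : j = i
  · subst h
    simpa using measurable_snd
  · simp only [Function.update_of_ne h]
    exact (measurable_pi_apply j).comp measurable_fst

instance : IsProbabilityMeasure (gP ι) := by
  unfold gP; infer_instance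

/-- Resampling of one coordinate. -/
theorem mp_upd (i : ι) : MeasurePreserving (fun q : (ι → ℝ) × ℝ => Function.update q.1 i q.2)
    ((gP ι).prod (gaussianReal 0 1)) (gP ι) := by
  refine ⟨measurable_upd i, ?_⟩
  symm
  unfold gP
  refine Measure.pi_eq ?_
  intro s hs
  rw [Measure.map_apply (measurable_upd i) (MeasurableSet.univ_pi hs)]
  have h : (fun q : (ι → ℝ) × ℝ => Function.update q.1 i q.2) ⁻¹' Set.univ.pi s =
      (Set.univ.pi (Function.update s i Set.univ)) ×ˢ (s i) := by
    ext ⟨ω, t⟩
    simp only [Set.mem_preimage, Set.mem_pi, Set.mem_univ, true_implies, Set.mem_prod]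
    constructor
    · intro h
      refine ⟨fun j => ?_, ?_⟩
      · by_cases hj : j = i
        · subst hj; simp
        · rw [Function.update_of_ne hj]
          have := h j
          rwa [Function.update_of_ne hj] at this
      · have := h i
        rwa [Function.update_self] at this
    · rintro ⟨h1, h2⟩ j
      by_cases hj : j = i
      · subst hj; rwa [Function.update_self]
      · rw [Function.update_of_ne hj]
        have := h1 j
        rwa [Function.update_of_ne hj] at this
  rw [h, Measure.prod_prod, Measure.pi_pi, ← Finset.mul_prod_erase Finset.univ _ (Finset.mem_univ i),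
    ← Finset.mul_prod_erase Finset.univ (fun j => gaussianReal 0 1 (s j)) (Finset.mem_univ i),
    Function.update_self, measure_univ, one_mul, mul_comm]
  congr 1
  refine Finset.prod_congr rfl ?_
  intro j hj
  rw [Function.update_of_ne (Finset.ne_of_mem_erase hj)]

theorem integral_upd (i : ι) (F : (ι → ℝ) → ℝ) (hF : Integrable F (gP ι)) :
    ∫ ω, F ω ∂gP ι = ∫ ω, ∫ t, F (Function.update ω i t) ∂gaussianReal 0 1 ∂gP ι := by
  have hm := mp_upd i
  have h1 : ∫ ω, F ω ∂gP ι = ∫ q, F (Function.update q.1 i q.2) ∂(gP ι).prod (gaussianReal 0 1) := by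
    conv_lhs => rw [← hm.map_eq]
    exact integral_map hm.measurable.aemeasurable (by rw [hm.map_eq]; exact hF.aestronglyMeasurable)
  rw [h1]
  exact integral_prod _ (hm.integrable_comp_of_integrable hF)

end E2c

open E2c in
theorem gauss_ibp {ι : Type*} [Fintype ι] [DecidableEq ι] (i : ι) (g g' : (ι → ℝ) → ℝ) (B : ℝ)
    (hg : Continuous g) (hg' : Continuous g') (hgb : ∀ ω, |g ω| ≤ B) (hgb' : ∀ ω, |g' ω| ≤ B)
    (hd : ∀ ω : ι → ℝ, HasDerivAt (fun t : ℝ => g (Function.update ω i t)) (g' ω) (ω i)) :
    ∫ ω, ω i * g ω ∂gP ι = ∫ ω, g' ω ∂gP ι := by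
  have hi : Integrable (fun ω : ι → ℝ => ω i) (gP ι) := by
    have h : MeasurePreserving (Function.eval i) (gP ι) (gaussianReal 0 1) :=
      measurePreserving_eval (fun _ => gaussianReal 0 1) i
    exact h.integrable_comp_of_integrable
      ((memLp_id_gaussianReal 1).integrable le_rfl)
  have h1 : Integrable (fun ω : ι → ℝ => ω i * g ω) (gP ι) := by
    have := Integrable.bdd_mul hi hg.aestronglyMeasurable (ae_of_all _ fun ω => by
      rw [Real.norm_eq_abs]; exact hgb ω) (c := B)
    refine this.congr (ae_of_all _ fun ω => ?_)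
    exact mul_comm _ _
  have h2 : Integrable g' (gP ι) := by
    refine Integrable.of_bound hg'.aestronglyMeasurable B (ae_of_all _ fun ω => ?_)
    rw [Real.norm_eq_abs]; exact hgb' ω
  rw [integral_upd i _ h1, integral_upd i _ h2]
  congr 1
  funext ω
  have hc : Continuous (fun t : ℝ => Function.update ω i t) :=
    continuous_const.update i continuous_id
  have := one_dim (fun t => g (Function.update ω i t)) (fun t => g' (Function.update ω i t)) B
    (hg'.comp hc) (fun t => hgb _) (fun t => hgb' _) (by
      intro t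
      have h := hd (Function.update ω i t)
      simp only [Function.update_idem, Function.update_self] at h
      exact h)
  rw [← this]
  simp only [Function.update_self]

end

end Pool.Agent.OT
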