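import Mathlib
import Pool.Agent.Lib.MP_daa227_pr_OT.Defs
import Pool.Agent.Lib.MP_daa227_pr_OT.GCov
import Pool.Agent.Lib.MP_daa227_pr_OT.GDet
import Pool.Agent.Lib.MP_daa227_pr_OT.GIbp

/-!
# OT, module E2d: the Gaussian tilting inequality
-/

namespace Pool.Agent.OT

open MeasureTheory ProbabilityTheory Finset Filter Topology
open MP_daa227_pr (Chain Zk Zf K0 shift seqLaw ExpMom)

noncomputable section

namespace E2d

variable {ι : Type*} [Fintype ι]

instance : IsProbabilityMeasure (gP ι) := by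
  unfold gP
  infer_instance

theorem int_exp (c : ℝ) : Integrable (fun ω : ι → ℝ => Real.exp (c * ∑ i, |ω i|)) (gP ι) := by
  have h1 : Integrable (fun x : ℝ => Real.exp (c * |x|)) (gaussianReal 0 1) :=
    integrable_exp_mul_abs (X := fun x : ℝ => x) (integrable_exp_mul_gaussianReal c)
      (integrable_exp_mul_gaussianReal (-c))
  have h2 : Integrable (fun ω : ι → ℝ => ∏ i, Real.exp (c * |ω i|)) (gP ι) :=
    Integrable.fintype_prod (μ := fun _ => gaussianReal 0 1) (fun _ => h1)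
  refine h2.congr (Eventually.of_forall fun ω => ?_)
  change ∏ i, Real.exp (c * |ω i|) = Real.exp (c * ∑ i, |ω i|)
  rw [← Real.exp_sum, Finset.mul_sum]

theorem int_of_exp {f : (ι → ℝ) → ℝ} (hf : Continuous f) (C c : ℝ)
    (h : ∀ ω, |f ω| ≤ C * Real.exp (c * ∑ i, |ω i|)) : Integrable f (gP ι) := by
  refine ((int_exp (ι := ι) c).const_mul C).mono' hf.aestronglyMeasurable
    (Eventually.of_forall fun ω => ?_)
  rw [Real.norm_eq_abs]
  exact h ω

theorem int_of_lin {f : (ι → ℝ) → ℝ} (hf : Continuous f) (C : ℝ)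
    (h : ∀ ω, |f ω| ≤ C * (1 + ∑ i, |ω i|)) : Integrable f (gP ι) := by
  have hC : 0 ≤ C := by
    have h0 := (abs_nonneg _).trans (h 0)
    simpa using h0
  refine int_of_exp hf C 1 fun ω => (h ω).trans ?_
  refine mul_le_mul_of_nonneg_left ?_ hC
  have := Real.add_one_le_exp (1 * ∑ i, |ω i|)
  linarith

theorem int_of_bdd {f : (ι → ℝ) → ℝ} (hf : Continuous f) (C : ℝ)
    (h : ∀ ω, |f ω| ≤ C) : Integrable f (gP ι) := by
  refine int_of_lin hf C fun ω => (h ω).trans ?_
  have hC : 0 ≤ C := (abs_nonneg _).trans (h 0)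
  have : 0 ≤ ∑ i, |ω i| := Finset.sum_nonneg fun i _ => abs_nonneg _
  nlinarith

end E2d

open E2d

theorem gauss_tilt {ι : Type*} [Fintype ι] (X : (ι → ℝ) → ℝ) (g : (ι → ℝ) → ι → ℝ)
    (A : (ι → ℝ) → ι → ι → ℝ) (B : ℝ) (hX : Continuous X)
    (hXb : ∀ ω, |X ω| ≤ B * (1 + ∑ i, |ω i|))
    (hg : ∀ ω i, HasFDerivAt (fun ω => g ω i)
      (∑ j, A ω i j • ContinuousLinearMap.proj (R := ℝ) (φ := fun _ : ι => ℝ) j) ω)
    (hgb : ∀ ω i, |g ω i| ≤ B) (hAb : ∀ ω i j, |A ω i j| ≤ B)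
    (hAc : ∀ i j, Continuous fun ω => A ω i j) (hAs : ∀ ω i j, A ω i j = A ω j i)
    (hpsd : ∀ ω (v : ι → ℝ), 0 ≤ ∑ i, ∑ j, v i * v j * A ω i j) :
    ∫ ω, X (ω + g ω) ∂gP ι - (1 / 2) * ∫ ω, (∑ i, g ω i ^ 2 + ∑ i, ∑ j, A ω i j ^ 2) ∂gP ι ≤
      Real.log (∫ ω, Real.exp (X ω) ∂gP ι) := by
  classical
  have hB : 0 ≤ B := by
    have h0 := (abs_nonneg _).trans (hXb 0)
    simpa using h0
  have hgc : ∀ i, Continuous fun ω => g ω i := fun i =>
    continuous_iff_continuousAt.2 fun ω => (hg ω i).continuousAt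
  have hgc' : Continuous g := continuous_pi hgc
  -- the determinant
  set D : (ι → ℝ) → ℝ := fun ω => (1 + (Matrix.of (A ω))).det with hD
  have hDge : ∀ ω, 1 ≤ D ω ∧ (∑ i, A ω i i) - (1 / 2) * ∑ i, ∑ j, A ω i j ^ 2 ≤
      Real.log (D ω) := fun ω => log_det_ge (Matrix.of (A ω)) (hAs ω) (hpsd ω)
  have hAm : Continuous fun ω => (Matrix.of (A ω) : Matrix ι ι ℝ) :=
    continuous_pi fun i => continuous_pi fun j => hAc i j
  have hDc : Continuous D := by
    rw [hD]
    exact Continuous.matrix_det (continuous_const.add hAm)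
  obtain ⟨K, hK⟩ : ∃ K : ℝ, ∀ ω, D ω ≤ K := by
    refine ⟨Nat.factorial (Fintype.card ι) • (1 + B) ^ Fintype.card ι, fun ω => ?_⟩
    have h1 : ∀ i j, AbsoluteValue.abs ((1 + Matrix.of (A ω) : Matrix ι ι ℝ) i j) ≤ 1 + B := by
      intro i j
      rw [AbsoluteValue.abs_apply, Matrix.add_apply, Matrix.of_apply]
      refine (abs_add_le _ _).trans (add_le_add ?_ (hAb ω i j))
      rw [Matrix.one_apply]
      split_ifs <;> simp
    have h2 := Matrix.det_le h1
    exact (le_abs_self _).trans h2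
  have hlD0 : ∀ ω, 0 ≤ Real.log (D ω) := fun ω => Real.log_nonneg (hDge ω).1
  have hlDK : ∀ ω, Real.log (D ω) ≤ K := fun ω =>
    (Real.log_le_sub_one_of_pos (by linarith [(hDge ω).1])).trans (by linarith [hK ω])
  have hlDc : Continuous fun ω => Real.log (D ω) :=
    hDc.log fun ω => (by linarith [(hDge ω).1] : (0 : ℝ) < D ω).ne'
  -- integrable pieces
  have iX : Integrable (fun ω => X (ω + g ω)) (gP ι) := by
    refine int_of_lin (hX.comp (continuous_id.add hgc')) (B * (1 + Fintype.card ι * B)) fun ω => ?_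
    refine (hXb _).trans ?_
    rw [mul_assoc]
    refine mul_le_mul_of_nonneg_left ?_ hB
    have h1 : ∑ i, |(ω + g ω) i| ≤ ∑ i, |ω i| + Fintype.card ι * B := by
      calc ∑ i, |(ω + g ω) i| ≤ ∑ i, (|ω i| + B) := by
            refine Finset.sum_le_sum fun i _ => ?_
            rw [Pi.add_apply]
            exact (abs_add_le _ _).trans (by linarith [hgb ω i])
        _ = ∑ i, |ω i| + Fintype.card ι * B := by
            rw [Finset.sum_add_distrib, Finset.sum_const, Finset.card_univ, nsmul_eq_mul]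
    have h2 : 0 ≤ ∑ i, |ω i| := Finset.sum_nonneg fun i _ => abs_nonneg _
    have h3 : 0 ≤ (Fintype.card ι : ℝ) * B := by positivity
    nlinarith
  have ig : ∀ i, Integrable (fun ω => ω i * g ω i) (gP ι) := by
    intro i
    refine int_of_lin ((continuous_apply i).mul (hgc i)) B fun ω => ?_
    rw [abs_mul]
    have h1 : |ω i| ≤ ∑ i, |ω i| :=
      Finset.single_le_sum (f := fun i => |ω i|) (fun i _ => abs_nonneg _) (Finset.mem_univ i)
    have h2 := hgb ω i
    have h3 : 0 ≤ |ω i| := abs_nonneg _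
    have h4 : 0 ≤ |g ω i| := abs_nonneg _
    calc |ω i| * |g ω i| ≤ (∑ i, |ω i|) * B := mul_le_mul h1 h2 h4 (h3.trans h1)
      _ ≤ B * (1 + ∑ i, |ω i|) := by nlinarith
  have iA : ∀ i, Integrable (fun ω => A ω i i) (gP ι) := fun i =>
    int_of_bdd (hAc i i) B fun ω => hAb ω i i
  have ig2 : Integrable (fun ω => ∑ i, g ω i ^ 2) (gP ι) := by
    refine integrable_finsetSum _ fun i _ => ?_
    refine int_of_bdd ((hgc i).pow 2) (B ^ 2) fun ω => ?_
    rw [abs_pow]
    exact pow_le_pow_left₀ (abs_nonneg _) (hgb ω i) 2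
  have iA2 : Integrable (fun ω => ∑ i, ∑ j, A ω i j ^ 2) (gP ι) := by
    refine integrable_finsetSum _ fun i _ => integrable_finsetSum _ fun j _ => ?_
    refine int_of_bdd ((hAc i j).pow 2) (B ^ 2) fun ω => ?_
    rw [abs_pow]
    exact pow_le_pow_left₀ (abs_nonneg _) (hAb ω i j) 2
  have iD : Integrable (fun ω => Real.log (D ω)) (gP ι) := by
    refine int_of_bdd hlDc K fun ω => ?_
    rw [abs_of_nonneg (hlD0 ω)]
    exact hlDK ω
  have iS : Integrable (fun ω => ∑ i, ω i * g ω i) (gP ι) :=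
    integrable_finsetSum _ fun i _ => ig i
  -- the function W
  set W : (ι → ℝ) → ℝ := fun ω => X (ω + g ω) + ((-(∑ i, ω i * g ω i) -
    (1 / 2) * ∑ i, g ω i ^ 2) + Real.log (D ω)) with hW
  have iW : Integrable W (gP ι) := iX.add ((iS.neg.sub (ig2.const_mul (1 / 2))).add iD)
  have hWc : Continuous W := by
    refine (hX.comp (continuous_id.add hgc')).add (((Continuous.neg ?_).sub
      (continuous_const.mul ?_)).add hlDc)
    · exact continuous_finsetSum _ fun i _ => (continuous_apply i).mul (hgc i)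
    · exact continuous_finsetSum _ fun i _ => (hgc i).pow 2
  have hexpW : ∀ ω, ENNReal.ofReal (Real.exp (X (ω + g ω))) *
      ENNReal.ofReal (Real.exp (-(∑ i, ω i * g ω i) -
      (1 / 2) * ∑ i, g ω i ^ 2) * |(1 + (Matrix.of (A ω))).det|) =
      ENNReal.ofReal (Real.exp (W ω)) := by
    intro ω
    have hDpos : 0 < D ω := by linarith [(hDge ω).1]
    have h1 : |(1 + (Matrix.of (A ω))).det| = D ω := abs_of_pos hDpos
    rw [h1, ← ENNReal.ofReal_mul (Real.exp_pos _).le]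
    congr 1
    rw [hW]
    simp only
    rw [Real.exp_add, Real.exp_add, Real.exp_log hDpos]
  have iE : Integrable (fun ω => Real.exp (X ω)) (gP ι) := by
    refine int_of_exp (Real.continuous_exp.comp hX) (Real.exp B) B fun ω => ?_
    rw [abs_of_pos (Real.exp_pos _), ← Real.exp_add]
    refine Real.exp_le_exp.2 ?_
    have := (le_abs_self _).trans (hXb ω)
    linarith
  have hcov := gauss_cov g (fun ω => Matrix.of (A ω)) (fun ω i => hg ω i) (fun ω v => hpsd ω v)
    (fun ω => ENNReal.ofReal (Real.exp (X ω)))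
    (Real.continuous_exp.comp hX).measurable.ennreal_ofReal
  rw [lintegral_congr hexpW, ← ofReal_integral_eq_lintegral_ofReal iE
    (Eventually.of_forall fun ω => (Real.exp_pos _).le)] at hcov
  have iEW : Integrable (fun ω => Real.exp (W ω)) (gP ι) := by
    refine ⟨(Real.continuous_exp.comp hWc).aestronglyMeasurable, ?_⟩
    rw [hasFiniteIntegral_iff_ofReal (Eventually.of_forall fun ω => (Real.exp_pos _).le)]
    exact hcov.trans_lt ENNReal.ofReal_lt_top
  rw [← ofReal_integral_eq_lintegral_ofReal iEW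
    (Eventually.of_forall fun ω => (Real.exp_pos _).le)] at hcov
  have hE0 : 0 ≤ ∫ ω, Real.exp (X ω) ∂gP ι := integral_nonneg fun ω => (Real.exp_pos _).le
  have hcov' : ∫ ω, Real.exp (W ω) ∂gP ι ≤ ∫ ω, Real.exp (X ω) ∂gP ι :=
    (ENNReal.ofReal_le_ofReal_iff hE0).1 hcov
  -- Jensen
  have hJ : Real.exp (∫ ω, W ω ∂gP ι) ≤ ∫ ω, Real.exp (W ω) ∂gP ι :=
    ConvexOn.map_integral_le convexOn_exp Real.continuous_exp.continuousOn isClosed_univ
      (Eventually.of_forall fun _ => Set.mem_univ _) iW iEW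
  have hWlog : ∫ ω, W ω ∂gP ι ≤ Real.log (∫ ω, Real.exp (X ω) ∂gP ι) := by
    have h1 := hJ.trans hcov'
    rw [Real.le_log_iff_exp_le ((Real.exp_pos _).trans_le h1)]
    exact h1
  refine le_trans ?_ hWlog
  -- integration by parts
  have hibp : ∀ i, ∫ ω, ω i * g ω i ∂gP ι = ∫ ω, A ω i i ∂gP ι := by
    intro i
    refine gauss_ibp i (fun ω => g ω i) (fun ω => A ω i i) B (hgc i) (hAc i i)
      (fun ω => hgb ω i) (fun ω => hAb ω i i) ?_
    intro ω
    have h1 := hg ω i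
    have h2 : HasDerivAt (Function.update ω i) (Pi.single i (1 : ℝ)) (ω i) :=
      hasDerivAt_update ω i (ω i)
    have h3 : HasFDerivAt (fun ω => g ω i)
      (∑ j, A ω i j • ContinuousLinearMap.proj (R := ℝ) (φ := fun _ : ι => ℝ) j)
        (Function.update ω i (ω i)) := by
      rw [Function.update_eq_self]
      exact h1
    have h4 := h3.comp_hasDerivAt (ω i) h2
    have e : (∑ j, A ω i j • ContinuousLinearMap.proj (R := ℝ) (φ := fun _ : ι => ℝ) j)
        (Pi.single i (1 : ℝ)) = A ω i i := by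
      rw [_root_.sum_apply]
      simp [Pi.single_apply]
    rw [e] at h4
    exact h4
  have eW : ∫ ω, W ω ∂gP ι = ∫ ω, X (ω + g ω) ∂gP ι + ((-(∑ i, ∫ ω, A ω i i ∂gP ι) -
      (1 / 2) * ∫ ω, ∑ i, g ω i ^ 2 ∂gP ι) + ∫ ω, Real.log (D ω) ∂gP ι) := by
    have iV1 : Integrable (fun ω => -(∑ i, ω i * g ω i)) (gP ι) := iS.neg
    have iV2 : Integrable (fun ω => (1 / 2) * ∑ i, g ω i ^ 2) (gP ι) := ig2.const_mul (1 / 2)
    have iV3 : Integrable (fun ω => -(∑ i, ω i * g ω i) - (1 / 2) * ∑ i, g ω i ^ 2) (gP ι) :=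
      iV1.sub iV2
    have iV : Integrable (fun ω => (-(∑ i, ω i * g ω i) - (1 / 2) * ∑ i, g ω i ^ 2) +
      Real.log (D ω)) (gP ι) := iV3.add iD
    have e1 := integral_add iX iV
    have e2 := integral_add iV3 iD
    have e3 := integral_sub iV1 iV2
    have e4 : ∫ ω, -(∑ i, ω i * g ω i) ∂gP ι = -∫ ω, ∑ i, ω i * g ω i ∂gP ι := integral_neg _
    have e5 : ∫ ω, (1 / 2) * ∑ i, g ω i ^ 2 ∂gP ι = (1 / 2) * ∫ ω, ∑ i, g ω i ^ 2 ∂gP ι :=
      integral_const_mul _ _
    have e6 : ∫ ω, ∑ i, ω i * g ω i ∂gP ι = ∑ i, ∫ ω, A ω i i ∂gP ι := by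
      rw [integral_finsetSum _ fun i _ => ig i]
      exact Finset.sum_congr rfl fun i _ => hibp i
    rw [e2, e3, e4, e5, e6] at e1
    exact e1
  have hlD : ∑ i, ∫ ω, A ω i i ∂gP ι - (1 / 2) * ∫ ω, ∑ i, ∑ j, A ω i j ^ 2 ∂gP ι ≤
      ∫ ω, Real.log (D ω) ∂gP ι := by
    rw [← integral_finsetSum _ fun i _ => iA i, ← integral_const_mul,
      ← integral_sub (integrable_finsetSum _ fun i _ => iA i) (iA2.const_mul (1 / 2))]
    exact integral_mono ((integrable_finsetSum _ fun i _ => iA i).sub (iA2.const_mul (1 / 2))) iD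
      fun ω => (hDge ω).2
  rw [eW, integral_add ig2 iA2]
  linarith

end

end Pool.Agent.OT
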