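import Mathlib
import Pool.Agent.Lib.MP_daa227_pr_OT.Defs
import Pool.Agent.Lib.MP_daa227_pr_OT.EFc

namespace Pool.Agent.OT

open MeasureTheory ProbabilityTheory Finset Filter Topology
open MP_daa227_pr (Chain Zk Zf K0 shift seqLaw ExpMom)

noncomputable section

section E3

variable {Ω ι : Type*} [Fintype Ω] [Fintype ι] {w : Ω → ℝ} {x : Ω → ι → ℝ}

theorem choose_scale (hE : EFam w x) (b : ℝ) (f : ι → ℝ) (c : (ι → ℝ) → ι → ℝ) (B : ℝ)
    (hc : ∀ i, Continuous fun ξ => c ξ i) (hc0 : ∀ ξ i, 0 ≤ c ξ i) (hcB : ∀ ξ i, c ξ i ≤ B)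
    {u v : ℝ} (huv : u < v) :
    ∃ s, u < s ∧ s < v ∧
      ∫ ξ, ∑ i, c ξ i * ∑ j, cE w x (fun i => b * ξ i + f i + s) i j ∂gP ι ≤
        (∫ ξ, ∑ i, c ξ i ∂gP ι) / (v - u) := by
  have hprob : IsProbabilityMeasure (gP ι) := by unfold gP; infer_instance
  set F : ℝ → (ι → ℝ) → ℝ := fun s ξ => ∑ i, c ξ i * pE w x (fun i => b * ξ i + f i + s) i
    with hF
  set F' : ℝ → (ι → ℝ) → ℝ := fun s ξ =>
    ∑ i, c ξ i * ∑ j, cE w x (fun i => b * ξ i + f i + s) i j with hF'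
  have hcont : ∀ s : ℝ, Continuous fun (ξ : ι → ℝ) => fun i => b * ξ i + f i + s := fun s => by
    fun_prop
  have hFc : ∀ s, Continuous (F s) := fun s =>
    continuous_finsetSum _ fun i _ => (hc i).mul ((continuous_pE hE i).comp (hcont s))
  have hF'c : ∀ s, Continuous (F' s) := fun s =>
    continuous_finsetSum _ fun i _ => (hc i).mul
      (continuous_finsetSum _ fun j _ => (continuous_cE hE i j).comp (hcont s))
  have hFb : ∀ s ξ, ‖F s ξ‖ ≤ ∑ _i : ι, B := fun s ξ => by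
    refine (norm_sum_le _ _).trans (Finset.sum_le_sum fun i _ => ?_)
    rw [Real.norm_of_nonneg (mul_nonneg (hc0 ξ i) (pE_nonneg hE _ i))]
    calc c ξ i * pE w x (fun i => b * ξ i + f i + s) i ≤ c ξ i * 1 :=
          mul_le_mul_of_nonneg_left (pE_le_one hE _ i) (hc0 ξ i)
      _ ≤ B := by rw [mul_one]; exact hcB ξ i
  have hcE0 : ∀ (s : ℝ) (ξ : ι → ℝ) (i : ι), 0 ≤ ∑ j, cE w x (fun i => b * ξ i + f i + s) i j := fun s ξ i =>
    Finset.sum_nonneg fun j _ => hE.corr _ i j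
  have hcE1 : ∀ (s : ℝ) (ξ : ι → ℝ) (i : ι), ∑ j, cE w x (fun i => b * ξ i + f i + s) i j ≤ ∑ _j : ι, (1 : ℝ) :=
    fun s ξ i => Finset.sum_le_sum fun j _ => (cE_le hE _ i j).trans (pE_le_one hE _ i)
  have hF'b : ∀ s ξ, ‖F' s ξ‖ ≤ ∑ _i : ι, B * ∑ _j : ι, (1 : ℝ) := fun s ξ => by
    refine (norm_sum_le _ _).trans (Finset.sum_le_sum fun i _ => ?_)
    rw [Real.norm_of_nonneg (mul_nonneg (hc0 ξ i) (hcE0 s ξ i))]
    exact mul_le_mul (hcB ξ i) (hcE1 s ξ i) (hcE0 s ξ i) ((hc0 ξ i).trans (hcB ξ i))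
  have hdiff : ∀ ξ s, HasDerivAt (fun s => F s ξ) (F' s ξ) s := fun ξ s => by
    rw [hF, hF']
    refine HasDerivAt.fun_sum fun i _ => ?_
    exact (hasDerivAt_pE hE (fun i => b * ξ i + f i) i s).const_mul (c ξ i)
  have hint : ∀ s, Integrable (F s) (gP ι) := fun s =>
    Integrable.of_bound (hFc s).aestronglyMeasurable _ (Eventually.of_forall (hFb s))
  have hG : ∀ s, HasDerivAt (fun s => ∫ ξ, F s ξ ∂gP ι) (∫ ξ, F' s ξ ∂gP ι) s := fun s =>
    (hasDerivAt_integral_of_dominated_loc_of_deriv_le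
      (bound := fun _ => ∑ _i : ι, B * ∑ _j : ι, (1 : ℝ)) univ_mem
      (Eventually.of_forall fun s => (hFc s).aestronglyMeasurable) (hint s)
      (hF'c s).aestronglyMeasurable
      (Eventually.of_forall fun ξ s _ => hF'b s ξ) (integrable_const _)
      (Eventually.of_forall fun ξ s _ => hdiff ξ s)).2
  obtain ⟨s, hs, hs'⟩ := exists_hasDerivAt_eq_slope (fun s => ∫ ξ, F s ξ ∂gP ι)
    (fun s => ∫ ξ, F' s ξ ∂gP ι) huv
    (fun s _ => (hG s).continuousAt.continuousWithinAt) (fun s _ => hG s)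
  refine ⟨s, hs.1, hs.2, ?_⟩
  have h1 : ∫ ξ, ∑ i, c ξ i * ∑ j, cE w x (fun i => b * ξ i + f i + s) i j ∂gP ι
      = ∫ ξ, F' s ξ ∂gP ι := rfl
  rw [h1, hs']
  refine div_le_div_of_nonneg_right ?_ (sub_nonneg.2 huv.le)
  rw [← integral_sub (hint v) (hint u)]
  have hci : Integrable (fun ξ => ∑ i, c ξ i) (gP ι) := by
    refine Integrable.of_bound (C := ∑ _i : ι, B)
      (continuous_finsetSum _ fun i _ => hc i).aestronglyMeasurable
      (Eventually.of_forall fun ξ => ?_)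
    refine (norm_sum_le _ _).trans (Finset.sum_le_sum fun i _ => ?_)
    rw [Real.norm_of_nonneg (hc0 ξ i)]
    exact hcB ξ i
  refine integral_mono ((hint v).sub (hint u)) hci fun ξ => ?_
  simp only [hF]
  rw [← Finset.sum_sub_distrib]
  refine Finset.sum_le_sum fun i _ => ?_
  have h2 := pE_le_one hE (fun i => b * ξ i + f i + v) i
  have h3 := pE_nonneg hE (fun i => b * ξ i + f i + u) i
  have h4 := hc0 ξ i
  nlinarith

end E3

end

end Pool.Agent.OT
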