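import Mathlib
import Pool.Agent.Lib.MP_daa227_pr_OT.Defs
import Pool.Agent.Lib.MP_daa227_pr_OT.EFc
import Pool.Agent.Lib.MP_daa227_pr_OT.GTilt
import Pool.Agent.Lib.MP_daa227_pr_OT.Mvt

/-!
# PROJECT OT, module E3b: the multiscale tilting inequality
-/

namespace Pool.Agent.OT

open MeasureTheory ProbabilityTheory Finset Filter Topology
open MP_daa227_pr (Chain Zk Zf K0 shift seqLaw ExpMom)

noncomputable section

namespace E3b

lemma dyp (k : ℕ) : 0 < dy k := by unfold dy; positivity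

lemma dys (k : ℕ) : dy (k + 1) = dy k / 2 := by unfold dy; rw [pow_succ]; ring

lemma dy_inv (k : ℕ) (a : ℝ) : a / dy k = 2 ^ k * a := by
  unfold dy
  rw [one_div, inv_pow, div_inv_eq_mul, mul_comm]

lemma dy_anti {i j : ℕ} (h : i ≤ j) : dy j ≤ dy i :=
  pow_le_pow_of_le_one (by norm_num) (by norm_num) h

/-- a square of a sum, ordered -/
lemma sq_sum_le (u : ℕ → ℝ) (n : ℕ) :
    (∑ j ∈ range n, u j) ^ 2 ≤ 2 * ∑ j ∈ range n, u j * ∑ i ∈ Ico j n, u i := by
  induction n with
  | zero => simp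
  | succ n ih =>
    have h1 : ∑ j ∈ range n, u j * ∑ i ∈ Ico j (n + 1), u i =
        ∑ j ∈ range n, u j * ∑ i ∈ Ico j n, u i + (∑ j ∈ range n, u j) * u n := by
      rw [sum_mul, ← sum_add_distrib]
      apply sum_congr rfl
      intro j hj
      rw [mem_range] at hj
      rw [sum_Ico_succ_top hj.le]
      ring
    rw [sum_range_succ, sum_range_succ, h1, Nat.Ico_succ_singleton, sum_singleton]
    nlinarith [sq_nonneg (u n)]

variable {Ω ι : Type*} [Fintype Ω] [Fintype ι] {w : Ω → ℝ} {x : Ω → ι → ℝ}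

instance : IsProbabilityMeasure (gP ι) := by unfold gP; infer_instance

lemma int_of_bdd {F : (ι → ℝ) → ℝ} (hF : Continuous F) {B : ℝ} (hB : ∀ ξ, |F ξ| ≤ B) :
    Integrable F (gP ι) :=
  Integrable.of_bound hF.aestronglyMeasurable B (ae_of_all _ fun ξ => by
    rw [Real.norm_eq_abs]; exact hB ξ)

lemma int_coord (i : ι) : Integrable (fun ξ : ι → ℝ => ξ i) (gP ι) := by
  unfold gP
  have h : Integrable (fun x : ℝ => x) (gaussianReal 0 1) :=
    (memLp_id_gaussianReal 1).integrable le_rfl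
  exact integrable_comp_eval (μ := fun _ : ι => gaussianReal 0 1) (i := i) h

lemma int_lin {F : (ι → ℝ) → ℝ} (hF : Continuous F) {B : ℝ}
    (hB : ∀ ξ, |F ξ| ≤ B * (1 + ∑ i, |ξ i|)) : Integrable F (gP ι) := by
  have h1 : Integrable (fun ξ : ι → ℝ => B * (1 + ∑ i, |ξ i|)) (gP ι) :=
    ((integrable_const 1).add (integrable_finsetSum _ fun i _ => (int_coord i).abs)).const_mul B
  exact h1.mono' hF.aestronglyMeasurable (ae_of_all _ fun ξ => by
    rw [Real.norm_eq_abs]; exact hB ξ)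

/-- the field -/
def fld (b : ℝ) (f : ι → ℝ) (s : ℝ) (ξ : ι → ℝ) : ι → ℝ := fun i => b * ξ i + f i + s

lemma cont_fld (b : ℝ) (f : ι → ℝ) (s : ℝ) : Continuous (fld b f s) := by
  unfold fld; fun_prop

lemma hasFDerivAt_fld (b : ℝ) (f : ι → ℝ) (s : ℝ) (ξ : ι → ℝ) :
    HasFDerivAt (fld b f s) (b • ContinuousLinearMap.id ℝ (ι → ℝ)) ξ := by
  have h1 : fld b f s = fun ξ => b • ξ + (fun i => f i + s) := by
    funext ξ i
    simp [fld, add_assoc]
  rw [h1]
  exact ((hasFDerivAt_id ξ).const_smul b).add_const _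

lemma hasFDerivAt_p (hE : EFam w x) (b : ℝ) (f : ι → ℝ) (s : ℝ) (ξ : ι → ℝ) (i : ι) :
    HasFDerivAt (fun ξ => pE w x (fld b f s ξ) i)
      (∑ j, (b * cE w x (fld b f s ξ) i j) •
        ContinuousLinearMap.proj (R := ℝ) (φ := fun _ : ι => ℝ) j) ξ := by
  have h1 := (hasFDerivAt_pE hE (fld b f s ξ) i).comp ξ (hasFDerivAt_fld b f s ξ)
  refine h1.congr_fderiv ?_
  ext v
  simp [mul_sum]
  apply sum_congr rfl
  intro j _
  ring

/-- bounds for the correlations -/
lemma c_bd (hE : EFam w x) (θ : ι → ℝ) (i j : ι) : 0 ≤ cE w x θ i j ∧ cE w x θ i j ≤ 1 :=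
  ⟨hE.corr θ i j, (cE_le hE θ i j).trans (pE_le_one hE θ i)⟩

lemma cont_p (hE : EFam w x) (b : ℝ) (f : ι → ℝ) (s : ℝ) (i : ι) :
    Continuous fun ξ => pE w x (fld b f s ξ) i := (continuous_pE hE i).comp (cont_fld b f s)

lemma cont_c (hE : EFam w x) (b : ℝ) (f : ι → ℝ) (s : ℝ) (i j : ι) :
    Continuous fun ξ => cE w x (fld b f s ξ) i j := (continuous_cE hE i j).comp (cont_fld b f s)

/-- the weights in the choice of the scales -/
def cw (w : Ω → ℝ) (x : Ω → ι → ℝ) (b : ℝ) (f : ι → ℝ) (t : ℕ → ℝ) (k : ℕ) (sc : ℕ → ℝ) (j : ℕ)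
    (ξ : ι → ℝ) (i : ι) : ℝ :=
  t j * pE w x (fld b f (dy j) ξ) i + ∑ m ∈ Ico (j + 1) (k + 1), t m * pE w x (fld b f (sc m) ξ) i

lemma cw_cont (hE : EFam w x) (b : ℝ) (f : ι → ℝ) (t : ℕ → ℝ) (k : ℕ) (sc : ℕ → ℝ) (j : ℕ)
    (i : ι) : Continuous fun ξ => cw w x b f t k sc j ξ i := by
  unfold cw
  exact ((cont_p hE b f _ i).const_mul _).add
    (continuous_finsetSum _ fun m _ => (cont_p hE b f _ i).const_mul _)

lemma cw_nonneg (hE : EFam w x) (b : ℝ) (f : ι → ℝ) {t : ℕ → ℝ} (ht : ∀ j, 0 ≤ t j) (k : ℕ)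
    (sc : ℕ → ℝ) (j : ℕ) (ξ : ι → ℝ) (i : ι) : 0 ≤ cw w x b f t k sc j ξ i :=
  add_nonneg (mul_nonneg (ht j) (pE_nonneg hE _ i))
    (sum_nonneg fun m _ => mul_nonneg (ht m) (pE_nonneg hE _ i))

lemma cw_le (hE : EFam w x) (b : ℝ) (f : ι → ℝ) {t : ℕ → ℝ} (ht : ∀ j, 0 ≤ t j) (k : ℕ)
    (sc : ℕ → ℝ) (j : ℕ) (ξ : ι → ℝ) (i : ι) :
    cw w x b f t k sc j ξ i ≤ t j + ∑ m ∈ Ico (j + 1) (k + 1), t m := by
  unfold cw
  have h1 : t j * pE w x (fld b f (dy j) ξ) i ≤ t j * 1 :=
    mul_le_mul_of_nonneg_left (pE_le_one hE _ i) (ht j)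
  have h2 : ∑ m ∈ Ico (j + 1) (k + 1), t m * pE w x (fld b f (sc m) ξ) i ≤
      ∑ m ∈ Ico (j + 1) (k + 1), t m := by
    apply sum_le_sum
    intro m _
    have := mul_le_mul_of_nonneg_left (pE_le_one hE (fld b f (sc m) ξ) i) (ht m)
    linarith
  linarith

lemma cw_congr (b : ℝ) (f : ι → ℝ) (t : ℕ → ℝ) (k : ℕ) {sc sc' : ℕ → ℝ} {j : ℕ}
    (h : ∀ m, j < m → sc m = sc' m) (ξ : ι → ℝ) (i : ι) :
    cw w x b f t k sc j ξ i = cw w x b f t k sc' j ξ i := by
  unfold cw
  congr 1
  apply sum_congr rfl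
  intro m hm
  rw [mem_Ico] at hm
  rw [h m (by omega)]

/-- choice of the scales -/
lemma exists_scales (hE : EFam w x) (b : ℝ) (f : ι → ℝ) (k : ℕ) (t : ℕ → ℝ)
    (ht : ∀ j, 0 ≤ t j) : ∀ n : ℕ, n ≤ k + 1 → ∃ sc : ℕ → ℝ, ∀ j, k + 1 - n ≤ j → j < k + 1 →
      dy (j + 1) < sc j ∧ sc j < dy j ∧
      ∫ ξ, ∑ i, cw w x b f t k sc j ξ i * ∑ l, cE w x (fld b f (sc j) ξ) i l ∂gP ι ≤
        2 ^ (j + 1) * ∫ ξ, ∑ i, cw w x b f t k sc j ξ i ∂gP ι := by
  intro n
  induction n with
  | zero => intro _; exact ⟨fun _ => 0, fun j h1 h2 => by omega⟩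
  | succ n ih =>
    intro hn
    obtain ⟨sc, hsc⟩ := ih (by omega)
    set m := k + 1 - (n + 1) with hm
    obtain ⟨s, hs1, hs2, hs3⟩ := choose_scale hE b f (fun ξ i => cw w x b f t k sc m ξ i)
      (t m + ∑ l ∈ Ico (m + 1) (k + 1), t l) (cw_cont hE b f t k sc m)
      (cw_nonneg hE b f ht k sc m) (cw_le hE b f ht k sc m)
      (show dy (m + 1) < dy m by rw [dys]; have := dyp m; linarith)
    have hdd : dy m - dy (m + 1) = dy (m + 1) := by rw [dys]; ring
    rw [hdd, dy_inv] at hs3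
    refine ⟨Function.update sc m s, fun j h1 h2 => ?_⟩
    rcases eq_or_lt_of_le h1 with h3 | h3
    · rw [← h3, ← hm] at *
      rw [Function.update_self]
      have hc : ∀ ξ i, cw w x b f t k (Function.update sc m s) m ξ i = cw w x b f t k sc m ξ i :=
        fun ξ i => cw_congr b f t k (fun l hl => Function.update_of_ne (by omega) _ _) ξ i
      refine ⟨hs1, hs2, ?_⟩
      simp only [hc]
      exact hs3
    · have hc : ∀ ξ i, cw w x b f t k (Function.update sc m s) j ξ i = cw w x b f t k sc j ξ i :=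
        fun ξ i => cw_congr b f t k (fun l hl => Function.update_of_ne (by omega) _ _) ξ i
      simp only [hc]
      rw [Function.update_of_ne (by omega)]
      exact hsc j (by omega) h2

end E3b

open E3b in
theorem tilt_main {Ω ι : Type*} [Fintype Ω] [Fintype ι] {w : Ω → ℝ} {x : Ω → ι → ℝ}
    (hE : EFam w x) {b γ : ℝ} (hb : 0 ≤ b) (hγ : 0 < γ) (f : ι → ℝ) (k : ℕ)
    (t : ℕ → ℝ) (ht : ∀ j, 0 ≤ t j) :
    γ * (LE w x b f (dy (k + 1)) - dy (k + 1) * ME w x b f (dy (k + 1)) +
        b ^ 2 * (∑ j ∈ range (k + 1), t j) * RE w x b f (dy (k + 1))) -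
      ∑ j ∈ range (k + 1), t j * (b ^ 2 + b ^ 4 * 2 ^ (j + 1)) *
        ∑ i ∈ Ico j (k + 1), t i * ME w x b f (dy i) ≤
    Real.log (∫ ξ, ZE w x (fun i => b * ξ i + f i) ^ γ ∂gP ι) := by
  obtain ⟨sc, hsc0⟩ := exists_scales hE b f k t ht (k + 1) le_rfl
  have hsc1 : ∀ j, j < k + 1 → dy (j + 1) < sc j := fun j hj => (hsc0 j (by omega) hj).1
  have hsc2 : ∀ j, j < k + 1 → sc j < dy j := fun j hj => (hsc0 j (by omega) hj).2.1
  have hsc3 : ∀ j, j < k + 1 →
      ∫ ξ, ∑ i, cw w x b f t k sc j ξ i * ∑ l, cE w x (fld b f (sc j) ξ) i l ∂gP ι ≤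
        2 ^ (j + 1) * ∫ ξ, ∑ i, cw w x b f t k sc j ξ i ∂gP ι :=
    fun j hj => (hsc0 j (by omega) hj).2.2
  clear hsc0
  have hZpos : ∀ θ, 0 < ZE w x θ := ZE_pos hE.w_nonneg hE.w_pos
  set T := ∑ j ∈ range (k + 1), t j with hT
  have hT0 : 0 ≤ T := sum_nonneg fun j _ => ht j
  set d := dy (k + 1) with hd
  -- the functions
  set p : ℝ → (ι → ℝ) → ι → ℝ := fun s ξ i => pE w x (fld b f s ξ) i with hp
  set c : ℝ → (ι → ℝ) → ι → ι → ℝ := fun s ξ i l => cE w x (fld b f s ξ) i l with hc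
  have hp0 : ∀ s ξ i, 0 ≤ p s ξ i := fun s ξ i => pE_nonneg hE _ i
  have hp1 : ∀ s ξ i, p s ξ i ≤ 1 := fun s ξ i => pE_le_one hE _ i
  have hpm : ∀ {s s' : ℝ}, s ≤ s' → ∀ ξ i, p s ξ i ≤ p s' ξ i := by
    intro s s' h ξ i
    have := pE_mono hE (fun i => b * ξ i + f i) i h
    exact this
  have hc0 : ∀ s ξ i l, 0 ≤ c s ξ i l := fun s ξ i l => (c_bd hE _ i l).1
  have hc1 : ∀ s ξ i l, c s ξ i l ≤ 1 := fun s ξ i l => (c_bd hE _ i l).2
  have hcp : ∀ s ξ i l, c s ξ i l ≤ p s ξ i := fun s ξ i l => cE_le hE _ i l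
  have hpc : ∀ s i, Continuous fun ξ => p s ξ i := fun s i => cont_p hE b f s i
  have hcc : ∀ s i l, Continuous fun ξ => c s ξ i l := fun s i l => cont_c hE b f s i l
  set X : (ι → ℝ) → ℝ := fun ξ => γ * Real.log (ZE w x (fun i => b * ξ i + f i)) with hX
  set g : (ι → ℝ) → ι → ℝ := fun ξ i => b * ∑ j ∈ range (k + 1), t j * p (sc j) ξ i with hg
  set A : (ι → ℝ) → ι → ι → ℝ := fun ξ i l =>
    b ^ 2 * ∑ j ∈ range (k + 1), t j * c (sc j) ξ i l with hA
  -- bounds
  have hg0 : ∀ ξ i, 0 ≤ g ξ i := fun ξ i =>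
    mul_nonneg hb (sum_nonneg fun j _ => mul_nonneg (ht j) (hp0 _ _ _))
  have hgT : ∀ ξ i, g ξ i ≤ b * T := fun ξ i => by
    apply mul_le_mul_of_nonneg_left _ hb
    apply sum_le_sum
    intro j _
    have := mul_le_mul_of_nonneg_left (hp1 (sc j) ξ i) (ht j)
    linarith
  have hA0 : ∀ ξ i l, 0 ≤ A ξ i l := fun ξ i l =>
    mul_nonneg (by positivity) (sum_nonneg fun j _ => mul_nonneg (ht j) (hc0 _ _ _ _))
  have hAT : ∀ ξ i l, A ξ i l ≤ b ^ 2 * T := fun ξ i l => by
    apply mul_le_mul_of_nonneg_left _ (by positivity)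
    apply sum_le_sum
    intro j _
    have := mul_le_mul_of_nonneg_left (hc1 (sc j) ξ i l) (ht j)
    linarith
  have hgc : ∀ i, Continuous fun ξ => g ξ i := fun i =>
    (continuous_finsetSum _ fun j _ => (hpc (sc j) i).const_mul (t j)).const_mul b
  have hAc : ∀ i l, Continuous fun ξ => A ξ i l := fun i l =>
    (continuous_finsetSum _ fun j _ => (hcc (sc j) i l).const_mul (t j)).const_mul (b ^ 2)
  have hAs : ∀ ξ i l, A ξ i l = A ξ l i := fun ξ i l => by
    simp only [hA, hc]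
    congr 1
    apply sum_congr rfl
    intro j _
    rw [cE_symm]
  have hgd : ∀ ξ i, HasFDerivAt (fun ξ => g ξ i)
      (∑ l, A ξ i l • ContinuousLinearMap.proj (R := ℝ) (φ := fun _ : ι => ℝ) l) ξ := by
    intro ξ i
    have h1 : HasFDerivAt (fun ξ => b * ∑ j ∈ range (k + 1), t j * p (sc j) ξ i)
        (b • ∑ j ∈ range (k + 1), t j • ∑ l, (b * c (sc j) ξ i l) •
          ContinuousLinearMap.proj (R := ℝ) (φ := fun _ : ι => ℝ) l) ξ :=
      (HasFDerivAt.fun_sum fun j _ => (hasFDerivAt_p hE b f (sc j) ξ i).const_mul (t j)).const_mul b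
    refine h1.congr_fderiv ?_
    ext v
    simp only [_root_.smul_apply, _root_.sum_apply, ContinuousLinearMap.proj_apply, smul_eq_mul, hA,
      mul_sum, sum_mul]
    rw [sum_comm]
    apply sum_congr rfl
    intro l _
    apply sum_congr rfl
    intro j _
    ring
  have hpsd : ∀ ξ (v : ι → ℝ), 0 ≤ ∑ i, ∑ l, v i * v l * A ξ i l := by
    intro ξ v
    have h1 : ∑ i, ∑ l, v i * v l * A ξ i l =
        b ^ 2 * ∑ j ∈ range (k + 1), t j * ∑ i, ∑ l, v i * v l * c (sc j) ξ i l := by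
      simp only [hA, mul_sum]
      rw [sum_comm' (s := range (k + 1)) (t := fun _ => univ) (t' := univ)
        (s' := fun _ => range (k + 1)) (by simp)]
      apply sum_congr rfl
      intro i _
      rw [sum_comm' (s := range (k + 1)) (t := fun _ => univ) (t' := univ)
        (s' := fun _ => range (k + 1)) (by simp)]
      apply sum_congr rfl
      intro l _
      apply sum_congr rfl
      intro j _
      ring
    rw [h1]
    exact mul_nonneg (by positivity) (sum_nonneg fun j _ => mul_nonneg (ht j) (cE_psd hE _ v))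
  have hlip : ∀ θ θ' : ι → ℝ, |Real.log (ZE w x θ) - Real.log (ZE w x θ')| ≤ ∑ i, |θ i - θ' i| :=
    log_lip hE
  -- growth of the logarithm
  have hlogc : ∀ s, Continuous fun ξ => Real.log (ZE w x (fld b f s ξ)) := by
    intro s
    refine Continuous.log ?_ fun ξ => (hZpos _).ne'
    unfold ZE fld
    fun_prop
  have hlogb : ∀ s ξ, |Real.log (ZE w x (fld b f s ξ))| ≤
      (|Real.log (ZE w x (fld b f s 0))| + b) * (1 + ∑ i, |ξ i|) := by
    intro s ξ
    have h1 := hlip (fld b f s ξ) (fld b f s 0)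
    have h2 : ∑ i, |fld b f s ξ i - fld b f s 0 i| = b * ∑ i, |ξ i| := by
      rw [mul_sum]
      apply sum_congr rfl
      intro i _
      have : fld b f s ξ i - fld b f s 0 i = b * ξ i := by simp [fld]
      rw [this, abs_mul, abs_of_nonneg hb]
    rw [h2] at h1
    have h3 := abs_sub_abs_le_abs_sub (Real.log (ZE w x (fld b f s ξ)))
      (Real.log (ZE w x (fld b f s 0)))
    have h4 : 0 ≤ ∑ i, |ξ i| := sum_nonneg fun i _ => abs_nonneg _
    have h5 : 0 ≤ |Real.log (ZE w x (fld b f s 0))| := abs_nonneg _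
    nlinarith
  have hlogi : ∀ s, Integrable (fun ξ => Real.log (ZE w x (fld b f s ξ))) (gP ι) := fun s =>
    int_lin (hlogc s) (hlogb s)
  have hfld0 : ∀ ξ, fld b f 0 ξ = fun i => b * ξ i + f i := by
    intro ξ; funext i; simp [fld]
  have hX' : X = fun ξ => γ * Real.log (ZE w x (fld b f 0 ξ)) := by
    funext ξ
    simp only [hX, hfld0]
  -- the tilting inequality
  set B := γ * (|Real.log (ZE w x (fld b f 0 0))| + b) + b * T + b ^ 2 * T with hB
  have hB1 : 0 ≤ γ * (|Real.log (ZE w x (fld b f 0 0))| + b) := by positivity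
  have hB2 : 0 ≤ b * T := by positivity
  have hB3 : 0 ≤ b ^ 2 * T := by positivity
  have key := gauss_tilt X g A B (by rw [hX']; exact (hlogc 0).const_mul γ) (by
      intro ξ
      rw [hX']
      simp only
      rw [abs_mul, abs_of_pos hγ]
      have h1 := mul_le_mul_of_nonneg_left (hlogb 0 ξ) hγ.le
      have h4 : 0 ≤ ∑ i, |ξ i| := sum_nonneg fun i _ => abs_nonneg _
      have h5 : 0 ≤ (b * T + b ^ 2 * T) * (1 + ∑ i, |ξ i|) := by positivity
      calc γ * |Real.log (ZE w x (fld b f 0 ξ))|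
          ≤ γ * ((|Real.log (ZE w x (fld b f 0 0))| + b) * (1 + ∑ i, |ξ i|)) := h1
        _ ≤ B * (1 + ∑ i, |ξ i|) := by
            rw [hB]
            have h6 : (γ * (|Real.log (ZE w x (fld b f 0 0))| + b) + b * T + b ^ 2 * T) *
              (1 + ∑ i, |ξ i|) = γ * ((|Real.log (ZE w x (fld b f 0 0))| + b) *
              (1 + ∑ i, |ξ i|)) + (b * T + b ^ 2 * T) * (1 + ∑ i, |ξ i|) := by ring
            rw [h6]
            linarith) hgd (by
      intro ξ i
      rw [abs_of_nonneg (hg0 ξ i)]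
      have := hgT ξ i
      linarith) (by
      intro ξ i l
      rw [abs_of_nonneg (hA0 ξ i l)]
      have := hAT ξ i l
      linarith) hAc hAs hpsd
  have hexp : ∫ ξ, Real.exp (X ξ) ∂gP ι = ∫ ξ, ZE w x (fun i => b * ξ i + f i) ^ γ ∂gP ι := by
    apply integral_congr_ae
    refine ae_of_all _ fun ξ => ?_
    simp only [hX]
    rw [Real.rpow_def_of_pos (hZpos _), mul_comm]
  rw [hexp] at key
  -- integrability of the local densities
  have hpi : ∀ s, Integrable (fun ξ => ∑ i, p s ξ i) (gP ι) := fun s =>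
    int_of_bdd (continuous_finsetSum _ fun i _ => hpc s i) (B := Fintype.card ι) (fun ξ => by
      rw [abs_of_nonneg (sum_nonneg fun i _ => hp0 s ξ i)]
      refine (sum_le_sum fun i _ => hp1 s ξ i).trans ?_
      simp)
  have hp2i : ∀ s, Integrable (fun ξ => ∑ i, p s ξ i ^ 2) (gP ι) := fun s =>
    int_of_bdd (continuous_finsetSum _ fun i _ => (hpc s i).pow 2) (B := Fintype.card ι)
      (fun ξ => by
      rw [abs_of_nonneg (sum_nonneg fun i _ => by positivity)]
      refine (sum_le_sum fun i _ => pow_le_one₀ (hp0 s ξ i) (hp1 s ξ i)).trans ?_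
      simp)
  have hME : ∀ s, ME w x b f s = ∫ ξ, ∑ i, p s ξ i ∂gP ι := fun s => rfl
  have hRE : ∀ s, RE w x b f s = ∫ ξ, ∑ i, p s ξ i ^ 2 ∂gP ι := fun s => rfl
  have hLE : ∀ s, LE w x b f s = ∫ ξ, Real.log (ZE w x (fld b f s ξ)) ∂gP ι := fun s => rfl
  have hMmono : ∀ {s s' : ℝ}, s ≤ s' → ME w x b f s ≤ ME w x b f s' := by
    intro s s' h
    rw [hME, hME]
    exact integral_mono (hpi s) (hpi s') fun ξ => sum_le_sum fun i _ => hpm h ξ i
  -- gain
  have hgain : γ * (LE w x b f d - d * ME w x b f d + b ^ 2 * T * RE w x b f d) ≤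
      ∫ ξ, X (ξ + g ξ) ∂gP ι := by
    have hpt : ∀ ξ, γ * (Real.log (ZE w x (fld b f d ξ)) - d * ∑ i, p d ξ i +
        b ^ 2 * T * ∑ i, p d ξ i ^ 2) ≤ X (ξ + g ξ) := by
      intro ξ
      apply mul_le_mul_of_nonneg_left _ hγ.le
      have h1 := log_tangent hE (fld b f d ξ) (fun i => b * (ξ + g ξ) i + f i)
      refine le_trans ?_ h1
      have h2 : ∀ i, -(d * p d ξ i) + b ^ 2 * T * p d ξ i ^ 2 ≤
          ((b * (ξ + g ξ) i + f i) - fld b f d ξ i) * pE w x (fld b f d ξ) i := by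
        intro i
        have h3 : (b * (ξ + g ξ) i + f i) - fld b f d ξ i = b * g ξ i - d := by
          simp only [fld, Pi.add_apply]; ring
        rw [h3]
        have h4 : b * T * p d ξ i ≤ g ξ i := by
          simp only [hg]
          rw [mul_assoc]
          apply mul_le_mul_of_nonneg_left _ hb
          rw [hT, sum_mul]
          apply sum_le_sum
          intro j hj
          rw [mem_range] at hj
          apply mul_le_mul_of_nonneg_left _ (ht j)
          apply hpm
          exact (dy_anti (by omega : j + 1 ≤ k + 1)).trans (hsc1 j hj).le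
        have h5 := mul_le_mul_of_nonneg_right (mul_le_mul_of_nonneg_left h4 hb) (hp0 d ξ i)
        have h6 : pE w x (fld b f d ξ) i = p d ξ i := rfl
        rw [h6]
        nlinarith
      have h7 := sum_le_sum fun i (_ : i ∈ univ) => h2 i
      rw [sum_add_distrib, sum_neg_distrib, ← mul_sum, ← mul_sum] at h7
      linarith
    rw [hLE, hME, hRE]
    have hi1 : Integrable (fun ξ => γ * (Real.log (ZE w x (fld b f d ξ)) - d * ∑ i, p d ξ i +
        b ^ 2 * T * ∑ i, p d ξ i ^ 2)) (gP ι) :=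
      (((hlogi d).sub ((hpi d).const_mul d)).add ((hp2i d).const_mul _)).const_mul γ
    have e : ∫ ξ, γ * (Real.log (ZE w x (fld b f d ξ)) - d * ∑ i, p d ξ i +
        b ^ 2 * T * ∑ i, p d ξ i ^ 2) ∂gP ι = γ * (∫ ξ, Real.log (ZE w x (fld b f d ξ)) ∂gP ι -
        d * ∫ ξ, ∑ i, p d ξ i ∂gP ι + b ^ 2 * T * ∫ ξ, ∑ i, p d ξ i ^ 2 ∂gP ι) := by
      have hi0 : Integrable (fun ξ => Real.log (ZE w x (fld b f d ξ)) - d * ∑ i, p d ξ i) (gP ι) :=
        (hlogi d).sub ((hpi d).const_mul d)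
      rw [integral_const_mul, integral_add hi0 ((hp2i d).const_mul _),
        integral_sub (hlogi d) ((hpi d).const_mul d), integral_const_mul, integral_const_mul]
    rw [← e]
    apply integral_mono hi1 _ hpt
    -- integrability of X (ξ + g ξ)
    have hcX : Continuous fun ξ => X (ξ + g ξ) := by
      rw [hX']
      have h1 : Continuous fun ξ : ι → ℝ => ξ + g ξ :=
        continuous_id.add (continuous_pi hgc)
      exact ((hlogc 0).comp h1).const_mul γ
    refine int_lin hcX (B := γ * (|Real.log (ZE w x (fld b f 0 0))| + b) *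
      (1 + Fintype.card ι * (b * T))) fun ξ => ?_
    rw [hX']
    simp only
    rw [abs_mul, abs_of_pos hγ]
    have h1 := mul_le_mul_of_nonneg_left (hlogb 0 (ξ + g ξ)) hγ.le
    refine h1.trans ?_
    have h2 : ∑ i, |(ξ + g ξ) i| ≤ ∑ i, |ξ i| + Fintype.card ι * (b * T) := by
      calc ∑ i, |(ξ + g ξ) i| ≤ ∑ i, (|ξ i| + b * T) := by
            apply sum_le_sum
            intro i _
            refine (abs_add_le _ _).trans ?_
            rw [abs_of_nonneg (hg0 ξ i)]
            have := hgT ξ i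
            linarith
        _ = _ := by rw [sum_add_distrib, sum_const, nsmul_eq_mul, card_univ]
    have h4 : 0 ≤ ∑ i, |ξ i| := sum_nonneg fun i _ => abs_nonneg _
    have h5 : 1 + ∑ i, |(ξ + g ξ) i| ≤ (1 + Fintype.card ι * (b * T)) * (1 + ∑ i, |ξ i|) := by
      have : 0 ≤ Fintype.card ι * (b * T) * ∑ i, |ξ i| := by positivity
      nlinarith
    calc γ * ((|Real.log (ZE w x (fld b f 0 0))| + b) * (1 + ∑ i, |(ξ + g ξ) i|))
        = (γ * (|Real.log (ZE w x (fld b f 0 0))| + b)) * (1 + ∑ i, |(ξ + g ξ) i|) := by ring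
      _ ≤ (γ * (|Real.log (ZE w x (fld b f 0 0))| + b)) *
          ((1 + Fintype.card ι * (b * T)) * (1 + ∑ i, |ξ i|)) :=
          mul_le_mul_of_nonneg_left h5 hB1
      _ = _ := by ring
  -- costs
  have hcost : (1 / 2) * ∫ ξ, (∑ i, g ξ i ^ 2 + ∑ i, ∑ l, A ξ i l ^ 2) ∂gP ι ≤
      ∑ j ∈ range (k + 1), t j * (b ^ 2 + b ^ 4 * 2 ^ (j + 1)) *
        ∑ i ∈ Ico j (k + 1), t i * ME w x b f (dy i) := by
    -- pointwise
    have hpt : ∀ ξ, ∑ i, g ξ i ^ 2 + ∑ i, ∑ l, A ξ i l ^ 2 ≤
        ∑ j ∈ range (k + 1), (2 * b ^ 2 * t j * ∑ m ∈ Ico j (k + 1), t m * ∑ i, p (dy m) ξ i +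
          2 * b ^ 4 * t j * ∑ i, cw w x b f t k sc j ξ i * ∑ l, c (sc j) ξ i l) := by
      intro ξ
      rw [sum_add_distrib]
      apply add_le_add
      · -- cost 1
        have h1 : ∀ i, g ξ i ^ 2 ≤ ∑ j ∈ range (k + 1), 2 * b ^ 2 * t j *
            ∑ m ∈ Ico j (k + 1), t m * p (dy m) ξ i := by
          intro i
          have h2 := sq_sum_le (fun j => t j * p (sc j) ξ i) (k + 1)
          have h3 : g ξ i ^ 2 = b ^ 2 * (∑ j ∈ range (k + 1), t j * p (sc j) ξ i) ^ 2 := by
            simp only [hg]; ring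
          rw [h3]
          refine (mul_le_mul_of_nonneg_left h2 (by positivity)).trans ?_
          rw [← mul_assoc, mul_sum]
          apply sum_le_sum
          intro j hj
          have h4 : ∑ m ∈ Ico j (k + 1), t m * p (sc m) ξ i ≤
              ∑ m ∈ Ico j (k + 1), t m * p (dy m) ξ i := by
            apply sum_le_sum
            intro m hm
            rw [mem_Ico] at hm
            exact mul_le_mul_of_nonneg_left (hpm (hsc2 m hm.2).le ξ i) (ht m)
          have h5 : 0 ≤ ∑ m ∈ Ico j (k + 1), t m * p (sc m) ξ i :=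
            sum_nonneg fun m _ => mul_nonneg (ht m) (hp0 _ _ _)
          have h6 : t j * p (sc j) ξ i ≤ t j := by
            have := mul_le_mul_of_nonneg_left (hp1 (sc j) ξ i) (ht j)
            linarith
          calc b ^ 2 * 2 * (t j * p (sc j) ξ i * ∑ m ∈ Ico j (k + 1), t m * p (sc m) ξ i)
              ≤ b ^ 2 * 2 * (t j * ∑ m ∈ Ico j (k + 1), t m * p (dy m) ξ i) := by
                apply mul_le_mul_of_nonneg_left _ (by positivity)
                exact mul_le_mul h6 h4 h5 (ht j)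
            _ = _ := by ring
        calc ∑ i, g ξ i ^ 2 ≤ ∑ i, ∑ j ∈ range (k + 1), 2 * b ^ 2 * t j *
              ∑ m ∈ Ico j (k + 1), t m * p (dy m) ξ i := sum_le_sum fun i _ => h1 i
          _ = _ := by
              rw [sum_comm]
              apply sum_congr rfl
              intro j _
              rw [← mul_sum]
              congr 1
              rw [sum_comm]
              apply sum_congr rfl
              intro m _
              rw [mul_sum]
      · -- cost 2
        have h1 : ∀ i l, A ξ i l ^ 2 ≤ ∑ j ∈ range (k + 1), 2 * b ^ 4 * t j *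
            (c (sc j) ξ i l * cw w x b f t k sc j ξ i) := by
          intro i l
          have h2 := sq_sum_le (fun j => t j * c (sc j) ξ i l) (k + 1)
          have h3 : A ξ i l ^ 2 = b ^ 4 * (∑ j ∈ range (k + 1), t j * c (sc j) ξ i l) ^ 2 := by
            simp only [hA]; ring
          rw [h3]
          refine (mul_le_mul_of_nonneg_left h2 (by positivity)).trans ?_
          rw [← mul_assoc, mul_sum]
          apply sum_le_sum
          intro j hj
          rw [mem_range] at hj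
          have h4 : ∑ m ∈ Ico j (k + 1), t m * c (sc m) ξ i l ≤ cw w x b f t k sc j ξ i := by
            rw [sum_eq_sum_Ico_succ_bot hj]
            unfold cw
            apply add_le_add
            · apply mul_le_mul_of_nonneg_left _ (ht j)
              exact (hcp _ _ _ _).trans (hpm (hsc2 j hj).le ξ i)
            · apply sum_le_sum
              intro m hm
              exact mul_le_mul_of_nonneg_left (hcp _ _ _ _) (ht m)
          have h5 : 0 ≤ t j * c (sc j) ξ i l := mul_nonneg (ht j) (hc0 _ _ _ _)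
          calc b ^ 4 * 2 * (t j * c (sc j) ξ i l * ∑ m ∈ Ico j (k + 1), t m * c (sc m) ξ i l)
              ≤ b ^ 4 * 2 * (t j * c (sc j) ξ i l * cw w x b f t k sc j ξ i) := by
                apply mul_le_mul_of_nonneg_left _ (by positivity)
                exact mul_le_mul_of_nonneg_left h4 h5
            _ = _ := by ring
        calc ∑ i, ∑ l, A ξ i l ^ 2 ≤ ∑ i, ∑ l, ∑ j ∈ range (k + 1), 2 * b ^ 4 * t j *
              (c (sc j) ξ i l * cw w x b f t k sc j ξ i) :=
              sum_le_sum fun i _ => sum_le_sum fun l _ => h1 i l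
          _ = ∑ i, ∑ j ∈ range (k + 1), ∑ l, 2 * b ^ 4 * t j *
              (c (sc j) ξ i l * cw w x b f t k sc j ξ i) :=
              sum_congr rfl fun i _ => sum_comm
          _ = _ := by
              rw [sum_comm]
              apply sum_congr rfl
              intro j _
              rw [mul_sum]
              apply sum_congr rfl
              intro i _
              rw [← mul_sum, ← sum_mul]
              ring
    -- integrability
    have hci : ∀ j, Integrable (fun ξ => ∑ i, cw w x b f t k sc j ξ i *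
        ∑ l, c (sc j) ξ i l) (gP ι) := by
      intro j
      set K := t j + ∑ m ∈ Ico (j + 1) (k + 1), t m with hK
      refine int_of_bdd (B := Fintype.card ι * (K * Fintype.card ι)) ?_ fun ξ => ?_
      · exact continuous_finsetSum _ fun i _ => (cw_cont hE b f t k sc j i).mul
          (continuous_finsetSum _ fun l _ => hcc _ _ _)
      · have h1 : ∀ i, 0 ≤ cw w x b f t k sc j ξ i * ∑ l, c (sc j) ξ i l := fun i =>
          mul_nonneg (cw_nonneg hE b f ht k sc j ξ i) (sum_nonneg fun l _ => hc0 _ _ _ _)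
        rw [abs_of_nonneg (sum_nonneg fun i _ => h1 i)]
        calc ∑ i, cw w x b f t k sc j ξ i * ∑ l, c (sc j) ξ i l
            ≤ ∑ i : ι, K * Fintype.card ι := by
              apply sum_le_sum
              intro i _
              apply mul_le_mul (cw_le hE b f ht k sc j ξ i) _
                (sum_nonneg fun l _ => hc0 _ _ _ _) ((cw_nonneg hE b f ht k sc j ξ i).trans
                (cw_le hE b f ht k sc j ξ i))
              refine (sum_le_sum fun l _ => hc1 (sc j) ξ i l).trans ?_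
              simp
          _ = _ := by rw [sum_const, nsmul_eq_mul, card_univ]
    have hcwi : ∀ j, Integrable (fun ξ => ∑ i, cw w x b f t k sc j ξ i) (gP ι) := by
      intro j
      refine int_of_bdd (B := ∑ _i : ι, (t j + ∑ m ∈ Ico (j + 1) (k + 1), t m)) ?_ fun ξ => ?_
      · exact continuous_finsetSum _ fun i _ => cw_cont hE b f t k sc j i
      · rw [abs_of_nonneg (sum_nonneg fun i _ => cw_nonneg hE b f ht k sc j ξ i)]
        exact sum_le_sum fun i _ => cw_le hE b f ht k sc j ξ i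
    have hterm1 : ∀ j, Integrable (fun ξ => 2 * b ^ 2 * t j *
        ∑ m ∈ Ico j (k + 1), t m * ∑ i, p (dy m) ξ i) (gP ι) := fun j =>
      (integrable_finsetSum _ fun m _ => (hpi (dy m)).const_mul (t m)).const_mul _
    have hterm2 : ∀ j, Integrable (fun ξ => 2 * b ^ 4 * t j *
        ∑ i, cw w x b f t k sc j ξ i * ∑ l, c (sc j) ξ i l) (gP ι) := fun j =>
      (hci j).const_mul _
    have hR : Integrable (fun ξ => ∑ j ∈ range (k + 1), (2 * b ^ 2 * t j *
        ∑ m ∈ Ico j (k + 1), t m * ∑ i, p (dy m) ξ i +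
          2 * b ^ 4 * t j * ∑ i, cw w x b f t k sc j ξ i * ∑ l, c (sc j) ξ i l)) (gP ι) :=
      integrable_finsetSum _ fun j _ => (hterm1 j).add (hterm2 j)
    have hL : Integrable (fun ξ => ∑ i, g ξ i ^ 2 + ∑ i, ∑ l, A ξ i l ^ 2) (gP ι) := by
      refine hR.mono' ?_ (ae_of_all _ fun ξ => ?_)
      · apply Continuous.aestronglyMeasurable
        exact (continuous_finsetSum _ fun i _ => (hgc i).pow 2).add
          (continuous_finsetSum _ fun i _ => continuous_finsetSum _ fun l _ => (hAc i l).pow 2)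
      · rw [Real.norm_eq_abs, abs_of_nonneg (by positivity)]
        exact hpt ξ
    have hint := integral_mono hL hR hpt
    have hterm : ∀ j, Integrable (fun ξ => 2 * b ^ 2 * t j *
        ∑ m ∈ Ico j (k + 1), t m * ∑ i, p (dy m) ξ i +
          2 * b ^ 4 * t j * ∑ i, cw w x b f t k sc j ξ i * ∑ l, c (sc j) ξ i l) (gP ι) :=
      fun j => (hterm1 j).add (hterm2 j)
    rw [integral_finsetSum _ (fun j _ => hterm j)] at hint
    have hj : ∀ j ∈ range (k + 1), ∫ ξ, (2 * b ^ 2 * t j *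
        ∑ m ∈ Ico j (k + 1), t m * ∑ i, p (dy m) ξ i +
          2 * b ^ 4 * t j * ∑ i, cw w x b f t k sc j ξ i * ∑ l, c (sc j) ξ i l) ∂gP ι ≤
        2 * (t j * (b ^ 2 + b ^ 4 * 2 ^ (j + 1)) *
        ∑ i ∈ Ico j (k + 1), t i * ME w x b f (dy i)) := by
      intro j hj
      rw [mem_range] at hj
      rw [integral_add (hterm1 j) (hterm2 j), integral_const_mul, integral_const_mul,
        integral_finsetSum _ (fun m _ => (hpi (dy m)).const_mul (t m))]
      have e1 : ∑ m ∈ Ico j (k + 1), ∫ ξ, t m * ∑ i, p (dy m) ξ i ∂gP ι =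
          ∑ m ∈ Ico j (k + 1), t m * ME w x b f (dy m) := by
        apply sum_congr rfl
        intro m _
        rw [integral_const_mul, hME]
      rw [e1]
      have e2 : ∫ ξ, ∑ i, cw w x b f t k sc j ξ i ∂gP ι ≤
          ∑ m ∈ Ico j (k + 1), t m * ME w x b f (dy m) := by
        have h1 : ∀ ξ, ∑ i, cw w x b f t k sc j ξ i ≤
            ∑ m ∈ Ico j (k + 1), t m * ∑ i, p (dy m) ξ i := by
          intro ξ
          have h2 : ∀ i, cw w x b f t k sc j ξ i ≤ ∑ m ∈ Ico j (k + 1), t m * p (dy m) ξ i := by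
            intro i
            rw [sum_eq_sum_Ico_succ_bot hj]
            unfold cw
            apply add_le_add le_rfl
            apply sum_le_sum
            intro m hm
            rw [mem_Ico] at hm
            exact mul_le_mul_of_nonneg_left (hpm (hsc2 m hm.2).le ξ i) (ht m)
          refine (sum_le_sum fun i _ => h2 i).trans (le_of_eq ?_)
          rw [sum_comm]
          apply sum_congr rfl
          intro m _
          rw [mul_sum]
        have h3 := integral_mono (hcwi j)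
          (integrable_finsetSum _ fun m _ => (hpi (dy m)).const_mul (t m)) h1
        rw [integral_finsetSum _ (fun m _ => (hpi (dy m)).const_mul (t m)), e1] at h3
        exact h3
      have e3 := (hsc3 j hj).trans (mul_le_mul_of_nonneg_left e2 (by positivity))
      have e4 := mul_le_mul_of_nonneg_left e3 (show 0 ≤ 2 * b ^ 4 * t j from
        mul_nonneg (by positivity) (ht j))
      have e5 : 2 * b ^ 4 * t j * ∫ ξ, ∑ i, cw w x b f t k sc j ξ i * ∑ l, c (sc j) ξ i l ∂gP ι ≤
        2 * b ^ 4 * t j * (2 ^ (j + 1) * ∑ m ∈ Ico j (k + 1), t m * ME w x b f (dy m)) := e4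
      nlinarith
    have hfin := hint.trans (sum_le_sum hj)
    rw [← mul_sum] at hfin
    linarith
  linarith

end

end Pool.Agent.OT
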