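import Mathlib
import Pool.Agent.Lib.MP_daa227_pr_OT.Defs
import Pool.Agent.Lib.MP_daa227_pr_OT.EFc
import Pool.Agent.Lib.MP_daa227_pr_OT.Tilt
import Pool.Agent.Lib.MP_daa227_pr_OT.Paths
import Pool.Agent.Lib.MP_daa227_pr_OT.PathSum
import Pool.Agent.Lib.MP_daa227_pr_OT.KZ

/-!
# Copolymer: the tilting inequality for charges with a Gaussian component
-/

namespace Pool.Agent.OT

open MeasureTheory ProbabilityTheory Finset Filter Topology
open MP_daa227_pr (Chain Zk Zf K0 shift seqLaw ExpMom)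

noncomputable section

namespace E4

lemma measurable_tr (m : ℕ) : Measurable (tr m) := by
  rw [measurable_pi_iff]
  intro i
  exact measurable_pi_apply (i : ℕ)

/-- law of the first `m` charges -/
lemma mp_tr (μ : Measure ℝ) [IsProbabilityMeasure μ] (m : ℕ) :
    MeasurePreserving (tr m) (seqLaw μ) (Measure.pi (fun _ : Fin m => μ)) := by
  refine ⟨measurable_tr m, ?_⟩
  symm
  apply Measure.pi_eq
  intro A hA
  rw [Measure.map_apply (measurable_tr m) (MeasurableSet.univ_pi hA)]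
  have h1 : tr m ⁻¹' Set.pi Set.univ A =
      Set.pi (range m : Finset ℕ) (fun i => if h : i < m then A ⟨i, h⟩ else Set.univ) := by
    ext ω
    simp only [Set.mem_preimage, Set.mem_pi, Set.mem_univ, true_imp_iff, Finset.coe_range,
      Set.mem_Iio, tr]
    constructor
    · intro h i hi
      rw [dif_pos hi]
      exact h ⟨i, hi⟩
    · intro h i
      have := h i i.2
      rwa [dif_pos i.2] at this
  rw [h1]
  unfold seqLaw
  rw [Measure.infinitePi_pi]
  · rw [← Fin.prod_univ_eq_prod_range (fun i => μ (if h : i < m then A ⟨i, h⟩ else Set.univ))]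
    refine Finset.prod_congr rfl fun i _ => ?_
    rw [dif_pos i.2]
  · intro i hi
    rw [dif_pos (Finset.mem_range.1 hi)]
    exact hA _

lemma mp_one (ν : Measure ℝ) [IsProbabilityMeasure ν] (s : NNReal) {μ : Measure ℝ}
    (hμ : μ = (gaussianReal 0 (s ^ 2)).conv ν) :
    MeasurePreserving (fun p : ℝ × ℝ => (s : ℝ) * p.1 + p.2) ((gaussianReal 0 1).prod ν) μ := by
  refine ⟨by fun_prop, ?_⟩
  have h1 : gaussianReal 0 (s ^ 2) = (gaussianReal 0 1).map (fun x => (s : ℝ) * x) := by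
    rw [gaussianReal_map_const_mul, mul_zero, mul_one]
    congr 1
  have h2 : (gaussianReal 0 (s ^ 2)).prod ν =
      Measure.map (Prod.map (fun x => (s : ℝ) * x) id) ((gaussianReal 0 1).prod ν) := by
    rw [h1]
    conv_lhs => rw [← Measure.map_id (μ := ν)]
    rw [Measure.map_prod_map _ _ (by fun_prop) measurable_id]
  rw [hμ, Measure.conv, h2, Measure.map_map (by fun_prop) (by fun_prop)]
  rfl

/-- the field of charges is the sum of a Gaussian field and an independent one -/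
lemma mp_pi {ι : Type*} [Fintype ι] (ν : Measure ℝ) [IsProbabilityMeasure ν] (s : NNReal)
    {μ : Measure ℝ} [IsProbabilityMeasure μ] (hμ : μ = (gaussianReal 0 (s ^ 2)).conv ν) :
    MeasurePreserving (fun (q : (ι → ℝ) × (ι → ℝ)) (i : ι) => (s : ℝ) * q.1 i + q.2 i)
      ((gP ι).prod (Measure.pi fun _ : ι => ν)) (Measure.pi fun _ : ι => μ) := by
  have h1 := (measurePreserving_arrowProdEquivProdArrow ℝ ℝ ι (fun _ => gaussianReal 0 1)
    (fun _ => ν)).symm
  have h2 := measurePreserving_pi (fun _ : ι => (gaussianReal 0 1).prod ν) (fun _ : ι => μ)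
    (fun _ => mp_one ν s hμ)
  exact h2.comp h1

lemma int_split {m : ℕ} (ν : Measure ℝ) [IsProbabilityMeasure ν] (s : NNReal)
    {μ : Measure ℝ} [IsProbabilityMeasure μ] (hμ : μ = (gaussianReal 0 (s ^ 2)).conv ν)
    (β h δ : ℝ) {Φ : (Fin m → ℝ) → ℝ} (hΦ : Measurable Φ)
    (hi : Integrable (fun v : Fin m → ℝ => Φ (fun i => β * v i - (h - δ)))
      (Measure.pi fun _ : Fin m => μ)) :
    Integrable (fun ω => Φ (tr m (en β (h - δ) ω))) (seqLaw μ) ∧
    (∫ η, ∫ ξ, Φ (fun i => β * s * ξ i + (β * η i - h) + δ) ∂gP (Fin m)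
      ∂(Measure.pi fun _ : Fin m => ν) = ∫ ω, Φ (tr m (en β (h - δ) ω)) ∂seqLaw μ) ∧
    Integrable (fun η : Fin m → ℝ => ∫ ξ, Φ (fun i => β * s * ξ i + (β * η i - h) + δ) ∂gP (Fin m))
      (Measure.pi fun _ : Fin m => ν) ∧
    ∀ᵐ η : Fin m → ℝ ∂(Measure.pi fun _ : Fin m => ν),
      Integrable (fun ξ : Fin m → ℝ => Φ (fun i => β * s * ξ i + (β * η i - h) + δ))
        (gP (Fin m)) := by
  have : IsProbabilityMeasure (gP (Fin m)) := by unfold gP; infer_instance
  have hΨ : Measurable (fun v : Fin m → ℝ => Φ (fun i => β * v i - (h - δ))) :=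
    hΦ.comp (by rw [measurable_pi_iff]; intro i; fun_prop)
  have h1 := mp_tr μ m
  have h2 := mp_pi (ι := Fin m) ν s hμ
  have e1 : ∫ ω, Φ (tr m (en β (h - δ) ω)) ∂seqLaw μ =
      ∫ v : Fin m → ℝ, Φ (fun i => β * v i - (h - δ)) ∂(Measure.pi fun _ : Fin m => μ) := by
    rw [← h1.map_eq, integral_map h1.measurable.aemeasurable hΨ.aestronglyMeasurable]
    rfl
  have e2 : ∀ q : (Fin m → ℝ) × (Fin m → ℝ),
      Φ (fun i => β * ((s : ℝ) * q.1 i + q.2 i) - (h - δ)) =
      Φ (fun i => β * s * q.1 i + (β * q.2 i - h) + δ) := by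
    intro q
    congr 1
    funext i
    ring
  have h3 : Integrable (fun q : (Fin m → ℝ) × (Fin m → ℝ) =>
      Φ (fun i => β * s * q.1 i + (β * q.2 i - h) + δ))
      ((gP (Fin m)).prod (Measure.pi fun _ : Fin m => ν)) := by
    have h4 := (h2.integrable_comp hΨ.aestronglyMeasurable).2 hi
    refine h4.congr (ae_of_all _ fun q => ?_)
    exact e2 q
  have e3 : ∫ v : Fin m → ℝ, Φ (fun i => β * v i - (h - δ)) ∂(Measure.pi fun _ : Fin m => μ) =
      ∫ η, ∫ ξ, Φ (fun i => β * s * ξ i + (β * η i - h) + δ) ∂gP (Fin m)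
        ∂(Measure.pi fun _ : Fin m => ν) := by
    rw [← h2.map_eq, integral_map h2.measurable.aemeasurable hΨ.aestronglyMeasurable]
    rw [← integral_prod_symm (fun q : (Fin m → ℝ) × (Fin m → ℝ) =>
      Φ (fun i => β * s * q.1 i + (β * q.2 i - h) + δ)) h3]
    exact integral_congr_ae (ae_of_all _ e2)
  refine ⟨?_, ?_, ?_, ?_⟩
  · exact (h1.integrable_comp hΨ.aestronglyMeasurable).2 hi
  · rw [e1, e3]
  · exact h3.integral_prod_right
  · exact h3.prod_left_ae

/-- integrability and value of the integral -/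
def HI {α : Type*} [MeasurableSpace α] (P : Measure α) (F : α → ℝ) (v : ℝ) : Prop :=
  Integrable F P ∧ ∫ a, F a ∂P = v

lemma HI.add {α : Type*} [MeasurableSpace α] {P : Measure α} {F G : α → ℝ} {u v : ℝ}
    (h1 : HI P F u) (h2 : HI P G v) : HI P (fun a => F a + G a) (u + v) :=
  ⟨h1.1.add h2.1, by rw [integral_add h1.1 h2.1, h1.2, h2.2]⟩

lemma HI.sub {α : Type*} [MeasurableSpace α] {P : Measure α} {F G : α → ℝ} {u v : ℝ}
    (h1 : HI P F u) (h2 : HI P G v) : HI P (fun a => F a - G a) (u - v) :=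
  ⟨h1.1.sub h2.1, by rw [integral_sub h1.1 h2.1, h1.2, h2.2]⟩

lemma HI.mul {α : Type*} [MeasurableSpace α] {P : Measure α} {F : α → ℝ} {u : ℝ}
    (c : ℝ) (h1 : HI P F u) : HI P (fun a => c * F a) (c * u) :=
  ⟨h1.1.const_mul c, by rw [integral_const_mul, h1.2]⟩

lemma HI.sum {α ι : Type*} [MeasurableSpace α] {P : Measure α} (S : Finset ι) {F : ι → α → ℝ}
    {u : ι → ℝ} (h1 : ∀ i ∈ S, HI P (F i) (u i)) :
    HI P (fun a => ∑ i ∈ S, F i a) (∑ i ∈ S, u i) :=
  ⟨integrable_finsetSum _ fun i hi => (h1 i hi).1, by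
    rw [integral_finsetSum _ fun i hi => (h1 i hi).1]
    exact Finset.sum_congr rfl fun i hi => (h1 i hi).2⟩

section bounds

variable {Ω : Type*} [Fintype Ω] {m : ℕ} {w : Ω → ℝ} {x : Ω → Fin m → ℝ}

lemma continuous_ZE : Continuous (ZE w x) := by
  unfold ZE
  fun_prop

lemma continuous_log (hE : EFam w x) : Continuous fun θ => Real.log (ZE w x θ) :=
  continuous_ZE.log fun θ => (ZE_pos hE.w_nonneg hE.w_pos θ).ne'

lemma integrable_eval {μ : Measure ℝ} [IsProbabilityMeasure μ] (i : Fin m) {g : ℝ → ℝ}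
    (hg : Integrable g μ) : Integrable (fun v : Fin m → ℝ => g (v i)) (Measure.pi fun _ => μ) :=
  ((measurePreserving_eval (fun _ : Fin m => μ) i).integrable_comp hg.aestronglyMeasurable).2 hg

lemma integrable_log (hE : EFam w x) {μ : Measure ℝ} [IsProbabilityMeasure μ] (hμe : ExpMom μ)
    (β c : ℝ) : Integrable (fun v : Fin m → ℝ => Real.log (ZE w x (fun i => β * v i - c)))
      (Measure.pi fun _ => μ) := by
  have h1 : Integrable (fun v : Fin m → ℝ => |Real.log (ZE w x 0)| +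
      ∑ i, (|β| * |v i| + |c|)) (Measure.pi fun _ => μ) := by
    refine (integrable_const _).add (integrable_finsetSum _ fun i _ => ?_)
    exact ((integrable_eval i hμe.integrable_abs).const_mul _).add (integrable_const _)
  refine h1.mono' ?_ (ae_of_all _ fun v => ?_)
  · exact ((continuous_log hE).comp (by fun_prop)).aestronglyMeasurable
  · rw [Real.norm_eq_abs]
    have h2 := log_lip hE (fun i => β * v i - c) 0
    have h3 : ∑ i, |(fun i => β * v i - c) i - (0 : Fin m → ℝ) i| ≤ ∑ i, (|β| * |v i| + |c|) := by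
      refine Finset.sum_le_sum fun i _ => ?_
      simp only [Pi.zero_apply, sub_zero]
      exact (abs_sub _ _).trans (by rw [abs_mul])
    have h4 := abs_sub_abs_le_abs_sub (Real.log (ZE w x (fun i => β * v i - c)))
      (Real.log (ZE w x 0))
    linarith

lemma integrable_exp (hE : EFam w x) {μ : Measure ℝ} [IsProbabilityMeasure μ] (hμe : ExpMom μ)
    (β c : ℝ) {γ : ℝ} (hγ : 0 < γ) :
    Integrable (fun v : Fin m → ℝ => Real.exp (γ * Real.log (ZE w x (fun i => β * v i - c))))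
      (Measure.pi fun _ => μ) := by
  have h1 : Integrable (fun v : Fin m → ℝ => Real.exp (γ * (|Real.log (ZE w x 0)| + m * |c|)) *
      ∏ i, Real.exp (γ * |β| * |v i|)) (Measure.pi fun _ => μ) := by
    refine Integrable.const_mul ?_ _
    exact Integrable.fintype_prod (fun i => hμe.abs (γ * |β|))
  refine h1.mono' ?_ (ae_of_all _ fun v => ?_)
  · exact (Real.continuous_exp.comp (((continuous_log hE).comp
      (by fun_prop)).const_mul γ)).aestronglyMeasurable
  · rw [Real.norm_eq_abs, abs_of_pos (Real.exp_pos _), ← Real.exp_sum, ← Real.exp_add]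
    apply Real.exp_le_exp.2
    have h2 := log_lip hE (fun i => β * v i - c) 0
    have h3 : ∑ i, |(fun i => β * v i - c) i - (0 : Fin m → ℝ) i| ≤ ∑ i, (|β| * |v i| + |c|) := by
      refine Finset.sum_le_sum fun i _ => ?_
      simp only [Pi.zero_apply, sub_zero]
      exact (abs_sub _ _).trans (by rw [abs_mul])
    have h5 : Real.log (ZE w x (fun i => β * v i - c)) ≤ |Real.log (ZE w x 0)| +
        ∑ i, (|β| * |v i| + |c|) := by
      have := le_abs_self (Real.log (ZE w x (fun i => β * v i - c)))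
      have h6 := abs_sub_abs_le_abs_sub (Real.log (ZE w x (fun i => β * v i - c)))
        (Real.log (ZE w x 0))
      linarith
    have h6 := mul_le_mul_of_nonneg_left h5 hγ.le
    refine h6.trans (le_of_eq ?_)
    rw [Finset.sum_add_distrib, Finset.sum_const, Finset.card_univ, Fintype.card_fin,
      nsmul_eq_mul, mul_add, mul_add, mul_add, Finset.mul_sum]
    simp only [mul_assoc]
    ring

lemma integrable_dens (hE : EFam w x) {μ : Measure ℝ} [IsProbabilityMeasure μ]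
    (β c : ℝ) (k : ℕ) : Integrable (fun v : Fin m → ℝ =>
      ∑ i, pE w x (fun i => β * v i - c) i ^ k) (Measure.pi fun _ => μ) := by
  refine integrable_finsetSum _ fun i _ => ?_
  refine Integrable.of_bound (C := 1) ?_ (ae_of_all _ fun v => ?_)
  · exact (((continuous_pE hE i).comp (by fun_prop)).pow k).aestronglyMeasurable
  · have h0 := pE_nonneg hE (fun i => β * v i - c) i
    have h1 := pE_le_one hE (fun i => β * v i - c) i
    rw [Real.norm_eq_abs, abs_of_nonneg (pow_nonneg h0 k)]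
    exact pow_le_one₀ h0 h1

end bounds

end E4

theorem tilt_seq (C : Chain) (hnl : ∀ x, C.p x x = 0) (ν : Measure ℝ) [IsProbabilityMeasure ν]
    (hν : ExpMom ν) (s : NNReal) {μ : Measure ℝ} [IsProbabilityMeasure μ]
    (hμ : μ = (gaussianReal 0 (s ^ 2)).conv ν) (hμe : ExpMom μ) {β γ : ℝ} (hβ : 0 < β) (hγ : 0 < γ)
    (h : ℝ) (k : ℕ) (t : ℕ → ℝ) (ht : ∀ j, 0 ≤ t j) (n : ℕ) :
    γ * (LZ C μ β (h - dy (k + 1)) n - dy (k + 1) * MZ C μ β (h - dy (k + 1)) n +
        (β * s) ^ 2 * (∑ j ∈ range (k + 1), t j) * RZ C μ β (h - dy (k + 1)) n) -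
      ∑ j ∈ range (k + 1), t j * ((β * s) ^ 2 + (β * s) ^ 4 * 2 ^ (j + 1)) *
        ∑ i ∈ Ico j (k + 1), t i * MZ C μ β (h - dy i) n ≤
    Real.log (∫ ω, Zr (Kp C) (Km C) n (en β h ω) ^ γ ∂seqLaw μ) := by
  have hE := path_EFam C n
  obtain ⟨w, hw⟩ : ∃ w, w = wt C (2 * n) := ⟨_, rfl⟩
  obtain ⟨x, hx⟩ : ∃ x, x = spin (2 * n) := ⟨_, rfl⟩
  rw [← hw, ← hx] at hE
  have hZ : ∀ (c : ℝ) (ω : ℕ → ℝ), Zr (Kp C) (Km C) n (en β c ω) =
      ZE w x (tr (2 * n) (en β c ω)) := by
    intro c ω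
    rw [← Zk_eq_Zr C hnl β c n ω, ← path_sum C hnl β c (2 * n) ω, hw, hx]
  have hb : 0 ≤ β * s := mul_nonneg hβ.le s.2
  obtain ⟨P, hP⟩ : ∃ P, P = Measure.pi (fun _ : Fin (2 * n) => ν) := ⟨_, rfl⟩
  have hPp : IsProbabilityMeasure P := by rw [hP]; infer_instance
  have hgp : IsProbabilityMeasure (gP (Fin (2 * n))) := by unfold gP; infer_instance
  -- the averages
  have hL : ∀ δ : ℝ, E4.HI P (fun η => LE w x (β * s) (fun i => β * η i - h) δ)
      (LZ C μ β (h - δ) n) := by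
    intro δ
    obtain ⟨_, e1, e2, _⟩ := E4.int_split ν s hμ β h δ
      (E4.continuous_log hE).measurable (E4.integrable_log hE hμe β (h - δ))
    rw [← hP] at e1 e2
    refine ⟨e2, e1.trans ?_⟩
    unfold LZ
    simp only [hZ]
  have hM : ∀ δ : ℝ, E4.HI P (fun η => ME w x (β * s) (fun i => β * η i - h) δ)
      (MZ C μ β (h - δ) n) := by
    intro δ
    have h1 := E4.integrable_dens (μ := μ) hE β (h - δ) 1
    simp only [pow_one] at h1
    obtain ⟨_, e1, e2, _⟩ := E4.int_split ν s hμ β h δ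
      (Φ := fun θ => ∑ i, pE w x θ i)
      (continuous_finsetSum _ fun i _ => continuous_pE hE i).measurable h1
    rw [← hP] at e1 e2
    refine ⟨e2, e1.trans ?_⟩
    unfold MZ
    rw [hw, hx]
  have hR : ∀ δ : ℝ, E4.HI P (fun η => RE w x (β * s) (fun i => β * η i - h) δ)
      (RZ C μ β (h - δ) n) := by
    intro δ
    obtain ⟨_, e1, e2, _⟩ := E4.int_split ν s hμ β h δ
      (Φ := fun θ => ∑ i, pE w x θ i ^ 2)
      (continuous_finsetSum _ fun i _ => (continuous_pE hE i).pow 2).measurable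
      (E4.integrable_dens (μ := μ) hE β (h - δ) 2)
    rw [← hP] at e1 e2
    refine ⟨e2, e1.trans ?_⟩
    unfold RZ
    rw [hw, hx]
  -- the left side
  have hleft := E4.HI.sub (E4.HI.mul γ (E4.HI.add (E4.HI.sub (hL (dy (k + 1)))
      (E4.HI.mul (dy (k + 1)) (hM (dy (k + 1)))))
      (E4.HI.mul ((β * s) ^ 2 * (∑ j ∈ range (k + 1), t j)) (hR (dy (k + 1))))))
    (E4.HI.sum (range (k + 1)) fun j _ =>
      E4.HI.mul (t j * ((β * s) ^ 2 + (β * s) ^ 4 * 2 ^ (j + 1)))
        (E4.HI.sum (Ico j (k + 1)) fun i _ => E4.HI.mul (t i) (hM (dy i))))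
  -- the right side
  have hrp : ∀ θ, ZE w x θ ^ γ = Real.exp (γ * Real.log (ZE w x θ)) := by
    intro θ
    rw [Real.rpow_def_of_pos (ZE_pos hE.w_nonneg hE.w_pos θ), mul_comm]
  obtain ⟨f1, f2, f3, f4⟩ := E4.int_split ν s hμ β h 0
    (Φ := fun θ => Real.exp (γ * Real.log (ZE w x θ)))
    (Real.continuous_exp.comp ((E4.continuous_log hE).const_mul γ)).measurable
    (E4.integrable_exp hE hμe β (h - 0) hγ)
  rw [← hP] at f2 f3 f4
  simp only [sub_zero, add_zero, ← hrp] at f1 f2 f3 f4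
  have f5 : ∫ ω, Zr (Kp C) (Km C) n (en β h ω) ^ γ ∂seqLaw μ =
      ∫ ω, ZE w x (tr (2 * n) (en β h ω)) ^ γ ∂seqLaw μ := by simp only [hZ]
  rw [f5]
  obtain ⟨m₀, hm₀⟩ : ∃ m₀, m₀ = ∫ ω, ZE w x (tr (2 * n) (en β h ω)) ^ γ ∂seqLaw μ := ⟨_, rfl⟩
  rw [← hm₀] at f2 ⊢
  have hm0 : 0 < m₀ := by
    rw [hm₀]
    simp only [hrp] at f1 ⊢
    exact integral_exp_pos f1
  obtain ⟨G, hG⟩ : ∃ G : (Fin (2 * n) → ℝ) → ℝ, G = fun η =>
      ∫ ξ, ZE w x (fun i => β * s * ξ i + (β * η i - h)) ^ γ ∂gP (Fin (2 * n)) := ⟨_, rfl⟩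
  rw [← hG] at f3
  have f6 : ∫ η, G η ∂P = m₀ := by rw [hG]; exact f2
  have hright : E4.HI P (fun η => Real.log m₀ + (1 / m₀) * (G η - m₀)) (Real.log m₀) := by
    have h1 : E4.HI P (fun _ => Real.log m₀) (Real.log m₀) := ⟨integrable_const _, by simp⟩
    have h2 : E4.HI P (fun _ => m₀) m₀ := ⟨integrable_const _, by simp⟩
    have h3 := E4.HI.add h1 (E4.HI.mul (1 / m₀) (E4.HI.sub ⟨f3, f6⟩ h2))
    simpa using h3
  rw [← hleft.2, ← hright.2]
  refine integral_mono_ae hleft.1 hright.1 ?_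
  filter_upwards [f4] with η hη
  have h1 := tilt_main hE hb hγ (fun i => β * η i - h) k t ht
  refine h1.trans ?_
  have hGη : G η = ∫ ξ, ZE w x (fun i => β * s * ξ i + (β * η i - h)) ^ γ ∂gP (Fin (2 * n)) := by
    rw [hG]
  have hGp : 0 < G η := by
    rw [hGη]
    simp only [hrp] at hη ⊢
    exact integral_exp_pos hη
  rw [← hGη]
  have h2 := Real.log_le_sub_one_of_pos (div_pos hGp hm0)
  rw [Real.log_div hGp.ne' hm0.ne'] at h2
  have h3 : (1 / m₀) * (G η - m₀) = G η / m₀ - 1 := by field_simp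
  rw [h3]
  linarith

end

end Pool.Agent.OT
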