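import Mathlib
import Pool.Agent.Lib.MP_daa227_pr_OT.Defs
import Pool.Agent.Lib.MP_daa227_pr_OT.Sup
import Pool.Agent.Lib.MP_daa227_pr_OT.Num
import Pool.Agent.Lib.MP_daa227_pr_OT.TiltSeq
import Pool.Agent.Lib.MP_daa227_pr_OT.PE
import Pool.Agent.Lib.MP_daa227_pr_OT.Hop
import Pool.Agent.Lib.MP_daa227_pr_OT.Conv

/-!
# PROJECT OT: the order of the transition, from the modules
-/

namespace Pool.Agent.OT

open MeasureTheory ProbabilityTheory Finset Filter Topology
open MP_daa227_pr (Chain Zk Zf K0 shift seqLaw ExpMom)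

noncomputable section

theorem dy_pos (k : ℕ) : 0 < dy k := by unfold dy; positivity

theorem dy_le_one (k : ℕ) : dy k ≤ 1 := pow_le_one₀ (by norm_num) (by norm_num)

theorem dy_zero : dy 0 = 1 := pow_zero _

theorem dy_succ (k : ℕ) : dy (k + 1) = dy k / 2 := by unfold dy; rw [pow_succ]; ring

/-- the averaged bound for the free energy at the dyadic scales -/
theorem F_dy {L M : ℕ → ℝ} {D : ℝ} (F0 : ℝ) {d q : ℝ} (hd : 0 ≤ d) (hDq : 0 ≤ D * q)
    (hL : Tendsto (fun n : ℕ => L n / (2 * n)) atTop (𝓝 F0))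
    (hLM : ∀ n, L n ≤ d * M n)
    (hM : ∀ᶠ N : ℕ in atTop, ∑ n ∈ Ico N (2 * N), M n ≤ D * q * (N : ℝ) ^ 2) :
    F0 ≤ d * D * q / 2 := by
  by_contra hcon
  push Not at hcon
  obtain ⟨e, he, he'⟩ : ∃ e, 0 < e ∧ d * D * q / 2 < F0 - e :=
    ⟨(F0 - d * D * q / 2) / 2, by linarith, by linarith⟩
  have h1 : ∀ᶠ n : ℕ in atTop, F0 - e < L n / (2 * n) :=
    hL.eventually (lt_mem_nhds (by linarith))
  obtain ⟨N1, hN1⟩ := eventually_atTop.1 h1
  obtain ⟨N2, hN2⟩ := eventually_atTop.1 hM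
  set N := max (max N1 N2) 1 with hN
  have hNN1 : N1 ≤ N := (le_max_left _ _).trans (le_max_left _ _)
  have hNN2 : N2 ≤ N := (le_max_right _ _).trans (le_max_left _ _)
  have hN1' : 1 ≤ N := le_max_right _ _
  have hNR : (1 : ℝ) ≤ N := by exact_mod_cast hN1'
  have h2 := hN2 N hNN2
  have h3 : ∀ n ∈ Ico N (2 * N), (F0 - e) * (2 * n) ≤ d * M n := by
    intro n hn
    rw [mem_Ico] at hn
    have h4 := hN1 n (hNN1.trans hn.1)
    have hn0 : (0 : ℝ) < 2 * n := by
      have : 1 ≤ n := hN1'.trans hn.1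
      have : (1 : ℝ) ≤ n := by exact_mod_cast this
      linarith
    rw [lt_div_iff₀ hn0] at h4
    exact h4.le.trans (hLM n)
  have h5 := sum_le_sum h3
  rw [← mul_sum, ← mul_sum (s := Ico N (2 * N)) (f := fun n => M n)] at h5
  have h6 : 2 * (N : ℝ) ^ 2 ≤ ∑ n ∈ Ico N (2 * N), (2 * (n : ℝ)) := by
    have h7 : ∀ n ∈ Ico N (2 * N), (2 * (N : ℝ)) ≤ 2 * (n : ℝ) := by
      intro n hn
      rw [mem_Ico] at hn
      have : (N : ℝ) ≤ n := by exact_mod_cast hn.1
      linarith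
    have h8 := card_nsmul_le_sum _ _ _ h7
    rw [Nat.card_Ico, nsmul_eq_mul] at h8
    have h9 : ((2 * N - N : ℕ) : ℝ) = N := by
      rw [show 2 * N - N = N by omega]
    rw [h9] at h8
    nlinarith
  have h10 : d * ∑ n ∈ Ico N (2 * N), M n ≤ d * (D * q * (N : ℝ) ^ 2) :=
    mul_le_mul_of_nonneg_left h2 hd
  have h11 : d * (D * q * (N : ℝ) ^ 2) = (d * D * q / 2) * (2 * (N : ℝ) ^ 2) := by ring
  have hF : 0 ≤ F0 - e := by
    have : 0 ≤ d * (D * q) := mul_nonneg hd hDq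
    nlinarith
  have h12 : (F0 - e) * (2 * (N : ℝ) ^ 2) ≤ (d * D * q / 2) * (2 * (N : ℝ) ^ 2) := by
    calc (F0 - e) * (2 * (N : ℝ) ^ 2) ≤ (F0 - e) * ∑ n ∈ Ico N (2 * N), (2 * (n : ℝ)) :=
          mul_le_mul_of_nonneg_left h6 hF
      _ ≤ _ := h5.trans (h10.trans h11.le)
  have h13 : 0 < 2 * (N : ℝ) ^ 2 := by positivity
  have := le_of_mul_le_mul_right h12 h13
  linarith

/-- **Order larger than two**, for kernels and charges satisfying the hypotheses. -/
theorem core (C : Chain) (hnl : ∀ x, C.p x x = 0) (hK : KerOK (Kp C) (Km C))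
    (ν : Measure ℝ) [IsProbabilityMeasure ν] (hν : ExpMom ν) (s : NNReal) (hs : 0 < s)
    {μ : Measure ℝ} [IsProbabilityMeasure μ] (hμ : μ = (gaussianReal 0 (s ^ 2)).conv ν)
    (hμe : ExpMom μ) {β : ℝ} (hβ : 0 < β) {F : ℝ → ℝ}
    (hF1 : ∀ h, Tendsto (fun n : ℕ => LZ C μ β h n / (2 * n)) atTop (𝓝 (F h)))
    (hF2 : ∀ h (n : ℕ), LZ C μ β h n ≤ 2 * n * F h)
    (hF4 : ∀ h h', h ≤ h' → F h' ≤ F h) {hc : ℝ} (hcF : F hc = 0) (hcl : hc < lmg μ β) :
    ∃ ε K : ℝ, 0 < ε ∧ ∀ δ, 0 ≤ δ → δ ≤ 1 → F (hc - δ) ≤ K * δ ^ (2 + ε) := by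
  obtain ⟨γ, A₁, hγ, hA₁, hop1⟩ := hop hK μ hμe hβ hc (fun n => by
    have := hF2 hc n
    rw [hcF, mul_zero] at this
    exact this)
  obtain ⟨r, hr, L, hov⟩ := overlap C hnl hK μ hμe hβ hcl
  obtain ⟨A₂, hA₂, hlow⟩ := LZ_ge hK μ hμe β (|hc| + 1)
  set b : ℝ := β * s with hb
  have hb0 : 0 < b := mul_pos hβ (by exact_mod_cast hs)
  set A := max A₁ A₂ with hA
  have hA0 : 0 ≤ A := hA₁.trans (le_max_left _ _)
  have hlog : ∀ n : ℕ, 1 ≤ n → 0 ≤ 1 + Real.log n := fun n hn => by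
    have : (1 : ℝ) ≤ n := by exact_mod_cast hn
    have := Real.log_nonneg this
    linarith
  obtain ⟨D, q, hD, hq, hq2, hnum⟩ := num_main (fun k n => MZ C μ β (hc - dy k) n)
    (fun k n => RZ C μ β (hc - dy k) n) r γ b A L hr hγ hb0 hA0
    (fun k n => (MZ_bounds C μ β _ n).1) (fun k n => (MZ_bounds C μ β _ n).2.1)
    (fun k n hn => hov (dy k) (dy_pos k).le (dy_le_one k) n hn)
    (fun k n hn t ht => by
      have h1 := tilt_seq C hnl ν hν s hμ hμe hβ hγ hc k t ht n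
      have h2 := (hop1 n hn).2
      have h3 := hlow (hc - dy (k + 1)) (by
        have h4 := dy_pos (k + 1)
        have h5 := dy_le_one (k + 1)
        refine (abs_sub _ _).trans ?_
        rw [abs_of_pos h4]
        linarith) n hn
      have h4 : A₁ * (1 + Real.log n) ≤ A * (1 + Real.log n) :=
        mul_le_mul_of_nonneg_right (le_max_left _ _) (hlog n hn)
      have h5 : A₂ * (1 + Real.log n) ≤ A * (1 + Real.log n) :=
        mul_le_mul_of_nonneg_right (le_max_right _ _) (hlog n hn)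
      have h6 : -(A * (1 + Real.log n)) ≤ LZ C μ β (hc - dy (k + 1)) n := by
        refine le_trans ?_ h3
        linarith
      have h7 : γ * (-(A * (1 + Real.log n)) - dy (k + 1) * MZ C μ β (hc - dy (k + 1)) n +
          b ^ 2 * (∑ j ∈ range (k + 1), t j) * RZ C μ β (hc - dy (k + 1)) n) ≤
          γ * (LZ C μ β (hc - dy (k + 1)) n - dy (k + 1) * MZ C μ β (hc - dy (k + 1)) n +
          b ^ 2 * (∑ j ∈ range (k + 1), t j) * RZ C μ β (hc - dy (k + 1)) n) := by
        apply mul_le_mul_of_nonneg_left _ hγ.le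
        linarith
      linarith)
  have hdy : ∀ k : ℕ, F (hc - dy k) ≤ D / 2 * (q / 2) ^ k := by
    intro k
    have h1 := F_dy (L := fun n => LZ C μ β (hc - dy k) n)
      (M := fun n => MZ C μ β (hc - dy k) n) (D := D) (F (hc - dy k)) (d := dy k) (q := q ^ k)
      (dy_pos k).le (by positivity) (hF1 _) (fun n => by
        have h2 := LZ_conv C hnl hK μ hμe β hc (dy k) (dy_pos k).le n
        have h3 := hF2 hc n
        rw [hcF, mul_zero] at h3
        linarith) (hnum k)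
    refine h1.trans (le_of_eq ?_)
    unfold dy
    rw [div_pow, div_pow, one_pow]
    ring
  -- interpolation between the dyadic scales
  set ε := Real.logb 2 (1 / (2 * q)) with hε
  have hq1 : 1 < 1 / (2 * q) := by
    rw [lt_div_iff₀ (by positivity)]
    linarith
  have hε0 : 0 < ε := Real.logb_pos (by norm_num) hq1
  have hpow : ∀ k : ℕ, (q / 2) ^ k = (dy k) ^ (2 + ε) := by
    intro k
    have h1 : q / 2 = (1 / 2 : ℝ) ^ (2 + ε) := by
      rw [one_div, Real.inv_rpow (by norm_num), Real.rpow_add (by norm_num), hε,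
        Real.rpow_logb (by norm_num) (by norm_num) (by positivity)]
      have : (2 : ℝ) ^ (2 : ℝ) = 4 := by
        rw [show (2 : ℝ) = ((2 : ℕ) : ℝ) by norm_num, Real.rpow_natCast]; norm_num
      rw [this]
      field_simp
      ring
    unfold dy
    rw [h1, ← Real.rpow_natCast, ← Real.rpow_natCast, ← Real.rpow_mul (by norm_num),
      ← Real.rpow_mul (by norm_num), mul_comm]
  refine ⟨ε, D / 2 * 2 ^ (2 + ε), hε0, fun δ hδ0 hδ1 => ?_⟩
  rcases hδ0.eq_or_lt with h0 | h0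
  · rw [← h0, sub_zero, hcF]
    positivity
  · obtain ⟨k, hk1, hk2⟩ : ∃ k : ℕ, dy (k + 1) < δ ∧ δ ≤ dy k := by
      obtain ⟨m, hm⟩ := exists_pow_lt_of_lt_one h0 (by norm_num : (1 / 2 : ℝ) < 1)
      have hex : ∃ m, dy m < δ := ⟨m, hm⟩
      classical
      have h1 := Nat.find_spec hex
      have h2 : Nat.find hex ≠ 0 := by
        intro h3
        rw [h3, dy_zero] at h1
        linarith
      obtain ⟨k, hk⟩ := Nat.exists_eq_succ_of_ne_zero h2
      refine ⟨k, ?_, ?_⟩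
      · rw [hk] at h1
        exact h1
      · have h3 := Nat.find_min hex (m := k) (by omega)
        push Not at h3
        exact h3
    have h1 : F (hc - δ) ≤ F (hc - dy k) := hF4 _ _ (by linarith)
    refine h1.trans ((hdy k).trans ?_)
    rw [hpow k, mul_assoc]
    apply mul_le_mul_of_nonneg_left _ (by positivity)
    have h2 : dy k ≤ 2 * δ := by
      rw [dy_succ] at hk1
      linarith
    rw [← Real.mul_rpow (by norm_num) h0.le]
    exact Real.rpow_le_rpow (dy_pos k).le h2 (by linarith)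

end

end Pool.Agent.OT
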