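import Mathlib
import Pool.Agent.Lib.MP_daa227_pr_OT.Defs
import Pool.Agent.Lib.MP_daa227_pr_OT.Num

/-!
# PROJECT OT2, module V10: the induction over the scales, bounded tilts
-/

namespace Pool.Agent.OT

open MeasureTheory ProbabilityTheory Finset Filter Topology
open MP_daa227_pr (Chain Zk Zf K0 shift seqLaw ExpMom)

noncomputable section

namespace V10

open Z1

/-- the pairs `(J_k, A_k)` -/
def JA (D : ℝ) : ℕ → ℝ × ℝ
  | 0 => (0, 4)
  | k + 1 => ((JA D k).1 + dy (k + 1) / (JA D k).2,
      min 4 (D * (dy (k + 1) / ((JA D k).1 + dy (k + 1) / (JA D k).2))))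

/-- the constants -/
def Ac (D : ℝ) (k : ℕ) : ℝ := (JA D k).2

/-- the partial sums -/
def Jc (D : ℝ) (k : ℕ) : ℝ := (JA D k).1

lemma Jc_succ (D : ℝ) (k : ℕ) : Jc D (k + 1) = Jc D k + dy (k + 1) / Ac D k := rfl

lemma Ac_succ (D : ℝ) (k : ℕ) : Ac D (k + 1) = min 4 (D * (dy (k + 1) / Jc D (k + 1))) := rfl

lemma both_pos {D : ℝ} (hD : 0 < D) (k : ℕ) : 0 ≤ Jc D k ∧ 0 < Ac D k := by
  induction k with
  | zero => exact ⟨le_rfl, by norm_num [Ac, JA]⟩
  | succ k ih =>
    obtain ⟨h1, h2⟩ := ih
    have h3 := dyp (k + 1)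
    have h4 : 0 < Jc D (k + 1) := by
      rw [Jc_succ]
      positivity
    refine ⟨h4.le, ?_⟩
    rw [Ac_succ]
    exact lt_min (by norm_num) (by positivity)

lemma Ac_pos {D : ℝ} (hD : 0 < D) (k : ℕ) : 0 < Ac D k := (both_pos hD k).2

lemma Jc_pos {D : ℝ} (hD : 0 < D) (k : ℕ) : 0 < Jc D (k + 1) := by
  rw [Jc_succ]
  have h1 := (both_pos hD k).1
  have h2 := Ac_pos hD k
  have h3 := dyp (k + 1)
  positivity

lemma Jc_eq (D : ℝ) (k : ℕ) : Jc D k = ∑ j ∈ range k, dy (j + 1) / Ac D j := by
  induction k with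
  | zero => rfl
  | succ k ih => rw [Jc_succ, sum_range_succ, ih]

lemma Jc_ge {D : ℝ} (hD : 0 < D) (k : ℕ) : (1 + 1 / (2 * D)) ^ k / 8 ≤ Jc D (k + 1) := by
  induction k with
  | zero =>
    rw [Jc_succ]
    norm_num [Jc, Ac, JA, dy]
  | succ k ih =>
    rw [Jc_succ, Ac_succ]
    have h1 := Jc_pos hD k
    have h2 := dyp (k + 1)
    have h3 : min 4 (D * (dy (k + 1) / Jc D (k + 1))) ≤ D * (dy (k + 1) / Jc D (k + 1)) :=
      min_le_right _ _
    have h4 : 0 < min 4 (D * (dy (k + 1) / Jc D (k + 1))) := lt_min (by norm_num) (by positivity)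
    have h5 : dy (k + 1 + 1) / (D * (dy (k + 1) / Jc D (k + 1))) ≤
        dy (k + 1 + 1) / min 4 (D * (dy (k + 1) / Jc D (k + 1))) :=
      div_le_div_of_nonneg_left (dyp _).le h4 h3
    have h6 : dy (k + 1 + 1) / (D * (dy (k + 1) / Jc D (k + 1))) = Jc D (k + 1) / (2 * D) := by
      rw [dys (k + 1)]
      field_simp
    rw [h6] at h5
    have h7 : (1 + 1 / (2 * D)) ^ (k + 1) / 8 = (1 + 1 / (2 * D)) ^ k / 8 * (1 + 1 / (2 * D)) := by
      rw [pow_succ]; ring
    rw [h7]
    calc (1 + 1 / (2 * D)) ^ k / 8 * (1 + 1 / (2 * D)) ≤ Jc D (k + 1) * (1 + 1 / (2 * D)) :=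
          mul_le_mul_of_nonneg_right ih (by positivity)
      _ = Jc D (k + 1) + Jc D (k + 1) / (2 * D) := by ring
      _ ≤ _ := by linarith

/-- monotonicity of `D dy (k+1) / J_(k+1)` -/
lemma Bc_anti {D : ℝ} (hD : 0 < D) {i k : ℕ} (h : i ≤ k) :
    D * (dy (k + 1) / Jc D (k + 1)) ≤ D * (dy (i + 1) / Jc D (i + 1)) := by
  induction k, h using Nat.le_induction with
  | base => exact le_rfl
  | succ k _ ih =>
    refine le_trans ?_ ih
    apply mul_le_mul_of_nonneg_left _ hD.le
    have h1 : Jc D (k + 1) ≤ Jc D (k + 1 + 1) := by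
      rw [Jc_succ D (k + 1)]
      have := Ac_pos hD (k + 1)
      have := dyp (k + 1 + 1)
      have : 0 < dy (k + 1 + 1) / Ac D (k + 1) := by positivity
      linarith
    have h2 : dy (k + 1 + 1) ≤ dy (k + 1) := by
      rw [dys (k + 1)]
      have := dyp (k + 1)
      linarith
    exact div_le_div₀ (dyp _).le h2 (Jc_pos hD k) h1

/-- lower bound of the constants when the trivial bound is not attained -/
lemma Ac_ge {D : ℝ} (hD : 0 < D) {j k : ℕ} (h : j ≤ k) (h4 : D * (dy (k + 1) / Jc D (k + 1)) < 4) :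
    D * (dy (k + 1) / Jc D (k + 1)) ≤ Ac D j := by
  rcases j with _ | j
  · exact h4.le
  · rw [Ac_succ]
    exact le_min h4.le (Bc_anti hD (by omega))

end V10

open Z1 V10 in
theorem num_main2 (M : ℕ → ℕ → ℝ) (r γ B c₀ A : ℝ) (L : ℕ) (hr : 0 < r) (hγ : 0 < γ) (hB : 0 < B)
    (hc₀ : 0 < c₀) (hA : 0 ≤ A) (hM0 : ∀ k n : ℕ, 0 ≤ M k n) (hM1 : ∀ k n : ℕ, M k n ≤ 2 * n)
    (hT : ∀ k n : ℕ, 1 ≤ n → ∀ t : ℕ → ℝ, (∀ j, 0 ≤ t j) → (∀ j, t j ≤ c₀ * dy (j + 1)) →
      γ * (-(A * (1 + Real.log n)) - dy (k + 1) * M (k + 1) n +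
          r * (∑ j ∈ range (k + 1), t j) *
            (M (k + 1) n - (1 / 2) * M (k + 1) (n + L) - 4)) -
        B * ∑ j ∈ range (k + 1), t j ^ 2 * 2 ^ (j + 1) * M j n ≤ A * (1 + Real.log n)) :
    ∃ D q : ℝ, 0 < D ∧ 0 < q ∧ q < 1 / 2 ∧ ∀ k : ℕ, ∀ᶠ N : ℕ in atTop,
      ∑ n ∈ Ico N (2 * N), M k n ≤ D * q ^ k * (N : ℝ) ^ 2 := by
  set D := 32 * B / (γ * r ^ 2) + 4 / (r * c₀) with hD
  have hD1 : 32 * B / (γ * r ^ 2) ≤ D := by
    have : 0 < 4 / (r * c₀) := by positivity
    linarith
  have hD2 : 4 / (r * c₀) ≤ D := by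
    have : 0 < 32 * B / (γ * r ^ 2) := by positivity
    linarith
  have hD0 : 0 < D := by rw [hD]; positivity
  clear_value D
  set S : ℕ → ℕ → ℝ := fun k N => ∑ n ∈ Ico N (2 * N), M k n with hS
  -- the trivial bound
  have triv : ∀ k N, S k N ≤ 4 * (N : ℝ) ^ 2 := by
    intro k N
    have h1 : ∀ n ∈ Ico N (2 * N), M k n ≤ 4 * N := by
      intro n hn
      rw [mem_Ico] at hn
      have h2 := hM1 k n
      have h3 : (n : ℝ) ≤ 2 * N := by exact_mod_cast hn.2.le
      linarith
    have h2 := sum_le_card_nsmul _ _ _ h1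
    rw [Nat.card_Ico, nsmul_eq_mul, show 2 * N - N = N by omega] at h2
    refine h2.trans (le_of_eq ?_)
    ring
  -- the main claim
  have main : ∀ k, ∀ᶠ N : ℕ in atTop, S k N ≤ Ac D k * (N : ℝ) ^ 2 := by
    intro k
    induction k using Nat.strong_induction_on with
    | _ k ih =>
    rcases k with _ | k
    · exact Eventually.of_forall fun N => triv 0 N
    · set J := Jc D (k + 1) with hJ
      have hJ0 : 0 < J := Jc_pos hD0 k
      set d := dy (k + 1) with hd
      have hd0 : 0 < d := dyp _
      rcases le_or_gt 4 (D * (d / J)) with h4 | h4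
      · refine Eventually.of_forall fun N => ?_
        rw [Ac_succ, min_eq_left h4]
        exact triv (k + 1) N
      set lam := 4 * d / (r * J) with hlam
      have hlam0 : 0 < lam := by rw [hlam]; positivity
      set t : ℕ → ℝ := fun i => if i ≤ k then lam * (dy (i + 1) / Ac D i) else 0 with ht
      have ht0 : ∀ j, 0 ≤ t j := fun j => by
        simp only [ht]
        split_ifs
        · exact mul_nonneg hlam0.le (div_nonneg (dyp _).le (Ac_pos hD0 _).le)
        · exact le_rfl
      have htr : ∀ j ∈ range (k + 1), t j = lam * (dy (j + 1) / Ac D j) := by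
        intro j hj
        rw [mem_range] at hj
        simp only [ht]
        rw [if_pos (by omega)]
      have htc : ∀ j, t j ≤ c₀ * dy (j + 1) := by
        intro j
        have hdj := dyp (j + 1)
        simp only [ht]
        split_ifs with hj
        · have h1 := Ac_ge hD0 hj h4
          have hA' := Ac_pos hD0 j
          have h2 : lam ≤ c₀ * Ac D j := by
            have h3 : lam = (4 / (r * c₀)) * (c₀ * (d / J)) := by
              rw [hlam]; field_simp
            rw [h3]
            calc (4 / (r * c₀)) * (c₀ * (d / J)) ≤ D * (c₀ * (d / J)) :=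
                  mul_le_mul_of_nonneg_right hD2 (by positivity)
              _ = c₀ * (D * (d / J)) := by ring
              _ ≤ c₀ * Ac D j := mul_le_mul_of_nonneg_left h1 hc₀.le
          calc lam * (dy (j + 1) / Ac D j) ≤ (c₀ * Ac D j) * (dy (j + 1) / Ac D j) :=
                mul_le_mul_of_nonneg_right h2 (by positivity)
            _ = c₀ * dy (j + 1) := by field_simp
        · positivity
      have hTs : ∑ j ∈ range (k + 1), t j = lam * J := by
        rw [sum_congr rfl htr, ← mul_sum, hJ, Jc_eq]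
      have hbT : r * (lam * J) = 4 * d := by
        rw [hlam]; field_simp
      -- previous scales
      have hprev : ∀ᶠ N : ℕ in atTop, ∀ i ∈ range (k + 1), S i N ≤ Ac D i * (N : ℝ) ^ 2 :=
        (eventually_all_finset _).2 fun i hi => ih i (by rw [mem_range] at hi; exact hi)
      -- error terms
      set C₁ : ℝ := (L : ℝ) * (L + 2) + 4 with hC₁
      have hC₁0 : 0 < C₁ := by rw [hC₁]; positivity
      set a : ℝ := 4 * γ * d * C₁ + (1 + γ) * A with ha
      have ha0 : 0 ≤ a := by
        rw [ha]; positivity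
      have hAk : Ac D (k + 1) = D * (d / J) := by
        rw [Ac_succ]
        exact min_eq_right h4.le
      have hpos : 0 < γ * d * (D * (d / J)) / 2 := by positivity
      filter_upwards [hprev, ev_small a hpos, eventually_ge_atTop 1] with N hN hN2 hN1
      have hNR : (1 : ℝ) ≤ N := by exact_mod_cast hN1
      have hlogN : 0 ≤ Real.log (2 * N) := Real.log_nonneg (by linarith)
      -- cost
      have hcost : ∑ j ∈ range (k + 1), t j ^ 2 * 2 ^ (j + 1) * S j N ≤
          lam * (lam * J) * (N : ℝ) ^ 2 := by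
        have h1 : ∀ j ∈ range (k + 1), t j ^ 2 * 2 ^ (j + 1) * S j N ≤
            t j * (lam * (N : ℝ) ^ 2) := by
          intro j hj
          have h2 := hN j hj
          have h3 := htr j hj
          have hA' := Ac_pos hD0 j
          have hdy := dy_mul (j + 1)
          calc t j ^ 2 * 2 ^ (j + 1) * S j N ≤ t j ^ 2 * 2 ^ (j + 1) * (Ac D j * (N : ℝ) ^ 2) :=
                mul_le_mul_of_nonneg_left h2 (by positivity)
            _ = t j * (t j * 2 ^ (j + 1) * (Ac D j * (N : ℝ) ^ 2)) := by ring
            _ = t j * (lam * (dy (j + 1) / Ac D j) * 2 ^ (j + 1) * (Ac D j * (N : ℝ) ^ 2)) := by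
                rw [← h3]
            _ = t j * ((dy (j + 1) * 2 ^ (j + 1)) * lam * (N : ℝ) ^ 2) := by
                field_simp
            _ = t j * (lam * (N : ℝ) ^ 2) := by rw [hdy]; ring
        calc _ ≤ ∑ j ∈ range (k + 1), t j * (lam * (N : ℝ) ^ 2) := sum_le_sum h1
          _ = (∑ j ∈ range (k + 1), t j) * (lam * (N : ℝ) ^ 2) := by rw [sum_mul]
          _ = _ := by rw [hTs]; ring
      -- gain
      have hover : 1 / 2 * S (k + 1) N - C₁ * N ≤ ∑ n ∈ Ico N (2 * N),
          (M (k + 1) n - (1 / 2) * M (k + 1) (n + L) - 4) := by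
        rw [sum_sub_distrib, sum_sub_distrib, ← mul_sum]
        have h2 : ∑ n ∈ Ico N (2 * N), M (k + 1) (n + L) ≤
            S (k + 1) N + (L : ℝ) * (2 * (2 * N + L)) := by
          have h3 : ∑ n ∈ Ico N (2 * N), M (k + 1) (n + L) =
              ∑ n ∈ Ico (N + L) (2 * N + L), M (k + 1) n := by
            rw [← sum_Ico_add' (fun n => M (k + 1) n) N (2 * N) L]
          rw [h3]
          calc ∑ n ∈ Ico (N + L) (2 * N + L), M (k + 1) n
              ≤ ∑ n ∈ Ico N (2 * N + L), M (k + 1) n := by
                apply sum_le_sum_of_subset_of_nonneg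
                · intro n hn
                  rw [mem_Ico] at hn ⊢
                  omega
                · intro n _ _
                  exact hM0 _ _
            _ = S (k + 1) N + ∑ n ∈ Ico (2 * N) (2 * N + L), M (k + 1) n :=
                (sum_Ico_consecutive _ (by omega) (by omega)).symm
            _ ≤ _ := by
                have h4 : ∀ n ∈ Ico (2 * N) (2 * N + L), M (k + 1) n ≤ 2 * (2 * N + L) := by
                  intro n hn
                  rw [mem_Ico] at hn
                  have h5 := hM1 (k + 1) n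
                  have h6 : (n : ℝ) ≤ 2 * N + L := by exact_mod_cast hn.2.le
                  linarith
                have h5 := sum_le_card_nsmul _ _ _ h4
                rw [Nat.card_Ico, nsmul_eq_mul, show 2 * N + L - 2 * N = L by omega] at h5
                linarith
        have h6 : ∑ n ∈ Ico N (2 * N), (4 : ℝ) = 4 * N := by
          rw [sum_const, Nat.card_Ico, nsmul_eq_mul, show 2 * N - N = N by omega]; ring
        rw [h6]
        have h7 : (L : ℝ) * (2 * (2 * N + L)) ≤ 2 * ((L : ℝ) * (L + 2)) * N := by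
          have hL0 : (0 : ℝ) ≤ L := Nat.cast_nonneg L
          have h8 : (L : ℝ) * L ≤ (L : ℝ) * L * N := by nlinarith [mul_nonneg hL0 hL0]
          nlinarith
        have h8 : S (k + 1) N = ∑ n ∈ Ico N (2 * N), M (k + 1) n := rfl
        rw [hC₁]
        rw [h8] at h2 ⊢
        linarith
      -- summation
      have hsum : γ * (-(A * (N * (1 + Real.log (2 * N)))) - d * S (k + 1) N +
          4 * d * (1 / 2 * S (k + 1) N - C₁ * N)) -
          B * ∑ j ∈ range (k + 1), t j ^ 2 * 2 ^ (j + 1) * S j N ≤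
          A * (N * (1 + Real.log (2 * N))) := by
        have h1 : ∀ n ∈ Ico N (2 * N), γ * (-(A * (1 + Real.log (2 * N))) - d * M (k + 1) n +
            4 * d * (M (k + 1) n - (1 / 2) * M (k + 1) (n + L) - 4)) -
            B * ∑ j ∈ range (k + 1), t j ^ 2 * 2 ^ (j + 1) * M j n ≤
              A * (1 + Real.log (2 * N)) := by
          intro n hn
          rw [mem_Ico] at hn
          have hn1 : 1 ≤ n := by omega
          have hnR : (1 : ℝ) ≤ n := by exact_mod_cast hn1
          have h2 := hT k n hn1 t ht0 htc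
          rw [hTs, hbT] at h2
          have h3 : Real.log n ≤ Real.log (2 * N) := by
            apply Real.log_le_log (by linarith)
            exact_mod_cast hn.2.le
          have h4 : A * (1 + Real.log n) ≤ A * (1 + Real.log (2 * N)) :=
            mul_le_mul_of_nonneg_left (by linarith) hA
          have h5 : γ * (-(A * (1 + Real.log (2 * N))) - d * M (k + 1) n +
              4 * d * (M (k + 1) n - (1 / 2) * M (k + 1) (n + L) - 4)) ≤
              γ * (-(A * (1 + Real.log n)) - d * M (k + 1) n +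
              4 * d * (M (k + 1) n - (1 / 2) * M (k + 1) (n + L) - 4)) :=
            mul_le_mul_of_nonneg_left (by linarith) hγ.le
          linarith
        have h2 := sum_le_sum h1
        have h3 : ∀ c : ℝ, ∑ n ∈ Ico N (2 * N), c = N * c := by
          intro c
          rw [sum_const, Nat.card_Ico, nsmul_eq_mul, show 2 * N - N = N by omega]
        have h4 : ∑ n ∈ Ico N (2 * N), ∑ j ∈ range (k + 1), t j ^ 2 * 2 ^ (j + 1) * M j n =
            ∑ j ∈ range (k + 1), t j ^ 2 * 2 ^ (j + 1) * S j N := by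
          rw [sum_comm]
          apply sum_congr rfl
          intro j _
          rw [← mul_sum]
        have h5 : ∑ n ∈ Ico N (2 * N), (γ * (-(A * (1 + Real.log (2 * N))) - d * M (k + 1) n +
            4 * d * (M (k + 1) n - (1 / 2) * M (k + 1) (n + L) - 4)) -
            B * ∑ j ∈ range (k + 1), t j ^ 2 * 2 ^ (j + 1) * M j n) =
            γ * (-(N * (A * (1 + Real.log (2 * N)))) - d * S (k + 1) N + 4 * d *
              ∑ n ∈ Ico N (2 * N), (M (k + 1) n - (1 / 2) * M (k + 1) (n + L) - 4)) -
            B * ∑ j ∈ range (k + 1), t j ^ 2 * 2 ^ (j + 1) * S j N := by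
          rw [sum_sub_distrib, ← mul_sum, sum_add_distrib, sum_sub_distrib, h3, ← mul_sum,
            ← mul_sum (s := Ico N (2 * N))
              (f := fun n => (M (k + 1) n - (1 / 2) * M (k + 1) (n + L) - 4)), ← mul_sum, h4]
          ring
        rw [h5, h3] at h2
        have h6 := mul_le_mul_of_nonneg_left hover (show 0 ≤ 4 * d by positivity)
        have h7 : γ * (-(A * (N * (1 + Real.log (2 * N)))) - d * S (k + 1) N +
            4 * d * (1 / 2 * S (k + 1) N - C₁ * N)) ≤
            γ * (-(N * (A * (1 + Real.log (2 * N)))) - d * S (k + 1) N + 4 * d *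
              ∑ n ∈ Ico N (2 * N), (M (k + 1) n - (1 / 2) * M (k + 1) (n + L) - 4)) := by
          apply mul_le_mul_of_nonneg_left _ hγ.le
          have h8 : (N : ℝ) * (A * (1 + Real.log (2 * N))) = A * (N * (1 + Real.log (2 * N))) := by
            ring
          rw [h8]
          linarith
        have h9 : (N : ℝ) * (A * (1 + Real.log (2 * N))) = A * (N * (1 + Real.log (2 * N))) := by
          ring
        rw [h9] at h2
        rw [h9] at h7
        linarith
      -- conclusion
      have hcostB := mul_le_mul_of_nonneg_left hcost hB.le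
      have hlin : γ * d * S (k + 1) N ≤ B * (lam * (lam * J) * (N : ℝ) ^ 2) +
          4 * γ * d * C₁ * N + (1 + γ) * A * (N * (1 + Real.log (2 * N))) := by
        nlinarith
      have hN3 : 4 * γ * d * C₁ * N ≤ 4 * γ * d * C₁ * (N * (1 + Real.log (2 * N))) := by
        apply mul_le_mul_of_nonneg_left _ (by positivity)
        nlinarith
      have hN4 : 4 * γ * d * C₁ * (N * (1 + Real.log (2 * N))) +
          (1 + γ) * A * (N * (1 + Real.log (2 * N))) = a * (N * (1 + Real.log (2 * N))) := by
        rw [ha]; ring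
      have hval : B * (lam * (lam * J)) ≤ γ * d * (D * (d / J)) / 2 := by
        have h1 : B * (lam * (lam * J)) = γ * d * ((32 * B / (γ * r ^ 2)) * (d / J)) / 2 := by
          rw [hlam]
          field_simp
          ring
        rw [h1]
        have h2 : (32 * B / (γ * r ^ 2)) * (d / J) ≤ D * (d / J) :=
          mul_le_mul_of_nonneg_right hD1 (by positivity)
        have h3 := mul_le_mul_of_nonneg_left h2 (show 0 ≤ γ * d by positivity)
        linarith
      rw [hAk]
      have hval2 := mul_le_mul_of_nonneg_right hval (sq_nonneg (N : ℝ))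
      have hfin : γ * d * S (k + 1) N ≤ γ * d * (D * (d / J) * (N : ℝ) ^ 2) := by
        nlinarith
      exact le_of_mul_le_mul_left hfin (by positivity)
  -- the final form
  set ρ := 1 + 1 / (2 * D) with hρ
  have hρ1 : 1 < ρ := by
    rw [hρ]
    have : 0 < 1 / (2 * D) := by positivity
    linarith
  refine ⟨4 + 8 * D * ρ, 1 / (2 * ρ), by positivity, by positivity, ?_, fun k => ?_⟩
  · rw [div_lt_div_iff₀ (by positivity) (by norm_num)]
    linarith
  · filter_upwards [main k] with N hN
    refine hN.trans ?_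
    apply mul_le_mul_of_nonneg_right _ (by positivity)
    rcases k with _ | k
    · have h0 : Ac D 0 = 4 := rfl
      rw [h0, pow_zero, mul_one]
      have : 0 < 8 * D * ρ := by positivity
      linarith
    · have hj := Jc_ge hD0 k
      rw [← hρ] at hj
      have hdk := dyp (k + 1)
      have h1 : Ac D (k + 1) ≤ 8 * D * ρ * (1 / (2 * ρ)) ^ (k + 1) := by
        rw [Ac_succ]
        refine (min_le_right _ _).trans ?_
        have h2 : (1 / (2 * ρ)) ^ (k + 1) = dy (k + 1) / (ρ ^ k * ρ) := by
          unfold dy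
          rw [one_div, one_div, mul_inv, mul_pow, ← pow_succ, inv_pow ρ, div_eq_mul_inv]
        rw [h2]
        have h3 : dy (k + 1) / Jc D (k + 1) ≤ dy (k + 1) / (ρ ^ k / 8) :=
          div_le_div_of_nonneg_left hdk.le (by positivity) hj
        calc D * (dy (k + 1) / Jc D (k + 1)) ≤ D * (dy (k + 1) / (ρ ^ k / 8)) :=
              mul_le_mul_of_nonneg_left h3 hD0.le
          _ = _ := by field_simp
      refine h1.trans ?_
      apply mul_le_mul_of_nonneg_right _ (by positivity)
      linarith

end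

end Pool.Agent.OT
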