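import Mathlib
import Pool.Agent.Lib.MP_daa227_pr_OT.Defs2
import Pool.Agent.Lib.MP_daa227_pr_OT.Adapt

/-!
# Module V3: adapted displacements, order given by labels
-/

set_option autoImplicit false

namespace Pool.Agent.OT

open MeasureTheory ProbabilityTheory Finset Filter Topology
open MP_daa227_pr (Chain Zk Zf K0 shift seqLaw ExpMom)

noncomputable section

namespace V3

theorem integral_perm {α : Type*} [MeasurableSpace α] (ρ : Measure α) [IsProbabilityMeasure ρ]
    {m : ℕ} (σ : Equiv.Perm (Fin m)) (F : (Fin m → α) → ℝ) :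
    ∫ z, F (fun i => z (σ.symm i)) ∂Measure.pi (fun _ : Fin m => ρ) =
      ∫ z, F z ∂Measure.pi (fun _ : Fin m => ρ) := by
  have h := measurePreserving_arrowCongr' (μ := fun _ : Fin m => ρ) (ν := fun _ : Fin m => ρ) σ
    (MeasurableEquiv.refl α) (fun _ => MeasurePreserving.id ρ)
  exact h.integral_comp' F

end V3

theorem adapt_lab (μ : Measure ℝ) [IsProbabilityMeasure μ] (hμ : ExpMom μ) (m : ℕ)
    (X : (Fin m → ℝ) → ℝ) (hX : Measurable X) {B : ℝ} (hB : ∀ ω, |X ω| ≤ B * (1 + ∑ i, |ω i|))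
    (g : Fin m → ℕ) (lam : (Fin m → ℝ) → Fin m → ℝ) (hlm : ∀ i, Measurable fun ω => lam ω i)
    (hl0 : ∀ ω i, 0 ≤ lam ω i) (hl1 : ∀ ω i, lam ω i ≤ 1)
    (hdep : ∀ (i : Fin m) (ω ω' : Fin m → ℝ), (∀ l, g l < g i → ω l = ω' l) →
      lam ω i = lam ω' i) :
    ∫ z, X (fun i => mv (lam (fun l => (z l).1) i) (z i).1 (z i).2.1 (z i).2.2)
        ∂Measure.pi (fun _ : Fin m => site μ) -
      ∑ i, ∫ ω, lam ω i ^ 2 ∂Measure.pi (fun _ : Fin m => μ) ≤
    Real.log (∫ ω, Real.exp (X ω) ∂Measure.pi (fun _ : Fin m => μ)) := by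
  set σ : Equiv.Perm (Fin m) := Tuple.sort g with hσ
  have hmono : Monotone (g ∘ σ) := Tuple.monotone_sort g
  have hperm : Measurable fun (r : Fin m → ℝ) (i : Fin m) => r (σ.symm i) :=
    measurable_pi_lambda _ fun i => measurable_pi_apply _
  have h := adapt_fin μ hμ m (fun r => X (fun i => r (σ.symm i))) (hX.comp hperm) (B := B)
    (fun r => by
      refine (hB _).trans (le_of_eq ?_)
      rw [Equiv.sum_comp σ.symm (fun i => |r i|)])
    (fun r i => lam (fun l => r (σ.symm l)) (σ i)) (fun i => (hlm (σ i)).comp hperm)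
    (fun r i => hl0 _ _) (fun r i => hl1 _ _)
    (fun i r r' hr => by
      refine hdep _ _ _ fun l hl => hr _ ?_
      by_contra hle
      push Not at hle
      have h2 := hmono hle
      simp only [Function.comp_apply, Equiv.apply_symm_apply] at h2
      omega)
  have e1 : ∫ r, Real.exp (X (fun i => r (σ.symm i))) ∂Measure.pi (fun _ : Fin m => μ) =
      ∫ ω, Real.exp (X ω) ∂Measure.pi (fun _ : Fin m => μ) :=
    V3.integral_perm μ σ fun ω => Real.exp (X ω)
  have e2 : ∑ i, ∫ r, lam (fun l => r (σ.symm l)) (σ i) ^ 2 ∂Measure.pi (fun _ : Fin m => μ) =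
      ∑ i, ∫ ω, lam ω i ^ 2 ∂Measure.pi (fun _ : Fin m => μ) := by
    rw [← Equiv.sum_comp σ (fun i => ∫ ω, lam ω i ^ 2 ∂Measure.pi (fun _ : Fin m => μ))]
    refine Finset.sum_congr rfl fun i _ => ?_
    exact V3.integral_perm μ σ fun ω => lam ω (σ i) ^ 2
  have e3 : ∫ z, X (fun i => mv (lam (fun l => (z (σ.symm l)).1) (σ (σ.symm i)))
        (z (σ.symm i)).1 (z (σ.symm i)).2.1 (z (σ.symm i)).2.2)
        ∂Measure.pi (fun _ : Fin m => site μ) =
      ∫ z, X (fun i => mv (lam (fun l => (z l).1) i) (z i).1 (z i).2.1 (z i).2.2)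
        ∂Measure.pi (fun _ : Fin m => site μ) := by
    simp only [Equiv.apply_symm_apply]
    have : IsProbabilityMeasure (site μ) := by
      unfold site
      infer_instance
    exact V3.integral_perm (site μ) σ fun z =>
      X (fun i => mv (lam (fun l => (z l).1) i) (z i).1 (z i).2.1 (z i).2.2)
  rw [← e1, ← e2, ← e3]
  exact h

end

end Pool.Agent.OT
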