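import Mathlib
import Pool.Agent.Lib.MP_daa227_pr_OT.Defs2
import Pool.Agent.Lib.MP_daa227_pr_OT.EFc
import Pool.Agent.Lib.MP_daa227_pr_OT.Sort
import Pool.Agent.Lib.MP_daa227_pr_OT.Cmp

/-!
# PROJECT OT2, module V7: the tilting inequality for adapted displacements
-/

namespace Pool.Agent.OT

open MeasureTheory ProbabilityTheory Finset Filter Topology
open MP_daa227_pr (Chain Zk Zf K0 shift seqLaw ExpMom)

noncomputable section

namespace V7

theorem int_eval {m : ℕ} {α : Type*} [MeasurableSpace α] (ν : Measure α) [IsProbabilityMeasure ν]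
    (i : Fin m) {F : α → ℝ} (hF : AEStronglyMeasurable F ν) :
    ∫ v : Fin m → α, F (v i) ∂Measure.pi (fun _ : Fin m => ν) = ∫ s, F s ∂ν := by
  have h := measurePreserving_eval (fun _ : Fin m => ν) i
  have h1 : AEStronglyMeasurable F
      (Measure.map (Function.eval i) (Measure.pi (fun _ : Fin m => ν))) := by
    rw [h.map_eq]
    exact hF
  have h2 := integral_map (h.measurable.aemeasurable) h1
  rw [h.map_eq] at h2
  exact h2.symm

/-- independence of one coordinate and a function of the other ones -/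
theorem int_coord {m : ℕ} (μ : Measure ℝ) [IsProbabilityMeasure μ] (i : Fin m) (A : ℝ → ℝ)
    (B : (Fin m → ℝ) → ℝ) (hB : ∀ ω y, B (Function.update ω i y) = B ω) :
    ∫ ω, A (ω i) * B ω ∂Measure.pi (fun _ : Fin m => μ) =
      (∫ y, A y ∂μ) * ∫ ω, B ω ∂Measure.pi (fun _ : Fin m => μ) := by
  cases m with
  | zero => exact i.elim0
  | succ n =>
    have mp := measurePreserving_piFinSuccAbove (fun _ : Fin (n + 1) => μ) i
    have hs : ∀ (s : ℝ) (r : Fin n → ℝ), B (i.insertNth s r : Fin (n + 1) → ℝ) =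
        B (i.insertNth 0 r : Fin (n + 1) → ℝ) := by
      intro s r
      rw [← hB (i.insertNth 0 r) s]
      congr 1
      exact (Fin.update_insertNth (α := fun _ => ℝ) i (0 : ℝ) s r).symm
    have key : ∀ A' : ℝ → ℝ, ∫ ω, A' (ω i) * B ω ∂Measure.pi (fun _ : Fin (n + 1) => μ) =
        (∫ y, A' y ∂μ) * ∫ r, B (i.insertNth 0 r : Fin (n + 1) → ℝ)
          ∂Measure.pi (fun _ : Fin n => μ) := by
      intro A'
      rw [← integral_prod_mul, ← mp.integral_comp']
      refine integral_congr_ae (ae_of_all _ fun ω => ?_)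
      show A' (ω i) * B ω = A' (ω i) * B (i.insertNth 0 (fun j => ω (i.succAbove j)))
      rw [← hs (ω i)]
      congr 2
      exact (Fin.insertNth_self_removeNth i ω).symm
    have h1 := key (fun _ => 1)
    simp only [one_mul, integral_const, probReal_univ, smul_eq_mul, mul_one] at h1
    rw [key A, h1]

theorem int_lt {l : ℝ} (h0 : 0 ≤ l) (h1 : l ≤ 1) : ∫ u, (if u < l then (1 : ℝ) else 0) ∂U01 = l := by
  have h : (fun u : ℝ => if u < l then (1 : ℝ) else 0) = (Set.Iio l).indicator (fun _ => 1) := by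
    funext u
    simp [Set.indicator]
  rw [h, integral_indicator measurableSet_Iio, U01, setIntegral_const, smul_eq_mul, mul_one,
    Measure.real, Measure.restrict_apply measurableSet_Iio]
  have h2 : Set.Iio l ∩ Set.Icc 0 1 = Set.Ico 0 l := by
    ext u
    simp only [Set.mem_inter_iff, Set.mem_Iio, Set.mem_Icc, Set.mem_Ico]
    constructor
    · rintro ⟨a, b, c⟩
      exact ⟨b, a⟩
    · rintro ⟨a, b⟩
      exact ⟨b, a, by linarith⟩
  rw [h2, Real.volume_Ico, sub_zero, ENNReal.toReal_ofReal h0]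

section

variable {m : ℕ}

/-- the first marginals -/
theorem mp_fst (μ : Measure ℝ) [IsProbabilityMeasure μ] :
    MeasurePreserving (fun (z : Fin m → ℝ × ℝ × ℝ) (l : Fin m) => (z l).1)
      (Measure.pi (fun _ : Fin m => site μ)) (Measure.pi (fun _ : Fin m => μ)) :=
  measurePreserving_pi (fun _ : Fin m => site μ) (fun _ : Fin m => μ) (fun _ => measurePreserving_fst)

instance (μ : Measure ℝ) [IsProbabilityMeasure μ] : IsProbabilityMeasure (site μ) := by
  unfold site
  infer_instance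

theorem int_y (μ : Measure ℝ) [IsProbabilityMeasure μ] (hμ : ExpMom μ) (i : Fin m) :
    Integrable (fun z : Fin m → ℝ × ℝ × ℝ => |(z i).2.1|) (Measure.pi (fun _ : Fin m => site μ)) := by
  have h1 : Integrable (fun s : ℝ × ℝ × ℝ => |s.2.1|) (site μ) :=
    (hμ.integrable_abs.comp_fst U01).comp_snd μ
  exact ((measurePreserving_eval (fun _ : Fin m => site μ) i).integrable_comp
    h1.aestronglyMeasurable).2 h1

theorem int_x (μ : Measure ℝ) [IsProbabilityMeasure μ] (hμ : ExpMom μ) (i : Fin m) :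
    Integrable (fun z : Fin m → ℝ × ℝ × ℝ => |(z i).1|) (Measure.pi (fun _ : Fin m => site μ)) := by
  have h1 : Integrable (fun s : ℝ × ℝ × ℝ => |s.1|) (site μ) :=
    hμ.integrable_abs.comp_fst (μ.prod U01)
  exact ((measurePreserving_eval (fun _ : Fin m => site μ) i).integrable_comp
    h1.aestronglyMeasurable).2 h1

/-- the gain at the site `i` -/
def tm (β : ℝ) (P : (Fin m → ℝ) → ℝ) (lam : (Fin m → ℝ) → Fin m → ℝ) (i : Fin m)
    (z : Fin m → ℝ × ℝ × ℝ) : ℝ :=
  (if (z i).1 < 0 then Real.exp (-(β * |(z i).1|)) else 0) * P (fun l => (z l).1) *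
    (max (z i).2.1 0 * (if (z i).2.2 < lam (fun l => (z l).1) i then 1 else 0))

theorem tm_nonneg {β : ℝ} {P : (Fin m → ℝ) → ℝ} (hP : ∀ ω, 0 ≤ P ω)
    (lam : (Fin m → ℝ) → Fin m → ℝ) (i : Fin m) (z : Fin m → ℝ × ℝ × ℝ) : 0 ≤ tm β P lam i z := by
  unfold tm
  have h1 : 0 ≤ (if (z i).1 < 0 then Real.exp (-(β * |(z i).1|)) else 0) := by
    split_ifs
    · exact (Real.exp_pos _).le
    · exact le_rfl
  have h2 : (0 : ℝ) ≤ (if (z i).2.2 < lam (fun l => (z l).1) i then 1 else 0) := by
    split_ifs <;> norm_num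
  exact mul_nonneg (mul_nonneg h1 (hP _)) (mul_nonneg (le_max_right _ _) h2)

theorem tm_le {β : ℝ} (hβ : 0 < β) {P : (Fin m → ℝ) → ℝ} (hP : ∀ ω, 0 ≤ P ω) (hP1 : ∀ ω, P ω ≤ 1)
    (lam : (Fin m → ℝ) → Fin m → ℝ) (i : Fin m) (z : Fin m → ℝ × ℝ × ℝ) :
    tm β P lam i z ≤ |(z i).2.1| := by
  unfold tm
  have h1 : 0 ≤ (if (z i).1 < 0 then Real.exp (-(β * |(z i).1|)) else 0) := by
    split_ifs
    · exact (Real.exp_pos _).le
    · exact le_rfl
  have h1' : (if (z i).1 < 0 then Real.exp (-(β * |(z i).1|)) else 0) ≤ 1 := by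
    split_ifs
    · rw [Real.exp_le_one_iff]
      have := mul_nonneg hβ.le (abs_nonneg (z i).1)
      linarith
    · norm_num
  have h2 : (0 : ℝ) ≤ (if (z i).2.2 < lam (fun l => (z l).1) i then 1 else 0) := by
    split_ifs <;> norm_num
  have h2' : (if (z i).2.2 < lam (fun l => (z l).1) i then (1 : ℝ) else 0) ≤ 1 := by
    split_ifs <;> norm_num
  have h3 : max (z i).2.1 0 ≤ |(z i).2.1| := max_le (le_abs_self _) (abs_nonneg _)
  have h4 : max (z i).2.1 0 * (if (z i).2.2 < lam (fun l => (z l).1) i then (1 : ℝ) else 0) ≤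
      |(z i).2.1| * 1 := mul_le_mul h3 h2' h2 (abs_nonneg _)
  have h5 : (if (z i).1 < 0 then Real.exp (-(β * |(z i).1|)) else 0) * P (fun l => (z l).1) ≤
      1 * 1 := mul_le_mul h1' (hP1 _) (hP _) zero_le_one
  calc _ ≤ (1 * 1 : ℝ) * (|(z i).2.1| * 1) :=
        mul_le_mul h5 h4 (mul_nonneg (le_max_right _ _) h2) (by norm_num)
    _ = _ := by ring

theorem tm_meas {β : ℝ} {P : (Fin m → ℝ) → ℝ} (hP : Measurable P)
    {lam : (Fin m → ℝ) → Fin m → ℝ} (hlm : ∀ i, Measurable fun ω => lam ω i) (i : Fin m) :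
    Measurable (tm β P lam i) := by
  have hx : Measurable fun (z : Fin m → ℝ × ℝ × ℝ) (l : Fin m) => (z l).1 := by fun_prop
  have h1 : Measurable fun z : Fin m → ℝ × ℝ × ℝ =>
      (if (z i).1 < 0 then Real.exp (-(β * |(z i).1|)) else 0) := by
    refine Measurable.ite (measurableSet_lt (by fun_prop) measurable_const) ?_ measurable_const
    have : Continuous fun t : ℝ => Real.exp (-(β * |t|)) := by fun_prop
    exact this.measurable.comp (by fun_prop)
  have h2 : Measurable fun z : Fin m → ℝ × ℝ × ℝ =>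
      (if (z i).2.2 < lam (fun l => (z l).1) i then (1 : ℝ) else 0) := by
    refine Measurable.ite (measurableSet_lt (by fun_prop) ((hlm i).comp hx)) measurable_const
      measurable_const
  have h3 : Measurable fun z : Fin m → ℝ × ℝ × ℝ => max (z i).2.1 0 := by fun_prop
  exact (h1.mul (hP.comp hx)).mul (h3.mul h2)

theorem tm_int (μ : Measure ℝ) [IsProbabilityMeasure μ] (hμ : ExpMom μ) {β : ℝ} (hβ : 0 < β)
    {P : (Fin m → ℝ) → ℝ} (hPm : Measurable P) (hP : ∀ ω, 0 ≤ P ω) (hP1 : ∀ ω, P ω ≤ 1)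
    {lam : (Fin m → ℝ) → Fin m → ℝ} (hlm : ∀ i, Measurable fun ω => lam ω i) (i : Fin m) :
    Integrable (tm β P lam i) (Measure.pi (fun _ : Fin m => site μ)) := by
  refine (int_y μ hμ i).mono' (tm_meas hPm hlm i).aestronglyMeasurable (ae_of_all _ fun z => ?_)
  rw [Real.norm_eq_abs, abs_of_nonneg (tm_nonneg hP lam i z)]
  exact tm_le hβ hP hP1 lam i z

/-- the mean gain at the site `i` -/
theorem tm_mean (μ : Measure ℝ) [IsProbabilityMeasure μ] (hμ : ExpMom μ) {β : ℝ} (hβ : 0 < β)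
    {P : (Fin m → ℝ) → ℝ} (hPm : Measurable P) (hP : ∀ ω, 0 ≤ P ω) (hP1 : ∀ ω, P ω ≤ 1)
    {lam : (Fin m → ℝ) → Fin m → ℝ} (hlm : ∀ i, Measurable fun ω => lam ω i)
    (hl0 : ∀ ω i, 0 ≤ lam ω i) (hl1 : ∀ ω i, lam ω i ≤ 1) (i : Fin m)
    (hPi : ∀ ω y, P (Function.update ω i y) = P ω)
    (hli : ∀ ω y, lam (Function.update ω i y) i = lam ω i) :
    ∫ z, tm β P lam i z ∂Measure.pi (fun _ : Fin m => site μ) =
      (∫ y, max y 0 ∂μ) * (∫ y, (if y < 0 then Real.exp (-(β * |y|)) else 0) ∂μ) *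
        ∫ ω, lam ω i * P ω ∂Measure.pi (fun _ : Fin m => μ) := by
  have mp := measurePreserving_arrowProdEquivProdArrow ℝ (ℝ × ℝ) (Fin m) (fun _ => μ)
    (fun _ => μ.prod U01)
  have hint := tm_int μ hμ hβ hPm hP hP1 hlm i
  obtain ⟨G, hG⟩ : ∃ G : (Fin m → ℝ) × (Fin m → ℝ × ℝ) → ℝ, G = fun q =>
      ((if q.1 i < 0 then Real.exp (-(β * |q.1 i|)) else 0) * P q.1) *
        (max (q.2 i).1 0 * (if (q.2 i).2 < lam q.1 i then 1 else 0)) := ⟨_, rfl⟩
  have hGe : tm β P lam i = fun z => G (MeasurableEquiv.arrowProdEquivProdArrow ℝ (ℝ × ℝ) (Fin m) z) := by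
    rw [hG]
    rfl
  have hGi : Integrable G ((Measure.pi fun _ : Fin m => μ).prod
      (Measure.pi fun _ : Fin m => μ.prod U01)) := by
    rw [← mp.integrable_comp_emb (MeasurableEquiv.measurableEmbedding _)]
    have h : Integrable (G ∘ (MeasurableEquiv.arrowProdEquivProdArrow ℝ (ℝ × ℝ) (Fin m)))
        (Measure.pi (fun _ : Fin m => site μ)) := by
      have h' := hint
      rw [hGe] at h'
      exact h'
    exact h
  have e1 : ∫ z, tm β P lam i z ∂Measure.pi (fun _ : Fin m => site μ) =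
      ∫ q, G q ∂((Measure.pi fun _ : Fin m => μ).prod (Measure.pi fun _ : Fin m => μ.prod U01)) := by
    rw [hGe]
    exact mp.integral_comp' G
  rw [e1, integral_prod _ hGi]
  have e2 : ∀ ω : Fin m → ℝ, ∫ v, G (ω, v) ∂(Measure.pi fun _ : Fin m => μ.prod U01) =
      (∫ y, max y 0 ∂μ) * ((if ω i < 0 then Real.exp (-(β * |ω i|)) else 0) *
        (lam ω i * P ω)) := by
    intro ω
    have e3 : (fun v => G (ω, v)) = fun v : Fin m → ℝ × ℝ =>
        ((if ω i < 0 then Real.exp (-(β * |ω i|)) else 0) * P ω) *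
          (max (v i).1 0 * (if (v i).2 < lam ω i then 1 else 0)) := by
      rw [hG]
    have e5 : AEStronglyMeasurable (fun s : ℝ × ℝ =>
        max s.1 0 * (if s.2 < lam ω i then (1 : ℝ) else 0)) (μ.prod U01) := by
      refine Measurable.aestronglyMeasurable ?_
      refine Measurable.mul (by fun_prop) ?_
      exact Measurable.ite (measurableSet_lt (by fun_prop) measurable_const) measurable_const
        measurable_const
    have e4 : ∫ v : Fin m → ℝ × ℝ, (max (v i).1 0 * (if (v i).2 < lam ω i then (1 : ℝ) else 0))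
        ∂(Measure.pi fun _ : Fin m => μ.prod U01) =
        ∫ s : ℝ × ℝ, max s.1 0 * (if s.2 < lam ω i then (1 : ℝ) else 0) ∂(μ.prod U01) :=
      int_eval (μ.prod U01) i e5
    rw [e3, integral_const_mul, e4,
      integral_prod_mul (fun y : ℝ => max y 0) (fun u : ℝ => if u < lam ω i then (1 : ℝ) else 0),
      int_lt (hl0 ω i) (hl1 ω i)]
    ring
  simp only [e2]
  rw [integral_const_mul, int_coord μ i (fun y => if y < 0 then Real.exp (-(β * |y|)) else 0)
    (fun ω => lam ω i * P ω) (fun ω y => by rw [hPi, hli]), mul_assoc]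

end

end V7

theorem adapt_gain (μ : Measure ℝ) [IsProbabilityMeasure μ] (hμ : ExpMom μ) {β : ℝ} (hβ : 0 < β)
    {Ω : Type} [Fintype Ω] {m : ℕ} {w : Ω → ℝ} {x : Ω → Fin m → ℝ} (hE : EFam w x)
    (h01 : ∀ s i, x s i = 0 ∨ x s i = 1) (f : Fin m → ℝ) {γ : ℝ} (hγ : 0 < γ) (δ : ℝ)
    (g : Fin m → ℕ) (lam : (Fin m → ℝ) → Fin m → ℝ) (hlm : ∀ i, Measurable fun ω => lam ω i)
    (hl0 : ∀ ω i, 0 ≤ lam ω i) (hl1 : ∀ ω i, lam ω i ≤ 1)
    (hdep : ∀ (i : Fin m) (ω ω' : Fin m → ℝ), (∀ l, g l < g i → ω l = ω' l) →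
      lam ω i = lam ω' i) :
    γ * (LP μ w x β f δ - δ * MP μ w x β f δ +
        (β * (∫ y, max y 0 ∂μ) * (∫ y, (if y < 0 then Real.exp (-(β * |y|)) else 0) ∂μ)) *
          ∑ i, ∫ ω, lam ω i * pZ w x β f i ω δ ∂Measure.pi (fun _ : Fin m => μ)) -
      ∑ i, ∫ ω, lam ω i ^ 2 ∂Measure.pi (fun _ : Fin m => μ) ≤
    Real.log (∫ ω, ZE w x (fun i => β * ω i + f i) ^ γ ∂Measure.pi (fun _ : Fin m => μ)) := by
  classical
  have hZ : ∀ θ, 0 < ZE w x θ := fun θ => ZE_pos hE.w_nonneg hE.w_pos θ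
  have hZc : Continuous fun θ : Fin m → ℝ => Real.log (ZE w x θ) :=
    (E1.ZE_cont w x).log fun θ => (hZ θ).ne'
  -- the function X
  obtain ⟨X, hX⟩ : ∃ X : (Fin m → ℝ) → ℝ,
      X = fun ω => γ * Real.log (ZE w x (fun i => β * ω i + f i)) := ⟨_, rfl⟩
  have hXc : Continuous X := by
    rw [hX]
    exact (hZc.comp (by fun_prop)).const_mul γ
  have hgrow : ∀ (c : ℝ) (ω : Fin m → ℝ), |Real.log (ZE w x (fun i => β * ω i + f i + c))| ≤
      (|Real.log (ZE w x 0)| + ∑ i, (|f i| + |c|)) + β * ∑ i, |ω i| := by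
    intro c ω
    have h2 := log_lip hE (fun i => β * ω i + f i + c) 0
    have h3 : ∑ i, |(fun i => β * ω i + f i + c) i - (0 : Fin m → ℝ) i| ≤
        ∑ i, (|f i| + |c|) + β * ∑ i, |ω i| := by
      rw [Finset.mul_sum, ← Finset.sum_add_distrib]
      refine Finset.sum_le_sum fun i _ => ?_
      simp only [Pi.zero_apply, sub_zero]
      calc |β * ω i + f i + c| ≤ |β * ω i + f i| + |c| := abs_add_le _ _
        _ ≤ |β * ω i| + |f i| + |c| := by
            have := abs_add_le (β * ω i) (f i)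
            linarith
        _ = |f i| + |c| + β * |ω i| := by
            rw [abs_mul, abs_of_pos hβ]
            ring
    have h4 := abs_sub_abs_le_abs_sub (Real.log (ZE w x (fun i => β * ω i + f i + c)))
      (Real.log (ZE w x 0))
    linarith
  obtain ⟨B, hBdef⟩ : ∃ B : ℝ, B = γ * (|Real.log (ZE w x 0)| + ∑ i, (|f i| + |(0 : ℝ)|) + β) :=
    ⟨_, rfl⟩
  have hB0 : 0 ≤ B := by
    rw [hBdef]
    have : 0 ≤ ∑ i, (|f i| + |(0 : ℝ)|) := Finset.sum_nonneg fun i _ => by positivity
    positivity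
  have hB : ∀ ω, |X ω| ≤ B * (1 + ∑ i, |ω i|) := by
    intro ω
    have h1 := hgrow 0 ω
    have h2 : 0 ≤ ∑ i, |ω i| := Finset.sum_nonneg fun i _ => abs_nonneg _
    have h3 : 0 ≤ |Real.log (ZE w x 0)| + ∑ i, (|f i| + |(0 : ℝ)|) := by
      have : 0 ≤ ∑ i, (|f i| + |(0 : ℝ)|) := Finset.sum_nonneg fun i _ => by positivity
      positivity
    have h4 : (fun i => β * ω i + f i + 0) = fun i => β * ω i + f i := by
      funext i
      ring
    rw [h4] at h1
    rw [hX, hBdef]
    show |γ * Real.log (ZE w x (fun i => β * ω i + f i))| ≤ _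
    rw [abs_mul, abs_of_pos hγ, mul_assoc]
    refine mul_le_mul_of_nonneg_left (h1.trans ?_) hγ.le
    nlinarith [mul_nonneg h3 h2, hβ]
  have hmain := adapt_lab μ hμ m X hXc.measurable hB g lam hlm hl0 hl1 hdep
  have hexp : ∀ ω : Fin m → ℝ, Real.exp (X ω) = ZE w x (fun i => β * ω i + f i) ^ γ := by
    intro ω
    rw [hX, Real.rpow_def_of_pos (hZ _), mul_comm]
  simp only [hexp] at hmain
  refine le_trans ?_ hmain
  refine sub_le_sub_right ?_ _
  -- the gain
  have hlu : ∀ i ω y, lam (Function.update ω i y) i = lam ω i := by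
    intro i ω y
    refine hdep i _ _ fun l hl => ?_
    rw [Function.update_of_ne]
    rintro rfl
    exact lt_irrefl _ hl
  have hpu : ∀ i ω y, pZ w x β f i (Function.update ω i y) δ = pZ w x β f i ω δ := by
    intro i ω y
    unfold pZ
    rw [Function.update_idem]
  have hp0 : ∀ i ω, 0 ≤ pZ w x β f i ω δ := fun i ω => pE_nonneg hE _ _
  have hp1 : ∀ i ω, pZ w x β f i ω δ ≤ 1 := fun i ω => pE_le_one hE _ _
  have hpm : ∀ i, Measurable fun ω => pZ w x β f i ω δ := by
    intro i
    have h1 : Continuous fun (ω : Fin m → ℝ) (l : Fin m) => β * Function.update ω i 0 l + f l + δ := by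
      refine continuous_pi fun l => ?_
      have h2 : Continuous fun ω : Fin m → ℝ => Function.update ω i 0 :=
        continuous_id.update i continuous_const
      have h3 : Continuous fun ω : Fin m → ℝ => Function.update ω i 0 l :=
        (continuous_apply l).comp h2
      exact ((h3.const_mul β).add continuous_const).add continuous_const
    exact ((continuous_pE hE i).comp h1).measurable
  obtain ⟨T, hT⟩ : ∃ T : (Fin m → ℝ × ℝ × ℝ) → Fin m → ℝ,
      T = fun z i => mv (lam (fun l => (z l).1) i) (z i).1 (z i).2.1 (z i).2.2 := ⟨_, rfl⟩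
  have hTm : Measurable T := by
    rw [hT]
    refine measurable_pi_lambda _ fun i => ?_
    have hx : Measurable fun (z : Fin m → ℝ × ℝ × ℝ) (l : Fin m) => (z l).1 := by fun_prop
    have s1 : MeasurableSet {z : Fin m → ℝ × ℝ × ℝ | (z i).1 < 0} :=
      measurableSet_lt (by fun_prop) measurable_const
    have s2 : MeasurableSet {z : Fin m → ℝ × ℝ × ℝ | 0 < (z i).2.1} :=
      measurableSet_lt measurable_const (by fun_prop)
    have s3 : MeasurableSet {z : Fin m → ℝ × ℝ × ℝ | (z i).2.2 < lam (fun l => (z l).1) i} :=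
      measurableSet_lt (by fun_prop) ((hlm i).comp hx)
    have h1 : Measurable fun z : Fin m → ℝ × ℝ × ℝ => (z i).2.1 := by fun_prop
    have h2 : Measurable fun z : Fin m → ℝ × ℝ × ℝ => (z i).1 := by fun_prop
    exact Measurable.ite (s1.inter (s2.inter s3)) h1 h2
  have hTb : ∀ z i, |T z i| ≤ |(z i).1| + |(z i).2.1| := by
    intro z i
    rw [hT]
    show |mv _ _ _ _| ≤ _
    unfold mv
    split_ifs
    · have := abs_nonneg (z i).1
      linarith
    · have := abs_nonneg (z i).2.1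
      linarith
  have hXT : Integrable (fun z => X (T z)) (Measure.pi (fun _ : Fin m => site μ)) := by
    have h1 : Integrable (fun z : Fin m → ℝ × ℝ × ℝ => B * (1 + ∑ i, (|(z i).1| + |(z i).2.1|)))
        (Measure.pi (fun _ : Fin m => site μ)) := by
      refine Integrable.const_mul ((integrable_const _).add (integrable_finsetSum _ fun i _ => ?_)) _
      exact (V7.int_x μ hμ i).add (V7.int_y μ hμ i)
    refine h1.mono' (hXc.measurable.comp hTm).aestronglyMeasurable (ae_of_all _ fun z => ?_)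
    rw [Real.norm_eq_abs]
    refine (hB (T z)).trans (mul_le_mul_of_nonneg_left ?_ hB0)
    exact add_le_add le_rfl (Finset.sum_le_sum fun i _ => hTb z i)
  -- the pointwise inequality
  have hpt : ∀ z : Fin m → ℝ × ℝ × ℝ,
      γ * ((Real.log (ZE w x (fun i => β * (z i).1 + f i + δ)) -
        δ * ∑ i, pE w x (fun i => β * (z i).1 + f i + δ) i) +
        β * ∑ i, V7.tm β (fun ω => pZ w x β f i ω δ) lam i z) ≤ X (T z) := by
    intro z
    rw [hX]
    refine mul_le_mul_of_nonneg_left ?_ hγ.le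
    have h1 := log_tangent hE (fun i => β * (z i).1 + f i + δ) (fun i => β * T z i + f i)
    refine le_trans ?_ h1
    have h2 : ∑ i, ((fun i => β * T z i + f i) i - (fun i => β * (z i).1 + f i + δ) i) *
        pE w x (fun i => β * (z i).1 + f i + δ) i =
        β * (∑ i, (T z i - (z i).1) * pE w x (fun i => β * (z i).1 + f i + δ) i) -
        δ * ∑ i, pE w x (fun i => β * (z i).1 + f i + δ) i := by
      rw [Finset.mul_sum, Finset.mul_sum, ← Finset.sum_sub_distrib]
      refine Finset.sum_congr rfl fun i _ => ?_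
      ring
    rw [h2]
    have h3 : ∑ i, V7.tm β (fun ω => pZ w x β f i ω δ) lam i z ≤
        ∑ i, (T z i - (z i).1) * pE w x (fun i => β * (z i).1 + f i + δ) i := by
      refine Finset.sum_le_sum fun i _ => ?_
      have hc := (pZ_cmp hE h01 hβ f i (fun l => (z l).1) δ).2
      have hp := pE_nonneg hE (fun i => β * (z i).1 + f i + δ) i
      have hq := hp0 i (fun l => (z l).1)
      have hTi : T z i = if (z i).1 < 0 ∧ 0 < (z i).2.1 ∧ (z i).2.2 < lam (fun l => (z l).1) i
          then (z i).2.1 else (z i).1 := by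
        rw [hT]
        rfl
      rw [hTi]
      unfold V7.tm
      show _ * pZ w x β f i (fun l => (z l).1) δ * _ ≤ _
      by_cases c : (z i).1 < 0 ∧ 0 < (z i).2.1 ∧ (z i).2.2 < lam (fun l => (z l).1) i
      · obtain ⟨c1, c2, c3⟩ := c
        rw [if_pos c1, if_pos c3, if_pos ⟨c1, c2, c3⟩, max_eq_left c2.le, mul_one]
        have h4 : Real.exp (-(β * |(z i).1|)) * pZ w x β f i (fun l => (z l).1) δ ≤
            pE w x (fun i => β * (z i).1 + f i + δ) i := by
          have h5 := mul_le_mul_of_nonneg_left hc (Real.exp_pos (-(β * |(z i).1|))).le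
          rw [← mul_assoc, ← Real.exp_add, neg_add_cancel, Real.exp_zero, one_mul] at h5
          exact h5
        calc Real.exp (-(β * |(z i).1|)) * pZ w x β f i (fun l => (z l).1) δ * (z i).2.1 ≤
              pE w x (fun i => β * (z i).1 + f i + δ) i * (z i).2.1 :=
              mul_le_mul_of_nonneg_right h4 c2.le
          _ ≤ pE w x (fun i => β * (z i).1 + f i + δ) i * ((z i).2.1 - (z i).1) :=
              mul_le_mul_of_nonneg_left (by linarith) hp
          _ = _ := mul_comm _ _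
      · rw [if_neg c, sub_self, zero_mul]
        by_cases c1 : (z i).1 < 0
        · by_cases c2 : 0 < (z i).2.1
          · have c3 : ¬ (z i).2.2 < lam (fun l => (z l).1) i := fun h => c ⟨c1, c2, h⟩
            rw [if_neg c3, mul_zero, mul_zero]
          · rw [max_eq_right (not_lt.1 c2), zero_mul, mul_zero]
        · rw [if_neg c1, zero_mul, zero_mul]
    have h4 := mul_le_mul_of_nonneg_left h3 hβ.le
    linarith
  -- integration
  have mpf := V7.mp_fst (m := m) μ
  have hL : Integrable (fun ω : Fin m → ℝ => Real.log (ZE w x (fun i => β * ω i + f i + δ)))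
      (Measure.pi (fun _ : Fin m => μ)) := by
    have h1 : Integrable (fun ω : Fin m → ℝ => (|Real.log (ZE w x 0)| + ∑ i, (|f i| + |δ|)) +
        β * ∑ i, |ω i|) (Measure.pi (fun _ : Fin m => μ)) := by
      refine (integrable_const _).add (Integrable.const_mul (integrable_finsetSum _ fun i _ => ?_) _)
      exact ((measurePreserving_eval (fun _ : Fin m => μ) i).integrable_comp
        hμ.integrable_abs.aestronglyMeasurable).2 hμ.integrable_abs
    refine h1.mono' ?_ (ae_of_all _ fun ω => ?_)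
    · exact (hZc.comp (by fun_prop)).aestronglyMeasurable
    · rw [Real.norm_eq_abs]
      exact hgrow δ ω
  have hM : Integrable (fun ω : Fin m → ℝ => ∑ i, pE w x (fun i => β * ω i + f i + δ) i)
      (Measure.pi (fun _ : Fin m => μ)) := by
    refine integrable_finsetSum _ fun i _ => ?_
    refine Integrable.of_bound (C := 1) ?_ (ae_of_all _ fun v => ?_)
    · exact ((continuous_pE hE i).comp (by fun_prop)).aestronglyMeasurable
    · rw [Real.norm_eq_abs, abs_of_nonneg (pE_nonneg hE _ _)]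
      exact pE_le_one hE _ _
  have hL1 : Integrable (fun z : Fin m → ℝ × ℝ × ℝ =>
      Real.log (ZE w x (fun i => β * (z i).1 + f i + δ)))
      (Measure.pi (fun _ : Fin m => site μ)) :=
    (mpf.integrable_comp hL.aestronglyMeasurable).2 hL
  have hM1 : Integrable (fun z : Fin m → ℝ × ℝ × ℝ =>
      ∑ i, pE w x (fun i => β * (z i).1 + f i + δ) i)
      (Measure.pi (fun _ : Fin m => site μ)) :=
    (mpf.integrable_comp hM.aestronglyMeasurable).2 hM
  have hL2 : ∫ z, Real.log (ZE w x (fun i => β * (z i).1 + f i + δ))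
      ∂Measure.pi (fun _ : Fin m => site μ) = LP μ w x β f δ := by
    unfold LP
    have h1 := hL.aestronglyMeasurable
    rw [← mpf.map_eq] at h1 ⊢
    exact (integral_map mpf.measurable.aemeasurable h1).symm
  have hM2 : ∫ z, ∑ i, pE w x (fun i => β * (z i).1 + f i + δ) i
      ∂Measure.pi (fun _ : Fin m => site μ) = MP μ w x β f δ := by
    unfold MP
    have h1 := hM.aestronglyMeasurable
    rw [← mpf.map_eq] at h1 ⊢
    exact (integral_map mpf.measurable.aemeasurable h1).symm
  have hti : ∀ i, Integrable (fun z => V7.tm β (fun ω => pZ w x β f i ω δ) lam i z)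
      (Measure.pi (fun _ : Fin m => site μ)) := fun i =>
    V7.tm_int μ hμ hβ (hpm i) (hp0 i) (hp1 i) hlm i
  have htv : ∀ i, ∫ z, V7.tm β (fun ω => pZ w x β f i ω δ) lam i z
      ∂Measure.pi (fun _ : Fin m => site μ) =
      (∫ y, max y 0 ∂μ) * (∫ y, (if y < 0 then Real.exp (-(β * |y|)) else 0) ∂μ) *
        ∫ ω, lam ω i * pZ w x β f i ω δ ∂Measure.pi (fun _ : Fin m => μ) := fun i =>
    V7.tm_mean μ hμ hβ (hpm i) (hp0 i) (hp1 i) hlm hl0 hl1 i (fun ω y => hpu i ω y)
      (fun ω y => hlu i ω y)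
  have hI1 : Integrable (fun z : Fin m → ℝ × ℝ × ℝ =>
      Real.log (ZE w x (fun i => β * (z i).1 + f i + δ)) -
        δ * ∑ i, pE w x (fun i => β * (z i).1 + f i + δ) i)
      (Measure.pi (fun _ : Fin m => site μ)) := hL1.sub (hM1.const_mul δ)
  have hI2 : Integrable (fun z : Fin m → ℝ × ℝ × ℝ =>
      β * ∑ i, V7.tm β (fun ω => pZ w x β f i ω δ) lam i z)
      (Measure.pi (fun _ : Fin m => site μ)) :=
    (integrable_finsetSum _ fun i _ => hti i).const_mul β
  have hfin : ∫ z, γ * ((Real.log (ZE w x (fun i => β * (z i).1 + f i + δ)) -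
        δ * ∑ i, pE w x (fun i => β * (z i).1 + f i + δ) i) +
        β * ∑ i, V7.tm β (fun ω => pZ w x β f i ω δ) lam i z)
        ∂Measure.pi (fun _ : Fin m => site μ) ≤
      ∫ z, X (T z) ∂Measure.pi (fun _ : Fin m => site μ) :=
    integral_mono ((hI1.add hI2).const_mul γ) hXT hpt
  rw [integral_const_mul, integral_add hI1 hI2, integral_sub hL1 (hM1.const_mul δ),
    integral_const_mul, integral_const_mul, integral_finsetSum _ fun i _ => hti i, hL2, hM2,
    Finset.sum_congr rfl fun i _ => htv i, ← Finset.mul_sum] at hfin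
  have hfin2 : ∫ z, X (T z) ∂Measure.pi (fun _ : Fin m => site μ) =
      ∫ z, X (fun i => mv (lam (fun l => (z l).1) i) (z i).1 (z i).2.1 (z i).2.2)
        ∂Measure.pi (fun _ : Fin m => site μ) := by
    rw [hT]
  rw [← hfin2]
  refine le_trans (le_of_eq ?_) hfin
  ring

end

end Pool.Agent.OT
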