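import Mathlib
import Pool.Agent.Lib.MP_daa227_pr_OT.Defs2
import Pool.Agent.Lib.MP_daa227_pr.Conc

/-!
# Module V5: one-site noise inequality
-/

set_option autoImplicit false

namespace Pool.Agent.OT

open MeasureTheory ProbabilityTheory Finset Filter Topology
open MP_daa227_pr (Chain Zk Zf K0 shift seqLaw ExpMom)

noncomputable section

namespace V5

theorem slope_ge {v G : ℝ → ℝ} (hG : ∀ y, HasDerivAt G (v y) y)
    (hv : ∀ y y', v y ≤ Real.exp (2 * |y - y'|) * v y') (hv0 : ∀ y, 0 ≤ v y) (y : ℝ) {s : ℝ}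
    (hs : 0 ≤ s) : s * Real.exp (-2 * s) * v y ≤ G (y + s) - G y := by
  rcases hs.eq_or_lt with rfl | hs
  · simp
  obtain ⟨c, hc, h2⟩ := exists_hasDerivAt_eq_slope G v (a := y) (b := y + s) (by linarith)
    (fun x _ => (hG x).continuousAt.continuousWithinAt) (fun x _ => hG x)
  have h3 : G (y + s) - G y = s * v c := by
    have e1 : y + s - y = s := by ring
    rw [h2, e1, mul_div_cancel₀ _ hs.ne']
  rw [h3, mul_assoc]
  refine mul_le_mul_of_nonneg_left ?_ hs.le
  have h4 : v y ≤ Real.exp (2 * s) * v c := by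
    refine (hv y c).trans (mul_le_mul_of_nonneg_right (Real.exp_le_exp.2 ?_) (hv0 c))
    have h5 : |y - c| ≤ s := by
      rw [abs_le]
      exact ⟨by linarith [hc.2], by linarith [hc.1]⟩
    linarith
  calc Real.exp (-2 * s) * v y ≤ Real.exp (-2 * s) * (Real.exp (2 * s) * v c) :=
        mul_le_mul_of_nonneg_left h4 (Real.exp_pos _).le
    _ = v c := by
        rw [← mul_assoc, ← Real.exp_add]
        have : -2 * s + 2 * s = 0 := by ring
        rw [this, Real.exp_zero, one_mul]

theorem diff_le {v G : ℝ → ℝ} (hG : ∀ y, HasDerivAt G (v y) y)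
    (hv : ∀ y y', v y ≤ Real.exp (2 * |y - y'|) * v y') (hv0 : ∀ y, 0 ≤ v y) {y z M : ℝ}
    (hy : |y| ≤ M) (hz : |z| ≤ M) : |G y - G z| ≤ |y - z| * (Real.exp (2 * M) * v 0) := by
  have h1 := (convex_Icc (-M) M).norm_image_sub_le_of_norm_hasDerivWithin_le (f := G) (f' := v)
    (C := Real.exp (2 * M) * v 0) (x := z) (y := y) (fun x _ => (hG x).hasDerivWithinAt) ?_
    (abs_le.1 hz) (abs_le.1 hy)
  · rw [Real.norm_eq_abs, Real.norm_eq_abs] at h1
    linarith
  · intro x hx
    rw [Real.norm_eq_abs, abs_of_nonneg (hv0 x)]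
    refine (hv x 0).trans (mul_le_mul_of_nonneg_right (Real.exp_le_exp.2 ?_) (hv0 0))
    rw [sub_zero]
    have := abs_le.2 hx
    linarith

theorem diff_le' {v G : ℝ → ℝ} (hG : ∀ y, HasDerivAt G (v y) y)
    (hv : ∀ y y', v y ≤ Real.exp (2 * |y - y'|) * v y') (hv0 : ∀ y, 0 ≤ v y) {β : ℝ}
    (hβ : 0 < β) (x y : ℝ) {s : ℝ} (hs : 0 ≤ s) :
    |G (β * x + s) - G (β * y + s)| ≤ v 0 * Real.exp (2 * s) * Real.exp (3 * β * |x|) *
      Real.exp (3 * β * |y|) := by
  have hx : |β * x| = β * |x| := by rw [abs_mul, abs_of_pos hβ]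
  have hy : |β * y| = β * |y| := by rw [abs_mul, abs_of_pos hβ]
  have hx0 : 0 ≤ β * |x| := by positivity
  have hy0 : 0 ≤ β * |y| := by positivity
  have h1 := diff_le hG hv hv0 (y := β * x + s) (z := β * y + s) (M := β * |x| + β * |y| + s)
    (by
      have := abs_add_le (β * x) s
      rw [hx, abs_of_nonneg hs] at this
      linarith)
    (by
      have := abs_add_le (β * y) s
      rw [hy, abs_of_nonneg hs] at this
      linarith)
  refine h1.trans ?_
  have h2 : |β * x + s - (β * y + s)| ≤ Real.exp (β * |x| + β * |y|) := by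
    have e1 : β * x + s - (β * y + s) = β * x - β * y := by ring
    rw [e1]
    have h3 := abs_sub (β * x) (β * y)
    rw [hx, hy] at h3
    have h4 := Real.add_one_le_exp (β * |x| + β * |y|)
    linarith
  calc |β * x + s - (β * y + s)| * (Real.exp (2 * (β * |x| + β * |y| + s)) * v 0)
      ≤ Real.exp (β * |x| + β * |y|) * (Real.exp (2 * (β * |x| + β * |y| + s)) * v 0) :=
        mul_le_mul_of_nonneg_right h2 (mul_nonneg (Real.exp_pos _).le (hv0 0))
    _ = v 0 * Real.exp (2 * s) * Real.exp (3 * β * |x|) * Real.exp (3 * β * |y|) := by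
        have e1 : Real.exp (β * |x| + β * |y|) * (Real.exp (2 * (β * |x| + β * |y| + s)) * v 0) =
            v 0 * (Real.exp (β * |x| + β * |y|) * Real.exp (2 * (β * |x| + β * |y| + s))) := by
          ring
        rw [e1, ← Real.exp_add, mul_assoc, mul_assoc, ← Real.exp_add, ← Real.exp_add]
        congr 2
        ring

theorem w_le {w : ℝ → ℝ} {β : ℝ} (hw : ∀ x x', w x ≤ Real.exp (2 * β * |x - x'|) * w x')
    (x : ℝ) : w x ≤ w 0 * Real.exp (2 * β * |x|) := by
  have := hw x 0
  rw [sub_zero] at this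
  linarith

theorem w_ge {w : ℝ → ℝ} {β : ℝ} (hw : ∀ x x', w x ≤ Real.exp (2 * β * |x - x'|) * w x')
    (x : ℝ) : w 0 * Real.exp (-(2 * β * |x|)) ≤ w x := by
  have h1 := hw 0 x
  rw [zero_sub, abs_neg] at h1
  have h2 := mul_le_mul_of_nonneg_left h1 (Real.exp_pos (-(2 * β * |x|))).le
  rw [← mul_assoc, ← Real.exp_add, neg_add_cancel, Real.exp_zero, one_mul] at h2
  linarith

theorem int_w {μ : Measure ℝ} [IsProbabilityMeasure μ] (hμ : ExpMom μ) {β : ℝ} {w : ℝ → ℝ}
    (hwm : Measurable w) (hw0 : ∀ x, 0 ≤ w x)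
    (hw : ∀ x x', w x ≤ Real.exp (2 * β * |x - x'|) * w x') : Integrable w μ := by
  refine ((hμ.abs (2 * β)).const_mul (w 0)).mono' hwm.aestronglyMeasurable
    (ae_of_all _ fun x => ?_)
  rw [Real.norm_eq_abs, abs_of_nonneg (hw0 x)]
  exact w_le hw x

theorem int_wG {μ : Measure ℝ} [IsProbabilityMeasure μ] (hμ : ExpMom μ) {β : ℝ} (hβ : 0 < β) {w v G : ℝ → ℝ}
    (hwm : Measurable w) (hw0 : ∀ x, 0 ≤ w x)
    (hw : ∀ x x', w x ≤ Real.exp (2 * β * |x - x'|) * w x')
    (hG : ∀ y, HasDerivAt G (v y) y) (hv0 : ∀ y, 0 ≤ v y)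
    (hv : ∀ y y', v y ≤ Real.exp (2 * |y - y'|) * v y') {s : ℝ} (hs : 0 ≤ s) :
    Integrable (fun x => w x * G (β * x + s)) μ := by
  have hGc : Continuous G := continuous_iff_continuousAt.2 fun y => (hG y).continuousAt
  refine (((hμ.abs (2 * β)).const_mul (w 0 * |G s|)).add
    ((hμ.abs (5 * β)).const_mul (w 0 * (v 0 * Real.exp (2 * s))))).mono' ?_
    (ae_of_all _ fun x => ?_)
  · have : Measurable fun x => G (β * x + s) := (hGc.comp (by fun_prop)).measurable
    exact (hwm.mul this).aestronglyMeasurable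
  · simp only [Pi.add_apply]
    rw [Real.norm_eq_abs, abs_mul, abs_of_nonneg (hw0 x)]
    have h1 := diff_le' hG hv hv0 hβ x 0 hs
    rw [mul_zero, zero_add, abs_zero, mul_zero, Real.exp_zero, mul_one] at h1
    have h2 : |G (β * x + s)| ≤ |G s| + v 0 * Real.exp (2 * s) * Real.exp (3 * β * |x|) := by
      have := abs_add_le (G s) (G (β * x + s) - G s)
      rw [add_sub_cancel] at this
      linarith
    calc w x * |G (β * x + s)| ≤ (w 0 * Real.exp (2 * β * |x|)) *
          (|G s| + v 0 * Real.exp (2 * s) * Real.exp (3 * β * |x|)) :=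
          mul_le_mul (w_le hw x) h2 (abs_nonneg _)
            (mul_nonneg (hw0 0) (Real.exp_pos _).le)
      _ = w 0 * |G s| * Real.exp (2 * β * |x|) +
          w 0 * (v 0 * Real.exp (2 * s)) * Real.exp (5 * β * |x|) := by
          have e1 : Real.exp (5 * β * |x|) = Real.exp (2 * β * |x|) * Real.exp (3 * β * |x|) := by
            rw [← Real.exp_add]
            congr 1
            ring
          rw [e1]
          ring

end V5

theorem one_noise (μ : Measure ℝ) [IsProbabilityMeasure μ] (hμ : ExpMom μ) {β : ℝ} (hβ : 0 < β) :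
    ∃ A η₀ : ℝ, 0 < A ∧ 0 < η₀ ∧ η₀ ≤ 1 / 2 ∧ A * η₀ ≤ 1 / 4 ∧ ∀ η : ℝ, 0 ≤ η → η ≤ η₀ →
      ∀ w v G : ℝ → ℝ, Measurable w → (∀ x, 0 ≤ w x) →
        (∀ x x', w x ≤ Real.exp (2 * β * |x - x'|) * w x') →
        (∀ y, HasDerivAt G (v y) y) → (∀ y, 0 ≤ v y) →
        (∀ y y', v y ≤ Real.exp (2 * |y - y'|) * v y') →
      ∫ x, w x * G (β * x) ∂μ ≤ (1 - η) * ∫ x, w x * G (β * x + A * η) ∂μ +
        η * ∫ x, ∫ y, w x * G (β * y + A * η) ∂μ ∂μ := by
  set a := ∫ x, Real.exp (-(4 * β) * |x|) ∂μ with ha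
  set b5 := ∫ x, Real.exp (5 * β * |x|) ∂μ with hb5
  set b3 := ∫ x, Real.exp (3 * β * |x|) ∂μ with hb3
  have ha0 : 0 < a := integral_exp_pos (hμ.abs _)
  have hb50 : 0 < b5 := integral_exp_pos (hμ.abs _)
  have hb30 : 0 < b3 := integral_exp_pos (hμ.abs _)
  set A := (Real.exp 1 * (b5 * b3) + 1) / a with hA
  have hA0 : 0 < A := by positivity
  have hAa : A * a = Real.exp 1 * (b5 * b3) + 1 := by
    rw [hA]
    field_simp
  refine ⟨A, min (1 / 2) (1 / (4 * A)), hA0, by positivity, min_le_left _ _, ?_, ?_⟩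
  · calc A * min (1 / 2) (1 / (4 * A)) ≤ A * (1 / (4 * A)) :=
          mul_le_mul_of_nonneg_left (min_le_right _ _) hA0.le
      _ = 1 / 4 := by field_simp
  intro η hη0 hη w v G hwm hw0 hw hG hv0 hv
  have hs0 : 0 ≤ A * η := mul_nonneg hA0.le hη0
  have hs1 : A * η ≤ 1 / 4 := by
    calc A * η ≤ A * (1 / (4 * A)) :=
          mul_le_mul_of_nonneg_left (hη.trans (min_le_right _ _)) hA0.le
      _ = 1 / 4 := by field_simp
  set s := A * η with hs
  have hi0 : Integrable (fun x => w x * G (β * x)) μ := by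
    have := V5.int_wG hμ hβ hwm hw0 hw hG hv0 hv (le_refl 0)
    simpa only [add_zero] using this
  have hi1 : Integrable (fun x => w x * G (β * x + s)) μ :=
    V5.int_wG hμ hβ hwm hw0 hw hG hv0 hv hs0
  have hiG : Integrable (fun x => G (β * x + s)) μ := by
    have := V5.int_wG (w := fun _ => 1) hμ hβ measurable_const (fun _ => zero_le_one)
      (fun x x' => by
        rw [mul_one]
        exact Real.one_le_exp (by positivity)) hG hv0 hv hs0
    simpa only [one_mul] using this
  have hiw : Integrable w μ := V5.int_w hμ hwm hw0 hw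
  set H := ∫ y, G (β * y + s) ∂μ with hH
  have hprod : ∫ x, ∫ y, w x * G (β * y + s) ∂μ ∂μ = ∫ x, w x * H ∂μ := by
    congr 1
    funext x
    rw [integral_const_mul]
  rw [hprod]
  -- the gain
  have hT1 : s * Real.exp (-2 * s) * (w 0 * v 0) * a ≤
      ∫ x, (w x * G (β * x + s) - w x * G (β * x)) ∂μ := by
    rw [ha, ← integral_const_mul]
    refine integral_mono ((hμ.abs _).const_mul _) (hi1.sub hi0) fun x => ?_
    dsimp only
    rw [← mul_sub]
    have h1 := V5.slope_ge hG hv hv0 (β * x) hs0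
    have h2 : v 0 * Real.exp (-(2 * β * |x|)) ≤ v (β * x) := by
      have h3 := hv 0 (β * x)
      rw [zero_sub, abs_neg, abs_mul, abs_of_pos hβ] at h3
      have h4 := mul_le_mul_of_nonneg_left h3 (Real.exp_pos (-(2 * β * |x|))).le
      rw [← mul_assoc, ← Real.exp_add] at h4
      have h5 : -(2 * β * |x|) + 2 * (β * |x|) = 0 := by ring
      rw [h5, Real.exp_zero, one_mul] at h4
      linarith
    have h6 : s * Real.exp (-2 * s) * (v 0 * Real.exp (-(2 * β * |x|))) ≤
        G (β * x + s) - G (β * x) :=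
      le_trans (mul_le_mul_of_nonneg_left h2 (mul_nonneg hs0 (Real.exp_pos _).le)) h1
    have h7 : 0 ≤ s * Real.exp (-2 * s) * (v 0 * Real.exp (-(2 * β * |x|))) :=
      mul_nonneg (mul_nonneg hs0 (Real.exp_pos _).le) (mul_nonneg (hv0 0) (Real.exp_pos _).le)
    calc s * Real.exp (-2 * s) * (w 0 * v 0) * Real.exp (-(4 * β) * |x|)
        = (w 0 * Real.exp (-(2 * β * |x|))) *
          (s * Real.exp (-2 * s) * (v 0 * Real.exp (-(2 * β * |x|)))) := by
          have e1 : Real.exp (-(4 * β) * |x|) =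
              Real.exp (-(2 * β * |x|)) * Real.exp (-(2 * β * |x|)) := by
            rw [← Real.exp_add]
            congr 1
            ring
          rw [e1]
          ring
      _ ≤ w x * (G (β * x + s) - G (β * x)) := mul_le_mul (V5.w_ge hw x) h6 h7 (hw0 x)
  -- the loss
  have hT2 : ∫ x, (w x * G (β * x + s) - w x * H) ∂μ ≤
      w 0 * v 0 * Real.exp (2 * s) * b3 * b5 := by
    rw [hb5, ← integral_const_mul]
    refine integral_mono (hi1.sub (hiw.mul_const H)) ((hμ.abs _).const_mul _) fun x => ?_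
    dsimp only
    rw [← mul_sub]
    have h1 : G (β * x + s) - H ≤ v 0 * Real.exp (2 * s) * Real.exp (3 * β * |x|) * b3 := by
      have e1 : G (β * x + s) - H = ∫ y, (G (β * x + s) - G (β * y + s)) ∂μ := by
        rw [integral_sub (integrable_const _) hiG, integral_const, probReal_univ, one_smul]
      rw [e1, hb3, ← integral_const_mul]
      refine integral_mono ((integrable_const _).sub hiG) ((hμ.abs _).const_mul _) fun y => ?_
      exact (le_abs_self _).trans (V5.diff_le' hG hv hv0 hβ x y hs0)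
    have h2 : 0 ≤ v 0 * Real.exp (2 * s) * Real.exp (3 * β * |x|) * b3 :=
      mul_nonneg (mul_nonneg (mul_nonneg (hv0 0) (Real.exp_pos _).le) (Real.exp_pos _).le)
        hb30.le
    calc w x * (G (β * x + s) - H)
        ≤ w x * (v 0 * Real.exp (2 * s) * Real.exp (3 * β * |x|) * b3) :=
          mul_le_mul_of_nonneg_left h1 (hw0 x)
      _ ≤ (w 0 * Real.exp (2 * β * |x|)) *
          (v 0 * Real.exp (2 * s) * Real.exp (3 * β * |x|) * b3) :=
          mul_le_mul_of_nonneg_right (V5.w_le hw x) h2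
      _ = w 0 * v 0 * Real.exp (2 * s) * b3 * Real.exp (5 * β * |x|) := by
          have e1 : Real.exp (5 * β * |x|) = Real.exp (2 * β * |x|) * Real.exp (3 * β * |x|) := by
            rw [← Real.exp_add]
            congr 1
            ring
          rw [e1]
          ring
  rw [integral_sub hi1 hi0] at hT1
  rw [integral_sub hi1 (hiw.mul_const H)] at hT2
  -- comparison
  have hcmp : η * (w 0 * v 0 * Real.exp (2 * s) * b3 * b5) ≤
      s * Real.exp (-2 * s) * (w 0 * v 0) * a := by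
    have hwv : 0 ≤ w 0 * v 0 := mul_nonneg (hw0 0) (hv0 0)
    have h1 : Real.exp (4 * s) ≤ Real.exp 1 := Real.exp_le_exp.2 (by linarith)
    have h2 : Real.exp (2 * s) = Real.exp (-2 * s) * Real.exp (4 * s) := by
      rw [← Real.exp_add]
      congr 1
      ring
    have h3 : Real.exp (4 * s) * (b5 * b3) ≤ A * a := by
      rw [hAa]
      have := mul_le_mul_of_nonneg_right h1 (mul_pos hb50 hb30).le
      linarith
    have h4 : 0 ≤ η * (w 0 * v 0) * Real.exp (-2 * s) :=
      mul_nonneg (mul_nonneg hη0 hwv) (Real.exp_pos _).le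
    have h5 := mul_le_mul_of_nonneg_left h3 h4
    calc η * (w 0 * v 0 * Real.exp (2 * s) * b3 * b5)
        = η * (w 0 * v 0) * Real.exp (-2 * s) * (Real.exp (4 * s) * (b5 * b3)) := by
          rw [h2]
          ring
      _ ≤ η * (w 0 * v 0) * Real.exp (-2 * s) * (A * a) := h5
      _ = s * Real.exp (-2 * s) * (w 0 * v 0) * a := by
          rw [hs]
          ring
  have h8 := mul_le_mul_of_nonneg_left hT2 hη0
  linarith

end

end Pool.Agent.OT
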