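import Mathlib
import Pool.Agent.Lib.MP_daa227_pr_OT.Defs2
import Pool.Agent.Lib.MP_daa227_pr_OT.EFc
import Pool.Agent.Lib.MP_daa227_pr_OT.Cmp
import Pool.Agent.Lib.MP_daa227_pr_OT.OneSite

/-!
# OT2, module V6: noise stability of the local densities
-/

set_option autoImplicit false

namespace Pool.Agent.OT

open MeasureTheory ProbabilityTheory Finset Filter Topology
open MP_daa227_pr (Chain Zk Zf K0 shift seqLaw ExpMom)

noncomputable section

namespace V6

/-! ### resampling one coordinate -/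

section Upd

variable {ι α : Type*} [Fintype ι] [DecidableEq ι] [MeasurableSpace α]

omit [Fintype ι] in
theorem measurable_upd (i : ι) :
    Measurable (fun q : (ι → α) × α => Function.update q.1 i q.2) := by
  rw [measurable_pi_iff]
  intro j
  by_cases h : j = i
  · subst h
    simpa using measurable_snd
  · simp only [Function.update_of_ne h]
    exact (measurable_pi_apply j).comp measurable_fst

theorem mp_upd (ν : Measure α) [IsProbabilityMeasure ν] (i : ι) :
    MeasurePreserving (fun q : (ι → α) × α => Function.update q.1 i q.2)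
      ((Measure.pi fun _ : ι => ν).prod ν) (Measure.pi fun _ : ι => ν) := by
  refine ⟨measurable_upd i, ?_⟩
  symm
  refine Measure.pi_eq ?_
  intro s hs
  rw [Measure.map_apply (measurable_upd i) (MeasurableSet.univ_pi hs)]
  have h : (fun q : (ι → α) × α => Function.update q.1 i q.2) ⁻¹' Set.univ.pi s =
      (Set.univ.pi (Function.update s i Set.univ)) ×ˢ (s i) := by
    ext ⟨ω, t⟩
    simp only [Set.mem_preimage, Set.mem_pi, Set.mem_univ, true_implies, Set.mem_prod]
    constructor
    · intro h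
      refine ⟨fun j => ?_, ?_⟩
      · by_cases hj : j = i
        · subst hj; simp
        · rw [Function.update_of_ne hj]
          have := h j
          rwa [Function.update_of_ne hj] at this
      · have := h i
        rwa [Function.update_self] at this
    · rintro ⟨h1, h2⟩ j
      by_cases hj : j = i
      · subst hj; rwa [Function.update_self]
      · rw [Function.update_of_ne hj]
        have := h1 j
        rwa [Function.update_of_ne hj] at this
  rw [h, Measure.prod_prod, Measure.pi_pi, ← Finset.mul_prod_erase Finset.univ _ (Finset.mem_univ i),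
    ← Finset.mul_prod_erase Finset.univ (fun j => ν (s j)) (Finset.mem_univ i),
    Function.update_self, measure_univ, one_mul, mul_comm]
  congr 1
  refine Finset.prod_congr rfl ?_
  intro j hj
  rw [Function.update_of_ne (Finset.ne_of_mem_erase hj)]

theorem integral_upd (ν : Measure α) [IsProbabilityMeasure ν] (i : ι) (F : (ι → α) → ℝ)
    (hF : Integrable F (Measure.pi fun _ : ι => ν)) :
    ∫ z, F z ∂(Measure.pi fun _ : ι => ν) =
      ∫ z, ∫ u, F (Function.update z i u) ∂ν ∂(Measure.pi fun _ : ι => ν) := by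
  have hm := mp_upd ν i
  have h1 : ∫ ω, F ω ∂(Measure.pi fun _ : ι => ν) =
      ∫ q, F (Function.update q.1 i q.2) ∂(Measure.pi fun _ : ι => ν).prod ν := by
    conv_lhs => rw [← hm.map_eq]
    exact integral_map hm.measurable.aemeasurable (by rw [hm.map_eq]; exact hF.aestronglyMeasurable)
  rw [h1]
  exact integral_prod _ (hm.integrable_comp_of_integrable hF)

theorem integrable_upd (ν : Measure α) [IsProbabilityMeasure ν] (i : ι) (F : (ι → α) → ℝ)
    (hF : Integrable F (Measure.pi fun _ : ι => ν)) :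
    Integrable (fun z => ∫ u, F (Function.update z i u) ∂ν) (Measure.pi fun _ : ι => ν) :=
  ((mp_upd ν i).integrable_comp_of_integrable hF).integral_prod_left

end Upd

/-! ### Lipschitz bound for the logarithm of a local density -/

section Lip

variable {Ω ι : Type*} [Fintype Ω] [Fintype ι] [DecidableEq ι] {w : Ω → ℝ} {x : Ω → ι → ℝ}

theorem logpE_update (hE : EFam w x) (h01 : ∀ s i, x s i = 0 ∨ x s i = 1) (i : ι)
    (hp : ∀ θ, 0 < pE w x θ i) (θ : ι → ℝ) (l : ι) (y y' : ℝ) :
    |Real.log (pE w x (Function.update θ l y) i) - Real.log (pE w x (Function.update θ l y') i)| ≤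
      |y - y'| := by
  have h : ∀ y y' : ℝ, Real.log (pE w x (Function.update θ l y) i) -
      Real.log (pE w x (Function.update θ l y') i) ≤ |y - y'| := by
    intro y y'
    have h1 := Real.log_le_log (hp _) (pE_update_le hE h01 θ i l y y')
    rw [Real.log_mul (Real.exp_pos _).ne' (hp _).ne', Real.log_exp] at h1
    linarith
  rw [abs_le]
  constructor
  · have := h y' y
    rw [abs_sub_comm] at this
    linarith
  · exact h y y'

theorem logpE_lip (hE : EFam w x) (h01 : ∀ s i, x s i = 0 ∨ x s i = 1) (i : ι)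
    (hp : ∀ θ, 0 < pE w x θ i) (θ θ' : ι → ℝ) :
    |Real.log (pE w x θ i) - Real.log (pE w x θ' i)| ≤ ∑ l, |θ l - θ' l| := by
  have h : ∀ S : Finset ι, |Real.log (pE w x (fun l => if l ∈ S then θ l else θ' l) i) -
      Real.log (pE w x θ' i)| ≤ ∑ l ∈ S, |θ l - θ' l| := by
    intro S
    induction S using Finset.induction_on with
    | empty => simp
    | insert l S hl ih =>
      rw [Finset.sum_insert hl]
      have e1 : (fun m => if m ∈ insert l S then θ m else θ' m) =
          Function.update (fun m => if m ∈ S then θ m else θ' m) l (θ l) := by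
        funext m
        by_cases hm : m = l
        · subst hm; simp
        · rw [Function.update_of_ne hm]
          simp [hm]
      have e2 : (fun m => if m ∈ S then θ m else θ' m) =
          Function.update (fun m => if m ∈ S then θ m else θ' m) l (θ' l) := by
        funext m
        by_cases hm : m = l
        · subst hm; simp [hl]
        · rw [Function.update_of_ne hm]
      have h1 := logpE_update hE h01 i hp (fun m => if m ∈ S then θ m else θ' m) l (θ l) (θ' l)
      rw [← e1, ← e2] at h1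
      have h2 := abs_sub_le (Real.log (pE w x (fun m => if m ∈ insert l S then θ m else θ' m) i))
        (Real.log (pE w x (fun m => if m ∈ S then θ m else θ' m) i)) (Real.log (pE w x θ' i))
      linarith
  have h1 := h univ
  simpa using h1

end Lip

/-! ### integration over one site -/

section Site

variable (μ : Measure ℝ) [IsProbabilityMeasure μ] (π : Measure ℕ) [IsProbabilityMeasure π]

instance : IsProbabilityMeasure (siteL μ π) := by
  unfold siteL; infer_instance

variable {μ} in
theorem int_fst (hμ : ExpMom μ) : Integrable (fun u : ℝ × ℝ × ℕ => |u.1|) (siteL μ π) := by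
  unfold siteL
  exact (hμ.integrable_abs).comp_fst (μ.prod π)

variable {μ} in
theorem int_snd (hμ : ExpMom μ) : Integrable (fun u : ℝ × ℝ × ℕ => |u.2.1|) (siteL μ π) := by
  unfold siteL
  exact ((hμ.integrable_abs).comp_fst π).comp_snd μ

variable {μ} in
theorem int_site (hμ : ExpMom μ) {H : ℝ × ℝ × ℕ → ℝ} (hH : Measurable H) {B : ℝ}
    (hB : ∀ u, |H u| ≤ B * (1 + |u.1| + |u.2.1|)) : Integrable H (siteL μ π) := by
  refine Integrable.mono' (g := fun u => B * (1 + |u.1| + |u.2.1|)) ?_ hH.aestronglyMeasurable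
    (ae_of_all _ fun u => by rw [Real.norm_eq_abs]; exact hB u)
  exact (((integrable_const 1).add (int_fst π hμ)).add (int_snd π hμ)).const_mul B

theorem site_one (h : ℝ → ℝ) : ∫ u, h u.1 ∂(siteL μ π) = ∫ x, h x ∂μ := by
  unfold siteL
  rw [integral_fun_fst]
  simp

theorem pi_lt (j : ℕ) : ∫ g, (if g < j then (1 : ℝ) else 0) ∂π = 1 - (π {g | j ≤ g}).toReal := by
  have h1 : (fun g : ℕ => if g < j then (1 : ℝ) else 0) =
      Set.indicator {g | g < j} (fun _ => 1) := by
    funext g
    simp [Set.indicator_apply]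
  rw [h1, integral_indicator_const _ (MeasurableSet.of_discrete)]
  have h2 : {g : ℕ | g < j} = {g | j ≤ g}ᶜ := by
    ext g; simp
  rw [h2, probReal_compl_eq_one_sub (MeasurableSet.of_discrete)]
  simp [Measure.real]

omit [IsProbabilityMeasure π] in
theorem pi_ge (j : ℕ) : ∫ g, (if g < j then (0 : ℝ) else 1) ∂π = (π {g | j ≤ g}).toReal := by
  have h1 : (fun g : ℕ => if g < j then (0 : ℝ) else 1) =
      Set.indicator {g | j ≤ g} (fun _ => 1) := by
    funext g
    by_cases hg : g < j
    · simp [hg]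
    · simp [hg, not_lt.1 hg]
  rw [h1, integral_indicator_const _ (MeasurableSet.of_discrete)]
  simp [Measure.real]

variable {μ} in
theorem site_mix (hμ : ExpMom μ) (j : ℕ) {W G : ℝ → ℝ} (hW : Measurable W)
    (hW1 : ∀ x, |W x| ≤ 1) (hG : Measurable G) (B : ℝ) (hB : ∀ x, |G x| ≤ B * (1 + |x|)) :
    ∫ u, W u.1 * G (if u.2.2 < j then u.1 else u.2.1) ∂(siteL μ π) =
      (1 - (π {g | j ≤ g}).toReal) * ∫ x, W x * G x ∂μ +
        (π {g | j ≤ g}).toReal * ∫ x, ∫ y, W x * G y ∂μ ∂μ := by
  have hB0 : 0 ≤ B := by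
    have h := hB 0
    simp only [abs_zero, add_zero, mul_one] at h
    exact (abs_nonneg _).trans h
  have hj : Measurable (fun u : ℝ × ℝ × ℕ => if u.2.2 < j then (1 : ℝ) else 0) :=
    Measurable.comp (g := fun g : ℕ => if g < j then (1 : ℝ) else 0)
      (measurable_of_countable _)
      (measurable_snd.comp measurable_snd)
  have hj' : Measurable (fun u : ℝ × ℝ × ℕ => if u.2.2 < j then (0 : ℝ) else 1) :=
    Measurable.comp (g := fun g : ℕ => if g < j then (0 : ℝ) else 1)
      (measurable_of_countable _)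
      (measurable_snd.comp measurable_snd)
  have e : (fun u : ℝ × ℝ × ℕ => W u.1 * G (if u.2.2 < j then u.1 else u.2.1)) = fun u =>
      (W u.1 * G u.1) * (if u.2.2 < j then (1 : ℝ) else 0) +
        W u.1 * (G u.2.1 * (if u.2.2 < j then (0 : ℝ) else 1)) := by
    funext u
    by_cases hu : u.2.2 < j <;> simp [hu]
  have i1 : Integrable (fun u : ℝ × ℝ × ℕ =>
      (W u.1 * G u.1) * (if u.2.2 < j then (1 : ℝ) else 0)) (siteL μ π) := by
    refine int_site π hμ (((hW.comp measurable_fst).mul (hG.comp measurable_fst)).mul hj)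
      (B := B) (fun u => ?_)
    have h1 := hW1 u.1
    have h2 := hB u.1
    have h3 : |(if u.2.2 < j then (1 : ℝ) else 0)| ≤ 1 := by split_ifs <;> simp
    rw [abs_mul, abs_mul]
    calc |W u.1| * |G u.1| * |(if u.2.2 < j then (1 : ℝ) else 0)| ≤
        1 * (B * (1 + |u.1|)) * 1 := by gcongr
      _ ≤ B * (1 + |u.1| + |u.2.1|) := by
        have := mul_nonneg hB0 (abs_nonneg u.2.1)
        linarith
  have i2 : Integrable (fun u : ℝ × ℝ × ℕ =>
      W u.1 * (G u.2.1 * (if u.2.2 < j then (0 : ℝ) else 1))) (siteL μ π) := by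
    refine int_site π hμ ((hW.comp measurable_fst).mul
      ((hG.comp (measurable_fst.comp measurable_snd)).mul hj')) (B := B) (fun u => ?_)
    have h1 := hW1 u.1
    have h2 := hB u.2.1
    have h3 : |(if u.2.2 < j then (0 : ℝ) else 1)| ≤ 1 := by split_ifs <;> simp
    rw [abs_mul, abs_mul]
    calc |W u.1| * (|G u.2.1| * |(if u.2.2 < j then (0 : ℝ) else 1)|) ≤
        1 * ((B * (1 + |u.2.1|)) * 1) := by gcongr
      _ ≤ B * (1 + |u.1| + |u.2.1|) := by
        have := mul_nonneg hB0 (abs_nonneg u.1)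
        linarith
  rw [e, integral_add i1 i2]
  congr 1
  · unfold siteL
    rw [integral_prod_mul (f := fun x => W x * G x)
      (g := fun p : ℝ × ℕ => if p.2 < j then (1 : ℝ) else 0)]
    have h1 : ∫ p : ℝ × ℕ, (if p.2 < j then (1 : ℝ) else 0) ∂μ.prod π =
        ∫ g, (if g < j then (1 : ℝ) else 0) ∂π := by
      rw [integral_fun_snd (f := fun g : ℕ => if g < j then (1 : ℝ) else 0)]
      simp
    rw [h1, pi_lt]
    ring
  · unfold siteL
    rw [integral_prod_mul (f := fun x => W x)
      (g := fun p : ℝ × ℕ => G p.1 * (if p.2 < j then (0 : ℝ) else 1)),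
      integral_prod_mul (f := fun x => G x)
      (g := fun g : ℕ => (if g < j then (0 : ℝ) else 1)), pi_ge]
    simp only [integral_const_mul, integral_mul_const]
    ring

end Site

/-! ### the interpolation -/

section Main

variable {Ω ι : Type} [Fintype Ω] [Fintype ι] [DecidableEq ι] {w : Ω → ℝ} {x : Ω → ι → ℝ}

/-- the fields with noise on `S` -/
def Th (β : ℝ) (f : ι → ℝ) (i : ι) (δ s : ℝ) (j : ℕ) (S : Finset ι) (z : ι → ℝ × ℝ × ℕ) :
    ι → ℝ :=
  fun l => if l = i then f i + δ else if l ∈ S then β * mix j z l + f l + δ + s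
    else β * (z l).1 + f l + δ

omit [Fintype ι] in
theorem Th_empty (β : ℝ) (f : ι → ℝ) (i : ι) (δ s : ℝ) (j : ℕ) (z : ι → ℝ × ℝ × ℕ) :
    Th β f i δ s j ∅ z = fun l => β * Function.update (fun m => (z m).1) i 0 l + f l + δ := by
  funext l
  unfold Th
  by_cases hl : l = i
  · subst hl; simp
  · simp [hl]

omit [Fintype ι] in
theorem Th_upd (β : ℝ) (f : ι → ℝ) (i : ι) (δ s : ℝ) (j : ℕ) {S : Finset ι} {l : ι} (hl : l ≠ i)
    (hS : l ∉ S) (z : ι → ℝ × ℝ × ℕ) (u : ℝ × ℝ × ℕ) :
    Th β f i δ s j S (Function.update z l u) =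
      Function.update (Th β f i δ s j S z) l (β * u.1 + f l + δ) := by
  funext m
  by_cases hm : m = l
  · subst hm
    simp [Th, hl, hS]
  · rw [Function.update_of_ne hm]
    simp [Th, mix, Function.update_of_ne hm]

omit [Fintype ι] in
theorem Th_upd' (β : ℝ) (f : ι → ℝ) (i : ι) (δ s : ℝ) (j : ℕ) {S : Finset ι} {l : ι} (hl : l ≠ i)
    (z : ι → ℝ × ℝ × ℕ) (u : ℝ × ℝ × ℕ) :
    Th β f i δ s j (insert l S) (Function.update z l u) =
      Function.update (Th β f i δ s j S z) l
        (β * (if u.2.2 < j then u.1 else u.2.1) + s + f l + δ) := by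
  funext m
  by_cases hm : m = l
  · subst hm
    simp [Th, hl, mix]
    ring
  · rw [Function.update_of_ne hm]
    simp [Th, mix, hm]

omit [Fintype ι] [DecidableEq ι] in
theorem measurable_mix (j : ℕ) (l : ι) : Measurable fun z : ι → ℝ × ℝ × ℕ => mix j z l := by
  unfold mix
  have hz : Measurable fun z : ι → ℝ × ℝ × ℕ => z l := measurable_pi_apply l
  refine Measurable.ite ?_ hz.fst hz.snd.fst
  exact hz.snd.snd (MeasurableSet.of_discrete (s := {g : ℕ | g < j}))

omit [Fintype ι] in
theorem measurable_Th (β : ℝ) (f : ι → ℝ) (i : ι) (δ s : ℝ) (j : ℕ) (S : Finset ι) :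
    Measurable (Th β f i δ s j S) := by
  rw [measurable_pi_iff]
  intro l
  have hz : Measurable fun z : ι → ℝ × ℝ × ℕ => z l := measurable_pi_apply l
  by_cases hl : l = i
  · subst hl
    simp only [Th, if_true]
    exact measurable_const
  · by_cases hS : l ∈ S
    · simp only [Th, hl, hS, if_true, if_false]
      exact ((((measurable_mix j l).const_mul β).add_const _).add_const _).add_const _
    · simp only [Th, hl, hS, if_false]
      exact (((hz.fst).const_mul β).add_const _).add_const _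

omit [Fintype ι] in
theorem Th_bound {β : ℝ} (hβ : 0 < β) (f : ι → ℝ) (i : ι) (δ s : ℝ) (j : ℕ) (S : Finset ι)
    (z : ι → ℝ × ℝ × ℕ) (l : ι) :
    |Th β f i δ s j S z l| ≤ (|f l| + |δ| + |s|) + β * (|(z l).1| + |(z l).2.1|) := by
  have h1 : 0 ≤ |s| := abs_nonneg s
  have h2 : 0 ≤ β * |(z l).1| := mul_nonneg hβ.le (abs_nonneg _)
  have h3 : 0 ≤ β * |(z l).2.1| := mul_nonneg hβ.le (abs_nonneg _)
  by_cases hl : l = i
  · subst hl
    simp only [Th, if_true]
    have := abs_add_le (f l) δ
    linarith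
  · by_cases hS : l ∈ S
    · simp only [Th, hl, hS, if_true, if_false]
      have h4 := abs_add_le (β * mix j z l + f l + δ) s
      have h5 := abs_add_le (β * mix j z l + f l) δ
      have h6 := abs_add_le (β * mix j z l) (f l)
      have h7 : |β * mix j z l| ≤ β * |(z l).1| + β * |(z l).2.1| := by
        rw [abs_mul, abs_of_pos hβ]
        unfold mix
        split_ifs <;> linarith
      linarith
    · simp only [Th, hl, hS, if_false]
      have h5 := abs_add_le (β * (z l).1 + f l) δ
      have h6 := abs_add_le (β * (z l).1) (f l)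
      have h7 : |β * (z l).1| = β * |(z l).1| := by
        rw [abs_mul, abs_of_pos hβ]
      linarith

omit [DecidableEq ι] in
theorem int_pi {μ : Measure ℝ} [IsProbabilityMeasure μ] (π : Measure ℕ) [IsProbabilityMeasure π]
    (hμ : ExpMom μ) {H : (ι → ℝ × ℝ × ℕ) → ℝ} (hH : Measurable H) {B : ℝ}
    (hB : ∀ z, |H z| ≤ B * (1 + ∑ l, (|(z l).1| + |(z l).2.1|))) :
    Integrable H (Measure.pi fun _ : ι => siteL μ π) := by
  refine Integrable.mono' (g := fun z => B * (1 + ∑ l, (|(z l).1| + |(z l).2.1|))) ?_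
    hH.aestronglyMeasurable (ae_of_all _ fun u => by rw [Real.norm_eq_abs]; exact hB u)
  refine ((integrable_const 1).add (integrable_finsetSum _ fun l _ => ?_)).const_mul B
  have h : MeasurePreserving (Function.eval l) (Measure.pi fun _ : ι => siteL μ π) (siteL μ π) :=
    measurePreserving_eval (fun _ => siteL μ π) l
  exact h.integrable_comp_of_integrable ((int_fst π hμ).add (int_snd π hμ))

omit [DecidableEq ι] in
theorem mp_fst (μ : Measure ℝ) [IsProbabilityMeasure μ] (π : Measure ℕ) [IsProbabilityMeasure π] :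
    MeasurePreserving (fun (z : ι → ℝ × ℝ × ℕ) l => (z l).1)
      (Measure.pi fun _ : ι => siteL μ π) (Measure.pi fun _ : ι => μ) := by
  refine measurePreserving_pi (fun _ : ι => siteL μ π) (fun _ : ι => μ)
    (f := fun _ u => u.1) (fun l => ?_)
  unfold siteL
  exact measurePreserving_fst

omit [DecidableEq ι] in
theorem int_of_fst (μ : Measure ℝ) [IsProbabilityMeasure μ] (π : Measure ℕ)
    [IsProbabilityMeasure π] (H : (ι → ℝ) → ℝ) (hH : Measurable H) :
    ∫ z, H (fun l => (z l).1) ∂(Measure.pi fun _ : ι => siteL μ π) =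
      ∫ ω, H ω ∂(Measure.pi fun _ : ι => μ) := by
  have hm := mp_fst (ι := ι) μ π
  conv_rhs => rw [← hm.map_eq]
  rw [integral_map hm.measurable.aemeasurable hH.aestronglyMeasurable]

theorem pZ_nonneg (hE : EFam w x) (β : ℝ) (f : ι → ℝ) (i : ι) (ω : ι → ℝ) (δ : ℝ) :
    0 ≤ pZ w x β f i ω δ := pE_nonneg hE _ _

theorem pZ_le_one (hE : EFam w x) (β : ℝ) (f : ι → ℝ) (i : ι) (ω : ι → ℝ) (δ : ℝ) :
    pZ w x β f i ω δ ≤ 1 := pE_le_one hE _ _

theorem measurable_pZ (hE : EFam w x) (β : ℝ) (f : ι → ℝ) (i : ι) (δ : ℝ) :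
    Measurable fun ω => pZ w x β f i ω δ := by
  unfold pZ
  refine (continuous_pE hE i).measurable.comp ?_
  rw [measurable_pi_iff]
  intro l
  refine ((Measurable.const_mul ?_ β).add_const _).add_const _
  by_cases hl : l = i
  · subst hl
    simp only [Function.update_self]
    exact measurable_const
  · simp only [Function.update_of_ne hl]
    exact measurable_pi_apply l

/-- the integrand of the interpolation -/
def K (w : Ω → ℝ) (x : Ω → ι → ℝ) (β : ℝ) (f : ι → ℝ) (i : ι) (δ s : ℝ) (j : ℕ) (S : Finset ι)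
    (z : ι → ℝ × ℝ × ℕ) : ℝ :=
  pZ w x β f i (fun l => (z l).1) δ ^ 2 * Real.log (pE w x (Th β f i δ s j S z) i)

theorem measurable_K (hE : EFam w x) (β : ℝ) (f : ι → ℝ) (i : ι) (δ s : ℝ) (j : ℕ)
    (S : Finset ι) : Measurable (K w x β f i δ s j S) := by
  unfold K
  refine Measurable.mul (Measurable.pow_const ?_ 2) ?_
  · refine (measurable_pZ hE β f i δ).comp ?_
    rw [measurable_pi_iff]
    intro l
    exact (measurable_pi_apply l).fst
  · exact Real.measurable_log.comp ((continuous_pE hE i).measurable.comp (measurable_Th β f i δ s j S))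

theorem log_bound (hE : EFam w x) (h01 : ∀ s i, x s i = 0 ∨ x s i = 1) (i : ι)
    (hp : ∀ θ, 0 < pE w x θ i) {β : ℝ} (hβ : 0 < β) (f : ι → ℝ) (δ s : ℝ) (j : ℕ)
    (S : Finset ι) (z : ι → ℝ × ℝ × ℕ) :
    |Real.log (pE w x (Th β f i δ s j S z) i)| ≤
      (|Real.log (pE w x (fun _ => 0) i)| + ∑ l, (|f l| + |δ| + |s|) + β) *
        (1 + ∑ l, (|(z l).1| + |(z l).2.1|)) := by
  have h1 := logpE_lip hE h01 i hp (Th β f i δ s j S z) (fun _ => 0)
  have h2 : ∑ l, |Th β f i δ s j S z l - 0| ≤
      ∑ l, (|f l| + |δ| + |s|) + β * ∑ l, (|(z l).1| + |(z l).2.1|) := by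
    rw [Finset.mul_sum, ← Finset.sum_add_distrib]
    refine Finset.sum_le_sum fun l _ => ?_
    rw [sub_zero]
    exact Th_bound hβ f i δ s j S z l
  have h3 := abs_sub_abs_le_abs_sub (Real.log (pE w x (Th β f i δ s j S z) i))
    (Real.log (pE w x (fun _ => 0) i))
  have h4 : 0 ≤ ∑ l, (|(z l).1| + |(z l).2.1|) :=
    Finset.sum_nonneg fun l _ => add_nonneg (abs_nonneg _) (abs_nonneg _)
  have h5 : 0 ≤ ∑ l, (|f l| + |δ| + |s|) :=
    Finset.sum_nonneg fun l _ => add_nonneg (add_nonneg (abs_nonneg _) (abs_nonneg _)) (abs_nonneg _)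
  have h6 := abs_nonneg (Real.log (pE w x (fun _ => 0) i))
  nlinarith [mul_nonneg (add_nonneg h6 h5) h4]

theorem integrable_K {μ : Measure ℝ} [IsProbabilityMeasure μ] (π : Measure ℕ)
    [IsProbabilityMeasure π] (hμ : ExpMom μ) (hE : EFam w x)
    (h01 : ∀ s i, x s i = 0 ∨ x s i = 1) (i : ι)
    (hp : ∀ θ, 0 < pE w x θ i) {β : ℝ} (hβ : 0 < β) (f : ι → ℝ) (δ s : ℝ) (j : ℕ)
    (S : Finset ι) : Integrable (K w x β f i δ s j S) (Measure.pi fun _ : ι => siteL μ π) := by
  refine int_pi π hμ (measurable_K hE β f i δ s j S)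
    (B := |Real.log (pE w x (fun _ => 0) i)| + ∑ l, (|f l| + |δ| + |s|) + β) (fun z => ?_)
  refine le_trans ?_ (log_bound hE h01 i hp hβ f δ s j S z)
  unfold K
  have h1 := pZ_nonneg hE β f i (fun l => (z l).1) δ
  have h2 := pZ_le_one hE β f i (fun l => (z l).1) δ
  rw [abs_mul]
  have h3 : |pZ w x β f i (fun l => (z l).1) δ ^ 2| ≤ 1 := by
    rw [abs_of_nonneg (sq_nonneg _)]
    exact pow_le_one₀ h1 h2
  have h4 := abs_nonneg (Real.log (pE w x (Th β f i δ s j S z) i))
  nlinarith

theorem pZ_update (β : ℝ) (f : ι → ℝ) {i l : ι} (hl : l ≠ i) (ω : ι → ℝ) (δ t : ℝ) :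
    pZ w x β f i (Function.update ω l t) δ =
      pE w x (Function.update (fun m => β * Function.update ω i 0 m + f m + δ) l
        (β * t + f l + δ)) i := by
  unfold pZ
  congr 1
  funext m
  by_cases hm : m = l
  · subst hm
    rw [Function.update_self, Function.update_of_ne hl, Function.update_self]
  · rw [Function.update_of_ne hm]
    by_cases hi : m = i
    · subst hi
      rw [Function.update_self, Function.update_self]
    · rw [Function.update_of_ne hi, Function.update_of_ne hi, Function.update_of_ne hm]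

theorem step (μ : Measure ℝ) [IsProbabilityMeasure μ] (π : Measure ℕ) [IsProbabilityMeasure π]
    (hμ : ExpMom μ) {β : ℝ} (hβ : 0 < β) (s : ℝ) (j : ℕ)
    (hone : ∀ w v G : ℝ → ℝ, Measurable w → (∀ x, 0 ≤ w x) →
        (∀ x x', w x ≤ Real.exp (2 * β * |x - x'|) * w x') →
        (∀ y, HasDerivAt G (v y) y) → (∀ y, 0 ≤ v y) →
        (∀ y y', v y ≤ Real.exp (2 * |y - y'|) * v y') →
      ∫ x, w x * G (β * x) ∂μ ≤ (1 - (π {g | j ≤ g}).toReal) * ∫ x, w x * G (β * x + s) ∂μ +
        (π {g | j ≤ g}).toReal * ∫ x, ∫ y, w x * G (β * y + s) ∂μ ∂μ)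
    (hE : EFam w x) (h01 : ∀ s i, x s i = 0 ∨ x s i = 1) (i : ι)
    (hp : ∀ θ, 0 < pE w x θ i) (f : ι → ℝ) (δ : ℝ)
    {S : Finset ι} {l : ι} (hl : l ≠ i) (hS : l ∉ S) :
    ∫ z, K w x β f i δ s j S z ∂(Measure.pi fun _ : ι => siteL μ π) ≤
      ∫ z, K w x β f i δ s j (insert l S) z ∂(Measure.pi fun _ : ι => siteL μ π) := by
  have iK := fun S => integrable_K π hμ hE h01 i hp hβ f δ s j S
  rw [integral_upd (siteL μ π) l _ (iK S), integral_upd (siteL μ π) l _ (iK (insert l S))]
  refine integral_mono (integrable_upd (siteL μ π) l _ (iK S))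
    (integrable_upd (siteL μ π) l _ (iK (insert l S))) (fun z => ?_)
  obtain ⟨W, hW⟩ : ∃ W : ℝ → ℝ, W = fun t =>
    pZ w x β f i (Function.update (fun m => (z m).1) l t) δ ^ 2 := ⟨_, rfl⟩
  obtain ⟨G, hG⟩ : ∃ G : ℝ → ℝ, G = fun t =>
    Real.log (pE w x (Function.update (Th β f i δ s j S z) l (t + (f l + δ))) i) := ⟨_, rfl⟩
  obtain ⟨v, hv⟩ : ∃ v : ℝ → ℝ, v = fun t =>
    cE w x (Function.update (Th β f i δ s j S z) l (t + (f l + δ))) i l /
      pE w x (Function.update (Th β f i δ s j S z) l (t + (f l + δ))) i := ⟨_, rfl⟩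
  have hf : ∀ u : ℝ × ℝ × ℕ, (fun m => (Function.update z l u m).1) =
      Function.update (fun m => (z m).1) l u.1 := by
    intro u
    funext m
    by_cases hm : m = l
    · subst hm; simp
    · simp [Function.update_of_ne hm]
  have e1 : ∀ u, K w x β f i δ s j S (Function.update z l u) = W u.1 * G (β * u.1) := by
    intro u
    rw [hW, hG]
    unfold K
    rw [hf, Th_upd β f i δ s j hl hS]
    simp only [add_assoc]
  have e2 : ∀ u, K w x β f i δ s j (insert l S) (Function.update z l u) =
      W u.1 * G (β * (if u.2.2 < j then u.1 else u.2.1) + s) := by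
    intro u
    rw [hW, hG]
    unfold K
    rw [hf, Th_upd' β f i δ s j hl]
    simp only [add_assoc]
  simp only [e1, e2]
  have hWm : Measurable W := by
    rw [hW]
    refine Measurable.pow_const ((measurable_pZ hE β f i δ).comp ?_) 2
    rw [measurable_pi_iff]
    intro m
    by_cases hm : m = l
    · subst hm
      simp only [Function.update_self]
      exact measurable_id'
    · simp only [Function.update_of_ne hm]
      exact measurable_const
  have hW0 : ∀ t, 0 ≤ W t := fun t => by rw [hW]; exact sq_nonneg _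
  have hW1 : ∀ t, |W t| ≤ 1 := fun t => by
    rw [abs_of_nonneg (hW0 t), hW]
    exact pow_le_one₀ (pZ_nonneg hE _ _ _ _ _) (pZ_le_one hE _ _ _ _ _)
  have hWr : ∀ t t', W t ≤ Real.exp (2 * β * |t - t'|) * W t' := by
    intro t t'
    rw [hW]
    simp only [pZ_update β f hl]
    have h1 := pE_update_le hE h01 (fun m => β * Function.update (fun m => (z m).1) i 0 m + f m + δ)
      i l (β * t + f l + δ) (β * t' + f l + δ)
    have h2 : |β * t + f l + δ - (β * t' + f l + δ)| = β * |t - t'| := by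
      rw [← abs_of_pos hβ, ← abs_mul, abs_of_pos hβ]
      congr 1
      ring
    rw [h2] at h1
    calc pE w x (Function.update (fun m => β * Function.update (fun m => (z m).1) i 0 m + f m + δ)
          l (β * t + f l + δ)) i ^ 2 ≤
        (Real.exp (β * |t - t'|) * pE w x (Function.update
          (fun m => β * Function.update (fun m => (z m).1) i 0 m + f m + δ)
          l (β * t' + f l + δ)) i) ^ 2 := pow_le_pow_left₀ (pE_nonneg hE _ _) h1 2
      _ = _ := by
        rw [mul_pow, ← Real.exp_nat_mul]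
        congr 2
        push_cast
        ring
  have hd : ∀ y, HasDerivAt G (v y) y := by
    intro y
    rw [hG, hv]
    exact (hasDerivAt_logpE hE (Th β f i δ s j S z) i l hp (y + (f l + δ))).comp_add_const y (f l + δ)
  have hv0 : ∀ y, 0 ≤ v y := fun y => by
    rw [hv]
    exact div_nonneg (hE.corr _ _ _) (hp _).le
  have hvr : ∀ y y', v y ≤ Real.exp (2 * |y - y'|) * v y' := by
    intro y y'
    rw [hv]
    have h1 := cE_update_le hE h01 (Th β f i δ s j S z) i l (y + (f l + δ)) (y' + (f l + δ))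
    have h2 := pE_update_le hE h01 (Th β f i δ s j S z) i l (y' + (f l + δ)) (y + (f l + δ))
    rw [abs_sub_comm] at h2
    have h3 : |y + (f l + δ) - (y' + (f l + δ))| = |y - y'| := by congr 1; ring
    rw [h3] at h1 h2
    have h4 := hp (Function.update (Th β f i δ s j S z) l (y + (f l + δ)))
    have h5 := hp (Function.update (Th β f i δ s j S z) l (y' + (f l + δ)))
    have h6 := hE.corr (Function.update (Th β f i δ s j S z) l (y' + (f l + δ))) i l
    have h7 : Real.exp (2 * |y - y'|) = Real.exp |y - y'| * Real.exp |y - y'| := by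
      rw [← Real.exp_add]; congr 1; ring
    simp only
    rw [h7, ← mul_div_assoc, div_le_div_iff₀ h4 h5]
    calc cE w x (Function.update (Th β f i δ s j S z) l (y + (f l + δ))) i l *
          pE w x (Function.update (Th β f i δ s j S z) l (y' + (f l + δ))) i ≤
        (Real.exp |y - y'| *
          cE w x (Function.update (Th β f i δ s j S z) l (y' + (f l + δ))) i l) *
        (Real.exp |y - y'| * pE w x (Function.update (Th β f i δ s j S z) l (y + (f l + δ))) i) :=
          mul_le_mul h1 h2 h5.le (mul_nonneg (Real.exp_pos _).le h6)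
      _ = _ := by ring
  have hGm : Measurable G := (continuous_iff_continuousAt.2 fun y => (hd y).continuousAt).measurable
  have hGb : ∀ t, |G t| ≤ |G 0| + |t| := by
    intro t
    have h1 := logpE_update hE h01 i hp (Th β f i δ s j S z) l (t + (f l + δ)) (0 + (f l + δ))
    have h2 : |t + (f l + δ) - (0 + (f l + δ))| = |t| := by congr 1; ring
    rw [h2] at h1
    have h3 := abs_sub_abs_le_abs_sub (G t) (G 0)
    have h4 : |G t - G 0| ≤ |t| := by rw [hG]; exact h1
    linarith
  have h1 := hone W v G hWm hW0 hWr hd hv0 hvr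
  have h2 := site_mix π hμ j (W := W) (G := fun t => G (β * t + s)) hWm hW1
    (hGm.comp ((measurable_id.const_mul β).add_const s)) (|G 0| + |s| + β) (fun t => by
      have h3 := hGb (β * t + s)
      have h4 := abs_add_le (β * t) s
      rw [abs_mul, abs_of_pos hβ] at h4
      have h5 := mul_nonneg (add_nonneg (abs_nonneg (G 0)) (abs_nonneg s)) (abs_nonneg t)
      have h6 := abs_nonneg t
      nlinarith)
  rw [site_one μ π (fun t => W t * G (β * t)), h2]
  exact h1

end Main

end V6

theorem stab (μ : Measure ℝ) [IsProbabilityMeasure μ] (hμ : ExpMom μ) {β : ℝ} (hβ : 0 < β) :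
    ∃ A η₀ : ℝ, 0 < A ∧ 0 < η₀ ∧ η₀ ≤ 1 / 2 ∧ A * η₀ ≤ 1 / 4 ∧
      ∀ {Ω ι : Type} [Fintype Ω] [Fintype ι] [DecidableEq ι] {w : Ω → ℝ} {x : Ω → ι → ℝ},
        EFam w x → (∀ s i, x s i = 0 ∨ x s i = 1) → ∀ (f : ι → ℝ) (i : ι)
        (π : Measure ℕ) [IsProbabilityMeasure π] (j : ℕ), (π {g | j ≤ g}).toReal ≤ η₀ →
        ∀ (δ a : ℝ), 0 ≤ a →
      Real.exp (-a) * ((1 + a) * ∫ ω, pZ w x β f i ω δ ^ 2 ∂Measure.pi (fun _ : ι => μ) -
        Real.exp (-1) * ∫ ω, pZ w x β f i ω δ ∂Measure.pi (fun _ : ι => μ)) ≤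
      ∫ z, pZ w x β f i (fun l => (z l).1) δ *
        pZ w x β f i (mix j z) (δ + A * (π {g | j ≤ g}).toReal)
        ∂Measure.pi (fun _ : ι => siteL μ π) := by
  obtain ⟨A, η₀, hA, hη0, hη2, hAη, hone⟩ := one_noise μ hμ hβ
  refine ⟨A, η₀, hA, hη0, hη2, hAη, ?_⟩
  intro Ω ι _ _ _ w x hE h01 f i π _ j hj δ a ha
  rcases pE_pos_or hE i with hp | hp
  swap
  · simp [pZ, hp]
  have hη := hone (π {g | j ≤ g}).toReal ENNReal.toReal_nonneg hj
  obtain ⟨s, hs⟩ : ∃ s, s = A * (π {g | j ≤ g}).toReal := ⟨_, rfl⟩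
  have hs0 : 0 ≤ s := by rw [hs]; exact mul_nonneg hA.le ENNReal.toReal_nonneg
  rw [← hs] at hη ⊢
  have iK := fun S => V6.integrable_K π hμ hE h01 i hp hβ f δ s j S
  -- the interpolation
  have hI : ∀ S : Finset ι, i ∉ S →
      ∫ z, V6.K w x β f i δ s j ∅ z ∂(Measure.pi fun _ : ι => siteL μ π) ≤
      ∫ z, V6.K w x β f i δ s j S z ∂(Measure.pi fun _ : ι => siteL μ π) := by
    intro S
    induction S using Finset.induction_on with
    | empty => intro _; exact le_rfl
    | insert l S hl ih =>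
      intro h
      rw [Finset.mem_insert, not_or] at h
      exact (ih h.2).trans (V6.step μ π hμ hβ s j hη hE h01 i hp f δ (Ne.symm h.1) hl)
  have hI1 := hI (univ.erase i) (Finset.notMem_erase i univ)
  -- measurability and integrability of the densities
  have mF := V6.measurable_pZ hE β f i δ
  have mFz : Measurable fun z : ι → ℝ × ℝ × ℕ => pZ w x β f i (fun l => (z l).1) δ := by
    refine mF.comp ?_
    rw [measurable_pi_iff]
    intro l
    exact (measurable_pi_apply l).fst
  have mHz : Measurable fun z : ι → ℝ × ℝ × ℕ => pZ w x β f i (mix j z) (δ + s) := by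
    refine (V6.measurable_pZ hE β f i (δ + s)).comp ?_
    rw [measurable_pi_iff]
    intro l
    exact V6.measurable_mix j l
  have bF : ∀ z : ι → ℝ × ℝ × ℕ, 0 ≤ pZ w x β f i (fun l => (z l).1) δ ∧
      pZ w x β f i (fun l => (z l).1) δ ≤ 1 := fun z =>
    ⟨V6.pZ_nonneg hE _ _ _ _ _, V6.pZ_le_one hE _ _ _ _ _⟩
  have bH : ∀ z : ι → ℝ × ℝ × ℕ, 0 ≤ pZ w x β f i (mix j z) (δ + s) ∧
      pZ w x β f i (mix j z) (δ + s) ≤ 1 := fun z =>
    ⟨V6.pZ_nonneg hE _ _ _ _ _, V6.pZ_le_one hE _ _ _ _ _⟩
  have i1 : Integrable (fun z : ι → ℝ × ℝ × ℕ => pZ w x β f i (fun l => (z l).1) δ)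
      (Measure.pi fun _ : ι => siteL μ π) :=
    Integrable.of_bound mFz.aestronglyMeasurable 1 (ae_of_all _ fun z => by
      rw [Real.norm_eq_abs, abs_of_nonneg (bF z).1]; exact (bF z).2)
  have i2 : Integrable (fun z : ι → ℝ × ℝ × ℕ => pZ w x β f i (fun l => (z l).1) δ ^ 2)
      (Measure.pi fun _ : ι => siteL μ π) :=
    Integrable.of_bound (mFz.pow_const 2).aestronglyMeasurable 1 (ae_of_all _ fun z => by
      rw [Real.norm_eq_abs, abs_of_nonneg (sq_nonneg _)]
      exact pow_le_one₀ (bF z).1 (bF z).2)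
  have i3 : Integrable (fun z : ι → ℝ × ℝ × ℕ => pZ w x β f i (fun l => (z l).1) δ *
      pZ w x β f i (mix j z) (δ + s)) (Measure.pi fun _ : ι => siteL μ π) :=
    Integrable.of_bound (mFz.mul mHz).aestronglyMeasurable 1 (ae_of_all _ fun z => by
      rw [Real.norm_eq_abs, abs_of_nonneg (mul_nonneg (bF z).1 (bH z).1)]
      exact mul_le_one₀ (bF z).2 (bH z).1 (bH z).2)
  -- the start of the interpolation
  have h0 : -(Real.exp (-1) * ∫ z, pZ w x β f i (fun l => (z l).1) δ
        ∂(Measure.pi fun _ : ι => siteL μ π)) ≤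
      ∫ z, V6.K w x β f i δ s j ∅ z ∂(Measure.pi fun _ : ι => siteL μ π) := by
    rw [← integral_const_mul, ← integral_neg]
    refine integral_mono (i1.const_mul _).neg (iK ∅) (fun z => ?_)
    unfold V6.K
    simp only
    rw [V6.Th_empty]
    have e : pE w x (fun l => β * Function.update (fun m => (z m).1) i 0 l + f l + δ) i =
      pZ w x β f i (fun l => (z l).1) δ := rfl
    rw [e]
    have hF : 0 < pZ w x β f i (fun l => (z l).1) δ := hp _
    obtain ⟨F, hFd⟩ : ∃ F, F = pZ w x β f i (fun l => (z l).1) δ := ⟨_, rfl⟩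
    rw [← hFd] at hF ⊢
    have h1 := Real.log_le_sub_one_of_pos (inv_pos.2 (mul_pos (Real.exp_pos 1) hF))
    rw [Real.log_inv, Real.log_mul (Real.exp_pos 1).ne' hF.ne', Real.log_exp] at h1
    have h2 : F * (Real.exp 1 * F)⁻¹ = Real.exp (-1) := by
      rw [Real.exp_neg, mul_inv]
      field_simp
    have h3 : -(Real.log F) ≤ (Real.exp 1 * F)⁻¹ := by linarith
    have h4 : F * -(Real.log F) ≤ Real.exp (-1) := by
      rw [← h2]; exact mul_le_mul_of_nonneg_left h3 hF.le
    nlinarith
  -- the pointwise bound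
  have hpt : ∀ z : ι → ℝ × ℝ × ℕ,
      Real.exp (-a) * ((1 + a) * pZ w x β f i (fun l => (z l).1) δ ^ 2 +
        V6.K w x β f i δ s j (univ.erase i) z) ≤
      pZ w x β f i (fun l => (z l).1) δ * pZ w x β f i (mix j z) (δ + s) := by
    intro z
    have hF : 0 < pZ w x β f i (fun l => (z l).1) δ := hp _
    have hF1 := (bF z).2
    have hH : 0 < pZ w x β f i (mix j z) (δ + s) := hp _
    have hL : Real.log (pE w x (V6.Th β f i δ s j (univ.erase i) z) i) ≤
        Real.log (pZ w x β f i (mix j z) (δ + s)) := by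
      refine Real.log_le_log (hp _) (pE_mono_all hE (fun l => ?_) i)
      unfold V6.Th
      by_cases hl : l = i
      · subst hl
        simp only [if_true, Function.update_self]
        linarith
      · simp only [hl, if_false, Finset.mem_erase, Finset.mem_univ, ne_eq, not_false_eq_true,
          and_true, if_true, Function.update_of_ne hl]
        linarith
    unfold V6.K
    obtain ⟨F, hFd⟩ : ∃ F, F = pZ w x β f i (fun l => (z l).1) δ := ⟨_, rfl⟩
    obtain ⟨H, hHd⟩ : ∃ H, H = pZ w x β f i (mix j z) (δ + s) := ⟨_, rfl⟩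
    obtain ⟨L, hLd⟩ : ∃ L, L = Real.log (pE w x (V6.Th β f i δ s j (univ.erase i) z) i) := ⟨_, rfl⟩
    rw [← hFd] at hF hF1 ⊢
    rw [← hHd] at hH hL ⊢
    rw [← hLd] at hL ⊢
    have h1 := Real.add_one_le_exp (Real.log H + a)
    rw [Real.exp_add, Real.exp_log hH] at h1
    have h2 : Real.exp (-a) * Real.exp a = 1 := by rw [← Real.exp_add]; simp
    have h3 : Real.exp (-a) * (1 + a + L) ≤ H := by
      have h4 : Real.exp (-a) * (1 + a + L) ≤ Real.exp (-a) * (H * Real.exp a) :=
        mul_le_mul_of_nonneg_left (by linarith) (Real.exp_pos _).le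
      calc _ ≤ _ := h4
        _ = H * (Real.exp (-a) * Real.exp a) := by ring
        _ = H := by rw [h2, mul_one]
    calc Real.exp (-a) * ((1 + a) * F ^ 2 + F ^ 2 * L) = F ^ 2 * (Real.exp (-a) * (1 + a + L)) := by
          ring
      _ ≤ F ^ 2 * H := mul_le_mul_of_nonneg_left h3 (sq_nonneg _)
      _ ≤ F * H := by
        refine mul_le_mul_of_nonneg_right ?_ hH.le
        nlinarith
  have hfin := integral_mono (((i2.const_mul (1 + a)).add (iK (univ.erase i))).const_mul
    (Real.exp (-a))) i3 hpt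
  rw [integral_const_mul] at hfin
  refine le_trans ?_ hfin
  refine mul_le_mul_of_nonneg_left ?_ (Real.exp_pos _).le
  have e1 : ∫ z, ((1 + a) * pZ w x β f i (fun l => (z l).1) δ ^ 2 +
        V6.K w x β f i δ s j (univ.erase i) z) ∂(Measure.pi fun _ : ι => siteL μ π) =
      (1 + a) * ∫ z, pZ w x β f i (fun l => (z l).1) δ ^ 2
        ∂(Measure.pi fun _ : ι => siteL μ π) +
      ∫ z, V6.K w x β f i δ s j (univ.erase i) z ∂(Measure.pi fun _ : ι => siteL μ π) := by
    rw [← integral_const_mul]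
    exact integral_add (i2.const_mul (1 + a)) (iK (univ.erase i))
  have e2 := V6.int_of_fst μ π (fun ω : ι → ℝ => pZ w x β f i ω δ) mF
  have e3 := V6.int_of_fst μ π (fun ω : ι → ℝ => pZ w x β f i ω δ ^ 2) (mF.pow_const 2)
  rw [← e2, ← e3]
  refine le_trans ?_ (le_of_eq e1.symm)
  linarith

end

end Pool.Agent.OT
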