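import Mathlib
import Pool.Agent.Lib.MP_daa227_pr_OT.Defs2
import Pool.Agent.Lib.MP_daa227_pr_OT.EFc
import Pool.Agent.Lib.MP_daa227_pr_OT.Cmp
import Pool.Agent.Lib.MP_daa227_pr_OT.Stab
import Pool.Agent.Lib.MP_daa227_pr_OT.Gain

/-!
# The multiscale inequality for all charge laws (module V8)
-/

namespace Pool.Agent.OT

open MeasureTheory ProbabilityTheory Finset Filter Topology
open MP_daa227_pr (Chain Zk Zf K0 shift seqLaw ExpMom)

noncomputable section

namespace V8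

section Gen

variable {ι α : Type*} [Fintype ι] [DecidableEq ι] [MeasurableSpace α]

theorem meas_update (i : ι) :
    Measurable (fun p : (ι → α) × α => Function.update p.1 i p.2) := by
  rw [measurable_pi_iff]
  intro l
  by_cases h : l = i
  · subst h
    simp only [Function.update_self]
    exact measurable_snd
  · simp only [Function.update_of_ne h]
    exact (measurable_pi_apply l).comp measurable_fst

/-- resampling of one coordinate -/
theorem mp_update (ρ : Measure α) [IsProbabilityMeasure ρ] (i : ι) :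
    MeasurePreserving (fun p : (ι → α) × α => Function.update p.1 i p.2)
      ((Measure.pi fun _ : ι => ρ).prod ρ) (Measure.pi fun _ : ι => ρ) := by
  refine ⟨meas_update i, ?_⟩
  symm
  refine Measure.pi_eq fun s hs => ?_
  rw [Measure.map_apply (meas_update i) (MeasurableSet.univ_pi hs)]
  have h1 : (fun p : (ι → α) × α => Function.update p.1 i p.2) ⁻¹' (Set.univ.pi s) =
      (Set.univ.pi (Function.update s i Set.univ)) ×ˢ s i := by
    ext p
    simp only [Set.mem_preimage, Set.mem_pi, Set.mem_univ, true_implies, Set.mem_prod]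
    constructor
    · intro h
      refine ⟨fun l => ?_, ?_⟩
      · by_cases hl : l = i
        · subst hl; rw [Function.update_self]; exact Set.mem_univ _
        · rw [Function.update_of_ne hl]
          have := h l
          rwa [Function.update_of_ne hl] at this
      · have := h i
        rwa [Function.update_self] at this
    · rintro ⟨h1, h2⟩ l
      by_cases hl : l = i
      · subst hl; rw [Function.update_self]; exact h2
      · rw [Function.update_of_ne hl]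
        have := h1 l
        rwa [Function.update_of_ne hl] at this
  rw [h1, Measure.prod_prod, Measure.pi_pi]
  rw [← Finset.mul_prod_erase Finset.univ _ (Finset.mem_univ i),
    ← Finset.mul_prod_erase Finset.univ (fun l => ρ (s l)) (Finset.mem_univ i),
    Function.update_self, measure_univ, one_mul, mul_comm]
  congr 1
  refine Finset.prod_congr rfl fun l hl => ?_
  rw [Function.update_of_ne (Finset.ne_of_mem_erase hl)]

theorem indep (ρ : Measure α) [IsProbabilityMeasure ρ] (i : ι) (h : α → ℝ) (hh : Measurable h)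
    (F : (ι → α) → ℝ) (hF : Measurable F) (hdep : ∀ z a, F (Function.update z i a) = F z) :
    ∫ z, h (z i) * F z ∂(Measure.pi fun _ : ι => ρ) =
      (∫ a, h a ∂ρ) * ∫ z, F z ∂(Measure.pi fun _ : ι => ρ) := by
  have hm := mp_update ρ i
  have hG : Measurable (fun z : ι → α => h (z i) * F z) :=
    (hh.comp (measurable_pi_apply i)).mul hF
  calc ∫ z, h (z i) * F z ∂(Measure.pi fun _ : ι => ρ) =
      ∫ z, h (z i) * F z ∂(Measure.map (fun p : (ι → α) × α => Function.update p.1 i p.2)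
        ((Measure.pi fun _ : ι => ρ).prod ρ)) := by rw [hm.map_eq]
    _ = ∫ p, h ((Function.update p.1 i p.2) i) * F (Function.update p.1 i p.2)
        ∂((Measure.pi fun _ : ι => ρ).prod ρ) :=
        integral_map hm.measurable.aemeasurable hG.aestronglyMeasurable
    _ = ∫ p : (ι → α) × α, F p.1 * h p.2 ∂((Measure.pi fun _ : ι => ρ).prod ρ) := by
        refine integral_congr_ae (Eventually.of_forall fun p => ?_)
        show h ((Function.update p.1 i p.2) i) * F (Function.update p.1 i p.2) = F p.1 * h p.2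
        rw [Function.update_self, hdep, mul_comm]
    _ = _ := by rw [integral_prod_mul, mul_comm]

end Gen

theorem int_split {ι : Type*} [Fintype ι] (μ : Measure ℝ) [IsProbabilityMeasure μ]
    (π : Measure ℕ) [IsProbabilityMeasure π] (Φ : (ι → ℝ) → (ι → ℝ × ℕ) → ℝ)
    (hΦ : Measurable (fun p : (ι → ℝ) × (ι → ℝ × ℕ) => Φ p.1 p.2)) {B : ℝ}
    (hB : ∀ ω y, |Φ ω y| ≤ B) :
    Integrable (fun y => ∫ ω, Φ ω y ∂Measure.pi fun _ : ι => μ)
      (Measure.pi fun _ : ι => μ.prod π) ∧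
    ∫ y, ∫ ω, Φ ω y ∂(Measure.pi fun _ : ι => μ) ∂(Measure.pi fun _ : ι => μ.prod π) =
      ∫ z, Φ (fun l => (z l).1) (fun l => (z l).2) ∂(Measure.pi fun _ : ι => siteL μ π) := by
  have hI : Integrable (fun p : (ι → ℝ) × (ι → ℝ × ℕ) => Φ p.1 p.2)
      ((Measure.pi fun _ : ι => μ).prod (Measure.pi fun _ : ι => μ.prod π)) := by
    refine Integrable.of_bound hΦ.aestronglyMeasurable B (Eventually.of_forall fun p => ?_)
    rw [Real.norm_eq_abs]
    exact hB _ _
  refine ⟨hI.integral_prod_right, ?_⟩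
  have hm := measurePreserving_arrowProdEquivProdArrow ℝ (ℝ × ℕ) ι (fun _ => μ)
    (fun _ => μ.prod π)
  rw [← integral_prod_symm _ hI]
  unfold siteL
  rw [← hm.map_eq, integral_map hm.measurable.aemeasurable hΦ.aestronglyMeasurable]
  rfl


section Mix

variable {ι : Type*} [Fintype ι]

/-- the charge kept at a site -/
def keep (j : ℕ) (p : ℝ × ℝ × ℕ) : ℝ := if p.2.2 < j then p.1 else p.2.1

theorem keep_meas (j : ℕ) : Measurable (keep j) := by
  unfold keep
  refine Measurable.ite ?_ measurable_fst (measurable_fst.comp measurable_snd)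
  exact (measurable_snd.comp measurable_snd) (MeasurableSet.of_discrete (s := {g : ℕ | g < j}))

theorem mp_keep (μ : Measure ℝ) [IsProbabilityMeasure μ] (π : Measure ℕ) [IsProbabilityMeasure π]
    (j : ℕ) : MeasurePreserving (keep j) (siteL μ π) μ := by
  refine ⟨keep_meas j, ?_⟩
  ext s hs
  rw [Measure.map_apply (keep_meas j) hs]
  have h1 : keep j ⁻¹' s = (s ×ˢ (Set.univ ×ˢ {g : ℕ | g < j})) ∪
      (Set.univ ×ˢ (s ×ˢ {g : ℕ | g < j}ᶜ)) := by
    ext p
    simp only [keep, Set.mem_preimage, Set.mem_union, Set.mem_prod, Set.mem_univ, true_and,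
      Set.mem_ofPred_eq, Set.mem_compl_iff]
    by_cases h : p.2.2 < j
    · simp [h]
    · simp [h]
  have hd : Disjoint (s ×ˢ ((Set.univ : Set ℝ) ×ˢ {g : ℕ | g < j}))
      ((Set.univ : Set ℝ) ×ˢ (s ×ˢ {g : ℕ | g < j}ᶜ)) := by
    rw [Set.disjoint_left]
    intro p hp hq
    exact hq.2.2 hp.2.2
  have hm : MeasurableSet ((Set.univ : Set ℝ) ×ˢ (s ×ˢ {g : ℕ | g < j}ᶜ)) :=
    MeasurableSet.univ.prod (hs.prod MeasurableSet.of_discrete)
  rw [h1, measure_union hd hm]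
  unfold siteL
  rw [Measure.prod_prod, Measure.prod_prod, Measure.prod_prod, Measure.prod_prod, measure_univ,
    one_mul, one_mul, ← mul_add, measure_add_measure_compl MeasurableSet.of_discrete, measure_univ,
    mul_one]

theorem mp_mix (μ : Measure ℝ) [IsProbabilityMeasure μ] (π : Measure ℕ) [IsProbabilityMeasure π]
    (j : ℕ) : MeasurePreserving (mix j : (ι → ℝ × ℝ × ℕ) → ι → ℝ)
      (Measure.pi fun _ : ι => siteL μ π) (Measure.pi fun _ : ι => μ) := by
  have : IsProbabilityMeasure (siteL μ π) := by unfold siteL; infer_instance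
  exact measurePreserving_pi (fun _ : ι => siteL μ π) (fun _ : ι => μ)
    (fun _ => mp_keep μ π j)

theorem meas_mix (j : ℕ) : Measurable (mix j : (ι → ℝ × ℝ × ℕ) → ι → ℝ) := by
  rw [measurable_pi_iff]
  intro l
  exact (keep_meas j).comp (measurable_pi_apply l)

theorem int_fst (μ : Measure ℝ) [IsProbabilityMeasure μ] (π : Measure ℕ) [IsProbabilityMeasure π]
    (F : (ι → ℝ) → ℝ) (hF : Measurable F) :
    ∫ z, F (fun l => (z l).1) ∂(Measure.pi fun _ : ι => siteL μ π) =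
      ∫ ω, F ω ∂(Measure.pi fun _ : ι => μ) := by
  have : IsProbabilityMeasure (siteL μ π) := by unfold siteL; infer_instance
  have hm : MeasurePreserving (fun (z : ι → ℝ × ℝ × ℕ) l => (z l).1)
      (Measure.pi fun _ : ι => siteL μ π) (Measure.pi fun _ : ι => μ) :=
    measurePreserving_pi (fun _ : ι => siteL μ π) (fun _ : ι => μ)
      (fun _ => measurePreserving_fst)
  rw [← hm.map_eq, integral_map hm.measurable.aemeasurable hF.aestronglyMeasurable]

theorem int_mix (μ : Measure ℝ) [IsProbabilityMeasure μ] (π : Measure ℕ) [IsProbabilityMeasure π]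
    (j : ℕ) (F : (ι → ℝ) → ℝ) (hF : Measurable F) :
    ∫ z, F (mix j z) ∂(Measure.pi fun _ : ι => siteL μ π) =
      ∫ ω, F ω ∂(Measure.pi fun _ : ι => μ) := by
  have hm := mp_mix (ι := ι) μ π j
  rw [← hm.map_eq, integral_map hm.measurable.aemeasurable hF.aestronglyMeasurable]

/-- expectation of a function of the label -/
theorem int_lab (μ : Measure ℝ) [IsProbabilityMeasure μ] (π : Measure ℕ) [IsProbabilityMeasure π]
    (n : ℕ) (κ : ℝ) : ∫ p, (if p.2.2 = n then κ else 0) ∂siteL μ π = κ * (π {n}).toReal := by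
  unfold siteL
  have h1 : ∫ p : ℝ × ℝ × ℕ, (if p.2.2 = n then κ else 0) ∂μ.prod (μ.prod π) =
      ∫ p : ℝ × ℝ × ℕ, (1 : ℝ) * (fun q : ℝ × ℕ => if q.2 = n then κ else 0) p.2
        ∂μ.prod (μ.prod π) := by
    refine integral_congr_ae (Eventually.of_forall fun p => ?_)
    simp
  have h2 : ∫ q : ℝ × ℕ, (if q.2 = n then κ else 0) ∂μ.prod π =
      ∫ q : ℝ × ℕ, (1 : ℝ) * (fun g : ℕ => if g = n then κ else 0) q.2 ∂μ.prod π := by
    refine integral_congr_ae (Eventually.of_forall fun p => ?_)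
    simp
  have h3 : ∫ g : ℕ, (if g = n then κ else 0) ∂π = κ * (π {n}).toReal := by
    have : (fun g : ℕ => if g = n then κ else 0) = Set.indicator {n} (fun _ => κ) := by
      ext g
      simp [Set.indicator_apply]
    rw [this, integral_indicator MeasurableSet.of_discrete, setIntegral_const, smul_eq_mul,
      mul_comm]
    rfl
  rw [h1, integral_prod_mul (fun _ : ℝ => (1 : ℝ)) (fun q : ℝ × ℕ => if q.2 = n then κ else 0), h2,
    integral_prod_mul (fun _ : ℝ => (1 : ℝ)) (fun g : ℕ => if g = n then κ else 0), h3]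
  simp

end Mix

/-! ### Labels -/

/-- point masses of the labels -/
def pm (η : ℝ) (n : ℕ) : ℝ := if n = 0 then 1 - η else η * dy n

theorem pm_nonneg {η : ℝ} (h0 : 0 ≤ η) (h1 : η ≤ 1) (n : ℕ) : 0 ≤ pm η n := by
  unfold pm
  split_ifs
  · linarith
  · exact mul_nonneg h0 (by unfold dy; positivity)

theorem pm_hasSum (η : ℝ) : HasSum (pm η) 1 := by
  have h1 : HasSum (fun n : ℕ => ((1 : ℝ) / 2) ^ n) 2 := hasSum_geometric_two
  have h2 : HasSum (fun n : ℕ => η / 2 * ((1 : ℝ) / 2) ^ n) (η / 2 * 2) := h1.mul_left _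
  have h3 : (fun n : ℕ => pm η (n + 1)) = fun n : ℕ => η / 2 * ((1 : ℝ) / 2) ^ n := by
    ext n
    unfold pm dy
    rw [if_neg (by omega), pow_succ]
    ring
  rw [← h3] at h2
  have h4 := (hasSum_nat_add_iff (f := pm η) 1).mp h2
  have h5 : η / 2 * 2 + ∑ i ∈ range 1, pm η i = 1 := by
    rw [Finset.sum_range_one]
    unfold pm
    rw [if_pos rfl]
    ring
  rwa [h5] at h4

theorem exists_lab {η : ℝ} (h0 : 0 ≤ η) (h1 : η ≤ 1) : ∃ π : Measure ℕ, IsProbabilityMeasure π ∧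
    (∀ j : ℕ, (π {j + 1}).toReal = η * dy (j + 1)) ∧
    (∀ j : ℕ, (π {g | j + 1 ≤ g}).toReal = η * dy j) := by
  have hs : HasSum (fun n => ENNReal.ofReal (pm η n)) 1 := by
    rw [ENNReal.summable.hasSum_iff, ← ENNReal.ofReal_tsum_of_nonneg (pm_nonneg h0 h1)
      (pm_hasSum η).summable, (pm_hasSum η).tsum_eq, ENNReal.ofReal_one]
  let p : PMF ℕ := ⟨fun n => ENNReal.ofReal (pm η n), hs⟩
  have hp : ∀ n : ℕ, (p.toMeasure {n}).toReal = pm η n := by
    intro n
    rw [PMF.toMeasure_apply_singleton _ _ MeasurableSet.of_discrete]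
    exact ENNReal.toReal_ofReal (pm_nonneg h0 h1 n)
  refine ⟨p.toMeasure, inferInstance, ?_, ?_⟩
  · intro j
    rw [hp]
    unfold pm
    rw [if_neg (by omega)]
  · intro j
    have hc : {g : ℕ | j + 1 ≤ g} = (↑(range (j + 1)) : Set ℕ)ᶜ := by
      ext g
      simp
    have h2 : (p.toMeasure (↑(range (j + 1)) : Set ℕ)).toReal = ∑ n ∈ range (j + 1), pm η n := by
      have h3 := sum_measure_singleton (μ := p.toMeasure) (s := range (j + 1))
      rw [← h3, ENNReal.toReal_sum (fun n _ => measure_ne_top _ _)]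
      exact Finset.sum_congr rfl fun n _ => hp n
    have h4 : ∀ j : ℕ, ∑ n ∈ range (j + 1), pm η n = 1 - η * dy j := by
      intro j
      induction j with
      | zero => simp [pm, dy]
      | succ j ih =>
        rw [Finset.sum_range_succ, ih]
        unfold pm dy
        rw [if_neg (by omega), pow_succ]
        ring
    have h5 : (p.toMeasure {g : ℕ | j + 1 ≤ g}).toReal = 1 -
        (p.toMeasure (↑(range (j + 1)) : Set ℕ)).toReal := by
      rw [hc]
      exact prob_compl_eq_one_sub (μ := p.toMeasure) (s := (↑(range (j + 1)) : Set ℕ))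
        MeasurableSet.of_discrete |> fun h => by
          rw [h, ENNReal.toReal_sub_of_le prob_le_one ENNReal.one_ne_top, ENNReal.toReal_one]
    rw [h5, h2, h4]
    ring

/-! ### Local densities -/

section Loc

variable {Ω ι : Type*} [Fintype Ω] [Fintype ι] [DecidableEq ι] {w : Ω → ℝ} {x : Ω → ι → ℝ}

theorem pZ_nonneg (hE : EFam w x) (β : ℝ) (f : ι → ℝ) (i : ι) (ω : ι → ℝ) (δ : ℝ) :
    0 ≤ pZ w x β f i ω δ := pE_nonneg hE _ _

theorem pZ_le (hE : EFam w x) (β : ℝ) (f : ι → ℝ) (i : ι) (ω : ι → ℝ) (δ : ℝ) :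
    pZ w x β f i ω δ ≤ 1 := pE_le_one hE _ _

theorem pZ_meas (hE : EFam w x) (β : ℝ) (f : ι → ℝ) (i : ι) (δ : ℝ) :
    Measurable fun ω : ι → ℝ => pZ w x β f i ω δ := by
  unfold pZ
  refine (continuous_pE hE i).measurable.comp ?_
  rw [measurable_pi_iff]
  intro l
  refine Measurable.add_const (Measurable.add_const (Measurable.const_mul ?_ β) _) δ
  by_cases h : l = i
  · subst h
    simp only [Function.update_self]
    exact measurable_const
  · simp only [Function.update_of_ne h]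
    exact measurable_pi_apply l

theorem pE_meas (hE : EFam w x) (β : ℝ) (f : ι → ℝ) (i : ι) (δ : ℝ) :
    Measurable fun ω : ι → ℝ => pE w x (fun l => β * ω l + f l + δ) i := by
  refine (continuous_pE hE i).measurable.comp ?_
  rw [measurable_pi_iff]
  intro l
  have h : Measurable fun ω : ι → ℝ => ω l := measurable_pi_apply l
  exact ((h.const_mul β).add_const _).add_const δ

theorem pZ_congr (w : Ω → ℝ) (x : Ω → ι → ℝ) (β : ℝ) (f : ι → ℝ) (i : ι) {ω ω' : ι → ℝ}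
    (h : ∀ l, l ≠ i → ω l = ω' l) (δ : ℝ) : pZ w x β f i ω δ = pZ w x β f i ω' δ := by
  unfold pZ
  congr 1
  funext l
  by_cases hl : l = i
  · subst hl; rw [Function.update_self, Function.update_self]
  · rw [Function.update_of_ne hl, Function.update_of_ne hl, h l hl]

theorem pZ_update (w : Ω → ℝ) (x : Ω → ι → ℝ) (β : ℝ) (f : ι → ℝ) (i : ι) (ω : ι → ℝ) (a : ℝ)
    (δ : ℝ) : pZ w x β f i (Function.update ω i a) δ = pZ w x β f i ω δ :=
  pZ_congr w x β f i (fun _ hl => Function.update_of_ne hl _ _) δ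

theorem int_bd {α : Type*} [MeasurableSpace α] (ρ : Measure α) [IsProbabilityMeasure ρ]
    {F : α → ℝ} (hF : Measurable F) {B : ℝ} (hB : ∀ z, |F z| ≤ B) : Integrable F ρ :=
  Integrable.of_bound hF.aestronglyMeasurable B
    (Eventually.of_forall fun z => by rw [Real.norm_eq_abs]; exact hB z)

/-- the mean of the square of the density -/
theorem sq_le (hE : EFam w x) (h01 : ∀ s i, x s i = 0 ∨ x s i = 1) (μ : Measure ℝ)
    [IsProbabilityMeasure μ] {β : ℝ} (hβ : 0 < β)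
    (hi : Integrable (fun y => Real.exp (2 * (β * |y|))) μ) (f : ι → ℝ) (i : ι) (δ : ℝ) :
    ∫ ω, pE w x (fun l => β * ω l + f l + δ) i ^ 2 ∂(Measure.pi fun _ : ι => μ) ≤
      (∫ y, Real.exp (2 * (β * |y|)) ∂μ) *
        ∫ ω, pZ w x β f i ω δ ^ 2 ∂(Measure.pi fun _ : ι => μ) := by
  have hm : Measurable (fun y : ℝ => Real.exp (2 * (β * |y|))) := by fun_prop
  have hZm := pZ_meas hE β f i δ
  rw [← indep μ i _ hm _ (hZm.pow_const 2) (fun z a => by rw [pZ_update])]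
  have hmp := measurePreserving_eval (fun _ : ι => μ) i
  have hi' : Integrable (fun ω : ι → ℝ => Real.exp (2 * (β * |ω i|)))
      (Measure.pi fun _ : ι => μ) := hmp.integrable_comp_of_integrable hi
  refine integral_mono (int_bd _ ((pE_meas hE β f i δ).pow_const 2) (B := 1) ?_) ?_ ?_
  · intro ω
    rw [abs_of_nonneg (sq_nonneg _)]
    exact pow_le_one₀ (pE_nonneg hE _ _) (pE_le_one hE _ _)
  · refine Integrable.mono' hi' ?_ (Eventually.of_forall fun ω => ?_)
    · exact ((hm.comp (measurable_pi_apply i)).mul (hZm.pow_const 2)).aestronglyMeasurable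
    · rw [Real.norm_eq_abs, abs_of_nonneg (mul_nonneg (Real.exp_pos _).le (sq_nonneg _))]
      exact mul_le_of_le_one_right (Real.exp_pos _).le
        (pow_le_one₀ (pZ_nonneg hE _ _ _ _ _) (pZ_le hE _ _ _ _ _))
  · intro ω
    show pE w x (fun l => β * ω l + f l + δ) i ^ 2 ≤
      Real.exp (2 * (β * |ω i|)) * pZ w x β f i ω δ ^ 2
    have h1 := (pZ_cmp hE h01 hβ f i ω δ).1
    calc pE w x (fun l => β * ω l + f l + δ) i ^ 2 ≤
        (Real.exp (β * |ω i|) * pZ w x β f i ω δ) ^ 2 :=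
          pow_le_pow_left₀ (pE_nonneg hE _ _) h1 2
      _ = _ := by
          rw [mul_pow, ← Real.exp_nat_mul]
          norm_num

/-- the mean of the density with charge zero -/
theorem mean_le (hE : EFam w x) (h01 : ∀ s i, x s i = 0 ∨ x s i = 1) (μ : Measure ℝ)
    [IsProbabilityMeasure μ] {β : ℝ} (hβ : 0 < β) (f : ι → ℝ) (i : ι) (δ : ℝ) :
    (∫ y, Real.exp (-(β * |y|)) ∂μ) *
        ∫ ω, pZ w x β f i ω δ ∂(Measure.pi fun _ : ι => μ) ≤
      ∫ ω, pE w x (fun l => β * ω l + f l + δ) i ∂(Measure.pi fun _ : ι => μ) := by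
  have hm : Measurable (fun y : ℝ => Real.exp (-(β * |y|))) := by fun_prop
  have hZm := pZ_meas hE β f i δ
  rw [← indep μ i _ hm _ hZm (fun z a => by rw [pZ_update])]
  refine integral_mono (int_bd _ ((hm.comp (measurable_pi_apply i)).mul hZm) (B := 1) ?_)
    (int_bd _ (pE_meas hE β f i δ) (B := 1) ?_) ?_
  · intro ω
    rw [abs_of_nonneg (mul_nonneg (Real.exp_pos _).le (pZ_nonneg hE _ _ _ _ _))]
    refine mul_le_one₀ ?_ (pZ_nonneg hE _ _ _ _ _) (pZ_le hE _ _ _ _ _)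
    exact Real.exp_le_one_iff.mpr (neg_nonpos.mpr (mul_nonneg hβ.le (abs_nonneg _)))
  · intro ω
    rw [abs_of_nonneg (pE_nonneg hE _ _)]
    exact pE_le_one hE _ _
  · intro ω
    show Real.exp (-(β * |ω i|)) * pZ w x β f i ω δ ≤ pE w x (fun l => β * ω l + f l + δ) i
    have h1 := (pZ_cmp hE h01 hβ f i ω δ).2
    calc Real.exp (-(β * |ω i|)) * pZ w x β f i ω δ ≤ Real.exp (-(β * |ω i|)) *
          (Real.exp (β * |ω i|) * pE w x (fun l => β * ω l + f l + δ) i) :=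
          mul_le_mul_of_nonneg_left h1 (Real.exp_pos _).le
      _ = _ := by rw [← mul_assoc, ← Real.exp_add, neg_add_cancel, Real.exp_zero, one_mul]

end Loc

/-! ### Selection by the label -/

/-- the term selected by the label `n` -/
def sel (k n : ℕ) (Ψ : ℕ → ℝ) : ℝ := ∑ j ∈ range (k + 1), if n = j + 1 then Ψ j else 0

theorem sel_cases (k n : ℕ) : (∃ j, j ∈ range (k + 1) ∧ n = j + 1 ∧ ∀ Ψ, sel k n Ψ = Ψ j) ∨
    ∀ Ψ, sel k n Ψ = 0 := by
  by_cases h : ∃ j, j ∈ range (k + 1) ∧ n = j + 1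
  · obtain ⟨j, hj, hn⟩ := h
    refine Or.inl ⟨j, hj, hn, fun Ψ => ?_⟩
    unfold sel
    rw [Finset.sum_eq_single j]
    · rw [if_pos hn]
    · intro b _ hb
      rw [if_neg (by omega)]
    · intro h; exact absurd hj h
  · refine Or.inr fun Ψ => ?_
    unfold sel
    refine Finset.sum_eq_zero fun j hj => ?_
    rw [if_neg]
    intro hn
    exact h ⟨j, hj, hn⟩

section Lam

variable {Ω ι : Type*} [Fintype Ω] [Fintype ι] [DecidableEq ι] {w : Ω → ℝ} {x : Ω → ι → ℝ}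

/-- the displacement probabilities -/
def lam (w : Ω → ℝ) (x : Ω → ι → ℝ) (β : ℝ) (f : ι → ℝ) (k : ℕ) (κ d : ℕ → ℝ)
    (y : ι → ℝ × ℕ) (ω : ι → ℝ) (i : ι) : ℝ :=
  sel k (y i).2 fun j => κ j * pZ w x β f i (mix (j + 1) (fun l => (ω l, y l))) (d j)

theorem lam_nonneg (hE : EFam w x) (β : ℝ) (f : ι → ℝ) (k : ℕ) {κ : ℕ → ℝ} (hκ : ∀ j, 0 ≤ κ j)
    (d : ℕ → ℝ) (y : ι → ℝ × ℕ) (ω : ι → ℝ) (i : ι) : 0 ≤ lam w x β f k κ d y ω i := by
  unfold lam
  rcases sel_cases k (y i).2 with ⟨j, _, _, h⟩ | h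
  · rw [h]; exact mul_nonneg (hκ j) (pZ_nonneg hE _ _ _ _ _)
  · rw [h]

theorem lam_le (hE : EFam w x) (β : ℝ) (f : ι → ℝ) (k : ℕ) {κ : ℕ → ℝ}
    (hκ1 : ∀ j, κ j ≤ 1) (d : ℕ → ℝ) (y : ι → ℝ × ℕ) (ω : ι → ℝ) (i : ι) :
    lam w x β f k κ d y ω i ≤ 1 := by
  unfold lam
  rcases sel_cases k (y i).2 with ⟨j, _, _, h⟩ | h
  · rw [h]
    exact mul_le_one₀ (hκ1 j) (pZ_nonneg hE _ _ _ _ _) (pZ_le hE _ _ _ _ _)
  · rw [h]; exact zero_le_one

theorem lam_sq (w : Ω → ℝ) (x : Ω → ι → ℝ) (β : ℝ) (f : ι → ℝ) (k : ℕ) (κ d : ℕ → ℝ)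
    (y : ι → ℝ × ℕ) (ω : ι → ℝ) (i : ι) : lam w x β f k κ d y ω i ^ 2 =
    ∑ j ∈ range (k + 1), (if (y i).2 = j + 1 then κ j ^ 2 else 0) *
      pZ w x β f i (mix (j + 1) (fun l => (ω l, y l))) (d j) ^ 2 := by
  have h1 : ∑ j ∈ range (k + 1), (if (y i).2 = j + 1 then κ j ^ 2 else 0) *
      pZ w x β f i (mix (j + 1) (fun l => (ω l, y l))) (d j) ^ 2 =
      sel k (y i).2 fun j => κ j ^ 2 *
        pZ w x β f i (mix (j + 1) (fun l => (ω l, y l))) (d j) ^ 2 := by
    unfold sel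
    refine Finset.sum_congr rfl fun j _ => ?_
    rw [ite_mul, zero_mul]
  rw [h1]
  unfold lam
  rcases sel_cases k (y i).2 with ⟨j, _, _, h⟩ | h
  · rw [h, h, mul_pow]
  · rw [h, h]; ring

theorem lam_mul (w : Ω → ℝ) (x : Ω → ι → ℝ) (β : ℝ) (f : ι → ℝ) (k : ℕ) (κ d : ℕ → ℝ)
    (y : ι → ℝ × ℕ) (ω : ι → ℝ) (i : ι) (c : ℝ) : lam w x β f k κ d y ω i * c =
    ∑ j ∈ range (k + 1), (if (y i).2 = j + 1 then κ j else 0) *
      (c * pZ w x β f i (mix (j + 1) (fun l => (ω l, y l))) (d j)) := by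
  unfold lam sel
  rw [Finset.sum_mul]
  refine Finset.sum_congr rfl fun j _ => ?_
  rw [ite_mul, ite_mul, zero_mul, zero_mul]
  congr 1
  ring

theorem lam_dep (w : Ω → ℝ) (x : Ω → ι → ℝ) (β : ℝ) (f : ι → ℝ) (k : ℕ) (κ d : ℕ → ℝ)
    (y : ι → ℝ × ℕ) (i : ι) (ω ω' : ι → ℝ) (h : ∀ l, (y l).2 < (y i).2 → ω l = ω' l) :
    lam w x β f k κ d y ω i = lam w x β f k κ d y ω' i := by
  unfold lam
  rcases sel_cases k (y i).2 with ⟨j, _, hj, h1⟩ | h1
  · rw [h1, h1]
    have h2 : mix (j + 1) (fun l => (ω l, y l)) = mix (j + 1) (fun l => (ω' l, y l)) := by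
      funext l
      unfold mix
      simp only
      split_ifs with h3
      · exact h l (by omega)
      · rfl
    rw [h2]
  · rw [h1, h1]

theorem meas_mk : Measurable (fun p : (ι → ℝ) × (ι → ℝ × ℕ) => fun l => (p.1 l, p.2 l)) := by
  rw [measurable_pi_iff]
  intro l
  exact ((measurable_pi_apply l).comp measurable_fst).prodMk
    ((measurable_pi_apply l).comp measurable_snd)

theorem lam_meas (hE : EFam w x) (β : ℝ) (f : ι → ℝ) (k : ℕ) (κ d : ℕ → ℝ) (i : ι) :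
    Measurable (fun p : (ι → ℝ) × (ι → ℝ × ℕ) => lam w x β f k κ d p.2 p.1 i) := by
  unfold lam sel
  refine Finset.measurable_sum _ fun j _ => ?_
  refine Measurable.ite ?_ (Measurable.const_mul ?_ _) measurable_const
  · have h1 : Measurable (fun p : (ι → ℝ) × (ι → ℝ × ℕ) => (p.2 i).2) :=
      measurable_snd.comp ((measurable_pi_apply i).comp measurable_snd)
    exact h1 (MeasurableSet.of_discrete (s := {g : ℕ | g = j + 1}))
  · exact (pZ_meas hE β f i (d j)).comp ((meas_mix (j + 1)).comp meas_mk)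


theorem Phi_meas (hE : EFam w x) (β : ℝ) (f : ι → ℝ) (k : ℕ) (κ d : ℕ → ℝ) (i : ι) (δ : ℝ) :
    Measurable (fun p : (ι → ℝ) × (ι → ℝ × ℕ) =>
      lam w x β f k κ d p.2 p.1 i * pZ w x β f i p.1 δ) :=
  (lam_meas hE β f k κ d i).mul ((pZ_meas hE β f i δ).comp measurable_fst)

theorem meas_pr {ι : Type*} : Measurable (fun (z : ι → ℝ × ℝ × ℕ) l => (z l).1) := by
  rw [measurable_pi_iff]
  intro l
  exact measurable_fst.comp (measurable_pi_apply l)

theorem meas_eq (n : ℕ) (c : ℝ) :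
    Measurable (fun p : ℝ × ℝ × ℕ => if p.2.2 = n then c else 0) := by
  refine Measurable.ite ?_ measurable_const measurable_const
  exact (measurable_snd.comp measurable_snd) (MeasurableSet.of_discrete (s := {g : ℕ | g = n}))

theorem mix_update (j : ℕ) (z : ι → ℝ × ℝ × ℕ) (i : ι) (a : ℝ × ℝ × ℕ) :
    ∀ l, l ≠ i → mix j (Function.update z i a) l = mix j z l := by
  intro l hl
  unfold mix
  rw [Function.update_of_ne hl]

theorem gain_ge (hE : EFam w x) (μ : Measure ℝ) [IsProbabilityMeasure μ] (π : Measure ℕ)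
    [IsProbabilityMeasure π] (β : ℝ) (f : ι → ℝ) (k : ℕ) {κ : ℕ → ℝ} (hκ : ∀ j, 0 ≤ κ j)
    (hκ1 : ∀ j, κ j ≤ 1) (d : ℕ → ℝ) (i : ι) (δ V : ℝ) {t : ℕ → ℝ} (ht : ∀ j, 0 ≤ t j)
    (htk : ∀ j, κ j * (π {j + 1}).toReal = t j)
    (hst : ∀ j, V ≤ ∫ z, pZ w x β f i (fun l => (z l).1) δ *
        pZ w x β f i (mix (j + 1) z) (d j) ∂(Measure.pi fun _ : ι => siteL μ π)) :
    Integrable (fun y => ∫ ω, lam w x β f k κ d y ω i * pZ w x β f i ω δ
      ∂(Measure.pi fun _ : ι => μ)) (Measure.pi fun _ : ι => μ.prod π) ∧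
    (∑ j ∈ range (k + 1), t j) * V ≤ ∫ y, ∫ ω, lam w x β f k κ d y ω i * pZ w x β f i ω δ
      ∂(Measure.pi fun _ : ι => μ) ∂(Measure.pi fun _ : ι => μ.prod π) := by
  have hρ : IsProbabilityMeasure (siteL μ π) := by unfold siteL; infer_instance
  obtain ⟨hI, h1⟩ := int_split μ π
    (fun ω y => lam w x β f k κ d y ω i * pZ w x β f i ω δ) (Phi_meas hE β f k κ d i δ) (B := 1)
    (fun ω y => by
      rw [abs_of_nonneg (mul_nonneg (lam_nonneg hE β f k hκ d y ω i) (pZ_nonneg hE _ _ _ _ _))]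
      exact mul_le_one₀ (lam_le hE β f k hκ1 d y ω i) (pZ_nonneg hE _ _ _ _ _)
        (pZ_le hE _ _ _ _ _))
  refine ⟨hI, ?_⟩
  rw [h1]
  have h2 : ∀ z : ι → ℝ × ℝ × ℕ,
      lam w x β f k κ d (fun l => (z l).2) (fun l => (z l).1) i *
        pZ w x β f i (fun l => (z l).1) δ = ∑ j ∈ range (k + 1),
      (fun p : ℝ × ℝ × ℕ => if p.2.2 = j + 1 then κ j else 0) (z i) *
        (pZ w x β f i (fun l => (z l).1) δ * pZ w x β f i (mix (j + 1) z) (d j)) :=
    fun z => lam_mul w x β f k κ d _ _ i _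
  have hFm : ∀ j, Measurable (fun z : ι → ℝ × ℝ × ℕ =>
      pZ w x β f i (fun l => (z l).1) δ * pZ w x β f i (mix (j + 1) z) (d j)) := fun j =>
    ((pZ_meas hE β f i δ).comp meas_pr).mul ((pZ_meas hE β f i (d j)).comp (meas_mix (j + 1)))
  have hFb : ∀ (j : ℕ) (z : ι → ℝ × ℝ × ℕ), |pZ w x β f i (fun l => (z l).1) δ *
      pZ w x β f i (mix (j + 1) z) (d j)| ≤ 1 := fun j z => by
    rw [abs_of_nonneg (mul_nonneg (pZ_nonneg hE _ _ _ _ _) (pZ_nonneg hE _ _ _ _ _))]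
    exact mul_le_one₀ (pZ_le hE _ _ _ _ _) (pZ_nonneg hE _ _ _ _ _) (pZ_le hE _ _ _ _ _)
  rw [integral_congr_ae (Eventually.of_forall h2), integral_finsetSum, Finset.sum_mul]
  · refine Finset.sum_le_sum fun j _ => ?_
    rw [indep (siteL μ π) i _ (meas_eq (j + 1) (κ j)) _ (hFm j), int_lab, htk]
    · exact mul_le_mul_of_nonneg_left (hst j) (ht j)
    · intro z a
      show pZ w x β f i (fun l => (Function.update z i a l).1) δ *
        pZ w x β f i (mix (j + 1) (Function.update z i a)) (d j) =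
        pZ w x β f i (fun l => (z l).1) δ * pZ w x β f i (mix (j + 1) z) (d j)
      rw [pZ_congr w x β f i (mix_update (j + 1) z i a) (d j),
        pZ_congr w x β f i (ω := fun l => (Function.update z i a l).1) (ω' := fun l => (z l).1)
          (fun l hl => by simp only [Function.update_of_ne hl]) δ]
  · intro j _
    refine int_bd _ (((meas_eq (j + 1) (κ j)).comp (measurable_pi_apply i)).mul (hFm j)) (B := 1) ?_
    intro z
    show |(if (z i).2.2 = j + 1 then κ j else 0) * (pZ w x β f i (fun l => (z l).1) δ *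
        pZ w x β f i (mix (j + 1) z) (d j))| ≤ 1
    rw [abs_mul]
    refine mul_le_one₀ ?_ (abs_nonneg _) (hFb j z)
    split_ifs
    · rw [abs_of_nonneg (hκ j)]; exact hκ1 j
    · rw [abs_zero]; exact zero_le_one

theorem cost_le (hE : EFam w x) (μ : Measure ℝ) [IsProbabilityMeasure μ] (π : Measure ℕ)
    [IsProbabilityMeasure π] (β : ℝ) (f : ι → ℝ) (k : ℕ) {κ : ℕ → ℝ} (hκ : ∀ j, 0 ≤ κ j)
    (hκ1 : ∀ j, κ j ≤ 1) (d : ℕ → ℝ) (i : ι) {s : ℕ → ℝ} (hs : ∀ j, 0 ≤ s j)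
    (hsk : ∀ j, κ j ^ 2 * (π {j + 1}).toReal = s j) :
    Integrable (fun y => ∫ ω, lam w x β f k κ d y ω i ^ 2
      ∂(Measure.pi fun _ : ι => μ)) (Measure.pi fun _ : ι => μ.prod π) ∧
    ∫ y, ∫ ω, lam w x β f k κ d y ω i ^ 2 ∂(Measure.pi fun _ : ι => μ)
      ∂(Measure.pi fun _ : ι => μ.prod π) ≤
      ∑ j ∈ range (k + 1), s j * ∫ ω, pZ w x β f i ω (d j) ∂(Measure.pi fun _ : ι => μ) := by
  have hρ : IsProbabilityMeasure (siteL μ π) := by unfold siteL; infer_instance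
  obtain ⟨hI, h1⟩ := int_split μ π
    (fun ω y => lam w x β f k κ d y ω i ^ 2) ((lam_meas hE β f k κ d i).pow_const 2) (B := 1)
    (fun ω y => by
      rw [abs_of_nonneg (sq_nonneg _)]
      exact pow_le_one₀ (lam_nonneg hE β f k hκ d y ω i) (lam_le hE β f k hκ1 d y ω i))
  refine ⟨hI, ?_⟩
  rw [h1]
  have h2 : ∀ z : ι → ℝ × ℝ × ℕ,
      lam w x β f k κ d (fun l => (z l).2) (fun l => (z l).1) i ^ 2 = ∑ j ∈ range (k + 1),
      (fun p : ℝ × ℝ × ℕ => if p.2.2 = j + 1 then κ j ^ 2 else 0) (z i) *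
        pZ w x β f i (mix (j + 1) z) (d j) ^ 2 :=
    fun z => lam_sq w x β f k κ d _ _ i
  have hFm : ∀ j, Measurable (fun z : ι → ℝ × ℝ × ℕ =>
      pZ w x β f i (mix (j + 1) z) (d j) ^ 2) := fun j =>
    ((pZ_meas hE β f i (d j)).comp (meas_mix (j + 1))).pow_const 2
  rw [integral_congr_ae (Eventually.of_forall h2), integral_finsetSum]
  · refine Finset.sum_le_sum fun j _ => ?_
    rw [indep (siteL μ π) i _ (meas_eq (j + 1) (κ j ^ 2)) _ (hFm j), int_lab, hsk]
    · refine mul_le_mul_of_nonneg_left ?_ (hs j)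
      rw [int_mix μ π (j + 1) (fun ω => pZ w x β f i ω (d j) ^ 2)
        ((pZ_meas hE β f i (d j)).pow_const 2)]
      refine integral_mono (int_bd _ ((pZ_meas hE β f i (d j)).pow_const 2) (B := 1) ?_)
        (int_bd _ (pZ_meas hE β f i (d j)) (B := 1) ?_) ?_
      · intro ω
        rw [abs_of_nonneg (sq_nonneg _)]
        exact pow_le_one₀ (pZ_nonneg hE _ _ _ _ _) (pZ_le hE _ _ _ _ _)
      · intro ω
        rw [abs_of_nonneg (pZ_nonneg hE _ _ _ _ _)]
        exact pZ_le hE _ _ _ _ _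
      · intro ω
        show pZ w x β f i ω (d j) ^ 2 ≤ pZ w x β f i ω (d j)
        rw [sq]
        exact mul_le_of_le_one_left (pZ_nonneg hE _ _ _ _ _) (pZ_le hE _ _ _ _ _)
    · intro z a
      show pZ w x β f i (mix (j + 1) (Function.update z i a)) (d j) ^ 2 =
        pZ w x β f i (mix (j + 1) z) (d j) ^ 2
      rw [pZ_congr w x β f i (mix_update (j + 1) z i a) (d j)]
  · intro j _
    refine int_bd _ (((meas_eq (j + 1) (κ j ^ 2)).comp (measurable_pi_apply i)).mul (hFm j))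
      (B := 1) ?_
    intro z
    show |(if (z i).2.2 = j + 1 then κ j ^ 2 else 0) * pZ w x β f i (mix (j + 1) z) (d j) ^ 2| ≤ 1
    rw [abs_mul, abs_of_nonneg (sq_nonneg (pZ w x β f i (mix (j + 1) z) (d j)))]
    refine mul_le_one₀ ?_ (sq_nonneg _)
      (pow_le_one₀ (pZ_nonneg hE _ _ _ _ _) (pZ_le hE _ _ _ _ _))
    split_ifs
    · rw [abs_of_nonneg (sq_nonneg _)]; exact pow_le_one₀ (hκ j) (hκ1 j)
    · rw [abs_zero]; exact zero_le_one

end Lam

/-! ### Constants -/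

theorem int_id {μ : Measure ℝ} (hμ : ExpMom μ) : Integrable (fun y : ℝ => y) μ := by
  have h1 := hμ 1
  have h2 := hμ (-1)
  refine Integrable.mono' (h1.add h2) measurable_id.aestronglyMeasurable
    (Eventually.of_forall fun y => ?_)
  show ‖y‖ ≤ Real.exp (1 * y) + Real.exp (-1 * y)
  rw [Real.norm_eq_abs, one_mul, neg_one_mul]
  have h3 := Real.add_one_le_exp y
  have h4 := Real.add_one_le_exp (-y)
  have h5 := Real.exp_pos y
  have h6 := Real.exp_pos (-y)
  rcases abs_cases y with ⟨h, _⟩ | ⟨h, _⟩ <;> rw [h] <;> linarith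

theorem int_exp_abs {μ : Measure ℝ} (hμ : ExpMom μ) (β : ℝ) :
    Integrable (fun y : ℝ => Real.exp (2 * (β * |y|))) μ := by
  have h1 := hμ (2 * β)
  have h2 := hμ (-(2 * β))
  have hm : Measurable (fun y : ℝ => Real.exp (2 * (β * |y|))) := by fun_prop
  refine Integrable.mono' (h1.add h2) hm.aestronglyMeasurable (Eventually.of_forall fun y => ?_)
  show ‖Real.exp (2 * (β * |y|))‖ ≤ Real.exp (2 * β * y) + Real.exp (-(2 * β) * y)
  rw [Real.norm_eq_abs, abs_of_pos (Real.exp_pos _)]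
  have h5 := Real.exp_pos (2 * β * y)
  have h6 := Real.exp_pos (-(2 * β) * y)
  rcases abs_cases y with ⟨h, _⟩ | ⟨h, _⟩
  · rw [h, show 2 * (β * y) = 2 * β * y by ring]; linarith
  · rw [h, show 2 * (β * -y) = -(2 * β) * y by ring]; linarith

theorem ae_zero {μ : Measure ℝ} (hμ : ExpMom μ) (hmean : ∫ x, x ∂μ = 0)
    (hvar : ∫ x, x ^ 2 ∂μ ≠ 0) : ¬ (∀ᵐ y ∂μ, y ≤ 0) ∧ ¬ (∀ᵐ y ∂μ, 0 ≤ y) := by
  have hi := int_id hμ
  have key : ¬ (fun y : ℝ => y) =ᵐ[μ] 0 := by
    intro h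
    refine hvar ?_
    have h1 : (fun y : ℝ => y ^ 2) =ᵐ[μ] fun _ => 0 := by
      filter_upwards [h] with y hy
      have : y = 0 := hy
      rw [this]; norm_num
    rw [integral_congr_ae h1, integral_zero]
  constructor
  · intro h
    refine key ?_
    have h1 : 0 ≤ᵐ[μ] fun y : ℝ => -y := by
      filter_upwards [h] with y hy
      show (0 : ℝ) ≤ -y
      linarith
    have h2 := (integral_eq_zero_iff_of_nonneg_ae h1 hi.neg).mp (by
      rw [integral_neg, hmean, neg_zero])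
    filter_upwards [h2] with y hy
    have : -y = 0 := hy
    show y = 0
    linarith
  · intro h
    refine key ?_
    exact (integral_eq_zero_iff_of_nonneg_ae h hi).mp hmean

theorem pos_max {μ : Measure ℝ} (hμ : ExpMom μ) (hmean : ∫ x, x ∂μ = 0)
    (hvar : ∫ x, x ^ 2 ∂μ ≠ 0) : 0 < ∫ y, max y 0 ∂μ := by
  have hi : Integrable (fun y : ℝ => max y 0) μ := (int_id hμ).pos_part
  have h0 : 0 ≤ fun y : ℝ => max y 0 := fun y => le_max_right _ _
  refine lt_of_le_of_ne (integral_nonneg h0) fun h => (ae_zero hμ hmean hvar).1 ?_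
  have h2 := (integral_eq_zero_iff_of_nonneg h0 hi).mp h.symm
  filter_upwards [h2] with y hy
  have h3 : max y 0 = 0 := hy
  exact max_eq_right_iff.mp h3

theorem pos_neg {μ : Measure ℝ} [IsProbabilityMeasure μ] (hμ : ExpMom μ)
    (hmean : ∫ x, x ∂μ = 0) (hvar : ∫ x, x ^ 2 ∂μ ≠ 0) {β : ℝ} (hβ : 0 < β) :
    0 < ∫ y, (if y < 0 then Real.exp (-(β * |y|)) else 0) ∂μ := by
  have h0 : 0 ≤ fun y : ℝ => if y < 0 then Real.exp (-(β * |y|)) else 0 := fun y => by
    show (0 : ℝ) ≤ if y < 0 then Real.exp (-(β * |y|)) else 0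
    split_ifs
    · exact (Real.exp_pos _).le
    · exact le_rfl
  have hm : Measurable (fun y : ℝ => if y < 0 then Real.exp (-(β * |y|)) else 0) :=
    Measurable.ite measurableSet_Iio (by fun_prop) measurable_const
  have hi : Integrable (fun y : ℝ => if y < 0 then Real.exp (-(β * |y|)) else 0) μ := by
    refine int_bd μ hm (B := 1) fun y => ?_
    rw [abs_of_nonneg (h0 y)]
    show (if y < 0 then Real.exp (-(β * |y|)) else 0) ≤ 1
    split_ifs
    · exact Real.exp_le_one_iff.mpr (neg_nonpos.mpr (mul_nonneg hβ.le (abs_nonneg _)))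
    · exact zero_le_one
  refine lt_of_le_of_ne (integral_nonneg h0) fun h => (ae_zero hμ hmean hvar).2 ?_
  have h2 := (integral_eq_zero_iff_of_nonneg h0 hi).mp h.symm
  filter_upwards [h2] with y hy
  by_contra hc
  have h3 : (if y < 0 then Real.exp (-(β * |y|)) else 0) = 0 := hy
  rw [if_pos (not_le.mp hc)] at h3
  exact (Real.exp_pos _).ne' h3

/-! ### The averaged quantities -/

section Avg

variable {Ω ι : Type*} [Fintype Ω] [Fintype ι] [DecidableEq ι] {w : Ω → ℝ} {x : Ω → ι → ℝ}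

theorem RP_le (hE : EFam w x) (h01 : ∀ s i, x s i = 0 ∨ x s i = 1) (μ : Measure ℝ)
    [IsProbabilityMeasure μ] {β : ℝ} (hβ : 0 < β)
    (hi : Integrable (fun y => Real.exp (2 * (β * |y|))) μ) (f : ι → ℝ) (δ : ℝ) :
    RP μ w x β f δ ≤ (∫ y, Real.exp (2 * (β * |y|)) ∂μ) *
        ∑ i, ∫ ω, pZ w x β f i ω δ ^ 2 ∂(Measure.pi fun _ : ι => μ) := by
  unfold RP
  rw [integral_finsetSum, Finset.mul_sum]
  · exact Finset.sum_le_sum fun i _ => sq_le hE h01 μ hβ hi f i δ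
  · intro i _
    refine int_bd _ ((pE_meas hE β f i δ).pow_const 2) (B := 1) fun ω => ?_
    rw [abs_of_nonneg (sq_nonneg _)]
    exact pow_le_one₀ (pE_nonneg hE _ _) (pE_le_one hE _ _)

theorem MP_eq (hE : EFam w x) (μ : Measure ℝ) [IsProbabilityMeasure μ] (β : ℝ) (f : ι → ℝ)
    (δ : ℝ) : MP μ w x β f δ = ∑ i, ∫ ω, pE w x (fun l => β * ω l + f l + δ) i
      ∂(Measure.pi fun _ : ι => μ) := by
  unfold MP
  rw [integral_finsetSum]
  intro i _
  refine int_bd _ (pE_meas hE β f i δ) (B := 1) fun ω => ?_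
  rw [abs_of_nonneg (pE_nonneg hE _ _)]
  exact pE_le_one hE _ _

theorem MP_ge (hE : EFam w x) (h01 : ∀ s i, x s i = 0 ∨ x s i = 1) (μ : Measure ℝ)
    [IsProbabilityMeasure μ] {β : ℝ} (hβ : 0 < β) (f : ι → ℝ) (δ : ℝ) :
    (∫ y, Real.exp (-(β * |y|)) ∂μ) *
        ∑ i, ∫ ω, pZ w x β f i ω δ ∂(Measure.pi fun _ : ι => μ) ≤ MP μ w x β f δ := by
  rw [MP_eq hE, Finset.mul_sum]
  exact Finset.sum_le_sum fun i _ => mean_le hE h01 μ hβ f i δ

theorem MP_mono (hE : EFam w x) (μ : Measure ℝ) [IsProbabilityMeasure μ] (β : ℝ) (f : ι → ℝ)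
    {δ δ' : ℝ} (h : δ ≤ δ') : MP μ w x β f δ ≤ MP μ w x β f δ' := by
  rw [MP_eq hE, MP_eq hE]
  have hb : ∀ (δ : ℝ) (i : ι), Integrable (fun ω : ι → ℝ => pE w x (fun l => β * ω l + f l + δ) i)
      (Measure.pi fun _ : ι => μ) := fun δ i => by
    refine int_bd _ (pE_meas hE β f i δ) (B := 1) fun ω => ?_
    rw [abs_of_nonneg (pE_nonneg hE _ _)]
    exact pE_le_one hE _ _
  refine Finset.sum_le_sum fun i _ => integral_mono (hb δ i) (hb δ' i) fun ω => ?_
  exact pE_mono hE (fun l => β * ω l + f l) i h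

end Avg

theorem dy_pos (k : ℕ) : 0 < dy k := by unfold dy; positivity

theorem dy_le (k : ℕ) : dy k ≤ 1 := by
  unfold dy
  exact pow_le_one₀ (by norm_num) (by norm_num)

theorem dy_half (k : ℕ) : dy (k + 1) = dy k / 2 := by unfold dy; rw [pow_succ]; ring

theorem dy_anti {j k : ℕ} (h : j ≤ k) : dy k ≤ dy j := by
  unfold dy
  exact pow_le_pow_of_le_one (by norm_num) (by norm_num) h

end V8

open V8 in
theorem adapt_main (μ : Measure ℝ) [IsProbabilityMeasure μ] (hμ : ExpMom μ)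
    (hmean : ∫ x, x ∂μ = 0) (hvar : ∫ x, x ^ 2 ∂μ ≠ 0) {β : ℝ} (hβ : 0 < β) :
    ∃ c₀ c₁ c₂ C₂ C₃ : ℝ, 0 < c₀ ∧ 0 < c₁ ∧ 0 < c₂ ∧ 0 < C₂ ∧ 0 < C₃ ∧
      ∀ {Ω : Type} [Fintype Ω] {m : ℕ} {w : Ω → ℝ} {x : Ω → Fin m → ℝ}, EFam w x →
        (∀ s i, x s i = 0 ∨ x s i = 1) → ∀ (f : Fin m → ℝ) (γ : ℝ), 0 < γ → ∀ (a : ℝ), 0 ≤ a →
        ∀ (k : ℕ) (t : ℕ → ℝ), (∀ j, 0 ≤ t j) → (∀ j, t j ≤ c₀ * dy (j + 1)) →
      γ * (LP μ w x β f (dy (k + 1)) - dy (k + 1) * MP μ w x β f (dy (k + 1)) +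
          c₁ * (∑ j ∈ range (k + 1), t j) * (Real.exp (-a) *
            ((1 + a) * c₂ * RP μ w x β f (dy (k + 1)) - C₃ * MP μ w x β f (dy (k + 1))))) -
        C₂ * ∑ j ∈ range (k + 1), t j ^ 2 * 2 ^ (j + 1) * MP μ w x β f (dy j) ≤
      Real.log (∫ ω, ZE w x (fun i => β * ω i + f i) ^ γ ∂Measure.pi (fun _ : Fin m => μ)) := by
  obtain ⟨A, η, hA, hη, hη2, hAη, hstab⟩ := stab μ hμ hβ
  have hi2 := int_exp_abs hμ β
  obtain ⟨E₂, hE₂⟩ : ∃ E₂ : ℝ, E₂ = ∫ y, Real.exp (2 * (β * |y|)) ∂μ := ⟨_, rfl⟩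
  obtain ⟨E₁, hE₁⟩ : ∃ E₁ : ℝ, E₁ = ∫ y, Real.exp (-(β * |y|)) ∂μ := ⟨_, rfl⟩
  have hE2pos : 0 < E₂ := by rw [hE₂]; exact integral_exp_pos hi2
  have hE1pos : 0 < E₁ := by
    rw [hE₁]
    refine integral_exp_pos ?_
    refine int_bd μ (by fun_prop) (B := 1) fun y => ?_
    rw [abs_of_pos (Real.exp_pos _)]
    exact Real.exp_le_one_iff.mpr (neg_nonpos.mpr (mul_nonneg hβ.le (abs_nonneg _)))
  obtain ⟨c₁, hc₁⟩ : ∃ c₁ : ℝ, c₁ = β * (∫ y, max y 0 ∂μ) *
      (∫ y, (if y < 0 then Real.exp (-(β * |y|)) else 0) ∂μ) := ⟨_, rfl⟩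
  have hc1pos : 0 < c₁ := by
    rw [hc₁]
    exact mul_pos (mul_pos hβ (pos_max hμ hmean hvar)) (pos_neg hμ hmean hvar hβ)
  refine ⟨η, c₁, 1 / E₂, 1 / (η * E₁), Real.exp (-1) / E₁, hη, hc1pos, by positivity,
    by positivity, by positivity, ?_⟩
  intro Ω _ m w x hE h01 f γ hγ a ha k t ht htc
  obtain ⟨π, hπ, hπ1, hπ2⟩ := exists_lab hη.le (by linarith : η ≤ 1)
  obtain ⟨κ, hκd⟩ : ∃ κ : ℕ → ℝ, κ = fun j => t j / (η * dy (j + 1)) := ⟨_, rfl⟩
  obtain ⟨d, hd⟩ : ∃ d : ℕ → ℝ, d = fun j => dy (k + 1) + A * (π {g | j + 1 ≤ g}).toReal :=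
    ⟨_, rfl⟩
  have hκ : ∀ j, 0 ≤ κ j := fun j => by
    rw [hκd]; exact div_nonneg (ht j) (mul_pos hη (dy_pos _)).le
  have hκ1 : ∀ j, κ j ≤ 1 := fun j => by
    rw [hκd]; exact (div_le_one (mul_pos hη (dy_pos _))).mpr (htc j)
  have htk : ∀ j, κ j * (π {j + 1}).toReal = t j := fun j => by
    rw [hπ1, hκd]
    exact div_mul_cancel₀ _ (mul_pos hη (dy_pos _)).ne'
  have hsk : ∀ j, κ j ^ 2 * (π {j + 1}).toReal = t j ^ 2 * 2 ^ (j + 1) / η := fun j => by
    have h1 : κ j ^ 2 * (π {j + 1}).toReal = κ j * t j := by rw [sq, mul_assoc, htk]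
    rw [h1, hκd]
    have h2 : dy (j + 1) * 2 ^ (j + 1) = 1 := by
      unfold dy; rw [← mul_pow]; norm_num
    have h3 := (dy_pos (j + 1)).ne'
    have h4 : (2 : ℝ) ^ (j + 1) = 1 / dy (j + 1) := by
      rw [eq_div_iff h3, mul_comm]; exact h2
    show t j / (η * dy (j + 1)) * t j = _
    rw [h4]
    field_simp
  obtain ⟨V, hV⟩ : ∃ V : Fin m → ℝ, V = fun i => Real.exp (-a) *
      ((1 + a) * ∫ ω, pZ w x β f i ω (dy (k + 1)) ^ 2 ∂Measure.pi (fun _ : Fin m => μ) -
        Real.exp (-1) * ∫ ω, pZ w x β f i ω (dy (k + 1)) ∂Measure.pi (fun _ : Fin m => μ)) :=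
    ⟨_, rfl⟩
  have hst : ∀ (i : Fin m) (j : ℕ), V i ≤ ∫ z, pZ w x β f i (fun l => (z l).1) (dy (k + 1)) *
      pZ w x β f i (mix (j + 1) z) (d j) ∂(Measure.pi fun _ : Fin m => siteL μ π) := by
    intro i j
    have h1 : (π {g | j + 1 ≤ g}).toReal ≤ η := by
      rw [hπ2]
      exact mul_le_of_le_one_right hη.le (dy_le j)
    have h2 := hstab hE h01 f i π (j + 1) h1 (dy (k + 1)) a ha
    rw [hV, hd]
    exact h2
  have hgain := fun i => gain_ge hE μ π β f k hκ hκ1 d i (dy (k + 1)) (V i) ht htk (hst i)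
  have hcost := fun i => cost_le hE μ π β f k hκ hκ1 d i
    (s := fun j => t j ^ 2 * 2 ^ (j + 1) / η) (fun j => by positivity) hsk
  -- the inequality for fixed fresh charges and labels
  obtain ⟨G, hG⟩ : ∃ G : Fin m → (Fin m → ℝ × ℕ) → ℝ, G = fun i y =>
      ∫ ω, lam w x β f k κ d y ω i * pZ w x β f i ω (dy (k + 1))
        ∂(Measure.pi fun _ : Fin m => μ) := ⟨_, rfl⟩
  obtain ⟨Q, hQ⟩ : ∃ Q : Fin m → (Fin m → ℝ × ℕ) → ℝ, Q = fun i y =>
      ∫ ω, lam w x β f k κ d y ω i ^ 2 ∂(Measure.pi fun _ : Fin m => μ) := ⟨_, rfl⟩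
  obtain ⟨R, hR⟩ : ∃ R : ℝ, R = Real.log (∫ ω, ZE w x (fun i => β * ω i + f i) ^ γ
      ∂Measure.pi (fun _ : Fin m => μ)) := ⟨_, rfl⟩
  obtain ⟨L, hL⟩ : ∃ L : ℝ, L = LP μ w x β f (dy (k + 1)) -
      dy (k + 1) * MP μ w x β f (dy (k + 1)) := ⟨_, rfl⟩
  have hkey : ∀ y, γ * (L + c₁ * ∑ i, G i y) - ∑ i, Q i y ≤ R := by
    intro y
    have h1 := adapt_gain μ hμ hβ hE h01 f hγ (dy (k + 1)) (fun i => (y i).2)
      (fun ω i => lam w x β f k κ d y ω i)
      (fun i => (lam_meas hE β f k κ d i).comp (measurable_id.prodMk measurable_const))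
      (fun ω i => lam_nonneg hE β f k hκ d y ω i) (fun ω i => lam_le hE β f k hκ1 d y ω i)
      (fun i ω ω' h => lam_dep w x β f k κ d y i ω ω' h)
    rw [hR, hL, hc₁, hG, hQ]
    exact h1
  have hGI : ∀ i, Integrable (G i) (Measure.pi fun _ : Fin m => μ.prod π) := fun i => by
    rw [hG]; exact (hgain i).1
  have hQI : ∀ i, Integrable (Q i) (Measure.pi fun _ : Fin m => μ.prod π) := fun i => by
    rw [hQ]; exact (hcost i).1
  have hGS : Integrable (fun y => ∑ i, G i y) (Measure.pi fun _ : Fin m => μ.prod π) :=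
    integrable_finsetSum _ fun i _ => hGI i
  have hQS : Integrable (fun y => ∑ i, Q i y) (Measure.pi fun _ : Fin m => μ.prod π) :=
    integrable_finsetSum _ fun i _ => hQI i
  have hint : γ * (L + c₁ * ∑ i, ∫ y, G i y ∂(Measure.pi fun _ : Fin m => μ.prod π)) -
      ∑ i, ∫ y, Q i y ∂(Measure.pi fun _ : Fin m => μ.prod π) ≤ R := by
    have i1 : Integrable (fun y => c₁ * ∑ i, G i y) (Measure.pi fun _ : Fin m => μ.prod π) :=
      hGS.const_mul c₁
    have i2 : Integrable (fun y => L + c₁ * ∑ i, G i y) (Measure.pi fun _ : Fin m => μ.prod π) :=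
      (integrable_const L).add i1
    have i3 : Integrable (fun y => γ * (L + c₁ * ∑ i, G i y))
      (Measure.pi fun _ : Fin m => μ.prod π) := i2.const_mul γ
    have h1 : ∫ y, (γ * (L + c₁ * ∑ i, G i y) - ∑ i, Q i y)
        ∂(Measure.pi fun _ : Fin m => μ.prod π) ≤
        ∫ _, R ∂(Measure.pi fun _ : Fin m => μ.prod π) :=
      integral_mono (i3.sub hQS) (integrable_const _) hkey
    rw [integral_const, probReal_univ, one_smul, integral_sub i3 hQS, integral_const_mul,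
      integral_add (integrable_const L) i1, integral_const, probReal_univ,
      one_smul, integral_const_mul, integral_finsetSum _ (fun i _ => hGI i),
      integral_finsetSum _ (fun i _ => hQI i)] at h1
    exact h1
  -- the gain and the cost
  obtain ⟨S2, hS2⟩ : ∃ S2 : ℝ, S2 = ∑ i, ∫ ω, pZ w x β f i ω (dy (k + 1)) ^ 2
      ∂(Measure.pi fun _ : Fin m => μ) := ⟨_, rfl⟩
  obtain ⟨S1, hS1⟩ : ∃ S1 : ℝ → ℝ, S1 = fun δ => ∑ i, ∫ ω, pZ w x β f i ω δ
      ∂(Measure.pi fun _ : Fin m => μ) := ⟨_, rfl⟩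
  obtain ⟨T, hT⟩ : ∃ T : ℝ, T = ∑ j ∈ range (k + 1), t j := ⟨_, rfl⟩
  have hT0 : 0 ≤ T := by rw [hT]; exact Finset.sum_nonneg fun j _ => ht j
  have hg1 : T * (Real.exp (-a) * ((1 + a) * S2 - Real.exp (-1) * S1 (dy (k + 1)))) ≤
      ∑ i, ∫ y, G i y ∂(Measure.pi fun _ : Fin m => μ.prod π) := by
    have h1 : T * (Real.exp (-a) * ((1 + a) * S2 - Real.exp (-1) * S1 (dy (k + 1)))) =
        ∑ i, T * V i := by
      rw [hS2, hS1, hV, ← Finset.mul_sum, ← Finset.mul_sum, Finset.sum_sub_distrib,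
        Finset.mul_sum, Finset.mul_sum]
    rw [h1]
    refine Finset.sum_le_sum fun i _ => ?_
    rw [hT, hG]
    exact (hgain i).2
  have hc1 : ∑ i, ∫ y, Q i y ∂(Measure.pi fun _ : Fin m => μ.prod π) ≤
      ∑ j ∈ range (k + 1), t j ^ 2 * 2 ^ (j + 1) / η * S1 (d j) := by
    calc ∑ i, ∫ y, Q i y ∂(Measure.pi fun _ : Fin m => μ.prod π) ≤
        ∑ i, ∑ j ∈ range (k + 1), t j ^ 2 * 2 ^ (j + 1) / η *
          ∫ ω, pZ w x β f i ω (d j) ∂(Measure.pi fun _ : Fin m => μ) := by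
          refine Finset.sum_le_sum fun i _ => ?_
          rw [hQ]
          exact (hcost i).2
      _ = _ := by
          rw [Finset.sum_comm]
          refine Finset.sum_congr rfl fun j _ => ?_
          rw [hS1, ← Finset.mul_sum]
  have hR2 : 1 / E₂ * RP μ w x β f (dy (k + 1)) ≤ S2 := by
    rw [one_div, inv_mul_le_iff₀ hE2pos, hE₂, hS2]
    exact RP_le hE h01 μ hβ hi2 f _
  have hM1 : ∀ δ, S1 δ ≤ MP μ w x β f δ / E₁ := by
    intro δ
    rw [le_div_iff₀ hE1pos, mul_comm, hE₁, hS1]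
    exact MP_ge hE h01 μ hβ f δ
  have hdj : ∀ j ∈ range (k + 1), S1 (d j) ≤ MP μ w x β f (dy j) / E₁ := by
    intro j hj
    refine (hM1 (d j)).trans ?_
    refine div_le_div_of_nonneg_right (MP_mono hE μ β f ?_) hE1pos.le
    rw [hd]
    show dy (k + 1) + A * (π {g | j + 1 ≤ g}).toReal ≤ dy j
    rw [hπ2]
    have h1 : dy (k + 1) ≤ dy (j + 1) := dy_anti (by have := Finset.mem_range.mp hj; omega)
    have h2 : A * (η * dy j) ≤ 1 / 4 * dy j := by
      rw [← mul_assoc]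
      exact mul_le_mul_of_nonneg_right hAη (dy_pos j).le
    have h3 := dy_half j
    have h4 := dy_pos j
    linarith
  have hc2 : ∑ j ∈ range (k + 1), t j ^ 2 * 2 ^ (j + 1) / η * S1 (d j) ≤
      1 / (η * E₁) * ∑ j ∈ range (k + 1), t j ^ 2 * 2 ^ (j + 1) * MP μ w x β f (dy j) := by
    rw [Finset.mul_sum]
    refine Finset.sum_le_sum fun j hj => ?_
    calc t j ^ 2 * 2 ^ (j + 1) / η * S1 (d j) ≤
        t j ^ 2 * 2 ^ (j + 1) / η * (MP μ w x β f (dy j) / E₁) :=
          mul_le_mul_of_nonneg_left (hdj j hj) (by positivity)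
      _ = _ := by field_simp
  have hg2 : T * (Real.exp (-a) * ((1 + a) * (1 / E₂) * RP μ w x β f (dy (k + 1)) -
      Real.exp (-1) / E₁ * MP μ w x β f (dy (k + 1)))) ≤
      T * (Real.exp (-a) * ((1 + a) * S2 - Real.exp (-1) * S1 (dy (k + 1)))) := by
    refine mul_le_mul_of_nonneg_left (mul_le_mul_of_nonneg_left ?_ (Real.exp_pos _).le) hT0
    have h1 : (1 + a) * (1 / E₂) * RP μ w x β f (dy (k + 1)) ≤ (1 + a) * S2 := by
      rw [mul_assoc]
      exact mul_le_mul_of_nonneg_left hR2 (by linarith)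
    have h2 : Real.exp (-1) * S1 (dy (k + 1)) ≤
        Real.exp (-1) / E₁ * MP μ w x β f (dy (k + 1)) := by
      calc Real.exp (-1) * S1 (dy (k + 1)) ≤
          Real.exp (-1) * (MP μ w x β f (dy (k + 1)) / E₁) :=
            mul_le_mul_of_nonneg_left (hM1 _) (Real.exp_pos _).le
        _ = _ := by ring
    linarith
  have hfin : γ * (L + c₁ * (T * (Real.exp (-a) * ((1 + a) * (1 / E₂) *
      RP μ w x β f (dy (k + 1)) - Real.exp (-1) / E₁ * MP μ w x β f (dy (k + 1)))))) ≤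
      γ * (L + c₁ * ∑ i, ∫ y, G i y ∂(Measure.pi fun _ : Fin m => μ.prod π)) := by
    refine mul_le_mul_of_nonneg_left ?_ hγ.le
    have := mul_le_mul_of_nonneg_left (hg2.trans hg1) hc1pos.le
    linarith
  rw [← hR, ← hL, ← hT, mul_assoc c₁ T]
  linarith [hfin, hint, hc1, hc2]

end

end Pool.Agent.OT
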