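import Mathlib
import Pool.Agent.Lib.MP_daa227_pr_OT.Defs2
import Pool.Agent.Lib.MP_daa227_pr_OT.EFc
import Pool.Agent.Lib.MP_daa227_pr_OT.Paths
import Pool.Agent.Lib.MP_daa227_pr_OT.PathSum
import Pool.Agent.Lib.MP_daa227_pr_OT.KZ
import Pool.Agent.Lib.MP_daa227_pr_OT.TiltSeq
import Pool.Agent.Lib.MP_daa227_pr_OT.Main2

/-!
# Copolymer: the tilting inequality for all charge laws
-/

namespace Pool.Agent.OT

open MeasureTheory ProbabilityTheory Finset Filter Topology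
open MP_daa227_pr (Chain Zk Zf K0 shift seqLaw ExpMom)

noncomputable section

namespace V9

lemma int_tr {m : ℕ} (μ : Measure ℝ) [IsProbabilityMeasure μ] (β h δ : ℝ)
    {Φ : (Fin m → ℝ) → ℝ} (hΦ : Measurable Φ) :
    ∫ v : Fin m → ℝ, Φ (fun i => β * v i + -h + δ) ∂Measure.pi (fun _ : Fin m => μ) =
      ∫ ω, Φ (tr m (en β (h - δ) ω)) ∂seqLaw μ := by
  have h1 := E4.mp_tr μ m
  have hΨ : Measurable (fun v : Fin m → ℝ => Φ (fun i => β * v i + -h + δ)) :=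
    hΦ.comp (by rw [measurable_pi_iff]; intro i; fun_prop)
  rw [← h1.map_eq, integral_map h1.measurable.aemeasurable hΨ.aestronglyMeasurable]
  refine integral_congr_ae (ae_of_all _ fun ω => ?_)
  change Φ _ = Φ _
  congr 1
  funext i
  simp only [tr, en]
  ring

lemma spin01 (m : ℕ) (s : {s // s ∈ PF m}) (i : Fin m) : spin m s i = 0 ∨ spin m s i = 1 := by
  unfold spin phi
  split_ifs
  · exact Or.inr rfl
  · exact Or.inl rfl

end V9

theorem adapt_seq (C : Chain) (hnl : ∀ x, C.p x x = 0) (μ : Measure ℝ) [IsProbabilityMeasure μ]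
    (hμ : ExpMom μ) (hmean : ∫ x, x ∂μ = 0) (hvar : ∫ x, x ^ 2 ∂μ ≠ 0) {β : ℝ} (hβ : 0 < β) :
    ∃ c₀ c₁ c₂ C₂ C₃ : ℝ, 0 < c₀ ∧ 0 < c₁ ∧ 0 < c₂ ∧ 0 < C₂ ∧ 0 < C₃ ∧
      ∀ (h γ : ℝ), 0 < γ → ∀ (a : ℝ), 0 ≤ a →
        ∀ (k : ℕ) (t : ℕ → ℝ), (∀ j, 0 ≤ t j) → (∀ j, t j ≤ c₀ * dy (j + 1)) → ∀ n : ℕ,
      γ * (LZ C μ β (h - dy (k + 1)) n - dy (k + 1) * MZ C μ β (h - dy (k + 1)) n +
          c₁ * (∑ j ∈ range (k + 1), t j) * (Real.exp (-a) *
            ((1 + a) * c₂ * RZ C μ β (h - dy (k + 1)) n -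
              C₃ * MZ C μ β (h - dy (k + 1)) n))) -
        C₂ * ∑ j ∈ range (k + 1), t j ^ 2 * 2 ^ (j + 1) * MZ C μ β (h - dy j) n ≤
      Real.log (∫ ω, Zr (Kp C) (Km C) n (en β h ω) ^ γ ∂seqLaw μ) := by
  obtain ⟨c₀, c₁, c₂, C₂, C₃, h0, h1, h2, h3, h4, main⟩ := adapt_main μ hμ hmean hvar hβ
  refine ⟨c₀, c₁, c₂, C₂, C₃, h0, h1, h2, h3, h4, ?_⟩
  intro h γ hγ a ha k t ht htc n
  have hE := path_EFam C n
  have hZ : ∀ (c : ℝ) (ω : ℕ → ℝ), Zr (Kp C) (Km C) n (en β c ω) =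
      ZE (wt C (2 * n)) (spin (2 * n)) (tr (2 * n) (en β c ω)) := by
    intro c ω
    rw [← Zk_eq_Zr C hnl β c n ω, ← path_sum C hnl β c (2 * n) ω]
  have hL : ∀ δ : ℝ, LP μ (wt C (2 * n)) (spin (2 * n)) β (fun _ => -h) δ =
      LZ C μ β (h - δ) n := by
    intro δ
    unfold LP LZ
    simp only [hZ]
    exact V9.int_tr μ β h δ (E4.continuous_log hE).measurable
  have hM : ∀ δ : ℝ, MP μ (wt C (2 * n)) (spin (2 * n)) β (fun _ => -h) δ =
      MZ C μ β (h - δ) n := by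
    intro δ
    unfold MP MZ
    exact V9.int_tr μ β h δ (Φ := fun θ => ∑ i, pE (wt C (2 * n)) (spin (2 * n)) θ i)
      (continuous_finsetSum _ fun i _ => continuous_pE hE i).measurable
  have hR : ∀ δ : ℝ, RP μ (wt C (2 * n)) (spin (2 * n)) β (fun _ => -h) δ =
      RZ C μ β (h - δ) n := by
    intro δ
    unfold RP RZ
    exact V9.int_tr μ β h δ (Φ := fun θ => ∑ i, pE (wt C (2 * n)) (spin (2 * n)) θ i ^ 2)
      (continuous_finsetSum _ fun i _ => (continuous_pE hE i).pow 2).measurable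
  have key := main hE (V9.spin01 (2 * n)) (fun _ => -h) γ hγ a ha k t ht htc
  rw [hL, hM, hR] at key
  simp only [hM] at key
  refine key.trans (le_of_eq ?_)
  congr 1
  simp only [hZ]
  have hmeas : Measurable fun θ => ZE (wt C (2 * n)) (spin (2 * n)) θ ^ γ :=
    E4.continuous_ZE.measurable.pow_const γ
  have h5 := V9.int_tr μ β h 0 hmeas
  simp only [sub_zero, add_zero] at h5
  exact h5

end

end Pool.Agent.OT
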