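import Mathlib
import Pool.Agent.Lib.MP_daa227_pr_OT.Defs
import Pool.Agent.Lib.MP_daa227_pr_OT.FinA
import Pool.Agent.Lib.MP_daa227_pr_OT.Num2
import Pool.Agent.Lib.MP_daa227_pr_OT.Seq2

/-!
# PROJECT OT2: the order of the transition for every charge law, from the modules
-/

namespace Pool.Agent.OT

open MeasureTheory ProbabilityTheory Finset Filter Topology
open MP_daa227_pr (Chain Zk Zf K0 shift seqLaw ExpMom)

noncomputable section

/-- **Order larger than two**, every charge law. -/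
theorem core2 (C : Chain) (hnl : ∀ x, C.p x x = 0) (hK : KerOK (Kp C) (Km C))
    (μ : Measure ℝ) [IsProbabilityMeasure μ] (hμe : ExpMom μ) (hmean : ∫ x, x ∂μ = 0)
    (hvar : ∫ x, x ^ 2 ∂μ ≠ 0) {β : ℝ} (hβ : 0 < β) {F : ℝ → ℝ}
    (hF1 : ∀ h, Tendsto (fun n : ℕ => LZ C μ β h n / (2 * n)) atTop (𝓝 (F h)))
    (hF2 : ∀ h (n : ℕ), LZ C μ β h n ≤ 2 * n * F h)
    (hF4 : ∀ h h', h ≤ h' → F h' ≤ F h) {hc : ℝ} (hcF : F hc = 0) (hcl : hc < lmg μ β) :
    ∃ ε K : ℝ, 0 < ε ∧ ∀ δ, 0 ≤ δ → δ ≤ 1 → F (hc - δ) ≤ K * δ ^ (2 + ε) := by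
  obtain ⟨γ, A₁, hγ, hA₁, hop1⟩ := hop hK μ hμe hβ hc (fun n => by
    have := hF2 hc n
    rw [hcF, mul_zero] at this
    exact this)
  obtain ⟨r₀, hr₀, L, hov⟩ := overlap C hnl hK μ hμe hβ hcl
  obtain ⟨A₂, hA₂, hlow⟩ := LZ_ge hK μ hμe β (|hc| + 1)
  obtain ⟨c₀, c₁, c₂, C₂, C₃, hc₀, hc₁, hc₂, hC₂, hC₃, hseq⟩ :=
    adapt_seq C hnl μ hμe hmean hvar hβ
  set A := max A₁ A₂ with hA
  have hA0 : 0 ≤ A := hA₁.trans (le_max_left _ _)
  have hlog : ∀ n : ℕ, 1 ≤ n → 0 ≤ 1 + Real.log n := fun n hn => by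
    have : (1 : ℝ) ≤ n := by exact_mod_cast hn
    have := Real.log_nonneg this
    linarith
  set r' := min r₀ (C₃ / c₂) with hr'
  have hr'0 : 0 < r' := lt_min hr₀ (by positivity)
  have hr'1 : r' ≤ r₀ := min_le_left _ _
  have hr'2 : r' ≤ C₃ / c₂ := min_le_right _ _
  set a := 2 * C₃ / (c₂ * r') - 1 with ha
  have ha0 : 0 ≤ a := by
    have h1 : 1 ≤ 2 * C₃ / (c₂ * r') := by
      rw [le_div_iff₀ (by positivity)]
      rw [le_div_iff₀ hc₂] at hr'2
      linarith
    linarith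
  have haeq : (1 + a) * c₂ * r' = 2 * C₃ := by
    rw [ha]; field_simp; ring
  set r := c₁ * (Real.exp (-a) * C₃) with hr
  have hr0 : 0 < r := by positivity
  obtain ⟨D, q, hD, hq, hq2, hnum⟩ := num_main2 (fun k n => MZ C μ β (hc - dy k) n)
    r γ C₂ c₀ A L hr0 hγ hC₂ hc₀ hA0
    (fun k n => (MZ_bounds C μ β _ n).1) (fun k n => (MZ_bounds C μ β _ n).2.1)
    (fun k n hn t ht htc => by
      have h1 := hseq hc γ hγ a ha0 k t ht htc n
      have h2 := (hop1 n hn).2
      have h3 := hlow (hc - dy (k + 1)) (by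
        have h4 := dy_pos (k + 1)
        have h5 := dy_le_one (k + 1)
        refine (abs_sub _ _).trans ?_
        rw [abs_of_pos h4]
        linarith) n hn
      have h4 : A₁ * (1 + Real.log n) ≤ A * (1 + Real.log n) :=
        mul_le_mul_of_nonneg_right (le_max_left _ _) (hlog n hn)
      have h5 : A₂ * (1 + Real.log n) ≤ A * (1 + Real.log n) :=
        mul_le_mul_of_nonneg_right (le_max_right _ _) (hlog n hn)
      have h6 : -(A * (1 + Real.log n)) ≤ LZ C μ β (hc - dy (k + 1)) n := by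
        refine le_trans ?_ h3
        linarith
      have hov1 := hov (dy (k + 1)) (dy_pos (k + 1)).le (dy_le_one (k + 1)) n hn
      have hR0 := (MZ_bounds C μ β (hc - dy (k + 1)) n).2.2
      set Mn := MZ C μ β (hc - dy (k + 1)) n with hMn
      set Mp := MZ C μ β (hc - dy (k + 1)) (n + L) with hMp
      set Rn := RZ C μ β (hc - dy (k + 1)) n with hRn
      have h7 : r' * (Mn - (1 / 4) * Mp - 2) ≤ Rn := by
        rcases le_or_gt 0 (Mn - (1 / 4) * Mp - 2) with h | h
        · exact (mul_le_mul_of_nonneg_right hr'1 h).trans hov1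
        · exact (mul_nonpos_of_nonneg_of_nonpos hr'0.le h.le).trans hR0
      have h8 : C₃ * (Mn - (1 / 2) * Mp - 4) ≤ (1 + a) * c₂ * Rn - C₃ * Mn := by
        have h9 := mul_le_mul_of_nonneg_left h7 (show 0 ≤ (1 + a) * c₂ by positivity)
        have h10 : (1 + a) * c₂ * (r' * (Mn - (1 / 4) * Mp - 2)) =
            2 * C₃ * (Mn - (1 / 4) * Mp - 2) := by rw [← haeq]; ring
        rw [h10] at h9
        linarith
      have hT0 : 0 ≤ ∑ j ∈ range (k + 1), t j := sum_nonneg fun j _ => ht j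
      have h11 : r * (∑ j ∈ range (k + 1), t j) * (Mn - (1 / 2) * Mp - 4) ≤
          c₁ * (∑ j ∈ range (k + 1), t j) * (Real.exp (-a) *
            ((1 + a) * c₂ * Rn - C₃ * Mn)) := by
        have h12 := mul_le_mul_of_nonneg_left h8
          (show 0 ≤ c₁ * (∑ j ∈ range (k + 1), t j) * Real.exp (-a) by positivity)
        calc r * (∑ j ∈ range (k + 1), t j) * (Mn - (1 / 2) * Mp - 4) =
            c₁ * (∑ j ∈ range (k + 1), t j) * Real.exp (-a) *
              (C₃ * (Mn - (1 / 2) * Mp - 4)) := by rw [hr]; ring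
          _ ≤ _ := h12
          _ = _ := by ring
      have h13 : γ * (-(A * (1 + Real.log n)) - dy (k + 1) * Mn +
          r * (∑ j ∈ range (k + 1), t j) * (Mn - (1 / 2) * Mp - 4)) ≤
          γ * (LZ C μ β (hc - dy (k + 1)) n - dy (k + 1) * Mn +
          c₁ * (∑ j ∈ range (k + 1), t j) * (Real.exp (-a) *
            ((1 + a) * c₂ * Rn - C₃ * Mn))) := by
        apply mul_le_mul_of_nonneg_left _ hγ.le
        linarith
      linarith)
  have hdy : ∀ k : ℕ, F (hc - dy k) ≤ D / 2 * (q / 2) ^ k := by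
    intro k
    have h1 := F_dy (L := fun n => LZ C μ β (hc - dy k) n)
      (M := fun n => MZ C μ β (hc - dy k) n) (D := D) (F (hc - dy k)) (d := dy k) (q := q ^ k)
      (dy_pos k).le (by positivity) (hF1 _) (fun n => by
        have h2 := LZ_conv C hnl hK μ hμe β hc (dy k) (dy_pos k).le n
        have h3 := hF2 hc n
        rw [hcF, mul_zero] at h3
        linarith) (hnum k)
    refine h1.trans (le_of_eq ?_)
    unfold dy
    rw [div_pow, div_pow, one_pow]
    ring
  -- interpolation between the dyadic scales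
  set ε := Real.logb 2 (1 / (2 * q)) with hε
  have hq1 : 1 < 1 / (2 * q) := by
    rw [lt_div_iff₀ (by positivity)]
    linarith
  have hε0 : 0 < ε := Real.logb_pos (by norm_num) hq1
  have hpow : ∀ k : ℕ, (q / 2) ^ k = (dy k) ^ (2 + ε) := by
    intro k
    have h1 : q / 2 = (1 / 2 : ℝ) ^ (2 + ε) := by
      rw [one_div, Real.inv_rpow (by norm_num), Real.rpow_add (by norm_num), hε,
        Real.rpow_logb (by norm_num) (by norm_num) (by positivity)]
      have : (2 : ℝ) ^ (2 : ℝ) = 4 := by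
        rw [show (2 : ℝ) = ((2 : ℕ) : ℝ) by norm_num, Real.rpow_natCast]; norm_num
      rw [this]
      field_simp
      ring
    unfold dy
    rw [h1, ← Real.rpow_natCast, ← Real.rpow_natCast, ← Real.rpow_mul (by norm_num),
      ← Real.rpow_mul (by norm_num), mul_comm]
  refine ⟨ε, D / 2 * 2 ^ (2 + ε), hε0, fun δ hδ0 hδ1 => ?_⟩
  rcases hδ0.eq_or_lt with h0 | h0
  · rw [← h0, sub_zero, hcF]
    positivity
  · obtain ⟨k, hk1, hk2⟩ : ∃ k : ℕ, dy (k + 1) < δ ∧ δ ≤ dy k := by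
      obtain ⟨m, hm⟩ := exists_pow_lt_of_lt_one h0 (by norm_num : (1 / 2 : ℝ) < 1)
      have hex : ∃ m, dy m < δ := ⟨m, hm⟩
      classical
      have h1 := Nat.find_spec hex
      have h2 : Nat.find hex ≠ 0 := by
        intro h3
        rw [h3, dy_zero] at h1
        linarith
      obtain ⟨k, hk⟩ := Nat.exists_eq_succ_of_ne_zero h2
      refine ⟨k, ?_, ?_⟩
      · rw [hk] at h1
        exact h1
      · have h3 := Nat.find_min hex (m := k) (by omega)
        push Not at h3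
        exact h3
    have h1 : F (hc - δ) ≤ F (hc - dy k) := hF4 _ _ (by linarith)
    refine h1.trans ((hdy k).trans ?_)
    rw [hpow k, mul_assoc]
    apply mul_le_mul_of_nonneg_left _ (by positivity)
    have h2 : dy k ≤ 2 * δ := by
      rw [dy_succ] at hk1
      linarith
    rw [← Real.mul_rpow (by norm_num) h0.le]
    exact Real.rpow_le_rpow (dy_pos k).le h2 (by linarith)

end

end Pool.Agent.OT
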