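import Mathlib

/-!
# Module W5: interpolation of sums of powers
-/

namespace Pool.Agent.OT

open Finset

noncomputable section

theorem interp (s : Finset ℕ) (x : ℕ → ℝ) (hx : ∀ i, 0 ≤ x i) {γ₀ t : ℝ} (hγ0 : 0 < γ₀)
    (hγ1 : γ₀ < 1) (ht0 : γ₀ ≤ t) (ht1 : t ≤ 1) :
    ∑ i ∈ s, x i ^ t ≤ (∑ i ∈ s, x i) ^ ((t - γ₀) / (1 - γ₀)) *
      (∑ i ∈ s, x i ^ γ₀) ^ ((1 - t) / (1 - γ₀)) := by
  have hg : (0 : ℝ) < 1 - γ₀ := by linarith
  rcases eq_or_lt_of_le ht0 with h0 | h0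
  · subst h0
    simp [hg.ne']
  rcases eq_or_lt_of_le ht1 with h1 | h1
  · subst h1
    simp [hg.ne']
  have hl : (0 : ℝ) < t - γ₀ := by linarith
  have hm : (0 : ℝ) < 1 - t := by linarith
  have ht : (0 : ℝ) < t := by linarith
  have hpq : Real.HolderConjugate ((1 - γ₀) / (t - γ₀)) ((1 - γ₀) / (1 - t)) := by
    rw [Real.holderConjugate_iff]
    constructor
    · rw [lt_div_iff₀ hl]; linarith
    · rw [inv_div, inv_div]
      field_simp
      ring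
  have key := Real.inner_le_Lp_mul_Lq_of_nonneg s hpq
    (f := fun i => x i ^ ((t - γ₀) / (1 - γ₀)))
    (g := fun i => x i ^ (γ₀ * ((1 - t) / (1 - γ₀))))
    (fun i _ => Real.rpow_nonneg (hx i) _) (fun i _ => Real.rpow_nonneg (hx i) _)
  have e1 : ∀ i ∈ s, x i ^ ((t - γ₀) / (1 - γ₀)) * x i ^ (γ₀ * ((1 - t) / (1 - γ₀))) = x i ^ t := by
    intro i _
    rw [← Real.rpow_add_of_nonneg (hx i) (by positivity) (by positivity)]
    congr 1
    field_simp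
    ring
  have e2 : ∀ i ∈ s, (x i ^ ((t - γ₀) / (1 - γ₀))) ^ ((1 - γ₀) / (t - γ₀)) = x i := by
    intro i _
    rw [← Real.rpow_mul (hx i)]
    have : (t - γ₀) / (1 - γ₀) * ((1 - γ₀) / (t - γ₀)) = 1 := by
      field_simp
    rw [this, Real.rpow_one]
  have e3 : ∀ i ∈ s, (x i ^ (γ₀ * ((1 - t) / (1 - γ₀)))) ^ ((1 - γ₀) / (1 - t)) = x i ^ γ₀ := by
    intro i _
    rw [← Real.rpow_mul (hx i)]
    congr 1
    field_simp
  rw [Finset.sum_congr rfl e1, Finset.sum_congr rfl e2, Finset.sum_congr rfl e3,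
    one_div_div, one_div_div] at key
  exact key

end

end Pool.Agent.OT
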