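import Mathlib
import Pool.Agent.Lib.MP_daa227_pr_OT.Defs
import Pool.Agent.Lib.MP_daa227_pr_OT.Strict
import Pool.Agent.Lib.MP_daa227_pr_OT.FracBig
import Pool.Agent.Lib.MP_daa227_pr_OT.AnnCut
import Pool.Agent.Lib.MP_daa227_pr_OT.Defect
import Pool.Agent.Lib.MP_daa227_pr_OT.Interp

/-!
# Module W6: the quenched critical point is smaller than the annealed one, all exponents
-/

set_option autoImplicit false

namespace Pool.Agent.OT

open MeasureTheory ProbabilityTheory Finset Filter Topology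
open MP_daa227_pr (Chain Zk Zf K0 shift seqLaw ExpMom)

noncomputable section

namespace W6

theorem pow_le_div {a : ℕ → ℝ} (ha0 : ∀ k, 0 ≤ a k) (hanti : ∀ k, 1 ≤ k → a (k + 1) ≤ a k)
    {γ₀ S : ℝ} (hγ0 : 0 < γ₀) (hS : ∀ s : Finset ℕ, ∑ k ∈ s, a k ^ γ₀ ≤ S) {k : ℕ} (hk : 1 ≤ k) :
    a k ^ γ₀ ≤ S / k := by
  have hmono : ∀ j, ∀ i, 1 ≤ i → a (i + j) ≤ a i := by
    intro j
    induction j with
    | zero => intro i _; exact le_rfl
    | succ j ih => intro i hi; exact (hanti (i + j) (by omega)).trans (ih i hi)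
  have h1 : ∀ j ∈ Icc 1 k, a k ^ γ₀ ≤ a j ^ γ₀ := by
    intro j hj
    rw [mem_Icc] at hj
    have h2 := hmono (k - j) j hj.1
    rw [Nat.add_sub_cancel' hj.2] at h2
    exact Real.rpow_le_rpow (ha0 k) h2 hγ0.le
  have h3 := Finset.card_nsmul_le_sum _ _ _ h1
  rw [Nat.card_Icc, nsmul_eq_mul, Nat.add_sub_cancel] at h3
  have hk0 : (0 : ℝ) < k := by exact_mod_cast hk
  rw [le_div_iff₀ hk0, mul_comm]
  exact h3.trans (hS _)

theorem tail_upper {a : ℕ → ℝ} (ha0 : ∀ k, 0 ≤ a k) (hanti : ∀ k, 1 ≤ k → a (k + 1) ≤ a k)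
    {γ₀ S : ℝ} (hγ0 : 0 < γ₀) (hγ1 : γ₀ < 1) (hS : ∀ s : Finset ℕ, ∑ k ∈ s, a k ^ γ₀ ≤ S)
    (hS0 : 0 ≤ S) {g : ℕ} (hg : 1 ≤ g) (s : Finset ℕ) :
    ∑ k ∈ s, (if g ≤ k then a k else 0) ≤ S * (S / g) ^ ((1 - γ₀) / γ₀) := by
  have hg0 : (0 : ℝ) < g := by exact_mod_cast hg
  have he : 0 < (1 - γ₀) / γ₀ := div_pos (by linarith) hγ0
  have h1 : ∀ k ∈ s, (if g ≤ k then a k else 0) ≤ a k ^ γ₀ * (S / g) ^ ((1 - γ₀) / γ₀) := by
    intro k _
    by_cases hk : g ≤ k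
    · rw [if_pos hk]
      have hk0 : (g : ℝ) ≤ k := by exact_mod_cast hk
      rcases (ha0 k).eq_or_lt with h0 | h0
      · rw [← h0, Real.zero_rpow hγ0.ne', zero_mul]
      · have h2 : a k = a k ^ γ₀ * (a k ^ γ₀) ^ ((1 - γ₀) / γ₀) := by
          rw [← Real.rpow_mul h0.le, ← Real.rpow_add h0]
          have : γ₀ + γ₀ * ((1 - γ₀) / γ₀) = 1 := by field_simp; ring
          rw [this, Real.rpow_one]
        have h3 : a k ^ γ₀ ≤ S / g :=
          (pow_le_div ha0 hanti hγ0 hS (hg.trans hk)).trans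
            (div_le_div_of_nonneg_left hS0 hg0 hk0)
        calc a k = a k ^ γ₀ * (a k ^ γ₀) ^ ((1 - γ₀) / γ₀) := h2
          _ ≤ a k ^ γ₀ * (S / g) ^ ((1 - γ₀) / γ₀) :=
            mul_le_mul_of_nonneg_left
              (Real.rpow_le_rpow (Real.rpow_nonneg h0.le _) h3 he.le) (Real.rpow_nonneg h0.le _)
    · rw [if_neg hk]
      exact mul_nonneg (Real.rpow_nonneg (ha0 k) _) (Real.rpow_nonneg (by positivity) _)
  refine (Finset.sum_le_sum h1).trans ?_
  rw [← Finset.sum_mul]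
  exact mul_le_mul_of_nonneg_right (hS s) (Real.rpow_nonneg (by positivity) _)

theorem tendsto_one {D M κ : ℝ} (hD : 0 < D) :
    Tendsto (fun l : ℕ => (D * (l : ℝ) ^ M) ^ (κ / (l : ℝ))) atTop (𝓝 1) := by
  have h1 : Tendsto (fun x : ℝ => x ^ (M * κ / (1 * x + 0))) atTop (𝓝 1) :=
    tendsto_rpow_div_mul_add (M * κ) 1 0 (by norm_num)
  have h2 : Tendsto (fun x : ℝ => D ^ (κ / x)) atTop (𝓝 1) := by
    have h3 : Tendsto (fun x : ℝ => κ / x) atTop (𝓝 0) := tendsto_const_nhds.div_atTop tendsto_id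
    have h4 := (Real.continuous_const_rpow hD.ne').tendsto 0
    rw [Real.rpow_zero] at h4
    exact h4.comp h3
  have h5 := (h2.mul h1).comp (tendsto_natCast_atTop_atTop (R := ℝ))
  rw [mul_one] at h5
  refine h5.congr' ?_
  filter_upwards [eventually_ge_atTop 1] with l hl
  have hl0 : (0 : ℝ) < l := by exact_mod_cast hl
  simp only [Function.comp_apply]
  rw [Real.mul_rpow hD.le (Real.rpow_nonneg hl0.le _), ← Real.rpow_mul hl0.le]
  congr 2
  ring

/-- Sum over the pieces between the big excursions. -/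
theorem sum_small {v : ℕ → ℝ} (hv0 : ∀ n, 0 ≤ v n) {p : ℝ} (hp0 : 0 < p) (hp1 : p < 1)
    (hsum : ∀ n, ∑ i ∈ range n, v i ≤ 1 / p) {G : ℕ} (hG : 1 ≤ G)
    (hdec : ∀ n : ℕ, v n ≤ (1 - p) ^ ((n : ℝ) / G)) {γ₀ ε δ : ℝ} (hγ0 : 0 < γ₀) (hγ1 : γ₀ < 1)
    (hε : 0 < ε) (hε2 : γ₀ ≤ 1 - 2 * ε) (hδ0 : 0 ≤ δ) (hδ : δ ≤ ε * p / (2 * G)) (n : ℕ) :
    ∑ i ∈ range n, (Real.exp (2 * i * δ) * v i) ^ (1 - ε) ≤
      1 / p * (2 * G / γ₀) ^ (2 * (ε / (1 - γ₀))) := by
  have hG0 : (0 : ℝ) < G := by exact_mod_cast hG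
  have hG1 : (1 : ℝ) ≤ G := by exact_mod_cast hG
  have h1γ : 0 < 1 - γ₀ := by linarith
  have hstep : ∀ i ∈ range n, (Real.exp (2 * i * δ) * v i) ^ (1 - ε) ≤ v i ^ (1 - 2 * ε) := by
    intro i _
    rcases (hv0 i).eq_or_lt with h0 | h0
    · rw [← h0, mul_zero, Real.zero_rpow (by linarith), Real.zero_rpow (by linarith)]
    · rw [Real.mul_rpow (Real.exp_pos _).le h0.le]
      have h1 : v i ^ (1 - ε) = v i ^ ε * v i ^ (1 - 2 * ε) := by
        rw [← Real.rpow_add h0]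
        congr 1
        ring
      have h2 : Real.exp (2 * i * δ) ^ (1 - ε) ≤ Real.exp (2 * i * δ) := by
        rw [← Real.exp_mul, Real.exp_le_exp]
        have : 0 ≤ 2 * i * δ := by positivity
        nlinarith
      have h3 : v i ^ ε ≤ Real.exp (-(p * ε * i / G)) := by
        calc v i ^ ε ≤ ((1 - p) ^ ((i : ℝ) / G)) ^ ε := Real.rpow_le_rpow h0.le (hdec i) hε.le
          _ ≤ ((Real.exp (-p)) ^ ((i : ℝ) / G)) ^ ε := by
              refine Real.rpow_le_rpow (Real.rpow_nonneg (by linarith) _) ?_ hε.le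
              refine Real.rpow_le_rpow (by linarith) ?_ (by positivity)
              have := Real.add_one_le_exp (-p)
              linarith
          _ = Real.exp (-(p * ε * i / G)) := by
              rw [← Real.exp_mul, ← Real.exp_mul]
              congr 1
              ring
      have h4 : Real.exp (2 * i * δ) * Real.exp (-(p * ε * i / G)) ≤ 1 := by
        rw [← Real.exp_add, Real.exp_le_one_iff]
        have h5 : 2 * i * δ ≤ 2 * i * (ε * p / (2 * G)) :=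
          mul_le_mul_of_nonneg_left hδ (by positivity)
        have h6 : 2 * (i : ℝ) * (ε * p / (2 * G)) = p * ε * i / G := by
          field_simp
        linarith
      rw [h1]
      calc Real.exp (2 * i * δ) ^ (1 - ε) * (v i ^ ε * v i ^ (1 - 2 * ε))
          ≤ Real.exp (2 * i * δ) * (Real.exp (-(p * ε * i / G)) * v i ^ (1 - 2 * ε)) := by
            refine mul_le_mul h2 (mul_le_mul_of_nonneg_right h3 (Real.rpow_nonneg h0.le _))
              (by positivity) (Real.exp_pos _).le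
        _ = Real.exp (2 * i * δ) * Real.exp (-(p * ε * i / G)) * v i ^ (1 - 2 * ε) := by ring
        _ ≤ 1 * v i ^ (1 - 2 * ε) :=
            mul_le_mul_of_nonneg_right h4 (Real.rpow_nonneg h0.le _)
        _ = v i ^ (1 - 2 * ε) := one_mul _
  refine (Finset.sum_le_sum hstep).trans ?_
  refine (interp (range n) v hv0 hγ0 hγ1 hε2 (by linarith)).trans ?_
  have e1 : (1 - 2 * ε - γ₀) / (1 - γ₀) = 1 - 2 * (ε / (1 - γ₀)) := by
    field_simp
    ring
  have e2 : (1 - (1 - 2 * ε)) / (1 - γ₀) = 2 * (ε / (1 - γ₀)) := by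
    field_simp
    ring
  have hnn : 0 ≤ 1 - 2 * (ε / (1 - γ₀)) := by
    rw [← e1]
    exact div_nonneg (by linarith) h1γ.le
  have hθ : 0 ≤ 2 * (ε / (1 - γ₀)) := by positivity
  rw [e1, e2]
  have h1 : ∑ i ∈ range n, v i ^ γ₀ ≤ 1 / p * (2 * G / γ₀) := by
    set x := p * γ₀ / G with hx
    have hx0 : 0 < x := by positivity
    have hx1 : x ≤ 1 := by
      rw [hx, div_le_one hG0]
      nlinarith
    set r := Real.exp (-x) with hr
    have hr0 : 0 ≤ r := (Real.exp_pos _).le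
    have hr1 : r < 1 := by
      rw [hr, Real.exp_lt_one_iff]
      linarith
    have h2 : ∀ i ∈ range n, v i ^ γ₀ ≤ r ^ i := by
      intro i _
      calc v i ^ γ₀ ≤ ((1 - p) ^ ((i : ℝ) / G)) ^ γ₀ := Real.rpow_le_rpow (hv0 i) (hdec i) hγ0.le
        _ ≤ ((Real.exp (-p)) ^ ((i : ℝ) / G)) ^ γ₀ := by
            refine Real.rpow_le_rpow (Real.rpow_nonneg (by linarith) _) ?_ hγ0.le
            refine Real.rpow_le_rpow (by linarith) ?_ (by positivity)
            have := Real.add_one_le_exp (-p)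
            linarith
        _ = r ^ i := by
            rw [hr, ← Real.exp_mul, ← Real.exp_mul, ← Real.exp_nat_mul, hx]
            congr 1
            ring
    refine (Finset.sum_le_sum h2).trans ?_
    have h3 : ∑ i ∈ range n, r ^ i ≤ (1 - r)⁻¹ := by
      have := sum_le_hasSum (range n) (fun i _ => pow_nonneg hr0 i)
        (hasSum_geometric_of_lt_one hr0 hr1)
      exact this
    refine h3.trans ?_
    have h4 : x / 2 ≤ 1 - r := by
      have h5 : r * (1 + x) ≤ 1 := by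
        have h6 := Real.add_one_le_exp x
        have h7 : r * Real.exp x = 1 := by
          rw [hr, ← Real.exp_add, neg_add_cancel, Real.exp_zero]
        nlinarith
      nlinarith
    calc (1 - r)⁻¹ ≤ (x / 2)⁻¹ := inv_anti₀ (by positivity) h4
      _ = 1 / p * (2 * G / γ₀) := by
          rw [hx]
          field_simp
  have hpow : ((1 : ℝ) / p) ^ (1 - 2 * (ε / (1 - γ₀))) * (1 / p * (2 * G / γ₀)) ^
      (2 * (ε / (1 - γ₀))) = 1 / p * (2 * G / γ₀) ^ (2 * (ε / (1 - γ₀))) := by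
    have hp2 : (0 : ℝ) < 1 / p := by positivity
    rw [Real.mul_rpow hp2.le (by positivity), ← mul_assoc, ← Real.rpow_add hp2]
    have : 1 - 2 * (ε / (1 - γ₀)) + 2 * (ε / (1 - γ₀)) = 1 := by ring
    rw [this, Real.rpow_one]
  rw [← hpow]
  refine mul_le_mul (Real.rpow_le_rpow (Finset.sum_nonneg fun i _ => hv0 i) (hsum n) hnn)
    (Real.rpow_le_rpow (Finset.sum_nonneg fun i _ => Real.rpow_nonneg (hv0 i) _) h1 hθ)
    (Real.rpow_nonneg (Finset.sum_nonneg fun i _ => Real.rpow_nonneg (hv0 i) _) _)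
    (Real.rpow_nonneg (by positivity) _)

/-- Sum over the lengths of a big excursion. -/
theorem sum_big {c : ℕ → ℝ} (hc0 : ∀ k, 0 ≤ c k) {A S γ₀ ε : ℝ} (hA : 0 < A) (hS0 : 0 ≤ S)
    (hγ0 : 0 < γ₀) (hγ1 : γ₀ < 1) (hε : 0 < ε) (hε2 : γ₀ ≤ 1 - 2 * ε) (s : Finset ℕ)
    (h1 : ∑ k ∈ s, c k ≤ A) (h2 : ∑ k ∈ s, c k ^ γ₀ ≤ S) :
    ∑ k ∈ s, c k ^ (1 - ε) ≤ A * (S / A) ^ (ε / (1 - γ₀)) := by
  have h1γ : 0 < 1 - γ₀ := by linarith
  refine (interp s c hc0 hγ0 hγ1 (t := 1 - ε) (by linarith) (by linarith)).trans ?_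
  have e1 : (1 - ε - γ₀) / (1 - γ₀) = 1 - ε / (1 - γ₀) := by
    field_simp
    ring
  have e2 : (1 - (1 - ε)) / (1 - γ₀) = ε / (1 - γ₀) := by
    field_simp
    ring
  rw [e1, e2]
  have hnn : 0 ≤ 1 - ε / (1 - γ₀) := by
    rw [← e1]
    exact div_nonneg (by linarith) h1γ.le
  have hpow : A ^ (1 - ε / (1 - γ₀)) * S ^ (ε / (1 - γ₀)) = A * (S / A) ^ (ε / (1 - γ₀)) := by
    rw [Real.div_rpow hS0 hA.le, Real.rpow_sub hA, Real.rpow_one]
    ring
  rw [← hpow]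
  refine mul_le_mul (Real.rpow_le_rpow (Finset.sum_nonneg fun i _ => hc0 i) h1 hnn)
    (Real.rpow_le_rpow (Finset.sum_nonneg fun i _ => Real.rpow_nonneg (hc0 i) _) h2
      (by positivity)) (Real.rpow_nonneg (Finset.sum_nonneg fun i _ =>
        Real.rpow_nonneg (hc0 i) _) _) (Real.rpow_nonneg hA.le _)

/-- The numerical condition at the scale `l`. -/
theorem exists_scale {c₁ γ₀ D M c' e' S κ : ℝ} (hc1 : 0 < c₁) (hγ1 : γ₀ < 1) (hγ0 : 0 < γ₀)
    (hD : 0 < D) (hc' : 0 < c') (hκ : 0 < κ) (hS : 0 < S) :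
    ∃ K l : ℕ, 1 ≤ K ∧ 1 ≤ l ∧ 2 / (1 - γ₀) ≤ l ∧
      S * (S / ((l ^ K : ℕ) : ℝ)) ^ κ ≤ c' * (l : ℝ) ^ (-e') ∧
      (1 + Real.exp (-c₁)) / 2 * ((D * (l : ℝ) ^ (M * K + M)) ^ ((1 / (1 - γ₀)) / (l : ℝ))) < 1 := by
  obtain ⟨K, hK⟩ := exists_nat_gt ((e' + 1) / κ)
  set K' := K + 1 with hK'
  have hKκ : e' + 1 ≤ K' * κ := by
    have h1 : (e' + 1) / κ ≤ K' := by
      rw [hK']
      push_cast
      linarith
    rwa [div_le_iff₀ hκ] at h1
  have hlt : (1 + Real.exp (-c₁)) / 2 < 1 := by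
    have : Real.exp (-c₁) < 1 := Real.exp_lt_one_iff.2 (by linarith)
    linarith
  have ht := (tendsto_one (D := D) (M := M * K' + M) (κ := 1 / (1 - γ₀)) hD).const_mul
    ((1 + Real.exp (-c₁)) / 2)
  rw [mul_one] at ht
  have h1 := ht.eventually_lt_const hlt
  have h2 : ∀ᶠ l : ℕ in atTop, 2 / (1 - γ₀) ≤ (l : ℝ) :=
    tendsto_natCast_atTop_atTop.eventually_ge_atTop _
  have h3 : ∀ᶠ l : ℕ in atTop, S * S ^ κ / c' ≤ (l : ℝ) :=
    tendsto_natCast_atTop_atTop.eventually_ge_atTop _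
  obtain ⟨l, hl1, hl2, hl3, hl4⟩ := (h1.and (h2.and (h3.and (eventually_ge_atTop 1)))).exists
  refine ⟨K', l, by omega, hl4, hl2, ?_, ?_⟩
  · have hl0 : (0 : ℝ) < l := by exact_mod_cast hl4
    have hl1' : (1 : ℝ) ≤ l := by exact_mod_cast hl4
    have e1 : (S / ((l ^ K' : ℕ) : ℝ)) ^ κ = S ^ κ * (l : ℝ) ^ (-(K' * κ)) := by
      rw [Nat.cast_pow, Real.div_rpow hS.le (by positivity), ← Real.rpow_natCast,
        ← Real.rpow_mul hl0.le, Real.rpow_neg hl0.le, div_eq_mul_inv]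
    rw [e1]
    have e2 : (l : ℝ) ^ (-(K' * κ)) ≤ (l : ℝ) ^ (-e') * (l : ℝ)⁻¹ := by
      rw [← Real.rpow_neg_one, ← Real.rpow_add hl0]
      exact Real.rpow_le_rpow_of_exponent_le hl1' (by linarith)
    have e3 : S * S ^ κ * (l : ℝ)⁻¹ ≤ c' := by
      rw [div_le_iff₀ hc'] at hl3
      rw [← div_eq_mul_inv, div_le_iff₀ hl0]
      linarith
    have hle : 0 < (l : ℝ) ^ (-e') := Real.rpow_pos_of_pos hl0 _
    have hSκ : 0 < S * S ^ κ := mul_pos hS (Real.rpow_pos_of_pos hS _)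
    calc S * (S ^ κ * (l : ℝ) ^ (-(K' * κ))) = S * S ^ κ * (l : ℝ) ^ (-(K' * κ)) := by ring
      _ ≤ S * S ^ κ * ((l : ℝ) ^ (-e') * (l : ℝ)⁻¹) := mul_le_mul_of_nonneg_left e2 hSκ.le
      _ = S * S ^ κ * (l : ℝ)⁻¹ * (l : ℝ) ^ (-e') := by ring
      _ ≤ c' * (l : ℝ) ^ (-e') := mul_le_mul_of_nonneg_right e3 hle.le
  · exact hl1

end W6

/-- the quenched critical point is smaller than the annealed one, for all exponents -/
theorem strict_all {a b : ℕ → ℝ} (hK : KerOK a b) (μ : Measure ℝ) [IsProbabilityMeasure μ]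
    (hμ : ExpMom μ) (hvar : ∫ x, x ^ 2 ∂μ ≠ 0) (hmean : ∫ x, x ∂μ = 0) {β : ℝ} (hβ : 0 < β)
    {γ₀ : ℝ} (hγ0 : 0 < γ₀) (hγ1 : γ₀ < 1) (hsa : Summable fun k => a k ^ γ₀)
    (hsb : Summable fun k => b k ^ γ₀) :
    ∃ h₁ : ℝ, h₁ < lmg μ β ∧ ∃ B : ℝ, ∀ n,
      ∫ ω, Real.log (Zr a b n (en β h₁ ω)) ∂seqLaw μ ≤ B := by
  have ha0 : ∀ k, 0 ≤ a k := fun k => by
    rcases Nat.eq_zero_or_pos k with rfl | hk
    · rw [hK.a_zero]
    · exact (hK.a_pos k hk).le
  have hb0 : ∀ k, 0 ≤ b k := fun k => by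
    rcases Nat.eq_zero_or_pos k with rfl | hk
    · rw [hK.b_zero]
    · exact (hK.b_pos k hk).le
  have hc1 : 0 < lmg μ β - 2 * lmg μ (β / 2) := by
    have := X1.lmg_strict hμ hvar hmean hβ
    linarith
  set c₁ := lmg μ β - 2 * lmg μ (β / 2) with hc₁
  have hA0' : 0 ≤ ∑' k, a k ^ γ₀ := tsum_nonneg fun k => Real.rpow_nonneg (ha0 k) _
  have hB0' : 0 ≤ ∑' k, b k ^ γ₀ := tsum_nonneg fun k => Real.rpow_nonneg (hb0 k) _
  set S : ℝ := (∑' k, a k ^ γ₀) + (∑' k, b k ^ γ₀) + 1 with hSdef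
  have hS0 : 0 < S := by rw [hSdef]; linarith
  have hSa : ∀ s : Finset ℕ, ∑ k ∈ s, a k ^ γ₀ ≤ S := fun s => by
    have := hsa.sum_le_tsum s (fun k _ => Real.rpow_nonneg (ha0 k) _)
    rw [hSdef]; linarith
  have hSb : ∀ s : Finset ℕ, ∑ k ∈ s, b k ^ γ₀ ≤ S := fun s => by
    have := hsb.sum_le_tsum s (fun k _ => Real.rpow_nonneg (hb0 k) _)
    rw [hSdef]; linarith
  obtain ⟨c, e, hc, he, halow⟩ := hK.a_low
  obtain ⟨c', e', hc', he', hblow⟩ := hK.b_low
  have hκ : 0 < (1 - γ₀) / γ₀ := div_pos (by linarith) hγ0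
  have hcc : 0 < min c c' := lt_min hc hc'
  obtain ⟨K, l, hK1, hl1, hl2, hl3, hl4⟩ := W6.exists_scale (c₁ := c₁) (γ₀ := γ₀)
    (D := 4 / γ₀ ^ 2 * (S / min c c')) (M := 2 + e + e') (c' := c') (e' := e') (S := S)
    (κ := (1 - γ₀) / γ₀) hc1 hγ1 hγ0 (by positivity) hc' hκ hS0
  have h1γ : 0 < 1 - γ₀ := by linarith
  have hl0 : (0 : ℝ) < l := by exact_mod_cast hl1
  have hl1' : (1 : ℝ) ≤ l := by exact_mod_cast hl1
  set ε : ℝ := 1 / l with hε
  have hε0 : 0 < ε := by rw [hε]; positivity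
  have hε2 : γ₀ ≤ 1 - 2 * ε := by
    rw [div_le_iff₀ h1γ] at hl2
    have h1 : 2 * ε ≤ 1 - γ₀ := by
      rw [hε, mul_one_div, div_le_iff₀ hl0]
      linarith
    linarith
  have hε1 : ε < 1 / 2 := by linarith
  set G : ℕ := l ^ K with hGdef
  have hG1 : 1 ≤ G := Nat.one_le_pow _ _ hl1
  have hlG : l ≤ G := by
    calc l = l ^ 1 := (pow_one l).symm
      _ ≤ l ^ K := Nat.pow_le_pow_right hl1 hK1
  have hG0 : (0 : ℝ) < G := by exact_mod_cast hG1
  set τ : ℝ := ε / (1 - γ₀) with hτ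
  have hτ0 : 0 < τ := div_pos hε0 h1γ
  have hτ' : (1 / (1 - γ₀)) / (l : ℝ) = τ := by
    rw [hτ, hε]
    field_simp
  rw [hτ'] at hl4
  -- the truncated kernels
  set a₁ : ℕ → ℝ := fun k => if k < G then a k else 0 with ha₁
  set a₂ : ℕ → ℝ := fun k => if G ≤ k then a k else 0 with ha₂
  set b₁ : ℕ → ℝ := fun k => if k < l then b k else 0 with hb₁
  set b₂ : ℕ → ℝ := fun k => if l ≤ k then b k else 0 with hb₂
  have ha₁0 : ∀ k, 0 ≤ a₁ k := fun k => by rw [ha₁]; dsimp only; split_ifs; exacts [ha0 k, le_rfl]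
  have ha₂0 : ∀ k, 0 ≤ a₂ k := fun k => by rw [ha₂]; dsimp only; split_ifs; exacts [ha0 k, le_rfl]
  have hb₁0 : ∀ k, 0 ≤ b₁ k := fun k => by rw [hb₁]; dsimp only; split_ifs; exacts [hb0 k, le_rfl]
  have hb₂0 : ∀ k, 0 ≤ b₂ k := fun k => by rw [hb₂]; dsimp only; split_ifs; exacts [hb0 k, le_rfl]
  have haa : ∀ k, a₁ k + a₂ k = a k := fun k => by
    rw [ha₁, ha₂]; dsimp only
    by_cases hk : k < G
    · rw [if_pos hk, if_neg (by omega), add_zero]
    · rw [if_neg hk, if_pos (by omega), zero_add]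
  have hbb : ∀ k, b₁ k + b₂ k = b k := fun k => by
    rw [hb₁, hb₂]; dsimp only
    by_cases hk : k < l
    · rw [if_pos hk, if_neg (by omega), add_zero]
    · rw [if_neg hk, if_pos (by omega), zero_add]
  have hsum1 := hK.sum_one.summable
  have hsum_a : Summable a := Summable.of_nonneg_of_le ha0 (fun k => by linarith [hb0 k]) hsum1
  have hsum_b : Summable b := Summable.of_nonneg_of_le hb0 (fun k => by linarith [ha0 k]) hsum1
  have hsa₂ : Summable a₂ := Summable.of_nonneg_of_le ha₂0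
    (fun k => by linarith [haa k, ha₁0 k]) hsum_a
  have hsb₂ : Summable b₂ := Summable.of_nonneg_of_le hb₂0
    (fun k => by linarith [hbb k, hb₁0 k]) hsum_b
  set A : ℝ := ∑' k, a₂ k with hA
  set B : ℝ := ∑' k, b₂ k with hB
  have hAle : ∀ s : Finset ℕ, ∑ k ∈ s, a₂ k ≤ A := fun s =>
    hsa₂.sum_le_tsum s (fun k _ => ha₂0 k)
  have hBle : ∀ s : Finset ℕ, ∑ k ∈ s, b₂ k ≤ B := fun s =>
    hsb₂.sum_le_tsum s (fun k _ => hb₂0 k)
  have hAlow : c * (G : ℝ) ^ (-e) ≤ A := by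
    have h1 := hAle {G}
    rw [Finset.sum_singleton, ha₂] at h1
    dsimp only at h1
    rw [if_pos le_rfl] at h1
    exact (halow G hG1).trans h1
  have hBlow : c' * (l : ℝ) ^ (-e') ≤ B := by
    have h1 := hBle {l}
    rw [Finset.sum_singleton, hb₂] at h1
    dsimp only at h1
    rw [if_pos le_rfl] at h1
    exact (hblow l hl1).trans h1
  have hApos : 0 < A := lt_of_lt_of_le (mul_pos hc (Real.rpow_pos_of_pos hG0 _)) hAlow
  have hBpos : 0 < B := lt_of_lt_of_le (mul_pos hc' (Real.rpow_pos_of_pos hl0 _)) hBlow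
  have hAB : A ≤ B := by
    refine le_trans ?_ hBlow
    refine le_trans ?_ hl3
    refine hsa₂.tsum_le_of_sum_le fun s => ?_
    exact W6.tail_upper ha0 hK.a_anti hγ0 hγ1 hSa hS0.le hG1 s
  set p : ℝ := A + B with hp
  have hp0 : 0 < p := by rw [hp]; linarith
  have hsmall : ∀ s : Finset ℕ, ∑ k ∈ s, (a₁ k + b₁ k) ≤ 1 - p := by
    intro s
    have h1 : HasSum (fun k => (a k + b k) - (a₂ k + b₂ k)) (1 - (A + B)) :=
      hK.sum_one.sub (hsa₂.hasSum.add hsb₂.hasSum)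
    have h2 : (fun k => (a k + b k) - (a₂ k + b₂ k)) = fun k => a₁ k + b₁ k := by
      funext k
      rw [← haa k, ← hbb k]
      ring
    rw [h2] at h1
    exact sum_le_hasSum s (fun k _ => add_nonneg (ha₁0 k) (hb₁0 k)) h1
  have hs : ∀ n, ∑ k ∈ range n, (a₁ (k + 1) + b₁ (k + 1)) ≤ 1 - p := by
    intro n
    have h1 := hsmall (range (n + 1))
    rw [Finset.sum_range_succ'] at h1
    linarith [ha₁0 0, hb₁0 0]
  have hl2' : 1 < l := by
    have h1 : (2 : ℝ) < l := by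
      refine lt_of_lt_of_le ?_ hl2
      rw [lt_div_iff₀ h1γ]
      linarith
    have h2 : (1 : ℝ) < l := by linarith
    exact_mod_cast h2
  have hp1 : p < 1 := by
    have h1 := hs 1
    rw [Finset.sum_range_one] at h1
    have h2 : b₁ (0 + 1) = b 1 := by
      rw [hb₁]; dsimp only; rw [if_pos (by omega)]
    rw [h2] at h1
    have := hK.b_pos 1 le_rfl
    linarith [ha₁0 (0 + 1)]
  -- the parameters
  set δ : ℝ := min (c₁ * ε / 2) (ε * p / (2 * G)) with hδ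
  have hδ0 : 0 < δ := lt_min (by positivity) (by positivity)
  have hδ1 : δ ≤ c₁ * ε / 2 := min_le_left _ _
  have hδ2 : δ ≤ ε * p / (2 * G) := min_le_right _ _
  have hq0 : 0 ≤ X1.qq μ β (lmg μ β - δ) (1 - ε) := integral_nonneg fun _ => (Real.exp_pos _).le
  have hq1 : X1.qq μ β (lmg μ β - δ) (1 - ε) ≤ Real.exp (-(c₁ * ε / 2)) := by
    rw [X1.qq_eq hμ, Real.exp_le_exp]
    have h1 := X1.lmg_convex hμ (θ := 1 - 2 * ε) (s := β) (t := β / 2) (by linarith) (by linarith)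
    have h2 : (1 - 2 * ε) * β + (1 - (1 - 2 * ε)) * (β / 2) = (1 - ε) * β := by ring
    rw [h2] at h1
    have h3 : lmg μ ((1 - ε) * β) - (1 - ε) * (lmg μ β - δ) ≤ -(c₁ * ε) + (1 - ε) * δ := by
      rw [hc₁]
      linarith
    nlinarith
  set q := X1.qq μ β (lmg μ β - δ) (1 - ε) with hq
  have hq2 : q ≤ 1 := hq1.trans (Real.exp_le_one_iff.2 (by
    have : 0 < c₁ * ε / 2 := by positivity
    linarith))
  set X : ℝ := S / min c c' * (l : ℝ) ^ (K * e + e') with hX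
  have hX0 : 0 < X := by rw [hX]; positivity
  have hGe : (G : ℝ) ^ e = (l : ℝ) ^ (K * e) := by
    rw [hGdef, Nat.cast_pow, ← Real.rpow_natCast, ← Real.rpow_mul hl0.le]
  have hXA : S / A ≤ X := by
    rw [div_le_iff₀ hApos]
    have h1 : c * (l : ℝ) ^ (-(K * e)) ≤ A := by
      refine le_trans (le_of_eq ?_) hAlow
      rw [Real.rpow_neg hG0.le, hGe, Real.rpow_neg hl0.le]
    have h2 : S ≤ X * (c * (l : ℝ) ^ (-(K * e))) := by
      have h3 : X * (c * (l : ℝ) ^ (-(K * e))) = S * (c / min c c') * (l : ℝ) ^ e' := by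
        rw [hX, Real.rpow_add hl0, Real.rpow_neg hl0.le]
        field_simp
      rw [h3]
      have h4 : 1 ≤ c / min c c' := by
        rw [one_le_div hcc]
        exact min_le_left _ _
      have h5 : 1 ≤ (l : ℝ) ^ e' := Real.one_le_rpow hl1' he'
      calc S = S * 1 * 1 := by ring
        _ ≤ S * (c / min c c') * (l : ℝ) ^ e' := by gcongr
    exact h2.trans (mul_le_mul_of_nonneg_left h1 hX0.le)
  have hXB : S / B ≤ X := by
    rw [div_le_iff₀ hBpos]
    have h2 : S ≤ X * (c' * (l : ℝ) ^ (-e')) := by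
      have h3 : X * (c' * (l : ℝ) ^ (-e')) = S * (c' / min c c') * (l : ℝ) ^ (K * e) := by
        rw [hX, Real.rpow_add hl0, Real.rpow_neg hl0.le]
        field_simp
      rw [h3]
      have h4 : 1 ≤ c' / min c c' := by
        rw [one_le_div hcc]
        exact min_le_right _ _
      have h5 : 1 ≤ (l : ℝ) ^ (K * e) := Real.one_le_rpow hl1' (by positivity)
      calc S = S * 1 * 1 := by ring
        _ ≤ S * (c' / min c c') * (l : ℝ) ^ (K * e) := by gcongr
    exact h2.trans (mul_le_mul_of_nonneg_left hBlow hX0.le)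
  set S₁ : ℝ := 1 / p * (2 * G / γ₀) ^ (2 * τ) with hS₁
  set S₂ : ℝ := (A + Real.exp (-c₁) * B) * X ^ τ with hS₂
  have hS₁0 : 0 < S₁ := by rw [hS₁]; positivity
  have hS₂0 : 0 < S₂ := by rw [hS₂]; positivity
  have hS12 : S₁ * S₂ < 1 := by
    have h1 : (A + Real.exp (-c₁) * B) / p ≤ (1 + Real.exp (-c₁)) / 2 := by
      rw [div_le_iff₀ hp0, hp]
      have : Real.exp (-c₁) ≤ 1 := Real.exp_le_one_iff.2 (by linarith)
      nlinarith
    have h2 : (2 * (G : ℝ) / γ₀) ^ (2 * τ) * X ^ τ ≤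
        (4 / γ₀ ^ 2 * (S / min c c') * (l : ℝ) ^ ((2 + e + e') * K + (2 + e + e'))) ^ τ := by
      rw [Real.rpow_mul (by positivity), ← Real.mul_rpow (by positivity) hX0.le]
      refine Real.rpow_le_rpow (by positivity) ?_ hτ0.le
      have h3 : (2 * (G : ℝ) / γ₀) ^ (2 : ℝ) = 4 / γ₀ ^ 2 * (l : ℝ) ^ (2 * K : ℝ) := by
        rw [Real.rpow_two, hGdef, Nat.cast_pow, mul_comm (2 : ℝ) K, Real.rpow_mul hl0.le,
          Real.rpow_natCast, Real.rpow_two]
        field_simp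
        ring
      rw [h3, hX]
      have h4 : 4 / γ₀ ^ 2 * (l : ℝ) ^ (2 * K : ℝ) * (S / min c c' * (l : ℝ) ^ (K * e + e')) =
          4 / γ₀ ^ 2 * (S / min c c') * (l : ℝ) ^ (2 * K + (K * e + e')) := by
        rw [Real.rpow_add hl0 (2 * K)]
        ring
      rw [h4]
      refine mul_le_mul_of_nonneg_left ?_ (by positivity)
      refine Real.rpow_le_rpow_of_exponent_le hl1' ?_
      have hKr : (1 : ℝ) ≤ K := by exact_mod_cast hK1
      nlinarith
    calc S₁ * S₂ = (A + Real.exp (-c₁) * B) / p * ((2 * (G : ℝ) / γ₀) ^ (2 * τ) * X ^ τ) := by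
          rw [hS₁, hS₂]
          ring
      _ ≤ (1 + Real.exp (-c₁)) / 2 *
          (4 / γ₀ ^ 2 * (S / min c c') * (l : ℝ) ^ ((2 + e + e') * K + (2 + e + e'))) ^ τ :=
          mul_le_mul h1 h2 (by positivity) (by positivity)
      _ < 1 := hl4
  -- the two sums
  have hfrac := frac_bound ha₁0 hb₁0 ha₂0 hb₂0 μ hμ β (lmg μ β - δ) (γ := 1 - ε) (by linarith)
    (by linarith) (fun n => Real.exp (2 * n * δ) * Zr a₁ b₁ n (fun _ => 0))
    (fun n => mul_nonneg (Real.exp_pos _).le (defect_nonneg ha₁0 hb₁0 n _))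
    (fun n => mom_ann ha₁0 hb₁0 μ hμ β hδ0.le n) (S₁ := S₁) (S₂ := S₂) ?_ ?_ hS12
  · refine ⟨lmg μ β - δ, by linarith, max (Real.log (S₁ / (1 - S₁ * S₂)) / (1 - ε)) 0,
      fun n => ?_⟩
    have hfn := hfrac n
    have e1 : (fun k => a₁ k + a₂ k) = a := funext haa
    have e2 : (fun k => b₁ k + b₂ k) = b := funext hbb
    rw [e1, e2] at hfn
    by_cases hi : Integrable (fun ω => Real.log (Zr a b n (en β (lmg μ β - δ) ω))) (seqLaw μ)
    · have hCpos : 0 < S₁ / (1 - S₁ * S₂) := div_pos hS₁0 (by linarith)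
      have h2 := (MP_daa227_pr.exp_le_mom (by linarith : (0 : ℝ) ≤ 1 - ε)
        (X1.meas_Zr a b β (lmg μ β - δ) n) (fun ω => Zr_pos hK _ _) hi).trans hfn
      rw [ENNReal.ofReal_le_ofReal_iff hCpos.le] at h2
      have h3 := Real.log_le_log (Real.exp_pos _) h2
      rw [Real.log_exp] at h3
      refine le_trans ?_ (le_max_left _ _)
      rw [le_div_iff₀ (by linarith), mul_comm]
      exact h3
    · rw [integral_undef hi]
      exact le_max_right _ _
  · intro n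
    exact W6.sum_small (fun n => defect_nonneg ha₁0 hb₁0 n _) hp0 hp1
      (defect_sum ha₁0 hb₁0 hp0 hs) hG1
      (defect_decay ha₁0 hb₁0 hp0 hp1 hs hG1 (fun k hk => ⟨if_neg (by omega),
        if_neg (by omega)⟩)) hγ0 hγ1 hε0 hε2 hδ0.le hδ2 n
  · intro n
    have ha3 : ∑ k ∈ range n, a₂ (k + 1) ^ (1 - ε) ≤ A * X ^ τ := by
      have h1 := W6.sum_big (c := fun k => a₂ (k + 1)) (fun k => ha₂0 _) hApos hS0.le hγ0 hγ1
        hε0 hε2 (range n) ?_ ?_
      · refine h1.trans (mul_le_mul_of_nonneg_left ?_ hApos.le)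
        exact Real.rpow_le_rpow (by positivity) hXA hτ0.le
      · have h2 := hAle (range (n + 1))
        rw [Finset.sum_range_succ'] at h2
        linarith [ha₂0 0]
      · have h2 := hSa (range (n + 1))
        rw [Finset.sum_range_succ'] at h2
        have h3 : ∑ k ∈ range n, a₂ (k + 1) ^ γ₀ ≤ ∑ k ∈ range n, a (k + 1) ^ γ₀ :=
          Finset.sum_le_sum fun k _ => Real.rpow_le_rpow (ha₂0 _)
            (by linarith [haa (k + 1), ha₁0 (k + 1)]) hγ0.le
        linarith [Real.rpow_nonneg (ha0 0) γ₀]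
    have hb3 : ∑ k ∈ range n, b₂ (k + 1) ^ (1 - ε) ≤ B * X ^ τ := by
      have h1 := W6.sum_big (c := fun k => b₂ (k + 1)) (fun k => hb₂0 _) hBpos hS0.le hγ0 hγ1
        hε0 hε2 (range n) ?_ ?_
      · refine h1.trans (mul_le_mul_of_nonneg_left ?_ hBpos.le)
        exact Real.rpow_le_rpow (by positivity) hXB hτ0.le
      · have h2 := hBle (range (n + 1))
        rw [Finset.sum_range_succ'] at h2
        linarith [hb₂0 0]
      · have h2 := hSb (range (n + 1))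
        rw [Finset.sum_range_succ'] at h2
        have h3 : ∑ k ∈ range n, b₂ (k + 1) ^ γ₀ ≤ ∑ k ∈ range n, b (k + 1) ^ γ₀ :=
          Finset.sum_le_sum fun k _ => Real.rpow_le_rpow (hb₂0 _)
            (by linarith [hbb (k + 1), hb₁0 (k + 1)]) hγ0.le
        linarith [Real.rpow_nonneg (hb0 0) γ₀]
    have hb4 : ∀ k ∈ range n, b₂ (k + 1) ^ (1 - ε) * q ^ (2 * (k + 1)) ≤
        Real.exp (-c₁) * b₂ (k + 1) ^ (1 - ε) := by
      intro k _
      by_cases hk : l ≤ k + 1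
      · rw [mul_comm]
        refine mul_le_mul_of_nonneg_right ?_ (Real.rpow_nonneg (hb₂0 _) _)
        calc q ^ (2 * (k + 1)) ≤ Real.exp (-(c₁ * ε / 2)) ^ (2 * (k + 1)) :=
              pow_le_pow_left₀ hq0 hq1 _
          _ = Real.exp (-(c₁ * (ε * (k + 1 : ℕ)))) := by
              rw [← Real.exp_nat_mul]
              congr 1
              push_cast
              ring
          _ ≤ Real.exp (-c₁) := by
              rw [Real.exp_le_exp, neg_le_neg_iff]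
              have h6 : 1 ≤ ε * (k + 1 : ℕ) := by
                rw [hε, one_div, ← div_eq_inv_mul, one_le_div hl0]
                exact_mod_cast hk
              nlinarith
      · have h0 : b₂ (k + 1) = 0 := if_neg hk
        rw [h0, Real.zero_rpow (by linarith), zero_mul, mul_zero]
    have ha4 : ∀ k ∈ range n, a₂ (k + 1) ^ (1 - ε) * q ≤ a₂ (k + 1) ^ (1 - ε) := fun k _ =>
      mul_le_of_le_one_right (Real.rpow_nonneg (ha₂0 _) _) hq2
    rw [Finset.sum_add_distrib]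
    refine (add_le_add (Finset.sum_le_sum ha4) (Finset.sum_le_sum hb4)).trans ?_
    rw [← Finset.mul_sum, hS₂, add_mul]
    refine add_le_add ha3 ?_
    rw [mul_assoc]
    exact mul_le_mul_of_nonneg_left hb3 (Real.exp_pos _).le

end

end Pool.Agent.OT
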